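import Pool.Agent.WND.NzZ

/-!
# Plan W: names for the rows `0` and one moved row (helper96, over helper4's `fz`)

* `f0z ζ N z`: rows `0^N`; `fxz ζ N x z`: rows `x, 0^N` (`N + 1` rows), untwisted gauge;
* `f0t_eq`, `fxt_eq`: `f0t d N z = ga d z * f0z (zt d) N z`, the same for `fxt`.
-/

set_option autoImplicit false

noncomputable section

open Complex

namespace WND

open NUP1 (l)
open Pool.Agent.PB (Rws_zero Rws_cons)

/-- `N` rows at `0` -/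
def f0z (ζ : ℂ) (N : ℕ) (z : ℂ) : ℂ := fz ζ (fun _ : Fin N => (0 : ℂ)) z

/-- one row at `x`, `N` rows at `0` -/
def fxz (ζ : ℂ) (N : ℕ) (x z : ℂ) : ℂ :=
  fz ζ (Fin.cons x (fun _ : Fin N => (0 : ℂ)) : Fin (N + 1) → ℂ) z

theorem f0z_one (N : ℕ) (z : ℂ) : f0z 1 N z = Pool.Agent.PB.f0 N z := fz_one _ z

theorem fxz_one (N : ℕ) (x z : ℂ) : fxz 1 N x z = Pool.Agent.PB.fx N x z := fz_one _ z

theorem f0t_eq (d : ℂ) (N : ℕ) (z : ℂ) : f0t d N z = ga d z * f0z (zt d) N z := rfl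

theorem fxt_eq (d : ℂ) (N : ℕ) (x z : ℂ) : fxt d N x z = ga d z * fxz (zt d) N x z := rfl

theorem f0z_diff (ζ : ℂ) (N : ℕ) : DifferentiableOn ℂ (f0z ζ N) {z | |z.re| < 43 / 10 * l} :=
  fz_diff ζ (Rws_zero N)

theorem fxz_diff (ζ : ℂ) (N : ℕ) {x : ℂ} (h : |x.re| ≤ l / 2) :
    DifferentiableOn ℂ (fxz ζ N x) {z | |z.re| < 43 / 10 * l} := fz_diff ζ (Rws_cons h)

theorem fxz_zero (ζ : ℂ) (N : ℕ) (z : ℂ) : fxz ζ N 0 z = f0z ζ (N + 1) z := by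
  unfold fxz f0z
  congr 1
  funext i
  refine Fin.cases ?_ (fun j => ?_) i
  · simp
  · simp

theorem fxz_leg {ζ : ℂ} (hζ : ζ ≠ 0) (N : ℕ) {x : ℂ} (h : |x.re| ≤ l / 2) :
    fxz ζ N x (x + 3 * l) = ζ * f0z ζ N x := fz_leg hζ h (Rws_zero N)

theorem fxz_leg' {ζ : ℂ} (hζ : ζ ≠ 0) (N : ℕ) {x : ℂ} (h : |x.re| ≤ l / 2) :
    fxz ζ N x (x - 3 * l) = ζ⁻¹ * f0z ζ N x := fz_leg' hζ h (Rws_zero N)

theorem f0z_neg (ζ : ℂ) (N : ℕ) {z : ℂ} (hz : |z.re| < 43 / 10 * l) :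
    f0z ζ⁻¹ N (-z) = f0z ζ N z := by
  have h := fz_even ζ (Rws_zero N) hz
  have e : -(fun _ : Fin N => (0 : ℂ)) = fun _ : Fin N => (0 : ℂ) := by
    funext i
    simp
  rw [e] at h
  exact h

theorem norm_zt (d : ℝ) : ‖zt d‖ = 1 := by
  unfold zt
  rw [show (Real.pi : ℂ) * (d : ℂ) * I = ((Real.pi * d : ℝ) : ℂ) * I by push_cast; ring]
  exact Complex.norm_exp_ofReal_mul_I _

theorem norm_ga (d : ℝ) (z : ℂ) : ‖ga d z‖ = Real.exp (8 / 3 * d * z.im) := by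
  unfold ga
  rw [Complex.norm_exp]
  congr 1
  simp

end WND

end
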