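import Pool.Agent.WND.FunW
import Pool.Agent.WND.DefsZ
import Pool.Agent.PB.FunI

/-!
# Plan W: the function side for the literal function with winding weight (helper12)

`f0z w N z`, `fxz w N x z` (helper96 / helper4), `w = zt d = exp (i π d)`; `f0t d = ga d * f0z (zt d)`.

* inputs, uniform in `‖w‖ = 1`: `U0Z C` (crude bound), `U1Z` (sharp bounds), `E2Z c` ((E') in plan B's
  words, literally `PBV.E2` for `fxz w`); `E2Z_of_seq`, `U0Z_of_seq`, `U1Z_of_seq`: from statements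
  for an arbitrary sequence `zz j`, `‖zz j‖ = 1`;
* **`funW_f0t`**: `FunOW c (2 + (8/3) Dd) d (f0t d) (bK (f0t d) . 0) ginf` for `|d| ≤ Dd`, `ginf` continuous.
-/

set_option autoImplicit false

noncomputable section

open Complex MeasureTheory Set Filter Topology
open Pool.Agent.PB.Rec (seg Op)
open PBV (FD aL σL aL_pos σL_pos σL_lt two_σL log_ev bK aK pow_ev rP rM field_diff aL_eq σL_eq
  strip_open seg_Is FD_zero FD_cons ball_box)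
open WND (f0z fxz f0t fxt ga zt)
open NUP1 (l lpos)

namespace WNDF

/-! ### the gauge factor and the derivatives -/

theorem ga_hasDeriv (d z : ℂ) : HasDerivAt (ga d) (-(8 / 3) * I * d * ga d z) z := by
  have h1 : HasDerivAt (fun z : ℂ => -(8 / 3) * I * d * z) (-(8 / 3) * I * d) z := by
    simpa using (hasDerivAt_id z).const_mul (-(8 / 3) * I * d)
  have h2 := h1.cexp
  unfold ga
  refine h2.congr_deriv ?_
  ring

/-- the twisted derivatives of `ga d * F` are `ga d` times the derivatives of `F` -/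
theorem ga_leib {F : ℂ → ℂ} {U : Set ℂ} (hU : IsOpen U) (hF : DifferentiableOn ℂ F U) (d : ℂ) {z : ℂ}
    (hz : z ∈ U) :
    deriv (fun z => ga d z * F z) z + I * (8 / 3) * d * (ga d z * F z) = ga d z * deriv F z ∧
    deriv (deriv fun z => ga d z * F z) z + 2 * (I * (8 / 3) * d) * deriv (fun z => ga d z * F z) z +
      (I * (8 / 3) * d) ^ 2 * (ga d z * F z) = ga d z * deriv (deriv F) z := by
  have h1 : ∀ u ∈ U, deriv (fun z => ga d z * F z) u =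
      ga d u * deriv F u - I * (8 / 3) * d * (ga d u * F u) := by
    intro u hu
    have e1 := ((ga_hasDeriv d u).mul (hF.differentiableAt (hU.mem_nhds hu)).hasDerivAt).deriv
    have e2 : deriv (fun z => ga d z * F z) u = deriv (ga d * F) u := rfl
    rw [e2, e1]
    ring
  have h2 : deriv (deriv fun z => ga d z * F z) z =
      deriv (fun u => ga d u * deriv F u - I * (8 / 3) * d * (ga d u * F u)) z := by
    refine Filter.EventuallyEq.deriv_eq ?_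
    filter_upwards [hU.mem_nhds hz] with u hu
    exact h1 u hu
  have h3 : HasDerivAt (fun u => ga d u * deriv F u - I * (8 / 3) * d * (ga d u * F u))
      ((-(8 / 3) * I * d * ga d z * deriv F z + ga d z * deriv (deriv F) z) -
        I * (8 / 3) * d * (-(8 / 3) * I * d * ga d z * F z + ga d z * deriv F z)) z :=
    ((ga_hasDeriv d z).mul ((hF.deriv hU).differentiableAt (hU.mem_nhds hz)).hasDerivAt).sub
      (((ga_hasDeriv d z).mul (hF.differentiableAt (hU.mem_nhds hz)).hasDerivAt).const_mul _)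
  rw [h2, h3.deriv, h1 z hz]
  constructor <;> ring

/-- **the twisted operator on `ga d * F`** -/
theorem OpW_ga {F : ℂ → ℂ} {U : Set ℂ} (hU : IsOpen U) (hF : DifferentiableOn ℂ F U) (d : ℝ) (α : ℝ)
    (β : ℂ) (y : ℂ) {z : ℂ} (hz : z ∈ U) :
    OpW (8 / 3) α β d (fun z => ga d z * F z) y z = ga d z * Op α β F y z := by
  obtain ⟨h1, h2⟩ := ga_leib hU hF (d : ℂ) hz
  unfold OpW Op
  push_cast
  rw [h1, h2]
  ring

/-- **(E') at one point: from the gas form to the first order form** -/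
theorem epr_point {j : ℕ} (hj : 1 ≤ j) {c C1 M s : ℝ} (hs : s ∈ Icc (0 : ℝ) 1) {D g1 g2 : ℂ}
    (d1 : ‖g1‖ ≤ M) (d2 : ‖g2‖ ≤ M)
    (hD1 : ‖((j + 1 : ℝ) : ℂ) * D - (-(((rP j s - rM j s) / 8 : ℝ) : ℂ) * (-g2) -
      (((rP j s + rM j s) / 2 : ℝ) : ℂ) * (I * g1))‖ ≤ C1 * (j : ℝ) ^ (-c)) :
    ‖D - ((1 / j : ℝ) : ℂ) * (((exp (I * (8 / 3 : ℝ) * (I * s)))⁻¹ - exp (I * (8 / 3 : ℝ) * (I * s))) *
        ((1 / 8 : ℝ) : ℂ) * g2 +
      ((exp (I * (8 / 3 : ℝ) * (I * s)))⁻¹ + exp (I * (8 / 3 : ℝ) * (I * s))) * (-(I / 2)) * g1)‖ ≤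
      |C1| * (j : ℝ) ^ (-(1 + c)) + 2 * Real.exp (8 / 3) ^ 2 * (M / (j : ℝ) ^ 2) := by
  set Y : ℝ := Real.exp (8 / 3) with hY
  have hY1 : 1 ≤ Y := Real.one_le_exp (by norm_num)
  have hM0 : 0 ≤ M := (norm_nonneg _).trans d1
  have hj1 : (1 : ℝ) ≤ j := by exact_mod_cast hj
  have hj0 : (0 : ℝ) < j := by linarith
  set E : ℝ := Real.exp (8 / 3 * s) with hEd
  have hE0 : 0 < E := Real.exp_pos _
  have hEY : E ≤ Y := Real.exp_le_exp.2 (by linarith [hs.2])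
  have hE0' : 0 < E⁻¹ := by positivity
  have hE1 : 1 ≤ E := Real.one_le_exp (by linarith [hs.1])
  have hEY' : E⁻¹ ≤ Y := (inv_le_one_of_one_le₀ hE1).trans hY1
  have hEm : Real.exp (-(8 / 3 * s)) = E⁻¹ := by rw [hEd, Real.exp_neg]
  -- y
  have hy : exp (I * (8 / 3 : ℝ) * (I * s)) = ((E⁻¹ : ℝ) : ℂ) := by
    rw [← hEm, ofReal_exp]
    congr 1
    push_cast
    linear_combination (8 / 3 * s : ℂ) * I_sq
  have hy' : (exp (I * (8 / 3 : ℝ) * (I * s)))⁻¹ = ((E : ℝ) : ℂ) := by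
    rw [hy, ofReal_inv, inv_inv]
  rw [hy', hy]
  -- the two fields
  set A : ℝ := E / (j + E) with hA
  set B : ℝ := E⁻¹ / (j + E⁻¹) with hB
  have hrP : rP j s = (j + 1) * A := by
    unfold rP
    rw [← hEd, hA, mul_div_assoc]
  have hrM : rM j s = (j + 1) * B := by
    unfold rM
    rw [hEm, hB, mul_div_assoc]
  have hA1 := field_diff hj1 hE0 hEY
  have hB1 := field_diff hj1 hE0' hEY'
  rw [← hA] at hA1
  rw [← hB] at hB1
  -- first part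
  have p1 : ‖D - ((((A - B) / 8 : ℝ) : ℂ) * g2 - (((A + B) / 2 : ℝ) : ℂ) * (I * g1))‖ ≤
      |C1| * (j : ℝ) ^ (-(1 + c)) := by
    have e1 : ((j + 1 : ℝ) : ℂ) * D - (-(((rP j s - rM j s) / 8 : ℝ) : ℂ) * (-g2) -
        (((rP j s + rM j s) / 2 : ℝ) : ℂ) * (I * g1)) = ((j + 1 : ℝ) : ℂ) *
        (D - ((((A - B) / 8 : ℝ) : ℂ) * g2 - (((A + B) / 2 : ℝ) : ℂ) * (I * g1))) := by
      rw [hrP, hrM]
      push_cast
      ring
    rw [e1, norm_mul, norm_real, Real.norm_of_nonneg (by linarith)] at hD1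
    have e2 : (j : ℝ) ^ (-c) = (j : ℝ) * (j : ℝ) ^ (-(1 + c)) := by
      rw [show -c = 1 + -(1 + c) by ring, Real.rpow_add hj0, Real.rpow_one]
    have e3 : (j : ℝ) * ‖D - ((((A - B) / 8 : ℝ) : ℂ) * g2 - (((A + B) / 2 : ℝ) : ℂ) * (I * g1))‖ ≤
        (j : ℝ) * (|C1| * (j : ℝ) ^ (-(1 + c))) := by
      have e4 : 0 ≤ (j : ℝ) ^ (-c) := by positivity
      calc _ ≤ ((j : ℝ) + 1) * ‖D - ((((A - B) / 8 : ℝ) : ℂ) * g2 -
            (((A + B) / 2 : ℝ) : ℂ) * (I * g1))‖ := by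
            have := norm_nonneg (D - ((((A - B) / 8 : ℝ) : ℂ) * g2 - (((A + B) / 2 : ℝ) : ℂ) * (I * g1)))
            nlinarith
        _ ≤ C1 * (j : ℝ) ^ (-c) := hD1
        _ ≤ |C1| * (j : ℝ) ^ (-c) := by
            gcongr
            exact le_abs_self _
        _ = _ := by rw [e2]; ring
    exact le_of_mul_le_mul_left e3 hj0
  -- second part
  have p2 : ‖((((A - B) / 8 : ℝ) : ℂ) * g2 - (((A + B) / 2 : ℝ) : ℂ) * (I * g1)) -
      ((1 / j : ℝ) : ℂ) * ((((E : ℝ) : ℂ) - ((E⁻¹ : ℝ) : ℂ)) * ((1 / 8 : ℝ) : ℂ) * g2 +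
        (((E : ℝ) : ℂ) + ((E⁻¹ : ℝ) : ℂ)) * (-(I / 2)) * g1)‖ ≤ 2 * Y ^ 2 * (M / (j : ℝ) ^ 2) := by
    have e1 : ((((A - B) / 8 : ℝ) : ℂ) * g2 - (((A + B) / 2 : ℝ) : ℂ) * (I * g1)) -
      ((1 / j : ℝ) : ℂ) * ((((E : ℝ) : ℂ) - ((E⁻¹ : ℝ) : ℂ)) * ((1 / 8 : ℝ) : ℂ) * g2 +
        (((E : ℝ) : ℂ) + ((E⁻¹ : ℝ) : ℂ)) * (-(I / 2)) * g1) =
      (((A - E / j) - (B - E⁻¹ / j) : ℝ) : ℂ) * (1 / 8 * g2) -
      (((A - E / j) + (B - E⁻¹ / j) : ℝ) : ℂ) * (I / 2 * g1) := by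
      push_cast
      ring
    have hQ : ‖(((A - E / j) - (B - E⁻¹ / j) : ℝ) : ℂ)‖ ≤ 2 * (Y ^ 2 / j ^ 2) := by
      rw [norm_real, Real.norm_eq_abs]
      exact (abs_sub _ _).trans (by linarith)
    have hQ' : ‖(((A - E / j) + (B - E⁻¹ / j) : ℝ) : ℂ)‖ ≤ 2 * (Y ^ 2 / j ^ 2) := by
      rw [norm_real, Real.norm_eq_abs]
      exact (abs_add_le _ _).trans (by linarith)
    have hP : 0 ≤ Y ^ 2 / (j : ℝ) ^ 2 := by positivity
    rw [e1]
    refine (norm_sub_le _ _).trans ?_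
    rw [norm_mul _ ((1 / 8 : ℂ) * g2), norm_mul _ ((I / 2 : ℂ) * g1)]
    have g2n : ‖(1 / 8 : ℂ) * g2‖ ≤ 1 / 2 * M := by
      rw [norm_mul]
      have : ‖(1 / 8 : ℂ)‖ = 1 / 8 := by norm_num
      rw [this]
      nlinarith
    have g1n : ‖(I / 2 : ℂ) * g1‖ ≤ 1 / 2 * M := by
      rw [norm_mul]
      have : ‖(I / 2 : ℂ)‖ = 1 / 2 := by
        rw [norm_div, norm_I]
        norm_num
      rw [this]
      nlinarith
    calc _ ≤ 2 * (Y ^ 2 / j ^ 2) * (1 / 2 * M) + 2 * (Y ^ 2 / j ^ 2) * (1 / 2 * M) :=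
          add_le_add (mul_le_mul hQ g2n (norm_nonneg _) (by positivity))
            (mul_le_mul hQ' g1n (norm_nonneg _) (by positivity))
      _ = _ := by ring
  have e5 : D - ((1 / j : ℝ) : ℂ) * ((((E : ℝ) : ℂ) - ((E⁻¹ : ℝ) : ℂ)) * ((1 / 8 : ℝ) : ℂ) * g2 +
        (((E : ℝ) : ℂ) + ((E⁻¹ : ℝ) : ℂ)) * (-(I / 2)) * g1) =
      (D - ((((A - B) / 8 : ℝ) : ℂ) * g2 - (((A + B) / 2 : ℝ) : ℂ) * (I * g1))) +
      (((((A - B) / 8 : ℝ) : ℂ) * g2 - (((A + B) / 2 : ℝ) : ℂ) * (I * g1)) -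
      ((1 / j : ℝ) : ℂ) * ((((E : ℝ) : ℂ) - ((E⁻¹ : ℝ) : ℂ)) * ((1 / 8 : ℝ) : ℂ) * g2 +
        (((E : ℝ) : ℂ) + ((E⁻¹ : ℝ) : ℂ)) * (-(I / 2)) * g1)) := by ring
  rw [e5]
  exact (norm_add_le _ _).trans (add_le_add p1 p2)

/-! ### the inputs -/

/-- crude bound, all winding weights -/
def U0Z (C : ℝ) : Prop :=
  (∀ᶠ j : ℕ in atTop, ∀ w : ℂ, ‖w‖ = 1 → ∀ z : ℂ, |z.re| ≤ 18 / 5 * l →
    |z.im| ≤ 3 / 20 * Real.log j + 1 → ‖f0z w j z‖ ≤ (j : ℝ) ^ C) ∧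
  ∀ᶠ j : ℕ in atTop, ∀ w : ℂ, ‖w‖ = 1 → ∀ s ∈ Icc (0 : ℝ) 1, ∀ z : ℂ, |z.re| ≤ 18 / 5 * l →
    |z.im| ≤ 3 / 20 * Real.log j + 1 → ‖fxz w j (I * s) z‖ ≤ (j : ℝ) ^ C

/-- sharp bound, all winding weights -/
def U1Z : Prop := ∀ ε : ℝ, 0 < ε →
  (∀ᶠ j : ℕ in atTop, ∀ w : ℂ, ‖w‖ = 1 → ∀ z : ℂ, z.re = 0 → |z.im| ≤ 9 / 80 * Real.log j + 1 →
    ‖f0z w j z‖ ≤ (j : ℝ) ^ ε * Real.exp (2 * |z.im|)) ∧
  ∀ᶠ j : ℕ in atTop, ∀ w : ℂ, ‖w‖ = 1 → ∀ s ∈ Icc (0 : ℝ) 1, ∀ t ∈ Icc (0 : ℝ) 1,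
    ‖fxz w j (I * s) (I * t)‖ ≤ (j : ℝ) ^ ε

/-- (E') in the words of plan B, all winding weights -/
def E2Z (c : ℝ) : Prop :=
  ∃ C' : ℝ, ∀ᶠ j : ℕ in atTop, ∀ w : ℂ, ‖w‖ = 1 → ∀ s ∈ Icc (0 : ℝ) 1, ∀ t ∈ Icc (0 : ℝ) 1, ∃ D : ℂ,
    HasDerivAt (fun s : ℝ => fxz w j (I * s) (I * t)) D s ∧
    ‖((j + 1 : ℝ) : ℂ) * D - (-(((rP j s - rM j s) / 8 : ℝ) : ℂ) *
      (-deriv (deriv fun z => fxz w j (I * s) z) (I * t)) - (((rP j s + rM j s) / 2 : ℝ) : ℂ) *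
      (I * deriv (fun z => fxz w j (I * s) z) (I * t)))‖ ≤ C' * (j : ℝ) ^ (-c)

/-- **(E') from arbitrary sequences of winding weights** -/
theorem E2Z_of_seq {c : ℝ} (H : ∀ zz : ℕ → ℂ, (∀ j, ‖zz j‖ = 1) →
    PBV.E2 c (fun j z x => fxz (zz j) j x z)) : E2Z c := by
  have h := WNDS.unif_of_seq (D := {w : ℂ // ‖w‖ = 1})
    (P := fun j w C' => ∀ s ∈ Icc (0 : ℝ) 1, ∀ t ∈ Icc (0 : ℝ) 1, ∃ D : ℂ,
    HasDerivAt (fun s : ℝ => fxz w.1 j (I * s) (I * t)) D s ∧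
    ‖((j + 1 : ℝ) : ℂ) * D - (-(((rP j s - rM j s) / 8 : ℝ) : ℂ) *
      (-deriv (deriv fun z => fxz w.1 j (I * s) z) (I * t)) - (((rP j s + rM j s) / 2 : ℝ) : ℂ) *
      (I * deriv (fun z => fxz w.1 j (I * s) z) (I * t)))‖ ≤ C' * (j : ℝ) ^ (-c))
    (fun j w C C' hC h s hs t ht => by
      obtain ⟨D, h1, h2⟩ := h s hs t ht
      refine ⟨D, h1, h2.trans ?_⟩
      gcongr)
    (fun zz => H (fun j => (zz j).1) fun j => (zz j).2)
  obtain ⟨C', hC'⟩ := h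
  refine ⟨C', ?_⟩
  filter_upwards [hC'] with j hj w hw
  exact hj ⟨w, hw⟩

/-- the sharp bound from arbitrary sequences -/
theorem U1Z_of_seq (H : ∀ zz : ℕ → ℂ, (∀ j, ‖zz j‖ = 1) → ∀ ε : ℝ, 0 < ε →
    (∀ᶠ j : ℕ in atTop, ∀ z : ℂ, z.re = 0 → |z.im| ≤ 9 / 80 * Real.log j + 1 →
      ‖f0z (zz j) j z‖ ≤ (j : ℝ) ^ ε * Real.exp (2 * |z.im|)) ∧
    ∀ᶠ j : ℕ in atTop, ∀ s ∈ Icc (0 : ℝ) 1, ∀ t ∈ Icc (0 : ℝ) 1,
      ‖fxz (zz j) j (I * s) (I * t)‖ ≤ (j : ℝ) ^ ε) : U1Z := by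
  intro ε hε
  constructor
  · have h := WNDS.unif_ev (D := {w : ℂ // ‖w‖ = 1})
      (P := fun j w => ∀ z : ℂ, z.re = 0 → |z.im| ≤ 9 / 80 * Real.log j + 1 →
        ‖f0z w.1 j z‖ ≤ (j : ℝ) ^ ε * Real.exp (2 * |z.im|))
      (fun zz => (H (fun j => (zz j).1) (fun j => (zz j).2) ε hε).1)
    filter_upwards [h] with j hj w hw
    exact hj ⟨w, hw⟩
  · have h := WNDS.unif_ev (D := {w : ℂ // ‖w‖ = 1})
      (P := fun j w => ∀ s ∈ Icc (0 : ℝ) 1, ∀ t ∈ Icc (0 : ℝ) 1,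
        ‖fxz w.1 j (I * s) (I * t)‖ ≤ (j : ℝ) ^ ε)
      (fun zz => (H (fun j => (zz j).1) (fun j => (zz j).2) ε hε).2)
    filter_upwards [h] with j hj w hw
    exact hj ⟨w, hw⟩

/-- the crude bound from arbitrary sequences -/
theorem U0Z_of_seq {C : ℝ} (H : ∀ zz : ℕ → ℂ, (∀ j, ‖zz j‖ = 1) →
    (∀ᶠ j : ℕ in atTop, ∀ z : ℂ, |z.re| ≤ 18 / 5 * l → |z.im| ≤ 3 / 20 * Real.log j + 1 →
      ‖f0z (zz j) j z‖ ≤ (j : ℝ) ^ C) ∧
    ∀ᶠ j : ℕ in atTop, ∀ s ∈ Icc (0 : ℝ) 1, ∀ z : ℂ, |z.re| ≤ 18 / 5 * l →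
      |z.im| ≤ 3 / 20 * Real.log j + 1 → ‖fxz (zz j) j (I * s) z‖ ≤ (j : ℝ) ^ C) : U0Z C := by
  constructor
  · have h := WNDS.unif_ev (D := {w : ℂ // ‖w‖ = 1})
      (P := fun j w => ∀ z : ℂ, |z.re| ≤ 18 / 5 * l → |z.im| ≤ 3 / 20 * Real.log j + 1 →
        ‖f0z w.1 j z‖ ≤ (j : ℝ) ^ C)
      (fun zz => (H (fun j => (zz j).1) (fun j => (zz j).2)).1)
    filter_upwards [h] with j hj w hw
    exact hj ⟨w, hw⟩
  · have h := WNDS.unif_ev (D := {w : ℂ // ‖w‖ = 1})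
      (P := fun j w => ∀ s ∈ Icc (0 : ℝ) 1, ∀ z : ℂ, |z.re| ≤ 18 / 5 * l →
        |z.im| ≤ 3 / 20 * Real.log j + 1 → ‖fxz w.1 j (I * s) z‖ ≤ (j : ℝ) ^ C)
      (fun zz => (H (fun j => (zz j).1) (fun j => (zz j).2)).2)
    filter_upwards [h] with j hj w hw
    exact hj ⟨w, hw⟩

/-! ### the instance -/

/-- the twists -/
abbrev Tw (Dd : ℝ) : Type := {d : ℝ // |d| ≤ Dd}

theorem norm_ga_le {d Dd : ℝ} (h : |d| ≤ Dd) (z : ℂ) : ‖ga d z‖ ≤ Real.exp (8 / 3 * Dd * |z.im|) := by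
  rw [WND.norm_ga]
  apply Real.exp_le_exp.2
  have h1 : d * z.im ≤ Dd * |z.im| := by
    calc d * z.im ≤ |d * z.im| := le_abs_self _
      _ = |d| * |z.im| := abs_mul _ _
      _ ≤ Dd * |z.im| := by gcongr
  nlinarith

theorem norm_ga_inv_le {d Dd : ℝ} (h : |d| ≤ Dd) (z : ℂ) :
    ‖(ga d z)⁻¹‖ ≤ Real.exp (8 / 3 * Dd * |z.im|) := by
  rw [norm_inv, WND.norm_ga, ← Real.exp_neg]
  apply Real.exp_le_exp.2
  have h1 : -(d * z.im) ≤ Dd * |z.im| := by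
    calc -(d * z.im) ≤ |d * z.im| := neg_le_abs _
      _ = |d| * |z.im| := abs_mul _ _
      _ ≤ Dd * |z.im| := by gcongr
  nlinarith

theorem ga_ne (d z : ℂ) : ga d z ≠ 0 := exp_ne_zero _

/-- the gauge factor costs less than one power in the tall strip -/
theorem ga_strip {Dd : ℝ} (hD : Dd ≤ 1) : ∀ᶠ j : ℕ in atTop, ∀ d : ℝ, |d| ≤ Dd → ∀ z : ℂ,
    |z.im| ≤ 3 / 20 * Real.log j + 1 → ‖ga d z‖ ≤ (j : ℝ) ^ (1 : ℝ) := by
  filter_upwards [log_ev 5, eventually_ge_atTop 1] with j hL hj d hd z hz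
  have hj0 : (0 : ℝ) < j := by exact_mod_cast hj
  refine (norm_ga_le hd z).trans ?_
  rw [Real.rpow_def_of_pos hj0, mul_one]
  apply Real.exp_le_exp.2
  have h0 : 0 ≤ Dd := (abs_nonneg _).trans hd
  have h1 : Dd * |z.im| ≤ 1 * |z.im| := by gcongr
  nlinarith

/-- **the hypotheses of the function side** -/
theorem funHW_f0t {C Dd : ℝ} (hD : Dd ≤ 1) (h0 : U0Z C) (h1 : U1Z) :
    FunHW (ι := Tw Dd) (fun i => i.1) Dd (2 + 8 / 3 * Dd) (1 + C) (fun i => f0t (i.1 : ℂ))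
      (fun i j z x => fxt (i.1 : ℂ) j x z) := by
  have hl := lpos
  have hs : aL + σL = 18 / 5 * l := by
    rw [aL_eq, σL_eq]
    ring
  have hr : aL + σL < 43 / 10 * l := by
    rw [hs]
    linarith
  have hr' : σL < 13 / 10 * l := by
    rw [σL_eq]
    linarith
  have ha : ((aL : ℝ) : ℂ) = 3 * l := by
    rw [aL_eq]
    push_cast
    ring
  refine ⟨fun i => i.2, ?_, ?_, ?_, ?_, ?_, ?_⟩
  · filter_upwards [h0.1, ga_strip hD, eventually_ge_atTop 1] with j hj hg hj1 i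
    have hj0 : (0 : ℝ) < j := by exact_mod_cast hj1
    obtain ⟨Q, hQ, hz⟩ := WND.f0t_zeros (i.1 : ℂ) j
    refine FD_zero hr hr' (fun z h => (WND.f0t_diff (i.1 : ℂ) j).differentiableAt ((strip_open _).mem_nhds h))
      (fun z h => hQ.differentiableAt ((strip_open _).mem_nhds h)) (fun z _ => ?_) ?_
    · rw [ha]
      exact hz z
    · intro z h1 h2
      rw [two_σL] at h2
      rw [hs] at h1
      rw [WND.f0t_eq, norm_mul, Real.rpow_add hj0]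
      exact mul_le_mul (hg _ i.2 z h2) (hj _ (WND.norm_zt _) z h1 h2) (norm_nonneg _) (by positivity)
  · filter_upwards [h0.2, ga_strip hD, eventually_ge_atTop 1] with j hj hg hj1 i x hx
    have hj0 : (0 : ℝ) < j := by exact_mod_cast hj1
    obtain ⟨s, hs1, rfl⟩ := seg_Is hx
    have hx0 : |(I * (s : ℂ)).re| ≤ l / 2 := by
      simp
      linarith
    obtain ⟨Q, hQ, hz⟩ := WND.fxt_zeros (i.1 : ℂ) j hx0
    refine FD_cons hj1 (x := I * s) (by simp) (by simp [abs_of_nonneg hs1.1, hs1.2]) hr hr'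
      (fun z h => (WND.fxt_diff (i.1 : ℂ) j hx0).differentiableAt ((strip_open _).mem_nhds h))
      (fun z h => hQ.differentiableAt ((strip_open _).mem_nhds h)) (fun z _ => ?_) ?_
    · rw [ha]
      exact hz z
    · intro z h1 h2
      rw [two_σL] at h2
      rw [hs] at h1
      rw [WND.fxt_eq, norm_mul, Real.rpow_add hj0]
      exact mul_le_mul (hg _ i.2 z h2) (hj _ (WND.norm_zt _) s hs1 z h1 h2) (norm_nonneg _) (by positivity)
  · exact Filter.Eventually.of_forall fun j i z => WND.fxt_zero (i.1 : ℂ) j z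
  · refine Filter.Eventually.of_forall fun j i x hx => ?_
    obtain ⟨s, hs1, rfl⟩ := seg_Is hx
    have hx0 : |(I * (s : ℂ)).re| ≤ l / 2 := by
      simp
      linarith
    have := WND.fxt_leg (i.1 : ℂ) j hx0
    rw [ha]
    exact this
  · intro ε hε
    filter_upwards [(h1 ε hε).1] with j hj i z hz hzi
    rw [WND.f0t_eq, norm_mul]
    have e1 := hj _ (WND.norm_zt i.1) z hz hzi
    have e2 := norm_ga_le i.2 z
    calc ‖ga (i.1 : ℂ) z‖ * ‖f0z (zt i.1) j z‖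
        ≤ Real.exp (8 / 3 * Dd * |z.im|) * ((j : ℝ) ^ ε * Real.exp (2 * |z.im|)) :=
          mul_le_mul e2 e1 (norm_nonneg _) (by positivity)
      _ = (j : ℝ) ^ ε * (Real.exp (8 / 3 * Dd * |z.im|) * Real.exp (2 * |z.im|)) := by ring
      _ = _ := by
        rw [← Real.exp_add]
        congr 2
        ring
  · intro ε hε
    filter_upwards [(h1 (ε / 2) (by positivity)).2,
      pow_ev (show 0 < ε / 2 by positivity) (Real.exp (8 / 3 * Dd)), eventually_ge_atTop 1]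
      with j hj hE hj1 i x hx t ht
    have hj0 : (0 : ℝ) < j := by exact_mod_cast hj1
    obtain ⟨s, hs1, rfl⟩ := seg_Is hx
    show ‖fxt (i.1 : ℂ) j (I * s) (I * t)‖ ≤ (j : ℝ) ^ ε
    rw [WND.fxt_eq, norm_mul]
    have e1 := hj _ (WND.norm_zt i.1) s hs1 t ht
    have e2 : ‖ga (i.1 : ℂ) (I * t)‖ ≤ Real.exp (8 / 3 * Dd) := by
      refine (norm_ga_le i.2 _).trans ?_
      apply Real.exp_le_exp.2
      have e3 : |(I * (t : ℂ)).im| ≤ 1 := by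
        simp [abs_of_nonneg ht.1, ht.2]
      have h0 : 0 ≤ Dd := (abs_nonneg _).trans i.2
      nlinarith
    calc ‖ga (i.1 : ℂ) (I * t)‖ * ‖fxz (zt i.1) j (I * s) (I * t)‖
        ≤ (j : ℝ) ^ (ε / 2) * (j : ℝ) ^ (ε / 2) :=
          mul_le_mul (e2.trans hE) e1 (norm_nonneg _) (by positivity)
      _ = (j : ℝ) ^ ε := by rw [← Real.rpow_add hj0, add_halves]

/-- **the first order identity with a twist** -/
theorem eprW_f0t {C c Dd : ℝ} (hD : Dd ≤ 1) (hc1 : c < 1) (h0 : U0Z C) (h1 : U1Z) (hE : E2Z c) :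
    EPrW (ι := Tw Dd) c (fun i => i.1) (fun i j z x => fxt (i.1 : ℂ) j x z) := by
  have hl := lpos
  obtain ⟨C1, hE⟩ := hE
  have hH := funHW_f0t hD h0 h1
  set Y : ℝ := Real.exp (8 / 3) with hY
  have hY1 : 1 ≤ Y := Real.one_le_exp (by norm_num)
  refine ⟨Y * (|C1| + 2 * Y ^ 2 * (Y * 16)), ?_⟩
  filter_upwards [hE, hH.dbd (show 0 < 1 - c by linarith), eventually_ge_atTop 1] with j a1 a2 a3 i s hs t ht
  have hj1 : (1 : ℝ) ≤ j := by exact_mod_cast a3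
  have hj0 : (0 : ℝ) < j := by linarith
  obtain ⟨D, hD1, hD2⟩ := a1 _ (WND.norm_zt i.1) s hs t ht
  have hx : I * (s : ℂ) ∈ seg 0 := ⟨s, hs, by simp⟩
  have hx0 : |(I * (s : ℂ)).re| ≤ l / 2 := by
    simp
    linarith
  obtain ⟨b0, b1, b2⟩ := a2 i _ hx t ht
  set F : ℂ → ℂ := fxz (zt i.1) j (I * s) with hF
  set U : Set ℂ := {z | |z.re| < 43 / 10 * l} with hU
  have hUo : IsOpen U := strip_open _
  have hFd : DifferentiableOn ℂ F U := WND.fxz_diff (zt i.1) j hx0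
  have hzU : I * (t : ℂ) ∈ U := by
    show |(I * (t : ℂ)).re| < 43 / 10 * l
    simp
    linarith
  have hfun : (fun z => fxt (i.1 : ℂ) j (I * s) z) = fun z => ga (i.1 : ℂ) z * F z := by
    funext z
    rw [WND.fxt_eq]
  have hgt : |(I * (t : ℂ)).im| ≤ 1 := by simp [abs_of_nonneg ht.1, ht.2]
  have hga : ‖ga (i.1 : ℂ) (I * t)‖ ≤ Y := by
    refine (norm_ga_le (i.2.trans hD) _).trans ?_
    rw [hY]
    apply Real.exp_le_exp.2
    nlinarith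
  have hga' : ‖(ga (i.1 : ℂ) (I * t))⁻¹‖ ≤ Y := by
    refine (norm_ga_inv_le (i.2.trans hD) _).trans ?_
    rw [hY]
    apply Real.exp_le_exp.2
    nlinarith
  have hgne := ga_ne (i.1 : ℂ) (I * t)
  -- the derivatives of F
  obtain ⟨l1, l2⟩ := ga_leib hUo hFd (i.1 : ℂ) hzU
  rw [← hfun] at l1 l2
  have hn : ‖I * (8 / 3) * ((i.1 : ℝ) : ℂ)‖ ≤ 8 / 3 := by
    rw [norm_mul, norm_mul, norm_I, one_mul, norm_real, Real.norm_eq_abs]
    have e1 : ‖(8 / 3 : ℂ)‖ = 8 / 3 := by norm_num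
    rw [e1]
    exact mul_le_of_le_one_right (by norm_num) (i.2.trans hD)
  set S : ℝ := (j : ℝ) ^ (1 - c) with hS
  have hS0 : 0 ≤ S := by positivity
  have e0 : ga (i.1 : ℂ) (I * t) * F (I * t) = fxt (i.1 : ℂ) j (I * s) (I * t) := by rw [WND.fxt_eq]
  rw [e0] at l1 l2
  have m1 : ‖deriv F (I * t)‖ ≤ Y * 16 * S := by
    have e1 : deriv F (I * t) = (ga (i.1 : ℂ) (I * t))⁻¹ *
        (deriv (fun z => fxt (i.1 : ℂ) j (I * s) z) (I * t) + I * (8 / 3) * (i.1 : ℝ) *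
          fxt (i.1 : ℂ) j (I * s) (I * t)) := by
      rw [l1, inv_mul_cancel_left₀ hgne]
    rw [e1, norm_mul]
    have e2 : ‖deriv (fun z => fxt (i.1 : ℂ) j (I * s) z) (I * t) + I * (8 / 3) * (i.1 : ℝ) *
          fxt (i.1 : ℂ) j (I * s) (I * t)‖ ≤ 16 * S := by
      refine (norm_add_le _ _).trans ?_
      rw [norm_mul]
      have e3 := mul_le_mul hn b0 (norm_nonneg _) (by norm_num : (0 : ℝ) ≤ 8 / 3)
      linarith
    calc _ ≤ Y * (16 * S) := mul_le_mul hga' e2 (norm_nonneg _) (by positivity)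
      _ = _ := by ring
  have m2 : ‖deriv (deriv F) (I * t)‖ ≤ Y * 16 * S := by
    have e1 : deriv (deriv F) (I * t) = (ga (i.1 : ℂ) (I * t))⁻¹ *
        (deriv (deriv fun z => fxt (i.1 : ℂ) j (I * s) z) (I * t) +
          2 * (I * (8 / 3) * (i.1 : ℝ)) * deriv (fun z => fxt (i.1 : ℂ) j (I * s) z) (I * t) +
          (I * (8 / 3) * (i.1 : ℝ)) ^ 2 * fxt (i.1 : ℂ) j (I * s) (I * t)) := by
      rw [l2, inv_mul_cancel_left₀ hgne]
    rw [e1, norm_mul]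
    have e2 : ‖deriv (deriv fun z => fxt (i.1 : ℂ) j (I * s) z) (I * t) +
          2 * (I * (8 / 3) * (i.1 : ℝ)) * deriv (fun z => fxt (i.1 : ℂ) j (I * s) z) (I * t) +
          (I * (8 / 3) * (i.1 : ℝ)) ^ 2 * fxt (i.1 : ℂ) j (I * s) (I * t)‖ ≤ 16 * S := by
      refine (norm_add_le _ _).trans ((add_le_add (norm_add_le _ _) le_rfl).trans ?_)
      rw [norm_mul (2 * (I * (8 / 3) * ((i.1 : ℝ) : ℂ))), norm_mul (2 : ℂ),
        norm_mul ((I * (8 / 3) * ((i.1 : ℝ) : ℂ)) ^ 2), norm_pow]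
      have e4 : ‖(2 : ℂ)‖ = 2 := by norm_num
      rw [e4]
      have e5 : ‖I * (8 / 3) * ((i.1 : ℝ) : ℂ)‖ ^ 2 ≤ (8 / 3 : ℝ) ^ 2 := by gcongr
      have e6 := mul_le_mul e5 b0 (norm_nonneg _) (by norm_num : (0 : ℝ) ≤ (8 / 3) ^ 2)
      have e7 := mul_le_mul hn b1 (norm_nonneg _) (by norm_num : (0 : ℝ) ≤ 8 / 3)
      linarith
    calc _ ≤ Y * (16 * S) := mul_le_mul hga' e2 (norm_nonneg _) (by positivity)
      _ = _ := by ring
  have key := epr_point a3 hs m1 m2 hD2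
  refine ⟨ga (i.1 : ℂ) (I * t) * D, ?_, ?_⟩
  · have h2 := hD1.const_mul (ga (i.1 : ℂ) (I * t))
    refine h2.congr_of_eventuallyEq (Eventually.of_forall fun s' => ?_)
    show fxt (i.1 : ℂ) j (I * s') (I * t) = _
    rw [WND.fxt_eq]
  · have e1 : (fun z => fxt (i.1 : ℂ) j (I * s) z) = fun z => ga ((i.1 : ℝ) : ℂ) z * F z := hfun
    rw [e1, OpW_ga hUo hFd i.1 (1 / 8) (-(I / 2)) _ hzU]
    unfold Op
    have e2 : ga (i.1 : ℂ) (I * t) * D - ((1 / j : ℝ) : ℂ) * (ga (i.1 : ℂ) (I * t) *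
        (((exp (I * (8 / 3 : ℝ) * (I * s)))⁻¹ - exp (I * (8 / 3 : ℝ) * (I * s))) *
          ((1 / 8 : ℝ) : ℂ) * deriv (deriv F) (I * t) +
        ((exp (I * (8 / 3 : ℝ) * (I * s)))⁻¹ + exp (I * (8 / 3 : ℝ) * (I * s))) * (-(I / 2)) *
          deriv F (I * t))) = ga (i.1 : ℂ) (I * t) * (D - ((1 / j : ℝ) : ℂ) *
        (((exp (I * (8 / 3 : ℝ) * (I * s)))⁻¹ - exp (I * (8 / 3 : ℝ) * (I * s))) *
          ((1 / 8 : ℝ) : ℂ) * deriv (deriv F) (I * t) +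
        ((exp (I * (8 / 3 : ℝ) * (I * s)))⁻¹ + exp (I * (8 / 3 : ℝ) * (I * s))) * (-(I / 2)) *
          deriv F (I * t))) := by ring
    rw [e2, norm_mul]
    refine (mul_le_mul hga key (norm_nonneg _) (by positivity)).trans ?_
    have e3 : Y * 16 * S / (j : ℝ) ^ 2 = Y * 16 * (j : ℝ) ^ (-(1 + c)) := by
      rw [hS, mul_div_assoc]
      congr 1
      rw [div_eq_iff (by positivity), ← Real.rpow_natCast (j : ℝ) 2, ← Real.rpow_add hj0]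
      congr 1
      push_cast
      ring
    rw [e3]
    refine le_of_eq ?_
    ring

/-- **THE FUNCTION SIDE WITH A TWIST, LITERAL** -/
theorem funW_f0t {C c Dd : ℝ} (hD0 : 0 ≤ Dd) (hD : Dd ≤ 1 / 10) (hc : nuW Dd < c) (hc1 : c ≤ 1 / 2)
    (h0 : U0Z C) (h1 : U1Z) (hE : E2Z c) :
    ∃ ginf : Tw Dd → ℂ, Continuous ginf ∧
      FunOW c (2 + 8 / 3 * Dd) (fun i : Tw Dd => i.1) (fun i => f0t (i.1 : ℂ))
        (fun i j => bK (f0t (i.1 : ℂ)) j 0) ginf := by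
  have hl := lpos
  have hH := funHW_f0t (Dd := Dd) (by linarith) h0 h1
  obtain ⟨ginf, hg⟩ := hH.out (by positivity) hc (by nlinarith) (by linarith)
    (eprW_f0t (by linarith) (by linarith) h0 h1 hE)
  refine ⟨ginf, hg.cont (fun i => i.2) hc continuous_subtype_val (Eventually.of_forall fun j => ?_), hg⟩
  rw [continuous_iff_continuousAt]
  intro i0
  have e0 : |(0 : ℂ).re| < 43 / 10 * l := by
    simp
    linarith
  exact WND.ft_tendsto (F := 𝓝 i0) (d := fun i : Tw Dd => (i.1 : ℂ)) (z := fun _ => 0)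
    (x := fun _ => fun _ : Fin j => (0 : ℂ)) (d0 := (i0.1 : ℂ)) (z0 := 0) (x0 := fun _ => 0)
    ((Complex.continuous_ofReal.comp continuous_subtype_val).tendsto i0) tendsto_const_nhds
    (fun _ => tendsto_const_nhds) (Eventually.of_forall fun _ => Pool.Agent.PB.Rws_zero j)
    (Pool.Agent.PB.Rws_zero j) e0

/-- **the value at a height for the function with its monodromy**:
`f0z (zt d) j z = exp ((8/3) i d z) (g + small)` -/
theorem valz {c Dd : ℝ} {g : Tw Dd → ℕ → ℂ} {ginf : Tw Dd → ℂ}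
    (h : FunOW c (2 + 8 / 3 * Dd) (fun i : Tw Dd => i.1) (fun i => f0t (i.1 : ℂ)) g ginf) :
    ∀ ρ : ℝ, 0 ≤ ρ → ρ < σL → ∀ ε : ℝ, 0 < ε → ∀ᶠ j : ℕ in atTop, ∀ i : Tw Dd, ∀ z : ℂ,
      |z.re| ≤ aL + ρ → |z.im| ≤ 9 / 80 * Real.log j →
      ‖f0z (zt i.1) j z - exp (8 / 3 * I * (i.1 : ℂ) * z) * g i j‖ ≤
        (j : ℝ) ^ (-(c * (1 - |z.im| / (9 / 80 * Real.log j))) + ε) *
          Real.exp ((2 + 16 / 3 * Dd) * |z.im|) := by
  intro ρ hρ hρσ ε hε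
  filter_upwards [h.val ρ hρ hρσ ε hε] with j hj i z hz hzi
  have e1 : exp (8 / 3 * I * (i.1 : ℂ) * z) = (ga (i.1 : ℂ) z)⁻¹ := by
    unfold ga
    rw [← exp_neg]
    congr 1
    ring
  have e2 : f0z (zt i.1) j z = (ga (i.1 : ℂ) z)⁻¹ * f0t (i.1 : ℂ) j z := by
    rw [WND.f0t_eq, inv_mul_cancel_left₀ (ga_ne _ _)]
  rw [e1, e2, ← mul_sub, norm_mul]
  calc ‖(ga (i.1 : ℂ) z)⁻¹‖ * ‖f0t (i.1 : ℂ) j z - g i j‖
      ≤ Real.exp (8 / 3 * Dd * |z.im|) *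
        ((j : ℝ) ^ (-(c * (1 - |z.im| / (9 / 80 * Real.log j))) + ε) *
          Real.exp ((2 + 8 / 3 * Dd) * |z.im|)) :=
        mul_le_mul (norm_ga_inv_le i.2 z) (hj i z hz hzi) (norm_nonneg _) (by positivity)
    _ = (j : ℝ) ^ (-(c * (1 - |z.im| / (9 / 80 * Real.log j))) + ε) *
          (Real.exp (8 / 3 * Dd * |z.im|) * Real.exp ((2 + 8 / 3 * Dd) * |z.im|)) := by ring
    _ = _ := by
      rw [← Real.exp_add]
      congr 2
      ring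

end WNDF
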