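import Mathlib

/-!
# Uniformity from sequences (helper38, PLAN W)

A statement about level `j` and a parameter `d`, proved for the levels of an arbitrary sequence of
parameters, holds uniformly in the parameter.

* `unif_ev`: `(∀ zz, ∀ᶠ j, P j (zz j)) → ∀ᶠ j, ∀ d, P j d`;
* `unif_of_seq`: `(∀ zz, ∃ C, ∀ᶠ j, P j (zz j) C) → ∃ C, ∀ᶠ j, ∀ d, P j d C` (`P` monotone in `C`);
* `unif_small`: the same with a smallness parameter in front.
-/

set_option autoImplicit false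

noncomputable section

open Filter Topology

namespace WNDS

variable {D : Type*}

/-- no constant -/
theorem unif_ev {P : ℕ → D → Prop} (H : ∀ zz : ℕ → D, ∀ᶠ j in atTop, P j (zz j)) :
    ∀ᶠ j in atTop, ∀ d, P j d := by
  classical
  by_cases hD : Nonempty D
  · obtain ⟨d0⟩ := hD
    have h := H fun j => if h : ∃ d, ¬P j d then h.choose else d0
    filter_upwards [h] with j hj d
    by_contra hd
    have h1 : ∃ d, ¬P j d := ⟨d, hd⟩
    rw [dif_pos h1] at hj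
    exact h1.choose_spec hj
  · exact Eventually.of_forall fun j d => absurd ⟨d⟩ hD

/-- with a smallness parameter and a constant -/
theorem unif_small {Q : Type*} {P : Q → ℕ → D → ℝ → Prop} {sm : Q → ℝ → Prop}
    (hP : ∀ q j d C C', C ≤ C' → P q j d C → P q j d C')
    (hs : ∀ q a b, a ≤ b → sm q a → sm q b)
    (H : ∀ zz : ℕ → D, ∃ a : ℝ, 0 < a ∧ ∀ q, sm q a → ∃ C : ℝ, ∀ᶠ j in atTop, P q j (zz j) C) :
    ∃ a : ℝ, 0 < a ∧ ∀ q, sm q a → ∃ C : ℝ, ∀ᶠ j in atTop, ∀ d, P q j d C := by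
  classical
  by_cases hD : Nonempty D
  swap
  · exact ⟨1, one_pos, fun q _ => ⟨0, Eventually.of_forall fun j d => absurd ⟨d⟩ hD⟩⟩
  obtain ⟨d0⟩ := hD
  by_contra hcon
  have h1 : ∀ n : ℕ, ∃ q, sm q (1 / ((n : ℝ) + 1)) ∧ ∀ C : ℝ, ∃ᶠ j in atTop, ∃ d, ¬P q j d C := by
    intro n
    by_contra h
    apply hcon
    refine ⟨1 / ((n : ℝ) + 1), by positivity, fun q hq => ?_⟩
    by_contra h2
    apply h
    refine ⟨q, hq, fun C => ?_⟩
    intro h3
    apply h2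
    refine ⟨C, ?_⟩
    filter_upwards [h3] with j hj d
    by_contra hd
    exact hj ⟨d, hd⟩
  choose q hq1 hq2 using h1
  obtain ⟨φ, hφ, h2⟩ := extraction_forall_of_frequently
    (P := fun m j => ∃ d, ¬P (q (Nat.unpair m).1) j d ((Nat.unpair m).2 : ℝ))
    (fun m => hq2 (Nat.unpair m).1 ((Nat.unpair m).2 : ℝ))
  choose dd hdd using h2
  obtain ⟨zz, hzz⟩ : ∃ zz : ℕ → D, ∀ m, zz (φ m) = dd m := by
    refine ⟨fun j => if h : ∃ m, φ m = j then dd h.choose else d0, fun m => ?_⟩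
    have h : ∃ m', φ m' = φ m := ⟨m, rfl⟩
    have h3 : h.choose = m := hφ.injective h.choose_spec
    show (if h : ∃ m', φ m' = φ m then dd h.choose else d0) = dd m
    rw [dif_pos h, h3]
  obtain ⟨a, ha, h3⟩ := H zz
  obtain ⟨n, hn⟩ : ∃ n : ℕ, 1 / ((n : ℝ) + 1) ≤ a := by
    obtain ⟨n, hn⟩ := exists_nat_one_div_lt ha
    exact ⟨n, hn.le⟩
  obtain ⟨C, hC⟩ := h3 (q n) (hs _ _ _ hn (hq1 n))
  obtain ⟨j0, hj0⟩ := eventually_atTop.1 hC
  obtain ⟨c, hc⟩ := exists_nat_ge (max C (j0 : ℝ))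
  have hc1 : C ≤ c := (le_max_left _ _).trans hc
  have hc2 : j0 ≤ c := by exact_mod_cast (le_max_right _ _).trans hc
  have h4 := hdd (Nat.pair n c)
  rw [Nat.unpair_pair] at h4
  have h5 : j0 ≤ φ (Nat.pair n c) :=
    hc2.trans ((Nat.right_le_pair n c).trans (hφ.id_le _))
  have h6 := hj0 _ h5
  rw [hzz] at h6
  exact h4 (hP _ _ _ _ _ hc1 h6)

/-- with a constant -/
theorem unif_of_seq {P : ℕ → D → ℝ → Prop} (hP : ∀ j d C C', C ≤ C' → P j d C → P j d C')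
    (H : ∀ zz : ℕ → D, ∃ C : ℝ, ∀ᶠ j in atTop, P j (zz j) C) :
    ∃ C : ℝ, ∀ᶠ j in atTop, ∀ d, P j d C := by
  obtain ⟨a, -, h⟩ := unif_small (Q := Unit) (P := fun _ j d C => P j d C) (sm := fun _ _ => True)
    (fun _ j d C C' h => hP j d C C' h) (fun _ _ _ _ h => h)
    (fun zz => ⟨1, one_pos, fun _ _ => H zz⟩)
  exact h () trivial

end WNDS

end
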