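import Pool.Agent.PB.UBN
import Pool.Agent.PB.QMomC

/-!
# PLAN W: coefficients of the same norm (helper38)

The weight `wN Z P N η η' c` of the configuration space carries a coefficient `c n` (`n` = number of
quanta of a group). All bounds contain `‖c n‖` only:

* `norm_wN`: `‖wN .. c' x‖ = ‖wN .. c x‖` for `‖c' n‖ = ‖c n‖`;
* `M2.nw`, `L1.nw`, `Mom4.nw`, `MBd.nw`, `FAN_nw`, `WI.nw`: transfer of the bounds;
* `tw ζ m n = ζ ^ (m - n)`: the twist, of norm one for `‖ζ‖ = 1`.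
-/

set_option autoImplicit false
set_option linter.unusedSectionVars false

noncomputable section

open Complex MeasureTheory Finset
open scoped ENNReal

/-! ### general weights -/

namespace PBFunc

variable {Ω : Type*} [MeasurableSpace Ω] {μ : Measure Ω} {w w' A : Ω → ℂ} {K a : ℝ}

theorem M2.nw (h : M2 μ w K A a) (e : ∀ ω, ‖w' ω‖ = ‖w ω‖) : M2 μ w' K A a := by
  unfold M2 at *
  simpa only [e] using h

theorem L1.nw (h : L1 μ w A a) (e : ∀ ω, ‖w' ω‖ = ‖w ω‖) : L1 μ w' A a := by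
  unfold L1 at *
  simpa only [e] using h

theorem WI.nw0 (h : WI μ w A) (e : ∀ ω, ‖w' ω‖ = ‖w ω‖)
    (hm : AEStronglyMeasurable (fun ω => w' ω * A ω) μ) : WI μ w' A := by
  refine ⟨hm, ?_⟩
  have h1 := h.2
  rw [hasFiniteIntegral_iff_norm] at h1 ⊢
  refine lt_of_le_of_lt (le_of_eq (lintegral_congr fun ω => ?_)) h1
  rw [norm_mul, norm_mul, e]

end PBFunc

namespace PBQM

variable {Ω : Type*} [MeasurableSpace Ω] {μ : Measure Ω} {w w' : Ω → ℂ}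
  {V : (Bool → ℂ → ℂ) → Ω → ℂ} {y₁ y₂ K : ℝ}

theorem Mom4.nw (h : Mom4 μ w V y₁ y₂ K) (e : ∀ ω, ‖w' ω‖ = ‖w ω‖) : Mom4 μ w' V y₁ y₂ K := by
  intro M g hM hg
  have e1 : ∀ ω, ‖w' ω‖ₑ = ‖w ω‖ₑ := fun ω => by rw [← ofReal_norm, ← ofReal_norm, e]
  simpa only [e1] using h M g hM hg

end PBQM

/-! ### the weight of the configuration space -/

namespace PBF

open NUO NUP1 NUP1S NUP1S.Ab NUP1S.AbC NUGC PBFunc

variable {Z : ℕ → Bool → Option O3 → ℂ → ℂ} {P : ℕ → NUO.Par} {N : ℕ} {η η' : ℕ → Crs}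
  {c c' : ℕ → ℂ}

theorem norm_wN (e : ∀ n, ‖c' n‖ = ‖c n‖) (x : CfN N) :
    ‖wN Z P N η η' c' x‖ = ‖wN Z P N η η' c x‖ := by
  unfold wN
  rw [norm_mul, norm_mul, e]

theorem enorm_wN (e : ∀ n, ‖c' n‖ = ‖c n‖) (x : CfN N) :
    ‖wN Z P N η η' c' x‖ₑ = ‖wN Z P N η η' c x‖ₑ := by
  rw [← ofReal_norm, ← ofReal_norm, norm_wN e]

theorem FAN_nw (e : ∀ n, ‖c' n‖ = ‖c n‖) (Ψ : ℕ → Ins) :
    FAN Z P N η η' c' Ψ = FAN Z P N η η' c Ψ := by
  have e1 : ∀ n, ‖c' n‖ₑ = ‖c n‖ₑ := fun n => by rw [← ofReal_norm, ← ofReal_norm, e]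
  unfold FAN
  simp only [e1]

/-- the coefficient may be changed -/
theorem WI_nw {O : CfN N → ℂ} (h : WI (mN N) (wN Z P N η η' c) O) (e : ∀ n, ‖c' n‖ = ‖c n‖) :
    WI (mN N) (wN Z P N η η' c') O := by
  unfold WI mN at *
  rw [integrable_sig] at *
  intro n
  have h1 := h n
  by_cases hc : c n = 0
  · have hc' : c' n = 0 := by rw [← norm_eq_zero, e, hc, norm_zero]
    have e2 : (fun x => wN Z P N η η' c' ⟨n, x⟩ * O ⟨n, x⟩) = fun _ => 0 := by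
      funext x
      unfold wN
      simp only [hc', zero_mul]
    rw [e2]
    exact integrable_zero _ _ _
  · have e2 : (fun x => wN Z P N η η' c' ⟨n, x⟩ * O ⟨n, x⟩) = fun x =>
        (c' n / c n) * (wN Z P N η η' c ⟨n, x⟩ * O ⟨n, x⟩) := by
      funext x
      unfold wN
      simp only
      field_simp
    rw [e2]
    exact h1.const_mul _

end PBF

namespace PBU

open NUO NUP1 NUP1S NUP1S.Ab NUP1S.AbC NUGC PBF PBP PBFunc

variable {Z : ℕ → Bool → Option O3 → ℂ → ℂ} {P : ℕ → NUO.Par} {N : ℕ} {η η' : ℕ → Crs}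
  {c c' : ℕ → ℂ} {ρ : ℂ → ℂ} {y₁ y₂ K q dp : ℝ}

theorem MBd.nw (h : MBd N Z P η η' c ρ y₁ y₂ K q dp) (e : ∀ n, ‖c' n‖ = ‖c n‖) :
    MBd N Z P η η' c' ρ y₁ y₂ K q dp where
  one := h.one.nw (norm_wN e)
  vy M g hM hg hm := (h.vy M g hM hg hm).nw (norm_wN e)
  pin := h.pin.nw (norm_wN e)
  pinv M g hM hg hm := (h.pinv M g hM hg hm).nw (norm_wN e)

end PBU

/-! ### the twist -/

namespace WND

/-- `ζ ^ (m - n)` -/
def tw (ζ : ℂ) (m n : ℕ) : ℂ := ζ ^ ((m : ℤ) - n)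

theorem norm_tw {ζ : ℂ} (h : ‖ζ‖ = 1) (m n : ℕ) : ‖tw ζ m n‖ = 1 := by
  unfold tw
  rw [norm_zpow, h, one_zpow]

theorem tw_one (m n : ℕ) : tw 1 m n = 1 := one_zpow _

theorem norm_tw_mul {ζ : ℂ} (h : ‖ζ‖ = 1) (m n : ℕ) (a : ℂ) : ‖tw ζ m n * a‖ = ‖a‖ := by
  rw [norm_mul, norm_tw h, one_mul]

end WND

end
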