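import Pool.Agent.WND.NzG

/-!
# The dislocated function with winding weight `ζ` (helper4)

`nzz ζ z x y = ∑ n ≤ 2 m, ζ ^ (m - n) * nzn n z x y`; `fz ζ mu z` (rows `mu` in both groups, all
`|Re z| < 43 l / 10`); **`ft d mu z = exp (-(8/3) i d z) * fz (exp (i π d)) mu z`**.

* `nzz_one`, `nzz_tendsto` (joint in `ζ`, legs, rows), `nzz_diff`, `nzz_perm`; **`nzz_leg`** (factor `ζ`),
  **`nzz_neg`** (`ζ → ζ⁻¹`);
* `fz_right`, `fz_left`, `fz_even`, `fz_diff`, `fz_perm`, `fz_tendsto`, `fz_leg`, `fz_leg'`;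
* `ft_zero` (`d = 0`: the function `fN` of plan B), `ft_even`, `ft_diff`, `ft_perm`, `ft_tendsto`, **`ft_leg`**,
  **`ft_leg'`**, **`ft_zeros`**: literally the relations of `fN`;
* `f0t`, `fxt`: rows `0`, one moved row: `f0t_diff`, `fxt_diff`, `fxt_zero`, `fxt_leg`, `fxt_leg'`,
  `f0t_even`, `f0t_zeros`, `fxt_zeros`.
-/

set_option autoImplicit false
set_option linter.unusedSectionVars false

noncomputable section

open Complex Filter Topology

namespace WND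

open NUP1 (l lpos)
open PBX (Rws pull pull_re pull_Rws pull_tendsto)
open Pool.Agent.PB (nz LS LS_open Hgt mem_LS mem_LS3 mem_LS_neg pull_Hgt neg_cons cons_swap GS
  mem_closure_GS zero_rowsW fN Rws_zero Rws_cons)

variable {m : ℕ}

/-! ### all rows, the strip `LS` -/

/-- **the function with winding weight `ζ`** -/
def nzz (ζ z : ℂ) (x y : Fin m → ℂ) : ℂ :=
  ∑ n ∈ Finset.range (2 * m + 1), ζ ^ ((m : ℤ) - n) * nzn n z x y

theorem nzz_one (z : ℂ) (x y : Fin m → ℂ) : nzz 1 z x y = nz z x y := by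
  unfold nzz
  rw [← sum_nzn]
  exact Finset.sum_congr rfl fun n _ => by rw [one_zpow, one_mul]

/-- joint continuity -/
theorem nzz_tendsto {E : Type*} {F : Filter E} [F.IsCountablyGenerated] {ζ z : E → ℂ}
    {x y : E → Fin m → ℂ} {ζ0 z0 : ℂ} {x0 y0 : Fin m → ℂ} (tζ : Tendsto ζ F (𝓝 ζ0))
    (hζ : ζ0 ≠ 0) (tz : Tendsto z F (𝓝 z0))
    (tx : ∀ i, Tendsto (fun e => x e i) F (𝓝 (x0 i)))
    (ty : ∀ i, Tendsto (fun e => y e i) F (𝓝 (y0 i))) (hx : ∀ᶠ e in F, Rws (x e))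
    (hy : ∀ᶠ e in F, Rws (y e)) (hx0 : Rws x0) (hy0 : Rws y0) (hz : z0 ∈ LS) :
    Tendsto (fun e => nzz (ζ e) (z e) (x e) (y e)) F (𝓝 (nzz ζ0 z0 x0 y0)) := by
  unfold nzz
  exact tendsto_finsetSum _ fun n _ => (tζ.zpow₀ _ (Or.inl hζ)).mul
    (nzn_tendsto n tz tx ty hx hy hx0 hy0 hz)

/-- **analyticity in the legs** -/
theorem nzz_diff (ζ : ℂ) {x y : Fin m → ℂ} (hx : Rws x) (hy : Rws y) :
    DifferentiableOn ℂ (fun z => nzz ζ z x y) LS := by
  unfold nzz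
  exact DifferentiableOn.fun_sum fun n _ => (nzn_diff n hx hy).const_mul _

theorem nzz_perm (ζ z : ℂ) (x : Fin m → ℂ) (σ : Equiv.Perm (Fin m)) :
    nzz ζ z (fun i => x (σ i)) (fun i => x (σ i)) = nzz ζ z x x := by
  unfold nzz
  exact Finset.sum_congr rfl fun n _ => by rw [nzn_perm]

/-- **(A1)** -/
theorem nzz_leg {ζ : ℂ} (hζ : ζ ≠ 0) {x0 : ℂ} {x y : Fin m → ℂ} (h0 : |x0.re| ≤ l / 2)
    (hx : Rws x) (hy : Rws y) :
    nzz ζ (x0 + 3 * l) (Fin.cons x0 x : Fin (m + 1) → ℂ) (Fin.cons x0 y : Fin (m + 1) → ℂ) =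
      ζ * nzz ζ x0 x y := by
  unfold nzz
  have e : ∀ n ∈ Finset.range (2 * (m + 1) + 1), ζ ^ (((m + 1 : ℕ) : ℤ) - n) *
      nzn n (x0 + 3 * l) (Fin.cons x0 x : Fin (m + 1) → ℂ) (Fin.cons x0 y : Fin (m + 1) → ℂ) =
      ζ * (ζ ^ ((m : ℤ) - n) * nzn n x0 x y) := by
    intro n _
    rw [nzn_leg n h0 hx hy, show ((m + 1 : ℕ) : ℤ) - n = 1 + ((m : ℤ) - n) by push_cast; ring,
      zpow_add₀ hζ, zpow_one, mul_assoc]
  rw [Finset.sum_congr rfl e, ← Finset.mul_sum]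
  congr 1
  symm
  refine Finset.sum_subset (Finset.range_mono (by omega)) fun n _ hn => ?_
  rw [Finset.mem_range] at hn
  rw [nzn_big (by omega) (mem_LS h0) hx hy, mul_zero]

/-- **(A2)** -/
theorem nzz_neg (ζ : ℂ) {z : ℂ} (hz : |z.re| < 7 / 5 * l) {x y : Fin m → ℂ} (hx : Rws x)
    (hy : Rws y) : nzz ζ⁻¹ (-z) (-x) (-y) = nzz ζ z x y := by
  unfold nzz
  refine (Finset.sum_range_reflect _ (2 * m + 1)).symm.trans ?_
  refine Finset.sum_congr rfl fun n hn => ?_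
  rw [Finset.mem_range] at hn
  have h2 : 2 * m + 1 - 1 - n = 2 * m - n := by omega
  rw [h2, nzn_neg (by omega) hz hx hy, inv_zpow, ← zpow_neg]
  congr 2
  push_cast [show n ≤ 2 * m by omega]
  ring

/-! ### rows `mu` in both groups, the whole strip -/

/-- **legs at `z`, rows `mu` in both groups, winding weight `ζ`** -/
def fz (ζ : ℂ) (mu : Fin m → ℂ) (z : ℂ) : ℂ :=
  if 0 ≤ z.re then nzz ζ z mu mu else nzz ζ⁻¹ (-z) (-mu) (-mu)

theorem fz_one (mu : Fin m → ℂ) (z : ℂ) : fz 1 mu z = fN mu z := by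
  unfold fz Pool.Agent.PB.fN
  rw [inv_one, nzz_one, nzz_one]

theorem fz_right (ζ : ℂ) {mu : Fin m → ℂ} (hmu : Rws mu) {z : ℂ} (hz : z ∈ LS) :
    fz ζ mu z = nzz ζ z mu mu := by
  unfold fz
  split_ifs with h
  · rfl
  · have hl := lpos
    obtain ⟨h1, h2⟩ := hz
    rw [not_le] at h
    exact nzz_neg ζ (by rw [abs_lt]; constructor <;> linarith) hmu hmu

theorem fz_left (ζ : ℂ) {mu : Fin m → ℂ} (hmu : Rws mu) {z : ℂ} (hz : -z ∈ LS) :
    fz ζ mu z = nzz ζ⁻¹ (-z) (-mu) (-mu) := by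
  unfold fz
  split_ifs with h
  · have hl := lpos
    obtain ⟨h1, h2⟩ := hz
    have h3 : -(7 / 5 * l) < (-z).re := h1
    rw [neg_re] at h3
    exact (nzz_neg ζ (by rw [abs_lt]; constructor <;> linarith) hmu hmu).symm
  · rfl

/-- **(A2)** -/
theorem fz_even (ζ : ℂ) {mu : Fin m → ℂ} (hmu : Rws mu) {z : ℂ} (hz : |z.re| < 43 / 10 * l) :
    fz ζ⁻¹ (-mu) (-z) = fz ζ mu z := by
  have hl := lpos
  obtain ⟨h1, h2⟩ := abs_lt.1 hz
  rcases le_or_gt 0 z.re with h | h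
  · rw [fz_right ζ hmu (z := z) ⟨by linarith, h2⟩, fz_left ζ⁻¹ (Pool.Agent.PB.Rws.neg hmu) (z := -z)
      (by rw [neg_neg]; exact ⟨by linarith, h2⟩), neg_neg, neg_neg, inv_inv]
  · have h3 : -z ∈ LS := ⟨by rw [neg_re]; linarith, by rw [neg_re]; linarith⟩
    rw [fz_left ζ hmu h3, fz_right ζ⁻¹ (Pool.Agent.PB.Rws.neg hmu) h3]

/-- **analyticity** -/
theorem fz_diff (ζ : ℂ) {mu : Fin m → ℂ} (hmu : Rws mu) :
    DifferentiableOn ℂ (fz ζ mu) {z | |z.re| < 43 / 10 * l} := by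
  have hl := lpos
  intro z hz
  obtain ⟨h1, h2⟩ := abs_lt.1 (show |z.re| < 43 / 10 * l from hz)
  refine DifferentiableAt.differentiableWithinAt ?_
  rcases le_or_gt 0 z.re with h | h
  · have hL : z ∈ LS := ⟨by linarith, h2⟩
    have d := (nzz_diff ζ hmu hmu).differentiableAt (LS_open.mem_nhds hL)
    refine d.congr_of_eventuallyEq ?_
    filter_upwards [LS_open.mem_nhds hL] with w hw
    exact fz_right ζ hmu hw
  · have hL : -z ∈ LS := ⟨by rw [neg_re]; linarith, by rw [neg_re]; linarith⟩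
    have d := (nzz_diff ζ⁻¹ (Pool.Agent.PB.Rws.neg hmu)
      (Pool.Agent.PB.Rws.neg hmu)).differentiableAt (LS_open.mem_nhds hL)
    have d2 : DifferentiableAt ℂ ((fun w : ℂ => nzz ζ⁻¹ w (-mu) (-mu)) ∘ fun w => -w) z :=
      DifferentiableAt.comp z d differentiableAt_id.neg
    refine d2.congr_of_eventuallyEq ?_
    have hop : IsOpen {w : ℂ | -w ∈ LS} := LS_open.preimage continuous_neg
    filter_upwards [hop.mem_nhds hL] with w hw
    exact fz_left ζ hmu hw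

theorem fz_perm (ζ : ℂ) (mu : Fin m → ℂ) (σ : Equiv.Perm (Fin m)) (z : ℂ) :
    fz ζ (fun i => mu (σ i)) z = fz ζ mu z := by
  unfold fz
  rw [nzz_perm ζ z mu σ]
  split_ifs
  · rfl
  · exact nzz_perm ζ⁻¹ (-z) (-mu) σ

/-- joint continuity -/
theorem fz_tendsto {E : Type*} {F : Filter E} [F.IsCountablyGenerated] {ζ z : E → ℂ}
    {x : E → Fin m → ℂ} {ζ0 z0 : ℂ} {x0 : Fin m → ℂ} (tζ : Tendsto ζ F (𝓝 ζ0)) (hζ : ζ0 ≠ 0)
    (tz : Tendsto z F (𝓝 z0)) (tx : ∀ i, Tendsto (fun e => x e i) F (𝓝 (x0 i)))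
    (hx : ∀ᶠ e in F, Rws (x e)) (hx0 : Rws x0) (hz : |z0.re| < 43 / 10 * l) :
    Tendsto (fun e => fz (ζ e) (x e) (z e)) F (𝓝 (fz ζ0 x0 z0)) := by
  have hl := lpos
  obtain ⟨h1, h2⟩ := abs_lt.1 hz
  rcases le_or_gt 0 z0.re with h | h
  · have hL : z0 ∈ LS := ⟨by linarith, h2⟩
    rw [fz_right ζ0 hx0 hL]
    refine (nzz_tendsto tζ hζ tz tx tx hx hx hx0 hx0 hL).congr' ?_
    filter_upwards [hx, tz.eventually (LS_open.mem_nhds hL)] with e he hze
    exact (fz_right (ζ e) he hze).symm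
  · have hL : -z0 ∈ LS := ⟨by rw [neg_re]; linarith, by rw [neg_re]; linarith⟩
    rw [fz_left ζ0 hx0 hL]
    refine (nzz_tendsto (ζ := fun e => (ζ e)⁻¹) (z := fun e => -z e) (x := fun e => -x e)
      (y := fun e => -x e) (tζ.inv₀ hζ) (inv_ne_zero hζ) tz.neg
      (fun i => (tx i).neg) (fun i => (tx i).neg)
      (hx.mono fun e he => Pool.Agent.PB.Rws.neg he)
      (hx.mono fun e he => Pool.Agent.PB.Rws.neg he) (Pool.Agent.PB.Rws.neg hx0)
      (Pool.Agent.PB.Rws.neg hx0) hL).congr' ?_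
    filter_upwards [hx, tz.neg.eventually (LS_open.mem_nhds hL)] with e he hze
    exact (fz_left (ζ e) he hze).symm

/-- **(A1), legs to the right** -/
theorem fz_leg {ζ : ℂ} (hζ : ζ ≠ 0) {x0 : ℂ} {mu : Fin m → ℂ} (h0 : |x0.re| ≤ l / 2)
    (hmu : Rws mu) :
    fz ζ (Fin.cons x0 mu : Fin (m + 1) → ℂ) (x0 + 3 * l) = ζ * fz ζ mu x0 := by
  rw [fz_right ζ (Pool.Agent.PB.Rws.cons h0 hmu) (mem_LS3 h0), fz_right ζ hmu (mem_LS h0),
    nzz_leg hζ h0 hmu hmu]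

theorem sub3_re {x0 : ℂ} (h0 : |x0.re| ≤ l / 2) : |(x0 - 3 * (l : ℂ)).re| < 43 / 10 * l := by
  have hl := lpos
  have e1 : (x0 - 3 * (l : ℂ)).re = x0.re - 3 * l := by simp
  rw [e1]
  obtain ⟨h1, h2⟩ := abs_le.1 h0
  rw [abs_lt]
  constructor <;> linarith

/-- **(A1), legs to the left** -/
theorem fz_leg' {ζ : ℂ} (hζ : ζ ≠ 0) {x0 : ℂ} {mu : Fin m → ℂ} (h0 : |x0.re| ≤ l / 2)
    (hmu : Rws mu) :
    fz ζ (Fin.cons x0 mu : Fin (m + 1) → ℂ) (x0 - 3 * l) = ζ⁻¹ * fz ζ mu x0 := by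
  have hl := lpos
  have h0' : |(-x0).re| ≤ l / 2 := by rwa [neg_re, abs_neg]
  have e : -(x0 - 3 * (l : ℂ)) = -x0 + 3 * l := by ring
  have hx : |x0.re| < 43 / 10 * l := by linarith
  rw [← fz_even ζ (Pool.Agent.PB.Rws.cons h0 hmu) (sub3_re h0), neg_cons, e,
    fz_leg (inv_ne_zero hζ) h0' (Pool.Agent.PB.Rws.neg hmu), fz_even ζ hmu hx]

/-! ### the function without the monodromy -/

/-- `exp (i π d)` -/
def zt (d : ℂ) : ℂ := exp (Real.pi * d * I)

theorem zt_ne (d : ℂ) : zt d ≠ 0 := exp_ne_zero _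

theorem zt_neg (d : ℂ) : zt (-d) = (zt d)⁻¹ := by
  unfold zt
  rw [← Complex.exp_neg]
  congr 1
  ring

theorem zt_zero : zt 0 = 1 := by
  unfold zt
  simp

/-- the gauge factor -/
def ga (d z : ℂ) : ℂ := exp (-(8 / 3) * I * d * z)

theorem ga_add (d z : ℂ) : ga d (z + 3 * l) = (zt d)⁻¹ * ga d z := by
  unfold ga zt
  rw [← Complex.exp_neg, ← exp_add]
  congr 1
  have h := Pool.Agent.PB.eight
  linear_combination -(I * d) * h

theorem ga_sub (d z : ℂ) : ga d (z - 3 * l) = zt d * ga d z := by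
  unfold ga zt
  rw [← exp_add]
  congr 1
  have h := Pool.Agent.PB.eight
  linear_combination (I * d) * h

theorem ga_neg (d z : ℂ) : ga (-d) (-z) = ga d z := by
  unfold ga
  congr 1
  ring

/-- **the function with twist `d`, without the monodromy** -/
def ft (d : ℂ) (mu : Fin m → ℂ) (z : ℂ) : ℂ := ga d z * fz (zt d) mu z

theorem ft_zero (mu : Fin m → ℂ) (z : ℂ) : ft 0 mu z = fN mu z := by
  unfold ft ga
  rw [zt_zero, fz_one]
  simp

theorem ft_even (d : ℂ) {mu : Fin m → ℂ} (hmu : Rws mu) {z : ℂ} (hz : |z.re| < 43 / 10 * l) :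
    ft (-d) (-mu) (-z) = ft d mu z := by
  unfold ft
  rw [ga_neg, zt_neg, fz_even (zt d) hmu hz]

theorem ga_diff (d : ℂ) : Differentiable ℂ (ga d) := by
  unfold ga
  fun_prop

theorem ft_diff (d : ℂ) {mu : Fin m → ℂ} (hmu : Rws mu) :
    DifferentiableOn ℂ (ft d mu) {z | |z.re| < 43 / 10 * l} :=
  (ga_diff d).differentiableOn.mul (fz_diff (zt d) hmu)

theorem ft_perm (d : ℂ) (mu : Fin m → ℂ) (σ : Equiv.Perm (Fin m)) (z : ℂ) :
    ft d (fun i => mu (σ i)) z = ft d mu z := by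
  unfold ft
  rw [fz_perm]

/-- joint continuity -/
theorem ft_tendsto {E : Type*} {F : Filter E} [F.IsCountablyGenerated] {d z : E → ℂ}
    {x : E → Fin m → ℂ} {d0 z0 : ℂ} {x0 : Fin m → ℂ} (td : Tendsto d F (𝓝 d0))
    (tz : Tendsto z F (𝓝 z0)) (tx : ∀ i, Tendsto (fun e => x e i) F (𝓝 (x0 i)))
    (hx : ∀ᶠ e in F, Rws (x e)) (hx0 : Rws x0) (hz : |z0.re| < 43 / 10 * l) :
    Tendsto (fun e => ft (d e) (x e) (z e)) F (𝓝 (ft d0 x0 z0)) := by
  unfold ft
  refine Tendsto.mul ?_ (fz_tendsto ?_ (zt_ne d0) tz tx hx hx0 hz)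
  · unfold ga
    exact (Complex.continuous_exp.tendsto _).comp ((td.const_mul _).mul tz)
  · unfold zt
    exact (Complex.continuous_exp.tendsto _).comp ((td.const_mul _).mul_const _)

/-- **(A1), legs to the right** -/
theorem ft_leg (d : ℂ) {x0 : ℂ} {mu : Fin m → ℂ} (h0 : |x0.re| ≤ l / 2) (hmu : Rws mu) :
    ft d (Fin.cons x0 mu : Fin (m + 1) → ℂ) (x0 + 3 * l) = ft d mu x0 := by
  unfold ft
  rw [ga_add, fz_leg (zt_ne d) h0 hmu]
  have := zt_ne d
  field_simp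

/-- **(A1), legs to the left** -/
theorem ft_leg' (d : ℂ) {x0 : ℂ} {mu : Fin m → ℂ} (h0 : |x0.re| ≤ l / 2) (hmu : Rws mu) :
    ft d (Fin.cons x0 mu : Fin (m + 1) → ℂ) (x0 - 3 * l) = ft d mu x0 := by
  unfold ft
  rw [ga_sub, fz_leg' (zt_ne d) h0 hmu]
  have := zt_ne d
  field_simp

/-- the difference vanishes at the rows -/
theorem ft_node (d : ℂ) {x : Fin (m + 1) → ℂ} (hx : Rws x) (j : Fin (m + 1)) :
    ft d x (x j + 3 * l) - ft d x (x j - 3 * l) = 0 := by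
  have hx' : Rws fun i : Fin m => x (Equiv.swap 0 j i.succ) := fun i => hx _
  rw [← ft_perm d x (Equiv.swap 0 j) (x j + 3 * l), ← ft_perm d x (Equiv.swap 0 j) (x j - 3 * l),
    cons_swap, ft_leg d (hx j) hx', ft_leg' d (hx j) hx', sub_self]

theorem ft_node' (d : ℂ) {x : Fin m → ℂ} (hx : Rws x) (j : Fin m) :
    ft d x (x j + 3 * l) - ft d x (x j - 3 * l) = 0 := by
  rcases m with _ | m
  · exact j.elim0
  · exact ft_node d hx j

/-- **the zeros of the difference** -/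
theorem ft_zeros (d : ℂ) {mu : Fin m → ℂ} (hmu : Rws mu) :
    ∃ Q : ℂ → ℂ, DifferentiableOn ℂ Q {z | |z.re| < 13 / 10 * l} ∧
      ∀ z, ft d mu (z + 3 * l) - ft d mu (z - 3 * l) = (∏ j, (z - mu j)) * Q z := by
  have hl := lpos
  set Ω : Set ℂ := {z | |z.re| < 13 / 10 * l} with hΩ
  have hop : IsOpen Ω := isOpen_lt (continuous_abs.comp Complex.continuous_re) continuous_const
  set R : ℝ := ∑ j, |(mu j).im| + 1 with hR
  set U : Set ℂ := {z | |z.re| < l ∧ |z.im| < R} with hU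
  have hUo : IsOpen U := (isOpen_lt (continuous_abs.comp Complex.continuous_re)
    continuous_const).inter (isOpen_lt (continuous_abs.comp Complex.continuous_im) continuous_const)
  have hUb : Bornology.IsBounded U := by
    refine (Metric.isBounded_iff_subset_closedBall (0 : ℂ)).2 ⟨l + R, fun z hz => ?_⟩
    rw [Metric.mem_closedBall, dist_zero_right]
    have := Complex.norm_le_abs_re_add_abs_im z
    linarith [hz.1, hz.2]
  have hUc : closure U ⊆ Ω := by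
    have h1 : closure U ⊆ {z : ℂ | |z.re| ≤ l} := by
      refine closure_minimal (fun z hz => hz.1.le) ?_
      exact isClosed_le (continuous_abs.comp Complex.continuous_re) continuous_const
    intro z hz
    have h2 : |z.re| ≤ l := h1 hz
    show |z.re| < 13 / 10 * l
    linarith
  have e1 : ∀ z : ℂ, (z + 3 * (l : ℂ)).re = z.re + 3 * l := fun z => by simp
  have e2 : ∀ z : ℂ, (z - 3 * (l : ℂ)).re = z.re - 3 * l := fun z => by simp
  have k1 : ∀ z ∈ Ω, |(z + 3 * (l : ℂ)).re| < 43 / 10 * l := by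
    intro z hz
    obtain ⟨h1, h2⟩ := abs_lt.1 (show |z.re| < 13 / 10 * l from hz)
    rw [e1, abs_lt]
    constructor <;> linarith
  have k2 : ∀ z ∈ Ω, |(z - 3 * (l : ℂ)).re| < 43 / 10 * l := by
    intro z hz
    obtain ⟨h1, h2⟩ := abs_lt.1 (show |z.re| < 13 / 10 * l from hz)
    rw [e2, abs_lt]
    constructor <;> linarith
  have hdom : IsOpen {z : ℂ | |z.re| < 43 / 10 * l} :=
    isOpen_lt (continuous_abs.comp Complex.continuous_re) continuous_const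
  obtain ⟨-, Q, hQ, hfQ⟩ := zero_rowsW (ι := Fin m) hop hUo hUb hUc (c := mu) (S := GS m)
    (D := fun z y => ft d y (z + 3 * l) - ft d y (z - 3 * l))
    (fun j => by
      have h1 := hmu j
      have h2 := PBX.im_le mu j
      exact ⟨by linarith, by linarith⟩)
    (mem_closure_GS hmu)
    (fun y hy i j hij => by
      by_contra hne
      exact hy.2 i j hne (by rw [hij]))
    (fun y hy z hz => by
      have d1 : DifferentiableAt ℂ (fun z : ℂ => ft d y (z + 3 * l)) z :=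
        DifferentiableAt.comp z ((ft_diff d hy.1).differentiableAt (hdom.mem_nhds (k1 z hz)))
          (differentiableAt_id.add_const _)
      have d2 : DifferentiableAt ℂ (fun z : ℂ => ft d y (z - 3 * l)) z :=
        DifferentiableAt.comp z ((ft_diff d hy.1).differentiableAt (hdom.mem_nhds (k2 z hz)))
          (differentiableAt_id.sub_const _)
      exact (d1.sub d2).differentiableWithinAt)
    (fun z hz => by
      have tr : ∀ i, Tendsto (fun p : ℂ × (Fin m → ℂ) => p.2 i) (𝓝 z ×ˢ 𝓝[GS m] mu)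
          (𝓝 (mu i)) := fun i =>
        (((continuous_apply i).tendsto mu).mono_left nhdsWithin_le_nhds).comp tendsto_snd
      have hrw : ∀ᶠ p : ℂ × (Fin m → ℂ) in 𝓝 z ×ˢ 𝓝[GS m] mu, Rws p.2 := by
        have h1 : ∀ᶠ y in 𝓝[GS m] mu, Rws y := by
          filter_upwards [self_mem_nhdsWithin] with y hy
          exact hy.1
        exact tendsto_snd.eventually h1
      exact (ft_tendsto (F := 𝓝 z ×ˢ 𝓝[GS m] mu) (d := fun _ => d) (z := fun p => p.1 + 3 * l)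
        (x := fun p => p.2) tendsto_const_nhds
        (tendsto_fst.add_const _) tr hrw hmu (k1 z hz)).sub
        (ft_tendsto (F := 𝓝 z ×ˢ 𝓝[GS m] mu) (d := fun _ => d) (z := fun p => p.1 - 3 * l)
        (x := fun p => p.2) tendsto_const_nhds
        (tendsto_fst.sub_const _) tr hrw hmu (k2 z hz)))
    (by
      filter_upwards [self_mem_nhdsWithin] with y hy j
      exact ft_node' d hy.1 j)
  exact ⟨Q, hQ, hfQ⟩

/-! ### the rows `0` and one moved row -/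

/-- `N` rows at `0` -/
def f0t (d : ℂ) (N : ℕ) (z : ℂ) : ℂ := ft d (fun _ : Fin N => (0 : ℂ)) z

/-- one row at `x`, `N` rows at `0` -/
def fxt (d : ℂ) (N : ℕ) (x z : ℂ) : ℂ :=
  ft d (Fin.cons x (fun _ : Fin N => (0 : ℂ)) : Fin (N + 1) → ℂ) z

theorem f0t_zero (N : ℕ) (z : ℂ) : f0t 0 N z = Pool.Agent.PB.f0 N z := ft_zero _ z

theorem fxt_d0 (N : ℕ) (x z : ℂ) : fxt 0 N x z = Pool.Agent.PB.fx N x z := ft_zero _ z

theorem f0t_diff (d : ℂ) (N : ℕ) : DifferentiableOn ℂ (f0t d N) {z | |z.re| < 43 / 10 * l} :=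
  ft_diff d (Rws_zero N)

theorem fxt_diff (d : ℂ) (N : ℕ) {x : ℂ} (h : |x.re| ≤ l / 2) :
    DifferentiableOn ℂ (fxt d N x) {z | |z.re| < 43 / 10 * l} := ft_diff d (Rws_cons h)

theorem fxt_zero (d : ℂ) (N : ℕ) (z : ℂ) : fxt d N 0 z = f0t d (N + 1) z := by
  unfold fxt f0t
  congr 1
  funext i
  refine Fin.cases ?_ (fun j => ?_) i
  · simp
  · simp

/-- **(A1)** -/
theorem fxt_leg (d : ℂ) (N : ℕ) {x : ℂ} (h : |x.re| ≤ l / 2) : fxt d N x (x + 3 * l) = f0t d N x :=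
  ft_leg d h (Rws_zero N)

theorem fxt_leg' (d : ℂ) (N : ℕ) {x : ℂ} (h : |x.re| ≤ l / 2) : fxt d N x (x - 3 * l) = f0t d N x :=
  ft_leg' d h (Rws_zero N)

theorem f0t_even (d : ℂ) (N : ℕ) {z : ℂ} (hz : |z.re| < 43 / 10 * l) :
    f0t (-d) N (-z) = f0t d N z := by
  have h := ft_even d (Rws_zero N) hz
  have e : -(fun _ : Fin N => (0 : ℂ)) = fun _ : Fin N => (0 : ℂ) := by
    funext i
    simp
  rw [e] at h
  exact h

/-- the zeros of the difference, rows `0` -/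
theorem f0t_zeros (d : ℂ) (N : ℕ) : ∃ Q : ℂ → ℂ, DifferentiableOn ℂ Q {z | |z.re| < 13 / 10 * l} ∧
    ∀ z, f0t d N (z + 3 * l) - f0t d N (z - 3 * l) = z ^ N * Q z := by
  obtain ⟨Q, hQ, h⟩ := ft_zeros d (Rws_zero N)
  refine ⟨Q, hQ, fun z => ?_⟩
  have := h z
  simp only [sub_zero, Finset.prod_const, Finset.card_univ, Fintype.card_fin] at this
  exact this

/-- the zeros of the difference, one moved row -/
theorem fxt_zeros (d : ℂ) (N : ℕ) {x : ℂ} (hx : |x.re| ≤ l / 2) :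
    ∃ Q : ℂ → ℂ, DifferentiableOn ℂ Q {z | |z.re| < 13 / 10 * l} ∧
      ∀ z, fxt d N x (z + 3 * l) - fxt d N x (z - 3 * l) = (z - x) * z ^ N * Q z := by
  obtain ⟨Q, hQ, h⟩ := ft_zeros d (Rws_cons (N := N) hx)
  refine ⟨Q, hQ, fun z => ?_⟩
  have := h z
  rw [Fin.prod_univ_succ] at this
  simp only [Fin.cons_zero, Fin.cons_succ, sub_zero, Finset.prod_const, Finset.card_univ,
    Fintype.card_fin] at this
  exact this

end WND

end
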