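import Pool.Agent.WND.TwoC
import Mathlib.Analysis.SpecialFunctions.Pow.Deriv

/-!
# From the real to the complex mod-Gaussian convergence (helper85, PLAN W+)

`G k t = E exp (t θ)`, entire. `cplx_mod`: if `G k (i s) k ^ (a s ^ 2) = M s + O(k ^ (-c))` for real `|s| ≤ s0` and for
every `ε > 0` the functions `G k` are bounded by `B k ^ ε` on a disc of radius `δ(ε)` independent of `k`, then
`G k t exp (-a t ^ 2 log k) = N t + O(k ^ (-c'))` on a complex disc, `N` analytic, `N 0 = 1`.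
`var_of`: the second derivative at `0`: `E θ ^ 2 = 2 a log k + N''(0) + O(k ^ (-c'))`.
-/

set_option autoImplicit false

noncomputable section

open Complex Filter Topology Set Metric

namespace WND

theorem norm_gauss (a L : ℝ) (t : ℂ) (ha : 0 ≤ a) (hL : 0 ≤ L) :
    ‖Complex.exp (-((a * L : ℝ) : ℂ) * t ^ 2)‖ ≤ Real.exp (a * L * ‖t‖ ^ 2) := by
  rw [Complex.norm_exp, Real.exp_le_exp]
  have h1 : (-((a * L : ℝ) : ℂ) * t ^ 2).re = -(a * L) * (t ^ 2).re := by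
    rw [neg_mul, neg_re, Complex.re_ofReal_mul]
    ring
  rw [h1]
  have h2 : |(t ^ 2).re| ≤ ‖t‖ ^ 2 := by
    rw [← norm_pow]
    exact Complex.abs_re_le_norm _
  have h3 : -(t ^ 2).re ≤ ‖t‖ ^ 2 := (neg_le_abs _).trans h2
  have h4 : 0 ≤ a * L := mul_nonneg ha hL
  nlinarith

/-- **the complex mod-Gaussian convergence** -/
theorem cplx_mod {a c0 C0 s0 : ℝ} {G : ℕ → ℂ → ℂ} {M : ℝ → ℂ} (ha : 0 ≤ a) (hc0 : 0 < c0) (hs0 : 0 < s0)
    (hG : ∀ k : ℕ, 1 ≤ k → Differentiable ℂ (G k)) (hG0 : ∀ k : ℕ, 1 ≤ k → G k 0 = 1)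
    (hR : ∀ k : ℕ, 1 ≤ k → ∀ s : ℝ, |s| ≤ s0 →
      ‖G k (s * I) * (((k : ℝ) ^ (a * s ^ 2) : ℝ) : ℂ) - M s‖ ≤ C0 * (k : ℝ) ^ (-c0))
    (hB : ∀ ε : ℝ, 0 < ε → ∃ δ B : ℝ, 0 < δ ∧ ∀ k : ℕ, 1 ≤ k → ∀ t : ℂ, ‖t‖ ≤ δ →
      ‖G k t‖ ≤ B * (k : ℝ) ^ ε) :
    ∃ (t1 c C : ℝ) (N : ℂ → ℂ), 0 < t1 ∧ 0 < c ∧ 0 ≤ C ∧ DifferentiableOn ℂ N (ball 0 t1) ∧ N 0 = 1 ∧
      ∀ k : ℕ, 1 ≤ k → ∀ t : ℂ, ‖t‖ < t1 →
        ‖G k t * Complex.exp (-((a * Real.log k : ℝ) : ℂ) * t ^ 2) - N t‖ ≤ C * (k : ℝ) ^ (-c) := by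
  obtain ⟨δ, B0, hδ, hB⟩ := hB (c0 / 4) (by positivity)
  -- constants
  obtain ⟨B, hBdef⟩ : ∃ B, B = |B0| := ⟨_, rfl⟩
  have hB0 : 0 ≤ B := by rw [hBdef]; exact abs_nonneg _
  have hB' : ∀ k : ℕ, 1 ≤ k → ∀ t : ℂ, ‖t‖ ≤ δ → ‖G k t‖ ≤ B * (k : ℝ) ^ (c0 / 4) := fun k hk t ht =>
    (hB k hk t ht).trans (mul_le_mul_of_nonneg_right (by rw [hBdef]; exact le_abs_self _) (by positivity))
  obtain ⟨R, hRdef⟩ : ∃ R, R = min (min δ 1) (c0 / (4 * (a + 1))) := ⟨_, rfl⟩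
  have hR0 : 0 < R := by rw [hRdef]; exact lt_min (lt_min hδ one_pos) (by positivity)
  have hRδ : R ≤ δ := by rw [hRdef]; exact (min_le_left _ _).trans (min_le_left _ _)
  have hR1 : R ≤ 1 := by rw [hRdef]; exact (min_le_left _ _).trans (min_le_right _ _)
  have hRa : a * R ^ 2 ≤ c0 / 4 := by
    have h1 : R ≤ c0 / (4 * (a + 1)) := by rw [hRdef]; exact min_le_right _ _
    rw [le_div_iff₀ (by positivity)] at h1
    have h2 : R ^ 2 ≤ R := by nlinarith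
    nlinarith
  obtain ⟨ρ, hρdef⟩ : ∃ ρ, ρ = min s0 (R / Real.cosh 1) := ⟨_, rfl⟩
  have hch : 0 < Real.cosh 1 := Real.cosh_pos 1
  have hρ0 : 0 < ρ := by rw [hρdef]; exact lt_min hs0 (by positivity)
  have hρs : ρ ≤ s0 := by rw [hρdef]; exact min_le_left _ _
  have hρR : ρ * Real.cosh 1 ≤ R := by
    have h1 : ρ ≤ R / Real.cosh 1 := by rw [hρdef]; exact min_le_right _ _
    rwa [le_div_iff₀ hch] at h1
  obtain ⟨K0, hK0⟩ : ∃ K0, K0 = max (2 * B * 2 ^ (c0 / 2)) (max (2 * |C0|) 1) := ⟨_, rfl⟩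
  have hK1 : 1 ≤ K0 := by rw [hK0]; exact (le_max_right _ _).trans (le_max_right _ _)
  have hKB : 2 * B * 2 ^ (c0 / 2) ≤ K0 := by rw [hK0]; exact le_max_left _ _
  have hKC : 2 * |C0| ≤ K0 := by rw [hK0]; exact (le_max_left _ _).trans (le_max_right _ _)
  have hKp : 0 < K0 := by linarith
  obtain ⟨t1, ht1⟩ : ∃ t1, t1 = ρ * Real.sinh (1 / 3 * 1) := ⟨_, rfl⟩
  have ht10 : 0 < t1 := by
    rw [ht1]
    exact mul_pos hρ0 (Real.sinh_pos_iff.2 (by norm_num))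
  obtain ⟨H, hH⟩ : ∃ H : ℕ → ℂ → ℂ, H = fun k t =>
    G k t * Complex.exp (-((a * Real.log k : ℝ) : ℂ) * t ^ 2) := ⟨_, rfl⟩
  have hHd : ∀ k : ℕ, 1 ≤ k → Differentiable ℂ (H k) := by
    intro k hk
    rw [hH]
    exact (hG k hk).mul (by fun_prop)
  -- the bound on the disc
  have hHb : ∀ k : ℕ, 1 ≤ k → ∀ z : ℂ, ‖z‖ ≤ R → ‖H k z‖ ≤ B * (k : ℝ) ^ (c0 / 2) := by
    intro k hk z hz
    have hk1 : (1 : ℝ) ≤ k := by exact_mod_cast hk
    have hk0 : (0 : ℝ) < k := by linarith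
    have hL : 0 ≤ Real.log k := Real.log_nonneg hk1
    rw [hH]
    simp only
    rw [norm_mul]
    have h1 := norm_gauss a (Real.log k) z ha hL
    have h2 : Real.exp (a * Real.log k * ‖z‖ ^ 2) ≤ (k : ℝ) ^ (c0 / 4) := by
      rw [Real.rpow_def_of_pos hk0, Real.exp_le_exp]
      have h3 : ‖z‖ ^ 2 ≤ R ^ 2 := pow_le_pow_left₀ (norm_nonneg z) hz 2
      have h4 : a * ‖z‖ ^ 2 ≤ c0 / 4 := (mul_le_mul_of_nonneg_left h3 ha).trans hRa
      nlinarith
    calc ‖G k z‖ * ‖Complex.exp (-((a * Real.log k : ℝ) : ℂ) * z ^ 2)‖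
        ≤ B * (k : ℝ) ^ (c0 / 4) * (k : ℝ) ^ (c0 / 4) :=
          mul_le_mul (hB' k hk z (hz.trans hRδ)) (h1.trans h2) (norm_nonneg _) (by positivity)
      _ = B * (k : ℝ) ^ (c0 / 2) := by
          rw [mul_assoc, ← Real.rpow_add hk0]
          congr 2
          ring
  -- the imaginary segment
  have hHi : ∀ k : ℕ, 1 ≤ k → ∀ s : ℝ, |s| ≤ s0 → ‖H k (s * I) - M s‖ ≤ |C0| * (k : ℝ) ^ (-c0) := by
    intro k hk s hs
    have hk0 : (0 : ℝ) < k := by exact_mod_cast hk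
    have h1 := hR k hk s hs
    have h2 : Complex.exp (-((a * Real.log k : ℝ) : ℂ) * ((s : ℂ) * I) ^ 2) =
        (((k : ℝ) ^ (a * s ^ 2) : ℝ) : ℂ) := by
      rw [Real.rpow_def_of_pos hk0, Complex.ofReal_exp]
      congr 1
      rw [mul_pow, Complex.I_sq]
      push_cast
      ring
    rw [hH]
    simp only
    rw [h2]
    exact h1.trans (mul_le_mul_of_nonneg_right (le_abs_self _) (by positivity))
  -- comparable indices
  have key : ∀ z : ℂ, ‖z‖ ≤ t1 → ∀ k k' : ℕ, 1 ≤ k → k ≤ k' → k' ≤ 2 * k →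
      ‖H k' z - H k z‖ ≤ K0 * (k : ℝ) ^ (-(c0 / 2)) := by
    intro z hz k k' hk hkk' hk2
    have hk1 : (1 : ℝ) ≤ k := by exact_mod_cast hk
    have hk0 : (0 : ℝ) < k := by linarith
    have hk' : 1 ≤ k' := hk.trans hkk'
    have hk'1 : (k : ℝ) ≤ k' := by exact_mod_cast hkk'
    have hk'2 : (k' : ℝ) ≤ 2 * k := by exact_mod_cast hk2
    have hk'0 : (0 : ℝ) < k' := by linarith
    have e1 : (k : ℝ) ^ (-c0) ≤ (k : ℝ) ^ (c0 / 2) := Real.rpow_le_rpow_of_exponent_le hk1 (by linarith)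
    have h1 := two_const_im (g := fun w => H k' w - H k w) ((hHd k' hk').sub (hHd k hk)) (ρ := ρ) (σ := 1)
      (τ := 1 / 3) (A := K0 * (k : ℝ) ^ (c0 / 2)) (η := K0 * (k : ℝ) ^ (-c0)) hρ0 one_pos (by norm_num)
      (by norm_num) (by positivity) (mul_le_mul_of_nonneg_left e1 hKp.le)
      (fun w hw => by
        have hw' := hw.trans hρR
        have a1 := hHb k hk w hw'
        have a2 := hHb k' hk' w hw'
        have a3 : (k' : ℝ) ^ (c0 / 2) ≤ 2 ^ (c0 / 2) * (k : ℝ) ^ (c0 / 2) := by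
          rw [← Real.mul_rpow (by norm_num) hk0.le]
          exact Real.rpow_le_rpow hk'0.le hk'2 (by positivity)
        have a4 : (k : ℝ) ^ (c0 / 2) ≤ 2 ^ (c0 / 2) * (k : ℝ) ^ (c0 / 2) := by
          have : (1 : ℝ) ≤ 2 ^ (c0 / 2) := Real.one_le_rpow (by norm_num) (by positivity)
          have hp : 0 ≤ (k : ℝ) ^ (c0 / 2) := by positivity
          nlinarith
        refine (norm_sub_le _ _).trans ((add_le_add a2 a1).trans ?_)
        calc B * (k' : ℝ) ^ (c0 / 2) + B * (k : ℝ) ^ (c0 / 2)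
            ≤ B * (2 ^ (c0 / 2) * (k : ℝ) ^ (c0 / 2)) + B * (2 ^ (c0 / 2) * (k : ℝ) ^ (c0 / 2)) :=
              add_le_add (mul_le_mul_of_nonneg_left a3 hB0) (mul_le_mul_of_nonneg_left a4 hB0)
          _ = 2 * B * 2 ^ (c0 / 2) * (k : ℝ) ^ (c0 / 2) := by ring
          _ ≤ K0 * (k : ℝ) ^ (c0 / 2) := mul_le_mul_of_nonneg_right hKB (by positivity))
      (fun s hs => by
        have hs' := hs.trans hρs
        have b1 := hHi k hk s hs'
        have b2 := hHi k' hk' s hs'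
        have b3 : (k' : ℝ) ^ (-c0) ≤ (k : ℝ) ^ (-c0) :=
          Real.rpow_le_rpow_of_nonpos hk0 hk'1 (by linarith)
        have e2 : H k' (s * I) - H k (s * I) = (H k' (s * I) - M s) - (H k (s * I) - M s) := by ring
        rw [e2]
        refine (norm_sub_le _ _).trans ((add_le_add b2 b1).trans ?_)
        calc |C0| * (k' : ℝ) ^ (-c0) + |C0| * (k : ℝ) ^ (-c0)
            ≤ |C0| * (k : ℝ) ^ (-c0) + |C0| * (k : ℝ) ^ (-c0) :=
              add_le_add (mul_le_mul_of_nonneg_left b3 (abs_nonneg _)) le_rfl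
          _ = 2 * |C0| * (k : ℝ) ^ (-c0) := by ring
          _ ≤ K0 * (k : ℝ) ^ (-c0) := mul_le_mul_of_nonneg_right hKC (by positivity))
      (z := z) (by rw [← ht1]; exact hz)
    refine h1.trans (le_of_eq ?_)
    rw [Real.mul_rpow hKp.le (by positivity), Real.mul_rpow hKp.le (by positivity), ← Real.rpow_mul hk0.le,
      ← Real.rpow_mul hk0.le]
    have e3 : K0 ^ (1 - 1 / 3 : ℝ) * (k : ℝ) ^ (-c0 * (1 - 1 / 3)) *
        (K0 ^ (1 / 3 : ℝ) * (k : ℝ) ^ (c0 / 2 * (1 / 3))) =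
        (K0 ^ (1 - 1 / 3 : ℝ) * K0 ^ (1 / 3 : ℝ)) *
          ((k : ℝ) ^ (-c0 * (1 - 1 / 3)) * (k : ℝ) ^ (c0 / 2 * (1 / 3))) := by ring
    rw [e3, ← Real.rpow_add hKp, ← Real.rpow_add hk0]
    congr 1
    · rw [show (1 - 1 / 3 + 1 / 3 : ℝ) = 1 by norm_num, Real.rpow_one]
    · congr 1
      ring
  -- the limit
  have hlim : ∀ z : ℂ, ∃ L : ℂ, ‖z‖ ≤ t1 → ∀ k : ℕ, 1 ≤ k →
      ‖H k z - L‖ ≤ K0 / (1 - 2 ^ (-(c0 / 2))) * (k : ℝ) ^ (-(c0 / 2)) := by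
    intro z
    by_cases hz : ‖z‖ ≤ t1
    · obtain ⟨L, hL⟩ := dyadic_lim (f := fun k => H k z) (by positivity) hKp.le (key z hz)
      exact ⟨L, fun _ => hL⟩
    · exact ⟨0, fun h => absurd h hz⟩
  choose N hN using hlim
  obtain ⟨K', hK'⟩ : ∃ K', K' = K0 / (1 - 2 ^ (-(c0 / 2))) := ⟨_, rfl⟩
  have hK'0 : 0 ≤ K' := by
    have h2 : (2 : ℝ) ^ (-(c0 / 2)) < 1 := Real.rpow_lt_one_of_one_lt_of_neg (by norm_num) (by linarith)
    rw [hK']
    have : 0 < 1 - (2 : ℝ) ^ (-(c0 / 2)) := by linarith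
    positivity
  rw [← hK'] at hN
  have ht : Tendsto (fun k : ℕ => K' * (k : ℝ) ^ (-(c0 / 2))) atTop (𝓝 0) := by
    have h3 := (tendsto_rpow_neg_atTop (show 0 < c0 / 2 by positivity)).comp tendsto_natCast_atTop_atTop
    simpa using h3.const_mul K'
  refine ⟨t1, c0 / 2, K', N, ht10, by positivity, hK'0, ?_, ?_, ?_⟩
  · have hu : TendstoUniformlyOn H N atTop (ball 0 t1) := by
      rw [Metric.tendstoUniformlyOn_iff]
      intro e he
      filter_upwards [ht.eventually (gt_mem_nhds he), eventually_ge_atTop 1] with k h1 h2 z hz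
      rw [dist_comm, dist_eq_norm]
      rw [mem_ball_zero_iff] at hz
      exact (hN z hz.le k h2).trans_lt h1
    refine hu.tendstoLocallyUniformlyOn.differentiableOn ?_ isOpen_ball
    filter_upwards [eventually_ge_atTop 1] with k hk
    exact (hHd k hk).differentiableOn
  · have h1 : ∀ k : ℕ, 1 ≤ k → ‖1 - N 0‖ ≤ K' * (k : ℝ) ^ (-(c0 / 2)) := by
      intro k hk
      have h2 := hN 0 (by simpa using ht10.le) k hk
      have h3 : H k 0 = 1 := by rw [hH]; simp [hG0 k hk]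
      rwa [h3] at h2
    have h4 : ‖1 - N 0‖ ≤ 0 := by
      refine ge_of_tendsto ht ?_
      filter_upwards [eventually_ge_atTop 1] with k hk using h1 k hk
    have h5 : 1 - N 0 = 0 := norm_le_zero_iff.1 h4
    rw [sub_eq_zero] at h5
    exact h5.symm
  · intro k hk t htt
    have h1 := hN t htt.le k hk
    rw [hH] at h1
    exact h1

/-! ### the second derivative -/

/-- the second derivative at `0` of `G exp (-λ t ^ 2)` -/
theorem deriv2_gauss {G : ℂ → ℂ} (hG : Differentiable ℂ G) (hG0 : G 0 = 1) (lam : ℂ) :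
    iteratedDeriv 2 (fun t => G t * Complex.exp (-lam * t ^ 2)) 0 = iteratedDeriv 2 G 0 - 2 * lam := by
  have hE : ∀ t : ℂ, HasDerivAt (fun t => Complex.exp (-lam * t ^ 2))
      (Complex.exp (-lam * t ^ 2) * (-lam * (2 * t))) t := by
    intro t
    have h1 : HasDerivAt (fun t : ℂ => -lam * t ^ 2) (-lam * (2 * t)) t := by
      have := (hasDerivAt_pow 2 t).const_mul (-lam)
      simpa using this
    exact h1.cexp
  have hd1 : deriv (fun t => G t * Complex.exp (-lam * t ^ 2)) = fun t =>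
      deriv G t * Complex.exp (-lam * t ^ 2) + G t * (Complex.exp (-lam * t ^ 2) * (-lam * (2 * t))) := by
    funext t
    exact ((hG t).hasDerivAt.mul (hE t)).deriv
  have hG' : Differentiable ℂ (deriv G) := by
    intro t
    exact (hG.analyticAt t).deriv.differentiableAt
  have h2 : HasDerivAt (fun t => deriv G t * Complex.exp (-lam * t ^ 2) +
      G t * (Complex.exp (-lam * t ^ 2) * (-lam * (2 * t))))
      ((deriv (deriv G) 0 * Complex.exp (-lam * 0 ^ 2) + deriv G 0 *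
        (Complex.exp (-lam * 0 ^ 2) * (-lam * (2 * 0)))) +
       (deriv G 0 * (Complex.exp (-lam * 0 ^ 2) * (-lam * (2 * 0))) +
        G 0 * ((Complex.exp (-lam * 0 ^ 2) * (-lam * (2 * 0))) * (-lam * (2 * 0)) +
          Complex.exp (-lam * 0 ^ 2) * (-lam * (2 * 1))))) 0 := by
    refine HasDerivAt.add ((hG' 0).hasDerivAt.mul (hE 0)) ?_
    refine (hG 0).hasDerivAt.mul ?_
    refine (hE 0).mul ?_
    exact ((hasDerivAt_id (0 : ℂ)).const_mul 2).const_mul (-lam)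
  have h3 : ∀ f : ℂ → ℂ, iteratedDeriv 2 f 0 = deriv (deriv f) 0 := by
    intro f
    rw [iteratedDeriv_succ, iteratedDeriv_one]
  rw [h3, h3, hd1, h2.deriv, hG0]
  simp
  ring

/-- **the variance** -/
theorem var_of {a t1 c C : ℝ} {G : ℕ → ℂ → ℂ} {N : ℂ → ℂ} (ht1 : 0 < t1)
    (hG : ∀ k : ℕ, 1 ≤ k → Differentiable ℂ (G k)) (hG0 : ∀ k : ℕ, 1 ≤ k → G k 0 = 1)
    (hN : DifferentiableOn ℂ N (ball 0 t1))
    (h : ∀ k : ℕ, 1 ≤ k → ∀ t : ℂ, ‖t‖ < t1 →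
        ‖G k t * Complex.exp (-((a * Real.log k : ℝ) : ℂ) * t ^ 2) - N t‖ ≤ C * (k : ℝ) ^ (-c)) :
    ∃ (v : ℂ) (C' : ℝ), ∀ k : ℕ, 1 ≤ k →
      ‖iteratedDeriv 2 (G k) 0 - 2 * ((a * Real.log k : ℝ) : ℂ) - v‖ ≤ C' * (k : ℝ) ^ (-c) := by
  refine ⟨iteratedDeriv 2 N 0, 8 * C / t1 ^ 2, fun k hk => ?_⟩
  set lam : ℂ := ((a * Real.log k : ℝ) : ℂ) with hlam
  have hHd : Differentiable ℂ fun t => G k t * Complex.exp (-lam * t ^ 2) :=
    (hG k hk).mul (by fun_prop)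
  have hr : (0 : ℝ) < t1 / 2 := by positivity
  have hsub : closedBall (0 : ℂ) (t1 / 2) ⊆ ball 0 t1 := closedBall_subset_ball (by linarith)
  have hNc : ContDiffAt ℂ 2 N 0 :=
    (hN.analyticAt (isOpen_ball.mem_nhds (mem_ball_self ht1))).contDiffAt
  have hHc : ContDiffAt ℂ 2 (fun t => G k t * Complex.exp (-lam * t ^ 2)) 0 :=
    (hHd.analyticAt 0).contDiffAt
  have h1 : iteratedDeriv 2 (fun t => G k t * Complex.exp (-lam * t ^ 2) - N t) 0 =
      iteratedDeriv 2 (fun t => G k t * Complex.exp (-lam * t ^ 2)) 0 - iteratedDeriv 2 N 0 :=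
    iteratedDeriv_fun_sub hHc hNc
  have h2 := norm_iteratedDeriv_le_of_forall_mem_sphere_norm_le (c := (0 : ℂ)) (R := t1 / 2)
    (C := C * (k : ℝ) ^ (-c)) (f := fun t => G k t * Complex.exp (-lam * t ^ 2) - N t) 2 hr
    (by
      refine DifferentiableOn.diffContOnCl ?_
      rw [closure_ball _ hr.ne']
      exact hHd.differentiableOn.sub (hN.mono hsub))
    (fun z hz => by
      refine h k hk z ?_
      rw [mem_sphere_zero_iff_norm] at hz
      rw [hz]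
      linarith)
  rw [h1, deriv2_gauss (hG k hk) (hG0 k hk)] at h2
  refine h2.trans (le_of_eq ?_)
  rw [Nat.factorial_two]
  push_cast
  field_simp
  ring

end WND

end
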