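import Mathlib

/-!
# Local large deviations from exponential moments (Mathlib only)

`ldp_of`: if the exponential moments satisfy `m k t = exp (a (lam k) t ^ 2) (M t + o(1))`, `M t > 0`, for real
`|t| < t1`, then `log P (X ≥ x lam) / lam → - x ^ 2 / (4 a)` for `0 < x < 2 a t1`.
The two hypotheses on the tail `P` are Chernoff's bound and the pointwise inequality used for the tilted law.
-/

set_option autoImplicit false

noncomputable section

open Filter Topology

namespace WND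

theorem ldp_upper {a t1 : ℝ} (ha : 0 < a) {lam : ℕ → ℝ} (hlam : Tendsto lam atTop atTop)
    {m : ℕ → ℝ → ℝ} {M : ℝ → ℝ} (hM : ∀ t : ℝ, |t| < t1 → 0 < M t)
    (hm : ∀ t : ℝ, |t| < t1 → Tendsto (fun k => m k t * Real.exp (-(a * lam k * t ^ 2))) atTop (𝓝 (M t)))
    {P : ℕ → ℝ} {x : ℝ} (hx0 : 0 < x) (hx : x < 2 * a * t1)
    (hU : ∀ᶠ k in atTop, ∀ t : ℝ, 0 ≤ t → P k ≤ Real.exp (-(t * (x * lam k))) * m k t)
    (hP : ∀ᶠ k in atTop, 0 < P k) {ε : ℝ} (hε : 0 < ε) :
    ∀ᶠ k in atTop, Real.log (P k) / lam k ≤ -(x ^ 2 / (4 * a)) + ε := by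
  obtain ⟨t, ht⟩ : ∃ t, t = x / (2 * a) := ⟨_, rfl⟩
  have ht0 : 0 ≤ t := by rw [ht]; positivity
  have ht1 : |t| < t1 := by
    rw [abs_of_nonneg ht0, ht, div_lt_iff₀ (by positivity)]
    linarith
  have hx2 : 2 * a * t = x := by rw [ht]; field_simp
  have h1 := hM t ht1
  have h2 : ∀ᶠ k in atTop, m k t * Real.exp (-(a * lam k * t ^ 2)) < 2 * M t :=
    (hm t ht1).eventually (gt_mem_nhds (by linarith))
  have h3 : Tendsto (fun k => Real.log (2 * M t) / lam k) atTop (𝓝 0) :=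
    hlam.const_div_atTop _
  filter_upwards [hU, hP, h2, h3.eventually (gt_mem_nhds hε), hlam.eventually_gt_atTop 0] with k g1 g2 g3 g4 g5
  have e1 : m k t < Real.exp (a * lam k * t ^ 2) * (2 * M t) := by
    have e2 : Real.exp (-(a * lam k * t ^ 2)) * Real.exp (a * lam k * t ^ 2) = 1 := by
      rw [← Real.exp_add]; simp
    calc m k t = m k t * Real.exp (-(a * lam k * t ^ 2)) * Real.exp (a * lam k * t ^ 2) := by
          rw [mul_assoc, e2, mul_one]
      _ < 2 * M t * Real.exp (a * lam k * t ^ 2) := mul_lt_mul_of_pos_right g3 (Real.exp_pos _)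
      _ = _ := by ring
  have e3 : P k ≤ Real.exp (-(t * (x * lam k)) + a * lam k * t ^ 2) * (2 * M t) := by
    rw [Real.exp_add, mul_assoc]
    exact (g1 t ht0).trans (mul_le_mul_of_nonneg_left e1.le (Real.exp_pos _).le)
  have e4 : Real.log (P k) ≤ -(t * (x * lam k)) + a * lam k * t ^ 2 + Real.log (2 * M t) := by
    have := Real.log_le_log g2 e3
    rwa [Real.log_mul (Real.exp_pos _).ne' (by positivity), Real.log_exp] at this
  have e5 : -(t * (x * lam k)) + a * lam k * t ^ 2 = -(x ^ 2 / (4 * a)) * lam k := by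
    rw [ht]
    field_simp
    ring
  rw [e5] at e4
  have e6 : Real.log (P k) / lam k ≤ (-(x ^ 2 / (4 * a)) * lam k + Real.log (2 * M t)) / lam k :=
    div_le_div_of_nonneg_right e4 g5.le
  rw [add_div, mul_div_assoc, div_self g5.ne', mul_one] at e6
  linarith

theorem ldp_lower {a t1 : ℝ} (ha : 0 < a) {lam : ℕ → ℝ} (hlam : Tendsto lam atTop atTop)
    {m : ℕ → ℝ → ℝ} {M : ℝ → ℝ} (hM : ∀ t : ℝ, |t| < t1 → 0 < M t)
    (hm : ∀ t : ℝ, |t| < t1 → Tendsto (fun k => m k t * Real.exp (-(a * lam k * t ^ 2))) atTop (𝓝 (M t)))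
    {P : ℕ → ℝ} {x : ℝ} (hx0 : 0 < x) (hx : x < 2 * a * t1)
    (hL : ∀ᶠ k in atTop, ∀ t δ y : ℝ, 0 ≤ t → 0 ≤ δ → x ≤ y →
      m k t ≤ Real.exp (δ * (x * lam k)) * m k (t - δ) + Real.exp (t * (y * lam k)) * P k +
        Real.exp (-(δ * (y * lam k))) * m k (t + δ)) {ε : ℝ} (hε : 0 < ε) :
    ∀ᶠ k in atTop, 0 < P k ∧ -(x ^ 2 / (4 * a)) - ε ≤ Real.log (P k) / lam k := by
  -- the choice of the margin
  obtain ⟨η, hη0, hη1, hη2⟩ : ∃ η : ℝ, 0 < η ∧ (x + 2 * η) / (2 * a) < t1 ∧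
      -(x ^ 2 / (4 * a)) - ε / 2 < -((x + η) * (x + 3 * η) / (4 * a)) := by
    have c1 : Tendsto (fun η : ℝ => (x + 2 * η) / (2 * a)) (𝓝[>] 0) (𝓝 ((x + 2 * 0) / (2 * a))) :=
      (Continuous.tendsto (by fun_prop) _).mono_left nhdsWithin_le_nhds
    have c2 : Tendsto (fun η : ℝ => -((x + η) * (x + 3 * η) / (4 * a))) (𝓝[>] 0)
        (𝓝 (-((x + 0) * (x + 3 * 0) / (4 * a)))) :=
      (Continuous.tendsto (by fun_prop) _).mono_left nhdsWithin_le_nhds
    have d1 : (x + 2 * 0) / (2 * a) < t1 := by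
      rw [div_lt_iff₀ (by positivity)]
      linarith
    have d2 : -(x ^ 2 / (4 * a)) - ε / 2 < -((x + 0) * (x + 3 * 0) / (4 * a)) := by
      have : (x + 0) * (x + 3 * 0) / (4 * a) = x ^ 2 / (4 * a) := by ring
      rw [this]
      linarith
    obtain ⟨η, h1, h2, h3⟩ := ((c1.eventually (gt_mem_nhds d1)).and
      ((c2.eventually (lt_mem_nhds d2)).and self_mem_nhdsWithin)).exists
    exact ⟨η, h3, h1, h2⟩
  obtain ⟨t, ht⟩ : ∃ t, t = (x + η) / (2 * a) := ⟨_, rfl⟩
  obtain ⟨δ, hδ⟩ : ∃ δ, δ = η / (2 * a) := ⟨_, rfl⟩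
  have ht0 : 0 < t := by rw [ht]; positivity
  have hδ0 : 0 < δ := by rw [hδ]; positivity
  have e0 : t + δ = (x + 2 * η) / (2 * a) := by rw [ht, hδ]; ring
  have htp : |t + δ| < t1 := by rw [abs_of_pos (by positivity), e0]; exact hη1
  have e0' : t - δ = x / (2 * a) := by rw [ht, hδ]; ring
  have htm : |t - δ| < t1 := by
    rw [e0', abs_of_pos (by positivity)]
    refine lt_of_le_of_lt ?_ hη1
    exact div_le_div_of_nonneg_right (by linarith) (by positivity)
  have htt : |t| < t1 := by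
    rw [abs_of_pos ht0]
    refine lt_of_le_of_lt ?_ hη1
    rw [ht]
    exact div_le_div_of_nonneg_right (by linarith) (by positivity)
  have hMt := hM t htt
  have hMp := hM _ htp
  have hMm := hM _ htm
  obtain ⟨κ, hκ⟩ : ∃ κ, κ = η ^ 2 / (4 * a) := ⟨_, rfl⟩
  have hκ0 : 0 < κ := by rw [hκ]; positivity
  have q1 : ∀ᶠ k in atTop, M t / 2 < m k t * Real.exp (-(a * lam k * t ^ 2)) :=
    (hm t htt).eventually (lt_mem_nhds (by linarith))
  have q2 : ∀ᶠ k in atTop, m k (t + δ) * Real.exp (-(a * lam k * (t + δ) ^ 2)) < 2 * M (t + δ) :=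
    (hm _ htp).eventually (gt_mem_nhds (by linarith))
  have q3 : ∀ᶠ k in atTop, m k (t - δ) * Real.exp (-(a * lam k * (t - δ) ^ 2)) < 2 * M (t - δ) :=
    (hm _ htm).eventually (gt_mem_nhds (by linarith))
  have q4 : Tendsto (fun k => Real.exp (-(κ * lam k)) * (2 * M (t - δ) + 2 * M (t + δ))) atTop (𝓝 0) := by
    have h1 : Tendsto (fun k => Real.exp (-(κ * lam k))) atTop (𝓝 0) :=
      Real.tendsto_exp_neg_atTop_nhds_zero.comp (hlam.const_mul_atTop hκ0)
    simpa using h1.mul_const (2 * M (t - δ) + 2 * M (t + δ))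
  have q5 : Tendsto (fun k => Real.log (M t / 4) / lam k) atTop (𝓝 0) := hlam.const_div_atTop _
  filter_upwards [hL, q1, q2, q3, q4.eventually (gt_mem_nhds (show (0 : ℝ) < M t / 4 by linarith)),
    q5.eventually (lt_mem_nhds (show -(ε / 2) < (0 : ℝ) by linarith)), hlam.eventually_gt_atTop 0]
    with k g1 g2 g3 g4 g5 g6 g7
  have inv : ∀ s : ℝ, Real.exp (-(a * lam k * s ^ 2)) * Real.exp (a * lam k * s ^ 2) = 1 := fun s => by
    rw [← Real.exp_add]; simp
  have up : ∀ s B : ℝ, m k s * Real.exp (-(a * lam k * s ^ 2)) < B → m k s < B * Real.exp (a * lam k * s ^ 2) := by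
    intro s B h
    calc m k s = m k s * Real.exp (-(a * lam k * s ^ 2)) * Real.exp (a * lam k * s ^ 2) := by
          rw [mul_assoc, inv, mul_one]
      _ < _ := mul_lt_mul_of_pos_right h (Real.exp_pos _)
  have lo : ∀ s B : ℝ, B < m k s * Real.exp (-(a * lam k * s ^ 2)) → B * Real.exp (a * lam k * s ^ 2) < m k s := by
    intro s B h
    calc B * Real.exp (a * lam k * s ^ 2)
        < m k s * Real.exp (-(a * lam k * s ^ 2)) * Real.exp (a * lam k * s ^ 2) :=
          mul_lt_mul_of_pos_right h (Real.exp_pos _)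
      _ = m k s := by rw [mul_assoc, inv, mul_one]
  have u1 := up _ _ g4
  have u2 := up _ _ g3
  have u3 := lo _ _ g2
  obtain ⟨E, hE⟩ : ∃ E, E = Real.exp (a * lam k * t ^ 2) := ⟨_, rfl⟩
  have hE0 : 0 < E := by rw [hE]; exact Real.exp_pos _
  have v1 : Real.exp (δ * (x * lam k)) * Real.exp (a * lam k * (t - δ) ^ 2) = E * Real.exp (-(κ * lam k)) := by
    rw [hE, ← Real.exp_add, ← Real.exp_add]
    congr 1
    rw [ht, hδ, hκ]
    field_simp
    ring
  have v2 : Real.exp (-(δ * ((x + 2 * η) * lam k))) * Real.exp (a * lam k * (t + δ) ^ 2) =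
      E * Real.exp (-(κ * lam k)) := by
    rw [hE, ← Real.exp_add, ← Real.exp_add]
    congr 1
    rw [ht, hδ, hκ]
    field_simp
    ring
  have w := g1 t δ (x + 2 * η) ht0.le hδ0.le (by linarith)
  have w1 : Real.exp (δ * (x * lam k)) * m k (t - δ) ≤ E * (Real.exp (-(κ * lam k)) * (2 * M (t - δ))) := by
    calc Real.exp (δ * (x * lam k)) * m k (t - δ)
        ≤ Real.exp (δ * (x * lam k)) * (2 * M (t - δ) * Real.exp (a * lam k * (t - δ) ^ 2)) :=
          mul_le_mul_of_nonneg_left u1.le (Real.exp_pos _).le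
      _ = (Real.exp (δ * (x * lam k)) * Real.exp (a * lam k * (t - δ) ^ 2)) * (2 * M (t - δ)) := by ring
      _ = _ := by rw [v1]; ring
  have w2 : Real.exp (-(δ * ((x + 2 * η) * lam k))) * m k (t + δ) ≤
      E * (Real.exp (-(κ * lam k)) * (2 * M (t + δ))) := by
    calc Real.exp (-(δ * ((x + 2 * η) * lam k))) * m k (t + δ)
        ≤ Real.exp (-(δ * ((x + 2 * η) * lam k))) * (2 * M (t + δ) * Real.exp (a * lam k * (t + δ) ^ 2)) :=
          mul_le_mul_of_nonneg_left u2.le (Real.exp_pos _).le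
      _ = (Real.exp (-(δ * ((x + 2 * η) * lam k))) * Real.exp (a * lam k * (t + δ) ^ 2)) *
          (2 * M (t + δ)) := by ring
      _ = _ := by rw [v2]; ring
  have w3 : E * (M t / 4) ≤ Real.exp (t * ((x + 2 * η) * lam k)) * P k := by
    rw [← hE] at u3
    have w4 : E * (Real.exp (-(κ * lam k)) * (2 * M (t - δ))) + E * (Real.exp (-(κ * lam k)) * (2 * M (t + δ))) ≤
        E * (M t / 4) := by
      rw [← mul_add, ← mul_add]
      exact mul_le_mul_of_nonneg_left g5.le hE0.le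
    nlinarith
  obtain ⟨T, hT⟩ : ∃ T, T = t * ((x + 2 * η) * lam k) := ⟨_, rfl⟩
  rw [← hT] at w3
  have w5 : Real.exp (a * lam k * t ^ 2 - T) * (M t / 4) ≤ P k := by
    have e1 : Real.exp (a * lam k * t ^ 2 - T) = E * Real.exp (-T) := by
      rw [hE, ← Real.exp_add]; ring_nf
    have e2 : Real.exp (-T) * Real.exp T = 1 := by rw [← Real.exp_add]; simp
    calc Real.exp (a * lam k * t ^ 2 - T) * (M t / 4) = Real.exp (-T) * (E * (M t / 4)) := by
          rw [e1]; ring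
      _ ≤ Real.exp (-T) * (Real.exp T * P k) := mul_le_mul_of_nonneg_left w3 (Real.exp_pos _).le
      _ = P k := by rw [← mul_assoc, e2, one_mul]
  have hPk : 0 < P k := lt_of_lt_of_le (by positivity) w5
  refine ⟨hPk, ?_⟩
  have w6 : a * lam k * t ^ 2 - T + Real.log (M t / 4) ≤ Real.log (P k) := by
    have h := Real.log_le_log (by positivity) w5
    rwa [Real.log_mul (Real.exp_pos _).ne' (by positivity), Real.log_exp] at h
  have w7 : a * lam k * t ^ 2 - T = -((x + η) * (x + 3 * η) / (4 * a)) * lam k := by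
    rw [hT, ht]
    field_simp
    ring
  rw [w7] at w6
  have w8 : (-((x + η) * (x + 3 * η) / (4 * a)) * lam k + Real.log (M t / 4)) / lam k ≤
      Real.log (P k) / lam k := div_le_div_of_nonneg_right w6 g7.le
  rw [add_div, mul_div_assoc, div_self g7.ne', mul_one] at w8
  linarith

/-- **local large deviations** -/
theorem ldp_of {a t1 : ℝ} (ha : 0 < a) {lam : ℕ → ℝ} (hlam : Tendsto lam atTop atTop)
    {m : ℕ → ℝ → ℝ} {M : ℝ → ℝ} (hM : ∀ t : ℝ, |t| < t1 → 0 < M t)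
    (hm : ∀ t : ℝ, |t| < t1 → Tendsto (fun k => m k t * Real.exp (-(a * lam k * t ^ 2))) atTop (𝓝 (M t)))
    {P : ℕ → ℝ} {x : ℝ} (hx0 : 0 < x) (hx : x < 2 * a * t1)
    (hU : ∀ᶠ k in atTop, ∀ t : ℝ, 0 ≤ t → P k ≤ Real.exp (-(t * (x * lam k))) * m k t)
    (hL : ∀ᶠ k in atTop, ∀ t δ y : ℝ, 0 ≤ t → 0 ≤ δ → x ≤ y →
      m k t ≤ Real.exp (δ * (x * lam k)) * m k (t - δ) + Real.exp (t * (y * lam k)) * P k +
        Real.exp (-(δ * (y * lam k))) * m k (t + δ)) :
    Tendsto (fun k => Real.log (P k) / lam k) atTop (𝓝 (-(x ^ 2 / (4 * a)))) := by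
  have h1 := fun ε (hε : (0 : ℝ) < ε) => ldp_lower ha hlam hM hm hx0 hx hL hε
  have hP : ∀ᶠ k in atTop, 0 < P k := (h1 1 one_pos).mono fun k hk => hk.1
  have h2 := fun ε (hε : (0 : ℝ) < ε) => ldp_upper ha hlam hM hm hx0 hx hU hP hε
  rw [Metric.tendsto_nhds]
  intro ε hε
  filter_upwards [h1 (ε / 2) (by positivity), h2 (ε / 2) (by positivity)] with k g1 g2
  rw [Real.dist_eq, abs_lt]
  constructor <;> linarith [g1.2]

end WND

end
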