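import Pool.Agent.WND.MgfAng
import Pool.Agent.WND.Ldp
import Pool.Agent.WND.Cplx

/-!
# PLAN W+: the final statements for the winding angle (helper85)

From plan B, `TRZ0 PBM.nrm Wz d0` and the crude bound `Crude`:

* `mgf_main`: `E exp (t θ) = k ^ ((8 / 3) t ^ 2) (M t + O(k ^ (-c)))` for complex `|t| < t0`, `M` analytic;
* `var_main`: `E θ ^ 2 = (16 / 3) log k + v + O(k ^ (-c))`; `mean_zero`;
* `ldp_main`: `log P (θ ≥ x log k) / log k → - (3 / 32) x ^ 2` for small `x > 0`;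
* **`wind_final`**: all together with the central limit theorem.
-/

set_option autoImplicit false

noncomputable section

namespace Pool.Agent.CylSaw

open Filter Topology MeasureTheory ProbabilityTheory Metric

/-- the crude bound of the exponential moments (helper76's `crude`) -/
def Crude : Prop := ∀ ε : ℝ, 0 < ε → ∃ δ B : ℝ, 0 < δ ∧ ∀ k : ℕ, 1 ≤ k → ∀ t : ℂ, ‖t‖ ≤ δ →
  ‖angMgf k t‖ ≤ B * (k : ℝ) ^ ε

/-- the mod-Gaussian estimate -/
def ModG (t0 c C : ℝ) (M : ℂ → ℂ) : Prop :=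
  ∀ k : ℕ, 1 ≤ k → ∀ t : ℂ, ‖t‖ < t0 →
    ‖angMgf k t * Complex.exp (-((8 / 3 * Real.log k : ℝ) : ℂ) * t ^ 2) - M t‖ ≤ C * (k : ℝ) ^ (-c)

theorem mgf_main {d0 : ℝ} (hd0 : 0 < d0) (hB : PBM.TRP PBM.nrm) (hT : WND.TRZ0 PBM.nrm Wz d0) (hC : Crude) :
    ∃ (t0 c C : ℝ) (M : ℂ → ℂ), 0 < t0 ∧ 0 < c ∧ 0 ≤ C ∧ DifferentiableOn ℂ M (ball 0 t0) ∧ M 0 = 1 ∧
      ModG t0 c C M := by
  obtain ⟨-, ⟨s0, c, C, M, hs0, hc, -, -, hM⟩, -⟩ := ang_main hd0 hB hT
  exact WND.cplx_mod (a := 8 / 3) (by norm_num) hc hs0 (fun k hk => angMgf_diff hk)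
    (fun k hk => angMgf_zero hk) (M := fun s => (M s : ℂ)) (C0 := C)
    (fun k hk s hs => by rw [angMgf_I]; exact hM k hk s hs) hC

theorem var_main {t0 c C : ℝ} {M : ℂ → ℂ} (ht0 : 0 < t0) (hN : DifferentiableOn ℂ M (ball 0 t0))
    (hM : ModG t0 c C M) :
    ∃ v C' : ℝ, ∀ k : ℕ, 1 ≤ k → |angSq k - (16 / 3 * Real.log k + v)| ≤ C' * (k : ℝ) ^ (-c) := by
  obtain ⟨v, C', h⟩ := WND.var_of (a := 8 / 3) ht0 (fun k hk => angMgf_diff hk)
    (fun k hk => angMgf_zero hk) hN hM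
  refine ⟨v.re, C', fun k hk => ?_⟩
  have h1 := h k hk
  rw [angMgf_deriv2 hk] at h1
  refine le_trans ?_ h1
  have h2 := Complex.abs_re_le_norm ((angSq k : ℂ) - 2 * ((8 / 3 * Real.log k : ℝ) : ℂ) - v)
  refine le_trans (le_of_eq ?_) h2
  congr 1
  simp only [Complex.sub_re, Complex.ofReal_re]
  have h3 : (2 * ((8 / 3 * Real.log k : ℝ) : ℂ)).re = 16 / 3 * Real.log k := by
    rw [show (2 : ℂ) * ((8 / 3 * Real.log k : ℝ) : ℂ) = ((16 / 3 * Real.log k : ℝ) : ℂ) by push_cast; ring,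
      Complex.ofReal_re]
  rw [h3]
  ring

theorem mean_zero {k : ℕ} (hk : 1 ≤ k) : ∑' w : Saw k, wt w * wang w = 0 := by
  have h : ∑' w : Saw k, wt w * wang w = -∑' w : Saw k, wt w * wang w := by
    conv_lhs => rw [← (reflE k).tsum_eq]
    rw [← tsum_neg]
    refine tsum_congr fun w => ?_
    have e1 : (reflE k) w = refl k w := rfl
    have e2 : wt (refl k w) = wt w := rfl
    rw [e1, e2, wang_eq hk, wang_eq hk, cn_refl hk]
    push_cast
    ring
  linarith

/-! ### large deviations -/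

theorem summable_ind {k : ℕ} (hk : 1 ≤ k) (s : Set ℝ) :
    Summable fun w : Saw k => s.indicator (fun _ => wt w) (wang w) :=
  Summable.of_nonneg_of_le (fun w => Set.indicator_nonneg (fun _ _ => (wt_pos w).le) _)
    (fun w => Set.indicator_le_self' (fun _ _ => (wt_pos w).le) _) (summable_wt hk)

theorem chernoff {k : ℕ} (hk : 1 ≤ k) {t : ℝ} (ht : 0 ≤ t) (y : ℝ) :
    angProb k (Set.Ici y) ≤ Real.exp (-(t * y)) * mgfR k t := by
  unfold angProb mgfR
  rw [← mul_div_assoc]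
  refine div_le_div_of_nonneg_right ?_ (Z_pos hk).le
  rw [← tsum_mul_left]
  refine (summable_ind hk _).tsum_le_tsum (fun w => ?_) ((summable_mgfR hk t).mul_left _)
  have hw := (wt_pos w).le
  have e : Real.exp (-(t * y)) * (wt w * Real.exp (t * wang w)) = wt w * Real.exp (t * (wang w - y)) := by
    rw [mul_left_comm, ← Real.exp_add]
    ring_nf
  rw [e]
  by_cases h : wang w ∈ Set.Ici y
  · rw [Set.indicator_of_mem h]
    have h1 : (1 : ℝ) ≤ Real.exp (t * (wang w - y)) :=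
      Real.one_le_exp (mul_nonneg ht (sub_nonneg.2 h))
    nlinarith
  · rw [Set.indicator_of_notMem h]
    positivity

theorem tilt_le {k : ℕ} (hk : 1 ≤ k) {t δ x y : ℝ} (ht : 0 ≤ t) (hδ : 0 ≤ δ) :
    mgfR k t ≤ Real.exp (δ * x) * mgfR k (t - δ) + Real.exp (t * y) * angProb k (Set.Ici x) +
      Real.exp (-(δ * y)) * mgfR k (t + δ) := by
  unfold angProb mgfR
  rw [← mul_div_assoc, ← mul_div_assoc, ← mul_div_assoc, ← add_div, ← add_div]
  refine div_le_div_of_nonneg_right ?_ (Z_pos hk).le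
  rw [← tsum_mul_left, ← tsum_mul_left, ← tsum_mul_left]
  have s1 := (summable_mgfR hk (t - δ)).mul_left (Real.exp (δ * x))
  have s2 := (summable_ind hk (Set.Ici x)).mul_left (Real.exp (t * y))
  have s3 := (summable_mgfR hk (t + δ)).mul_left (Real.exp (-(δ * y)))
  rw [← s1.tsum_add s2, ← (s1.add s2).tsum_add s3]
  refine (summable_mgfR hk t).tsum_le_tsum (fun w => ?_) ((s1.add s2).add s3)
  have hw := (wt_pos w).le
  have e1 : Real.exp (δ * x) * (wt w * Real.exp ((t - δ) * wang w)) =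
      wt w * Real.exp (t * wang w + δ * (x - wang w)) := by
    rw [mul_left_comm, ← Real.exp_add]
    ring_nf
  have e3 : Real.exp (-(δ * y)) * (wt w * Real.exp ((t + δ) * wang w)) =
      wt w * Real.exp (t * wang w + δ * (wang w - y)) := by
    rw [mul_left_comm, ← Real.exp_add]
    ring_nf
  rw [e1, e3]
  have p1 : 0 ≤ wt w * Real.exp (t * wang w + δ * (x - wang w)) := by positivity
  have p3 : 0 ≤ wt w * Real.exp (t * wang w + δ * (wang w - y)) := by positivity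
  have p2 : 0 ≤ Real.exp (t * y) * (Set.Ici x).indicator (fun _ => wt w) (wang w) :=
    mul_nonneg (Real.exp_pos _).le (Set.indicator_nonneg (fun _ _ => hw) _)
  rcases lt_or_ge (wang w) x with h | h
  · have q : wt w * Real.exp (t * wang w) ≤ wt w * Real.exp (t * wang w + δ * (x - wang w)) :=
      mul_le_mul_of_nonneg_left (Real.exp_le_exp.2 (by nlinarith)) hw
    linarith
  · rcases lt_or_ge y (wang w) with h' | h'
    · have q : wt w * Real.exp (t * wang w) ≤ wt w * Real.exp (t * wang w + δ * (wang w - y)) :=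
        mul_le_mul_of_nonneg_left (Real.exp_le_exp.2 (by nlinarith)) hw
      linarith
    · have q : wt w * Real.exp (t * wang w) ≤
          Real.exp (t * y) * (Set.Ici x).indicator (fun _ => wt w) (wang w) := by
        rw [Set.indicator_of_mem (show wang w ∈ Set.Ici x from h), mul_comm]
        exact mul_le_mul_of_nonneg_right (Real.exp_le_exp.2 (mul_le_mul_of_nonneg_left h' ht)) hw
      linarith

theorem ldp_main {t0 c C : ℝ} {M : ℂ → ℂ} (ht0 : 0 < t0) (hc : 0 < c)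
    (hN : DifferentiableOn ℂ M (ball 0 t0)) (hM0 : M 0 = 1) (hM : ModG t0 c C M) :
    ∃ x0 : ℝ, 0 < x0 ∧ ∀ x : ℝ, 0 < x → x < x0 →
      Tendsto (fun k : ℕ => Real.log (angProb k (Set.Ici (x * Real.log k))) / Real.log k) atTop
        (𝓝 (-(3 / 32 * x ^ 2))) := by
  have hcont : ContinuousAt (fun t : ℝ => (M t).re) 0 := by
    have h1 : ContinuousAt M 0 := (hN.differentiableAt (isOpen_ball.mem_nhds (mem_ball_self ht0))).continuousAt
    have h2 : ContinuousAt M (((0 : ℝ) : ℂ)) := by simpa using h1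
    exact Complex.continuous_re.continuousAt.comp (h2.comp Complex.continuous_ofReal.continuousAt)
  have hpos : ∀ᶠ t : ℝ in 𝓝 0, 0 < (M t).re :=
    hcont.eventually (lt_mem_nhds (by simp [hM0]))
  obtain ⟨r, hr, hr'⟩ := Metric.eventually_nhds_iff.1 hpos
  obtain ⟨t1, ht1⟩ : ∃ t1, t1 = min r t0 := ⟨_, rfl⟩
  have ht10 : 0 < t1 := by rw [ht1]; exact lt_min hr ht0
  have hlam : Tendsto (fun k : ℕ => Real.log k) atTop atTop :=
    Real.tendsto_log_atTop.comp tendsto_natCast_atTop_atTop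
  refine ⟨2 * (8 / 3) * t1, by positivity, fun x hx hx1 => ?_⟩
  have key := WND.ldp_of (a := 8 / 3) (t1 := t1) (by norm_num) hlam (m := mgfR) (M := fun t => (M t).re)
    (fun t ht => hr' (by
      rw [Real.dist_eq, sub_zero]
      exact lt_of_lt_of_le ht (by rw [ht1]; exact min_le_left _ _)))
    (fun t ht => ?_) (P := fun k => angProb k (Set.Ici (x * Real.log k))) hx hx1 ?_ ?_
  · have e : x ^ 2 / (4 * (8 / 3)) = 3 / 32 * x ^ 2 := by ring
    rw [e] at key
    exact key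
  · -- convergence of the real exponential moments
    have htt : ‖(t : ℂ)‖ < t0 := by
      rw [Complex.norm_real, Real.norm_eq_abs]
      exact lt_of_lt_of_le ht (by rw [ht1]; exact min_le_right _ _)
    have h0 : Tendsto (fun k : ℕ => C * (k : ℝ) ^ (-c)) atTop (𝓝 0) := by
      have h3 := (tendsto_rpow_neg_atTop hc).comp tendsto_natCast_atTop_atTop
      simpa using h3.const_mul C
    refine tendsto_iff_dist_tendsto_zero.2 (squeeze_zero' (Eventually.of_forall fun _ => dist_nonneg) ?_ h0)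
    filter_upwards [eventually_ge_atTop 1] with k hk
    have h4 := hM k hk t htt
    rw [angMgf_real] at h4
    refine le_trans ?_ h4
    rw [Real.dist_eq]
    refine le_trans (le_of_eq ?_) (Complex.abs_re_le_norm _)
    congr 1
    rw [Complex.sub_re]
    congr 1
    have e : (mgfR k t : ℂ) * Complex.exp (-((8 / 3 * Real.log k : ℝ) : ℂ) * (t : ℂ) ^ 2) =
        ((mgfR k t * Real.exp (-(8 / 3 * Real.log k * t ^ 2)) : ℝ) : ℂ) := by
      push_cast
      ring_nf
    rw [e, Complex.ofReal_re]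
  · filter_upwards [eventually_ge_atTop 1] with k hk t ht
    exact chernoff hk ht _
  · filter_upwards [eventually_ge_atTop 1] with k hk t δ y ht hδ _
    exact tilt_le hk ht hδ

/-- **the winding angle, final form** -/
theorem wind_final {d0 : ℝ} (hd0 : 0 < d0) (hB : PBM.TRP PBM.nrm) (hT : WND.TRZ0 PBM.nrm Wz d0)
    (hC : Crude) :
    (∀ k : ℕ, 1 ≤ k → 0 < Z k ∧
      (∀ t : ℂ, Summable fun w : Saw k => (wt w : ℂ) * Complex.exp (t * (wang w : ℂ))) ∧
      ∑' w : Saw k, wt w * wang w = 0) ∧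
    (∃ (t0 c C : ℝ) (M : ℂ → ℂ), 0 < t0 ∧ 0 < c ∧ DifferentiableOn ℂ M (ball 0 t0) ∧ M 0 = 1 ∧
      ∀ k : ℕ, 1 ≤ k → ∀ t : ℂ, ‖t‖ < t0 →
        ‖angMgf k t * Complex.exp (-((8 / 3 * Real.log k : ℝ) : ℂ) * t ^ 2) - M t‖ ≤ C * (k : ℝ) ^ (-c)) ∧
    (∃ v c C : ℝ, 0 < c ∧ ∀ k : ℕ, 1 ≤ k → |angSq k - (16 / 3 * Real.log k + v)| ≤ C * (k : ℝ) ^ (-c)) ∧
    (∃ x0 : ℝ, 0 < x0 ∧ ∀ x : ℝ, 0 < x → x < x0 →
      Tendsto (fun k : ℕ => Real.log (angProb k (Set.Ici (x * Real.log k))) / Real.log k) atTop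
        (𝓝 (-(3 / 32 * x ^ 2)))) ∧
    ∀ x : ℝ, Tendsto (fun k : ℕ => angProb k (Set.Iic (x * √(Real.log k)))) atTop
      (𝓝 ((gaussianReal 0 (16 / 3)).real (Set.Iic x))) := by
  obtain ⟨t0, c, C, M, ht0, hc, -, hN, hM0, hM⟩ := mgf_main hd0 hB hT hC
  obtain ⟨v, C', hv⟩ := var_main ht0 hN hM
  exact ⟨fun k hk => ⟨Z_pos hk, exp_summable hk, mean_zero hk⟩,
    ⟨t0, c, C, M, ht0, hc, hN, hM0, hM⟩, ⟨v, c, C', hc, hv⟩, ldp_main ht0 hc hN hM0 hM,
    (ang_main hd0 hB hT).2.2⟩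

end Pool.Agent.CylSaw

end
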