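import Pool.Agent.WND.TailK
import Pool.Agent.PB.TRH1

/-!
# The partial sums of the regular function at rows `0` are exponentially small below the mean number

**`tailS`**: for every `ε > 0` and every small `ep` there are `C`, `d > 0`, `k0` such that for `k ≥ k0` and
`K ≤ k` the normalised sum over the numbers `n ≤ K` of the eleven integrals is at most
`C k ^ ε exp (-d (k - K))`.
-/

set_option autoImplicit false
set_option linter.unusedSectionVars false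

noncomputable section

open Complex MeasureTheory Finset Filter
open scoped ENNReal

namespace WND

open NUO NUP1 NUCR NUP1S NURow NUGC PBX PBR PBO PBI

attribute [local instance] NUSea.seaP

/-- **The partial sums below the mean number.** -/
theorem tailS_all : ∀ ε : ℝ, 0 < ε → ∃ ep0 : ℝ, 0 < ep0 ∧ ep0 ≤ 1 / 100 ∧
    ∀ ep : ℝ, 0 < ep → ep ≤ ep0 → ∃ (C d : ℝ) (k0 : ℕ), 0 ≤ C ∧ 0 < d ∧ 1 ≤ k0 ∧
      ∀ k : ℕ, k0 ≤ k → ∀ K : ℕ, K ≤ k →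
        ‖nrR k * ∑ n ∈ range (K + 1), EED (R0 (k - 1) (beC ep) [I, -I] []) n‖ ≤
          C * (k : ℝ) ^ ε * Real.exp (-(d * ((k : ℝ) - K))) := by
  intro ε hε
  obtain ⟨ep0, h0, h1, hoth⟩ := oth0K (PBO.perBd_of0 (G0_nn [I, -I] []) s4R_GI oneR_GI)
    (PBO.clOk0 (ex := [I, -I]) (ex0 := []) PBO.cutOk_I (fun _ _ => rfl) rfl) ε hε
  refine ⟨ep0, h0, h1, fun ep hep hep' => ?_⟩
  obtain ⟨Cst, d, k0, hC, hd, hk0, hk⟩ := hoth ep hep hep'
  have hep1 : ep ≤ 1 / 100 := hep'.trans h1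
  have hKA := RG.KA_nonneg
  have hsin : 0 ≤ (Real.sin l)⁻¹ := by
    have h := norm_nrR (k := 1) le_rfl
    rw [← h]
    positivity
  refine ⟨(Real.sin l)⁻¹ * (RG.KA * Cst + (2 * Real.pi)⁻¹ ^ 2 * (2 * Cst)), d, k0, by positivity,
    hd, hk0, fun k hkk K hKk => ?_⟩
  obtain ⟨ho, hdd, hww⟩ := hk k hkk K hKk
  have hk1 : 1 ≤ k := hk0.trans hkk
  have hkR : (1 : ℝ) ≤ k := by exact_mod_cast hk1
  have hkR0 : (0 : ℝ) < k := by linarith
  have hPk : ParM (NUSea.O.par0 k) := PBO.parM_par0 k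
  obtain ⟨θ, hθ⟩ : ∃ θ : ℝ, θ = Real.exp (-(d * ((k : ℝ) - K))) := ⟨_, rfl⟩
  have hθ0 : 0 ≤ θ := by rw [hθ]; exact (Real.exp_pos _).le
  obtain ⟨X, hX⟩ : ∃ X : ℝ, X = Real.exp ((k : ℝ) ^ 2 * PBVR.EMF0) := ⟨_, rfl⟩
  have hX0 : 0 ≤ X := by rw [hX]; exact (Real.exp_pos _).le
  have ho' : ∀ t t' : HT, ¬(t = .W ∧ t' = .W) →
      sVal (PBO.KX [I, -I] [] ep k) (NUSea.O.par0 k) K t t' ≤ Cst * (k : ℝ) ^ ε * (X * θ) := by
    intro t t' ht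
    refine (ho t t' ht).trans ?_
    have e : Real.exp ((k : ℝ) ^ 2 * (G0 [I, -I] []).EM) * Real.exp (-(d * ((k : ℝ) - K))) =
        X * θ := by rw [hX, hθ]; rfl
    rw [e]
    refine mul_le_mul_of_nonneg_right (mul_le_mul_of_nonneg_left ?_ hC) (mul_nonneg hX0 hθ0)
    exact Real.rpow_le_rpow_of_exponent_le hkR (by linarith)
  have hd' : ∀ o : Bool,
      sValD (PBO.KX [I, -I] [] ep k) (PBO.kDX [I, -I] [] ep k) (NUSea.O.par0 k) K o ≤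
        Cst * (k : ℝ) ^ ε * (X * θ) := by
    intro o
    refine (hdd o).trans ?_
    have e : Real.exp ((k : ℝ) ^ 2 * (G0 [I, -I] []).EM) * Real.exp (-(d * ((k : ℝ) - K))) =
        X * θ := by rw [hX, hθ]; rfl
    rw [e]
    refine mul_le_mul_of_nonneg_right (mul_le_mul_of_nonneg_left ?_ hC) (mul_nonneg hX0 hθ0)
    exact Real.rpow_le_rpow_of_exponent_le hkR (by linarith)
  have hw : sInt (PBO.KX [I, -I] [] ep k) (NUSea.O.par0 k) K .W .W (∅ : Set (ℝ × ℝ))ᶜ ≤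
      ENNReal.ofReal (2 * Cst * (k : ℝ) ^ ε * (X * θ)) := by
    have h := hww Set.univ 0 MeasurableSet.univ fun z _ => by positivity
    rw [Set.compl_empty]
    refine h.trans (ENNReal.ofReal_le_ofReal ?_)
    have e : Real.exp ((k : ℝ) ^ 2 * (G0 [I, -I] []).EM) * Real.exp (-(d * ((k : ℝ) - K))) =
        X * θ := by rw [hX, hθ]; rfl
    rw [e]
    refine mul_le_mul_of_nonneg_right ?_ (mul_nonneg hX0 hθ0)
    have h2 : (k : ℝ) ^ (-(7 / 16) + ε) ≤ (k : ℝ) ^ ε :=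
      Real.rpow_le_rpow_of_exponent_le hkR (by linarith)
    have h3 : Real.exp (-0) = 1 := by simp
    rw [h3]
    nlinarith
  have hp : 0 ≤ (k : ℝ) ^ ε := Real.rpow_nonneg hkR0.le _
  have key := mst_near (D := R0 (k - 1) (beC ep) [I, -I] []) (K := PBO.KX [I, -I] [] ep k)
    (kD := PBO.kDX [I, -I] [] ep k) (PBO.DX_Ok PBO.cutOk_I hep hep1 k)
    (PBO.beC_bd hep hep1).1 hPk ⟨rfl, rfl, rfl, rfl, rfl, rfl, rfl, rfl⟩ (N := K) (N' := K)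
    le_rfl (B := Cst * (k : ℝ) ^ ε * (X * θ)) (B' := 2 * Cst * (k : ℝ) ^ ε * (X * θ))
    (by positivity) ho' hd' (S := (∅ : Set (ℝ × ℝ))) MeasurableSet.empty hw
  rw [setIntegral_empty, mul_zero, sub_zero] at key
  rw [norm_mul, ← hθ]
  have hn := norm_nrR hk1
  rw [← hX] at hn
  refine (mul_le_mul_of_nonneg_left key (norm_nonneg _)).trans (le_of_eq ?_)
  calc ‖nrR k‖ * (RG.KA * (Cst * (k : ℝ) ^ ε * (X * θ)) +
        (2 * Real.pi)⁻¹ ^ 2 * (2 * Cst * (k : ℝ) ^ ε * (X * θ)))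
      = (‖nrR k‖ * X) * (RG.KA * Cst + (2 * Real.pi)⁻¹ ^ 2 * (2 * Cst)) * (k : ℝ) ^ ε * θ := by
        ring
    _ = _ := by rw [hn]

/-- **The partial sums below the mean number**, one cutoff. -/
theorem tailS : ∀ ε : ℝ, 0 < ε → ∃ ep : ℝ, 0 < ep ∧ ep ≤ 1 / 100 ∧ ∃ (C d : ℝ) (k0 : ℕ), 0 ≤ C ∧
    0 < d ∧ 1 ≤ k0 ∧ ∀ k : ℕ, k0 ≤ k → ∀ K : ℕ, K ≤ k → K ≤ 2 * (k - 1) →
      ‖nrR k * ∑ n ∈ range (K + 1), EED (R0 (k - 1) (beC ep) [I, -I] []) n‖ ≤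
        C * (k : ℝ) ^ ε * Real.exp (-(d * ((k : ℝ) - K))) := by
  intro ε hε
  obtain ⟨ep, h0, h1, h⟩ := tailS_all ε hε
  obtain ⟨C, d, k0, hC, hd, hk0, H⟩ := h ep h0 le_rfl
  exact ⟨ep, h0, h1, C, d, k0, hC, hd, hk0, fun k hk K hK _ => H k hk K hK⟩

end WND

end
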