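import Pool.Agent.PB.CylDef
import Mathlib.Analysis.SpecialFunctions.Complex.Arg

/-!
# The winding angle on the honeycomb cylinder: the public definition (helper67)

The honeycomb lattice with edges of length `1` on the cylinder of circumference `2 √3 k`: a vertex has the position
`px + i py` (`py` modulo `2 √3 k`; the edges that cross `px = 0` are parallel to the axis). The cylinder is mapped to
the plane without `0` and infinity by `Z ↦ exp (π Z / (√3 k))`; there the middles of the cut edges of the rows `0` and
`k` are `1` and `-1`, and `z ↦ (z - 1) / (z + 1)` maps them to `0` and infinity.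
-/

set_option autoImplicit false

namespace Pool.Agent.CylSaw

open Complex Finset

/-- the position along the axis. -/
noncomputable def px {N : ℕ} (v : V N) : ℝ := 3 / 2 * (v.1 : ℝ) + (if v.2.2 then 1 else 1 / 2)

/-- the position around the cylinder (modulo `√3 N`). -/
noncomputable def py {N : ℕ} (v : V N) : ℝ := √3 * ((v.2.1.val : ℝ) + (v.1 : ℝ) / 2 + (if v.2.2 then 1 / 2 else 0))

/-- the position in the plane picture of the cylinder with `2 k` rows. -/
noncomputable def pz (k : ℕ) (v : V (2 * k)) : ℂ :=
  Complex.exp (((Real.pi / (√3 * k) : ℝ) : ℂ) * ((px v : ℂ) + (py v : ℂ) * I))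

/-- the coordinate that maps the two ends to `0` and infinity. -/
noncomputable def ph (k : ℕ) (v : V (2 * k)) : ℂ := (pz k v - 1) / (pz k v + 1)

/-- **The winding angle** of a walk around its two ends. -/
noncomputable def ang (k n : ℕ) (w : Fin (n + 1) → V (2 * k)) : ℝ :=
  ∑ i : Fin n, (ph k (w i.succ) / ph k (w i.castSucc)).arg

end Pool.Agent.CylSaw
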