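import Pool.Agent.WND.CWind
import Pool.Agent.WND.AngPos
import Mathlib.Analysis.SpecialFunctions.Complex.Arg
import Mathlib.Analysis.SpecialFunctions.Trigonometric.Arctan
import Mathlib.Analysis.SpecialFunctions.Trigonometric.DerivHyp

/-!
# The winding number is the winding angle (helper67)

The honeycomb lattice with edges of length `1` on the cylinder of circumference `2 √3 k`: a vertex has the position
`px + i py` (`py` modulo `2 √3 k`; the seam is `px = 0`, and the edges that cross it are parallel to the axis). The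
cylinder is mapped to the plane without `0` and infinity by `Z ↦ exp (π Z / (√3 k))`; there the middles of the cut
edges of the rows `0` and `k` are `1` and `-1`, and `z ↦ (z - 1) / (z + 1)` maps them to `0` and infinity.

`ang k n w`: the sum over the steps of the change of the argument of this coordinate, that is, the total winding angle
of `w` around its two ends. `ang_eq`: it is `-2 π cw w`.
-/

set_option autoImplicit false

namespace Pool.Agent.CylSaw

open Complex Finset

section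
variable {k : ℕ}

/-- the two real coordinates in the exponent. -/
noncomputable def sv (k : ℕ) (v : V (2 * k)) : ℝ := Real.pi / (√3 * k) * px v
noncomputable def tv (k : ℕ) (v : V (2 * k)) : ℝ := Real.pi / (√3 * k) * py v

theorem pz_eq (v : V (2 * k)) : pz k v = Complex.exp ((sv k v : ℂ) + (tv k v : ℂ) * I) := by
  unfold pz sv tv
  congr 1
  push_cast
  ring

/-- the algebra of the coordinate. -/
theorem ph_form {s t : ℝ} (hs : s ≠ 0) :
    (Complex.exp ((s : ℂ) + (t : ℂ) * I) - 1) / (Complex.exp ((s : ℂ) + (t : ℂ) * I) + 1) =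
      ((1 / (Real.cosh s + Real.cos t) : ℝ) : ℂ) * ((Real.sinh s : ℂ) + (Real.sin t : ℂ) * I) ∧
    0 < Real.cosh s + Real.cos t := by
  have hD : 0 < Real.cosh s + Real.cos t := by
    have h1 : 1 < Real.cosh s := Real.one_lt_cosh.2 hs
    have h2 := Real.neg_one_le_cos t
    linarith
  refine ⟨?_, hD⟩
  have hE : Complex.exp ((s : ℂ) + (t : ℂ) * I) =
      ((Real.exp s * Real.cos t : ℝ) : ℂ) + ((Real.exp s * Real.sin t : ℝ) : ℂ) * I := by
    rw [Complex.exp_add, Complex.exp_mul_I]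
    push_cast
    ring
  have hne : Complex.exp ((s : ℂ) + (t : ℂ) * I) + 1 ≠ 0 := by
    intro h
    have h1 : Complex.exp ((s : ℂ) + (t : ℂ) * I) = -1 := eq_neg_of_add_eq_zero_left h
    have h2 := congrArg norm h1
    rw [Complex.norm_exp, norm_neg, norm_one] at h2
    simp only [add_re, ofReal_re, mul_re, I_re, mul_zero, ofReal_im, I_im, mul_one, sub_self, add_zero] at h2
    exact hs (Real.exp_eq_one_iff s |>.1 h2)
  rw [div_eq_iff hne, hE]
  have hDc : ((Real.cosh s + Real.cos t : ℝ) : ℂ) ≠ 0 := by exact_mod_cast hD.ne'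
  have hc : Real.cosh s = (Real.exp s + (Real.exp s)⁻¹) / 2 := by rw [Real.cosh_eq, Real.exp_neg]
  have hsh : Real.sinh s = (Real.exp s - (Real.exp s)⁻¹) / 2 := by rw [Real.sinh_eq, Real.exp_neg]
  have he : Real.exp s ≠ 0 := (Real.exp_pos s).ne'
  have hsc := Real.sin_sq_add_cos_sq t
  have key : ∀ x y : ℝ, ((x : ℂ) + (y : ℂ) * I) =
      ((1 / (Real.cosh s + Real.cos t) : ℝ) : ℂ) * ((Real.sinh s : ℂ) + (Real.sin t : ℂ) * I) *
        (((Real.exp s * Real.cos t : ℝ) : ℂ) + ((Real.exp s * Real.sin t : ℝ) : ℂ) * I + 1) ↔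
      (x * (Real.cosh s + Real.cos t) = Real.sinh s * (Real.exp s * Real.cos t + 1) -
        Real.sin t * (Real.exp s * Real.sin t) ∧
       y * (Real.cosh s + Real.cos t) = Real.sinh s * (Real.exp s * Real.sin t) +
        Real.sin t * (Real.exp s * Real.cos t + 1)) := by
    intro x y
    rw [Complex.ext_iff]
    simp only [add_re, ofReal_re, mul_re, I_re, mul_zero, ofReal_im, I_im, mul_one, sub_self, add_zero, zero_mul,
      sub_zero, one_re, add_im, mul_im, zero_add, one_im]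
    constructor
    · rintro ⟨h1, h2⟩
      constructor
      · rw [h1]
        field_simp
      · rw [h2]
        field_simp
    · rintro ⟨h1, h2⟩
      constructor
      · have : x = (x * (Real.cosh s + Real.cos t)) / (Real.cosh s + Real.cos t) := by field_simp
        rw [this, h1]
        field_simp
      · have : y = (y * (Real.cosh s + Real.cos t)) / (Real.cosh s + Real.cos t) := by field_simp
        rw [this, h2]
        field_simp
  have e : ((Real.exp s * Real.cos t : ℝ) : ℂ) + ((Real.exp s * Real.sin t : ℝ) : ℂ) * I - 1 =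
      ((Real.exp s * Real.cos t - 1 : ℝ) : ℂ) + ((Real.exp s * Real.sin t : ℝ) : ℂ) * I := by
    push_cast
    ring
  rw [e, key, hc, hsh]
  constructor
  · field_simp
    linear_combination (2 * Real.exp s ^ 2) * hsc
  · field_simp
    ring

/-- the angle in the half plane. -/
noncomputable def al (k : ℕ) (v : V (2 * k)) : ℝ := Real.arctan (Real.sin (tv k v) / Real.sinh (sv k v))

/-- **The polar form**: a real factor with the sign of the side. -/
theorem ph_polar (v : V (2 * k)) (hs : sv k v ≠ 0) :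
    ∃ ρ : ℝ, ρ ≠ 0 ∧ (0 < ρ ↔ 0 < sv k v) ∧
      ph k v = (ρ : ℂ) * ((Real.cos (al k v) : ℂ) + (Real.sin (al k v) : ℂ) * I) := by
  obtain ⟨h1, h2⟩ := ph_form (t := tv k v) hs
  have hsh : Real.sinh (sv k v) ≠ 0 := fun h => hs (Real.sinh_eq_zero.1 h)
  have hcos : 0 < Real.cos (al k v) := Real.cos_arctan_pos _
  have htan : Real.sin (al k v) = Real.sin (tv k v) / Real.sinh (sv k v) * Real.cos (al k v) := by
    have h3 := Real.tan_arctan (Real.sin (tv k v) / Real.sinh (sv k v))
    rw [Real.tan_eq_sin_div_cos] at h3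
    have h4 : Real.sin (al k v) / Real.cos (al k v) = Real.sin (tv k v) / Real.sinh (sv k v) := h3
    rw [← h4, div_mul_cancel₀ _ hcos.ne']
  refine ⟨Real.sinh (sv k v) / ((Real.cosh (sv k v) + Real.cos (tv k v)) * Real.cos (al k v)), ?_, ?_, ?_⟩
  · exact div_ne_zero hsh (mul_ne_zero h2.ne' hcos.ne')
  · rw [div_pos_iff_of_pos_right (mul_pos h2 hcos), Real.sinh_pos_iff]
  · unfold ph
    rw [pz_eq, h1, htan]
    push_cast
    have a1 : (Complex.cosh (sv k v : ℂ) + Complex.cos (tv k v : ℂ)) ≠ 0 := by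
      have : ((Real.cosh (sv k v) + Real.cos (tv k v) : ℝ) : ℂ) ≠ 0 := by exact_mod_cast h2.ne'
      push_cast at this
      exact this
    have a2 : Complex.cos (al k v : ℂ) ≠ 0 := by
      have : ((Real.cos (al k v) : ℝ) : ℂ) ≠ 0 := by exact_mod_cast hcos.ne'
      push_cast at this
      exact this
    have a3 : Complex.sinh (sv k v : ℂ) ≠ 0 := by
      have : ((Real.sinh (sv k v) : ℝ) : ℂ) ≠ 0 := by exact_mod_cast hsh
      push_cast at this
      exact this
    field_simp

theorem al_lt (v : V (2 * k)) : al k v < Real.pi / 2 := Real.arctan_lt_pi_div_two _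
theorem neg_lt_al (v : V (2 * k)) : -(Real.pi / 2) < al k v := Real.neg_pi_div_two_lt_arctan _

/-- the argument of a quotient of polar forms. -/
theorem arg_quot {ρ ρ' α β θ : ℝ} (h : 0 < ρ' / ρ * Real.cos (θ - (β - α))) (hc : Real.sin (θ - (β - α)) = 0)
    (hθ : θ ∈ Set.Ioc (-Real.pi) Real.pi) :
    (((ρ' : ℂ) * ((Real.cos β : ℂ) + (Real.sin β : ℂ) * I)) /
      ((ρ : ℂ) * ((Real.cos α : ℂ) + (Real.sin α : ℂ) * I))).arg = θ := by
  have hρ : ρ ≠ 0 := by
    rintro rfl
    simp at h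
  have e1 : ∀ x : ℝ, ((Real.cos x : ℂ) + (Real.sin x : ℂ) * I) = Complex.exp (x * I) := by
    intro x
    rw [Complex.exp_mul_I]
    push_cast
    ring
  have e2 : Complex.exp (((θ - (β - α) : ℝ) : ℂ) * I) = ((Real.cos (θ - (β - α)) : ℝ) : ℂ) := by
    rw [← e1, hc]
    push_cast
    ring
  have hc2 : Real.cos (θ - (β - α)) ^ 2 = 1 := by
    have := Real.sin_sq_add_cos_sq (θ - (β - α))
    rw [hc] at this
    linarith
  have e3 : ((ρ' : ℂ) * ((Real.cos β : ℂ) + (Real.sin β : ℂ) * I)) /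
      ((ρ : ℂ) * ((Real.cos α : ℂ) + (Real.sin α : ℂ) * I)) =
      ((ρ' / ρ * Real.cos (θ - (β - α)) : ℝ) : ℂ) * ((Real.cos θ : ℂ) + (Real.sin θ : ℂ) * I) := by
    rw [e1, e1, e1]
    have hρc : (ρ : ℂ) ≠ 0 := by exact_mod_cast hρ
    have h5 : Complex.exp (θ * I) = Complex.exp (((θ - (β - α) : ℝ) : ℂ) * I) * Complex.exp (β * I) *
        Complex.exp (-(α * I)) := by
      rw [← Complex.exp_add, ← Complex.exp_add]
      congr 1
      push_cast
      ring
    rw [h5, e2, Complex.exp_neg]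
    have h6 := Complex.exp_ne_zero ((α : ℂ) * I)
    have h7 : ((Real.cos (θ - (β - α)) : ℝ) : ℂ) ^ 2 = 1 := by exact_mod_cast hc2
    rw [ofReal_mul, ofReal_div]
    field_simp
    linear_combination (-(ρ' : ℂ)) * h7
  rw [e3]
  have := Complex.arg_mul_cos_add_sin_mul_I h hθ
  rw [← ofReal_cos, ← ofReal_sin] at this
  exact this

/-! ### the steps -/

theorem px_pos_iff (v : V (2 * k)) : 0 < px v ↔ 0 ≤ v.1 := by
  unfold px
  constructor
  · intro h
    by_contra h1
    have h2 : v.1 ≤ -1 := by omega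
    have h3 : (v.1 : ℝ) ≤ -1 := by exact_mod_cast h2
    split_ifs at h <;> linarith
  · intro h
    have h3 : (0 : ℝ) ≤ v.1 := by exact_mod_cast h
    split_ifs <;> linarith

theorem px_ne (v : V (2 * k)) : px v ≠ 0 := by
  rcases le_or_gt 0 v.1 with h | h
  · exact ((px_pos_iff v).2 h).ne'
  · unfold px
    have h2 : v.1 ≤ -1 := by omega
    have h3 : (v.1 : ℝ) ≤ -1 := by exact_mod_cast h2
    split_ifs
    · intro h4
      linarith
    · intro h4
      linarith

theorem fac_pos (hk : 1 ≤ k) : 0 < Real.pi / (√3 * k) := by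
  have h1 : (0 : ℝ) < k := by exact_mod_cast hk
  have h2 : (0 : ℝ) < √3 := Real.sqrt_pos.2 (by norm_num)
  have := Real.pi_pos
  positivity

theorem sv_ne (hk : 1 ≤ k) (v : V (2 * k)) : sv k v ≠ 0 := mul_ne_zero (fac_pos hk).ne' (px_ne v)

theorem sv_pos_iff (hk : 1 ≤ k) (v : V (2 * k)) : 0 < sv k v ↔ 0 ≤ v.1 := by
  rw [← px_pos_iff]
  unfold sv
  exact mul_pos_iff_of_pos_left (fac_pos hk)

theorem arg_same (hk : 1 ≤ k) {a b : V (2 * k)} (h : 0 ≤ a.1 ↔ 0 ≤ b.1) :
    (ph k b / ph k a).arg = al k b - al k a := by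
  obtain ⟨ρ, h1, h2, h3⟩ := ph_polar a (sv_ne hk a)
  obtain ⟨ρ', g1, g2, g3⟩ := ph_polar b (sv_ne hk b)
  rw [sv_pos_iff hk] at h2 g2
  have hs : 0 < ρ' / ρ := by
    by_cases ha : 0 ≤ a.1
    · exact div_pos (g2.2 (h.1 ha)) (h2.2 ha)
    · have e1 : ρ < 0 := lt_of_le_of_ne (not_lt.1 fun e => ha (h2.1 e)) h1
      have e2 : ρ' < 0 := lt_of_le_of_ne (not_lt.1 fun e => ha (h.2 (g2.1 e))) g1
      exact div_pos_of_neg_of_neg e2 e1
  rw [h3, g3]
  have := al_lt a
  have := al_lt b
  have := neg_lt_al a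
  have := neg_lt_al b
  refine arg_quot ?_ ?_ ⟨by linarith, by linarith⟩
  · rw [sub_self, Real.cos_zero, mul_one]
    exact hs
  · rw [sub_self, Real.sin_zero]

/-- the quotient changes its sign at the seam. -/
theorem arg_opp (hk : 1 ≤ k) {a b : V (2 * k)} (h : ¬ (0 ≤ a.1 ↔ 0 ≤ b.1)) {s : ℝ} (hs : s = 1 ∨ s = -1)
    (h1 : -Real.pi < al k b - al k a + s * Real.pi) (h2 : al k b - al k a + s * Real.pi ≤ Real.pi) :
    (ph k b / ph k a).arg = al k b - al k a + s * Real.pi := by
  obtain ⟨ρ, e1, e2, e3⟩ := ph_polar a (sv_ne hk a)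
  obtain ⟨ρ', g1, g2, g3⟩ := ph_polar b (sv_ne hk b)
  rw [sv_pos_iff hk] at e2 g2
  have hq : ρ' / ρ < 0 := by
    by_cases ha : 0 ≤ a.1
    · have hb : ¬ 0 ≤ b.1 := fun hb => h ⟨fun _ => hb, fun _ => ha⟩
      exact div_neg_of_neg_of_pos (lt_of_le_of_ne (not_lt.1 fun e => hb (g2.1 e)) g1) (e2.2 ha)
    · have hb : 0 ≤ b.1 := by
        by_contra hb
        exact h ⟨fun ha' => absurd ha' ha, fun hb' => absurd hb' hb⟩
      exact div_neg_of_pos_of_neg (g2.2 hb) (lt_of_le_of_ne (not_lt.1 fun e => ha (e2.1 e)) e1)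
  rw [e3, g3]
  have e : al k b - al k a + s * Real.pi - (al k b - al k a) = s * Real.pi := by ring
  have hcs : Real.cos (s * Real.pi) = -1 ∧ Real.sin (s * Real.pi) = 0 := by
    rcases hs with rfl | rfl
    · rw [one_mul]
      exact ⟨Real.cos_pi, Real.sin_pi⟩
    · rw [neg_one_mul, Real.cos_neg, Real.sin_neg, Real.sin_pi, neg_zero]
      exact ⟨Real.cos_pi, rfl⟩
  refine arg_quot ?_ ?_ ⟨h1, h2⟩
  · rw [e, hcs.1]
    linarith
  · rw [e, hcs.2]

theorem tv_w (hk : 1 ≤ k) (r : ZMod (2 * k)) : tv k ((0, r, false) : V (2 * k)) = Real.pi * r.val / k := by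
  unfold tv py
  have h2 : √3 ≠ 0 := (Real.sqrt_pos.2 (by norm_num : (0 : ℝ) < 3)).ne'
  have h3 : (k : ℝ) ≠ 0 := by exact_mod_cast (by omega : k ≠ 0)
  simp only [Int.cast_zero, zero_div, add_zero, Bool.false_eq_true, if_false]
  field_simp

theorem tv_b (hk : 1 ≤ k) (r : ZMod (2 * k)) : tv k ((-1, r, true) : V (2 * k)) = Real.pi * r.val / k := by
  unfold tv py
  have h2 : √3 ≠ 0 := (Real.sqrt_pos.2 (by norm_num : (0 : ℝ) < 3)).ne'
  have h3 : (k : ℝ) ≠ 0 := by exact_mod_cast (by omega : k ≠ 0)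
  simp only [Int.cast_neg, Int.cast_one, if_true]
  field_simp
  ring

theorem sv_b (r : ZMod (2 * k)) :
    sv k ((-1, r, true) : V (2 * k)) = -sv k ((0, r, false) : V (2 * k)) := by
  unfold sv px
  simp only [Int.cast_neg, Int.cast_one, if_true, Int.cast_zero, Bool.false_eq_true, if_false]
  ring

theorem al_b (hk : 1 ≤ k) (r : ZMod (2 * k)) :
    al k ((-1, r, true) : V (2 * k)) = -al k ((0, r, false) : V (2 * k)) := by
  unfold al
  rw [sv_b, tv_b hk, tv_w hk, Real.sinh_neg, div_neg, Real.arctan_neg]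

theorem sv_w_pos (hk : 1 ≤ k) (r : ZMod (2 * k)) : 0 < Real.sinh (sv k ((0, r, false) : V (2 * k))) :=
  Real.sinh_pos_iff.2 ((sv_pos_iff hk _).2 le_rfl)

theorem al_w_pos (hk : 1 ≤ k) {r : ZMod (2 * k)} (h : 1 ≤ r.val) (h' : r.val < k) :
    0 < al k ((0, r, false) : V (2 * k)) := by
  have hk0 : (0 : ℝ) < k := by exact_mod_cast hk
  have h1 : (1 : ℝ) ≤ r.val := by exact_mod_cast h
  have h2 : (r.val : ℝ) < k := by exact_mod_cast h'
  have hpi := Real.pi_pos
  unfold al
  rw [Real.arctan_pos]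
  refine div_pos ?_ (sv_w_pos hk r)
  rw [tv_w hk]
  refine Real.sin_pos_of_pos_of_lt_pi (by positivity) ?_
  rw [div_lt_iff₀ hk0]
  exact mul_lt_mul_of_pos_left h2 hpi

theorem al_w_neg (hk : 1 ≤ k) {r : ZMod (2 * k)} (h : k < r.val) : al k ((0, r, false) : V (2 * k)) < 0 := by
  have : NeZero (2 * k) := ⟨by omega⟩
  have hk0 : (0 : ℝ) < k := by exact_mod_cast hk
  have h1 : (k : ℝ) < r.val := by exact_mod_cast h
  have h2 : (r.val : ℝ) < 2 * k := by exact_mod_cast ZMod.val_lt r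
  have hpi := Real.pi_pos
  unfold al
  rw [Real.arctan_lt_zero]
  refine div_neg_of_neg_of_pos ?_ (sv_w_pos hk r)
  rw [tv_w hk]
  have e : Real.sin (Real.pi * r.val / k) = -Real.sin (Real.pi * r.val / k - Real.pi) := by
    rw [Real.sin_sub_pi, neg_neg]
  rw [e, neg_lt_zero]
  refine Real.sin_pos_of_pos_of_lt_pi ?_ ?_
  · rw [sub_pos, lt_div_iff₀ hk0]
    exact mul_lt_mul_of_pos_left h1 hpi
  · rw [sub_lt_iff_lt_add, div_lt_iff₀ hk0]
    nlinarith

/-- **The change of the argument in one step.** -/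
theorem arg_step (hk : 1 ≤ k) {a b : V (2 * k)} (h : St k a b) :
    (ph k b / ph k a).arg = al k b - al k a + (((crsJ k a b - crs k a b : ℤ) : ℝ)) * Real.pi := by
  rcases step_cases' hk h with ⟨h1, h2, h3⟩ | ⟨r, h1, h2, h3 | h3⟩
  · rw [h2, h3, arg_same hk h1]
    simp
  · obtain ⟨rfl, rfl⟩ := h3
    have hne : ¬ (0 ≤ ((0, r, false) : V (2 * k)).1 ↔ 0 ≤ ((-1, r, true) : V (2 * k)).1) := by
      intro e
      have := e.1 le_rfl
      simp at this
    have hb := al_b hk r
    have c1 := al_lt (k := k) (0, r, false)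
    have c2 := neg_lt_al (k := k) (0, r, false)
    rw [crs_RL, crsJ_RL]
    rcases lt_or_gt_of_ne h2 with h4 | h4
    · have c3 := al_w_pos hk (by omega : 1 ≤ r.val) h4
      rw [if_neg (by omega), if_pos ⟨by omega, h4⟩]
      refine arg_opp hk hne (s := (((0 : ℤ) - (-1) : ℤ) : ℝ)) (Or.inl (by norm_num)) ?_ ?_ <;>
      · rw [hb]
        push_cast
        linarith
    · have c3 := al_w_neg hk h4
      rw [if_pos h4, if_neg (by omega)]
      refine arg_opp hk hne (s := (((-1 : ℤ) - 0 : ℤ) : ℝ)) (Or.inr (by norm_num)) ?_ ?_ <;>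
      · rw [hb]
        push_cast
        linarith
  · obtain ⟨rfl, rfl⟩ := h3
    have hne : ¬ (0 ≤ ((-1, r, true) : V (2 * k)).1 ↔ 0 ≤ ((0, r, false) : V (2 * k)).1) := by
      intro e
      have := e.2 le_rfl
      simp at this
    have hb := al_b hk r
    have c1 := al_lt (k := k) (0, r, false)
    have c2 := neg_lt_al (k := k) (0, r, false)
    rw [crs_LR, crsJ_LR]
    rcases lt_or_gt_of_ne h2 with h4 | h4
    · have c3 := al_w_pos hk (by omega : 1 ≤ r.val) h4
      rw [if_neg (by omega), if_pos ⟨by omega, h4⟩]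
      refine arg_opp hk hne (s := (((0 : ℤ) - 1 : ℤ) : ℝ)) (Or.inr (by norm_num)) ?_ ?_ <;>
      · rw [hb]
        push_cast
        linarith
    · have c3 := al_w_neg hk h4
      rw [if_pos h4, if_neg (by omega)]
      refine arg_opp hk hne (s := (((1 : ℤ) - 0 : ℤ) : ℝ)) (Or.inl (by norm_num)) ?_ ?_ <;>
      · rw [hb]
        push_cast
        linarith

/-! ### the angle -/

theorem al_end0 (hk : 1 ≤ k) : al k ((0, 0, false) : V (2 * k)) = 0 := by
  unfold al
  rw [tv_w hk, ZMod.val_zero]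
  simp

theorem al_endk (hk : 1 ≤ k) : al k ((0, (k : ZMod (2 * k)), false) : V (2 * k)) = 0 := by
  unfold al
  have h3 : (k : ℝ) ≠ 0 := by exact_mod_cast (by omega : k ≠ 0)
  rw [tv_w hk, val_k hk, mul_div_assoc, div_self h3, mul_one, Real.sin_pi, zero_div, Real.arctan_zero]

/-- **The winding number is the winding angle**: `ang = -2 π cw`. -/
theorem ang_eq (hk : 1 ≤ k) {n : ℕ} {w : Fin (n + 1) → V (2 * k)} (hw : w ∈ saws k n) :
    ang k n w = -(2 * Real.pi * cw k n w) := by
  obtain ⟨-, h2, h3, h4⟩ := hw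
  unfold ang
  rw [Finset.sum_congr rfl fun i _ => arg_step hk (h4 i), Finset.sum_add_distrib,
    sum_tele (fun i => al k (w i)), h2, h3, al_end0 hk, al_endk hk, ← Finset.sum_mul, ← Int.cast_sum,
    Finset.sum_sub_distrib]
  have h5 : cwJ k n w = -cw k n w := by
    refine cwJ_eq_of hk ?_ h4
    rw [h2, h3]
    rfl
  unfold cw cwJ at h5
  unfold cw
  rw [h5]
  push_cast
  ring

end

end Pool.Agent.CylSaw
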