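import Pool.Agent.WND.CylDef
import Pool.Agent.WND.AngPos

/-!
# The winding angle of the critical self-avoiding walk: the public definitions (helper85)

`Saw k` = the self-avoiding walks on the honeycomb cylinder of circumference `2 k` rows from the cut edge of the row `0`
to the cut edge of the antipodal row `k`, with the weight `wt w = zc ^ (n + 1)`; `wang w` = the total winding angle of
`w` around its two ends (`ang`, WND/AngPos).
-/

set_option autoImplicit false

namespace Pool.Agent.CylSaw

/-- The winding angle of a walk around its two ends. -/
noncomputable def wang {k : ℕ} (w : Saw k) : ℝ := ang k w.1 w.2.1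

/-- The probability, under the critical weights, that the winding angle lies in `s`. -/
noncomputable def angProb (k : ℕ) (s : Set ℝ) : ℝ := (∑' w : Saw k, s.indicator (fun _ => wt w) (wang w)) / Z k

/-- The expectation of `exp (i t wang)` under the critical weights. -/
noncomputable def angChar (k : ℕ) (t : ℝ) : ℂ :=
  (∑' w : Saw k, (wt w : ℂ) * Complex.exp (((t * wang w : ℝ) : ℂ) * Complex.I)) / (Z k : ℂ)

/-- The expectation of `exp (t wang)` under the critical weights, `t` complex. -/
noncomputable def angMgf (k : ℕ) (t : ℂ) : ℂ :=
  (∑' w : Saw k, (wt w : ℂ) * Complex.exp (t * (wang w : ℂ))) / (Z k : ℂ)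

/-- The expectation of the square of the winding angle (its variance: the law is symmetric). -/
noncomputable def angSq (k : ℕ) : ℝ := (∑' w : Saw k, wt w * wang w ^ 2) / Z k

end Pool.Agent.CylSaw
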