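import Pool.Agent.WND.MainW
import Pool.Agent.WND.AngDef
import Pool.Agent.WND.Ang

/-!
# PLAN W: the final statement for the winding angle (helper85)

* `wind_eq`: `wind` (CylDef) is helper67's `cw`;
* `Wz_neg`, `Wz_real`: the law is symmetric;
* `ang_main`: from `TRZ0 PBM.nrm Wz d0` and plan B: `E exp (i t θ) = k ^ (-(8/3) t ^ 2) (M t + O(k ^ (-c)))` for all
  `k ≥ 1`, `|t| ≤ t0`, and the central limit theorem `θ / sqrt (log k) → N(0, 16 / 3)`.
-/

set_option autoImplicit false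

noncomputable section

namespace Pool.Agent.CylSaw

open Filter Topology MeasureTheory ProbabilityTheory

/-! ### the two definitions of the crossing number -/

theorem crs_up {k : ℕ} (hk : 1 ≤ k) {a b : V (2 * k)} (h : St k a b) [Decidable (Up a b)] [Decidable (Up b a)] :
    crs k a b = (if Up a b then 1 else 0) - (if Up b a then 1 else 0) := by
  rcases step_cases' hk h with ⟨h1, h2, -⟩ | ⟨r, h1, h2, h3 | h3⟩
  · rw [h2]
    have n1 : ¬ Up a b := by
      rintro ⟨r, -, -, e1, e2⟩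
      rw [e1, e2] at h1
      simp at h1
    have n2 : ¬ Up b a := by
      rintro ⟨r, -, -, e1, e2⟩
      rw [e1, e2] at h1
      simp at h1
    rw [if_neg n1, if_neg n2, sub_zero]
  · obtain ⟨ha, hb⟩ := h3
    have n1 : ¬ Up a b := by
      rintro ⟨s, -, -, e1, e2⟩
      rw [ha] at e1
      simp at e1
    have e : Up b a ↔ 1 ≤ r.val ∧ r.val < k := by
      constructor
      · rintro ⟨s, s1, s2, s3, s4⟩
        rw [hb] at s3
        have s5 : r = s := congrArg (fun p : V (2 * k) => p.2.1) s3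
        rw [s5]
        exact ⟨s1, s2⟩
      · rintro ⟨s1, s2⟩
        exact ⟨r, s1, s2, hb, ha⟩
    have hc : crs k a b = if 1 ≤ r.val ∧ r.val < k then -1 else 0 := by rw [ha, hb]; exact crs_RL
    rw [if_neg n1, hc]
    by_cases hr : 1 ≤ r.val ∧ r.val < k
    · rw [if_pos hr, if_pos (e.2 hr)]
      norm_num
    · rw [if_neg hr, if_neg fun h' => hr (e.1 h')]
      norm_num
  · obtain ⟨ha, hb⟩ := h3
    have n1 : ¬ Up b a := by
      rintro ⟨s, -, -, e1, e2⟩
      rw [hb] at e1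
      simp at e1
    have e : Up a b ↔ 1 ≤ r.val ∧ r.val < k := by
      constructor
      · rintro ⟨s, s1, s2, s3, s4⟩
        rw [ha] at s3
        have s5 : r = s := congrArg (fun p : V (2 * k) => p.2.1) s3
        rw [s5]
        exact ⟨s1, s2⟩
      · rintro ⟨s1, s2⟩
        exact ⟨r, s1, s2, ha, hb⟩
    have hc : crs k a b = if 1 ≤ r.val ∧ r.val < k then 1 else 0 := by rw [ha, hb]; exact crs_LR
    rw [if_neg n1, hc]
    by_cases hr : 1 ≤ r.val ∧ r.val < k
    · rw [if_pos hr, if_pos (e.2 hr)]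
      norm_num
    · rw [if_neg hr, if_neg fun h' => hr (e.1 h')]
      norm_num

theorem wind_eq {k n : ℕ} (hk : 1 ≤ k) {w : Fin (n + 1) → V (2 * k)} (hw : w ∈ saws k n) :
    wind w = cw k n w := by
  classical
  have e : ∀ p : Fin n → Prop, (({i | p i}.ncard : ℕ) : ℤ) = ∑ i : Fin n, if p i then 1 else 0 := by
    intro p
    have h1 : ({i | p i} : Set (Fin n)) = ((Finset.univ.filter p : Finset (Fin n)) : Set (Fin n)) := by
      ext i; simp
    rw [h1, Set.ncard_coe_finset, Finset.card_filter]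
    push_cast
    rfl
  unfold wind cw
  rw [e, e, ← Finset.sum_sub_distrib]
  refine Finset.sum_congr rfl fun i _ => ?_
  rw [crs_up hk (hw.2.2.2 i)]

theorem wang_eq {k : ℕ} (hk : 1 ≤ k) (w : Saw k) : wang w = -(2 * Real.pi * cn w) := by
  unfold wang cn
  rw [ang_eq hk w.2.2, wind_eq hk w.2.2]

/-! ### the law is symmetric -/

/-- the reflection of the walks -/
def refl (k : ℕ) (w : Saw k) : Saw k := ⟨w.1, ⟨rf ∘ w.2.1, rf_saws w.2.2⟩⟩

theorem refl_refl {k : ℕ} (w : Saw k) : refl k (refl k w) = w := by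
  obtain ⟨n, w, hw⟩ := w
  unfold refl
  simp only
  congr 1
  apply Subtype.ext
  funext i
  exact rf_rf (w i)

def reflE (k : ℕ) : Saw k ≃ Saw k := ⟨refl k, refl k, refl_refl, refl_refl⟩

theorem cn_refl {k : ℕ} (hk : 1 ≤ k) (w : Saw k) : cn (refl k w) = -cn w := by
  unfold cn
  rw [wind_eq hk w.2.2, wind_eq hk (refl k w).2.2]
  exact cw_rf hk w.2.2

theorem Wz_neg {k : ℕ} (hk : 1 ≤ k) (d : ℝ) : Wz k (-d) = Wz k d := by
  unfold Wz
  rw [← (reflE k).tsum_eq]
  refine tsum_congr fun w => ?_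
  have h1 : (reflE k) w = refl k w := rfl
  rw [h1, cn_refl hk]
  have h2 : wt (refl k w) = wt w := rfl
  rw [h2]
  congr 3
  push_cast
  ring

theorem Wz_conj {k : ℕ} (d : ℝ) : (starRingEnd ℂ) (Wz k d) = Wz k (-d) := by
  unfold Wz
  rw [Complex.conj_tsum]
  refine tsum_congr fun w => ?_
  rw [map_mul, Complex.conj_ofReal, ← Complex.exp_conj, map_mul, Complex.conj_ofReal, Complex.conj_I]
  congr 2
  push_cast
  ring

theorem Wz_real {k : ℕ} (hk : 1 ≤ k) (d : ℝ) : ((Wz k d).re : ℂ) = Wz k d := by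
  rw [← Complex.conj_eq_iff_re, Wz_conj, Wz_neg hk]

/-! ### the angle -/

theorem angChar_eq {k : ℕ} (hk : 1 ≤ k) (t : ℝ) : angChar k t = Wz k (2 * t) / Wz k 0 := by
  rw [Wz_zero, ← Wz_neg hk]
  unfold angChar Wz
  congr 1
  refine tsum_congr fun w => ?_
  rw [wang_eq hk]
  congr 3
  push_cast
  ring

theorem angChar_real {k : ℕ} (hk : 1 ≤ k) (t : ℝ) : ((angChar k t).re : ℂ) = angChar k t := by
  rw [← Complex.conj_eq_iff_re, angChar_eq hk, map_div₀, Complex.conj_eq_iff_re.2 (Wz_real hk _),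
    Complex.conj_eq_iff_re.2 (Wz_real hk _)]

/-- the law of the angle -/
def lawA (k : ℕ) : ProbabilityMeasure ℝ := by
  classical
  exact if h : 1 ≤ k ∧ 0 < Z k then
    ⟨WND.dlaw (fun w : Saw k => wt w) wang, WND.dlaw_prob (fun w => (wt_pos w).le) (summable_wt h.1) h.2⟩
  else ⟨Measure.dirac 0, inferInstance⟩

theorem lawA_eq {k : ℕ} (hk : 1 ≤ k) (hZ : 0 < Z k) :
    (lawA k : Measure ℝ) = WND.dlaw (fun w : Saw k => wt w) wang := by
  unfold lawA
  rw [dif_pos ⟨hk, hZ⟩]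
  rfl

theorem charFun_lawA {k : ℕ} (hk : 1 ≤ k) (hZ : 0 < Z k) (t : ℝ) :
    charFun (lawA k : Measure ℝ) t = angChar k t := by
  rw [lawA_eq hk hZ, WND.charFun_dlaw (fun w => (wt_pos w).le) (summable_wt hk) hZ]
  rfl

theorem prob_lawA {k : ℕ} (hk : 1 ≤ k) (hZ : 0 < Z k) {s : Set ℝ} (hs : MeasurableSet s) :
    (lawA k : Measure ℝ).real s = angProb k s := by
  rw [lawA_eq hk hZ, WND.dlaw_apply_real (fun w => (wt_pos w).le) (summable_wt hk) hZ hs]
  rfl

theorem Z_pos {k : ℕ} (hk : 1 ≤ k) : 0 < Z k := by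
  rw [Z_eq hk]
  exact W0r_pos hk

/-- **the winding angle**: mod-Gaussian convergence for all `k ≥ 1`, and the central limit theorem -/
theorem ang_main {d0 : ℝ} (hd0 : 0 < d0) (hB : PBM.TRP PBM.nrm) (hT : WND.TRZ0 PBM.nrm Wz d0) :
    (∀ k : ℕ, 1 ≤ k → Summable (fun w : Saw k => wt w) ∧ 0 < Z k) ∧
    (∃ (t0 c C : ℝ) (M : ℝ → ℝ), 0 < t0 ∧ 0 < c ∧ ContinuousOn M (Set.Icc (-t0) t0) ∧ M 0 = 1 ∧
      ∀ k : ℕ, 1 ≤ k → ∀ t : ℝ, |t| ≤ t0 →
        ‖angChar k t * (((k : ℝ) ^ (8 / 3 * t ^ 2) : ℝ) : ℂ) - (M t : ℂ)‖ ≤ C * (k : ℝ) ^ (-c)) ∧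
    ∀ x : ℝ, Tendsto (fun k : ℕ => angProb k (Set.Iic (x * √(Real.log k)))) atTop
      (𝓝 ((gaussianReal 0 (16 / 3)).real (Set.Iic x))) := by
  obtain ⟨hsum, ⟨b0, c, C, M, hb0, hc, hMc, hM0, hM⟩, -⟩ := wind_all hd0 hB hT
  have hpi := Real.pi_pos
  -- the estimate for the angle
  have key : ∀ k : ℕ, 1 ≤ k → ∀ t : ℝ, |t| ≤ b0 / (2 * Real.pi) →
      ‖angChar k t * (((k : ℝ) ^ (8 / 3 * t ^ 2) : ℝ) : ℂ) - ((M (2 * Real.pi * t)).re : ℂ)‖ ≤
        C * (k : ℝ) ^ (-c) := by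
    intro k hk t ht
    have h1 : |2 * Real.pi * t| ≤ b0 := by
      rw [abs_mul, abs_of_pos (by positivity : (0 : ℝ) < 2 * Real.pi)]
      rwa [le_div_iff₀ (by positivity), mul_comm] at ht
    have h2 := hM k hk (2 * Real.pi * t) h1
    have h3 : chf k (2 * Real.pi * t) = angChar k t := by
      rw [angChar_eq hk, show 2 * Real.pi * t = Real.pi * (2 * t) by ring, chf_eq]
    have h4 : (2 : ℝ) / (3 * Real.pi ^ 2) * (2 * Real.pi * t) ^ 2 = 8 / 3 * t ^ 2 := by field_simp; ring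
    rw [h3, h4] at h2
    have h5 := Complex.abs_re_le_norm (angChar k t * (((k : ℝ) ^ (8 / 3 * t ^ 2) : ℝ) : ℂ) - M (2 * Real.pi * t))
    have h6 : angChar k t * (((k : ℝ) ^ (8 / 3 * t ^ 2) : ℝ) : ℂ) - ((M (2 * Real.pi * t)).re : ℂ) =
        (((angChar k t * (((k : ℝ) ^ (8 / 3 * t ^ 2) : ℝ) : ℂ) - M (2 * Real.pi * t)).re : ℝ) : ℂ) := by
      rw [Complex.sub_re, Complex.ofReal_sub, ← angChar_real hk t]
      congr 1
      rw [← Complex.ofReal_mul, Complex.ofReal_re]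
    rw [h6, Complex.norm_real, Real.norm_eq_abs]
    exact h5.trans h2
  refine ⟨fun k hk => ⟨(hsum k hk).1, (hsum k hk).2⟩, ⟨b0 / (2 * Real.pi), c, C,
    fun t => (M (2 * Real.pi * t)).re, by positivity, hc, ?_, by simp [hM0], key⟩, ?_⟩
  · refine Complex.continuous_re.comp_continuousOn (hMc.comp (by fun_prop) fun t ht => ?_)
    rw [Set.mem_Icc, ← abs_le] at ht ⊢
    rw [abs_mul, abs_of_pos (by positivity : (0 : ℝ) < 2 * Real.pi)]
    rwa [le_div_iff₀ (by positivity), mul_comm] at ht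
  · intro x
    have hMc' : ContinuousAt (fun t : ℝ => ((M (2 * Real.pi * t)).re : ℂ)) 0 := by
      have h1 : ContinuousAt M 0 := hMc.continuousAt (Icc_mem_nhds (by linarith) hb0)
      have h2 : ContinuousAt (fun t : ℝ => 2 * Real.pi * t) 0 := by fun_prop
      have h3 : ContinuousAt M ((fun t : ℝ => 2 * Real.pi * t) 0) := by simpa using h1
      have h4 : ContinuousAt (fun t : ℝ => M (2 * Real.pi * t)) 0 := ContinuousAt.comp h3 h2
      exact Complex.continuous_ofReal.continuousAt.comp (Complex.continuous_re.continuousAt.comp h4)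
    have hclt : Tendsto (WND.scal lawA 1) atTop (𝓝 (WND.gau (2 * (8 / 3) * 1 ^ 2))) := by
      refine WND.clt_of_mod (a := 8 / 3) (s := 1) (b0 := b0 / (2 * Real.pi))
        (M := fun t : ℝ => ((M (2 * Real.pi * t)).re : ℂ)) (by norm_num) (by positivity) hMc' (by simp [hM0]) ?_
      intro e he
      have hk0 : Tendsto (fun k : ℕ => C * (k : ℝ) ^ (-c)) atTop (𝓝 0) := by
        have h3 := (tendsto_rpow_neg_atTop hc).comp tendsto_natCast_atTop_atTop
        simpa using h3.const_mul C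
      filter_upwards [hk0.eventually (gt_mem_nhds he), eventually_ge_atTop 1] with k h1 hk t ht
      rw [charFun_lawA hk (Z_pos hk)]
      exact (key k hk t ht).trans h1.le
    have e0 : (2 : ℝ) * (8 / 3) * 1 ^ 2 = 16 / 3 := by norm_num
    rw [e0] at hclt
    have h1 := WND.cdf_of (by norm_num) hclt x
    have e1 : ((16 : ℝ) / 3).toNNReal = 16 / 3 := by
      rw [Real.toNNReal_div (by norm_num)]
      simp
    rw [e1] at h1
    refine h1.congr' ?_
    filter_upwards [eventually_ge_atTop 1] with k hk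
    rw [prob_lawA hk (Z_pos hk) (measurableSet_le (by fun_prop) (by fun_prop))]
    congr 1
    ext θ
    simp

end Pool.Agent.CylSaw

end
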