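import Pool.Agent.WND.CylPos
import Pool.Agent.PB.CloseA
import Pool.Agent.PB.CloseN

/-!
# PLAN W: assembly (helper85)

* `TRZ0 r W d0` : the twisted transfer with ANY exponent `c > 0` (helper24's output), `trz_of_trz0`: shrink `d0`;
* `wind_all` : the final statement from `PBM.TRP PBM.nrm` (plan B) and `TRZ0 PBM.nrm Wz d0`.
-/

set_option autoImplicit false

noncomputable section

open Filter Topology MeasureTheory ProbabilityTheory Complex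

namespace WND

/-- the twisted transfer, any exponent -/
def TRZ0 (r : ℕ → ℝ) (W : ℕ → ℝ → ℂ) (d0 : ℝ) : Prop :=
  ∃ (c C : ℝ) (G : ℝ → ℂ) (u : ℕ → ℂ), 0 < c ∧ (∀ᶠ k : ℕ in atTop, ‖u k‖ = 1) ∧
    ∀ᶠ k : ℕ in atTop, ∀ d : ℝ, |d| ≤ d0 →
      ‖(r k : ℂ) * W k d - u k * (G d * (((k : ℝ) ^ (-(2 / 3 * d ^ 2)) : ℝ) : ℂ))‖ ≤ C * (k : ℝ) ^ (-c)

/-- **shrink `d0`** -/
theorem trz_of_trz0 {r : ℕ → ℝ} {W : ℕ → ℝ → ℂ} {d0 : ℝ} (hd0 : 0 < d0) (h : TRZ0 r W d0) :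
    ∃ d1 : ℝ, 0 < d1 ∧ d1 ≤ d0 ∧ TRZ r W d1 := by
  obtain ⟨c, C, G, u, hc, hu, hT⟩ := h
  obtain ⟨d1, hd1⟩ : ∃ d1, d1 = min d0 (√c) := ⟨_, rfl⟩
  have h0 : 0 < √c := Real.sqrt_pos.2 hc
  have h1 : 0 < d1 := by rw [hd1]; exact lt_min hd0 h0
  have h2 : d1 ≤ d0 := by rw [hd1]; exact min_le_left _ _
  have h3 : d1 ^ 2 ≤ c := by
    have h4 : d1 ≤ √c := by rw [hd1]; exact min_le_right _ _
    calc d1 ^ 2 ≤ (√c) ^ 2 := pow_le_pow_left₀ h1.le h4 2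
      _ = c := Real.sq_sqrt hc.le
  refine ⟨d1, h1, h2, c, C, G, u, by nlinarith, hu, ?_⟩
  filter_upwards [hT] with k hk d hd
  exact hk d (hd.trans h2)

/-- a smaller domain -/
theorem trz0_mono {r : ℕ → ℝ} {W : ℕ → ℝ → ℂ} {d0 d1 : ℝ} (h01 : d1 ≤ d0) (h : TRZ0 r W d0) : TRZ0 r W d1 := by
  obtain ⟨c, C, G, u, hc, hu, hT⟩ := h
  refine ⟨c, C, G, u, hc, hu, ?_⟩
  filter_upwards [hT] with k hk d hd
  exact hk d (hd.trans h01)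

/-- equality of the physical functions -/
theorem trz0_congr {r : ℕ → ℝ} {W W' : ℕ → ℝ → ℂ} {d0 : ℝ}
    (hW : ∀ᶠ k : ℕ in atTop, ∀ d : ℝ, |d| ≤ d0 → W k d = W' k d) (h : TRZ0 r W d0) : TRZ0 r W' d0 := by
  obtain ⟨c, C, G, u, hc, hu, hT⟩ := h
  refine ⟨c, C, G, u, hc, hu, ?_⟩
  filter_upwards [hT, hW] with k hk e d hd
  rw [← e d hd]
  exact hk d hd

/-- the second level, any exponent: the function side and the transfer -/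
theorem trz0_of {r : ℕ → ℝ} {W f : ℕ → ℝ → ℂ} {g κ : ℝ → ℂ} {u : ℕ → ℂ} {c c0 C C1 K B d0 : ℝ}
    (hd0 : 0 ≤ d0) (hd1 : d0 ≤ 1) (hc : 0 < c) (hc0 : 0 < c0)
    (hu : ∀ᶠ k : ℕ in atTop, ‖u k‖ = 1) (hκ : ∀ d : ℝ, |d| ≤ d0 → ‖κ d‖ ≤ K)
    (hg : ∀ d : ℝ, |d| ≤ d0 → ‖g d‖ ≤ B)
    (hT : ∀ᶠ k : ℕ in atTop, ∀ d : ℝ, |d| ≤ d0 →
      ‖(r k : ℂ) * W k d - u k * (κ d * f (k - 1) d)‖ ≤ C * (k : ℝ) ^ (-c))
    (hf : ∀ᶠ N : ℕ in atTop, ∀ d : ℝ, |d| ≤ d0 →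
      ‖f N d - g d * (((N : ℝ) ^ (-(2 / 3 * d ^ 2)) : ℝ) : ℂ)‖ ≤ C1 * (N : ℝ) ^ (-c0)) :
    ∃ d1 : ℝ, 0 < d1 ∧ (d0 = 0 ∨ d1 ≤ d0) ∧ (0 < d0 → TRZ r W d1) := by
  rcases hd0.eq_or_lt with h0 | h0
  · exact ⟨1, one_pos, Or.inl h0.symm, fun h => absurd h (by rw [← h0]; exact lt_irrefl _)⟩
  obtain ⟨d1, hd1'⟩ : ∃ d1, d1 = min d0 (√(min c c0)) := ⟨_, rfl⟩
  have hm : 0 < min c c0 := lt_min hc hc0
  have h0' : 0 < √(min c c0) := Real.sqrt_pos.2 hm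
  have h1 : 0 < d1 := by rw [hd1']; exact lt_min h0 h0'
  have h2 : d1 ≤ d0 := by rw [hd1']; exact min_le_left _ _
  have h3 : d1 ^ 2 ≤ min c c0 := by
    have h4 : d1 ≤ √(min c c0) := by rw [hd1']; exact min_le_right _ _
    calc d1 ^ 2 ≤ (√(min c c0)) ^ 2 := pow_le_pow_left₀ h1.le h4 2
      _ = min c c0 := Real.sq_sqrt hm.le
  have h5 : d1 ^ 2 ≤ c := h3.trans (min_le_left _ _)
  have h6 : d1 ^ 2 ≤ c0 := h3.trans (min_le_right _ _)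
  refine ⟨d1, h1, Or.inr h2, fun _ => ?_⟩
  have hsq : 0 < d1 ^ 2 := by positivity
  refine trz_of (f := f) (g := g) (c0 := c0) (B := B) h1.le (h2.trans hd1) (by linarith)
    (fun d hd => hg d (hd.trans h2)) ⟨C1, ?_⟩ ⟨c, C, K, κ, u, by linarith, hu, fun d hd => hκ d (hd.trans h2), ?_⟩
  · filter_upwards [hf] with N hN d hd
    exact hN d (hd.trans h2)
  · filter_upwards [hT] with k hk d hd
    exact hk d (hd.trans h2)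

end WND

namespace Pool.Agent.CylSaw

/-- **the final statement from the twisted transfer** -/
theorem wind_all {d0 : ℝ} (hd0 : 0 < d0) (hB : PBM.TRP PBM.nrm) (hT : WND.TRZ0 PBM.nrm Wz d0) :
    (∀ k : ℕ, 1 ≤ k → Summable (wt (k := k)) ∧ 0 < Z k) ∧
    (∃ (b0 c C : ℝ) (M : ℝ → ℂ), 0 < b0 ∧ 0 < c ∧ ContinuousOn M (Set.Icc (-b0) b0) ∧ M 0 = 1 ∧
      ∀ k : ℕ, 1 ≤ k → ∀ b : ℝ, |b| ≤ b0 →
        ‖chf k b * (((k : ℝ) ^ (2 / (3 * Real.pi ^ 2) * b ^ 2) : ℝ) : ℂ) - M b‖ ≤ C * (k : ℝ) ^ (-c)) ∧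
    ∀ x : ℝ, Tendsto (fun k : ℕ => prob k {j : ℤ | 2 * Real.pi * j ≤ x * √(Real.log k)}) atTop
      (𝓝 ((gaussianReal 0 (16 / 3)).real (Set.Iic x))) := by
  obtain ⟨d1, h1, -, h3⟩ := WND.trz_of_trz0 hd0 hT
  obtain ⟨L, hL, hW⟩ := PBM.w0_lim PBC.aprP PBC.nrmP hB
  exact wind_main h1 h3 hL hW fun k hk => W0r_pos hk

end Pool.Agent.CylSaw

end
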