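import Pool.Agent.WND.Fam
import Pool.Agent.PB.RR0

/-!
# The two-point function of the cylinder with winding weight: lattice = gas, rows at 0 (helper89)

`χ` = the weight of one crossing (`w = χ ^ 2` = the weight of one turn around the end).

* `LatW`, `GasWD`: the lattice family and the gas family have the properties; `gasWD`;
* `WRW`: the two-point function of the ring functionals with winding weight; `W0W`: all rows at 0;
* **`RR0W`**: the gas of two cut rows at generic lines tending to `0` tends to `B0 k ^ 2 * W0W χ k`.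
-/

set_option autoImplicit false
set_option linter.unusedSectionVars false

namespace Pool.Agent.WND

open _root_.Pool.Agent.EXL _root_.Pool.Agent.EXL.Pat _root_.Pool.Agent.NUF _root_.Pool.Agent.NUU
  _root_.Pool.Agent.NUT2 _root_.Pool.Agent.NUBD _root_.Pool.Agent.NU5 Filter Topology
open _root_.Pool.Agent.PB (B0 B0_left zm0_tendsto)
open Pool.Agent.TC (nuw)
open NUTP (th)
open Complex (I exp)

/-- **The gas of the two cut rows with the winding weight `χ`.** -/
noncomputable def gasW (χ : ℂ) (K L : List ℂ) (a b q g : ℂ) : ℂ :=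
  (NUTP.Gas.gasF th χ true q g).RE K L a b

/-- The lattice family has the properties. -/
def LatW (χ : ℂ) : Prop := ∀ q g : ℂ, NUTP.Data th χ q g (fam χ 1 0 q g)

/-- The gas family has the properties. -/
def GasWD (χ : ℂ) : Prop := ∀ q g : ℂ, NUTP.Data th χ q g (NUTP.Gas.gasF th χ true q g)

theorem gasWD {χ : ℂ} (hχ : χ ≠ 0) : GasWD χ := fun q g => NUTP.Gas.gas_data NUTP.th8 hχ q g

theorem fam_gasW {χ : ℂ} (hl : LatW χ) (hg : GasWD χ) {K L : List ℂ} {a b q g : ℂ}
    (hgen : NUTP.G th (a :: b :: q :: g :: (K ++ L))) :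
    WC χ 1 K L ![q, g, a, b, 1, 1] [2] [3] 2 0 = gasW χ K L a b q g :=
  ((NUTP.uniq NUTP.th8 (hl q g) (hg q g) K L).2 a b hgen).2.2.1

section wl

variable {ι : Type*} [DecidableEq ι] {K L : List (ι × ι)} {a b q g c d : ι} {z : ι → ℂ} {χ : ℂ}

/-- **Lattice = gas for the two cut rows**, winding weight. -/
theorem WL_gasW (hl : LatW χ) (hg : GasWD χ) (hO : Ok K L [a] [b] q g a q) (hcd : c ≠ d)
    (hc : c ∉ sites K L [a] [b] q g) (hd : d ∉ sites K L [a] [b] q g)
    (hz : ∀ t ∈ K ++ L, z t.2 = z t.1)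
    (hgen : NUTP.G th (NUTP.ea (z a) :: NUTP.ea (z b) :: NUTP.ea (z q) :: NUTP.ea (z g) ::
      (K.map (li z) ++ L.map (li z)))) :
    WL χ 1 z K L [a] [b] q g a q =
      gasW χ (K.map (li z)) (L.map (li z)) (NUTP.ea (z a)) (NUTP.ea (z b)) (NUTP.ea (z q))
        (NUTP.ea (z g)) := by
  rw [← fam_gasW hl hg hgen]
  have hn := hO.nd
  unfold sites at hn hc hd
  have hG : Gd (K ++ L) := (List.nodup_append.1 hn).1
  have h2 : (q :: g :: ([a] ++ [b])).Nodup := (List.nodup_append.1 hn).2.1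
  have h3 := (List.nodup_append.1 hn).2.2
  simp only [List.mem_append, not_or] at hc hd
  have hdl : ∀ x ∈ (q :: g :: ([a] ++ [b])), ∀ t ∈ K ++ L, x ≠ t.1 ∧ x ≠ t.2 := by
    intro x hx t ht
    constructor
    · intro e
      exact h3 t.1 (List.mem_append_left _ (List.mem_map_of_mem ht)) x hx e.symm
    · intro e
      exact h3 t.2 (List.mem_append_right _ (List.mem_map_of_mem ht)) x hx e.symm
  have hcl : ∀ t ∈ K ++ L, c ≠ t.1 ∧ c ≠ t.2 := fun t ht =>
    ⟨fun e => hc.1.1 (by rw [e]; exact List.mem_map_of_mem ht),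
      fun e => hc.1.2 (by rw [e]; exact List.mem_map_of_mem ht)⟩
  have hdl' : ∀ t ∈ K ++ L, d ≠ t.1 ∧ d ≠ t.2 := fun t ht =>
    ⟨fun e => hd.1.1 (by rw [e]; exact List.mem_map_of_mem ht),
      fun e => hd.1.2 (by rw [e]; exact List.mem_map_of_mem ht)⟩
  have h5 : ([q, g, a, b, c, d] : List ι).Nodup := by
    simp only [List.nodup_cons, List.mem_cons, List.not_mem_nil, or_false, not_or,
      List.cons_append, List.nil_append, not_false_eq_true, List.nodup_nil, and_true] at h2 hc hd ⊢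
    refine ⟨⟨h2.1.1, h2.1.2.1, h2.1.2.2, fun e => hc.2.1 e.symm, fun e => hd.2.1 e.symm⟩,
      ⟨h2.2.1.1, h2.2.1.2, fun e => hc.2.2.1 e.symm, fun e => hd.2.2.1 e.symm⟩,
      ⟨h2.2.2, fun e => hc.2.2.2.1 e.symm, fun e => hd.2.2.2.1 e.symm⟩,
      ⟨fun e => hc.2.2.2.2 e.symm, fun e => hd.2.2.2.2 e.symm⟩, hcd⟩
  set s : Fin 6 → ι := ![q, g, a, b, c, d] with hs
  have hs6 : List.ofFn s = [q, g, a, b, c, d] := by
    rw [hs]
    simp [List.ofFn_succ]
  have hinj : Function.Injective s := by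
    rw [← List.nodup_ofFn, hs6]
    exact h5
  refine WL_eq_WC (w := χ) (s := s) (A := [2]) (B := [3]) (m := 2) (k := 0)
    (v := ![NUTP.ea (z q), NUTP.ea (z g), NUTP.ea (z a), NUTP.ea (z b), 1, 1]) (Or.inl rfl) hinj hG
    ?_ (by decide) (by simp) (Or.inl rfl) (fun t ht => by rw [hz t ht]) ?_ rfl rfl
  · intro k t ht
    fin_cases k
    · exact hdl q (by simp) t ht
    · exact hdl g (by simp) t ht
    · exact hdl a (by simp) t ht
    · exact hdl b (by simp) t ht
    · exact hcl t ht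
    · exact hdl' t ht
  · intro j hj
    simp only [List.cons_append, List.nil_append, List.mem_cons, List.not_mem_nil, or_false] at hj
    rcases hj with rfl | rfl | rfl | rfl <;> rfl

end wl

section lim

variable {ι : Type*} [DecidableEq ι]

/-- **The two-point function of the ring functionals with the winding weight `χ`.** -/
noncomputable def WRW (χ : ℂ) (c d : ι) (z : ι → ℂ) (K L : List (ι × ι)) (a b q g : ι) : ℂ :=
  Wp (nuw χ) (chS K L q) (VR c d z (rowsR K L a q)) (VR c d z (rowsL K L b g).reverse) a q (K ++ L)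

variable [Finite ι] {K L : List (ι × ι)} {a b q g c d : ι} {β : Type*} {l : Filter β}
  {zt : β → ι → ℂ} {zz : ι → ℂ} {x Br Bl χ : ℂ}

/-- **The limit of the two-point function of the lattice with winding weight.** -/
theorem WL_limW (hO : Ok K L [a] [b] q g a q) (hcd : c ≠ d) (hcr : c ∉ rowsR K L a q)
    (hdr : d ∉ rowsR K L a q) (hcl : c ∉ rowsL K L b g) (hdl : d ∉ rowsL K L b g)
    (hzr : ∀ j ∈ rowsR K L a q, Tendsto (fun t => x - zt t j) l (𝓝 (zz j)))
    (hzl : ∀ j ∈ rowsL K L b g, Tendsto (fun t => x - zt t j) l (𝓝 (zz j)))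
    (hGr : ∀ᶠ t in l, Gz (zt t) (rowsR K L a q)) (hGl : ∀ᶠ t in l, Gz (zt t) (rowsL K L b g))
    (hokr : ∀ j ∈ rowsR K L a q, okR (Real.pi / 8 - zz j))
    (hokl : ∀ j ∈ rowsL K L b g, okR (Real.pi / 8 - zz j))
    (hRr : RegR c d zz (rowsR K L a q)) (hRl : RegR c d zz (rowsL K L b g).reverse)
    (hUr : UDRing c d (rowsR K L a q)) (hUl : UDRing c d (rowsL K L b g).reverse)
    (hrf : UDRefl (rowsL K L b g).reverse)
    (hBr : Tendsto (fun t => BE (fun i => x - zt t i) (rowsR K L a q)) l (𝓝 Br))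
    (hBl : Tendsto (fun t => BE (fun i => x - zt t i) (rowsL K L b g).reverse) l (𝓝 Bl)) :
    Tendsto (fun t => WL χ 1 (zt t) K L [a] [b] q g a q) l
      (𝓝 (Br * Bl * WRW χ c d zz K L a b q g)) := by
  have hnr : (rowsR K L a q).Nodup := hO.nd1
  have hnl : (rowsL K L b g).Nodup := hO.nd2
  have hnl' : (rowsL K L b g).reverse.Nodup := List.nodup_reverse.2 hnl
  have hcl' : c ∉ (rowsL K L b g).reverse := fun h => hcl (List.mem_reverse.1 h)
  have hdl' : d ∉ (rowsL K L b g).reverse := fun h => hdl (List.mem_reverse.1 h)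
  have e : ∀ t i, x - zt t i = -zt t i + x := fun t i => by ring
  have hGr' : ∀ᶠ t in l, Gz (fun i => x - zt t i) (rowsR K L a q) := hGr.mono fun t ht => by
    simp only [e]
    exact (Gz_neg ht).shift x
  have hGl' : ∀ᶠ t in l, Gz (fun i => x - zt t i) (rowsL K L b g).reverse := hGl.mono fun t ht => by
    simp only [e]
    exact (Gz_neg (Gz_rev ht)).shift x
  have Lr : LmF l (fun t => UD (fun i => x - zt t i) (rowsR K L a q))
      (Br • VR c d zz (rowsR K L a q)) := fun F =>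
    UD_tendsto hcd hnr hcr hdr hUr hzr hGr' hokr hRr hBr F
  have Ll : LmF l (fun t => UD (fun i => x - zt t i) (rowsL K L b g).reverse)
      (Bl • VR c d zz (rowsL K L b g).reverse) := fun F =>
    UD_tendsto hcd hnl' hcl' hdl' hUl (fun j hj => hzl j (List.mem_reverse.1 hj)) hGl'
      (fun j hj => hokl j (List.mem_reverse.1 hj)) hRl hBl F
  have Lr' : LmF l (fun t => UD (fun i => -(1 : ℂ) * zt t i) (rowsR K L a q))
      (Br • VR c d zz (rowsR K L a q)) := by
    refine Lr.congr fun t => ?_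
    have h1 : (fun i => x - zt t i) = fun i => -(1 : ℂ) * zt t i + x := by
      funext i
      ring
    rw [h1, UD_shift]
  have Ll' : LmF l (fun t => UD (fun i => (1 : ℂ) * zt t i) (rowsL K L b g))
      (Bl • VR c d zz (rowsL K L b g).reverse) := by
    refine Ll.congr' (hGl.mono fun t ht => ?_)
    have h1 : (fun i => x - zt t i) = fun i => -zt t i + x := by
      funext i
      ring
    have h2 : (fun i => (1 : ℂ) * zt t i) = zt t := by
      funext i
      ring
    rw [h1, UD_shift, h2, hrf _ (Gz_rev ht), List.reverse_reverse]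
  have key := Wp_lim Lr' Ll' (nuw χ) (chS K L q) a q (K ++ L)
  rw [Wp_smul] at key
  exact key

/-- **The gas of two cut rows tends to the two-point function of the ring functionals**, winding weight. -/
theorem RR_tendstoW (hl : LatW χ) (hg : GasWD χ) (hO : Ok K L [a] [b] q g a q) (hcd : c ≠ d)
    (hc : c ∉ sites K L [a] [b] q g) (hd : d ∉ sites K L [a] [b] q g)
    (hz : ∀ t, ∀ s ∈ K ++ L, zt t s.2 = zt t s.1)
    (hgen : ∀ᶠ t in l, NUTP.G th (NUTP.ea (zt t a) :: NUTP.ea (zt t b) :: NUTP.ea (zt t q) ::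
      NUTP.ea (zt t g) :: (K.map (li (zt t)) ++ L.map (li (zt t)))))
    (hzr : ∀ j ∈ rowsR K L a q, Tendsto (fun t => x - zt t j) l (𝓝 (zz j)))
    (hzl : ∀ j ∈ rowsL K L b g, Tendsto (fun t => x - zt t j) l (𝓝 (zz j)))
    (hokr : ∀ j ∈ rowsR K L a q, okR (Real.pi / 8 - zz j))
    (hokl : ∀ j ∈ rowsL K L b g, okR (Real.pi / 8 - zz j))
    (hRr : RegR c d zz (rowsR K L a q)) (hRl : RegR c d zz (rowsL K L b g).reverse)
    (hUr : UDRing c d (rowsR K L a q)) (hUl : UDRing c d (rowsL K L b g).reverse)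
    (hrf : UDRefl (rowsL K L b g).reverse)
    (hBr : Tendsto (fun t => BE (fun i => x - zt t i) (rowsR K L a q)) l (𝓝 Br))
    (hBl : Tendsto (fun t => BE (fun i => x - zt t i) (rowsL K L b g).reverse) l (𝓝 Bl)) :
    Tendsto (fun t => gasW χ (K.map (li (zt t))) (L.map (li (zt t))) (NUTP.ea (zt t a))
      (NUTP.ea (zt t b)) (NUTP.ea (zt t q)) (NUTP.ea (zt t g))) l
      (𝓝 (Br * Bl * WRW χ c d zz K L a b q g)) := by
  have h1 := notMem_rows hc
  have h2 := notMem_rows hd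
  refine (WL_limW (χ := χ) (x := x) hO hcd h1.1 h2.1 h1.2 h2.2 hzr hzl ?_ ?_ hokr hokl hRr hRl hUr
    hUl hrf hBr hBl).congr' ?_
  · exact hgen.mono fun t ht => G_rowsR ht
  · exact hgen.mono fun t ht => G_rowsL (hz t) ht
  · exact hgen.mono fun t ht => WL_gasW hl hg hO hcd hc hd (hz t) ht

end lim

/-- **The two-point function of the cylinder with winding weight, `2 k` rows at `0`.** -/
noncomputable def W0W (χ : ℂ) (k : ℕ) (hk : 1 ≤ k) : ℂ :=
  WRW χ (Sum.inr 0) (Sum.inr 1) (fun _ => 0) (Ik k) (Jk k) (xr (r0 k hk)) (xl (r0 k hk))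
    (xr (rk k hk)) (xl (rk k hk))

variable {k : ℕ} {β : Type*} {l : Filter β} {X Y : β → Fin (k - 1) → ℂ} {ra rb rq rg : β → ℂ}

/-- **The gas of two cut rows tends to `B0 k ^ 2 * W0W χ k`.** -/
theorem RR0W {χ : ℂ} (hlat : LatW χ) (hχ : χ ≠ 0) (hk : 1 ≤ k)
    (hX : ∀ i, Tendsto (fun t => X t i) l (𝓝 0))
    (hY : ∀ i, Tendsto (fun t => Y t i) l (𝓝 0))
    (ha : Tendsto ra l (𝓝 0)) (hb : Tendsto rb l (𝓝 0))
    (hq : Tendsto rq l (𝓝 0)) (hg : Tendsto rg l (𝓝 0))
    (hgen : ∀ᶠ t in l, NUTP.G th (NUTP.ea (ra t) :: NUTP.ea (rb t) :: NUTP.ea (rq t) ::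
      NUTP.ea (rg t) :: ((List.ofFn fun i => NUTP.ea (X t i)) ++ List.ofFn fun i => NUTP.ea (Y t i)))) :
    Tendsto (fun t => gasW χ (List.ofFn fun i => NUTP.ea (X t i))
      (List.ofFn fun i => NUTP.ea (Y t i))
      (NUTP.ea (ra t)) (NUTP.ea (rb t)) (NUTP.ea (rq t)) (NUTP.ea (rg t))) l
      (𝓝 (B0 k ^ 2 * W0W χ k hk)) := by
  have nr : ((List.finRange (2 * k)).map (xr (n := 2 * k))).Nodup :=
    (List.nodup_append.1 (all_nodup (2 * k))).1
  have nl : ((List.finRange (2 * k)).map (xl (n := 2 * k))).Nodup :=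
    (List.nodup_append.1 (all_nodup (2 * k))).2.1
  have nl' := List.nodup_reverse.2 nl
  have c01 : (Sum.inr 0 : St (2 * k)) ≠ Sum.inr 1 := by simp
  have n1 : ∀ j : Fin 4, (Sum.inr j : St (2 * k)) ∉ (List.finRange (2 * k)).map xr := by simp
  have n2 : ∀ j : Fin 4, (Sum.inr j : St (2 * k)) ∉ ((List.finRange (2 * k)).map xl).reverse := by simp
  obtain ⟨r, hr, hR⟩ := regR_ball (α := St (2 * k)) c01
  have hRr := (hR (fun _ => 0) _ nr (n1 0) (n1 1) fun i _ => Metric.mem_ball_self hr).1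
  have hRl := (hR (fun _ => 0) _ nl' (n2 0) (n2 1) fun i _ => Metric.mem_ball_self hr).1
  have hUr : UDRing (Sum.inr 0) (Sum.inr 1) ((List.finRange (2 * k)).map (xr (n := 2 * k))) :=
    udRingAll (St (2 * k)) _ _ (Sum.inr 2) _ nr (by simp) (by simp) (by simp) (n1 0) (n1 1) (n1 2)
  have hUl : UDRing (Sum.inr 0) (Sum.inr 1) ((List.finRange (2 * k)).map (xl (n := 2 * k))).reverse :=
    udRingAll (St (2 * k)) _ _ (Sum.inr 2) _ nl' (by simp) (by simp) (by simp) (n2 0) (n2 1) (n2 2)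
  have hrf : UDRefl ((List.finRange (2 * k)).map (xl (n := 2 * k))).reverse := udRefl nl' (udRingAll _)
  set zt : β → St (2 * k) → ℂ := fun t => zmk k (X t) (Y t) (ra t) (rb t) (rq t) (rg t) with hzt
  have hT := zm0_tendsto hX hY ha hb hq hg
  have hzr : ∀ j ∈ rowsR (Ik k) (Jk k) (xr (r0 k hk)) (xr (rk k hk)),
      Tendsto (fun t => (0 : ℂ) - zt t j) l (𝓝 ((fun _ => 0 : St (2 * k) → ℂ) j)) := by
    rw [rowsR_k]
    intro j hj
    obtain ⟨r, -, rfl⟩ := List.mem_map.1 hj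
    exact hT r false
  have hzl : ∀ j ∈ rowsL (Ik k) (Jk k) (xl (r0 k hk)) (xl (rk k hk)),
      Tendsto (fun t => (0 : ℂ) - zt t j) l (𝓝 ((fun _ => 0 : St (2 * k) → ℂ) j)) := by
    rw [rowsL_k]
    intro j hj
    obtain ⟨r, -, rfl⟩ := List.mem_map.1 hj
    exact hT r true
  have hends := fun t => zmk_ends hk (X t) (Y t) (ra t) (rb t) (rq t) (rg t)
  have hgen' : ∀ᶠ t in l, NUTP.G th (NUTP.ea (zt t (xr (r0 k hk))) :: NUTP.ea (zt t (xl (r0 k hk))) ::
      NUTP.ea (zt t (xr (rk k hk))) :: NUTP.ea (zt t (xl (rk k hk))) ::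
        ((Ik k).map (li (zt t)) ++ (Jk k).map (li (zt t)))) := hgen.mono fun t ht => by
    rw [hzt]
    simp only [(hends t).1, (hends t).2.1, (hends t).2.2.1, (hends t).2.2.2, zmk_I, zmk_J]
    exact ht
  have hsame : ∀ t, ∀ s ∈ Ik k ++ Jk k, zt t s.2 = zt t s.1 := fun t => zmk_same
  have hnr : (rowsR (Ik k) (Jk k) (xr (r0 k hk)) (xr (rk k hk))).Nodup := (Ok_k hk).nd1
  have hnl : (rowsL (Ik k) (Jk k) (xl (r0 k hk)) (xl (rk k hk))).Nodup := (Ok_k hk).nd2
  have e : ∀ t i, (0 : ℂ) - zt t i = -zt t i + 0 := fun t i => by ring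
  have hGr : ∀ᶠ t in l, Gz (fun i => (0 : ℂ) - zt t i)
      (rowsR (Ik k) (Jk k) (xr (r0 k hk)) (xr (rk k hk))) := hgen'.mono fun t ht => by
    simp only [e]
    exact (Gz_neg (G_rowsR ht)).shift _
  have hGl : ∀ᶠ t in l, Gz (fun i => (0 : ℂ) - zt t i)
      (rowsL (Ik k) (Jk k) (xl (r0 k hk)) (xl (rk k hk))).reverse := hgen'.mono fun t ht => by
    simp only [e]
    exact (Gz_neg (Gz_rev (G_rowsL (hsame t) ht))).shift _
  have hBr := BE_tendsto (β := β) hnr hGr hzr
  have hBl := BE_tendsto (β := β) (List.nodup_reverse.2 hnl) hGl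
    fun j hj => hzl j (List.mem_reverse.1 hj)
  have hok : okR ((Real.pi / 8 : ℂ) - 0) := by
    rw [sub_zero]
    exact okR_hex
  have key := RR_tendstoW (x := 0) hlat (gasWD hχ) (Ok_k hk) (c := Sum.inr 0) (d := Sum.inr 1)
    (by simp) (spare_notMem hk 0) (spare_notMem hk 1) hsame hgen' hzr hzl (fun j _ => hok)
    (fun j _ => hok) (by rw [rowsR_k]; exact hRr) (by rw [rowsL_k]; exact hRl)
    (by rw [rowsR_k]; exact hUr) (by rw [rowsL_k]; exact hUl) (by rw [rowsL_k]; exact hrf) hBr hBl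
  have e1 : BD (fun _ : St (2 * k) => 0) (rowsR (Ik k) (Jk k) (xr (r0 k hk)) (xr (rk k hk))) = B0 k := by
    rw [rowsR_k]
    rfl
  have e2 : BD (fun _ : St (2 * k) => 0) (rowsL (Ik k) (Jk k) (xl (r0 k hk)) (xl (rk k hk))).reverse =
      B0 k := by
    rw [rowsL_k]
    exact B0_left k
  have e3 : WRW χ (Sum.inr 0) (Sum.inr 1) (fun _ => 0) (Ik k) (Jk k) (xr (r0 k hk)) (xl (r0 k hk))
      (xr (rk k hk)) (xl (rk k hk)) = W0W χ k hk := rfl
  rw [e1, e2, e3] at key
  rw [sq]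
  refine key.congr fun t => ?_
  rw [hzt]
  simp only [(hends t).1, (hends t).2.1, (hends t).2.2.1, (hends t).2.2.2, zmk_I, zmk_J]

end Pool.Agent.WND
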