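import Pool.Agent.WND.REt
import Pool.Agent.WND.RRW
import Pool.Agent.PB.W0Gas

/-!
# The two-point function with winding weight at rows 0 as the sum of the eleven integrals (helper89)

* `RE_tendstoWR`: the gas at `χ` tends to the sum of the eleven integrals of `D`, the term with `n` quanta per
  group has the factor `χ ^ (2 n - 2 m)`;
* `gasW_zero`: rows and ends 0;
* `W0_gasW`: `B0 k ^ 2 * W0W χ k` for any data with `k - 1` rows 0 in each group and ends 0; factor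
  `(χ ^ 2) ^ (n - (k - 1))`;
* `W0_gasW_R0`: the same for the data `R0 (k - 1) β ex ex0`.
-/

set_option autoImplicit false
set_option linter.unusedSectionVars false
set_option linter.unusedVariables false

noncomputable section

open Complex MeasureTheory Filter Topology

namespace Pool.Agent.WND

open NUP1 PBX PBZ
open NUP1.N (E11 Bx)
open NUP1.Leg (cc hC Bp Ht)
open NUTP (th ea)
open NUTP.Gas (gasF)
open Pool.Agent.PB (B0)

/-- the two forms of the factor -/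
theorem fac_sq (χ : ℂ) (a b : ℤ) : χ ^ (2 * a - 2 * b) = (χ ^ 2) ^ (a - b) := by
  rw [show (2 * a - 2 * b : ℤ) = 2 * (a - b) by ring, zpow_mul]
  norm_cast

section

variable {m : ℕ}

/-- **The gas of two cut rows tends to the eleven integrals**, any rows, ends and cutoffs, weight `χ`. -/
theorem RE_tendstoWR (χ : ℂ) {ι : Type*} {F : Filter ι} [F.IsCountablyGenerated] {a R : ℝ}
    (ha : a = 31 / 50 ∨ a = 5 / 4) {D : RD m} (O : D.Ok) (hβ : 1 < D.β) (hc : D.c = cc m)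
    (hc' : D.c' = cc m) {p h q g : ι → ℂ} {x y : ι → Fin m → ℂ}
    (H : ∀ᶠ e in F, Ht (p e) (h e) (q e) (g e) (x e) (y e))
    (B1 : ∀ᶠ e in F, Bx R (p e)) (B2 : ∀ᶠ e in F, Bx R (h e)) (B3 : ∀ᶠ e in F, Bx R (q e))
    (B4 : ∀ᶠ e in F, Bx R (g e)) (B5 : ∀ᶠ e in F, ∀ i, Bx R (x e i))
    (B6 : ∀ᶠ e in F, ∀ i, Bx R (y e i)) (bp : |D.p.im| ≤ R) (bq : |D.q.im| ≤ R)
    (bx : ∀ i, |(D.x i).im| ≤ R) (by' : ∀ i, |(D.y i).im| ≤ R)
    (t1 : Tendsto p F (𝓝 D.p)) (t2 : Tendsto h F (𝓝 D.p)) (t3 : Tendsto q F (𝓝 D.q))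
    (t4 : Tendsto g F (𝓝 D.q)) (t5 : ∀ i, Tendsto (fun e => x e i) F (𝓝 (D.x i)))
    (t6 : ∀ i, Tendsto (fun e => y e i) F (𝓝 (D.y i))) :
    Tendsto (fun e => gasW χ
      (List.ofFn fun i => ea (-(x e i))) (List.ofFn fun j => ea (-(y e j))) (ea (-(p e)))
      (ea (-(h e))) (ea (-(q e))) (ea (-(g e)))) F
    (𝓝 (sin l * (Bp D.p D.q D.x * Bp D.q D.p D.y) * ∑ n ∈ Finset.range (2 * m + 1),
      χ ^ (2 * (n : ℤ) - 2 * (m : ℤ)) *
      E11 (3 / 5 * l) (-(17 / 10) * l) D.p D.q D.x D.y D.hX D.hY n n (a * l)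
        (-(11 / 4) * l))) := by
  have key := WND.RE_tendstoZ χ ha hβ O.b1 H B1 B2 B3 B4 B5 B6 (p0 := D.p) (h0 := D.p)
    (q0 := D.q) (g0 := D.q) (x0 := D.x) (y0 := D.y) ⟨O.hp, bp⟩ ⟨O.hp, bp⟩ ⟨O.hq, bq⟩ ⟨O.hq, bq⟩
    (fun i => ⟨O.hx i, bx i⟩) (fun i => ⟨O.hy i, by' i⟩) t1 t2 t3 t4 t5 t6
  have e : ∀ n, E11 (3 / 5 * l) (-(17 / 10) * l) D.p D.q D.x D.y
      (hC D.β (cc m) D.p D.p D.q D.q D.x D.y) (hC D.β (cc m) D.q D.q D.p D.p D.y D.x) n n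
      (a * l) (-(11 / 4) * l) = E11 (3 / 5 * l) (-(17 / 10) * l) D.p D.q D.x D.y D.hX D.hY n n
      (a * l) (-(11 / 4) * l) := by
    intro n
    have h1 := D.plain_hX
    have h2 := D.plain_hY
    rw [hc] at h1
    rw [hc'] at h2
    rw [← h1, ← h2]
    exact RD.Ok.E11_cut (D := D.plain) (D' := D) O.plain O hβ hβ rfl rfl rfl rfl rfl rfl ha n
  simp only [e] at key
  exact key

/-- **The gas of two cut rows at rows and ends 0**, weight `χ`. -/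
theorem gasW_zero (χ : ℂ) {m : ℕ} {a : ℝ} (ha : a = 31 / 50 ∨ a = 5 / 4) {D : RD m} (O : D.Ok)
    (hβ : 1 < D.β) (hc : D.c = cc m) (hc' : D.c' = cc m) (hx : D.x = fun _ => 0)
    (hy : D.y = fun _ => 0) (hp : D.p = 0) (hq : D.q = 0) :
    Tendsto (fun e => gasW χ (List.ofFn fun i => ea (-xZ m e i)) (List.ofFn fun i => ea (-yZ m e i))
      (ea (-pZ (2 * m + 1) e)) (ea (-pZ (2 * m + 2) e)) (ea (-pZ (2 * m + 3) e))
      (ea (-pZ (2 * m + 4) e))) (𝓝[>] 0)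
    (𝓝 (sin l * (Bp 0 0 (fun _ : Fin m => 0) * Bp 0 0 (fun _ : Fin m => 0)) *
      ∑ n ∈ Finset.range (2 * m + 1), χ ^ (2 * (n : ℤ) - 2 * (m : ℤ)) *
        E11 (3 / 5 * l) (-(17 / 10) * l) D.p D.q D.x D.y D.hX D.hY n n (a * l)
          (-(11 / 4) * l))) := by
  have hpos : ∀ᶠ e : ℝ in 𝓝[>] 0, 0 < e := self_mem_nhdsWithin
  have hle : ∀ᶠ e : ℝ in 𝓝[>] 0, e ≤ 1 := nhdsWithin_le_nhds (eventually_le_nhds one_pos)
  have hbox := hpos.and hle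
  have bx : ∀ d : ℕ, d ≤ 2 * m + 4 → ∀ᶠ e : ℝ in 𝓝[>] 0, Bx (2 * m + 4 : ℝ) (pZ d e) :=
    fun d hd => hbox.mono fun e he => pZ_box he.1.le he.2 (by exact_mod_cast hd)
  have R0 : (0 : ℝ) ≤ 2 * m + 4 := by positivity
  have key := RE_tendstoWR χ (F := 𝓝[>] (0 : ℝ)) (R := (2 * m + 4 : ℝ)) ha O hβ hc hc'
    (p := pZ (2 * m + 1)) (h := pZ (2 * m + 2)) (q := pZ (2 * m + 3)) (g := pZ (2 * m + 4))
    (x := xZ m) (y := yZ m) (hpos.mono fun e he => Ht_Z he) (bx _ (by omega)) (bx _ (by omega))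
    (bx _ (by omega)) (bx _ (by omega))
    (Filter.eventually_all.2 fun i => bx _ (by have := i.isLt; omega))
    (Filter.eventually_all.2 fun i => bx _ (by have := i.isLt; omega))
    (by rw [hp]; simpa using R0) (by rw [hq]; simpa using R0)
    (fun i => by rw [hx]; simpa using R0) (fun i => by rw [hy]; simpa using R0)
    (by rw [hp]; exact pZ_tendsto _) (by rw [hp]; exact pZ_tendsto _)
    (by rw [hq]; exact pZ_tendsto _) (by rw [hq]; exact pZ_tendsto _)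
    (fun i => by rw [hx]; exact pZ_tendsto _) (fun i => by rw [hy]; exact pZ_tendsto _)
  have e1 : Bp D.p D.q D.x * Bp D.q D.p D.y =
      Bp 0 0 (fun _ : Fin m => 0) * Bp 0 0 (fun _ : Fin m => 0) := by
    rw [hx, hy, hp, hq]
  rw [e1] at key
  exact key

end

/-- the gas at the rows `xZ`, `yZ` tends to the numerator -/
theorem gasW_B0 {χ : ℂ} (hlat : LatW χ) (hχ : χ ≠ 0) {k : ℕ} (hk : 1 ≤ k) :
    Tendsto (fun e => gasW χ (List.ofFn fun i => NUTP.ea (-xZ (k - 1) e i))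
      (List.ofFn fun i => NUTP.ea (-yZ (k - 1) e i)) (NUTP.ea (-pZ (2 * (k - 1) + 1) e))
      (NUTP.ea (-pZ (2 * (k - 1) + 2) e)) (NUTP.ea (-pZ (2 * (k - 1) + 3) e))
      (NUTP.ea (-pZ (2 * (k - 1) + 4) e))) (𝓝[>] (0 : ℝ)) (𝓝 (B0 k ^ 2 * W0W χ k hk)) := by
  have hpos : ∀ᶠ e : ℝ in 𝓝[>] 0, 0 < e := self_mem_nhdsWithin
  exact RR0W (l := 𝓝[>] (0 : ℝ)) (k := k) hlat hχ (X := fun e i => -xZ (k - 1) e i)
    (Y := fun e i => -yZ (k - 1) e i) (ra := fun e => -pZ (2 * (k - 1) + 1) e)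
    (rb := fun e => -pZ (2 * (k - 1) + 2) e) (rq := fun e => -pZ (2 * (k - 1) + 3) e)
    (rg := fun e => -pZ (2 * (k - 1) + 4) e) hk (fun i => pZ_neg_tendsto _)
    (fun i => pZ_neg_tendsto _) (pZ_neg_tendsto _) (pZ_neg_tendsto _) (pZ_neg_tendsto _)
    (pZ_neg_tendsto _) (hpos.mono fun e he => G_Z he)

/-- **The numerator of the two-point function with winding weight at rows 0, ends 0** -/
theorem W0_gasW {χ : ℂ} (hlat : LatW χ) (hχ : χ ≠ 0) {k : ℕ} (hk : 1 ≤ k) {a : ℝ}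
    (ha : a = 31 / 50 ∨ a = 5 / 4) {D : RD (k - 1)}
    (O : D.Ok) (hβ : 1 < D.β) (hc : D.c = cc (k - 1)) (hc' : D.c' = cc (k - 1)) (Z : D.Z) :
    B0 k ^ 2 * W0W χ k hk =
      sin l * (Bp 0 0 (fun _ : Fin (k - 1) => 0) * Bp 0 0 (fun _ : Fin (k - 1) => 0)) *
      ∑ n ∈ Finset.range (2 * (k - 1) + 1), (χ ^ 2) ^ ((n : ℤ) - ((k - 1 : ℕ) : ℤ)) *
        E11 (3 / 5 * l) (-(17 / 10) * l) D.p D.q D.x D.y D.hX D.hY n n (a * l)
          (-(11 / 4) * l) := by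
  have h1 := gasW_zero χ ha O hβ hc hc' Z.x Z.y Z.p Z.q
  simp only [fac_sq] at h1
  exact tendsto_nhds_unique (gasW_B0 hlat hχ hk) h1

/-- the same for `R0` -/
theorem W0_gasW_R0 {χ : ℂ} (hlat : LatW χ) (hχ : χ ≠ 0) {k : ℕ} (hk : 1 ≤ k) {a : ℝ}
    (ha : a = 31 / 50 ∨ a = 5 / 4) {β : ℝ}
    (hβ : 1 < β) (hβ' : β ≤ 4 / 3) {ex ex0 : List ℂ} (hex : ∀ w ∈ ex, |w.re| ≤ l / 2)
    (hex0 : ∀ w ∈ ex0, |w.re| ≤ l / 2) :
    B0 k ^ 2 * W0W χ k hk =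
      sin l * (Bp 0 0 (fun _ : Fin (k - 1) => 0) * Bp 0 0 (fun _ : Fin (k - 1) => 0)) *
      ∑ n ∈ Finset.range (2 * (k - 1) + 1), (χ ^ 2) ^ ((n : ℤ) - ((k - 1 : ℕ) : ℤ)) *
        E11 (3 / 5 * l) (-(17 / 10) * l) (R0 (k - 1) β ex ex0).p (R0 (k - 1) β ex ex0).q
          (R0 (k - 1) β ex ex0).x (R0 (k - 1) β ex ex0).y
          (R0 (k - 1) β ex ex0).hX (R0 (k - 1) β ex ex0).hY n n (a * l) (-(11 / 4) * l) :=
  W0_gasW hlat hχ hk ha (D := R0 (k - 1) β ex ex0) (R0_Ok (k - 1) (by linarith) hβ' hex hex0) hβ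
    rfl rfl (R0_Z _ _ _ _)

end Pool.Agent.WND

end
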