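import Pool.Agent.WND.TailA
import Pool.Agent.WND.W0GasW
import Pool.Agent.WND.MainW
import Pool.Agent.WND.CylAng
import Pool.Agent.PB.TRH1

/-!
# PLAN W+: the tail of the crossing number (helper76)

Inputs: `TailS` (helper85's `tailS`: the truncated sums over the sectors), `WalkW` (the physical two-point function
with weight `χ` is the sum over the walks, `‖χ‖ = 1`), `LatW χ`, and plan B (`PBM.TRP PBM.nrm`).

* `sec_id`: the sector with `n` quanta is the sum over the walks with crossing number `k - 1 - n`;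
* `cn_lt`: `|cn w| < k`; `tail_one`: the tail is the truncated sum over the sectors;
* **`tail_cn`**: `∑ [j ≤ |cn w|] wt w ≤ C k^ε exp (-d j) Z k`, all `k ≥ 1`;
* **`expmom`**: `‖∑ wt w exp (t wang w)‖ ≤ B k^ε Z k`, all `k ≥ 1`, `‖t‖ ≤ δ`.
-/

set_option autoImplicit false

noncomputable section

open Filter Topology Complex

namespace Pool.Agent.CylSaw

open PBR (EED)
open PBI (nrR)
open PBX (R0)
open NUGC (beC)

/-- **the truncated sums over the sectors** (helper85's `tailS`) -/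
def TailS : Prop := ∀ ε : ℝ, 0 < ε → ∃ ep : ℝ, 0 < ep ∧ ep ≤ 1 / 100 ∧ ∃ (C d : ℝ) (k0 : ℕ),
  0 ≤ C ∧ 0 < d ∧ 1 ≤ k0 ∧ ∀ k ≥ k0, ∀ K ≤ k, K ≤ 2 * (k - 1) →
    ‖nrR k * ∑ n ∈ Finset.range (K + 1), EED (R0 (k - 1) (beC ep) [I, -I] []) n‖ ≤
      C * (k : ℝ) ^ ε * Real.exp (-(d * ((k : ℝ) - K)))

/-- **the physical function with winding weight is the sum over the walks** -/
def WalkW : Prop := ∀ (k : ℕ) (hk : 1 ≤ k) (χ : ℂ), ‖χ‖ = 1 →
  Pool.Agent.WND.W0W χ k hk = ∑' w : Saw k, (wt w : ℂ) * (χ ^ 2) ^ (-cn w)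

/-- `WalkW` from the link with the angle (`WND.LinkW Wz`) -/
theorem walkW_of (h : ∀ (k : ℕ) (hk : 1 ≤ k) (χ : ℂ) (d : ℝ),
    χ ^ 2 = Complex.exp (Complex.I * (Real.pi * d)) → Pool.Agent.WND.W0W χ k hk = Wz k (-d)) :
    WalkW := by
  intro k hk χ hχ
  have h1 : ‖χ ^ 2‖ = 1 := by rw [norm_pow, hχ, one_pow]
  have hpi := Real.pi_ne_zero
  obtain ⟨d, hd⟩ : ∃ d : ℝ, d = (χ ^ 2).arg / Real.pi := ⟨_, rfl⟩
  have h2 : χ ^ 2 = Complex.exp (Complex.I * (Real.pi * d)) := by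
    have h3 := Complex.norm_mul_exp_arg_mul_I (χ ^ 2)
    rw [h1, ofReal_one, one_mul] at h3
    have h4 : (Real.pi : ℂ) ≠ 0 := by exact_mod_cast hpi
    have h5 : ((χ ^ 2).arg : ℂ) * I = Complex.I * (Real.pi * d) := by
      rw [hd]
      push_cast
      field_simp
    rw [← h5]
    exact h3.symm
  rw [h k hk χ d h2]
  unfold Wz
  refine tsum_congr fun w => ?_
  rw [h2, ← Complex.exp_int_mul]
  congr 2
  push_cast
  ring

/-- the scalar in front of the physical function -/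
def aW (k : ℕ) : ℂ := 2 ^ (2 * k * (2 * k - 1)) * Pool.Agent.PB.B0 k ^ 2 / ((PBM.bulk0 k : ℝ) : ℂ)

theorem norm_aW (k : ℕ) : ‖aW k‖ = PBM.nrm k := by
  unfold aW PBM.nrm
  rw [PBM.B0_RR, norm_div, norm_mul, norm_pow, norm_pow, Complex.norm_ofNat, Complex.norm_real,
    Real.norm_of_nonneg (PBM.bulk0_pos k).le]

theorem aW_ne {k : ℕ} (hk : 1 ≤ k) : aW k ≠ 0 := by
  have h : Pool.Agent.PB.B0 k ≠ 0 := by
    rw [PBM.B0_RR]
    exact PBU.B0_ne hk _ _ (c := 0) (by simp) fun _ _ => rfl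
  have hb : ((PBM.bulk0 k : ℝ) : ℂ) ≠ 0 := by
    exact_mod_cast (PBM.bulk0_pos k).ne'
  unfold aW
  exact div_ne_zero (mul_ne_zero (pow_ne_zero _ two_ne_zero) (pow_ne_zero _ h)) hb

theorem nrm_pos {k : ℕ} (hk : 1 ≤ k) : 0 < PBM.nrm k := by
  rw [← norm_aW]
  exact norm_pos_iff.2 (aW_ne hk)

/-- the walks are countable -/
theorem saw_count {k : ℕ} (hk : 1 ≤ k) : Countable (Saw k) := by
  have h := (summable_wt hk).countable_support
  have e : Function.support (wt (k := k)) = Set.univ := by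
    ext w
    simp [(wt_pos w).ne']
  rw [e] at h
  exact Set.countable_univ_iff.1 h

/-- **the sectors are the walks with given crossing number** -/
theorem sec_id (hL : ∀ χ : ℂ, ‖χ‖ = 1 → Pool.Agent.WND.LatW χ) (hW : WalkW) {k : ℕ} (hk : 1 ≤ k)
    {ep : ℝ} (hep : 0 < ep) (hep1 : ep ≤ 1 / 100) (s : ℂ) (hs : ‖s‖ = 1) :
    aW k * ∑' w : Saw k, (wt w : ℂ) * s ^ (-cn w) =
      ∑ n ∈ Finset.range (2 * (k - 1) + 1), s ^ ((n : ℤ) - ((k - 1 : ℕ) : ℤ)) *
        (nrR k * EED (R0 (k - 1) (beC ep) [I, -I] []) n) := by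
  obtain ⟨χ, hχ⟩ := IsAlgClosed.exists_pow_nat_eq s (n := 2) two_pos
  have h1 : ‖χ‖ = 1 := by
    have h2 : ‖χ‖ ^ 2 = 1 := by rw [← norm_pow, hχ, hs]
    have h3 := norm_nonneg χ
    nlinarith
  have h0 : χ ≠ 0 := by
    rintro rfl
    rw [norm_zero] at h1
    exact zero_ne_one h1
  have h := Pool.Agent.WND.W0_gasW_R0 (hL χ h1) h0 hk (a := 31 / 50) (Or.inl rfl) (β := beC ep)
    (PBO.beC_bd hep hep1).1 (PBO.beC_bd hep hep1).2.1 (ex := [I, -I]) (ex0 := [])
    PBO.cutOk_I.re (by simp)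
  rw [hW k hk χ h1, hχ] at h
  have e1 : aW k * ∑' w : Saw k, (wt w : ℂ) * s ^ (-cn w) =
      2 ^ (2 * k * (2 * k - 1)) / ((PBM.bulk0 k : ℝ) : ℂ) *
        (Pool.Agent.PB.B0 k ^ 2 * ∑' w : Saw k, (wt w : ℂ) * s ^ (-cn w)) := by
    unfold aW
    ring
  have hb : PBM.bulk0 k = Pool.Agent.NUF.bulk k := rfl
  rw [e1, h, hb]
  simp_rw [mul_left_comm _ (nrR k), ← Finset.mul_sum]
  unfold nrR EED
  ring

theorem tail_sec (hL : ∀ χ : ℂ, ‖χ‖ = 1 → Pool.Agent.WND.LatW χ) (hW : WalkW) {k : ℕ} (hk : 1 ≤ k)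
    {ep : ℝ} (hep : 0 < ep) (hep1 : ep ≤ 1 / 100) {K : ℕ} (hK : K ≤ 2 * (k - 1)) :
    PBM.nrm k * ∑' w : Saw k, (if ((k - 1 : ℕ) : ℤ) - K ≤ cn w then wt w else 0) =
      ‖nrR k * ∑ n ∈ Finset.range (K + 1), EED (R0 (k - 1) (beC ep) [I, -I] []) n‖ := by
  have := saw_count hk
  have h := WNDT.trunc (w := wt (k := k)) (c := cn) (N := 2 * (k - 1)) (m := ((k - 1 : ℕ) : ℤ))
    (E := fun n => nrR k * EED (R0 (k - 1) (beC ep) [I, -I] []) n) (a := aW k)
    (fun w => wt_pos w) (summable_wt hk) (aW_ne hk) (sec_id hL hW hk hep hep1) hK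
  rw [norm_aW, ← Finset.mul_sum] at h
  exact h

/-- **the crossing number is less than `k`** -/
theorem cn_lt (hL : ∀ χ : ℂ, ‖χ‖ = 1 → Pool.Agent.WND.LatW χ) (hW : WalkW) {k : ℕ} (hk : 1 ≤ k)
    (w : Saw k) : |cn w| < k := by
  have := saw_count hk
  obtain ⟨n, h1, h2⟩ := WNDT.supp (w := wt (k := k)) (c := cn) (N := 2 * (k - 1))
    (m := ((k - 1 : ℕ) : ℤ)) (E := fun n => nrR k * EED (R0 (k - 1) (beC (1 / 100)) [I, -I] []) n)
    (a := aW k) (fun w => wt_pos w) (summable_wt hk) (aW_ne hk)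
    (sec_id hL hW hk (by norm_num) le_rfl) w
  rw [abs_lt]
  constructor <;> omega

theorem summable_if {k : ℕ} (hk : 1 ≤ k) (p : Saw k → Prop) [DecidablePred p] :
    Summable fun w : Saw k => if p w then wt w else 0 :=
  Summable.of_nonneg_of_le (fun w => by split_ifs; exacts [(wt_pos w).le, le_rfl])
    (fun w => by split_ifs; exacts [le_rfl, (wt_pos w).le]) (summable_wt hk)

/-- the tail of both signs -/
theorem tail_two {k : ℕ} (hk : 1 ≤ k) (j : ℕ) :
    ∑' w : Saw k, (if (j : ℤ) ≤ |cn w| then wt w else 0) ≤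
      2 * ∑' w : Saw k, (if (j : ℤ) ≤ cn w then wt w else 0) := by
  have h1 : ∑' w : Saw k, (if (j : ℤ) ≤ -cn w then wt w else 0) =
      ∑' w : Saw k, (if (j : ℤ) ≤ cn w then wt w else 0) := by
    rw [← (reflE k).tsum_eq]
    refine tsum_congr fun w => ?_
    have e1 : (reflE k) w = refl k w := rfl
    have e2 : wt (refl k w) = wt w := rfl
    rw [e1, cn_refl hk, e2, neg_neg]
  have h2 : ∑' w : Saw k, (if (j : ℤ) ≤ |cn w| then wt w else 0) ≤
      ∑' w : Saw k, ((if (j : ℤ) ≤ cn w then wt w else 0) +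
        (if (j : ℤ) ≤ -cn w then wt w else 0)) := by
    refine (summable_if hk _).tsum_le_tsum (fun w => ?_) ((summable_if hk _).add (summable_if hk _))
    have hw := (wt_pos w).le
    by_cases ha : (j : ℤ) ≤ |cn w|
    · rw [if_pos ha]
      rcases le_abs.1 ha with h3 | h3
      · rw [if_pos h3]
        split_ifs
        · linarith
        · linarith
      · rw [if_pos h3]
        split_ifs
        · linarith
        · linarith
    · rw [if_neg ha]
      split_ifs <;> linarith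
  rw [(summable_if hk _).tsum_add (summable_if hk _), h1] at h2
  linarith

/-- **the tail of the crossing number** -/
theorem tail_cn (hL : ∀ χ : ℂ, ‖χ‖ = 1 → Pool.Agent.WND.LatW χ) (hW : WalkW)
    (hB : PBM.TRP PBM.nrm) (hS : TailS) : ∀ ε : ℝ, 0 < ε → ∃ C d : ℝ, 0 ≤ C ∧ 0 < d ∧
      ∀ k : ℕ, 1 ≤ k → ∀ j : ℕ, ∑' w : Saw k, (if (j : ℤ) ≤ |cn w| then wt w else 0) ≤
        C * (k : ℝ) ^ ε * Real.exp (-(d * j)) * Z k := by
  intro ε hε
  obtain ⟨ep, hep, hep1, C, d, k0, hC, hd, hk0, H⟩ := hS ε hε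
  obtain ⟨L, hL0, hlim⟩ := PBM.w0_lim PBC.aprP PBC.nrmP hB
  obtain ⟨k1, hk1⟩ := eventually_atTop.1 (hlim.eventually (lt_mem_nhds (show L / 2 < L by linarith)))
  obtain ⟨K0, hK0⟩ : ∃ K0, K0 = max k0 k1 := ⟨_, rfl⟩
  refine ⟨4 * C / L + Real.exp (d * K0), d, by positivity, hd, fun k hk j => ?_⟩
  have hk' : (1 : ℝ) ≤ k := by exact_mod_cast hk
  have hkε : (1 : ℝ) ≤ (k : ℝ) ^ ε := Real.one_le_rpow hk' hε.le
  have hZ := Z_pos hk
  have hTZ : ∑' w : Saw k, (if (j : ℤ) ≤ |cn w| then wt w else 0) ≤ Z k :=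
    (summable_if hk _).tsum_le_tsum (fun w => by split_ifs; exacts [le_rfl, (wt_pos w).le])
      (summable_wt hk)
  have hexp := Real.exp_pos (-(d * j))
  rcases Nat.lt_or_ge j k with hj | hj
  · rcases lt_or_ge k K0 with hkK | hkK
    · -- small `k`
      have h1 : 1 ≤ Real.exp (d * K0) * Real.exp (-(d * j)) := by
        rw [← Real.exp_add]
        refine Real.one_le_exp ?_
        have : (j : ℝ) ≤ K0 := by exact_mod_cast (hj.trans hkK).le
        nlinarith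
      calc ∑' w : Saw k, (if (j : ℤ) ≤ |cn w| then wt w else 0) ≤ 1 * 1 * Z k := by
            rw [one_mul, one_mul]
            exact hTZ
        _ ≤ (Real.exp (d * K0) * Real.exp (-(d * j))) * (k : ℝ) ^ ε * Z k := by gcongr
        _ ≤ (4 * C / L + Real.exp (d * K0)) * (k : ℝ) ^ ε * Real.exp (-(d * j)) * Z k := by
            have h2 : 0 ≤ 4 * C / L * ((k : ℝ) ^ ε * Real.exp (-(d * j)) * Z k) := by positivity
            nlinarith
    · -- large `k`
      have hk0' : k ≥ k0 := (le_max_left k0 k1).trans (by rw [← hK0]; exact hkK)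
      have hk1' : k1 ≤ k := (le_max_right k0 k1).trans (by rw [← hK0]; exact hkK)
      obtain ⟨K, hK⟩ : ∃ K, K = k - 1 - j := ⟨_, rfl⟩
      have h1 := H k hk0' K (by omega) (by omega)
      rw [← tail_sec hL hW hk hep hep1 (K := K) (by omega)] at h1
      have e : ((k - 1 : ℕ) : ℤ) - K = j := by omega
      rw [e] at h1
      have hn := nrm_pos hk
      have h2 : L / 2 < PBM.nrm k * Z k := by
        rw [Z_eq hk]
        exact hk1 k hk1'
      have h3 : Real.exp (-(d * ((k : ℝ) - K))) ≤ Real.exp (-(d * j)) := by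
        refine Real.exp_le_exp.2 ?_
        have h4 : (j : ℝ) ≤ (k : ℝ) - K := by
          have h5 : j + K ≤ k := by omega
          have h6 : (j : ℝ) + K ≤ k := by exact_mod_cast h5
          linarith
        nlinarith
      obtain ⟨T, hT⟩ : ∃ T, T = ∑' w : Saw k, (if (j : ℤ) ≤ cn w then wt w else 0) := ⟨_, rfl⟩
      have h4 := tail_two hk j
      rw [← hT] at h1 h4
      have h5 : PBM.nrm k * T ≤ C * (k : ℝ) ^ ε * Real.exp (-(d * j)) :=
        h1.trans (mul_le_mul_of_nonneg_left h3 (by positivity))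
      have h6 : T * (L / 2) ≤ C * (k : ℝ) ^ ε * Real.exp (-(d * j)) * Z k := by
        have hT0 : 0 ≤ T := by
          rw [hT]
          exact tsum_nonneg fun w => by split_ifs; exacts [(wt_pos w).le, le_rfl]
        calc T * (L / 2) ≤ T * (PBM.nrm k * Z k) := mul_le_mul_of_nonneg_left h2.le hT0
          _ = (PBM.nrm k * T) * Z k := by ring
          _ ≤ _ := mul_le_mul_of_nonneg_right h5 hZ.le
      have h7 : T ≤ 2 * C / L * ((k : ℝ) ^ ε * Real.exp (-(d * j)) * Z k) := by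
        have h8 : T = T * (L / 2) * (2 / L) := by field_simp
        rw [h8]
        calc T * (L / 2) * (2 / L) ≤ (C * (k : ℝ) ^ ε * Real.exp (-(d * j)) * Z k) * (2 / L) :=
              mul_le_mul_of_nonneg_right h6 (by positivity)
          _ = _ := by ring
      have h9 : 0 ≤ Real.exp (d * K0) * ((k : ℝ) ^ ε * Real.exp (-(d * j)) * Z k) := by positivity
      calc _ ≤ 2 * T := h4
        _ ≤ 2 * (2 * C / L * ((k : ℝ) ^ ε * Real.exp (-(d * j)) * Z k)) := by linarith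
        _ ≤ 2 * (2 * C / L * ((k : ℝ) ^ ε * Real.exp (-(d * j)) * Z k)) +
            Real.exp (d * K0) * ((k : ℝ) ^ ε * Real.exp (-(d * j)) * Z k) := by linarith
        _ = _ := by ring
  · -- no walks
    have h1 : ∑' w : Saw k, (if (j : ℤ) ≤ |cn w| then wt w else 0) = 0 := by
      have h0 : ∀ w : Saw k, (if (j : ℤ) ≤ |cn w| then wt w else 0) = 0 := by
        intro w
        have h2 := cn_lt hL hW hk w
        rw [if_neg]
        intro h3
        have h4 : ((j : ℕ) : ℤ) < (k : ℕ) := lt_of_le_of_lt h3 h2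
        omega
      simp_rw [h0]
      exact tsum_zero
    rw [h1]
    positivity

/-- **the exponential moments of the angle** -/
theorem expmom (hL : ∀ χ : ℂ, ‖χ‖ = 1 → Pool.Agent.WND.LatW χ) (hW : WalkW)
    (hB : PBM.TRP PBM.nrm) (hS : TailS) : ∀ ε : ℝ, 0 < ε → ∃ δ B : ℝ, 0 < δ ∧
      ∀ k : ℕ, 1 ≤ k → ∀ t : ℂ, ‖t‖ ≤ δ →
        Summable (fun w : Saw k => (wt w : ℂ) * Complex.exp (t * wang w)) ∧
        ‖∑' w : Saw k, (wt w : ℂ) * Complex.exp (t * wang w)‖ ≤ B * (k : ℝ) ^ ε * Z k := by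
  intro ε hε
  obtain ⟨C, d, hC, hd, H⟩ := tail_cn hL hW hB hS ε hε
  have hpi := Real.pi_pos
  refine ⟨d / (4 * Real.pi), C * (1 - Real.exp (-(d - d / 2)))⁻¹, by positivity,
    fun k hk t ht => ?_⟩
  have hZ := Z_pos hk
  obtain ⟨h1, h2⟩ := WNDT.exp_tail (w := wt (k := k)) (c := cn) (R := k) (A := C * (k : ℝ) ^ ε * Z k)
    (d := d) (τ := d / 2) (fun w => (wt_pos w).le) (summable_wt hk) (fun w => cn_lt hL hW hk w)
    (by positivity) (by linarith) fun j => (H k hk j).trans (le_of_eq (by ring))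
  have h3 : ∀ w : Saw k, ‖(wt w : ℂ) * Complex.exp (t * wang w)‖ ≤
      wt w * Real.exp (d / 2 * |(cn w : ℝ)|) := by
    intro w
    rw [norm_mul, Complex.norm_real, Real.norm_of_nonneg (wt_pos w).le, Complex.norm_exp]
    refine mul_le_mul_of_nonneg_left (Real.exp_le_exp.2 ?_) (wt_pos w).le
    rw [Complex.re_mul_ofReal, wang_eq hk]
    have h4 : |t.re| ≤ d / (4 * Real.pi) := (Complex.abs_re_le_norm t).trans ht
    calc t.re * -(2 * Real.pi * (cn w : ℝ)) ≤ |t.re * -(2 * Real.pi * (cn w : ℝ))| := le_abs_self _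
      _ = |t.re| * (2 * Real.pi * |(cn w : ℝ)|) := by
          rw [abs_mul, abs_neg, abs_mul, abs_of_pos (by positivity : (0 : ℝ) < 2 * Real.pi)]
      _ ≤ d / (4 * Real.pi) * (2 * Real.pi * |(cn w : ℝ)|) :=
          mul_le_mul_of_nonneg_right h4 (by positivity)
      _ = d / 2 * |(cn w : ℝ)| := by field_simp; ring
  refine ⟨Summable.of_norm_bounded h1 h3, ?_⟩
  refine (tsum_of_norm_bounded h1.hasSum h3).trans (h2.trans (le_of_eq (by ring)))

/-- **the crude bound of the moment generating function of the angle** -/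
theorem crude (hL : ∀ χ : ℂ, ‖χ‖ = 1 → Pool.Agent.WND.LatW χ) (hW : WalkW)
    (hB : PBM.TRP PBM.nrm) (hS : TailS) : ∀ ε : ℝ, 0 < ε → ∃ δ B : ℝ, 0 < δ ∧
      ∀ k : ℕ, 1 ≤ k → ∀ t : ℂ, ‖t‖ ≤ δ → ‖angMgf k t‖ ≤ B * (k : ℝ) ^ ε := by
  intro ε hε
  obtain ⟨δ, B, hδ, H⟩ := expmom hL hW hB hS ε hε
  refine ⟨δ, B, hδ, fun k hk t ht => ?_⟩
  have hZ := Z_pos hk
  unfold angMgf
  rw [norm_div, Complex.norm_real, Real.norm_of_nonneg hZ.le, div_le_iff₀ hZ]
  exact (H k hk t ht).2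

end Pool.Agent.CylSaw

end
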