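import Pool.Agent.PB.CylDef
import Mathlib.Analysis.SpecialFunctions.Complex.Circle
import Mathlib.Probability.Distributions.Gaussian.Real

/-!
# The winding of a self-avoiding walk on the honeycomb cylinder: the public definitions

The two antipodal cut edges (rows `0` and `k`) cut the ring of the edges between the columns `-1` and `0` into two
arcs. `wind w` = the algebraic number of crossings of the arc of the rows `0 < r < k` (from left to right minus from
right to left): the walk turns `wind w` times around its two ends.
-/

set_option autoImplicit false

namespace Pool.Agent.CylSaw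

/-- The step from `u` to `v` crosses the arc of the rows `0 < r < k` from left to right. -/
def Up {k : ℕ} (u v : V (2 * k)) : Prop :=
  ∃ r : ZMod (2 * k), 0 < r.val ∧ r.val < k ∧ u = (-1, r, true) ∧ v = (0, r, false)

/-- The algebraic number of crossings of the arc of the rows `0 < r < k`. -/
noncomputable def wind {k n : ℕ} (w : Fin (n + 1) → V (2 * k)) : ℤ :=
  ({i : Fin n | Up (w i.castSucc) (w i.succ)}.ncard : ℤ) - {i : Fin n | Up (w i.succ) (w i.castSucc)}.ncard

/-- All the self-avoiding walks between the two antipodal cut edges. -/
abbrev Saw (k : ℕ) : Type := Σ n : ℕ, saws k n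

/-- The weight of a walk (the two halves of the cut edges count as one edge). -/
noncomputable def wt {k : ℕ} (w : Saw k) : ℝ := zc ^ (w.1 + 1)

/-- The crossing number of a walk. -/
noncomputable def cn {k : ℕ} (w : Saw k) : ℤ := wind w.2.1

/-- The partition function. -/
noncomputable def Z (k : ℕ) : ℝ := ∑' w : Saw k, wt w

/-- The probability that the crossing number of the critical walk lies in `s`. -/
noncomputable def prob (k : ℕ) (s : Set ℤ) : ℝ := (∑' w : Saw k, s.indicator (fun _ => wt w) (cn w)) / Z k

/-- The expectation of `exp (i b cn)`. -/
noncomputable def chf (k : ℕ) (b : ℝ) : ℂ :=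
  (∑' w : Saw k, (wt w : ℂ) * Complex.exp (((b * cn w : ℝ) : ℂ) * Complex.I)) / (Z k : ℂ)

end Pool.Agent.CylSaw
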