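import Pool.Agent.WND.CLT

/-!
# Discrete laws: the law of a real valued function `X` under the weights `q` (helper85)

`dlaw q X = (1 / ∑ q) ∑ q i δ_(X i)`: probability, characteristic function, mass of a half line; and the passage from
weak convergence of the rescaled laws to the convergence of the distribution functions.
-/

set_option autoImplicit false

noncomputable section

open MeasureTheory ProbabilityTheory Filter Topology Complex

namespace WND

variable {ι : Type*}

/-- the law of `X` under the weights `q` -/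
def dlaw (q X : ι → ℝ) : Measure ℝ :=
  Measure.sum fun i => ENNReal.ofReal (q i / ∑' j, q j) • Measure.dirac (X i)

theorem dlaw_apply (q X : ι → ℝ) {s : Set ℝ} (hs : MeasurableSet s) :
    dlaw q X s = ∑' i, ENNReal.ofReal (q i / ∑' j, q j) * s.indicator 1 (X i) := by
  unfold dlaw
  rw [Measure.sum_apply _ hs]
  refine tsum_congr fun i => ?_
  rw [Measure.smul_apply, Measure.dirac_apply' _ hs, smul_eq_mul]

section

variable {q X : ι → ℝ} (hq : ∀ i, 0 ≤ q i) (hs : Summable q) (hp : 0 < ∑' i, q i)

include hq hs hp in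
theorem dlaw_apply_real {s : Set ℝ} (hm : MeasurableSet s) :
    (dlaw q X).real s = (∑' i, s.indicator (fun _ => q i) (X i)) / ∑' i, q i := by
  classical
  rw [Measure.real, dlaw_apply q X hm]
  have e : ∀ i, ENNReal.ofReal (q i / ∑' j, q j) * s.indicator 1 (X i) =
      ENNReal.ofReal (s.indicator (fun _ => q i) (X i) / ∑' j, q j) := by
    intro i
    by_cases h : X i ∈ s
    · rw [Set.indicator_of_mem h, Set.indicator_of_mem h, Pi.one_apply, mul_one]
    · rw [Set.indicator_of_notMem h, Set.indicator_of_notMem h, zero_div, ENNReal.ofReal_zero, mul_zero]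
  simp_rw [e]
  have h0 : ∀ i, 0 ≤ s.indicator (fun _ => q i) (X i) := fun i => Set.indicator_nonneg (fun _ _ => hq i) _
  have h1 : Summable fun i => s.indicator (fun _ => q i) (X i) := by
    refine hs.of_nonneg_of_le h0 fun i => ?_
    exact Set.indicator_le_self' (fun _ _ => hq i) _
  rw [← ENNReal.ofReal_tsum_of_nonneg (fun i => div_nonneg (h0 i) hp.le) (h1.div_const _),
    ENNReal.toReal_ofReal (tsum_nonneg fun i => div_nonneg (h0 i) hp.le), tsum_div_const]

include hq hs hp in
theorem dlaw_prob : IsProbabilityMeasure (dlaw q X) := by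
  constructor
  rw [dlaw_apply q X MeasurableSet.univ]
  simp only [Set.indicator_univ, Pi.one_apply, mul_one]
  rw [← ENNReal.ofReal_tsum_of_nonneg (fun i => div_nonneg (hq i) hp.le) (hs.div_const _), tsum_div_const,
    div_self hp.ne', ENNReal.ofReal_one]

include hq hs hp in
theorem charFun_dlaw (t : ℝ) :
    charFun (dlaw q X) t = (∑' i, (q i : ℂ) * exp (((t * X i : ℝ) : ℂ) * I)) / ((∑' i, q i : ℝ) : ℂ) := by
  haveI : IsProbabilityMeasure (dlaw q X) := dlaw_prob hq hs hp
  rw [charFun_apply_real]
  have hint : Integrable (fun x : ℝ => exp ((t : ℂ) * x * I)) (dlaw q X) := by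
    refine (integrable_const (1 : ℝ)).mono' ?_ (Eventually.of_forall fun x => ?_)
    · exact (by fun_prop : Continuous fun x : ℝ => exp ((t : ℂ) * x * I)).aestronglyMeasurable
    · have : (t : ℂ) * x * I = ((t * x : ℝ) : ℂ) * I := by push_cast; ring
      rw [this, norm_exp_ofReal_mul_I]
  have h1 := hasSum_integral_measure (μ := fun i => ENNReal.ofReal (q i / ∑' j, q j) • Measure.dirac (X i)) hint
  have h2 : ∀ i, ∫ x : ℝ, exp ((t : ℂ) * x * I) ∂(ENNReal.ofReal (q i / ∑' j, q j) • Measure.dirac (X i)) =
      (q i : ℂ) * exp (((t * X i : ℝ) : ℂ) * I) / ((∑' j, q j : ℝ) : ℂ) := by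
    intro i
    rw [integral_smul_measure, integral_dirac, ENNReal.toReal_ofReal (div_nonneg (hq i) hp.le)]
    rw [Complex.real_smul]
    push_cast
    ring
  have h3 := h1.tsum_eq
  simp_rw [h2] at h3
  rw [tsum_div_const] at h3
  exact h3.symm

end

/-- **distribution functions** -/
theorem cdf_of {Q : ℕ → ProbabilityMeasure ℝ} {s v : ℝ} (hv : 0 < v)
    (h : Tendsto (scal Q s) atTop (𝓝 (gau v))) (y : ℝ) :
    Tendsto (fun k : ℕ => (Q k : Measure ℝ).real {x : ℝ | s * x ≤ y * √(Real.log k)}) atTop
      (𝓝 ((gaussianReal 0 v.toNNReal).real (Set.Iic y))) := by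
  have hv' : v.toNNReal ≠ 0 := by
    rw [Ne, Real.toNNReal_eq_zero, not_le]; exact hv
  have h0 : (gau v : Measure ℝ) (frontier (Set.Iic y)) = 0 := by
    rw [frontier_Iic]
    have h1 : (gau v : Measure ℝ) = gaussianReal 0 v.toNNReal := rfl
    rw [h1]
    haveI := noAtoms_gaussianReal (μ := 0) hv'
    exact measure_singleton y
  have h1 := ProbabilityMeasure.tendsto_measure_of_null_frontier_of_tendsto' h h0
  have h2 : Tendsto (fun k => (scal Q s k : Measure ℝ).real (Set.Iic y)) atTop
      (𝓝 ((gaussianReal 0 v.toNNReal).real (Set.Iic y))) :=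
    (ENNReal.tendsto_toReal (measure_ne_top _ _)).comp h1
  refine h2.congr' ?_
  filter_upwards [eventually_ge_atTop 2] with k hk
  have hk1 : (1 : ℝ) < k := by exact_mod_cast hk
  have hl : 0 < √(Real.log k) := Real.sqrt_pos.2 (Real.log_pos hk1)
  have e : (scal Q s k : Measure ℝ) = (Q k : Measure ℝ).map (fun x => s / √(Real.log k) * x) := rfl
  rw [Measure.real, Measure.real, e, Measure.map_apply (by fun_prop) measurableSet_Iic]
  congr 2
  ext x
  simp only [Set.mem_preimage, Set.mem_Iic, Set.mem_setOf_eq]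
  rw [div_mul_eq_mul_div, div_le_iff₀ hl]

end WND

end
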