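import Pool.Agent.WND.CLT

/-!
# PLAN W, top level deduction (helper85)

`W k d` = the twisted physical two-point function, `zeta = exp (I π d)`; `r k` = the normaliser of plan B.

* `TRZ r W d0` : `r k * W k d = u_k G(d) k ^ (-(2/3) d ^ 2) + O(k ^ (-c))`, uniformly for `|d| ≤ d0`, one phase `u_k`
  for all `d`, `c > (2/3) d0 ^ 2`;
* `FunZ f g c d0` : `f N d * N ^ ((2/3) d ^ 2) = g d + O(N ^ (-c))`, uniformly (helper12's `FunW`);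
* `TR1Z r W f d0` : the transfer with the doubly dislocated function (helper24), `trz_of : FunZ → TR1Z → TRZ`;
* **`mod_of`** : `W k d / W k 0 * k ^ ((2/3) d ^ 2) = M d + O(k ^ (-c'))` uniformly, `M` continuous, `M 0 = 1`. Nothing
  is asked of `G` (continuity and boundedness come from the functions `W k`);
* **`clt_of`** : the central limit theorem, variance `16 / 3` for `2 π c / sqrt (log k)`.
-/

set_option autoImplicit false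

noncomputable section

open MeasureTheory ProbabilityTheory Filter Topology Complex

namespace WND

/-- **the transfer, twisted** -/
def TRZ (r : ℕ → ℝ) (W : ℕ → ℝ → ℂ) (d0 : ℝ) : Prop :=
  ∃ (c C : ℝ) (G : ℝ → ℂ) (u : ℕ → ℂ), 2 / 3 * d0 ^ 2 < c ∧ (∀ᶠ k : ℕ in atTop, ‖u k‖ = 1) ∧
    ∀ᶠ k : ℕ in atTop, ∀ d : ℝ, |d| ≤ d0 →
      ‖(r k : ℂ) * W k d - u k * (G d * (((k : ℝ) ^ (-(2 / 3 * d ^ 2)) : ℝ) : ℂ))‖ ≤ C * (k : ℝ) ^ (-c)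

/-- **function side**: `f N d` = the twisted doubly dislocated function of `N` rows `0` at `z = 0` -/
def FunZ (f : ℕ → ℝ → ℂ) (g : ℝ → ℂ) (c d0 : ℝ) : Prop :=
  ∃ C : ℝ, ∀ᶠ N : ℕ in atTop, ∀ d : ℝ, |d| ≤ d0 →
    ‖f N d - g d * (((N : ℝ) ^ (-(2 / 3 * d ^ 2)) : ℝ) : ℂ)‖ ≤ C * (N : ℝ) ^ (-c)

/-- **(TR) twisted**, with the function of `k - 1` rows -/
def TR1Z (r : ℕ → ℝ) (W f : ℕ → ℝ → ℂ) (d0 : ℝ) : Prop :=
  ∃ (c C K : ℝ) (κ : ℝ → ℂ) (u : ℕ → ℂ), 2 / 3 * d0 ^ 2 < c ∧ (∀ᶠ k : ℕ in atTop, ‖u k‖ = 1) ∧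
    (∀ d : ℝ, |d| ≤ d0 → ‖κ d‖ ≤ K) ∧
    ∀ᶠ k : ℕ in atTop, ∀ d : ℝ, |d| ≤ d0 →
      ‖(r k : ℂ) * W k d - u k * (κ d * f (k - 1) d)‖ ≤ C * (k : ℝ) ^ (-c)

/-! ### elementary estimates -/

theorem sq_le {d d0 : ℝ} (h : |d| ≤ d0) : d ^ 2 ≤ d0 ^ 2 := by
  have := sq_abs d
  rw [← this]
  exact pow_le_pow_left₀ (abs_nonneg d) h 2

theorem sub_one_rpow {c : ℝ} (hc : 0 ≤ c) {k : ℕ} (hk : 2 ≤ k) :
    ((k - 1 : ℕ) : ℝ) ^ (-c) ≤ 2 ^ c * (k : ℝ) ^ (-c) := by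
  have h1 : (1 : ℝ) ≤ k := by
    have : 1 ≤ k := by omega
    exact_mod_cast this
  have h2 : ((k - 1 : ℕ) : ℝ) = k - 1 := by
    rw [Nat.cast_sub (by omega)]
    norm_num
  have h3 : (k : ℝ) / 2 ≤ ((k - 1 : ℕ) : ℝ) := by
    rw [h2]
    have : (2 : ℝ) ≤ k := by exact_mod_cast hk
    linarith
  calc ((k - 1 : ℕ) : ℝ) ^ (-c) ≤ ((k : ℝ) / 2) ^ (-c) :=
        Real.rpow_le_rpow_of_nonpos (by linarith) h3 (by linarith)
    _ = 2 ^ c * (k : ℝ) ^ (-c) := by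
        rw [Real.div_rpow (by linarith) (by norm_num), Real.rpow_neg (by norm_num : (0 : ℝ) ≤ 2)]
        field_simp

/-- `(k - 1) ^ (-v) - k ^ (-v) = O(1 / k)` for `0 ≤ v ≤ 1` -/
theorem sub_one_rpow_sub {v : ℝ} (hv : 0 ≤ v) (hv1 : v ≤ 1) {k : ℕ} (hk : 2 ≤ k) :
    |((k - 1 : ℕ) : ℝ) ^ (-v) - (k : ℝ) ^ (-v)| ≤ 2 * (k : ℝ) ^ (-(1 : ℝ)) := by
  have hk2 : (2 : ℝ) ≤ k := by exact_mod_cast hk
  have hk0 : (0 : ℝ) < k := by linarith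
  have h2 : ((k - 1 : ℕ) : ℝ) = k - 1 := by
    rw [Nat.cast_sub (by omega)]
    norm_num
  rw [h2]
  have hk1 : (1 : ℝ) ≤ (k : ℝ) - 1 := by linarith
  have h3 : (k : ℝ) ^ (-v) ≤ ((k : ℝ) - 1) ^ (-v) :=
    Real.rpow_le_rpow_of_nonpos (by linarith) (by linarith) (by linarith)
  rw [abs_of_nonneg (by linarith)]
  -- `(1 - 1 / k) ^ v ≥ 1 - 1 / k`
  have h5 : (1 : ℝ) - 1 / k ≤ (1 - 1 / (k : ℝ)) ^ v := by
    have hx0 : (0 : ℝ) < 1 - 1 / k := by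
      have : 1 / (k : ℝ) ≤ 1 / 2 := one_div_le_one_div_of_le (by norm_num) hk2
      linarith
    have hx1 : (1 : ℝ) - 1 / k ≤ 1 := by
      have : 0 ≤ 1 / (k : ℝ) := by positivity
      linarith
    calc (1 : ℝ) - 1 / k = (1 - 1 / (k : ℝ)) ^ (1 : ℝ) := (Real.rpow_one _).symm
      _ ≤ (1 - 1 / (k : ℝ)) ^ v := Real.rpow_le_rpow_of_exponent_ge hx0 hx1 hv1
  have h6 : ((k : ℝ) - 1) ^ (-v) * (1 - 1 / (k : ℝ)) ^ v = (k : ℝ) ^ (-v) := by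
    have e : (k : ℝ) - 1 = k * (1 - 1 / k) := by field_simp
    have hx0 : (0 : ℝ) < 1 - 1 / k := by
      have : 1 / (k : ℝ) ≤ 1 / 2 := one_div_le_one_div_of_le (by norm_num) hk2
      linarith
    rw [e, Real.mul_rpow hk0.le hx0.le, mul_assoc, ← Real.rpow_add hx0]
    simp
  have h7 : 0 ≤ ((k : ℝ) - 1) ^ (-v) := by positivity
  have h8 : ((k : ℝ) - 1) ^ (-v) ≤ 1 := by
    calc ((k : ℝ) - 1) ^ (-v) ≤ (1 : ℝ) ^ (-v) := Real.rpow_le_rpow_of_nonpos one_pos hk1 (by linarith)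
      _ = 1 := Real.one_rpow _
  rw [Real.rpow_neg_one, ← h6]
  have h9 : ((k : ℝ) - 1) ^ (-v) - ((k : ℝ) - 1) ^ (-v) * (1 - 1 / (k : ℝ)) ^ v =
      ((k : ℝ) - 1) ^ (-v) * (1 - (1 - 1 / (k : ℝ)) ^ v) := by ring
  rw [h9]
  have h10 : 1 - (1 - 1 / (k : ℝ)) ^ v ≤ 1 / k := by linarith
  have h11 : (0 : ℝ) ≤ 1 / k := by positivity
  calc ((k : ℝ) - 1) ^ (-v) * (1 - (1 - 1 / (k : ℝ)) ^ v) ≤ ((k : ℝ) - 1) ^ (-v) * (1 / k) :=
        mul_le_mul_of_nonneg_left h10 h7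
    _ ≤ 1 * (1 / k) := mul_le_mul_of_nonneg_right h8 h11
    _ ≤ 2 * (k : ℝ)⁻¹ := by rw [one_mul, one_div]; linarith [inv_pos.2 hk0]

/-! ### the second level gives the first -/

theorem trz_of {r : ℕ → ℝ} {W f : ℕ → ℝ → ℂ} {g : ℝ → ℂ} {c0 d0 : ℝ} (hd0 : 0 ≤ d0) (hd1 : d0 ≤ 1)
    (hc0 : 2 / 3 * d0 ^ 2 < c0) {B : ℝ} (hg : ∀ d : ℝ, |d| ≤ d0 → ‖g d‖ ≤ B)
    (hf : FunZ f g c0 d0) (hT : TR1Z r W f d0) : TRZ r W d0 := by
  obtain ⟨c, C, K, κ, u, hc, hu, hκ, hTR⟩ := hT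
  obtain ⟨C1, hC1⟩ := hf
  have hsq : d0 ^ 2 ≤ 1 := by
    have := pow_le_pow_left₀ hd0 hd1 2
    simpa using this
  have hsq0 : 0 ≤ d0 ^ 2 := sq_nonneg _
  obtain ⟨c', hc'⟩ : ∃ c', c' = min (min c c0) 1 := ⟨_, rfl⟩
  have h1 : c' ≤ c := by rw [hc']; exact (min_le_left _ _).trans (min_le_left _ _)
  have h2 : c' ≤ c0 := by rw [hc']; exact (min_le_left _ _).trans (min_le_right _ _)
  have h3 : c' ≤ 1 := by rw [hc']; exact min_le_right _ _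
  have hcp : 2 / 3 * d0 ^ 2 < c' := by
    rw [hc']
    exact lt_min (lt_min hc hc0) (by linarith)
  have hc00 : 0 ≤ c0 := by linarith
  have hB : 0 ≤ B := (norm_nonneg (g 0)).trans (hg 0 (by simpa using hd0))
  have hK : 0 ≤ K := (norm_nonneg (κ 0)).trans (hκ 0 (by simpa using hd0))
  refine ⟨c', |C| + K * (|C1| * 2 ^ c0 + B * 2), fun d => κ d * g d, u, hcp, hu, ?_⟩
  have ht : Tendsto (fun k : ℕ => k - 1) atTop atTop := tendsto_sub_atTop_nat 1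
  filter_upwards [hTR, hu, ht.eventually hC1, eventually_ge_atTop 2] with k e1 e2 e3 hk d hd
  have hk1 : (1 : ℝ) ≤ k := by
    have : 1 ≤ k := by omega
    exact_mod_cast this
  have hv : 0 ≤ 2 / 3 * d ^ 2 := by positivity
  have hv1 : 2 / 3 * d ^ 2 ≤ 1 := by linarith [sq_le hd]
  have e4 := sub_one_rpow (c := c0) hc00 hk
  have e6 := sub_one_rpow_sub hv hv1 hk
  have m1 : (k : ℝ) ^ (-c) ≤ (k : ℝ) ^ (-c') := Real.rpow_le_rpow_of_exponent_le hk1 (by linarith)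
  have m2 : (k : ℝ) ^ (-c0) ≤ (k : ℝ) ^ (-c') := Real.rpow_le_rpow_of_exponent_le hk1 (by linarith)
  have m3 : (k : ℝ) ^ (-(1 : ℝ)) ≤ (k : ℝ) ^ (-c') := Real.rpow_le_rpow_of_exponent_le hk1 (by linarith)
  have p1 : 0 ≤ (k : ℝ) ^ (-c) := by positivity
  have p2 : 0 ≤ ((k - 1 : ℕ) : ℝ) ^ (-c0) := by positivity
  have p3 : 0 ≤ (k : ℝ) ^ (-c') := by positivity
  set a : ℂ := ((((k - 1 : ℕ) : ℝ) ^ (-(2 / 3 * d ^ 2)) : ℝ) : ℂ) with ha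
  set b : ℂ := (((k : ℝ) ^ (-(2 / 3 * d ^ 2)) : ℝ) : ℂ) with hb
  have e5 : (r k : ℂ) * W k d - u k * (κ d * g d * b) =
      ((r k : ℂ) * W k d - u k * (κ d * f (k - 1) d)) +
      (u k * (κ d * (f (k - 1) d - g d * a)) + u k * (κ d * (g d * (a - b)))) := by
    ring
  have hab : ‖a - b‖ ≤ 2 * (k : ℝ) ^ (-(1 : ℝ)) := by
    rw [ha, hb, ← ofReal_sub, norm_real, Real.norm_eq_abs]
    exact e6
  rw [e5]
  refine (norm_add_le _ _).trans ?_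
  have t1 : ‖(r k : ℂ) * W k d - u k * (κ d * f (k - 1) d)‖ ≤ |C| * (k : ℝ) ^ (-c') :=
    calc _ ≤ C * (k : ℝ) ^ (-c) := e1 d hd
      _ ≤ |C| * (k : ℝ) ^ (-c) := mul_le_mul_of_nonneg_right (le_abs_self C) p1
      _ ≤ |C| * (k : ℝ) ^ (-c') := mul_le_mul_of_nonneg_left m1 (abs_nonneg C)
  have t2 : ‖f (k - 1) d - g d * a‖ ≤ |C1| * 2 ^ c0 * (k : ℝ) ^ (-c') :=
    calc _ ≤ C1 * ((k - 1 : ℕ) : ℝ) ^ (-c0) := e3 d hd
      _ ≤ |C1| * ((k - 1 : ℕ) : ℝ) ^ (-c0) := mul_le_mul_of_nonneg_right (le_abs_self C1) p2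
      _ ≤ |C1| * (2 ^ c0 * (k : ℝ) ^ (-c0)) := mul_le_mul_of_nonneg_left e4 (abs_nonneg C1)
      _ ≤ |C1| * (2 ^ c0 * (k : ℝ) ^ (-c')) :=
          mul_le_mul_of_nonneg_left (mul_le_mul_of_nonneg_left m2 (by positivity)) (abs_nonneg C1)
      _ = |C1| * 2 ^ c0 * (k : ℝ) ^ (-c') := by ring
  have t3 : ‖g d * (a - b)‖ ≤ B * 2 * (k : ℝ) ^ (-c') := by
    rw [norm_mul]
    calc ‖g d‖ * ‖a - b‖ ≤ B * (2 * (k : ℝ) ^ (-(1 : ℝ))) := by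
          refine mul_le_mul (hg d hd) hab (norm_nonneg _) hB
      _ ≤ B * (2 * (k : ℝ) ^ (-c')) := mul_le_mul_of_nonneg_left (by linarith) hB
      _ = B * 2 * (k : ℝ) ^ (-c') := by ring
  have t4 : ‖u k * (κ d * (f (k - 1) d - g d * a)) + u k * (κ d * (g d * (a - b)))‖ ≤
      K * (|C1| * 2 ^ c0 + B * 2) * (k : ℝ) ^ (-c') := by
    refine (norm_add_le _ _).trans ?_
    rw [norm_mul, norm_mul, norm_mul (u k), norm_mul (κ d), e2, one_mul, one_mul]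
    have s1 : ‖κ d‖ * ‖f (k - 1) d - g d * a‖ ≤ K * (|C1| * 2 ^ c0 * (k : ℝ) ^ (-c')) :=
      mul_le_mul (hκ d hd) t2 (norm_nonneg _) hK
    have s2 : ‖κ d‖ * ‖g d * (a - b)‖ ≤ K * (B * 2 * (k : ℝ) ^ (-c')) :=
      mul_le_mul (hκ d hd) t3 (norm_nonneg _) hK
    calc _ ≤ K * (|C1| * 2 ^ c0 * (k : ℝ) ^ (-c')) + K * (B * 2 * (k : ℝ) ^ (-c')) := add_le_add s1 s2
      _ = K * (|C1| * 2 ^ c0 + B * 2) * (k : ℝ) ^ (-c') := by ring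
  calc _ ≤ |C| * (k : ℝ) ^ (-c') + K * (|C1| * 2 ^ c0 + B * 2) * (k : ℝ) ^ (-c') := add_le_add t1 t4
    _ = _ := by ring

/-! ### the ratio -/

/-- **mod-Gaussian convergence with a rate, from the twisted transfer.** -/
theorem mod_of {r : ℕ → ℝ} {W : ℕ → ℝ → ℂ} {d0 L : ℝ} (hd0 : 0 ≤ d0) (hT : TRZ r W d0) (hL : 0 < L)
    (hW0 : Tendsto (fun k : ℕ => ‖(r k : ℂ) * W k 0‖) atTop (𝓝 L))
    (hWn : ∀ᶠ k : ℕ in atTop, ∀ d : ℝ, ‖W k d‖ ≤ ‖W k 0‖)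
    (hWc : ∀ᶠ k : ℕ in atTop, Continuous (W k)) :
    ∃ (c C : ℝ) (M : ℝ → ℂ), 0 < c ∧ 0 ≤ C ∧ ContinuousOn M (Set.Icc (-d0) d0) ∧ M 0 = 1 ∧
      ∀ᶠ k : ℕ in atTop, W k 0 ≠ 0 ∧ ∀ d : ℝ, |d| ≤ d0 →
        ‖W k d / W k 0 * (((k : ℝ) ^ (2 / 3 * d ^ 2) : ℝ) : ℂ) - M d‖ ≤ C * (k : ℝ) ^ (-c) := by
  obtain ⟨c, C0, G, u, hc, hu, hTR0⟩ := hT
  -- a nonnegative constant
  obtain ⟨C, hCdef⟩ : ∃ C, C = |C0| := ⟨_, rfl⟩
  have hC : 0 ≤ C := by rw [hCdef]; exact abs_nonneg _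
  have hTR : ∀ᶠ k : ℕ in atTop, ∀ d : ℝ, |d| ≤ d0 →
      ‖(r k : ℂ) * W k d - u k * (G d * (((k : ℝ) ^ (-(2 / 3 * d ^ 2)) : ℝ) : ℂ))‖ ≤ C * (k : ℝ) ^ (-c) := by
    filter_upwards [hTR0] with k h d hd
    exact (h d hd).trans (mul_le_mul_of_nonneg_right (by rw [hCdef]; exact le_abs_self _) (by positivity))
  have hsq0 : 0 ≤ d0 ^ 2 := sq_nonneg _
  have hc0 : 0 < c := by linarith
  -- the value at `0`
  have hR0 : ∀ᶠ k : ℕ in atTop, ‖(r k : ℂ) * W k 0 - u k * G 0‖ ≤ C * (k : ℝ) ^ (-c) := by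
    filter_upwards [hTR] with k h
    have := h 0 (by simpa using hd0)
    simpa using this
  have hk0 : Tendsto (fun k : ℕ => C * (k : ℝ) ^ (-c)) atTop (𝓝 0) := by
    have h3 := (tendsto_rpow_neg_atTop hc0).comp tendsto_natCast_atTop_atTop
    simpa using h3.const_mul C
  have hG0 : ‖G 0‖ = L := by
    have h1 : Tendsto (fun k : ℕ => ‖(r k : ℂ) * W k 0‖ - ‖G 0‖) atTop (𝓝 0) := by
      refine squeeze_zero_norm' ?_ hk0
      filter_upwards [hR0, hu] with k h h'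
      have h4 : ‖G 0‖ = ‖u k * G 0‖ := by rw [norm_mul, h', one_mul]
      rw [h4, Real.norm_eq_abs]
      exact (abs_norm_sub_norm_le _ _).trans h
    have h2 := hW0.sub_const ‖G 0‖
    have h3 := tendsto_nhds_unique h1 h2
    linarith
  have hG0' : G 0 ≠ 0 := by
    rw [← norm_pos_iff, hG0]; exact hL
  -- `G` is bounded
  obtain ⟨B, hB0, hB⟩ : ∃ B : ℝ, 0 ≤ B ∧ ∀ d : ℝ, |d| ≤ d0 → ‖G d‖ ≤ B := by
    obtain ⟨k, ⟨h1, h2⟩, ⟨h3, h4⟩⟩ := ((hTR.and hu).and (hWn.and (eventually_ge_atTop 1))).exists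
    have hk1 : (1 : ℝ) ≤ k := by exact_mod_cast h4
    refine ⟨(‖(r k : ℂ)‖ * ‖W k 0‖ + C * (k : ℝ) ^ (-c)) * (k : ℝ) ^ (2 / 3 * d0 ^ 2), by positivity,
      fun d hd => ?_⟩
    have h5 := h1 d hd
    have hk0 : (0 : ℝ) < k := by linarith
    have h6 : ‖u k * (G d * (((k : ℝ) ^ (-(2 / 3 * d ^ 2)) : ℝ) : ℂ))‖ = ‖G d‖ * (k : ℝ) ^ (-(2 / 3 * d ^ 2)) := by
      rw [norm_mul, norm_mul, h2, one_mul, norm_real, Real.norm_of_nonneg (by positivity)]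
    have h7 : ‖u k * (G d * (((k : ℝ) ^ (-(2 / 3 * d ^ 2)) : ℝ) : ℂ))‖ ≤
        ‖(r k : ℂ) * W k d‖ + C * (k : ℝ) ^ (-c) := by
      have := norm_sub_norm_le (u k * (G d * (((k : ℝ) ^ (-(2 / 3 * d ^ 2)) : ℝ) : ℂ))) ((r k : ℂ) * W k d)
      rw [norm_sub_rev] at this
      linarith
    rw [h6, norm_mul] at h7
    have h8 : ‖G d‖ = ‖G d‖ * (k : ℝ) ^ (-(2 / 3 * d ^ 2)) * (k : ℝ) ^ (2 / 3 * d ^ 2) := by
      rw [mul_assoc, ← Real.rpow_add hk0]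
      simp
    have h9 : (k : ℝ) ^ (2 / 3 * d ^ 2) ≤ (k : ℝ) ^ (2 / 3 * d0 ^ 2) :=
      Real.rpow_le_rpow_of_exponent_le hk1 (by linarith [sq_le hd])
    rw [h8]
    have h10 : ‖(r k : ℂ)‖ * ‖W k d‖ ≤ ‖(r k : ℂ)‖ * ‖W k 0‖ :=
      mul_le_mul_of_nonneg_left (h3 d) (norm_nonneg _)
    refine mul_le_mul (by linarith) h9 (by positivity) (by positivity)
  -- the ratio
  obtain ⟨c', hc'⟩ : ∃ c', c' = c - 2 / 3 * d0 ^ 2 := ⟨_, rfl⟩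
  have hc'0 : 0 < c' := by rw [hc']; linarith
  obtain ⟨C', hC'⟩ : ∃ C', C' = (C * L + B * C) / (L / 2 * L) := ⟨_, rfl⟩
  have hC'0 : 0 ≤ C' := by rw [hC']; positivity
  have hlow : ∀ᶠ k : ℕ in atTop, L / 2 ≤ ‖(r k : ℂ) * W k 0‖ := by
    filter_upwards [hW0.eventually (lt_mem_nhds (show L / 2 < L by linarith))] with k h
    exact h.le
  have hmain : ∀ᶠ k : ℕ in atTop, W k 0 ≠ 0 ∧ ∀ d : ℝ, |d| ≤ d0 →
      ‖W k d / W k 0 * (((k : ℝ) ^ (2 / 3 * d ^ 2) : ℝ) : ℂ) - G d / G 0‖ ≤ C' * (k : ℝ) ^ (-c') := by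
    filter_upwards [hTR, hR0, hlow, hu, eventually_ge_atTop 1] with k h1 h2 h3 h4 hk
    have hk1 : (1 : ℝ) ≤ k := by exact_mod_cast hk
    have hk0 : (0 : ℝ) < k := by linarith
    have hY : (r k : ℂ) * W k 0 ≠ 0 := by
      rw [← norm_pos_iff]; linarith
    have hr : (r k : ℂ) ≠ 0 := left_ne_zero_of_mul hY
    have hw : W k 0 ≠ 0 := right_ne_zero_of_mul hY
    refine ⟨hw, fun d hd => ?_⟩
    have h5 := h1 d hd
    obtain ⟨P, hP⟩ : ∃ P : ℝ, P = (k : ℝ) ^ (2 / 3 * d ^ 2) := ⟨_, rfl⟩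
    have hP1 : (k : ℝ) ^ (-(2 / 3 * d ^ 2)) * P = 1 := by
      rw [hP, ← Real.rpow_add hk0]; simp
    have hP0 : 0 < P := by rw [hP]; positivity
    have hPl : P ≤ (k : ℝ) ^ (2 / 3 * d0 ^ 2) := by
      rw [hP]; exact Real.rpow_le_rpow_of_exponent_le hk1 (by linarith [sq_le hd])
    obtain ⟨e1, he1⟩ : ∃ e1 : ℂ, e1 = (r k : ℂ) * W k d -
      u k * (G d * (((k : ℝ) ^ (-(2 / 3 * d ^ 2)) : ℝ) : ℂ)) := ⟨_, rfl⟩
    obtain ⟨e0, he0⟩ : ∃ e0 : ℂ, e0 = (r k : ℂ) * W k 0 - u k * G 0 := ⟨_, rfl⟩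
    rw [← he1] at h5
    rw [← he0] at h2
    rw [← hP]
    have hPc : (((k : ℝ) ^ (-(2 / 3 * d ^ 2)) : ℝ) : ℂ) * (P : ℂ) = 1 := by
      rw [← ofReal_mul, hP1, ofReal_one]
    have h6 : W k d / W k 0 * (P : ℂ) - G d / G 0 =
        (e1 * P * G 0 - G d * e0) / ((r k : ℂ) * W k 0 * G 0) := by
      have h7 : W k d / W k 0 = ((r k : ℂ) * W k d) / ((r k : ℂ) * W k 0) := by
        rw [mul_div_mul_left _ _ hr]
      rw [h7, eq_div_iff (mul_ne_zero hY hG0')]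
      have h8 : ((r k : ℂ) * W k d / ((r k : ℂ) * W k 0) * (P : ℂ) - G d / G 0) * ((r k : ℂ) * W k 0 * G 0) =
          (r k : ℂ) * W k d * P * G 0 - G d * ((r k : ℂ) * W k 0) := by
        field_simp
      rw [h8]
      have h9 : (r k : ℂ) * W k d = e1 + u k * (G d * (((k : ℝ) ^ (-(2 / 3 * d ^ 2)) : ℝ) : ℂ)) := by
        rw [he1]; ring
      have h10 : (r k : ℂ) * W k 0 = e0 + u k * G 0 := by rw [he0]; ring
      rw [h9, h10]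
      linear_combination (u k * G d * G 0) * hPc
    rw [h6, norm_div, norm_mul ((r k : ℂ) * W k 0), hG0]
    have h11 : ‖e1 * P * G 0 - G d * e0‖ ≤ (C * L + B * C) * (k : ℝ) ^ (-c') := by
      refine (norm_sub_le _ _).trans ?_
      rw [norm_mul, norm_mul, norm_mul, hG0, norm_real, Real.norm_of_nonneg hP0.le]
      have q0 : (k : ℝ) ^ (-c) * (k : ℝ) ^ (2 / 3 * d0 ^ 2) = (k : ℝ) ^ (-c') := by
        rw [← Real.rpow_add hk0, hc']; congr 1; ring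
      have q1 : ‖e1‖ * P ≤ C * (k : ℝ) ^ (-c') := by
        calc ‖e1‖ * P ≤ C * (k : ℝ) ^ (-c) * (k : ℝ) ^ (2 / 3 * d0 ^ 2) :=
              mul_le_mul h5 hPl hP0.le (by positivity)
          _ = C * (k : ℝ) ^ (-c') := by rw [mul_assoc, q0]
      have q2 : (k : ℝ) ^ (-c) ≤ (k : ℝ) ^ (-c') :=
        Real.rpow_le_rpow_of_exponent_le hk1 (by rw [hc']; linarith)
      have q3 : ‖e0‖ ≤ C * (k : ℝ) ^ (-c') := h2.trans (mul_le_mul_of_nonneg_left q2 hC)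
      have q4 : ‖G d‖ * ‖e0‖ ≤ B * (C * (k : ℝ) ^ (-c')) := mul_le_mul (hB d hd) q3 (norm_nonneg _) hB0
      have q5 : ‖e1‖ * P * L ≤ C * (k : ℝ) ^ (-c') * L := mul_le_mul_of_nonneg_right q1 hL.le
      calc _ ≤ C * (k : ℝ) ^ (-c') * L + B * (C * (k : ℝ) ^ (-c')) := add_le_add q5 q4
        _ = _ := by ring
    rw [div_le_iff₀ (by positivity)]
    have h12 : (C * L + B * C) * (k : ℝ) ^ (-c') = C' * (k : ℝ) ^ (-c') * (L / 2 * L) := by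
      rw [hC']; field_simp
    have h13 : 0 ≤ C' * (k : ℝ) ^ (-c') := by positivity
    calc _ ≤ (C * L + B * C) * (k : ℝ) ^ (-c') := h11
      _ = C' * (k : ℝ) ^ (-c') * (L / 2 * L) := h12
      _ ≤ C' * (k : ℝ) ^ (-c') * (‖(r k : ℂ) * W k 0‖ * L) :=
          mul_le_mul_of_nonneg_left (mul_le_mul_of_nonneg_right h3 hL.le) h13
  refine ⟨c', C', fun d => G d / G 0, hc'0, hC'0, ?_, div_self hG0', hmain⟩
  -- continuity
  have hk0' : Tendsto (fun k : ℕ => C' * (k : ℝ) ^ (-c')) atTop (𝓝 0) := by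
    have h3 := (tendsto_rpow_neg_atTop hc'0).comp tendsto_natCast_atTop_atTop
    simpa using h3.const_mul C'
  have hun : TendstoUniformlyOn (fun (k : ℕ) (d : ℝ) => W k d / W k 0 * (((k : ℝ) ^ (2 / 3 * d ^ 2) : ℝ) : ℂ))
      (fun d => G d / G 0) atTop (Set.Icc (-d0) d0) := by
    rw [Metric.tendstoUniformlyOn_iff]
    intro e he
    filter_upwards [hmain, hk0'.eventually (gt_mem_nhds he)] with k h1 h2 d hd
    rw [dist_comm, dist_eq_norm]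
    exact (h1.2 d (abs_le.2 hd)).trans_lt h2
  refine hun.continuousOn (Eventually.frequently ?_)
  filter_upwards [hWc, eventually_ge_atTop 1] with k h1 hk
  have hk0 : (0 : ℝ) < k := by exact_mod_cast hk
  refine Continuous.continuousOn ?_
  refine (h1.div_const _).mul (continuous_ofReal.comp ?_)
  exact Continuous.rpow continuous_const (by fun_prop) fun _ => Or.inl hk0.ne'

/-- **the central limit theorem for the winding**: `Q k` the law of the crossing number. -/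
theorem clt_of {W : ℕ → ℝ → ℂ} {d0 c C : ℝ} {M : ℝ → ℂ} (hd0 : 0 < d0) (hc : 0 < c)
    (hMc : ContinuousOn M (Set.Icc (-d0) d0)) (hM0 : M 0 = 1)
    (hM : ∀ᶠ k : ℕ in atTop, ∀ d : ℝ, |d| ≤ d0 →
        ‖W k d / W k 0 * (((k : ℝ) ^ (2 / 3 * d ^ 2) : ℝ) : ℂ) - M d‖ ≤ C * (k : ℝ) ^ (-c))
    {Q : ℕ → ProbabilityMeasure ℝ}
    (hQ : ∀ᶠ k : ℕ in atTop, ∀ d : ℝ, charFun (Q k : Measure ℝ) (Real.pi * d) = W k d / W k 0) :
    Tendsto (scal Q (2 * Real.pi)) atTop (𝓝 (gau (16 / 3))) := by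
  have hpi := Real.pi_pos
  have e1 : (16 : ℝ) / 3 = 2 * (2 / (3 * Real.pi ^ 2)) * (2 * Real.pi) ^ 2 := by field_simp; ring
  rw [e1]
  refine clt_of_mod (a := 2 / (3 * Real.pi ^ 2)) (s := 2 * Real.pi) (b0 := Real.pi * d0)
    (M := fun b => M (b / Real.pi)) (by positivity) (by positivity) ?_ ?_ ?_
  · have h1 : ContinuousAt M 0 := by
      refine hMc.continuousAt (Icc_mem_nhds (by linarith) hd0)
    have h2 : ContinuousAt (fun b : ℝ => b / Real.pi) 0 := by fun_prop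
    have h3 : ContinuousAt M ((fun b : ℝ => b / Real.pi) 0) := by
      simpa using h1
    exact ContinuousAt.comp h3 h2
  · simpa using hM0
  · intro e he
    have hk0 : Tendsto (fun k : ℕ => C * (k : ℝ) ^ (-c)) atTop (𝓝 0) := by
      have h3 := (tendsto_rpow_neg_atTop hc).comp tendsto_natCast_atTop_atTop
      simpa using h3.const_mul C
    filter_upwards [hM, hQ, hk0.eventually (gt_mem_nhds he)] with k h1 h2 h3 b hb
    have h4 : |b / Real.pi| ≤ d0 := by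
      rw [abs_div, abs_of_pos hpi, div_le_iff₀ hpi]
      linarith
    have h5 := h1 (b / Real.pi) h4
    have h6 := h2 (b / Real.pi)
    have h7 : Real.pi * (b / Real.pi) = b := by field_simp
    rw [h7] at h6
    rw [h6]
    have h8 : (2 : ℝ) / (3 * Real.pi ^ 2) * b ^ 2 = 2 / 3 * (b / Real.pi) ^ 2 := by field_simp
    rw [h8]
    exact h5.trans h3.le

end WND

end
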