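import Pool.Agent.PB.CylMain
import Pool.Agent.WND.CylDef
import Pool.Agent.WND.Main
import Pool.Agent.WND.Law

/-!
# PLAN W: the final statement from the twisted transfer (helper85)

`Wz k d` = the sum over the walks of `zc ^ (n + 1) * exp (i π d * wind w)`.
`wind_main`: `TRZ PBM.nrm Wz d0` (and plan B) give the mod-Gaussian convergence for all `k ≥ 1` and the central limit
theorem.
-/

set_option autoImplicit false

noncomputable section

namespace Pool.Agent.CylSaw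

open Filter Topology MeasureTheory ProbabilityTheory

/-- **the twisted two-point function** -/
def Wz (k : ℕ) (d : ℝ) : ℂ :=
  ∑' w : Saw k, (wt w : ℂ) * Complex.exp (((Real.pi * d * cn w : ℝ) : ℂ) * Complex.I)

theorem zc_pos : 0 < zc := by
  unfold zc
  have : 0 ≤ √2 := Real.sqrt_nonneg _
  positivity

theorem wt_pos {k : ℕ} (w : Saw k) : 0 < wt w := pow_pos zc_pos _

theorem wd_finite (k n : ℕ) : (Wd k n).Finite := by
  refine (List.finite_length_eq Bool (n + 1)).subset fun t ht => ht.1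

theorem saws_finite {k : ℕ} (hk : 1 ≤ k) (n : ℕ) : (saws k n).Finite := by
  refine ((wd_finite k n).image (wk k n)).subset fun w hw => ?_
  obtain ⟨t, ht, e⟩ := wk_surj hk hw
  exact ⟨t, ht, e⟩

theorem hasSum_wt {k : ℕ} (hk : 1 ≤ k) : HasSum (wt (k := k)) (PBM.W0r k) := by
  have h1 := hasSum_W0r hk
  have hf : ∀ n, HasSum (fun w : saws k n => wt (k := k) ⟨n, w⟩) (((saws k n).ncard : ℝ) * zc ^ (n + 1)) := by
    intro n
    haveI : Finite (saws k n) := (saws_finite hk n).to_subtype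
    haveI : Fintype (saws k n) := Fintype.ofFinite _
    have h2 := hasSum_fintype (fun w : saws k n => wt (k := k) ⟨n, w⟩)
    have h3 : ∑ w : saws k n, wt (k := k) ⟨n, w⟩ = ((saws k n).ncard : ℝ) * zc ^ (n + 1) := by
      have h4 : ∀ w : saws k n, wt (k := k) ⟨n, w⟩ = zc ^ (n + 1) := fun _ => rfl
      simp_rw [h4]
      rw [Finset.sum_const, Finset.card_univ, nsmul_eq_mul, ← Nat.card_coe_set_eq, Nat.card_eq_fintype_card]
    rwa [h3] at h2
  have hs : Summable (wt (k := k)) := by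
    rw [summable_sigma_of_nonneg fun w => (wt_pos w).le]
    refine ⟨fun n => (hf n).summable, ?_⟩
    have h5 : (fun n => ∑' w : saws k n, wt (k := k) ⟨n, w⟩) =
        fun n => ((saws k n).ncard : ℝ) * zc ^ (n + 1) := funext fun n => (hf n).tsum_eq
    rw [h5]
    exact h1.summable
  have h6 := hs.hasSum.sigma hf
  have h7 := hs.hasSum
  have h8 : ∑' w : Saw k, wt w = PBM.W0r k := h6.unique h1
  rwa [h8] at h7

theorem Z_eq {k : ℕ} (hk : 1 ≤ k) : Z k = PBM.W0r k := (hasSum_wt hk).tsum_eq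

theorem summable_wt {k : ℕ} (hk : 1 ≤ k) : Summable (wt (k := k)) := (hasSum_wt hk).summable

theorem norm_term {k : ℕ} (w : Saw k) (x : ℝ) :
    ‖(wt w : ℂ) * Complex.exp ((x : ℂ) * Complex.I)‖ = wt w := by
  rw [norm_mul, Complex.norm_exp_ofReal_mul_I, mul_one, Complex.norm_real, Real.norm_of_nonneg (wt_pos w).le]

theorem Wz_zero (k : ℕ) : Wz k 0 = (Z k : ℂ) := by
  unfold Wz Z
  rw [Complex.ofReal_tsum]
  refine tsum_congr fun w => ?_
  simp

theorem Z_nn (k : ℕ) : 0 ≤ Z k := tsum_nonneg fun w => (wt_pos w).le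

theorem Wz_norm {k : ℕ} (hk : 1 ≤ k) (d : ℝ) : ‖Wz k d‖ ≤ ‖Wz k 0‖ := by
  rw [Wz_zero, Complex.norm_real, Real.norm_of_nonneg (Z_nn k)]
  refine tsum_of_norm_bounded (summable_wt hk).hasSum fun w => ?_
  rw [norm_term]

theorem Wz_cont {k : ℕ} (hk : 1 ≤ k) : Continuous (Wz k) := by
  refine continuous_tsum (fun w => ?_) (summable_wt hk) fun w d => (norm_term w _).le
  fun_prop

theorem chf_eq (k : ℕ) (d : ℝ) : chf k (Real.pi * d) = Wz k d / Wz k 0 := by
  rw [Wz_zero]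
  rfl

/-- the law of the crossing number -/
def lawm (k : ℕ) : Measure ℝ := WND.dlaw (fun w : Saw k => wt w) (fun w => (cn w : ℝ))

/-- the same, as a probability -/
def law (k : ℕ) : ProbabilityMeasure ℝ := by
  classical
  exact if h : 1 ≤ k ∧ 0 < Z k then
    ⟨lawm k, WND.dlaw_prob (fun w => (wt_pos w).le) (summable_wt h.1) h.2⟩
  else ⟨Measure.dirac 0, inferInstance⟩

theorem law_eq {k : ℕ} (hk : 1 ≤ k) (hZ : 0 < Z k) : (law k : Measure ℝ) = lawm k := by
  unfold law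
  rw [dif_pos ⟨hk, hZ⟩]
  rfl

theorem charFun_law {k : ℕ} (hk : 1 ≤ k) (hZ : 0 < Z k) (b : ℝ) :
    charFun (law k : Measure ℝ) b = chf k b := by
  rw [law_eq hk hZ]
  unfold lawm
  rw [WND.charFun_dlaw (fun w => (wt_pos w).le) (summable_wt hk) hZ]
  rfl

theorem prob_law {k : ℕ} (hk : 1 ≤ k) (hZ : 0 < Z k) {s : Set ℝ} (hs : MeasurableSet s) :
    (law k : Measure ℝ).real s = prob k {j : ℤ | (j : ℝ) ∈ s} := by
  rw [law_eq hk hZ]
  unfold lawm
  rw [WND.dlaw_apply_real (fun w => (wt_pos w).le) (summable_wt hk) hZ hs]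
  rfl

theorem chf_norm {k : ℕ} (hk : 1 ≤ k) (b : ℝ) : ‖chf k b‖ ≤ 1 := by
  have h := Wz_norm hk (b / Real.pi)
  have h1 := chf_eq k (b / Real.pi)
  have h2 : Real.pi * (b / Real.pi) = b := by
    have := Real.pi_pos
    field_simp
  rw [h2] at h1
  rw [h1, norm_div]
  exact div_le_one_of_le₀ h (norm_nonneg _)

/-- **the winding: mod-Gaussian convergence for all `k`, and the central limit theorem** -/
theorem wind_main {r : ℕ → ℝ} {d0 L : ℝ} (hd0 : 0 < d0) (hT : WND.TRZ r Wz d0) (hL : 0 < L)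
    (hW0 : Tendsto (fun k : ℕ => r k * PBM.W0r k) atTop (𝓝 L)) (hZ : ∀ k : ℕ, 1 ≤ k → 0 < PBM.W0r k) :
    (∀ k : ℕ, 1 ≤ k → Summable (wt (k := k)) ∧ 0 < Z k) ∧
    (∃ (b0 c C : ℝ) (M : ℝ → ℂ), 0 < b0 ∧ 0 < c ∧ ContinuousOn M (Set.Icc (-b0) b0) ∧ M 0 = 1 ∧
      ∀ k : ℕ, 1 ≤ k → ∀ b : ℝ, |b| ≤ b0 →
        ‖chf k b * (((k : ℝ) ^ (2 / (3 * Real.pi ^ 2) * b ^ 2) : ℝ) : ℂ) - M b‖ ≤ C * (k : ℝ) ^ (-c)) ∧
    ∀ x : ℝ, Tendsto (fun k : ℕ => prob k {j : ℤ | 2 * Real.pi * j ≤ x * √(Real.log k)}) atTop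
      (𝓝 ((gaussianReal 0 (16 / 3)).real (Set.Iic x))) := by
  have hpi := Real.pi_pos
  have hZ' : ∀ k : ℕ, 1 ≤ k → 0 < Z k := fun k hk => by rw [Z_eq hk]; exact hZ k hk
  have hW0' : Tendsto (fun k : ℕ => ‖(r k : ℂ) * Wz k 0‖) atTop (𝓝 L) := by
    have h1 := hW0.norm
    rw [Real.norm_of_nonneg hL.le] at h1
    refine h1.congr' ?_
    filter_upwards [eventually_ge_atTop 1] with k hk
    rw [Wz_zero, ← Complex.ofReal_mul, Complex.norm_real, Z_eq hk]
  obtain ⟨c, C, M, hc, hC, hMc, hM0, hM⟩ := WND.mod_of hd0.le hT hL hW0'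
    (by filter_upwards [eventually_ge_atTop 1] with k hk d using Wz_norm hk d)
    (by filter_upwards [eventually_ge_atTop 1] with k hk using Wz_cont hk)
  refine ⟨fun k hk => ⟨summable_wt hk, hZ' k hk⟩, ?_, ?_⟩
  · -- all `k`
    obtain ⟨K, hK⟩ := eventually_atTop.1 hM
    obtain ⟨B, hB⟩ : ∃ B : ℝ, ∀ d ∈ Set.Icc (-d0) d0, ‖M d‖ ≤ B :=
      (isCompact_Icc.exists_bound_of_continuousOn hMc)
    have hB0 : 0 ≤ B := (norm_nonneg _).trans (hB 0 ⟨by linarith, hd0.le⟩)
    have hKd : (0 : ℝ) ≤ ((K : ℝ) + 1) ^ (2 / 3 * d0 ^ 2) + B := by positivity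
    refine ⟨Real.pi * d0, c, C + (((K : ℝ) + 1) ^ (2 / 3 * d0 ^ 2) + B) * ((K : ℝ) + 1) ^ c,
      fun b => M (b / Real.pi), by positivity, hc, ?_, by simpa using hM0, fun k hk b hb => ?_⟩
    · refine hMc.comp (by fun_prop) fun b hb => ?_
      rw [Set.mem_Icc, ← abs_le] at hb ⊢
      rw [abs_div, abs_of_pos hpi, div_le_iff₀ hpi]
      linarith
    · have h4 : |b / Real.pi| ≤ d0 := by
        rw [abs_div, abs_of_pos hpi, div_le_iff₀ hpi]
        linarith
      have h7 : Real.pi * (b / Real.pi) = b := by field_simp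
      have h8 : (2 : ℝ) / (3 * Real.pi ^ 2) * b ^ 2 = 2 / 3 * (b / Real.pi) ^ 2 := by field_simp
      have hk0 : (0 : ℝ) < (k : ℝ) ^ (-c) := Real.rpow_pos_of_pos (by exact_mod_cast hk) _
      have hk1 : (1 : ℝ) ≤ k := by exact_mod_cast hk
      rw [h8]
      rcases lt_or_ge k K with hkK | hkK
      · have h9 : ‖chf k b * (((k : ℝ) ^ (2 / 3 * (b / Real.pi) ^ 2) : ℝ) : ℂ) - M (b / Real.pi)‖ ≤
            ((K : ℝ) + 1) ^ (2 / 3 * d0 ^ 2) + B := by
          refine (norm_sub_le _ _).trans (add_le_add ?_ (hB _ (abs_le.1 h4)))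
          rw [norm_mul, Complex.norm_real, Real.norm_of_nonneg (by positivity)]
          have e1 : (k : ℝ) ^ (2 / 3 * (b / Real.pi) ^ 2) ≤ (k : ℝ) ^ (2 / 3 * d0 ^ 2) :=
            Real.rpow_le_rpow_of_exponent_le hk1 (by linarith [WND.sq_le h4])
          have e2 : (k : ℝ) ^ (2 / 3 * d0 ^ 2) ≤ ((K : ℝ) + 1) ^ (2 / 3 * d0 ^ 2) := by
            refine Real.rpow_le_rpow (by positivity) ?_ (by positivity)
            have : (k : ℝ) < K := by exact_mod_cast hkK
            linarith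
          calc _ ≤ 1 * (k : ℝ) ^ (2 / 3 * (b / Real.pi) ^ 2) :=
                mul_le_mul_of_nonneg_right (chf_norm hk b) (by positivity)
            _ ≤ _ := by rw [one_mul]; exact e1.trans e2
        have h10 : (1 : ℝ) ≤ ((K : ℝ) + 1) ^ c * (k : ℝ) ^ (-c) := by
          have e3 : (k : ℝ) ^ c ≤ ((K : ℝ) + 1) ^ c := by
            refine Real.rpow_le_rpow (by positivity) ?_ hc.le
            have : (k : ℝ) < K := by exact_mod_cast hkK
            linarith
          have e4 : (k : ℝ) ^ c * (k : ℝ) ^ (-c) = 1 := by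
            rw [← Real.rpow_add (by linarith)]; simp
          calc (1 : ℝ) = (k : ℝ) ^ c * (k : ℝ) ^ (-c) := e4.symm
            _ ≤ ((K : ℝ) + 1) ^ c * (k : ℝ) ^ (-c) := mul_le_mul_of_nonneg_right e3 hk0.le
        calc _ ≤ (((K : ℝ) + 1) ^ (2 / 3 * d0 ^ 2) + B) * 1 := by rw [mul_one]; exact h9
          _ ≤ (((K : ℝ) + 1) ^ (2 / 3 * d0 ^ 2) + B) * (((K : ℝ) + 1) ^ c * (k : ℝ) ^ (-c)) :=
              mul_le_mul_of_nonneg_left h10 hKd
          _ ≤ C * (k : ℝ) ^ (-c) + (((K : ℝ) + 1) ^ (2 / 3 * d0 ^ 2) + B) * (((K : ℝ) + 1) ^ c * (k : ℝ) ^ (-c)) :=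
              le_add_of_nonneg_left (by positivity)
          _ = _ := by ring
      · have h5 := (hK k hkK).2 (b / Real.pi) h4
        rw [← chf_eq, h7] at h5
        refine h5.trans (mul_le_mul_of_nonneg_right ?_ hk0.le)
        have : 0 ≤ (((K : ℝ) + 1) ^ (2 / 3 * d0 ^ 2) + B) * ((K : ℝ) + 1) ^ c := by positivity
        linarith
  · -- the central limit theorem
    intro x
    have hclt := WND.clt_of (W := Wz) (Q := law) hd0 hc hMc hM0
      (by filter_upwards [hM] with k h d hd using h.2 d hd)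
      (by
        filter_upwards [eventually_ge_atTop 1] with k hk d
        rw [charFun_law hk (hZ' k hk), chf_eq])
    have h1 := WND.cdf_of (by norm_num) hclt x
    have e1 : ((16 : ℝ) / 3).toNNReal = 16 / 3 := by
      rw [Real.toNNReal_div (by norm_num)]
      simp
    rw [e1] at h1
    refine h1.congr' ?_
    filter_upwards [eventually_ge_atTop 1] with k hk
    rw [prob_law hk (hZ' k hk) (measurableSet_le (by fun_prop) (by fun_prop))]
    rfl

end Pool.Agent.CylSaw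

end
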