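import Pool.Agent.TC.Gauge
import Pool.Agent.NUT2.Tp3

/-!
# The two-point functions of the lattice with a winding weight (plan W, W1)

`WL w ε z K L A B q g m k`: the pairing of the two discs, the arc from `m` to `k` has the weight `w ^ c`,
`c` = the number of crossings of the lines of `L` from the first disc to the second one, minus the opposite
crossings, minus the same for the lines of `K` (labels `cS`).  `WC` = the same on canonical sites.
-/

set_option autoImplicit false

namespace Pool.Agent.WND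

open Pool.Agent.NUF Pool.Agent Pool.Agent.NUU Pool.Agent.NUT2
open Pool.Agent.TC (nuw nuw_neg nuw_zero Wp_shift Wp_scale)
open Pool.Agent.EXL.Fm (lam)
open Complex (I exp sin cos)

/-! ### The labels -/

section chi

variable {Γ ι : Type*} [AddCommGroup Γ] [DecidableEq ι] {ν : Γ → ℂ} {S S' : Set ι} {V V' : Fnl ι}

/-- The pairing depends on the labels of the sites of the two functionals only. -/
theorem Wp_chi (hV : SupS S V) (hV' : SupS S' V') (hd : Disjoint S S') {χ χ' : ι → Γ}
    (h : ∀ x, x ∈ S ∨ x ∈ S' → χ x = χ' x) (m q : ι) (L : List (ι × ι)) :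
    Wp ν χ V V' m q L = Wp ν χ' V V' m q L := by
  unfold Wp
  rw [pr_apply, pr_apply]
  refine hV.congr fun p hp => hV'.congr fun r hr => ?_
  have hD := dj_of_sup hd hp hr
  show Gf ν m q L (LPat.gau χ (ofP Γ (un p r))) = Gf ν m q L (LPat.gau χ' (ofP Γ (un p r)))
  congr 1
  refine gau_congr fun x => ?_
  show χ x - χ (un p r x) = χ' x - χ' (un p r x)
  by_cases hx : x ∈ S ∨ x ∈ S'
  · have hy : un p r x ∈ S ∨ un p r x ∈ S' := by
      by_contra hc
      push Not at hc
      have h1 : un p r (un p r x) = un p r x := by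
        rw [un_apply hD (un p r x), if_pos (hp _ hc.1)]
        exact hr _ hc.2
      have h2 : un p r (un p r x) = x := (un p r).inv x
      rw [h2] at h1
      rw [← h1] at hc
      rcases hx with hx | hx
      · exact hc.1 hx
      · exact hc.2 hx
    rw [h x hx, h _ hy]
  · push Not at hx
    have h1 : un p r x = x := by
      rw [un_apply hD x, if_pos (hp _ hx.1)]
      exact hr _ hx.2
    rw [h1, sub_self, sub_self]

end chi

/-- The labels with the mark of the end `q`. -/
def ce {ι : Type*} [DecidableEq ι] (χ : ι → ℤ) (q : ι) : ι → ℤ × ℤ :=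
  (fun x => (χ x, 0)) + Pi.single q (0, 1)

section lab

variable {ι : Type*} [DecidableEq ι] {K L : List (ι × ι)} {x y k : ι}

/-- The first sites of the lines of `L` have the label 1, those of the lines of `K` the label -1. -/
def cS (K L : List (ι × ι)) (x : ι) : ℤ :=
  if x ∈ L.map Prod.fst then 1 else if x ∈ K.map Prod.fst then -1 else 0

/-- The labels of a configuration, `k` = the end of the arc. -/
def chS (K L : List (ι × ι)) (k : ι) : ι → ℤ × ℤ := ce (cS K L) k

theorem ce_ne (χ : ι → ℤ) (h : x ≠ k) : ce χ k x = (χ x, 0) := by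
  unfold ce
  rw [Pi.add_apply, Pi.single_eq_of_ne h, add_zero]

theorem ce_self (χ : ι → ℤ) : ce χ k k = (χ k, 1) := by
  unfold ce
  rw [Pi.add_apply, Pi.single_eq_same]
  ext
  · simp
  · simp

theorem cS_L (h : x ∈ L.map Prod.fst) : cS K L x = 1 := if_pos h

theorem cS_K (h : x ∉ L.map Prod.fst) (h' : x ∈ K.map Prod.fst) : cS K L x = -1 := by
  unfold cS
  rw [if_neg h, if_pos h']

theorem cS_0 (h : x ∉ L.map Prod.fst) (h' : x ∉ K.map Prod.fst) : cS K L x = 0 := by
  unfold cS
  rw [if_neg h, if_neg h']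

theorem chS_L (h : x ∈ L.map Prod.fst) (hk : x ≠ k) : chS K L k x = (1, 0) := by
  unfold chS
  rw [ce_ne _ hk, cS_L h]

theorem chS_K (h : x ∉ L.map Prod.fst) (h' : x ∈ K.map Prod.fst) (hk : x ≠ k) :
    chS K L k x = (-1, 0) := by
  unfold chS
  rw [ce_ne _ hk, cS_K h h']

theorem chS_0 (h : x ∉ L.map Prod.fst) (h' : x ∉ K.map Prod.fst) (hk : x ≠ k) :
    chS K L k x = 0 := by
  unfold chS
  rw [ce_ne _ hk, cS_0 h h']
  rfl

/-- The labels depend on the sets of the lines only. -/
theorem chS_congr {K' L' : List (ι × ι)} (hK : ∀ t, t ∈ K ↔ t ∈ K') (hL : ∀ t, t ∈ L ↔ t ∈ L') (k : ι) :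
    chS K L k = chS K' L' k := by
  have h1 : ∀ x, x ∈ L.map Prod.fst ↔ x ∈ L'.map Prod.fst := fun x => by
    simp only [List.mem_map, hL]
  have h2 : ∀ x, x ∈ K.map Prod.fst ↔ x ∈ K'.map Prod.fst := fun x => by
    simp only [List.mem_map, hK]
  unfold chS
  congr 1
  funext x
  unfold cS
  simp only [h1, h2]

theorem chS_map {β : Type*} [DecidableEq β] {e : β → ι} (he : Function.Injective e)
    (K L : List (β × β)) (k x : β) :
    chS (K.map (Prod.map e e)) (L.map (Prod.map e e)) (e k) (e x) = chS K L k x := by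
  have h : ∀ M : List (β × β), e x ∈ (M.map (Prod.map e e)).map Prod.fst ↔ x ∈ M.map Prod.fst := by
    intro M
    rw [List.map_map]
    constructor
    · intro h
      obtain ⟨t, ht, h1⟩ := List.mem_map.1 h
      exact List.mem_map.2 ⟨t, ht, he h1⟩
    · intro h
      obtain ⟨t, ht, h1⟩ := List.mem_map.1 h
      exact List.mem_map.2 ⟨t, ht, congrArg e h1⟩
  have hc : cS (K.map (Prod.map e e)) (L.map (Prod.map e e)) (e x) = cS K L x := by
    unfold cS
    simp only [h]
  unfold chS
  by_cases hx : x = k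
  · subst hx
    rw [ce_self, ce_self, hc]
  · rw [ce_ne _ hx, ce_ne _ (fun h => hx (he h)), hc]

end lab

/-! ### Nodes -/

section node

variable {ι : Type*} [DecidableEq ι] {w : ℂ} {S S' : Set ι} {V V' : Fnl ι} {χ : ι → ℤ}

/-- **Node at an occupied end**, the label of the line is shifted by `c`. -/
theorem node_w [Finite ι] (hw : w ≠ 0) (hV : SupS S V) (hV' : SupS S' V') (hd : Disjoint S S')
    {r q x x' : ι} {M : List (ι × ι)} (hL : Gd ((r, q) :: (x, x') :: M)) (hr : r ∉ S) (hx : x ∉ S)
    (hr' : r ∉ S') (hx' : x ∉ S') (c : ℤ) (h1 : χ x = χ r + c) :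
    Wp (nuw w) (ce χ q) (V ∘ₗ uops.U x r) V' r q ((x, x') :: M) =
      w ^ c * Wp (nuw w) (ce χ q) V V' x' q M := by
  obtain ⟨e1, e2, e3⟩ := Gd_cons.1 hL
  obtain ⟨e4, e5, e6, e7⟩ := e2 (x, x') (by simp)
  obtain ⟨e8, e9, -⟩ := Gd_cons.1 e3
  simp only at e1 e4 e5 e6 e7 e8
  -- the labels shifted along the pair `x`, `x'`
  set d : ι → ℤ × ℤ := fun y => if y = x ∨ y = x' then (-c, 0) else 0 with hdd
  have s1 : Wp (nuw w) (ce χ q + d) (V ∘ₗ uops.U x r) V' r q ((x, x') :: M) =
      Wp (nuw w) (ce χ q) (V ∘ₗ uops.U x r) V' r q ((x, x') :: M) := by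
    refine Wp_shift _ _ _ _ fun t ht => ?_
    rcases List.mem_cons.1 ht with rfl | ht
    · simp only [hdd]
      rw [if_neg (by rintro (h | h); exacts [e4 h, e5 h]), if_neg (by rintro (h | h); exacts [e6 h, e7 h])]
    · rcases List.mem_cons.1 ht with rfl | ht
      · simp only [hdd, true_or, or_true, if_true]
      · have f1 := e9 t ht
        simp only [hdd]
        rw [if_neg (by rintro (h | h); exacts [f1.1 h.symm, f1.2.2.1 h.symm]),
          if_neg (by rintro (h | h); exacts [f1.2.1 h.symm, f1.2.2.2 h.symm])]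
  have s2 : (ce χ q + d) x = (ce χ q + d) r := by
    simp only [hdd, ce, Pi.add_apply, true_or, if_true]
    rw [if_neg (by rintro (h | h); exacts [e4 h, e5 h]), Pi.single_eq_of_ne e6.symm,
      Pi.single_eq_of_ne e1, h1]
    ext
    · simp
    · simp
  have s3 := node_o (ν := nuw w) (nuw_neg w) (nuw_zero w) hV hV' hd hL hr hx hr' hx' s2
  -- the labels shifted along the pair `x'`, `q`
  set d' : ι → ℤ × ℤ := fun y => if y = x' ∨ y = q then (c, 0) else 0 with hdd'
  have s4 : Wp (nuw w) ((ce χ q + d) + d') V V' x' q M = Wp (nuw w) (ce χ q + d) V V' x' q M := by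
    refine Wp_shift _ _ _ _ fun t ht => ?_
    rcases List.mem_cons.1 ht with rfl | ht
    · simp only [hdd', true_or, or_true, if_true]
    · have f1 := e9 t ht
      have f2 := e2 t (by simp [ht])
      simp only [hdd']
      rw [if_neg (by rintro (h | h); exacts [f1.2.2.1 h.symm, f2.2.2.1 h.symm]),
        if_neg (by rintro (h | h); exacts [f1.2.2.2 h.symm, f2.2.2.2 h.symm])]
  have s5 : Wp (nuw w) ((ce χ q + d) + d') V V' x' q M =
      Wp (nuw w) ((fun y => (χ y, 0)) + Pi.single q (c, 1)) V V' x' q M := by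
    refine Wp_chi hV hV' hd (fun y hy => ?_) _ _ _
    have hyx : y ≠ x := by
      rintro rfl
      rcases hy with hy | hy
      · exact hx hy
      · exact hx' hy
    simp only [hdd, hdd', ce, Pi.add_apply]
    by_cases h2 : y = x'
    · subst h2
      have h3 : y ≠ q := Ne.symm e7
      rw [if_pos (Or.inr rfl), if_pos (Or.inl rfl), Pi.single_eq_of_ne h3, Pi.single_eq_of_ne h3]
      ext
      · simp
      · simp
    · by_cases h3 : y = q
      · subst h3
        rw [if_neg (by rintro (h | h); exacts [hyx h, h2 h]), if_pos (Or.inr rfl), Pi.single_eq_same,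
          Pi.single_eq_same]
        ext
        · simp
        · simp
      · rw [if_neg (by rintro (h | h); exacts [hyx h, h2 h]),
          if_neg (by rintro (h | h); exacts [h2 h, h3 h]), Pi.single_eq_of_ne h3,
          Pi.single_eq_of_ne h3]
        simp
  have hL' : ∀ t ∈ M, x' ≠ t.1 ∧ x' ≠ t.2 ∧ q ≠ t.1 ∧ q ≠ t.2 := fun t ht =>
    ⟨(e9 t ht).2.2.1, (e9 t ht).2.2.2, (e2 t (by simp [ht])).2.2.1, (e2 t (by simp [ht])).2.2.2⟩
  have s6 := Wp_scale (m := x') hw (Ne.symm e7) c χ V V' hL'
  rw [← s1, s3, ← s4, s5, s6]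
  rfl

variable {K L : List (ι × ι)} {x x' y y' p q : ι}

/-- The label of a line which is not in the supports. -/
theorem Wp_cons (hV : SupS S V) (hV' : SupS S' V') (hd : Disjoint S S') (h : y ∉ S) (h' : y ∉ S')
    (m : ι) (M : List (ι × ι)) :
    Wp (nuw w) (chS K ((y, y') :: L) q) V V' m q M = Wp (nuw w) (chS K L q) V V' m q M := by
  refine Wp_chi hV hV' hd (fun x hx => ?_) _ _ _
  have hxy : x ≠ y := by
    rintro rfl
    rcases hx with hx | hx
    · exact h hx
    · exact h' hx
  unfold chS ce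
  simp only [Pi.add_apply]
  congr 2
  unfold cS
  simp only [List.map_cons, List.mem_cons, hxy, false_or]

/-- The label of a line which is not in the supports. -/
theorem Wp_snoc (hV : SupS S V) (hV' : SupS S' V') (hd : Disjoint S S') (h : x ∉ S) (h' : x ∉ S')
    (m : ι) (M : List (ι × ι)) :
    Wp (nuw w) (chS (K ++ [(x, x')]) L q) V V' m q M = Wp (nuw w) (chS K L q) V V' m q M := by
  refine Wp_chi hV hV' hd (fun y hy => ?_) _ _ _
  have hxy : y ≠ x := by
    rintro rfl
    rcases hy with hy | hy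
    · exact h hy
    · exact h' hy
  unfold chS ce
  simp only [Pi.add_apply]
  congr 2
  unfold cS
  simp only [List.map_append, List.map_cons, List.map_nil, List.mem_append, List.mem_cons,
    List.not_mem_nil, hxy, or_false]

/-- **The upper node at an occupied end.** -/
theorem nodL [Finite ι] (hw : w ≠ 0) (hV : SupS S V) (hV' : SupS S' V') (hd : Disjoint S S')
    {M : List (ι × ι)} (hG : Gd ((p, q) :: (y, y') :: M)) (hp : p ∉ S) (hy : y ∉ S)
    (hp' : p ∉ S') (hy' : y ∉ S') (h1 : p ∉ ((y, y') :: L).map Prod.fst) (h2 : p ∉ K.map Prod.fst) :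
    Wp (nuw w) (chS K ((y, y') :: L) q) (V ∘ₗ uops.U y p) V' p q ((y, y') :: M) =
      w * Wp (nuw w) (chS K L q) V V' y' q M := by
  have k := node_w (χ := cS K ((y, y') :: L)) hw hV hV' hd hG hp hy hp' hy' 1 (by
    rw [cS_L (by simp), cS_0 h1 h2, zero_add])
  rw [zpow_one] at k
  rw [← Wp_cons (K := K) (L := L) (y' := y') hV hV' hd hy hy']
  exact k

/-- **The lower node at an occupied end.** -/
theorem nodK [Finite ι] (hw : w ≠ 0) (hV : SupS S V) (hV' : SupS S' V') (hd : Disjoint S S')
    {M : List (ι × ι)} (hG : Gd ((p, q) :: (x, x') :: M)) (hp : p ∉ S) (hx : x ∉ S)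
    (hp' : p ∉ S') (hx' : x ∉ S') (h1 : p ∉ L.map Prod.fst) (h2 : p ∉ (K ++ [(x, x')]).map Prod.fst)
    (h3 : x ∉ L.map Prod.fst) :
    Wp (nuw w) (chS (K ++ [(x, x')]) L q) (V ∘ₗ uops.U x p) V' p q ((x, x') :: M) =
      w⁻¹ * Wp (nuw w) (chS K L q) V V' x' q M := by
  have k := node_w (χ := cS (K ++ [(x, x')]) L) hw hV hV' hd hG hp hx hp' hx' (-1) (by
    rw [cS_K h3 (by simp), cS_0 h1 h2, zero_add])
  rw [zpow_neg_one] at k
  rw [← Wp_snoc (K := K) (L := L) (x' := x') hV hV' hd hx hx']
  exact k

end node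

/-! ### The pairing of the two discs -/

section WL

variable {ι : Type*} [DecidableEq ι]

/-- **The pairing of the two discs with one ended line and the winding weight `w`.** -/
noncomputable def WL (w ε : ℂ) (z : ι → ℂ) (K L : List (ι × ι)) (A B : List ι) (q g m k : ι) : ℂ :=
  Wp (nuw w) (chS K L k) (UD (fun i => -ε * z i) (A ++ (L.map Prod.fst ++ q :: K.map Prod.fst)))
    (UD (fun i => ε * z i) (B ++ (L.map Prod.snd ++ g :: K.map Prod.snd))) m k (K ++ L)

variable {ε : ℂ} {z : ι → ℂ} {L K : List (ι × ι)} {A B : List ι} {q g m k x : ι}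

/-- The labels of the ended lines vanish. -/
theorem chS_end (h : Ok K L A B q g m k) (hx : x ∈ A ++ B) : chS K L k x = 0 := by
  have hn := h.nd
  have h2 := h.k_mem
  unfold sites at hn
  simp only [List.nodup_append, List.nodup_cons, List.map_append, List.mem_append, List.mem_cons] at hn hx
  refine chS_0 ?_ ?_ ?_ <;> grind

/-- The labels of the lines of the second disc vanish. -/
theorem chS_snd (h : Ok K L A B q g m k) (hx : x ∈ (K ++ L).map Prod.snd) : chS K L k x = 0 := by
  have hn := h.nd
  have h2 := h.k_mem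
  unfold sites at hn
  simp only [List.nodup_append, List.nodup_cons, List.map_append, List.mem_append, List.mem_cons] at hn hx
  refine chS_0 ?_ ?_ ?_ <;> grind

theorem chS_fstL (h : Ok K L A B q g m k) (hx : x ∈ L.map Prod.fst) : chS K L k x = (1, 0) := by
  have hn := h.nd
  have h2 := h.k_mem
  unfold sites at hn
  simp only [List.nodup_append, List.nodup_cons, List.map_append, List.mem_append, List.mem_cons] at hn
  refine chS_L hx ?_
  grind

theorem chS_fstK (h : Ok K L A B q g m k) (hx : x ∈ K.map Prod.fst) : chS K L k x = (-1, 0) := by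
  have hn := h.nd
  have h2 := h.k_mem
  unfold sites at hn
  simp only [List.nodup_append, List.nodup_cons, List.map_append, List.mem_append, List.mem_cons] at hn
  refine chS_K ?_ hx ?_ <;> grind

end WL

section map

variable {α β : Type*} [DecidableEq α] [DecidableEq β] {e : β → α} {w ε : ℂ} {z : β → ℂ} {z' : α → ℂ}
  {K L : List (β × β)} {A B : List β} {q g m k : β}

/-- **Renaming of the sites.** -/
theorem WL_map (he : Function.Injective e) (hε : ε = 1 ∨ ε = -1) (hO : Ok K L A B q g m k)
    (hz : ∀ x ∈ sites K L A B q g, exp (I * z' (e x)) = exp (I * z x)) :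
    WL w ε z' (K.map (Prod.map e e)) (L.map (Prod.map e e)) (A.map e) (B.map e) (e q) (e g) (e m) (e k) =
      WL w ε z K L A B q g m k := by
  have hε' : -ε = 1 ∨ -ε = -1 := by
    rcases hε with rfl | rfl
    · exact Or.inr rfl
    · exact Or.inl (neg_neg 1)
  have l1 : A.map e ++ ((L.map (Prod.map e e)).map Prod.fst ++ e q :: (K.map (Prod.map e e)).map Prod.fst) =
      (A ++ (L.map Prod.fst ++ q :: K.map Prod.fst)).map e := by
    simp [Function.comp_def]
  have l2 : B.map e ++ ((L.map (Prod.map e e)).map Prod.snd ++ e g :: (K.map (Prod.map e e)).map Prod.snd) =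
      (B ++ (L.map Prod.snd ++ g :: K.map Prod.snd)).map e := by
    simp [Function.comp_def]
  have u1 : UD (fun i => -ε * z' i) ((A ++ (L.map Prod.fst ++ q :: K.map Prod.fst)).map e) =
      push he (UD (fun i => -ε * z i) (A ++ (L.map Prod.fst ++ q :: K.map Prod.fst))) := by
    rw [UD_map he (z := fun i => -ε * z' (e i)) (fun x _ => rfl)]
    congr 1
    refine UD_cexp fun x hx => eps_exp hε' (hz x ?_)
    simp only [sites, List.mem_append, List.mem_cons, List.map_append] at hx ⊢
    tauto
  have u2 : UD (fun i => ε * z' i) ((B ++ (L.map Prod.snd ++ g :: K.map Prod.snd)).map e) =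
      push he (UD (fun i => ε * z i) (B ++ (L.map Prod.snd ++ g :: K.map Prod.snd))) := by
    rw [UD_map he (z := fun i => ε * z' (e i)) (fun x _ => rfl)]
    congr 1
    refine UD_cexp fun x hx => eps_exp hε (hz x ?_)
    simp only [sites, List.mem_append, List.mem_cons, List.map_append] at hx ⊢
    tauto
  unfold WL
  rw [l1, l2, u1, u2, ← List.map_append]
  exact Wp_map he (fun x => chS_map he K L k x) hO.gd (UD_supS _ _) (UD_supS _ _) hO.disj

end map

/-! ### Canonical sites -/

section can

/-- The pairing on the canonical sites. -/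
noncomputable def WC (w ε : ℂ) (K L : List ℂ) (v : Fin 6 → ℂ) (A B : List (Fin 6)) (m k : Fin 6) : ℂ :=
  WL w ε (zc K L v) (Ic _ _) (Jc _ _) (A.map sc) (B.map sc) (sc 0) (sc 1) (sc m) (sc k)

/-- **The two-point functions of the lattice with winding weight**: `k = 0`: the arc ends at `q`, `k = 1`: it
ends at `g`. -/
noncomputable def fam (w ε : ℂ) (k : Fin 6) (q g : ℂ) : NUTP.Fam where
  R K L a := WC w ε K L ![q, g, a, 1, 1, 1] [2] [] 2 k
  L K L a := WC w ε K L ![q, g, a, 1, 1, 1] [] [2] 2 k
  OE K L a b := WC w ε K L ![q, g, a, b, 1, 1] [2, 3] [] 2 k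
  EO K L a b := WC w ε K L ![q, g, a, b, 1, 1] [2, 3] [] 3 k
  OE' K L a b := WC w ε K L ![q, g, a, b, 1, 1] [] [2, 3] 2 k
  EO' K L a b := WC w ε K L ![q, g, a, b, 1, 1] [] [2, 3] 3 k
  RE K L a b := WC w ε K L ![q, g, a, b, 1, 1] [2] [3] 2 k
  ER K L a b := WC w ε K L ![q, g, a, b, 1, 1] [2] [3] 3 k

variable {ι : Type*} [DecidableEq ι]

/-- **The pairing depends on the rapidities only.** -/
theorem WL_eq_WC {w ε : ℂ} (hε : ε = 1 ∨ ε = -1) {z : ι → ℂ} {K L : List (ι × ι)} {s : Fin 6 → ι}
    (hs : Function.Injective s) (hG : Gd (K ++ L)) (hd : ∀ k, ∀ t ∈ K ++ L, s k ≠ t.1 ∧ s k ≠ t.2)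
    {A B : List (Fin 6)} (hA : (0 :: 1 :: (A ++ B)).Nodup) {m k : Fin 6} (hm : m ∈ A ++ B)
    (hk : k = 0 ∨ k = 1) (hz : ∀ t ∈ K ++ L, exp (I * z t.2) = exp (I * z t.1)) {v : Fin 6 → ℂ}
    (hv : ∀ j ∈ 0 :: 1 :: (A ++ B), exp (I * z (s j)) = v j) {K' L' : List ℂ}
    (hK : K.map (fun t => exp (I * z t.1)) = K') (hL : L.map (fun t => exp (I * z t.1)) = L') :
    WL w ε z K L (A.map s) (B.map s) (s 0) (s 1) (s m) (s k) = WC w ε K' L' v A B m k := by
  have hN : K'.length = K.length := by rw [← hK, List.length_map]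
  have hM : L'.length = L.length := by rw [← hL, List.length_map]
  set e := ec K L s hN hM with he
  have hinj : Function.Injective e := ec_inj hs hG hd hN hM
  have k1 : (Ic K'.length L'.length).map (Prod.map e e) = K := by
    unfold Ic
    rw [List.map_map]
    exact map_get_cast K hN
  have k2 : (Jc K'.length L'.length).map (Prod.map e e) = L := by
    unfold Jc
    rw [List.map_map]
    exact map_get_cast L hM
  have k3 : ∀ C : List (Fin 6), (C.map sc).map e = C.map s := by
    intro C
    rw [List.map_map]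
    rfl
  have hn : (sites K L (A.map s) (B.map s) (s 0) (s 1)).Nodup := by
    unfold sites
    have h1 : s 0 :: s 1 :: (A.map s ++ B.map s) = (0 :: 1 :: (A ++ B)).map s := by simp
    rw [h1, List.nodup_append]
    refine ⟨hG, hA.map hs, ?_⟩
    intro x hx y hy hxy
    subst hxy
    obtain ⟨j, -, rfl⟩ := List.mem_map.1 hy
    rcases List.mem_append.1 hx with hx | hx
    · obtain ⟨t, ht, h2⟩ := List.mem_map.1 hx
      exact (hd j t ht).1 h2.symm
    · obtain ⟨t, ht, h2⟩ := List.mem_map.1 hx
      exact (hd j t ht).2 h2.symm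
  have hO : Ok (Ic K'.length L'.length) (Jc K'.length L'.length) (A.map sc) (B.map sc) (sc 0) (sc 1)
      (sc m) (sc k) := by
    refine Ok.of_map (e := e) ?_ ?_ ?_
    · rw [k1, k2, k3, k3]
      exact hn
    · rw [← List.map_append]
      exact List.mem_map_of_mem hm
    · rcases hk with rfl | rfl
      · exact Or.inl rfl
      · exact Or.inr rfl
  have key := WL_map (w := w) (z := zc K' L' v) (z' := z) hinj hε hO ?_
  · rw [k1, k2, k3, k3] at key
    exact key
  · have e1 : ∀ (i : Fin K'.length) (b : Bool), exp (I * z (e (Sum.inl (i, b)))) =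
        exp (I * zc K' L' v (Sum.inl (i, b))) := by
      intro i b
      have h1 : K'.get i = exp (I * z (K.get (i.cast hN)).1) := by
        subst hK
        simp
      have h2 : exp (I * zc K' L' v (Sum.inl (i, b))) = exp (I * z (K.get (i.cast hN)).1) := by
        show exp (I * lg (K'.get i)) = _
        rw [exp_lg (by rw [h1]; exact Complex.exp_ne_zero _), h1]
      rw [h2]
      cases b
      · rfl
      · exact hz _ (List.mem_append_left _ (List.get_mem K _))
    have e2 : ∀ (i : Fin L'.length) (b : Bool), exp (I * z (e (Sum.inr (Sum.inl (i, b))))) =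
        exp (I * zc K' L' v (Sum.inr (Sum.inl (i, b)))) := by
      intro i b
      have h1 : L'.get i = exp (I * z (L.get (i.cast hM)).1) := by
        subst hL
        simp
      have h2 : exp (I * zc K' L' v (Sum.inr (Sum.inl (i, b)))) =
          exp (I * z (L.get (i.cast hM)).1) := by
        show exp (I * lg (L'.get i)) = _
        rw [exp_lg (by rw [h1]; exact Complex.exp_ne_zero _), h1]
      rw [h2]
      cases b
      · rfl
      · exact hz _ (List.mem_append_right _ (List.get_mem L _))
    have e3 : ∀ j ∈ 0 :: 1 :: (A ++ B), exp (I * z (s j)) =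
        exp (I * zc K' L' v (Sum.inr (Sum.inr j))) := by
      intro j hj
      have h1 := hv j hj
      show _ = exp (I * lg (v j))
      rw [exp_lg (by rw [← h1]; exact Complex.exp_ne_zero _), h1]
    intro x hx
    rcases x with ⟨i, b⟩ | ⟨i, b⟩ | j
    · exact e1 i b
    · exact e2 i b
    · refine e3 j ?_
      have h1 : ∀ n m : ℕ, ∀ t ∈ Ic n m ++ Jc n m, t.1 ≠ sc j ∧ t.2 ≠ sc j := by
        intro n m t ht
        rcases List.mem_append.1 ht with ht | ht
        · obtain ⟨i, -, rfl⟩ := List.mem_map.1 ht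
          exact ⟨by simp [sc], by simp [sc]⟩
        · obtain ⟨i, -, rfl⟩ := List.mem_map.1 ht
          exact ⟨by simp [sc], by simp [sc]⟩
      unfold sites at hx
      rcases List.mem_append.1 hx with hx | hx
      · rcases List.mem_append.1 hx with hx | hx
        · obtain ⟨t, ht, h2⟩ := List.mem_map.1 hx
          exact absurd h2 (h1 _ _ t ht).1
        · obtain ⟨t, ht, h2⟩ := List.mem_map.1 hx
          exact absurd h2 (h1 _ _ t ht).2
      · have h2 : sc (n := K'.length) (m := L'.length) 0 :: sc 1 :: (A.map sc ++ B.map sc) =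
            (0 :: 1 :: (A ++ B)).map sc := by simp
        rw [h2] at hx
        obtain ⟨j', hj', h3⟩ := List.mem_map.1 hx
        have h4 : j' = j := Sum.inr_injective (Sum.inr_injective h3)
        rw [← h4]
        exact hj'

end can

end Pool.Agent.WND
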