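import Pool.Agent.NUTV.F_N0
import Pool.Agent.WND.Fam

/-!
# The pairing with winding weight without full lines: the fields `R0`, ..., `ER0` (plan W, helper29)

Without full lines there is no winding: `WC_nil_eq`.
-/

set_option autoImplicit false

namespace Pool.Agent.WND

open _root_.Pool.Agent.EXL _root_.Pool.Agent.EXL.Pat
open _root_.Pool.Agent.NUF _root_.Pool.Agent.NUU
open _root_.Pool.Agent.NUT2 hiding WL WC fam WL_map WL_eq_WC
open _root_.Pool.Agent.NUF.LPat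
open _root_.Pool.Agent.TC (nuw Gf_nil_apply)

theorem nuw_leg (w : ℂ) : nuw w (0, -1) = 1 := by
  unfold nuw
  simp

/-- The kernel does not depend on the weight. -/
theorem ker_eq (w : ℂ) {ι : Type*} [DecidableEq ι] {m k : ι} (hmk : m ≠ k) (p : EXL.Pat ι) :
    (Tw (chS [] [] k) (Gf (nuw w) m k [])) (ofP (ℤ × ℤ) p) =
      (Tw (Pi.single k (1 : ZMod 2)) (Gf (nu2 1) m k [])) (ofP (ZMod 2) p) := by
  classical
  rw [lG_apply, lG_apply, Gf_nil_apply hmk, Gf_nil_apply hmk]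
  set P := gau (chS [] [] k) (ofP (ℤ × ℤ) p) with hP
  set Q := gau (Pi.single k (1 : ZMod 2)) (ofP (ZMod 2) p) with hQ
  have fP : ∀ x, P x = p x := fun x => rfl
  have fQ : ∀ x, Q x = p x := fun x => rfl
  simp only [fP, fQ]
  split_ifs with h
  · have h1 : p m = k := h.1
    have s1 : P.s m = (0, -1) := by
      have e : P.s m = 0 + chS [] [] k m - chS [] [] k (p m) := rfl
      rw [e, h1, chS_0 (by simp) (by simp) hmk]
      unfold chS
      rw [ce_self, cS_0 (by simp) (by simp)]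
      rfl
    have s2 : Q.s m = 1 := by
      have e : Q.s m = 0 + (Pi.single k (1 : ZMod 2) : ι → ZMod 2) m -
        (Pi.single k (1 : ZMod 2) : ι → ZMod 2) (p m) := rfl
      rw [e, h1, Pi.single_eq_same, Pi.single_eq_of_ne hmk]
      decide
    rw [s1, s2, nuw_leg]
    exact (if_neg (by decide)).symm
  · rfl

/-- **Without full lines there is no winding.** -/
theorem WC_nil_eq (w ε : ℂ) (v : Fin 6 → ℂ) (A B : List (Fin 6)) {m k : Fin 6} (hmk : m ≠ k) :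
    WC w ε [] [] v A B m k = NUT2.WC ε [] [] v A B m k := by
  have h := ker_eq w (sc_inj (n := 0) (m := 0) |>.ne hmk)
  have e1 : WC w ε [] [] v A B m k = UD (fun i => -ε * zc [] [] v i) (A.map sc ++ [sc 0]) (fun p =>
      UD (fun i => ε * zc [] [] v i) (B.map sc ++ [sc 1]) (fun q =>
        (Tw (chS [] [] (sc k)) (Gf (nuw w) (sc m) (sc k) [])) (ofP (ℤ × ℤ) (un p q)))) := rfl
  have e2 : NUT2.WC ε [] [] v A B m k = UD (fun i => -ε * zc [] [] v i) (A.map sc ++ [sc 0]) (fun p =>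
      UD (fun i => ε * zc [] [] v i) (B.map sc ++ [sc 1]) (fun q =>
        (Tw (Pi.single (sc k) (1 : ZMod 2)) (Gf (nu2 1) (sc m) (sc k) [])) (ofP (ZMod 2) (un p q)))) := rfl
  rw [e1, e2]
  simp only [h]

section fields

variable (w q g : ℂ)

theorem fam_R0 : ∀ p, NUTP.G NUTP.th [p, q, g] → (fam w 1 0 q g).R [] [] p = NUTP.sn NUTP.th 1 1 :=
  fun p hG => (WC_nil_eq w 1 _ _ _ (by decide)).trans (NUTV.fam_R0 q g p hG)

theorem fam_L0 : ∀ h, NUTP.G NUTP.th [h, q, g] → (fam w 1 0 q g).L [] [] h = 0 :=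
  fun h hG => (WC_nil_eq w 1 _ _ _ (by decide)).trans (NUTV.fam_L0 q g h hG)

theorem fam_OE0 : ∀ a b, NUTP.G NUTP.th [a, b, q, g] → (fam w 1 0 q g).OE [] [] a b =
      NUTP.sn NUTP.th 1 1 * (NUTP.sn NUTP.th 3 (b / a) * NUTP.sn NUTP.th 3 (q / b)) :=
  fun a b hG => (WC_nil_eq w 1 _ _ _ (by decide)).trans (NUTV.fam_OE0 q g a b hG)

theorem fam_EO0 : ∀ a b, NUTP.G NUTP.th [a, b, q, g] → (fam w 1 0 q g).EO [] [] a b =
      NUTP.sn NUTP.th 1 1 * (NUTP.sn NUTP.th 3 (b / a) * NUTP.sn NUTP.th 3 (a / q)) :=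
  fun a b hG => (WC_nil_eq w 1 _ _ _ (by decide)).trans (NUTV.fam_EO0 q g a b hG)

theorem fam_OE'0 : ∀ a b, NUTP.G NUTP.th [a, b, q, g] → (fam w 1 0 q g).OE' [] [] a b = 0 :=
  fun a b hG => (WC_nil_eq w 1 _ _ _ (by decide)).trans (NUTV.fam_OE'0 q g a b hG)

theorem fam_EO'0 : ∀ a b, NUTP.G NUTP.th [a, b, q, g] → (fam w 1 0 q g).EO' [] [] a b = 0 :=
  fun a b hG => (WC_nil_eq w 1 _ _ _ (by decide)).trans (NUTV.fam_EO'0 q g a b hG)

theorem fam_RE0 : ∀ p h, NUTP.G NUTP.th [p, h, q, g] →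
    (fam w 1 0 q g).RE [] [] p h = NUTP.sn NUTP.th 1 1 * NUTP.cs (h / g) :=
  fun p h hG => (WC_nil_eq w 1 _ _ _ (by decide)).trans (NUTV.fam_RE0 q g p h hG)

theorem fam_ER0 : ∀ r h, NUTP.G NUTP.th [r, h, q, g] → (fam w 1 0 q g).ER [] [] r h = 0 :=
  fun r h hG => (WC_nil_eq w 1 _ _ _ (by decide)).trans (NUTV.fam_ER0 q g r h hG)

end fields

end Pool.Agent.WND
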