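import Pool.Agent.WND.F_half
import Pool.Agent.WND.F_N0
import Pool.Agent.NUTV.RotI

/-!
# The lattice family with winding weight satisfies the list of properties (plan W, W1)
-/

set_option autoImplicit false

namespace Pool.Agent.WND

/-- **The lattice family with winding weight satisfies the list of properties.** -/
theorem fam_data {w : ℂ} (hw : w ≠ 0) (q g : ℂ) : NUTP.Data NUTP.th w q g (fam w 1 0 q g) where
  right := fam_right hw
  left := fam_left hw
  R0 := fam_R0 w q g
  L0 := fam_L0 w q g
  OE0 := fam_OE0 w q g
  EO0 := fam_EO0 w q g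
  OE'0 := fam_OE'0 w q g
  EO'0 := fam_EO'0 w q g
  RE0 := fam_RE0 w q g
  ER0 := fam_ER0 w q g

end Pool.Agent.WND
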