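import Pool.Agent.WND.TRFinW

/-!
# Plan W, W7: the bound on the window with coefficients (helper24, the proof of helper80's `h2_SR0`)

* `topR0_val_c`: `PBI.topR0_val` with coefficients `‖a n‖ ≤ 1`;
* **`h2c`**: `H2c e` for every `e > 0`.
-/

set_option autoImplicit false

noncomputable section

open Complex MeasureTheory Finset Filter
open scoped ENNReal

namespace WND

open NUGC PBO PBF PBR PBX PBI
open NUO NUP1 NURow
open NUCR (CurB)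
open NUP1.Leg (kap Dk Bp)
open PBT3 (gF k1T wt)
open PBTR (mT sT zT nearS winW)
open PBTRF (wt_vl nr_eq)

attribute [local instance] NUSea.seaP

theorem topR0_val_c {e : ℝ} (he : 0 < e) : ∃ κ0 : ℝ, 0 < κ0 ∧ κ0 ≤ 1 / 100 ∧
      ∀ ep : ℝ, 0 < ep → ep ≤ κ0 → ∀ e1 : ℝ, 0 < e1 → e1 ≤ κ0 →
      ∀ J : ℝ, 0 ≤ J → Real.exp (-(2 * Real.pi * J)) ≤ κ0 →
      ∀ (c : ℕ → ℂ) (Cn : ℝ), (∀ k, 1 ≤ k → ‖c k‖ * Real.exp ((k : ℝ) ^ 2 * PBVR.EMF0) ≤ Cn) →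
      ∃ k0 : ℕ, 2 ≤ k0 ∧ ∀ k ≥ k0,
      ∀ y : ℝ × ℝ, |y.1| ≤ TW ep e1 k → |y.2| ≤ TW ep e1 k → ∀ M ≤ 2 * k,
      ∀ a : ℕ → ℂ, (∀ n, ‖a n‖ ≤ 1) →
      ‖c k * kR k y * ∑ n ∈ range (M + 1), a n * FF (RZW (R0 (k - 1) (beC ep) [I, -I] [])
          (vl (5 / 4 * l) y.1) (vl (5 / 4 * l) y.2)) (NUSea.O.par0 k) n n
          (fun _ _ => etaC e1 J k k) (fun _ _ => etaC' e1 J k k) (fun _ _ _ _ _ => 1)‖ ≤
        (k : ℝ) ^ e * Real.exp (-mTR y) := by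
  obtain ⟨κ0, hκ, hκ1, h⟩ := topR0 0 0 he
  refine ⟨κ0, hκ, hκ1, fun ep hep hep1 e1 he1 he11 J hJ hJ1 c Cn hc => ?_⟩
  obtain ⟨k0, hk0, h⟩ := h Unit (fun _ _ => True) _ (statFam_one _) ep hep hep1 e1 he1 he11 J hJ
    hJ1 c Cn hc
  refine ⟨k0, hk0, fun k hk => ?_⟩
  obtain ⟨hcur, h⟩ := h k hk
  intro y hy1 hy2 M hM a ha
  have key := h y hy1 hy2 () trivial (fun _ _ => 1) 1 zero_le_one (fun _ _ => zero_le_one)
    (fun r O => by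
      rw [zero_mul, Real.exp_zero, one_mul, one_mul]
      exact Real.one_le_exp (Finset.sum_nonneg fun i _ => PBP.gT_nonneg _ _ _))
  have hR : 0 ≤ (k : ℝ) ^ e * Real.exp (-mTR y) := by positivity
  rw [← ENNReal.ofReal_le_ofReal_iff hR, norm_mul, ENNReal.ofReal_mul (norm_nonneg _)]
  rw [one_mul] at key
  refine le_trans (mul_le_mul' le_rfl ?_) key
  rw [ofReal_norm]
  refine (enorm_sum_le _ _).trans ?_
  refine le_trans (Finset.sum_le_sum (g := fun n => FA (RZW (R0 (k - 1) (beC ep) [I, -I] [])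
    (vl (5 / 4 * l) y.1) (vl (5 / 4 * l) y.2)) (NUSea.O.par0 k) n n (fun _ _ => etaC e1 J k k)
    (fun _ _ => etaC' e1 J k k) (fun _ _ _ _ _ => 1)) fun n _ => ?_) ?_
  · rw [enorm_mul]
    have h1 : ‖a n‖ₑ ≤ 1 := by
      rw [← ofReal_norm, ← ENNReal.ofReal_one]
      exact ENNReal.ofReal_le_ofReal (ha n)
    refine (mul_le_mul' h1 (FF_le _)).trans ?_
    rw [one_mul]
  refine (Finset.sum_le_sum_of_subset (f := fun n => FA (RZW (R0 (k - 1) (beC ep) [I, -I] [])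
    (vl (5 / 4 * l) y.1) (vl (5 / 4 * l) y.2)) (NUSea.O.par0 k) n n (fun _ _ => etaC e1 J k k)
    (fun _ _ => etaC' e1 J k k) (fun _ _ _ _ _ => 1)) (show range (M + 1) ⊆ range (2 * k + 1) from
      Finset.range_subset_range.2 (by omega))).trans ?_
  refine Finset.sum_le_sum fun n _ => ?_
  rw [FA_eq_FE]
  exact FE_mono fun r O a b x => by simp

theorem KK_SWc' (c : ℕ → ℂ) (ep e1 J : ℝ) (k : ℕ) (τ : ℝ × ℝ) : PBTRF.KK (SWc c ep e1 J) k τ =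
    (nrR k * (2 * Real.pi : ℂ)⁻¹ ^ 2) * kR k τ * SWc c ep e1 J k τ := by
  unfold PBTRF.KK kR
  rw [nr_eq, wt_vl, wt_vl]

/-- **(H2) with coefficients** -/
theorem h2c {e : ℝ} (he : 0 < e) : H2c e := by
  obtain ⟨κ0, hκ, hκ1, H⟩ := topR0_val_c he
  refine ⟨κ0, hκ, hκ1, fun ep hep hep1 e1 he1 he11 J hJ hJ1 => ?_⟩
  have hn : ∀ k, 1 ≤ k → ‖nrR k * (2 * Real.pi : ℂ)⁻¹ ^ 2‖ * Real.exp ((k : ℝ) ^ 2 * PBVR.EMF0) ≤
      (Real.sin l)⁻¹ * ‖(2 * Real.pi : ℂ)⁻¹ ^ 2‖ := by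
    intro k hk
    rw [norm_mul, mul_right_comm, norm_nrR hk]
  obtain ⟨k0, hk0, H⟩ := H ep hep hep1 e1 he1 he11 J hJ hJ1 _ _ hn
  filter_upwards [eventually_ge_atTop k0] with k hk c hc τ hτ
  have H := H k hk
  have h1k : 1 ≤ k := by omega
  have hL : 0 ≤ Real.log k := Real.log_nonneg (by exact_mod_cast h1k)
  have hTW : 3 / 8 * Real.log k ≤ TW ep e1 k := by
    have h : TW ep e1 k = (1 + 2 * e1 + 2 * ep) * (3 / 8 * Real.log k) := rfl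
    rw [h]
    nlinarith [mul_nonneg he1.le hL, mul_nonneg hep.le hL]
  have key := H τ (hτ.1.trans hTW) (hτ.2.trans hTW) (2 * (k - 1)) (by omega) c hc
  rw [KK_SWc']
  unfold SWc
  rw [wt_vl, wt_vl]
  exact key

end WND

end
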