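import Pool.Agent.WND.TRH1c
import Pool.Agent.WND.TRH2c
import Pool.Agent.WND.F_all
import Pool.Agent.WND.CylDef
import Pool.Agent.WND.CylFin

/-!
# Plan W, W7: the transfer with winding weight, no hypothesis but the words (helper24)

* `latW`: the lattice family (helper8's `fam_data`);
* `physZ_of`: if `W0W χ k = Wz k (-d)` for `χ ^ 2 = ζ_d` then `Wz` is the class side;
* **`tr1z_w`**, **`trz_w`**: `TR1Z nrm Wz (f0z)`, `TRZ nrm Wz (1 / 10)` for every such `Wz`.
-/

set_option autoImplicit false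

noncomputable section

open Complex MeasureTheory Set Filter Topology

namespace WND

theorem h1c {c0 : ℝ} (hc : c0 < 7 / 16) : H1c c0 := h1_SWc hc

theorem hmc : Hmc := fun _ hep hep1 _ he1 he11 _ hJ => hm_SWc hep hep1 he1 he11 hJ

theorem latW {χ : ℂ} (h : χ ≠ 0) : Pool.Agent.WND.LatW χ := fun q g =>
  Pool.Agent.WND.fam_data h q g

/-- the literal link between the lattice function `W0W` and `Wz` -/
def LinkW (Wz : ℕ → ℝ → ℂ) : Prop := ∀ (k : ℕ) (hk : 1 ≤ k) (χ : ℂ) (d : ℝ),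
  χ ^ 2 = Complex.exp (Complex.I * (Real.pi * d)) → Pool.Agent.WND.W0W χ k hk = Wz k (-d)

theorem physZ_of {Wz : ℕ → ℝ → ℂ} (h : LinkW Wz) : PhysZ Wz := by
  intro ep hep hep1 k hk d hd
  set χ : ℂ := Complex.exp (-(Complex.I * (Real.pi * d) / 2)) with hχ
  have h2 : χ ^ 2 = Complex.exp (Complex.I * (Real.pi * ((-d : ℝ) : ℂ))) := by
    rw [hχ, ← Complex.exp_nat_mul]
    congr 1
    push_cast
    ring
  have h3 : χ ^ 2 = (zt d)⁻¹ := by
    rw [h2]
    unfold zt
    rw [← Complex.exp_neg]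
    congr 1
    push_cast
    ring
  have e := h k hk χ (-d) h2
  rw [neg_neg] at e
  rw [← e]
  exact phys_W (latW (Complex.exp_ne_zero _)) (Complex.exp_ne_zero _) h3 hk hep hep1

/-- **the transfer with winding weight** -/
theorem tr1z_w {Wz : ℕ → ℝ → ℂ} (h : LinkW Wz) :
    TR1Z PBM.nrm Wz (fun N d => f0z (zt d) N 0) (1 / 10) :=
  tr1z_of (physZ_of h) (h1c (by norm_num)) hmc (h2c (by norm_num))

/-- **the physical function with winding weight** -/
theorem trz_w {Wz : ℕ → ℝ → ℂ} (h : LinkW Wz) : TRZ PBM.nrm Wz (1 / 10) :=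
  trz_all_of (physZ_of h) (h1c (by norm_num)) hmc (h2c (by norm_num))

end WND

end
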