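import Pool.Agent.NUF.Cyl.Net
import Pool.Agent.WND.Fam

/-!
# The words with the winding weight: definitions (plan W, W1c)

`PG χ c m k R` = the function of the cut: the arc from `m` through the lines of `R` to `k`, one crossing of a line
from the site `i` to the site `j` has the weight `χ ^ (c i - c j)`.
`WsW` = the sum over the words, a half edge `h` has the weight `χ ^ (c (hf h) - c (hf (C.rv h)))`.
-/

set_option autoImplicit false

namespace Pool.Agent.WND

open Pool.Agent.NUF Pool.Agent Pool.Agent.NUU Pool.Agent.NUT2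
open Pool.Agent.TC (nuw)
open Pool.Agent.EXL Pool.Agent.EXL.Net HexObs HexObs.LP
open Pool.Agent.NUF.Cyl (Nm)

/-- **The function of the cut.** -/
noncomputable def PG {ι : Type*} [DecidableEq ι] (χ : ℂ) (c : ι → ℤ) (m k : ι) (R : List (ι × ι))
    (P : EXL.Pat ι) : ℂ := Tw (ce c k) (Gf (nuw χ) m k R) (ofP (ℤ × ℤ) P)

/-- The pairing in terms of `PG`. -/
theorem Wp_PG {ι : Type*} [DecidableEq ι] {χ : ℂ} {c : ι → ℤ} {m k : ι} {R : List (ι × ι)} (V V' : Fnl ι) :
    Wp (nuw χ) (ce c k) V V' m k R = V fun p => V' fun q => PG χ c m k R (un p q) := by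
  unfold Wp
  rw [pr_apply]
  rfl

/-- the half edge number `i` of a word. -/
def hwd (C : Nm) (p : Pt × Pt) (t : List Bool) (i : ℕ) : Pt × Pt := (C.nm (vx p.1 p.2 t i), dx p.2 t i)

/-- the label of a half edge: its first half minus its second half. -/
def lbh (C : Nm) (c : Lab → ℤ) (h : Pt × Pt) : ℤ := c (hf h) - c (hf (C.rv h))

/-- the label of a word: the sum of the labels of its half edges number `0, ..., length - 1`. -/
def lbs (C : Nm) (c : Lab → ℤ) (p : Pt × Pt) (t : List Bool) : ℤ :=
  ∑ i ∈ Finset.range t.length, lbh C c (hwd C p t i)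

/-- the sum over the words from the half edge `p` in `A` that end at a half edge of `T`, with the weight
`χ ^ label`. -/
noncomputable def WsW (C : Nm) (χ x : ℂ) (c : Lab → ℤ) (A : Finset Pt) (T : Finset (Pt × Pt)) (p : Pt × Pt) : ℂ :=
  ∑ t ∈ (C.arr A p).filter (fun t => C.rv (C.le p t) ∈ T), x ^ t.length * χ ^ lbs C c p t

end Pool.Agent.WND
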