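import Pool.Agent.GLD.W0
import Pool.Agent.WND.WcDef

/-!
# The words of the cylinder with the winding weight: definitions (plan W, W1c)
-/

set_option autoImplicit false

namespace Pool.Agent.WND

open Pool.Agent.EXL Pool.Agent.EXL.Net HexObs HexObs.LP
open Pool.Agent.NUF.Cyl (Nm Cy pL)
open Pool.Agent.NUN (Om)
open Pool.Agent.MXR (rowI rowJ)
open Pool.Agent.GLD (two_k)

/-- the line of the row `a`: right half, left half. -/
def lnL {N : ℕ} (a : Fin N) : Lab × Lab := (lW 0 ((a : ℕ) : ℤ), lE (-1) ((a : ℕ) : ℤ))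

/-- the labels of the legs: `1` at the right halves of the rows `0 < r < k`, `-1` at the right halves of the rows
`k < r < 2 k`. -/
def cL (k : ℕ) : Lab → ℤ := cS ((rowI k).map lnL) ((rowJ k).map lnL)

/-- **The sum over the words of the cylinder in the rings `-m, .., m - 1` with the winding weight.** -/
noncomputable def WmW (χ : ℂ) {k : ℕ} (hk : 1 ≤ k) (m : ℕ) : ℂ :=
  WsW (Cy (2 * k) (two_k hk)) χ (xc : ℂ) (cL k) (Om (2 * k) m) {pL (k : ℤ)} (pL 0)

end Pool.Agent.WND
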