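import Pool.Agent.WND.WindAng
import Pool.Agent.WND.WcCyl
import Pool.Agent.PB.CylPub
import Pool.Agent.NUNC.LabAnti
import Pool.Agent.NUNC.Label

/-!
# PLAN W, W1c (f): the label of a word is the crossing number of its walk (helper69)
-/

set_option autoImplicit false

noncomputable section

namespace Pool.Agent.WND

open Finset HexObs HexObs.LP Pool.Agent.CylSaw
open Pool.Agent.NUF.Cyl (Nm Cy pL ri nmN tr ri_tr ri_A ri_B nm_eq nb_A_W A_inj)
open Pool.Agent.NUN (fc cr_A cr_o)
open Pool.Agent.EXL.Net (lW lE Lab hf)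
open Pool.Agent.MXR (rowI rowJ)

variable {k : ℕ}

theorem crl_A (j i : ℤ) : Pool.Agent.NUF.Cyl.crl (_root_.EXL.A j i, ((-1, 1) : Pt)) = if j = 0 then -1 else 0 := by
  simp only [Pool.Agent.NUF.Cyl.crl, nn, _root_.EXL.A, Prod.mk_add_mk]
  split_ifs <;> omega

theorem crl_B (j i : ℤ) : Pool.Agent.NUF.Cyl.crl (_root_.EXL.B j i, ((1, -1) : Pt)) = if j = -1 then 1 else 0 := by
  simp only [Pool.Agent.NUF.Cyl.crl, nn, _root_.EXL.B, Prod.mk_add_mk]
  split_ifs <;> omega

/-- the crossings of the rows of a half edge. -/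
theorem cr_crs {v d : Pt} (h : De (v, d)) (h0 : 0 ≤ ri v) (h1 : ri v < (2 * k : ℕ)) :
    crs k (ps (2 * k) v) (ps (2 * k) (v + d)) = cr (fc k) (v, d) - cr (fc 1) (v, d) ∧
      crsJ k (ps (2 * k) v) (ps (2 * k) (v + d)) = cr (fc (2 * k)) (v, d) - cr (fc (k + 1)) (v, d) := by
  have hvv : ((ri v : ℤ) : ZMod (2 * k)).val = (ri v).toNat := by
    have e : ((ri v : ℤ) : ZMod (2 * k)) = (((ri v).toNat : ℕ) : ZMod (2 * k)) := by
      conv_lhs => rw [← Int.toNat_of_nonneg h0]
      rw [Int.cast_natCast]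
    rw [e, ZMod.val_natCast]
    exact Nat.mod_eq_of_lt (by omega)
  simp only [Pool.Agent.NUF.Cyl.cr_fc h]
  have z : ∀ a b : V (2 * k), (a.1 = 0 → b.1 ≠ -1) → (a.1 = -1 → b.1 ≠ 0) → crs k a b = 0 ∧ crsJ k a b = 0 := by
    intro a b e1 e2
    constructor
    · unfold crs
      rw [if_neg fun h => e2 h.1 h.2.1, if_neg fun h => e1 h.1 h.2.1]
    · unfold crsJ
      rw [if_neg fun h => e2 h.1 h.2.1, if_neg fun h => e1 h.1 h.2.1]
  have c0 : ∀ (p : Pt × Pt), p.2 ≠ (1, -1) → p.2 ≠ (-1, 1) → De p → Pool.Agent.NUF.Cyl.crl p = 0 := by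
    intro p e1 e2 hp
    have h3 := cr_o (fc ((ri p.1).toNat + 1)) (h := p) e1 e2
    rw [Pool.Agent.NUF.Cyl.cr_fc hp, if_pos (by push_cast; omega)] at h3
    exact h3
  have fin0 : d ≠ (1, -1) → d ≠ (-1, 1) → co (v + d) = co v →
      crs k (ps (2 * k) v) (ps (2 * k) (v + d)) =
        (if ri v < (k : ℤ) then Pool.Agent.NUF.Cyl.crl (v, d) else 0) -
          (if ri v < ((1 : ℕ) : ℤ) then Pool.Agent.NUF.Cyl.crl (v, d) else 0) ∧
      crsJ k (ps (2 * k) v) (ps (2 * k) (v + d)) =
        (if ri v < ((2 * k : ℕ) : ℤ) then Pool.Agent.NUF.Cyl.crl (v, d) else 0) -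
          (if ri v < ((k + 1 : ℕ) : ℤ) then Pool.Agent.NUF.Cyl.crl (v, d) else 0) := by
    intro hp hq hc
    rw [c0 (v, d) hp hq h]
    have := z (ps (2 * k) v) (ps (2 * k) (v + d)) (fun e => ?_) (fun e => ?_)
    · simpa using this
    · show co (v + d) ≠ -1
      rw [hc, show co v = 0 from e]
      decide
    · show co (v + d) ≠ 0
      rw [hc, show co v = -1 from e]
      decide
  rcases vt_cases h.2.1 with e | e
  · simp only at e
    rcases dir_A h.1 (j := co v) (r := ri v) (by rw [← e]; exact h.2.2) with rfl | rfl | rfl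
    · refine fin0 (by decide) (by decide) ?_
      rw [e, A_1, co_B, co_A]
    · have e1 : ps (2 * k) v = (co v, ((ri v : ℤ) : ZMod (2 * k)), false) := by
        conv_lhs => rw [e]
        exact ps_A _ _ _
      have e2 : ps (2 * k) (v + (-1, 1)) = (co v - 1, ((ri v : ℤ) : ZMod (2 * k)), true) := by
        conv_lhs => rw [e]
        rw [A_2, ps_B]
      have e3 : Pool.Agent.NUF.Cyl.crl (v, ((-1, 1) : Pt)) = if co v = 0 then -1 else 0 := by
        conv_lhs => rw [e]
        exact crl_A _ _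
      rw [e1, e2, e3]
      unfold crs crsJ
      simp only [hvv]
      by_cases hc : co v = 0
      · simp only [hc]
        norm_num
        constructor
        · split_ifs <;> omega
        · split_ifs <;> omega
      · constructor
        · rw [if_neg fun hh => hc (by have := hh.2.1; omega), if_neg fun hh => hc hh.1]
          simp only [if_neg hc, ite_self, sub_self]
        · rw [if_neg fun hh => hc (by have := hh.2.1; omega), if_neg fun hh => hc hh.1]
          simp only [if_neg hc, ite_self, sub_self]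
    · refine fin0 (by decide) (by decide) ?_
      conv_lhs => rw [e]
      rw [A_3, co_B]
  · simp only at e
    rcases dir_B h.1 (j := co v) (r := ri v) (by rw [← e]; exact h.2.2) with rfl | rfl | rfl
    · refine fin0 (by decide) (by decide) ?_
      conv_lhs => rw [e]
      rw [B_1, co_A]
    · have e1 : ps (2 * k) v = (co v, ((ri v : ℤ) : ZMod (2 * k)), true) := by
        conv_lhs => rw [e]
        exact ps_B _ _ _
      have e2 : ps (2 * k) (v + (1, -1)) = (co v + 1, ((ri v : ℤ) : ZMod (2 * k)), false) := by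
        conv_lhs => rw [e]
        rw [B_2, ps_A]
      have e3 : Pool.Agent.NUF.Cyl.crl (v, ((1, -1) : Pt)) = if co v = -1 then 1 else 0 := by
        conv_lhs => rw [e]
        exact crl_B _ _
      rw [e1, e2, e3]
      unfold crs crsJ
      simp only [hvv]
      by_cases hc : co v = -1
      · simp only [hc]
        norm_num
        constructor
        · split_ifs <;> omega
        · split_ifs <;> omega
      · constructor
        · rw [if_neg fun hh => hc hh.1, if_neg fun hh => hc (by have := hh.2.1; omega)]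
          simp only [if_neg hc, ite_self, sub_self]
        · rw [if_neg fun hh => hc hh.1, if_neg fun hh => hc (by have := hh.2.1; omega)]
          simp only [if_neg hc, ite_self, sub_self]
    · refine fin0 (by decide) (by decide) ?_
      conv_lhs => rw [e]
      rw [B_3, co_A]

section nm

variable {N : ℕ} (hN : 1 ≤ N)

theorem nm_add (v d : Pt) : (Cy N hN).nm v + d = tr (N * (-(ri v / N))) (v + d) := by
  rw [nm_eq]
  unfold nmN tr
  simp only [Prod.ext_iff, Prod.fst_add, Prod.snd_add]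
  constructor <;> ring

theorem ps_nm_add (v d : Pt) : ps N ((Cy N hN).nm v + d) = ps N (v + d) := by
  rw [nm_add, ps_tr]

theorem de_nm {v d : Pt} (h : De (v, d)) : De ((Cy N hN).nm v, d) := by
  obtain ⟨h1, h2, h3⟩ := h
  refine ⟨h1, ?_, ?_⟩
  · simp only [vt_iff] at h2 ⊢
    have := Pool.Agent.NUF.Cyl.nn_nm hN v
    rw [this]
    exact h2
  · simp only at h3 ⊢
    rw [nm_add, vt_iff] at *
    unfold tr
    have e : ((v + d).1 + (N : ℤ) * (-(ri v / N))) - ((v + d).2 + (N : ℤ) * (-(ri v / N))) = (v + d).1 - (v + d).2 := by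
      ring
    simp only [e]
    exact h3

end nm

/-- **the sum of the labels of the half edges of a word.** -/
theorem sum_lab (hk : 1 ≤ k) {n : ℕ} {t : List Bool} (ht : t ∈ Wd k n) (a b : ℤ) {lam : Pt × Pt → ℤ}
    (hl : ∀ h : Pt × Pt, De h → (Cy (2 * k) (GLD.two_k hk)).nm h.1 = h.1 →
      lam h = a * (cr (fc k) h - cr (fc 1) h) + b * (cr (fc (2 * k)) h - cr (fc (k + 1)) h)) :
    ∑ i ∈ range t.length, lam ((Cy (2 * k) (GLD.two_k hk)).nm (vx (pL 0).1 (pL 0).2 t i), dx (pL 0).2 t i) =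
      (a - b) * cw k n (wk k n t) := by
  have hstep : ∀ i, lam ((Cy (2 * k) (GLD.two_k hk)).nm (vx (pL 0).1 (pL 0).2 t i), dx (pL 0).2 t i) =
      a * crs k (wv k t i) (wv k t (i + 1)) + b * crsJ k (wv k t i) (wv k t (i + 1)) := by
    intro i
    set v := vx (pL 0).1 (pL 0).2 t i with hv
    set d := dx (pL 0).2 t i with hd
    have h1 : De ((Cy (2 * k) (GLD.two_k hk)).nm v, d) := de_nm _ (de_w t i)
    have h2 : (Cy (2 * k) (GLD.two_k hk)).nm ((Cy (2 * k) (GLD.two_k hk)).nm v) = (Cy (2 * k) (GLD.two_k hk)).nm v :=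
      Nm.idem _ v
    have h3 := Pool.Agent.NUNC.nm_fix_iff.1 h2
    have h4 := cr_crs (k := k) h1 h3.1 h3.2
    rw [hl _ h1 h2, ← h4.1, ← h4.2, ps_nm, ps_nm_add]
    rfl
  rw [Finset.sum_congr rfl fun i _ => hstep i, ht.1, Finset.sum_range_succ']
  have hw := wk_mem hk ht
  have e0 : crs k (wv k t 0) (wv k t (0 + 1)) = 0 ∧ crsJ k (wv k t 0) (wv k t (0 + 1)) = 0 := by
    rw [zero_add, wv_zero, wv_one, crs_LR, crsJ_LR, ZMod.val_zero]
    simp
  rw [e0.1, e0.2]
  have e2 : ∑ i ∈ range n, (a * crs k (wv k t (i + 1)) (wv k t (i + 1 + 1)) + b * crsJ k (wv k t (i + 1)) (wv k t (i + 1 + 1))) =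
      a * cw k n (wk k n t) + b * cwJ k n (wk k n t) := by
    unfold CylSaw.cw cwJ
    rw [Finset.mul_sum, Finset.mul_sum, ← Finset.sum_add_distrib, ← Fin.sum_univ_eq_sum_range
      (fun i => a * crs k (wv k t (i + 1)) (wv k t (i + 1 + 1)) + b * crsJ k (wv k t (i + 1)) (wv k t (i + 1 + 1))) n]
    rfl
  rw [e2, cwJ_eq hk hw]
  ring


/-! ### the labels of the legs -/

theorem mem_rowJ' {a : Fin (2 * k)} : a ∈ rowJ k ↔ 0 < (a : ℕ) ∧ (a : ℕ) < k := by
  unfold rowJ
  rw [List.mem_map]
  constructor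
  · rintro ⟨i, -, rfl⟩
    have := i.2
    simp only
    omega
  · rintro ⟨h1, h2⟩
    exact ⟨⟨(a : ℕ) - 1, by omega⟩, List.mem_finRange _, Fin.ext (by simp only; omega)⟩

theorem mem_rowI' {a : Fin (2 * k)} : a ∈ rowI k ↔ k < (a : ℕ) := by
  unfold rowI
  rw [List.mem_map]
  constructor
  · rintro ⟨i, -, rfl⟩
    simp only
    omega
  · intro h1
    have := a.2
    exact ⟨⟨(a : ℕ) - (k + 1), by omega⟩, List.mem_finRange _, Fin.ext (by simp only; omega)⟩

theorem mem_lnL {l : List (Fin (2 * k))} {x : Lab} : x ∈ (l.map lnL).map Prod.fst ↔ ∃ a ∈ l, lW 0 ((a : ℕ) : ℤ) = x := by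
  rw [List.map_map, List.mem_map]
  rfl

theorem cL_zero {x : Lab} (h : ∀ r : ℤ, x ≠ lW 0 r) : cL k x = 0 := by
  unfold cL
  refine cS_0 ?_ ?_
  · rw [mem_lnL]
    rintro ⟨a, -, e⟩
    exact h _ e.symm
  · rw [mem_lnL]
    rintro ⟨a, -, e⟩
    exact h _ e.symm

theorem lW_inj_lb {j j' r r' : ℤ} : lW j r = lW j' r' ↔ j = j' ∧ r = r' := by
  unfold lW
  rw [Sum.inl.injEq, Prod.mk.injEq, A_inj]
  simp

theorem cL_lW {j r : ℤ} (h0 : 0 ≤ r) (h1 : r < (2 * k : ℕ)) :
    cL k (lW j r) = if j = 0 then (if 0 < r ∧ r < k then 1 else if k < r then -1 else 0) else 0 := by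
  by_cases hj : j = 0
  · subst hj
    rw [if_pos rfl]
    have hJ : lW 0 r ∈ ((rowJ k).map lnL).map Prod.fst ↔ 0 < r ∧ r < k := by
      rw [mem_lnL]
      constructor
      · rintro ⟨a, ha, e⟩
        rw [mem_rowJ'] at ha
        have := (lW_inj_lb.1 e).2
        omega
      · rintro ⟨h2, h3⟩
        refine ⟨⟨r.toNat, by omega⟩, mem_rowJ'.2 ⟨by simp only; omega, by simp only; omega⟩, ?_⟩
        rw [lW_inj_lb]
        exact ⟨rfl, by simp only; omega⟩
    have hI : lW 0 r ∈ ((rowI k).map lnL).map Prod.fst ↔ k < r := by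
      rw [mem_lnL]
      constructor
      · rintro ⟨a, ha, e⟩
        rw [mem_rowI'] at ha
        have := (lW_inj_lb.1 e).2
        omega
      · intro h2
        refine ⟨⟨r.toNat, by omega⟩, mem_rowI'.2 (by simp only; omega), ?_⟩
        rw [lW_inj_lb]
        exact ⟨rfl, by simp only; omega⟩
    unfold cL cS
    simp only [hJ, hI]
  · rw [if_neg hj]
    exact cL_zero fun s e => hj (lW_inj_lb.1 e).1

/-- the label of a half edge in terms of the crossings. -/
theorem lbh_cr (hk : 1 ≤ k) {h : Pt × Pt} (hd : De h) (hn : (Cy (2 * k) (GLD.two_k hk)).nm h.1 = h.1) :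
    lbh (Cy (2 * k) (GLD.two_k hk)) (cL k) h =
      -1 * (cr (fc k) h - cr (fc 1) h) + 1 * (cr (fc (2 * k)) h - cr (fc (k + 1)) h) := by
  obtain ⟨v, d⟩ := h
  have hb := Pool.Agent.NUNC.nm_fix_iff.1 hn
  simp only at hb
  have hB : ∀ (j r r' : ℤ) (d : Pt), (hf (_root_.EXL.B j r, d) : Lab) ≠ lW 0 r' := by
    intro j r r' d e
    unfold lW at e
    rw [Sum.inl.injEq, Prod.mk.injEq] at e
    have h1 := e.1
    simp only [_root_.EXL.A, _root_.EXL.B, Prod.mk.injEq] at h1
    omega
  have hdir : ∀ (u : Pt) (r' : ℤ) (d : Pt), d ≠ (-1, 1) → (hf (u, d) : Lab) ≠ lW 0 r' := by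
    intro u r' d hd e
    unfold lW at e
    rw [Sum.inl.injEq, Prod.mk.injEq] at e
    exact hd e.2
  have hz : d ≠ (1, -1) → d ≠ (-1, 1) → -1 * (cr (fc k) (v, d) - cr (fc 1) (v, d)) +
      1 * (cr (fc (2 * k)) (v, d) - cr (fc (k + 1)) (v, d)) = 0 := by
    intro e1 e2
    rw [cr_o _ e1 e2, cr_o _ e1 e2, cr_o _ e1 e2, cr_o _ e1 e2]
    rfl
  rcases vt_cases hd.2.1 with e | e
  · simp only at e
    have hrv : ∀ r', (hf ((Cy (2 * k) (GLD.two_k hk)).rv (v, d)) : Lab) ≠ lW 0 r' := by
      intro r' e'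
      unfold lW at e'
      rw [Sum.inl.injEq] at e'
      have h1 := congrArg (fun p : Pt × Pt => (p.1.1 - p.1.2) % 3) e'
      have h2 := Pool.Agent.NUF.Cyl.nn_nm (GLD.two_k hk) (v + d)
      have h3 : (((Cy (2 * k) (GLD.two_k hk)).rv (v, d)).1.1 - ((Cy (2 * k) (GLD.two_k hk)).rv (v, d)).1.2) =
          (v + d).1 - (v + d).2 := h2
      simp only [h3, _root_.EXL.A] at h1
      rcases dir_A hd.1 (j := co v) (r := ri v) (by rw [← e]; exact hd.2.2) with rfl | rfl | rfl
      · rw [e, A_1] at h1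
        simp only [_root_.EXL.B] at h1
        omega
      · rw [e, A_2] at h1
        simp only [_root_.EXL.B] at h1
        omega
      · rw [e, A_3] at h1
        simp only [_root_.EXL.B] at h1
        omega
    unfold lbh
    rw [cL_zero hrv, sub_zero]
    by_cases hd1 : d = (-1, 1)
    · subst hd1
      have e1 : (hf (v, ((-1, 1) : Pt)) : Lab) = lW (co v) (ri v) := by
        conv_lhs => rw [e]
        rfl
      have e2 : ∀ s : ℕ, cr (fc s) (v, ((-1, 1) : Pt)) = if co v = 0 ∧ ri v < s then -1 else 0 := by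
        intro s
        conv_lhs => rw [e]
        exact cr_A _ _ _
      rw [e1, cL_lW hb.1 hb.2, e2, e2, e2, e2]
      by_cases hc : co v = 0
      · simp only [hc, if_true, true_and]
        split_ifs <;> omega
      · simp only [hc, if_false, false_and]
        rfl
    · rw [cL_zero fun r' => hdir _ _ _ hd1, hz ?_ hd1]
      rintro rfl
      rcases dir_A hd.1 (j := co v) (r := ri v) (by rw [← e]; exact hd.2.2) with h | h | h
      · exact absurd (show ((1, -1) : Pt) = (1, 0) from h) (by decide)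
      · exact absurd (show ((1, -1) : Pt) = (-1, 1) from h) (by decide)
      · exact absurd (show ((1, -1) : Pt) = (0, -1) from h) (by decide)
  · simp only at e
    unfold lbh
    rw [cL_zero (x := hf (v, d)) (fun r' => by rw [e]; exact hB _ _ _ _), zero_sub]
    by_cases hd1 : d = (1, -1)
    · subst hd1
      have e0 : (Cy (2 * k) (GLD.two_k hk)).nm (v + (1, -1)) = _root_.EXL.A (co v + 1) (ri v) := by
        conv_lhs => rw [e]
        rw [B_2]
        exact Pool.Agent.NUF.Cyl.nm_A (GLD.two_k hk) _ hb.1 hb.2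
      have e1 : (hf ((Cy (2 * k) (GLD.two_k hk)).rv (v, ((1, -1) : Pt))) : Lab) = lW (co v + 1) (ri v) := by
        unfold lW Nm.rv Nm.nb
        simp only
        rw [e0]
        rfl
      have e2 : ∀ s : ℕ, cr (fc s) (v, ((1, -1) : Pt)) = if co v = -1 ∧ ri v < s then 1 else 0 := by
        intro s
        rw [Pool.Agent.NUF.Cyl.cr_fc hd]
        have e3 : Pool.Agent.NUF.Cyl.crl (v, ((1, -1) : Pt)) = if co v = -1 then 1 else 0 := by
          conv_lhs => rw [e]
          exact crl_B _ _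
        rw [e3]
        simp only
        split_ifs <;> first | rfl | (exfalso; tauto)
      rw [e1, cL_lW hb.1 hb.2, e2, e2, e2, e2]
      by_cases hc : co v = -1
      · simp only [hc]
        norm_num
        split_ifs <;> omega
      · have hc' : ¬ co v + 1 = 0 := by omega
        simp only [hc, hc', if_false, false_and]
        rfl
    · have hd2 : d ≠ (-1, 1) := by
        rintro rfl
        rcases dir_B hd.1 (j := co v) (r := ri v) (by rw [← e]; exact hd.2.2) with h | h | h
        · exact absurd (show ((-1, 1) : Pt) = (-1, 0) from h) (by decide)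
        · exact absurd (show ((-1, 1) : Pt) = (1, -1) from h) (by decide)
        · exact absurd (show ((-1, 1) : Pt) = (0, 1) from h) (by decide)
      rw [hz hd1 hd2, neg_eq_zero]
      refine cL_zero fun r' => ?_
      refine hdir _ _ _ fun h => hd1 ?_
      have : - -d = -((-1, 1) : Pt) := congrArg Neg.neg h
      rw [neg_neg] at this
      rw [this]
      rfl

/-- **The label of a word is `-2` times the crossing number of its walk.** -/
theorem lbs_wind (hk : 1 ≤ k) {n : ℕ} {t : List Bool} (ht : t ∈ Wd k n) :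
    lbs (Cy (2 * k) (GLD.two_k hk)) (cL k) (pL 0) t = -2 * wind (wk k n t) := by
  have h := sum_lab hk ht (-1) 1 (lam := lbh (Cy (2 * k) (GLD.two_k hk)) (cL k)) (fun h h1 h2 => lbh_cr hk h1 h2)
  rw [wind_eq_cw hk (wk_mem hk ht)]
  exact h

end Pool.Agent.WND
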