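import Pool.Agent.WND.RingsW
import Pool.Agent.WND.RRW
import Pool.Agent.NU5.Main

/-!
# The two-point function with winding weight is the limit of the words (plan W, W1c)
-/

set_option autoImplicit false

namespace Pool.Agent.WND

open Pool.Agent.NUF Pool.Agent Pool.Agent.NUU Pool.Agent.NUT2 Filter Topology
open Pool.Agent.EXL hiding cc
open Pool.Agent.EXL.Pat
open Pool.Agent.NUN (cc Xr Xl)
open Pool.Agent.NUNC (dd)
open Pool.Agent.MXR (XR XL prs rowI rowJ nodup_XR nodup_XL cc_XR dd_XR cc_XL dd_XL cc_ne_dd Xr_notMem)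
open Pool.Agent.TC (nuw)

/-- The two-point function in terms of the function of the cut. -/
theorem W0W_pU (χ : ℂ) {k : ℕ} (hk : 1 ≤ k) : W0W χ k hk =
    NUG.pU (VR cc dd (fun _ => (0 : ℂ)) (XR (2 * k))) (VR cc dd (fun _ => (0 : ℂ)) (XL (2 * k)))
      (PG χ (cS (prs (rowI k)) (prs (rowJ k))) (Xr (MXR.r0 hk)) (Xr (MXR.rk hk)) (prs (rowI k) ++ prs (rowJ k))) := by
  rw [NUG.pU_apply]
  unfold W0W WRW chS
  rw [Wp_PG, NU5.rowsR_k hk, NU5.rowsL_k hk, NU5.Ik_eq hk, NU5.Jk_eq hk]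
  rfl

/-- **The two-point function is the limit of the words.** -/
theorem W0W_lim {χ : ℂ} (hχ : χ ≠ 0) {k : ℕ} (hk : 1 ≤ k) :
    Tendsto (fun m => WmW χ hk m) atTop (𝓝 (W0W χ k hk)) := by
  rw [W0W_pU]
  have hXY : ∀ x ∈ XR (2 * k), x ∉ XL (2 * k) := by
    intro x hx hx'
    obtain ⟨a, -, rfl⟩ := List.mem_map.1 hx
    exact Xr_notMem a hx'
  have h1 := NUG.ring_pU_lim (nodup_XR (2 * k)) (nodup_XL (2 * k)) hXY (cc_ne_dd _) (cc_XR _) (dd_XR _) (cc_XL _)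
    (dd_XL _) (GLD.isD_VR0 (nodup_XR (2 * k)) (cc_ne_dd _) (cc_XR _) (dd_XR _))
    (GLD.isD_VR0 (nodup_XL (2 * k)) (cc_ne_dd _) (cc_XL _) (dd_XL _))
    (PG χ (cS (prs (rowI k)) (prs (rowJ k))) (Xr (MXR.r0 hk)) (Xr (MXR.rk hk)) (prs (rowI k) ++ prs (rowJ k)))
  refine h1.congr' ?_
  filter_upwards [eventually_ge_atTop 1] with m hm
  exact rings_W hχ hk hm

end Pool.Agent.WND
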