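import Pool.Agent.WND.SumW
import Pool.Agent.WND.LbW
import Pool.Agent.WND.RRW
import Pool.Agent.WND.NzZ
import Pool.Agent.WND.LimW

/-!
# PLAN W, W1c: the two-point function of the lattice with winding weight is the sum over the walks (helper69)
-/

set_option autoImplicit false

noncomputable section

namespace Pool.Agent.WND

open Filter Topology
open Pool.Agent.CylSaw (Saw wt cn Wz)

variable {k : ℕ}

/-- **Every nonzero parameter.** -/
theorem W0W_hasSum (hk : 1 ≤ k) {χ : ℂ} (hχ : χ ≠ 0) :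
    HasSum (fun w : Saw k => (wt w : ℂ) * (χ ^ 2) ^ (-cn w)) (W0W χ k hk) :=
  walks_all hk hχ (fun _ _ ht => lbs_wind hk ht) (W0W_lim hχ hk)
    (W0W_lim (Complex.ofReal_ne_zero.2 (norm_ne_zero_iff.2 hχ)) hk)

/-- **Positive parameters.** -/
theorem W0W_pos (hk : 1 ≤ k) {x : ℝ} (hx : 0 < x) :
    HasSum (fun w : Saw k => wt w * (x ^ 2) ^ (-cn w)) (W0W (x : ℂ) k hk).re ∧ (W0W (x : ℂ) k hk).im = 0 :=
  walks_pos hk hx (fun _ _ ht => lbs_wind hk ht) (W0W_lim (Complex.ofReal_ne_zero.2 hx.ne') hk)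

/-- **The unit circle.** -/
theorem W0W_Wz (hk : 1 ≤ k) {χ : ℂ} {d : ℝ} (hd : χ ^ 2 = Complex.exp (Complex.I * (Real.pi * d))) :
    W0W χ k hk = Wz k (-d) :=
  Wz_of hk hd (fun _ _ ht => lbs_wind hk ht)
    (W0W_lim (fun h => Complex.exp_ne_zero (Complex.I * (Real.pi * d)) (by rw [← hd, h]; ring)) hk)

/-- the parameter of the angle `d`. -/
def chd (d : ℝ) : ℂ := Complex.exp (-(Complex.I * (Real.pi * d / 2)))

theorem chd_ne (d : ℝ) : chd d ≠ 0 := Complex.exp_ne_zero _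

theorem chd_sq (d : ℝ) : chd d ^ 2 = Complex.exp (Complex.I * (Real.pi * ((-d : ℝ) : ℂ))) := by
  unfold chd
  rw [← Complex.exp_nat_mul]
  congr 1
  push_cast
  ring

theorem chd_zt (d : ℝ) : chd d ^ 2 = (_root_.WND.zt (d : ℂ))⁻¹ := by
  rw [chd_sq]
  unfold _root_.WND.zt
  rw [← Complex.exp_neg]
  congr 1
  push_cast
  ring

/-- **The physical function of the angle `d`.** -/
theorem W0W_chd (hk : 1 ≤ k) (d : ℝ) : W0W (chd d) k hk = Wz k d := by
  have h := W0W_Wz hk (χ := chd d) (d := -d) (chd_sq d)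
  rwa [neg_neg] at h

end Pool.Agent.WND
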