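import Pool.Agent.PB.Close
import Pool.Agent.WND.TopW
import Pool.Agent.WND.W1cEnd
import Pool.Agent.WND.TailS
import Pool.Agent.WND.TailW
import Pool.Agent.WND.CylAng2

/-!
# PLAN W and W+: no hypothesis left (helper85)
-/

set_option autoImplicit false

noncomputable section

namespace WND

theorem trz0_of_trz {r : ℕ → ℝ} {W : ℕ → ℝ → ℂ} {d0 : ℝ} (h : TRZ r W d0) : TRZ0 r W d0 := by
  obtain ⟨c, C, G, u, hc, hu, hT⟩ := h
  exact ⟨c, C, G, u, lt_of_le_of_lt (by positivity) hc, hu, hT⟩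

end WND

namespace Pool.Agent.CylSaw

open Filter Topology MeasureTheory ProbabilityTheory Metric

theorem link : WND.LinkW Wz := fun _ hk _ _ h => Pool.Agent.WND.W0W_Wz hk h

theorem trz0W : WND.TRZ0 PBM.nrm Wz (1 / 10) := WND.trz0_of_trz (WND.trz_w link)

theorem crudeW : Crude :=
  crude (fun χ hχ => WND.latW (by rintro rfl; simp at hχ)) (walkW_of link) PBC.trp WND.tailS

/-- **the winding angle of the critical self-avoiding walk** -/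
theorem windW :
    (∀ k : ℕ, 1 ≤ k → 0 < Z k ∧
      (∀ t : ℂ, Summable fun w : Saw k => (wt w : ℂ) * Complex.exp (t * (wang w : ℂ))) ∧
      ∑' w : Saw k, wt w * wang w = 0) ∧
    (∃ (t0 c C : ℝ) (M : ℂ → ℂ), 0 < t0 ∧ 0 < c ∧ DifferentiableOn ℂ M (ball 0 t0) ∧ M 0 = 1 ∧
      ∀ k : ℕ, 1 ≤ k → ∀ t : ℂ, ‖t‖ < t0 →
        ‖angMgf k t * Complex.exp (-((8 / 3 * Real.log k : ℝ) : ℂ) * t ^ 2) - M t‖ ≤ C * (k : ℝ) ^ (-c)) ∧
    (∃ v c C : ℝ, 0 < c ∧ ∀ k : ℕ, 1 ≤ k → |angSq k - (16 / 3 * Real.log k + v)| ≤ C * (k : ℝ) ^ (-c)) ∧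
    (∃ x0 : ℝ, 0 < x0 ∧ ∀ x : ℝ, 0 < x → x < x0 →
      Tendsto (fun k : ℕ => Real.log (angProb k (Set.Ici (x * Real.log k))) / Real.log k) atTop
        (𝓝 (-(3 / 32 * x ^ 2)))) ∧
    ∀ x : ℝ, Tendsto (fun k : ℕ => angProb k (Set.Iic (x * √(Real.log k)))) atTop
      (𝓝 ((gaussianReal 0 (16 / 3)).real (Set.Iic x))) :=
  wind_final (by norm_num) PBC.trp trz0W crudeW

end Pool.Agent.CylSaw

end
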