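import Pool.Agent.WND.CylFin
import Pool.Agent.WND.WcCyl

/-!
# PLAN W, W1c (g): the sums over the words are sums over the walks of the public cylinder (helper69)

`tendsto_words`: a dominated sum over the words of the rings `-m, ..., m - 1` tends to the sum over the walks.
`walks_of`: the limit of `WmW` is the sum over the walks with the winding weight.
-/

set_option autoImplicit false

noncomputable section

namespace Pool.Agent.WND

open Filter Topology HexObs HexObs.LP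
open Pool.Agent.NUF.Cyl (Nm Cy pL)
open Pool.Agent.GLD (two_k)
open Pool.Agent.CylSaw (Saw Wd wk wk_mem wk_inj wk_surj wt cn wind Wz Fm Fm_mono iUnion_eq zc_eq summable_wt norm_term)

variable {k : ℕ}

/-- the word of a walk. -/
def word (hk : 1 ≤ k) (w : Saw k) : List Bool := (wk_surj hk w.2.2).choose

theorem word_mem (hk : 1 ≤ k) (w : Saw k) : word hk w ∈ Wd k w.1 := (wk_surj hk w.2.2).choose_spec.1

theorem wk_word (hk : 1 ≤ k) (w : Saw k) : wk k w.1 (word hk w) = w.2.1 := (wk_surj hk w.2.2).choose_spec.2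

theorem word_length (hk : 1 ≤ k) (w : Saw k) : (word hk w).length = w.1 + 1 := (word_mem hk w).1

theorem word_inj (hk : 1 ≤ k) : Function.Injective (word hk) := by
  intro w w' h
  have h1 := word_length hk w
  have h2 := word_length hk w'
  rw [h] at h1
  have h3 : w.1 = w'.1 := by omega
  have h4 := wk_word hk w
  have h5 := wk_word hk w'
  rw [h] at h4
  obtain ⟨n, w, hw⟩ := w
  obtain ⟨n', w', hw'⟩ := w'
  simp only at h3
  subst h3
  simp only at h4 h5
  have h6 : w = w' := h4.symm.trans h5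
  subst h6
  rfl

theorem word_wk (hk : 1 ≤ k) {n : ℕ} {t : List Bool} (ht : t ∈ Wd k n) :
    word hk ⟨n, ⟨wk k n t, wk_mem hk ht⟩⟩ = t :=
  wk_inj hk (word_mem hk _) ht (wk_word hk _)

/-- the walks of the words of the rings `-m, ..., m - 1`. -/
def Sm (hk : 1 ≤ k) (m : ℕ) : Finset (Saw k) := (Fm hk m).preimage (word hk) (word_inj hk).injOn

theorem Sm_mono (hk : 1 ≤ k) : Monotone (Sm hk) := by
  intro m m' h w hw
  unfold Sm at hw ⊢
  rw [Finset.mem_preimage] at hw ⊢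
  exact Fm_mono hk h hw

theorem mem_Sm (hk : 1 ≤ k) (w : Saw k) : ∃ m, w ∈ Sm hk m := by
  have h1 : word hk w ∈ ⋃ n, Wd k n := Set.mem_iUnion.2 ⟨w.1, word_mem hk w⟩
  rw [iUnion_eq hk, Set.mem_iUnion] at h1
  obtain ⟨m, hm⟩ := h1
  exact ⟨m, Finset.mem_preimage.2 hm⟩

theorem tendsto_Sm (hk : 1 ≤ k) : Tendsto (Sm hk) atTop atTop :=
  tendsto_atTop_finset_of_monotone (Sm_mono hk) (mem_Sm hk)

theorem sum_Sm (hk : 1 ≤ k) {M : Type*} [AddCommMonoid M] (f : List Bool → M) (m : ℕ) :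
    ∑ w ∈ Sm hk m, f (word hk w) = ∑ t ∈ Fm hk m, f t := by
  classical
  refine Finset.sum_preimage _ _ _ f fun t ht hn => ?_
  exfalso
  apply hn
  have h1 : t ∈ ⋃ m, (Fm hk m : Set (List Bool)) := Set.mem_iUnion.2 ⟨m, ht⟩
  rw [← iUnion_eq hk, Set.mem_iUnion] at h1
  obtain ⟨n, hn⟩ := h1
  exact ⟨_, word_wk hk hn⟩

/-- **dominated sums over the words, general bound.** -/
theorem tendsto_words' (hk : 1 ≤ k) {f : List Bool → ℂ} {b : Saw k → ℝ} (hb : Summable b)
    (hf : ∀ w : Saw k, ‖f (word hk w)‖ ≤ b w) :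
    Tendsto (fun m => ∑ t ∈ Fm hk m, f t) atTop (𝓝 (∑' w : Saw k, f (word hk w))) := by
  have h2 := (Summable.of_norm_bounded hb hf).hasSum
  unfold HasSum at h2
  rw [SummationFilter.unconditional_filter] at h2
  exact (h2.comp (tendsto_Sm hk)).congr fun m => sum_Sm hk f m

/-- **dominated sums over the words.** -/
theorem tendsto_words (hk : 1 ≤ k) {f : List Bool → ℂ} (hf : ∀ w : Saw k, ‖f (word hk w)‖ ≤ wt w) :
    Tendsto (fun m => ∑ t ∈ Fm hk m, f t) atTop (𝓝 (∑' w : Saw k, f (word hk w))) :=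
  tendsto_words' hk (summable_wt hk) hf

/-- **sums of nonnegative terms over the words.** -/
theorem hasSum_words (hk : 1 ≤ k) {f : List Bool → ℝ} (hf : ∀ w : Saw k, 0 ≤ f (word hk w)) {W : ℝ}
    (h : Tendsto (fun m => ∑ t ∈ Fm hk m, f t) atTop (𝓝 W)) : HasSum (fun w : Saw k => f (word hk w)) W := by
  classical
  have h1 : Tendsto (fun m => ∑ w ∈ Sm hk m, f (word hk w)) atTop (𝓝 W) :=
    h.congr fun m => (sum_Sm hk f m).symm
  have hm : Monotone fun m => ∑ w ∈ Sm hk m, f (word hk w) := fun m m' e =>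
    Finset.sum_le_sum_of_subset_of_nonneg (Sm_mono hk e) fun w _ _ => hf w
  have h2 : ∀ s : Finset (Saw k), ∑ w ∈ s, f (word hk w) ≤ W := by
    intro s
    have h3 : ∃ m, s ⊆ Sm hk m := by
      induction s using Finset.induction_on with
      | empty => exact ⟨0, Finset.empty_subset _⟩
      | insert a s _ ih =>
        obtain ⟨m, hm'⟩ := ih
        obtain ⟨m', hm''⟩ := mem_Sm hk a
        refine ⟨max m m', Finset.insert_subset (Sm_mono hk (le_max_right _ _) hm'') ?_⟩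
        exact hm'.trans (Sm_mono hk (le_max_left _ _))
    obtain ⟨m, h3⟩ := h3
    exact (Finset.sum_le_sum_of_subset_of_nonneg h3 fun w _ _ => hf w).trans (hm.ge_of_tendsto h1 m)
  have h4 : Summable fun w : Saw k => f (word hk w) := summable_of_sum_le hf h2
  have h5 := h4.hasSum
  have h6 := h5
  unfold HasSum at h6
  rw [SummationFilter.unconditional_filter] at h6
  have h7 := tendsto_nhds_unique (h6.comp (tendsto_Sm hk)) h1
  rwa [h7] at h5

theorem term_eq (hk : 1 ≤ k)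
    (hlb : ∀ n, ∀ t ∈ Wd k n, lbs (Cy (2 * k) (two_k hk)) (cL k) (pL 0) t = -2 * wind (wk k n t)) (χ : ℂ) (w : Saw k) :
    (xc : ℂ) ^ (word hk w).length * χ ^ lbs (Cy (2 * k) (two_k hk)) (cL k) (pL 0) (word hk w) =
      (wt w : ℂ) * (χ ^ 2) ^ (-cn w) := by
  rw [word_length, hlb w.1 _ (word_mem hk w), wk_word]
  unfold CylSaw.wt cn
  rw [zc_eq]
  push_cast
  congr 1
  rw [← zpow_natCast, ← zpow_mul]
  congr 1
  push_cast
  ring

/-- **The walks with a positive winding weight.** -/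
theorem walks_pos (hk : 1 ≤ k) {x : ℝ} (hx : 0 < x)
    (hlb : ∀ n, ∀ t ∈ Wd k n, lbs (Cy (2 * k) (two_k hk)) (cL k) (pL 0) t = -2 * wind (wk k n t)) {W : ℂ}
    (hlim : Tendsto (fun m => WmW (x : ℂ) hk m) atTop (𝓝 W)) :
    HasSum (fun w : Saw k => wt w * (x ^ 2) ^ (-cn w)) W.re ∧ W.im = 0 := by
  have e : ∀ m, WmW (x : ℂ) hk m =
      ((∑ t ∈ Fm hk m, xc ^ t.length * x ^ lbs (Cy (2 * k) (two_k hk)) (cL k) (pL 0) t : ℝ) : ℂ) := by
    intro m
    push_cast
    rfl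
  have hre : Tendsto (fun m => ∑ t ∈ Fm hk m, xc ^ t.length * x ^ lbs (Cy (2 * k) (two_k hk)) (cL k) (pL 0) t)
      atTop (𝓝 W.re) := by
    refine ((Complex.continuous_re.tendsto W).comp hlim).congr fun m => ?_
    show (WmW (x : ℂ) hk m).re = _
    rw [e, Complex.ofReal_re]
  have hv : ∀ w : Saw k, xc ^ (word hk w).length * x ^ lbs (Cy (2 * k) (two_k hk)) (cL k) (pL 0) (word hk w) =
      wt w * (x ^ 2) ^ (-cn w) := by
    intro w
    have := term_eq hk hlb (x : ℂ) w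
    exact_mod_cast this
  refine ⟨?_, ?_⟩
  · have h1 := hasSum_words hk (f := fun t => xc ^ t.length * x ^ lbs (Cy (2 * k) (two_k hk)) (cL k) (pL 0) t)
      (fun w => mul_nonneg (pow_nonneg xc_pos.le _) (zpow_nonneg hx.le _)) hre
    refine h1.congr_fun ?_
    exact fun w => (hv w).symm
  · have h3 : Tendsto (fun m => (WmW (x : ℂ) hk m).im) atTop (𝓝 W.im) := (Complex.continuous_im.tendsto W).comp hlim
    refine tendsto_nhds_unique h3 ?_
    simp only [e, Complex.ofReal_im]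
    exact tendsto_const_nhds

/-- **The walks with the winding weight, every nonzero parameter.** -/
theorem walks_all (hk : 1 ≤ k) {χ : ℂ} (hχ : χ ≠ 0)
    (hlb : ∀ n, ∀ t ∈ Wd k n, lbs (Cy (2 * k) (two_k hk)) (cL k) (pL 0) t = -2 * wind (wk k n t)) {W W' : ℂ}
    (hlim : Tendsto (fun m => WmW χ hk m) atTop (𝓝 W))
    (hlim' : Tendsto (fun m => WmW (‖χ‖ : ℂ) hk m) atTop (𝓝 W')) :
    HasSum (fun w : Saw k => (wt w : ℂ) * (χ ^ 2) ^ (-cn w)) W := by
  have h1 := (walks_pos hk (norm_pos_iff.2 hχ) hlb hlim').1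
  have hn : ∀ w : Saw k, ‖(wt w : ℂ) * (χ ^ 2) ^ (-cn w)‖ = wt w * (‖χ‖ ^ 2) ^ (-cn w) := by
    intro w
    rw [norm_mul, norm_zpow, norm_pow, Complex.norm_real, Real.norm_of_nonneg (CylSaw.wt_pos w).le]
  have h2 := tendsto_words' hk (f := fun t => (xc : ℂ) ^ t.length * χ ^ lbs (Cy (2 * k) (two_k hk)) (cL k) (pL 0) t)
    h1.summable (fun w => by
      show ‖(xc : ℂ) ^ (word hk w).length * χ ^ lbs (Cy (2 * k) (two_k hk)) (cL k) (pL 0) (word hk w)‖ ≤ _
      rw [term_eq hk hlb χ w]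
      exact (hn w).le)
  have h3 : ∑' w : Saw k, (xc : ℂ) ^ (word hk w).length *
      χ ^ lbs (Cy (2 * k) (two_k hk)) (cL k) (pL 0) (word hk w) = ∑' w : Saw k, (wt w : ℂ) * (χ ^ 2) ^ (-cn w) :=
    tsum_congr (term_eq hk hlb χ)
  rw [h3] at h2
  have h4 : Summable fun w : Saw k => (wt w : ℂ) * (χ ^ 2) ^ (-cn w) :=
    Summable.of_norm_bounded h1.summable fun w => (hn w).le
  have h5 := h4.hasSum
  rwa [← tendsto_nhds_unique hlim h2] at h5

/-- **The limit of the sums over the words with the winding weight.** -/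
theorem walks_of (hk : 1 ≤ k) {χ : ℂ} (hχ : ‖χ‖ = 1)
    (hlb : ∀ n, ∀ t ∈ Wd k n, lbs (Cy (2 * k) (two_k hk)) (cL k) (pL 0) t = -2 * wind (wk k n t)) {W : ℂ}
    (hlim : Tendsto (fun m => WmW χ hk m) atTop (𝓝 W)) :
    W = ∑' w : Saw k, (wt w : ℂ) * (χ ^ 2) ^ (-cn w) := by
  have hn : ∀ w : Saw k, ‖(wt w : ℂ) * (χ ^ 2) ^ (-cn w)‖ = wt w := by
    intro w
    rw [norm_mul, norm_zpow, norm_pow, hχ, one_pow, one_zpow, mul_one, Complex.norm_real,
      Real.norm_of_nonneg (CylSaw.wt_pos w).le]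
  have h1 := tendsto_words hk (f := fun t => (xc : ℂ) ^ t.length * χ ^ lbs (Cy (2 * k) (two_k hk)) (cL k) (pL 0) t)
    (fun w => by
      show ‖(xc : ℂ) ^ (word hk w).length * χ ^ lbs (Cy (2 * k) (two_k hk)) (cL k) (pL 0) (word hk w)‖ ≤ wt w
      rw [term_eq hk hlb χ w]
      exact (hn w).le)
  have h2 : ∑' w : Saw k, (xc : ℂ) ^ (word hk w).length *
      χ ^ lbs (Cy (2 * k) (two_k hk)) (cL k) (pL 0) (word hk w) = ∑' w : Saw k, (wt w : ℂ) * (χ ^ 2) ^ (-cn w) :=
    tsum_congr (term_eq hk hlb χ)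
  rw [h2] at h1
  exact tendsto_nhds_unique hlim h1

/-- the same with the angle. -/
theorem Wz_of (hk : 1 ≤ k) {χ : ℂ} {d : ℝ} (hd : χ ^ 2 = Complex.exp (Complex.I * (Real.pi * d)))
    (hlb : ∀ n, ∀ t ∈ Wd k n, lbs (Cy (2 * k) (two_k hk)) (cL k) (pL 0) t = -2 * wind (wk k n t)) {W : ℂ}
    (hlim : Tendsto (fun m => WmW χ hk m) atTop (𝓝 W)) : W = Wz k (-d) := by
  have hχ : ‖χ‖ = 1 := by
    have h1 : ‖χ‖ ^ 2 = 1 := by
      rw [← norm_pow, hd, show Complex.I * ((Real.pi : ℂ) * d) = ((Real.pi * d : ℝ) : ℂ) * Complex.I by push_cast; ring,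
        Complex.norm_exp_ofReal_mul_I]
    have h2 := norm_nonneg χ
    nlinarith
  rw [walks_of hk hχ hlb hlim]
  unfold Wz
  refine tsum_congr fun w => ?_
  rw [hd, ← Complex.exp_int_mul]
  congr 2
  push_cast
  ring

end Pool.Agent.WND
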