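import Mathlib

/-!
# From mod-Gaussian convergence to the central limit theorem

`Q k` = the law of an (integer valued) random variable `c`, `E exp (i b c) * k ^ (a b ^ 2) → M b`
uniformly for `|b| ≤ b0`, `M` continuous at `0`, `M 0 = 1`. Then `s c / sqrt (log k)` converges in law to
the centred Gaussian of variance `2 a s ^ 2`.
-/

set_option autoImplicit false

noncomputable section

open MeasureTheory ProbabilityTheory Filter Topology

namespace WND

/-- the law of `s c / sqrt (log k)` -/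
def scal (Q : ℕ → ProbabilityMeasure ℝ) (s : ℝ) (k : ℕ) : ProbabilityMeasure ℝ :=
  (Q k).map (f := fun x => s / √(Real.log k) * x) (by fun_prop)

/-- the centred Gaussian -/
def gau (v : ℝ) : ProbabilityMeasure ℝ := ⟨gaussianReal 0 v.toNNReal, inferInstance⟩

theorem charFun_scal (Q : ℕ → ProbabilityMeasure ℝ) (s : ℝ) (k : ℕ) (t : ℝ) :
    charFun (scal Q s k) t = charFun (Q k : Measure ℝ) (s / √(Real.log k) * t) := by
  have h : (scal Q s k : Measure ℝ) = (Q k : Measure ℝ).map (fun x => s / √(Real.log k) * x) := rfl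
  rw [h, charFun_map_mul]

theorem charFun_gau {v : ℝ} (hv : 0 ≤ v) (t : ℝ) :
    charFun (gau v) t = ((Real.exp (-(v * t ^ 2 / 2)) : ℝ) : ℂ) := by
  have h : (gau v : Measure ℝ) = gaussianReal 0 v.toNNReal := rfl
  rw [h, charFun_gaussianReal]
  push_cast
  congr 1
  have : ((v.toNNReal : ℝ) : ℂ) = (v : ℂ) := by rw [Real.coe_toNNReal v hv]
  rw [this]
  ring

theorem sqrt_log_tendsto : Tendsto (fun k : ℕ => √(Real.log k)) atTop atTop :=
  Real.tendsto_sqrt_atTop.comp (Real.tendsto_log_atTop.comp tendsto_natCast_atTop_atTop)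

/-- **mod-Gaussian convergence implies the central limit theorem** -/
theorem clt_of_mod {a s b0 : ℝ} (ha : 0 ≤ a) (hb0 : 0 < b0) {Q : ℕ → ProbabilityMeasure ℝ} {M : ℝ → ℂ}
    (hM : ContinuousAt M 0) (hM0 : M 0 = 1)
    (h : ∀ e : ℝ, 0 < e → ∀ᶠ k : ℕ in atTop, ∀ b : ℝ, |b| ≤ b0 →
      ‖charFun (Q k : Measure ℝ) b * (((k : ℝ) ^ (a * b ^ 2) : ℝ) : ℂ) - M b‖ ≤ e) :
    Tendsto (scal Q s) atTop (𝓝 (gau (2 * a * s ^ 2))) := by
  refine ProbabilityMeasure.tendsto_iff_tendsto_charFun.2 fun t => ?_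
  have hv : 0 ≤ 2 * a * s ^ 2 := by positivity
  rw [charFun_gau hv]
  simp_rw [charFun_scal]
  set r : ℕ → ℝ := fun k => s / √(Real.log k) * t with hr
  have hr0 : Tendsto r atTop (𝓝 0) := by
    have : Tendsto (fun k : ℕ => s / √(Real.log k) * t) atTop (𝓝 (0 * t)) :=
      (Tendsto.const_div_atTop sqrt_log_tendsto s).mul_const t
    rwa [zero_mul] at this
  -- the power of `k`
  have hpow : ∀ᶠ k : ℕ in atTop, (k : ℝ) ^ (a * r k ^ 2) = Real.exp (a * s ^ 2 * t ^ 2) := by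
    filter_upwards [eventually_ge_atTop 2] with k hk
    have hk1 : (1 : ℝ) < k := by exact_mod_cast hk
    have hl : 0 < Real.log k := Real.log_pos hk1
    rw [Real.rpow_def_of_pos (by linarith)]
    congr 1
    rw [hr]
    simp only
    rw [mul_pow, div_pow, Real.sq_sqrt hl.le]
    field_simp
  have hMr : Tendsto (fun k => M (r k)) atTop (𝓝 1) := by
    rw [← hM0]; exact hM.tendsto.comp hr0
  have hprod : Tendsto (fun k : ℕ => charFun (Q k : Measure ℝ) (r k) *
      (((k : ℝ) ^ (a * r k ^ 2) : ℝ) : ℂ)) atTop (𝓝 1) := by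
    rw [Metric.tendsto_atTop]
    intro e he
    have h1 := h (e / 3) (by positivity)
    have h2 := (Metric.tendsto_nhds.1 hr0) b0 hb0
    have h3 := (Metric.tendsto_nhds.1 hMr) (e / 3) (by positivity)
    obtain ⟨N, hN⟩ := eventually_atTop.1 (h1.and (h2.and h3))
    refine ⟨N, fun k hk => ?_⟩
    obtain ⟨g1, g2, g3⟩ := hN k hk
    rw [Real.dist_eq, sub_zero] at g2
    have g4 := g1 (r k) g2.le
    rw [dist_eq_norm] at g3 ⊢
    calc ‖charFun (Q k : Measure ℝ) (r k) * (((k : ℝ) ^ (a * r k ^ 2) : ℝ) : ℂ) - 1‖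
        = ‖(charFun (Q k : Measure ℝ) (r k) * (((k : ℝ) ^ (a * r k ^ 2) : ℝ) : ℂ) - M (r k)) +
          (M (r k) - 1)‖ := by congr 1; ring
      _ ≤ e / 3 + e / 3 := (norm_add_le _ _).trans (add_le_add g4 g3.le)
      _ < e := by linarith
  have hE : Real.exp (a * s ^ 2 * t ^ 2) ≠ 0 := (Real.exp_pos _).ne'
  have hfin : Tendsto (fun k : ℕ => charFun (Q k : Measure ℝ) (r k)) atTop
      (𝓝 (1 * (((Real.exp (a * s ^ 2 * t ^ 2))⁻¹ : ℝ) : ℂ))) := by
    refine Tendsto.congr' ?_ (hprod.mul_const (((Real.exp (a * s ^ 2 * t ^ 2))⁻¹ : ℝ) : ℂ))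
    filter_upwards [hpow] with k hk
    rw [hk, mul_assoc, ← Complex.ofReal_mul, mul_inv_cancel₀ hE, Complex.ofReal_one, mul_one]
  rw [one_mul] at hfin
  have h9 : (Real.exp (a * s ^ 2 * t ^ 2))⁻¹ = Real.exp (-(2 * a * s ^ 2 * t ^ 2 / 2)) := by
    rw [← Real.exp_neg]; congr 1; ring
  rw [h9] at hfin
  exact hfin

end WND

end
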