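import Pool.Agent.WND.CWind
import Mathlib.Data.Fin.VecNotation
import Mathlib.Tactic.FinCases

/-!
# The winding number: small cases (helper67)

On the cylinder with 4 rows there is a walk with 10 steps that winds once; on the cylinder with 6 rows there is a walk
with 24 steps that winds twice; the shortest walks do not wind.
-/

set_option autoImplicit false

namespace Pool.Agent.CylSaw.Check

instance {N : ℕ} (u v : V N) : Decidable (WB u v) := by
  unfold WB
  infer_instance

/-- the steps, decidable. -/
def Stp (k : ℕ) (a b : V (2 * k)) : Prop :=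
  (WB a b ∨ WB b a) ∧ ¬ (a = (-1, 0, true) ∧ b = (0, 0, false) ∨ a = (0, 0, false) ∧ b = (-1, 0, true)) ∧
    ¬ (a = (-1, (k : ZMod (2 * k)), true) ∧ b = (0, (k : ZMod (2 * k)), false) ∨
      a = (0, (k : ZMod (2 * k)), false) ∧ b = (-1, (k : ZMod (2 * k)), true))

instance (k : ℕ) (a b : V (2 * k)) : Decidable (Stp k a b) := by
  unfold Stp
  infer_instance

theorem st_of {k : ℕ} {a b : V (2 * k)} (h : Stp k a b) : St k a b := by
  obtain ⟨h1, h2, h3⟩ := h
  rw [St, SimpleGraph.deleteEdges_adj, Set.mem_insert_iff, Set.mem_singleton_iff, not_or]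
  refine ⟨h1, fun e => h2 ?_, fun e => h3 ?_⟩
  · exact Sym2.eq_iff.1 e
  · exact Sym2.eq_iff.1 e

/-- no turn. -/
def w0 : Fin 5 → V (2 * 2) := ![(0, 0, false), (0, 0, true), (0, 1, false), (0, 1, true), (0, 2, false)]

theorem w0_mem : w0 ∈ saws 2 4 :=
  ⟨by decide, by decide, by decide, fun i => st_of (by revert i; decide)⟩

theorem w0_cw : cw 2 4 w0 = 0 := by decide

/-- one turn. -/
def w1 : Fin 11 → V (2 * 2) :=
  ![(0, 0, false), (0, 3, true), (0, 3, false), (-1, 3, true), (-1, 3, false), (-1, 2, true), (-1, 2, false),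
    (-1, 1, true), (0, 1, false), (0, 1, true), (0, 2, false)]

theorem w1_mem : w1 ∈ saws 2 10 :=
  ⟨by decide, by decide, by decide, fun i => st_of (by revert i; decide)⟩

theorem w1_cw : cw 2 10 w1 = 1 := by decide

/-- two turns. -/
def w2 : Fin 25 → V (2 * 3) :=
  ![(0, 0, false), (0, 5, true), (0, 5, false), (-1, 5, true), (-1, 0, false), (-1, 0, true), (-1, 1, false),
    (-1, 1, true), (0, 1, false), (0, 1, true), (1, 1, false), (1, 1, true), (1, 2, false), (1, 2, true),
    (1, 3, false), (0, 3, true), (0, 4, false), (-1, 4, true), (-1, 4, false), (-1, 3, true), (-1, 3, false),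
    (-1, 2, true), (0, 2, false), (0, 2, true), (0, 3, false)]

set_option maxRecDepth 20000 in
theorem w2_mem : w2 ∈ saws 3 24 :=
  ⟨by decide, by decide, by decide, fun i => st_of (by revert i; decide)⟩

set_option maxRecDepth 20000 in
theorem w2_cw : cw 3 24 w2 = 2 := by decide

end Pool.Agent.CylSaw.Check
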