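import Pool.Agent.PB.CylDef
import Mathlib.Data.ZMod.Basic

/-!
# The winding of a walk on the honeycomb cylinder around its two ends (helper67)

`cw k n w`: the number of times the walk `w` crosses the arc of the seam with the rows `1, ..., k - 1` from left to
right, minus the number of times from right to left. The seam is the circle between the columns `-1` and `0`, and the
two ends of the walk, the middles of the cut edges of the rows `0` and `k`, divide it in two arcs.

* `cwJ_eq`: the crossings of the other arc are the opposite number;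
* `ncard_neg`: the law of `cw` is symmetric;
* `ang_eq`: `-2 π cw w` is the total winding angle of `w` around its two ends.
-/

set_option autoImplicit false

namespace Pool.Agent.CylSaw

open Finset

/-! ### the definitions -/

/-- The signed crossing of the arc `1, ..., k - 1` of the seam by the step from `a` to `b`: `1` from left to right,
`-1` from right to left. -/
def crs (k : ℕ) (a b : V (2 * k)) : ℤ :=
  if a.1 = -1 ∧ b.1 = 0 ∧ 1 ≤ a.2.1.val ∧ a.2.1.val < k then 1
  else if a.1 = 0 ∧ b.1 = -1 ∧ 1 ≤ b.2.1.val ∧ b.2.1.val < k then -1 else 0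

/-- The signed crossing of the other arc. -/
def crsJ (k : ℕ) (a b : V (2 * k)) : ℤ :=
  if a.1 = -1 ∧ b.1 = 0 ∧ k < a.2.1.val then 1
  else if a.1 = 0 ∧ b.1 = -1 ∧ k < b.2.1.val then -1 else 0

/-- **The winding number**: the crossings of the arc `1, ..., k - 1` of the seam from left to right minus the crossings
from right to left. -/
def cw (k n : ℕ) (w : Fin (n + 1) → V (2 * k)) : ℤ := ∑ i : Fin n, crs k (w i.castSucc) (w i.succ)

/-- the same for the other arc. -/
def cwJ (k n : ℕ) (w : Fin (n + 1) → V (2 * k)) : ℤ := ∑ i : Fin n, crsJ k (w i.castSucc) (w i.succ)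

/-- The steps of the walks. -/
abbrev St (k : ℕ) (a b : V (2 * k)) : Prop :=
  ((cyl (2 * k)).deleteEdges {cut 0, cut (k : ZMod (2 * k))}).Adj a b

theorem sum_tele {n : ℕ} {M : Type*} [AddCommGroup M] (g : Fin (n + 1) → M) :
    ∑ i : Fin n, (g i.succ - g i.castSucc) = g (Fin.last n) - g 0 := by
  rw [Finset.sum_sub_distrib]
  have h1 := Fin.sum_univ_succ g
  have h2 := Fin.sum_univ_castSucc g
  have h3 : ∑ i : Fin n, g i.succ = ∑ i, g i - g 0 := by rw [h1]; abel
  have h4 : ∑ i : Fin n, g i.castSucc = ∑ i, g i - g (Fin.last n) := by rw [h2]; abel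
  rw [h3, h4]
  abel

section
variable {k : ℕ}

theorem val_k (hk : 1 ≤ k) : ((k : ZMod (2 * k))).val = k := by
  rw [ZMod.val_natCast]
  exact Nat.mod_eq_of_lt (by omega)

theorem val_ne_k (hk : 1 ≤ k) {r : ZMod (2 * k)} (h : r ≠ (k : ZMod (2 * k))) : r.val ≠ k := by
  intro e
  have : NeZero (2 * k) := ⟨by omega⟩
  apply h
  rw [← ZMod.natCast_zmod_val r, e]

theorem val_ne_zero' (hk : 1 ≤ k) {r : ZMod (2 * k)} (h : r ≠ 0) : r.val ≠ 0 := by
  intro e
  have : NeZero (2 * k) := ⟨by omega⟩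
  exact h ((ZMod.val_eq_zero r).1 e)

/-- **The shape of a step**: either it stays in its half of the cylinder, or it crosses the seam in a row that is
neither `0` nor `k`. -/
theorem step_cases' (hk : 1 ≤ k) {a b : V (2 * k)} (h : St k a b) :
    ((0 ≤ a.1 ↔ 0 ≤ b.1) ∧ crs k a b = 0 ∧ crsJ k a b = 0) ∨
    (∃ r : ZMod (2 * k), r.val ≠ 0 ∧ r.val ≠ k ∧
      ((a = (0, r, false) ∧ b = (-1, r, true)) ∨ (a = (-1, r, true) ∧ b = (0, r, false)))) := by
  rw [St, SimpleGraph.deleteEdges_adj, Set.mem_insert_iff, Set.mem_singleton_iff, not_or] at h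
  obtain ⟨h1, h2, h3⟩ := h
  have key : ∀ u v : V (2 * k), WB u v → s(u, v) ≠ cut 0 → s(u, v) ≠ cut (k : ZMod (2 * k)) →
      ((0 ≤ u.1 ↔ 0 ≤ v.1) ∧ (u.1 = 0 → v.1 ≠ -1) ∧ (u.1 = -1 → v.1 ≠ 0)) ∨
      (∃ r : ZMod (2 * k), r.val ≠ 0 ∧ r.val ≠ k ∧ u = (0, r, false) ∧ v = (-1, r, true)) := by
    intro u v huv g1 g2
    obtain ⟨c1, c2, c3⟩ := huv
    by_cases hu : u.1 = 0 ∧ v.1 = -1
    · right
      have hr : v.2.1 = u.2.1 := by
        rcases c3 with c | c | c
        · exact c.2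
        · exact c.2
        · exfalso
          have := c.1
          omega
      have eu : u = (0, u.2.1, false) := Prod.ext hu.1 (Prod.ext rfl c1)
      have ev : v = (-1, u.2.1, true) := Prod.ext hu.2 (Prod.ext hr c2)
      refine ⟨u.2.1, ?_, ?_, eu, ev⟩
      · refine val_ne_zero' hk fun e => g1 ?_
        rw [e] at eu ev
        rw [eu, ev]
        unfold cut
        exact Sym2.eq_swap
      · refine val_ne_k hk fun e => g2 ?_
        rw [e] at eu ev
        rw [eu, ev]
        unfold cut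
        exact Sym2.eq_swap
    · left
      have hv : v.1 = u.1 ∨ v.1 = u.1 - 1 := by
        rcases c3 with c | c | c
        · exact Or.inl c.1
        · exact Or.inr c.1
        · exact Or.inl c.1
      refine ⟨?_, ?_, ?_⟩ <;> omega
  have z0 : ∀ u v : V (2 * k), (u.1 = 0 → v.1 ≠ -1) → (u.1 = -1 → v.1 ≠ 0) →
      crs k u v = 0 ∧ crsJ k u v = 0 := by
    intro u v e1 e2
    constructor
    · unfold crs
      rw [if_neg fun h => e2 h.1 h.2.1, if_neg fun h => e1 h.1 h.2.1]
    · unfold crsJ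
      rw [if_neg fun h => e2 h.1 h.2.1, if_neg fun h => e1 h.1 h.2.1]
  rcases h1 with h1 | h1
  · rcases key a b h1 h2 h3 with ⟨e1, e2, e3⟩ | ⟨r, r1, r2, r3, r4⟩
    · exact Or.inl ⟨e1, z0 a b e2 e3⟩
    · exact Or.inr ⟨r, r1, r2, Or.inl ⟨r3, r4⟩⟩
  · rcases key b a h1 (by rwa [Sym2.eq_swap]) (by rwa [Sym2.eq_swap]) with ⟨e1, e2, e3⟩ | ⟨r, r1, r2, r3, r4⟩
    · exact Or.inl ⟨e1.symm, z0 a b (fun h h' => e3 h' h) (fun h h' => e2 h' h)⟩
    · exact Or.inr ⟨r, r1, r2, Or.inr ⟨r4, r3⟩⟩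

theorem crs_RL {r : ZMod (2 * k)} : crs k (0, r, false) (-1, r, true) = if 1 ≤ r.val ∧ r.val < k then -1 else 0 := by
  unfold crs
  simp

theorem crs_LR {r : ZMod (2 * k)} : crs k (-1, r, true) (0, r, false) = if 1 ≤ r.val ∧ r.val < k then 1 else 0 := by
  unfold crs
  simp

theorem crsJ_RL {r : ZMod (2 * k)} : crsJ k (0, r, false) (-1, r, true) = if k < r.val then -1 else 0 := by
  unfold crsJ
  simp

theorem crsJ_LR {r : ZMod (2 * k)} : crsJ k (-1, r, true) (0, r, false) = if k < r.val then 1 else 0 := by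
  unfold crsJ
  simp

/-- the half of the cylinder. -/
def side (v : V (2 * k)) : ℤ := if 0 ≤ v.1 then 1 else 0

theorem crs_add (hk : 1 ≤ k) {a b : V (2 * k)} (h : St k a b) : crs k a b + crsJ k a b = side b - side a := by
  rcases step_cases' hk h with ⟨h1, h2, h3⟩ | ⟨r, h1, h2, h3 | h3⟩
  · rw [h2, h3]
    unfold side
    by_cases h4 : 0 ≤ a.1
    · rw [if_pos h4, if_pos (h1.1 h4)]
      norm_num
    · rw [if_neg h4, if_neg fun h => h4 (h1.2 h)]
      norm_num
  · rw [h3.1, h3.2, crs_RL, crsJ_RL]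
    unfold side
    rcases lt_or_gt_of_ne h2 with h4 | h4
    · rw [if_pos ⟨by omega, h4⟩, if_neg (by omega)]
      norm_num
    · rw [if_neg (by omega), if_pos h4]
      norm_num
  · rw [h3.1, h3.2, crs_LR, crsJ_LR]
    unfold side
    rcases lt_or_gt_of_ne h2 with h4 | h4
    · rw [if_pos ⟨by omega, h4⟩, if_neg (by omega)]
      norm_num
    · rw [if_neg (by omega), if_pos h4]
      norm_num

/-- the crossings of the two arcs are opposite. -/
theorem cwJ_eq_of (hk : 1 ≤ k) {n : ℕ} {w : Fin (n + 1) → V (2 * k)} (h0 : side (w 0) = side (w (Fin.last n)))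
    (h : ∀ i : Fin n, St k (w i.castSucc) (w i.succ)) : cwJ k n w = -cw k n w := by
  have h1 : cw k n w + cwJ k n w = 0 := by
    unfold cw cwJ
    rw [← Finset.sum_add_distrib, Finset.sum_congr rfl fun i _ => crs_add hk (h i),
      sum_tele (fun i => side (w i)), h0, sub_self]
  omega

theorem cwJ_eq (hk : 1 ≤ k) {n : ℕ} {w : Fin (n + 1) → V (2 * k)} (hw : w ∈ saws k n) : cwJ k n w = -cw k n w := by
  refine cwJ_eq_of hk ?_ hw.2.2.2
  rw [hw.2.1, hw.2.2.1]
  rfl

/-! ### the reflection -/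

/-- The reflection of the cylinder that fixes the two ends. -/
def rf (v : V (2 * k)) : V (2 * k) := (v.1, -v.2.1 - (v.1 : ZMod (2 * k)) - (if v.2.2 then 1 else 0), v.2.2)

theorem rf_rf (v : V (2 * k)) : rf (rf v) = v := by
  unfold rf
  refine Prod.ext rfl (Prod.ext ?_ rfl)
  simp only
  ring

theorem rf_inj : Function.Injective (rf : V (2 * k) → V (2 * k)) :=
  Function.LeftInverse.injective rf_rf

theorem rf_WB {u v : V (2 * k)} (h : WB u v) : WB (rf u) (rf v) := by
  obtain ⟨h1, h2, h3⟩ := h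
  refine ⟨h1, h2, ?_⟩
  unfold rf
  simp only [h1, h2]
  rcases h3 with ⟨c1, c2⟩ | ⟨c1, c2⟩ | ⟨c1, c2⟩
  · right; right
    refine ⟨c1, ?_⟩
    rw [c1, c2]
    simp
  · right; left
    refine ⟨c1, ?_⟩
    rw [c1, c2]
    push_cast
    ring
  · left
    refine ⟨c1, ?_⟩
    rw [c1, c2]
    simp
    ring

theorem rf_adj {u v : V (2 * k)} (h : (cyl (2 * k)).Adj u v) : (cyl (2 * k)).Adj (rf u) (rf v) :=
  h.imp rf_WB rf_WB

theorem rf_w (r : ZMod (2 * k)) : rf ((0, r, false) : V (2 * k)) = (0, -r, false) := by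
  unfold rf
  simp

theorem rf_b (r : ZMod (2 * k)) : rf ((-1, r, true) : V (2 * k)) = (-1, -r, true) := by
  unfold rf
  simp

theorem neg_k : (-(k : ZMod (2 * k))) = (k : ZMod (2 * k)) := by
  have h : (k : ZMod (2 * k)) + (k : ZMod (2 * k)) = 0 := by
    have := ZMod.natCast_self (2 * k)
    push_cast at this
    linear_combination this
  linear_combination -h

theorem rf_cut {u v : V (2 * k)} {r : ZMod (2 * k)} (hr : -r = r) (h : s(rf u, rf v) = cut r) : s(u, v) = cut r := by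
  unfold cut at h ⊢
  have h1 := congrArg (Sym2.map rf) h
  rw [Sym2.map_mk, Sym2.map_mk, rf_rf, rf_rf, rf_b, rf_w, hr] at h1
  exact h1

theorem rf_St {a b : V (2 * k)} (h : St k a b) : St k (rf a) (rf b) := by
  rw [St, SimpleGraph.deleteEdges_adj, Set.mem_insert_iff, Set.mem_singleton_iff, not_or] at h ⊢
  exact ⟨rf_adj h.1, fun e => h.2.1 (rf_cut neg_zero e), fun e => h.2.2 (rf_cut neg_k e)⟩

theorem val_neg' (hk : 1 ≤ k) {r : ZMod (2 * k)} (h : r.val ≠ 0) : (-r).val = 2 * k - r.val := by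
  have : NeZero (2 * k) := ⟨by omega⟩
  have : NeZero r := ⟨fun e => h (by rw [e, ZMod.val_zero])⟩
  exact ZMod.val_neg_of_ne_zero r

theorem crs_rf (hk : 1 ≤ k) {a b : V (2 * k)} (h : St k a b) : crs k (rf a) (rf b) = crsJ k a b := by
  have : NeZero (2 * k) := ⟨by omega⟩
  rcases step_cases' hk h with ⟨h1, h2, h3⟩ | ⟨r, h1, h2, h3 | h3⟩
  · rw [h3]
    rcases step_cases' hk (rf_St h) with ⟨g1, g2, g3⟩ | ⟨r, g1, g2, g3 | g3⟩
    · exact g2
    · exfalso
      have e1 : a.1 = 0 := congrArg Prod.fst g3.1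
      have e2 : b.1 = -1 := congrArg Prod.fst g3.2
      omega
    · exfalso
      have e1 : a.1 = -1 := congrArg Prod.fst g3.1
      have e2 : b.1 = 0 := congrArg Prod.fst g3.2
      omega
  · rw [h3.1, h3.2, rf_w, rf_b, crs_RL, crsJ_RL, val_neg' hk h1]
    have := ZMod.val_lt r
    rcases lt_or_ge k r.val with h5 | h5
    · rw [if_pos h5, if_pos (by omega)]
    · rw [if_neg (by omega), if_neg (by omega)]
  · rw [h3.1, h3.2, rf_w, rf_b, crs_LR, crsJ_LR, val_neg' hk h1]
    have := ZMod.val_lt r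
    rcases lt_or_ge k r.val with h5 | h5
    · rw [if_pos h5, if_pos (by omega)]
    · rw [if_neg (by omega), if_neg (by omega)]

theorem rf_saws {n : ℕ} {w : Fin (n + 1) → V (2 * k)} (hw : w ∈ saws k n) : rf ∘ w ∈ saws k n := by
  obtain ⟨h1, h2, h3, h4⟩ := hw
  refine ⟨rf_inj.comp h1, ?_, ?_, fun i => rf_St (h4 i)⟩
  · rw [Function.comp_apply, h2, rf_w, neg_zero]
  · rw [Function.comp_apply, h3, rf_w, neg_k]

/-- **The reflection changes the sign of the winding number.** -/
theorem cw_rf (hk : 1 ≤ k) {n : ℕ} {w : Fin (n + 1) → V (2 * k)} (hw : w ∈ saws k n) :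
    cw k n (rf ∘ w) = -cw k n w := by
  rw [← cwJ_eq hk hw]
  unfold cw cwJ
  exact Finset.sum_congr rfl fun i _ => crs_rf hk (hw.2.2.2 i)

/-- **The law of the winding number is symmetric.** -/
theorem ncard_neg (hk : 1 ≤ k) (n : ℕ) (m : ℤ) :
    {w | w ∈ saws k n ∧ cw k n w = -m}.ncard = {w | w ∈ saws k n ∧ cw k n w = m}.ncard := by
  refine Set.ncard_congr (fun w _ => rf ∘ w) ?_ ?_ ?_
  · rintro w ⟨h1, h2⟩
    refine ⟨rf_saws h1, ?_⟩
    rw [cw_rf hk h1, h2, neg_neg]
  · intro v w _ _ h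
    funext i
    exact rf_inj (congrFun h i)
  · rintro w ⟨h1, h2⟩
    refine ⟨rf ∘ w, ⟨rf_saws h1, ?_⟩, ?_⟩
    · rw [cw_rf hk h1, h2]
    · funext i
      exact rf_rf (w i)

end

end Pool.Agent.CylSaw
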