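import Pool.Agent.PB.CloseE
import Pool.Agent.PV.LevXG
import Pool.Agent.WND.Nrm
import Pool.Agent.WND.DefsZ

/-!
# Plan W: `(E')` with the sector weight (helper91)

The coefficient `cf j s t n` of the weight of the configuration space is arbitrary.

* `mainW`: the form of `PBEM.E2_of`, coefficient `cf`;
* `HDW`, `ZLW`, `LVW`: the three inputs (first Ward identity, derivatives in the height of the legs,
  identities of level two);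
* **`closeWG`**: `PBV.E2 (1 / 2) Psi` from the three inputs;
* `cW zz`: the coefficient `ζ ^ (m - n)` times the prefactor, `m = j + 1`, `ζ = zz j`.
-/

set_option autoImplicit false
set_option linter.unusedSectionVars false

noncomputable section

open Complex MeasureTheory Filter Topology Set

namespace WND

open NUO NUP1S NUP1S.Ab NUP1S.AbC NUGC PBF PBFunc PBU PBWP PBLX PVLX
open NUP1 hiding Kd
open PBEI (rowS y1 y2 Apl Ami Bch)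
open PBV (wm)

attribute [local instance] NUSea.seaP

/-- **the main term**: the form of `PBEM.E2_of`, coefficient `cf` -/
def mainW (cf : ℕ → ℝ → ℝ → ℕ → ℂ) (ep e1 J : ℝ) (j : ℕ) (s t : ℝ) : ℂ :=
  (∫ q, F (mN (2 * (j + 1))) (wG (ZF ep) cf e1 J j s t) (fun ω =>
      Vp (rh0 j s) (eC e1 J j) (Apl (rowS j s) 0 q) ω *
        Vp (rh0 j s) (eC e1 J j) (Bch q) ω) ∂wm) +
    ((∫ q, F (mN (2 * (j + 1))) (wG (ZF ep) cf e1 J j s t) (fun ω =>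
        Vm (eC e1 J j) (Ami (rowS j s) 0 q) ω * Vm (eC e1 J j) (Bch q) ω) ∂wm) +
      2 * F (mN (2 * (j + 1))) (wG (ZF ep) cf e1 J j s t) (fun ω =>
        Vm (eC e1 J j) (PBEI.uF (rowS j s) 0) ω * SN (NUSea.O.par0 (j + 1)) (eC e1 J j) ω) -
      ((PBV.rP j s : ℂ) - (PBV.rM j s : ℂ)) / 2 *
        F (mN (2 * (j + 1))) (wG (ZF ep) cf e1 J j s t) (fun ω =>
          SN (NUSea.O.par0 (j + 1)) (eC e1 J j) ω * SN (NUSea.O.par0 (j + 1)) (eC e1 J j) ω)) +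
    F (mN (2 * (j + 1))) (wG (ZF ep) cf e1 J j s t) (Vp (rh0 j s) (eC e1 J j) (PBEI.qF (rowS j s) 0 t))

/-- **input 1** (helper5): the first Ward identity -/
def HDW (Psi : ℕ → ℂ → ℂ → ℂ) (cf : ℕ → ℝ → ℝ → ℕ → ℂ) (c : ℝ) : Prop :=
  ∃ a0 : ℝ, 0 < a0 ∧ ∀ ep e1 J : ℝ, SmallP a0 ep e1 J → ∃ C : ℝ, 0 < C ∧
    ∀ᶠ j : ℕ in atTop, ∀ s ∈ Icc (0 : ℝ) 1, ∀ t ∈ Icc (0 : ℝ) 1, ∃ D : ℂ,
      HasDerivAt (fun s : ℝ => Psi j (I * t) (I * s)) D s ∧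
      ‖((j + 1 : ℝ) : ℂ) * D - mainW cf ep e1 J j s t‖ ≤ C * (j : ℝ) ^ (-c)

/-- **input 2** (helper61): the derivatives in the height of the legs -/
def ZLW (Psi : ℕ → ℂ → ℂ → ℂ) (cf : ℕ → ℝ → ℝ → ℕ → ℂ) (c : ℝ) : Prop :=
  ∃ a0 : ℝ, 0 < a0 ∧ ∀ ep e1 J : ℝ, SmallP a0 ep e1 J → ∃ C : ℝ, 0 < C ∧
    ∀ᶠ j : ℕ in atTop, ∀ s ∈ Icc (0 : ℝ) 1, ∀ t ∈ Icc (0 : ℝ) 1,
      ‖F (mN (2 * (j + 1))) (wG (ZF ep) cf e1 J j s t)
          (Vp (rh0 j s) (eC e1 J j) (PBEI.h0T t)) +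
        I * deriv (fun z => Psi j z (I * s)) (I * t)‖ ≤ C * (j : ℝ) ^ (-c) ∧
      ‖F (mN (2 * (j + 1))) (wG (ZF ep) cf e1 J j s t) (fun ω =>
          Vp (rh0 j s) (eC e1 J j) (PBEI.h0T t) ω * Vp (rh0 j s) (eC e1 J j) (PBEI.h0T t) ω) +
        F (mN (2 * (j + 1))) (wG (ZF ep) cf e1 J j s t)
          (Vp (rh0 j s) (eC e1 J j) (PBEI.g2T t)) -
        -deriv (deriv fun z => Psi j z (I * s)) (I * t)‖ ≤ C * (j : ℝ) ^ (-c)

/-- **input 3** (helper38): the identities of level two -/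
def LVW (cf : ℕ → ℝ → ℝ → ℕ → ℂ) : Prop :=
  ∃ a0 : ℝ, 0 < a0 ∧ ∀ ep e1 J : ℝ, SmallP a0 ep e1 J →
      ∃ (K th dp : ℕ → ℝ) (C : ℝ), 0 ≤ C ∧
        (∀ᶠ j : ℕ in atTop, ∀ s ∈ Icc (0 : ℝ) 1, ∀ t ∈ Icc (0 : ℝ) 1,
          PBEM.LevD y1 y2 (19 / 10) (mN (2 * (j + 1))) (wG (ZF ep) cf e1 J j s t)
            (Vp (rh0 j s) (eC e1 J j)) (Vm (eC e1 J j)) (SN (NUSea.O.par0 (j + 1)) (eC e1 J j))
            (K j) (th j) (dp j) (PBEI.mfL t) PBEI.sg' wm (Apl (rowS j s) 0) (Ami (rowS j s) 0) Bch) ∧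
        ∀ c : ℝ, 0 ≤ c → c ≤ 13 / 20 → ∀ j : ℕ, 1 ≤ j →
          2 * K j * th j ≤ C * (j : ℝ) ^ (-c) ∧ dp j ≤ C * (j : ℝ) ^ (-c)

/-- **`(E')`, arbitrary coefficient** -/
theorem closeWG {Psi : ℕ → ℂ → ℂ → ℂ} {cf : ℕ → ℝ → ℝ → ℕ → ℂ} {c : ℝ} (hc : 0 ≤ c)
    (hc' : c ≤ 13 / 20) (hL : LVW cf) (hD : HDW Psi cf c) (hZ : ZLW Psi cf c) : PBV.E2 c Psi := by
  obtain ⟨a1, ha1, H1⟩ := hL
  obtain ⟨a2, ha2, H2⟩ := hD
  obtain ⟨a3, ha3, H3⟩ := hZ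
  obtain ⟨a0, h0⟩ : ∃ a0 : ℝ, a0 = min (min a1 a2) (min a3 (1 / 10)) := ⟨_, rfl⟩
  have ha0 : 0 < a0 := by
    rw [h0]
    exact lt_min (lt_min ha1 ha2) (lt_min ha3 (by norm_num))
  have e1' : a0 ≤ a1 := by rw [h0]; exact (min_le_left _ _).trans (min_le_left _ _)
  have e2' : a0 ≤ a2 := by rw [h0]; exact (min_le_left _ _).trans (min_le_right _ _)
  have e3' : a0 ≤ a3 := by rw [h0]; exact (min_le_right _ _).trans (min_le_left _ _)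
  have e4' : a0 ≤ 1 / 10 := by rw [h0]; exact (min_le_right _ _).trans (min_le_right _ _)
  -- the parameters
  obtain ⟨J, hJ0, hJ⟩ : ∃ J : ℝ, 0 ≤ J ∧ Real.exp (-(2 * Real.pi * J)) ≤ a0 / 10 := by
    have h1 : Tendsto (fun J : ℝ => Real.exp (-(2 * Real.pi * J))) atTop (𝓝 0) := by
      refine Real.tendsto_exp_atBot.comp ?_
      exact (tendsto_neg_atTop_atBot).comp (tendsto_id.const_mul_atTop (by positivity))
    have h2 := h1.eventually (Iic_mem_nhds (show (0 : ℝ) < a0 / 10 by positivity))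
    obtain ⟨J, h3, h4⟩ := (h2.and (eventually_ge_atTop (0 : ℝ))).exists
    exact ⟨J, h4, h3⟩
  have hp : SmallP a0 (a0 / 10) (a0 / 10) J :=
    ⟨by positivity, by linarith, by positivity, by linarith, hJ0, by linarith⟩
  obtain ⟨K, th, dp, C1, hC1, hL, hs⟩ := H1 _ _ _ (hp.mono e1')
  obtain ⟨C2, hC2, hD⟩ := H2 _ _ _ (hp.mono e2')
  obtain ⟨C3, hC3, hZ⟩ := H3 _ _ _ (hp.mono e3')
  obtain ⟨B, hB, hm⟩ := PBEI.meanDat
  refine PBEM.E2_of (a' := 19 / 10) (B := B) (C := C1 + C2 + C3) (by norm_num) (by norm_num)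
    (Ω := fun j => CfN (2 * (j + 1))) (μ := fun j => mN (2 * (j + 1)))
    (w := fun j s t => wG (ZF (a0 / 10)) cf (a0 / 10) J j s t)
    (V := fun j s _ => Vp (rh0 j s) (eC (a0 / 10) J j))
    (Vm := fun j _ _ => Vm (eC (a0 / 10) J j))
    (S := fun j _ _ => SN (NUSea.O.par0 (j + 1)) (eC (a0 / 10) J j))
    (K := K) (th := th) (δp := dp) (δ0 := fun j => C2 * (j : ℝ) ^ (-c))
    (δ1 := fun j => C3 * (j : ℝ) ^ (-c))
    (mf := PBEI.mfL) (mf' := PBEI.mfL') (D0 := PBLeg.Dleg)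
    (mp := fun _ => 8 * I / (3 * Real.pi)) (mm := fun _ => -(8 * I / (3 * Real.pi)))
    (fun t ht => hm t (abs_le.2 ⟨by linarith [ht.1], ht.2⟩)) hL ?_ ?_ ?_
  · filter_upwards [hD] with j h s hs t ht
    obtain ⟨D, h1, h2⟩ := h s hs t ht
    exact ⟨D, h1, h2⟩
  · filter_upwards [hZ] with j h s hs t ht
    exact h s hs t ht
  · filter_upwards [eventually_ge_atTop 1] with j hj
    obtain ⟨h1, h2⟩ := hs c hc hc' j hj
    have hx : (0 : ℝ) ≤ (j : ℝ) ^ (-c) := by positivity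
    refine ⟨?_, ?_, ?_, ?_, ?_⟩
    · exact mul_le_mul_of_nonneg_right (by linarith) hx
    · exact h1.trans (mul_le_mul_of_nonneg_right (by linarith) hx)
    · exact h2.trans (mul_le_mul_of_nonneg_right (by linarith) hx)
    · exact mul_nonneg hC3.le hx
    · exact mul_le_mul_of_nonneg_right (by linarith) hx

/-! ### the sector weight -/

/-- the coefficient `ζ ^ (m - n)` times the prefactor, `m = j + 1`, `ζ = zz j` -/
def cW (zz : ℕ → ℂ) (j : ℕ) (s t : ℝ) (n : ℕ) : ℂ :=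
  tw (zz j) (j + 1) n * Pool.Agent.PB.Pf (I * t) (rowS j s) (rowS j s)

theorem norm_cW {zz : ℕ → ℂ} (h : ∀ j, ‖zz j‖ = 1) (j : ℕ) (s t : ℝ) (n : ℕ) :
    ‖cW zz j s t n‖ = ‖PBLX.cF j s t n‖ := norm_tw_mul (h j) _ _ _

/-- the function with the sector weight, `zz j` at the level `j` -/
abbrev PsiW (zz : ℕ → ℂ) (j : ℕ) (z x : ℂ) : ℂ := fxz (zz j) j x z

/-- **`(E')` with the sector weight**, from the three inputs -/
theorem closeW {zz : ℕ → ℂ} (hL : LVW (cW zz)) (hD : HDW (PsiW zz) (cW zz) (1 / 2))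
    (hZ : ZLW (PsiW zz) (cW zz) (1 / 2)) : PBV.E2 (1 / 2) fun j z x => fxz (zz j) j x z :=
  closeWG (by norm_num) (by norm_num) hL hD hZ

end WND

end
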