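import Pool.Agent.WND.HD
import Pool.Agent.WND.CloseW

/-!
# Plan W: input 1 of `closeW` (helper5)

* **`hDW`**: `HDW (PsiW zz) (cW zz) c` for `0 ≤ c ≤ 13 / 20`.
-/

set_option autoImplicit false

noncomputable section

open Complex MeasureTheory Filter Topology Set

namespace WND

attribute [local instance] NUSea.seaP

theorem mainW_mainG (cf : ℕ → ℝ → ℝ → ℕ → ℂ) (ep e1 J : ℝ) (j : ℕ) (s t : ℝ) :
    mainW cf ep e1 J j s t =
      WNDH.mainG e1 J j s t (PVLX.wG (PBLX.ZF ep) cf e1 J j s t) := by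
  have er : PBLg.rhS (PBLg.hS j s) = PBLX.rh0 j s := (funext (PBLg.rhoR_hS j s)).symm
  unfold mainW WNDH.mainG
  rw [er]

/-- **input 1 of `closeW`** -/
theorem hDW {zz : ℕ → ℂ} (hz : ∀ j, ‖zz j‖ = 1) {c : ℝ} (hc0 : 0 ≤ c) (hc : c ≤ 13 / 20) :
    HDW (PsiW zz) (cW zz) c := by
  obtain ⟨a0, ha0, H⟩ := WNDH.hD_finZ zz hz hc0 hc
  refine ⟨a0, ha0, fun ep e1 J hp => ?_⟩
  obtain ⟨C, hC, h⟩ := H ep e1 J hp.ep0 hp.ep1 hp.e0 hp.e1' hp.J0 hp.sm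
  refine ⟨C, hC, ?_⟩
  filter_upwards [h] with j hj s hs t ht
  obtain ⟨D, h1, h2⟩ := hj s hs t ht
  refine ⟨D, h1, ?_⟩
  rw [mainW_mainG]
  exact h2

end WND

end

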