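import Pool.Agent.WND.ZLegZ
import Pool.Agent.WND.CloseW

/-!
# Plan W: input 2 of `closeW` (helper61, over helper17's `zlegZ`)

* **`zlwW`**: `ZLW (PsiW zz) (cW zz) c` for `‖zz j‖ = 1`, `0 ≤ c ≤ 7 / 10`.
-/

set_option autoImplicit false
set_option linter.unusedSectionVars false

noncomputable section

open Complex MeasureTheory Filter Topology Set

namespace WND

open NUO NUP1S NUP1S.Ab NUP1S.AbC NUGC PBF PBFunc PBU PBWP PBLX PVLX

attribute [local instance] NUSea.seaP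

/-- **input 2 of `closeW`**: the derivatives in the height of the legs -/
theorem zlwW {zz : ℕ → ℂ} (h : ∀ j, ‖zz j‖ = 1) {c : ℝ} (hc : 0 ≤ c) (hc' : c ≤ 7 / 10) :
    ZLW (PsiW zz) (cW zz) c := by
  obtain ⟨a3, ha3, H3⟩ := uxL 2 6 (1 / 100) (by norm_num)
  refine ⟨min a3 (1 / 1000), lt_min ha3 (by norm_num), fun ep e1 J hp0 => ?_⟩
  have hp : SmallP a3 ep e1 J := hp0.mono (min_le_left _ _)
  have he : e1 ≤ 1 / 1000 := by
    have h1 := hp0.sm
    have h2 := min_le_right a3 (1 / 1000)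
    have h3 := Real.exp_pos (-(2 * Real.pi * J))
    have h4 := hp0.ep0
    linarith
  have hU : UB famL ep e1 J 2 6 (1 / 100) := H3 _ _ _ hp.ep0 hp.e0 hp.J0 hp.sm
  obtain ⟨C3, hC3, hZ⟩ := zlegZ h hU (by norm_num) le_rfl hp.ep0 hp.ep1 hp.e0 hp.e1' hp.J0
    (c := c) hc (by linarith)
  have er : ∀ (j : ℕ) (s : ℝ), PBLg.rhS (PBLg.hS j s) = rh0 j s := fun j s =>
    (funext (PBLg.rhoR_hS j s)).symm
  refine ⟨C3, hC3, ?_⟩
  filter_upwards [hZ] with j h s hs t ht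
  have h1 := h s t (abs_le.2 ⟨by linarith [hs.1], hs.2⟩) (abs_le.2 ⟨by linarith [ht.1], ht.2⟩)
  rw [er] at h1
  exact h1

end WND

end

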