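import Pool.Agent.WND.E2w
import Pool.Agent.WND.HDF
import Pool.Agent.WND.ZLWx
import Pool.Agent.WND.Seq

/-!
# Plan W: `(E')` with the sector weight, no hypothesis (helper91)

* **`e2z`**: `(E')` of `fxz (zz j) j` for every sequence `zz` on the unit circle;
* **`e2z_unif`**: the same with one constant for all weights on the unit circle.
-/

set_option autoImplicit false

noncomputable section

open Complex Filter Topology Set

namespace WND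

/-- **`(E')` with the sector weight** -/
theorem e2z {zz : ℕ → ℂ} (h : ∀ j, ‖zz j‖ = 1) :
    PBV.E2 (1 / 2) fun j z x => fxz (zz j) j x z :=
  e2_of h (hDW h (by norm_num) (by norm_num)) (zlwW h (by norm_num) (by norm_num))

/-- **`(E')`, one constant for all weights on the unit circle** -/
theorem e2z_unif : ∃ C' : ℝ, ∀ᶠ j : ℕ in atTop, ∀ ζ : ℂ, ‖ζ‖ = 1 →
    ∀ s ∈ Icc (0 : ℝ) 1, ∀ t ∈ Icc (0 : ℝ) 1, ∃ D : ℂ,
    HasDerivAt (fun s : ℝ => fxz ζ j (I * s) (I * t)) D s ∧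
    ‖((j + 1 : ℝ) : ℂ) * D - (-(((PBV.rP j s - PBV.rM j s) / 8 : ℝ) : ℂ) *
      (-deriv (deriv fun z => fxz ζ j (I * s) z) (I * t)) -
        (((PBV.rP j s + PBV.rM j s) / 2 : ℝ) : ℂ) *
      (I * deriv (fun z => fxz ζ j (I * s) z) (I * t)))‖ ≤ C' * (j : ℝ) ^ (-(1 / 2 : ℝ)) := by
  obtain ⟨C, hC⟩ := WNDS.unif_of_seq (D := {ζ : ℂ // ‖ζ‖ = 1})
    (P := fun j ζ C' => ∀ s ∈ Icc (0 : ℝ) 1, ∀ t ∈ Icc (0 : ℝ) 1, ∃ D : ℂ,
      HasDerivAt (fun s : ℝ => fxz ζ j (I * s) (I * t)) D s ∧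
      ‖((j + 1 : ℝ) : ℂ) * D - (-(((PBV.rP j s - PBV.rM j s) / 8 : ℝ) : ℂ) *
        (-deriv (deriv fun z => fxz ζ j (I * s) z) (I * t)) -
          (((PBV.rP j s + PBV.rM j s) / 2 : ℝ) : ℂ) *
        (I * deriv (fun z => fxz ζ j (I * s) z) (I * t)))‖ ≤ C' * (j : ℝ) ^ (-(1 / 2 : ℝ)))
    (fun j ζ C C' hCC h s hs t ht => by
      obtain ⟨D, h1, h2⟩ := h s hs t ht
      exact ⟨D, h1, h2.trans (mul_le_mul_of_nonneg_right hCC (by positivity))⟩)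
    (fun zz => by
      obtain ⟨C, hC⟩ := e2z (zz := fun j => (zz j : ℂ)) fun j => (zz j).2
      exact ⟨C, hC⟩)
  exact ⟨C, hC.mono fun j hj ζ hζ => hj ⟨ζ, hζ⟩⟩

end WND

end
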