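import Pool.Agent.WND.DefsZ
import Pool.Agent.PB.CloseF

/-!
# Plan W: bounds of the functions with winding weight (helper96)

`‖ζ‖ = 1` everywhere; the constants do not depend on `ζ`.

* `fz_le1`: `‖fz ζ x z‖ ≤ ‖Pf z x x‖ * ∑ n ≤ 2 m, FA (ZL ..)` (the bound of plan B);
* **`fxz_le`**, **`f0z_le`**: `(k + 1) ^ δ exp (2 |Im z|)`, `|Re z| < 37/10 l`;
* `u0z`, `u1z`: (U0), (U1) for `f0z ζ`, `fxz ζ`, uniform in `ζ`.
-/

set_option autoImplicit false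
set_option linter.unusedSectionVars false

noncomputable section

open Complex MeasureTheory Set Filter Topology
open scoped ENNReal

namespace WND

open PBX (Rws ZL DZ_ZL)
open Pool.Agent.PB (Pf Rws_cons)
open PBV (TopM nrm_cc ev_pow succ_pow)

attribute [local instance] NUSea.seaP

variable {m : ℕ}

section gen

open NUO NUP1 NUCR NUP1S NUP1S.Ab NUP1S.AbC NURow NUGC PBF
open NUP1.Bd (Ob)

variable {P : NUO.Par}

theorem enorm_zpow {ζ : ℂ} (hζ : ‖ζ‖ = 1) (k : ℤ) : ‖ζ ^ k‖ₑ = 1 := by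
  rw [← ofReal_norm, norm_zpow, hζ, one_zpow, ENNReal.ofReal_one]

/-- **the bound by the functional with moduli** -/
theorem fz_le1 {ζ : ℂ} (hζ : ‖ζ‖ = 1) {ep β : ℝ} (hP : ParC P)
    (hρ : ∀ r, ∃ ρ0, 0 < ρ0 ∧ ∀ t, ρ0 ≤ P.rad r t)
    (hep0 : 0 < ep) (hep : ep ≤ 1 / 100) (hβ : 0 < β) (hβ' : β ≤ 4 / 3)
    {x : Fin m → ℂ} (hx : Rws x) {ex ex0 : List ℂ} (hex : ∀ w ∈ ex, |w.re| ≤ l / 2)
    (hex0 : ∀ w ∈ ex0, |w.re| ≤ l / 2) {z : ℂ} (h1 : -(9 / 10 * l) ≤ z.re)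
    (h2 : z.re < 37 / 10 * l) {η η' : ℕ → Crs}
    (hη : ∀ n ∈ Finset.range (2 * m + 1), ∀ r ≤ n + n, ∀ᵐ O ∂(Measure.pi fun _ : Fin r => nu),
      CurB ep (η n r O) (η' n r O)) :
    ‖fz ζ x z‖ₑ ≤ ‖Pf z x x‖ₑ * ∑ n ∈ Finset.range (2 * m + 1),
      FA (ZL β x ex ex0 z) P n n (η n) (η' n) (fun _ _ _ _ _ => 1) := by
  have hl := Bd.l_pos
  rw [fz_right ζ hx ⟨by linarith, by linarith⟩]
  unfold nzz
  rw [Finset.mul_sum]
  refine (enorm_sum_le _ _).trans (Finset.sum_le_sum fun n hn => ?_)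
  rw [enorm_mul, enorm_zpow hζ, one_mul]
  unfold nzn
  rw [enorm_mul]
  refine mul_le_mul_right ?_ _
  have e := DZ_ZL hP hρ hep0 hep hβ hβ' hx hex hex0 h1 h2 (hη n hn)
  have e2 : Pool.Agent.PB.cn m = Leg.cc m := rfl
  rw [e2, e]
  exact FF_le _

end gen

/-- **the bound for `Re z ≥ -9/10 l`** -/
theorem fxz_le_right {δ : ℝ} (h : TopM δ) : ∃ m0 : ℕ, ∀ k : ℕ, m0 ≤ k → ∀ ζ : ℂ, ‖ζ‖ = 1 →
    ∀ x z : ℂ,
    |x.re| ≤ NUMF.l / 10 → |x.im| ≤ 2 → -(9 / 10 * NUMF.l) ≤ z.re → z.re < 37 / 10 * NUMF.l →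
    |z.im| ≤ 3 / 20 * Real.log (k + 1 : ℕ) + 2 →
    ‖fxz ζ k x z‖ ≤ ((k + 1 : ℕ) : ℝ) ^ δ * Real.exp (2 * |z.im|) := by
  obtain ⟨a0, ha0, H⟩ := h
  have hl := NUMF.l_pos
  have hlN : NUP1.l = NUMF.l := rfl
  -- the parameters
  obtain ⟨J, hJ, hJa⟩ : ∃ J : ℝ, 0 ≤ J ∧ Real.exp (-(2 * Real.pi * J)) ≤ a0 / 3 := by
    have t1 : Tendsto (fun J : ℝ => Real.exp (-(2 * Real.pi * J))) atTop (𝓝 0) :=
      Real.tendsto_exp_neg_atTop_nhds_zero.comp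
        (tendsto_id.const_mul_atTop (by positivity))
    obtain ⟨J, h1, h2⟩ := ((t1.eventually_le_const (by positivity : 0 < a0 / 3)).and
      (eventually_ge_atTop 0)).exists
    exact ⟨J, h2, h1⟩
  obtain ⟨e, he, he1, hea⟩ : ∃ e : ℝ, 0 < e ∧ e ≤ 1 / 100 ∧ 9 * e ≤ a0 := by
    refine ⟨min (1 / 100) (a0 / 9), lt_min (by norm_num) (by positivity), min_le_left _ _, ?_⟩
    have := min_le_right (1 / 100 : ℝ) (a0 / 9)
    linarith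
  obtain ⟨m1, H1⟩ := H e e J he he1 he he1 hJ (by linarith)
  obtain ⟨mc, -, Hcur⟩ := PBF.curZ_crs he he1 hJ he
  refine ⟨max m1 mc, fun k hk ζ hζ x z hx hx' z1 z2 z3 => ?_⟩
  have k1 : m1 ≤ k := (le_max_left _ _).trans hk
  have k2 : mc ≤ k + 1 := ((le_max_right _ _).trans hk).trans (Nat.le_succ k)
  have key := H1 k k1 x z hx hx' z1 z2 z3 (fun _ => NUP1.Leg.cc (k + 1)) fun _ => nrm_cc _
  have h2 := fz_le1 hζ (P := NUSea.O.par0 (k + 1)) (ep := e) (β := 4 / 3 * (1 - e))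
    (PBX.ParC_par0 (k + 1)) (PBX.rad_low (k + 1)) he he1 (by linarith) (by linarith)
    (x := PBL.mu1 k x) (PBT.rws_mu1 k (by rw [hlN]; linarith)) (ex := [I, -I]) (ex0 := [])
    (by
      intro w hw
      rw [List.mem_cons, List.mem_singleton] at hw
      rcases hw with rfl | rfl
      · rw [Complex.I_re, abs_zero, hlN]
        positivity
      · rw [Complex.neg_re, Complex.I_re, neg_zero, abs_zero, hlN]
        positivity) (by simp) (z := z) (by rw [hlN]; exact z1) (by rw [hlN]; exact z2)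
    (η := fun _ => PBT.crL e J (k + 1)) (η' := fun _ => PBT.crL' e J (k + 1))
    (fun n _ r _ => Filter.Eventually.of_forall fun O => Hcur (k + 1) k2 r O)
  have e1 : ∀ n, PBF.FA (PBX.ZL (4 / 3 * (1 - e)) (PBL.mu1 k x) [I, -I] [] z)
      (NUSea.O.par0 (k + 1)) n n (PBT.crL e J (k + 1)) (PBT.crL' e J (k + 1))
      (fun _ _ _ _ _ => 1) = PBF.FE (PBT.ZL (fun _ => NUP1.Leg.cc (k + 1)) k (4 / 3 * (1 - e)) x z)
        (PBT.pL (k + 1)) n n (PBT.crL e J (k + 1)) (PBT.crL' e J (k + 1))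
        (fun _ _ _ _ _ => 1) := by
    intro n
    rw [PBF.FA_eq_FE]
    simp only [enorm_one]
    rfl
  simp only [e1] at h2
  rw [← ofReal_norm, ← ofReal_norm] at h2
  have h3 := h2.trans key
  rwa [ENNReal.ofReal_le_ofReal_iff (by positivity)] at h3

/-- symmetry -/
theorem fxz_neg (ζ : ℂ) (N : ℕ) {x : ℂ} (h : |x.re| ≤ NUP1.l / 2) {z : ℂ}
    (hz : |z.re| < 43 / 10 * NUP1.l) : fxz ζ⁻¹ N (-x) (-z) = fxz ζ N x z := by
  have h1 := fz_even ζ (Rws_cons (N := N) h) hz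
  rw [Pool.Agent.PB.neg_cons] at h1
  have e : -(fun _ : Fin N => (0 : ℂ)) = fun _ : Fin N => (0 : ℂ) := by
    funext i
    simp
  rw [e] at h1
  exact h1

/-- **the bound of the function with one moved row** -/
theorem fxz_le {δ : ℝ} (h : TopM δ) : ∃ m0 : ℕ, ∀ k : ℕ, m0 ≤ k → ∀ ζ : ℂ, ‖ζ‖ = 1 → ∀ x z : ℂ,
    |x.re| ≤ NUMF.l / 10 → |x.im| ≤ 2 → |z.re| < 37 / 10 * NUMF.l →
    |z.im| ≤ 3 / 20 * Real.log (k + 1 : ℕ) + 2 →
    ‖fxz ζ k x z‖ ≤ ((k + 1 : ℕ) : ℝ) ^ δ * Real.exp (2 * |z.im|) := by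
  obtain ⟨m0, H⟩ := fxz_le_right h
  refine ⟨m0, fun k hk ζ hζ x z hx hx' hz hz' => ?_⟩
  have hl := NUMF.l_pos
  have hlN : NUP1.l = NUMF.l := rfl
  obtain ⟨z1, z2⟩ := abs_lt.1 hz
  rcases le_or_gt (-(9 / 10 * NUMF.l)) z.re with h1 | h1
  · exact H k hk ζ hζ x z hx hx' h1 z2 hz'
  · rw [← fxz_neg ζ k (by rw [hlN]; linarith) (by rw [hlN]; linarith)]
    have := H k hk ζ⁻¹ (by rw [norm_inv, hζ, inv_one]) (-x) (-z) (by rwa [neg_re, abs_neg])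
      (by rwa [neg_im, abs_neg])
      (by rw [neg_re]; linarith) (by rw [neg_re]; linarith) (by rwa [neg_im, abs_neg])
    rwa [neg_im, abs_neg] at this

/-- **the bound of the function at the rows `0`** -/
theorem f0z_le {δ : ℝ} (h : TopM δ) : ∃ m0 : ℕ, ∀ j : ℕ, m0 ≤ j → ∀ ζ : ℂ, ‖ζ‖ = 1 → ∀ z : ℂ,
    |z.re| < 37 / 10 * NUMF.l → |z.im| ≤ 3 / 20 * Real.log j + 2 →
    ‖f0z ζ j z‖ ≤ (j : ℝ) ^ δ * Real.exp (2 * |z.im|) := by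
  obtain ⟨m0, H⟩ := fxz_le h
  refine ⟨m0 + 1, fun j hj ζ hζ z hz hz' => ?_⟩
  have hl := NUMF.l_pos
  obtain ⟨k, rfl⟩ : ∃ k, j = k + 1 := ⟨j - 1, by omega⟩
  rw [← fxz_zero]
  exact H k (by omega) ζ hζ 0 z (by simp; positivity) (by simp) hz hz'

/-- **(U1)**, uniform in `ζ` -/
def U1z : Prop := ∀ ε : ℝ, 0 < ε →
  (∀ᶠ j : ℕ in atTop, ∀ ζ : ℂ, ‖ζ‖ = 1 → ∀ z : ℂ, z.re = 0 → |z.im| ≤ 9 / 80 * Real.log j + 1 →
    ‖f0z ζ j z‖ ≤ (j : ℝ) ^ ε * Real.exp (2 * |z.im|)) ∧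
  ∀ᶠ j : ℕ in atTop, ∀ ζ : ℂ, ‖ζ‖ = 1 → ∀ s ∈ Icc (0 : ℝ) 1, ∀ t ∈ Icc (0 : ℝ) 1,
    ‖fxz ζ j (I * s) (I * t)‖ ≤ (j : ℝ) ^ ε

theorem u1z : U1z := by
  intro ε hε
  obtain ⟨δ, hδ, hδ1, hδε⟩ : ∃ δ : ℝ, 0 < δ ∧ δ ≤ 1 ∧ δ < ε :=
    ⟨min 1 (ε / 2), lt_min one_pos (by linarith), min_le_left _ _,
      (min_le_right _ _).trans_lt (by linarith)⟩
  obtain ⟨m0, H0⟩ := f0z_le (PBC.topM hδ)
  obtain ⟨m1, H1⟩ := fxz_le (PBC.topM hδ)
  have hl := NUMF.l_pos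
  constructor
  · filter_upwards [eventually_ge_atTop m0, eventually_ge_atTop 1] with j h1 h2 ζ hζ z hz hz'
    have hj : (1 : ℝ) ≤ j := by exact_mod_cast h2
    have hlog : 0 ≤ Real.log j := Real.log_nonneg hj
    refine (H0 j h1 ζ hζ z (by rw [hz, abs_zero]; positivity) (by linarith)).trans ?_
    exact mul_le_mul_of_nonneg_right (Real.rpow_le_rpow_of_exponent_le hj hδε.le)
      (Real.exp_pos _).le
  · filter_upwards [eventually_ge_atTop m1, eventually_ge_atTop 1,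
      ev_pow (2 * Real.exp 2) hδε] with j h1 h2 h3 ζ hζ s hs t ht
    have hj : (1 : ℝ) ≤ j := by exact_mod_cast h2
    have hlog : 0 ≤ Real.log (j + 1 : ℕ) := Real.log_nonneg (by push_cast; linarith)
    have k1 := H1 j h1 ζ hζ (I * s) (I * t) (by simp; positivity)
      (by simp [abs_of_nonneg hs.1]; linarith [hs.2]) (by simp; positivity)
      (by simp [abs_of_nonneg ht.1]; push_cast at hlog; linarith [ht.2])
    refine k1.trans (le_trans ?_ h3)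
    have e1 : (I * (t : ℂ)).im = t := by simp
    rw [e1, abs_of_nonneg ht.1]
    calc ((j + 1 : ℕ) : ℝ) ^ δ * Real.exp (2 * t) ≤ (2 * (j : ℝ) ^ δ) * Real.exp 2 := by
          refine mul_le_mul (succ_pow hδ.le hδ1 h2) (Real.exp_le_exp.2 (by linarith [ht.2]))
            (Real.exp_pos _).le (by positivity)
      _ = _ := by ring

/-- **(U0)**, uniform in `ζ` -/
theorem u0z : (∀ᶠ j : ℕ in atTop, ∀ ζ : ℂ, ‖ζ‖ = 1 → ∀ z : ℂ, |z.re| ≤ 18 / 5 * NUP1.l →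
      |z.im| ≤ 3 / 20 * Real.log j + 1 → ‖f0z ζ j z‖ ≤ Real.exp 2 * (j : ℝ) ^ (2 / 5 : ℝ)) ∧
    ∀ᶠ j : ℕ in atTop, ∀ ζ : ℂ, ‖ζ‖ = 1 → ∀ s ∈ Icc (0 : ℝ) 1, ∀ z : ℂ,
      |z.re| ≤ 18 / 5 * NUP1.l → |z.im| ≤ 3 / 20 * Real.log j + 1 →
      ‖fxz ζ j (I * s) z‖ ≤ 2 * (Real.exp 2 * (j : ℝ) ^ (2 / 5 : ℝ)) := by
  obtain ⟨m0, H0⟩ := f0z_le (PBC.topM (δ := 1 / 10) (by norm_num))
  obtain ⟨m1, H1⟩ := fxz_le (PBC.topM (δ := 1 / 10) (by norm_num))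
  have hl := NUMF.l_pos
  have hlN : NUP1.l = NUMF.l := rfl
  have key : ∀ j : ℕ, 1 ≤ j → ∀ y : ℝ, |y| ≤ 3 / 20 * Real.log j + 1 →
      (j : ℝ) ^ (1 / 10 : ℝ) * Real.exp (2 * |y|) ≤ Real.exp 2 * (j : ℝ) ^ (2 / 5 : ℝ) := by
    intro j hj y hy
    have hj' : (0 : ℝ) < j := by exact_mod_cast hj
    have e1 : (j : ℝ) ^ (2 / 5 : ℝ) = (j : ℝ) ^ (1 / 10 : ℝ) * (j : ℝ) ^ (3 / 10 : ℝ) := by
      rw [← Real.rpow_add hj']
      norm_num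
    have e2 : Real.exp (2 * |y|) ≤ Real.exp 2 * (j : ℝ) ^ (3 / 10 : ℝ) := by
      rw [Real.rpow_def_of_pos hj', ← Real.exp_add]
      refine Real.exp_le_exp.2 ?_
      linarith
    rw [e1]
    calc (j : ℝ) ^ (1 / 10 : ℝ) * Real.exp (2 * |y|) ≤
        (j : ℝ) ^ (1 / 10 : ℝ) * (Real.exp 2 * (j : ℝ) ^ (3 / 10 : ℝ)) :=
          mul_le_mul_of_nonneg_left e2 (by positivity)
      _ = _ := by ring
  constructor
  · filter_upwards [eventually_ge_atTop m0, eventually_ge_atTop 1] with j h1 h2 ζ hζ z hz hz'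
    have hz1 : |z.re| < 37 / 10 * NUMF.l := by
      rw [hlN] at hz
      linarith
    exact (H0 j h1 ζ hζ z hz1 (by linarith)).trans (key j h2 _ hz')
  · filter_upwards [eventually_ge_atTop m1, eventually_ge_atTop 1] with j h1 h2 ζ hζ s hs z hz hz'
    have hj : (1 : ℝ) ≤ j := by exact_mod_cast h2
    have hz1 : |z.re| < 37 / 10 * NUMF.l := by
      rw [hlN] at hz
      linarith
    have hlog : Real.log j ≤ Real.log (j + 1 : ℕ) :=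
      Real.log_le_log (by linarith) (by push_cast; linarith)
    have k1 := H1 j h1 ζ hζ (I * s) z (by simp; positivity)
      (by simp [abs_of_nonneg hs.1]; linarith [hs.2]) hz1 (by linarith)
    refine k1.trans ?_
    calc ((j + 1 : ℕ) : ℝ) ^ (1 / 10 : ℝ) * Real.exp (2 * |z.im|) ≤
        (2 * (j : ℝ) ^ (1 / 10 : ℝ)) * Real.exp (2 * |z.im|) :=
          mul_le_mul_of_nonneg_right (succ_pow (by norm_num) (by norm_num) h2) (Real.exp_pos _).le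
      _ = 2 * ((j : ℝ) ^ (1 / 10 : ℝ) * Real.exp (2 * |z.im|)) := by ring
      _ ≤ 2 * (Real.exp 2 * (j : ℝ) ^ (2 / 5 : ℝ)) :=
          mul_le_mul_of_nonneg_left (key j h2 _ hz') (by norm_num)

end WND

end
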