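import Pool.Agent.WND.FunZW
import Pool.Agent.WND.U01
import Pool.Agent.WND.E2z

/-!
# Plan W: the function side with a twist, no hypothesis (helper12, over helper96's `U01` and
helper91's `E2z`)

* `u0Z`, `u1Z`, `e2Z`: the three inputs of `WNDF.funW_f0t`;
* **`funW`**: `FunOW (1/2) (2 + (8/3) Dd)` for `f0t d`, `|d| ≤ Dd ≤ 1/10`;
* **`funZ_all`**: the form of the top level.
-/

set_option autoImplicit false

noncomputable section

open Complex Set Filter Topology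
open PBV (bK pow_ev)
open WND (f0z fxz f0t ga zt)

namespace WNDF

theorem u1Z : U1Z := WND.u1z

theorem u0Z : U0Z 1 := by
  obtain ⟨h1, h2⟩ := WND.u0z
  have key : ∀ᶠ j : ℕ in atTop, 2 * (Real.exp 2 * (j : ℝ) ^ (2 / 5 : ℝ)) ≤ (j : ℝ) ^ (1 : ℝ) := by
    filter_upwards [pow_ev (show (0 : ℝ) < 3 / 5 by norm_num) (2 * Real.exp 2), eventually_ge_atTop 1]
      with j h hj
    have hj0 : (0 : ℝ) < j := by exact_mod_cast hj
    have e : (j : ℝ) ^ (1 : ℝ) = (j : ℝ) ^ (3 / 5 : ℝ) * (j : ℝ) ^ (2 / 5 : ℝ) := by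
      rw [← Real.rpow_add hj0]
      norm_num
    rw [e, ← mul_assoc]
    gcongr
  constructor
  · filter_upwards [h1, key] with j a1 a2 w hw z hz hzi
    refine (a1 w hw z hz hzi).trans (le_trans ?_ a2)
    have : 0 ≤ Real.exp 2 * (j : ℝ) ^ (2 / 5 : ℝ) := by positivity
    linarith
  · filter_upwards [h2, key] with j a1 a2 w hw s hs z hz hzi
    exact (a1 w hw s hs z hz hzi).trans a2

theorem e2Z : E2Z (1 / 2) := WND.e2z_unif

/-- **THE FUNCTION SIDE WITH A TWIST** -/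
theorem funW {Dd : ℝ} (hD0 : 0 ≤ Dd) (hD : Dd ≤ 1 / 10) : ∃ ginf : Tw Dd → ℂ, Continuous ginf ∧
    FunOW (1 / 2) (2 + 8 / 3 * Dd) (fun i : Tw Dd => i.1) (fun i => f0t (i.1 : ℂ))
      (fun i j => bK (f0t (i.1 : ℂ)) j 0) ginf :=
  funW_f0t hD0 hD (by unfold nuW; nlinarith) le_rfl u0Z u1Z e2Z

/-- **the form of the top level** -/
theorem funZ_all {Dd : ℝ} (hD0 : 0 ≤ Dd) (hD : Dd ≤ 1 / 10) :
    ∃ (G : ℝ → ℂ) (B : ℝ), ContinuousOn G (Icc (-Dd) Dd) ∧ (∀ d : ℝ, |d| ≤ Dd → ‖G d‖ ≤ B) ∧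
      WND.FunZ gW G (1 / 2) Dd ∧ WND.FunZ (fun N d => f0z (zt (d : ℂ)) N 0) G (1 / 2) Dd := by
  obtain ⟨ginf, hc, h⟩ := funW hD0 hD
  exact funZ_of hc h

end WNDF
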