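import Pool.Agent.PB.CutAll

/-!
# Plan W: the cut term of the first Ward identity, norm form (helper17)

* `cauchy_sumN`: Cauchy's estimate for the sum of the norms of the derivatives;
* `cut_leN`, `cutFinN`, **`cutAllN`**: `‖Pf‖ ∑ n, ‖F0D n Z Zcut‖ ≤ (k + 1) ^ (- 2 + d) exp (2 |Im z|)`
  (the sum of the norms, one number of quanta after the other);
* **`cutAllC`**: the same for `Pf ∑ n, cf n * F0D n Z Zcut` with any coefficients `‖cf n‖ ≤ 1`.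
-/

set_option autoImplicit false
set_option maxHeartbeats 400000
set_option linter.unusedSectionVars false

noncomputable section

open Complex MeasureTheory Finset
open scoped ENNReal

namespace WND

open NUO NUP1 NUP1S NUP1S.Ab NUP1S.AbC NUGC PBF PBI PBT
open PBX (obX XX Lg gP Rws oneC_Lg obX_nn)
open PBL (mu1)
open PBP (gT)
open PotH (crH oneEH)
open PBZF (ZR ZdR ZpR Lz)

/-! ### Cauchy's estimate -/

theorem cauchy_sumN {f f' : ℕ → ℂ → ℂ} {S : Finset ℕ}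
    (h : ∀ n ∈ S, ∀ ε, HasDerivAt (f n) (f' n ε) ε) {E B : ℝ} (hE : 0 < E)
    (hB : ∀ ε : ℂ, ‖ε‖ = E → ∑ n ∈ S, ‖f n ε‖ ≤ B) : ∑ n ∈ S, ‖f' n 0‖ ≤ B / E := by
  obtain ⟨u, hu⟩ : ∃ u : ℕ → ℂ, u = fun n => if f' n 0 = 0 then 0 else
    ((‖f' n 0‖ : ℝ) : ℂ) / f' n 0 := ⟨_, rfl⟩
  have u1 : ∀ n, ‖u n‖ ≤ 1 := by
    intro n
    rw [hu]
    by_cases h0 : f' n 0 = 0
    · simp only [h0, if_true, norm_zero, zero_le_one]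
    · simp only [h0, if_false]
      rw [norm_div, Complex.norm_real, norm_norm, div_self (norm_ne_zero_iff.2 h0)]
  have u2 : ∀ n, u n * f' n 0 = ((‖f' n 0‖ : ℝ) : ℂ) := by
    intro n
    rw [hu]
    by_cases h0 : f' n 0 = 0
    · simp only [h0, if_true, norm_zero, mul_zero, Complex.ofReal_zero]
    · simp only [h0, if_false]
      exact div_mul_cancel₀ _ h0
  have h0 : ∀ ε : ℂ, HasDerivAt (fun ε : ℂ => ∑ n ∈ S, u n * f n ε)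
      (∑ n ∈ S, u n * f' n ε) ε := fun ε =>
    HasDerivAt.fun_sum fun n hn => (h n hn ε).const_mul (u n)
  have hd : Differentiable ℂ fun ε : ℂ => ∑ n ∈ S, u n * f n ε := fun ε => (h0 ε).differentiableAt
  have h1 := Complex.norm_deriv_le_of_forall_mem_sphere_norm_le (C := B) (c := 0) hE
    hd.diffContOnCl fun ε hε => by
      refine (norm_sum_le _ _).trans (le_trans (Finset.sum_le_sum fun n _ => ?_)
        (hB ε (by rwa [mem_sphere_zero_iff_norm] at hε)))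
      rw [norm_mul]
      exact (mul_le_mul_of_nonneg_right (u1 n) (norm_nonneg _)).trans (le_of_eq (one_mul _))
  rw [(h0 0).deriv] at h1
  have e : ∑ n ∈ S, u n * f' n 0 = ((∑ n ∈ S, ‖f' n 0‖ : ℝ) : ℂ) := by
    push_cast
    exact Finset.sum_congr rfl fun n _ => u2 n
  rw [e, Complex.norm_real, Real.norm_of_nonneg (Finset.sum_nonneg fun n _ => norm_nonneg _)] at h1
  exact h1

section gen

variable {Z Zc : Stt} {P : NUO.Par} {x0 κ κ' δ : ℝ}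

theorem F0D_sum_cauchyN {L : PBI.Lns} {α κ : ℝ} (hκ : 0 < κ) {S : Finset ℕ}
    (hok : ∀ n ∈ S, AllW α n n L fun c x => LnOk c x)
    (hm : ∀ s k, Measurable (Z s k)) (hmc : ∀ s k, Measurable (Zc s k))
    (hZ : ∀ n ∈ S, ∃ D : ℝ, AllW α n n L fun c x => ZBd c x κ D Z)
    (hZc : ∀ n ∈ S, ∃ D : ℝ, AllW α n n L fun c x => ZBd c x κ D Zc) {E B : ℝ} (hE : 0 < E)
    (hB : ∀ ε : ℂ, ‖ε‖ = E → ∑ n ∈ S, ‖F0 α n n L (Zep Z Zc ε) fun _ _ _ _ => 1‖ ≤ B) :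
    ∑ n ∈ S, ‖F0D α n n L Z Zc‖ ≤ B / E := by
  have h0 : ∀ n ∈ S, ∀ ε : ℂ, HasDerivAt (fun ε : ℂ => F0 α n n L (Zep Z Zc ε) fun _ _ _ _ => 1)
      (F0D α n n L (Zep Z Zc ε) Zc) ε := fun n hn ε => by
    obtain ⟨D, hD⟩ := hZ n hn
    obtain ⟨D', hD'⟩ := hZc n hn
    exact hasDerivAt_eps hκ (hok n hn) hm hmc hD hD' ε
  have h1 := cauchy_sumN h0 hE hB
  simp only [Zep_zero] at h1
  exact h1

/-- **the cut term, the norms summed over the numbers of quanta** -/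
theorem F0D_sum_leN {S : Finset ℕ} {Pf : ℂ} {η η' : PBF.Crs} (h : GoodQ P x0) (hx0 : x0 ≤ NUP1.l)
    (hP : ∀ r, Measurable (P.rad r)) (hκ : 0 < κ)
    (hρ : ∀ r, ∃ ρ0, 0 < ρ0 ∧ ∀ t, ρ0 ≤ P.rad r t) (hZ : ZOk Z P x0 κ κ' δ)
    (hZc : ZOk Zc P x0 κ κ' δ) (hδ0 : 0 ≤ δ) (hδ : δ ≤ 1 / 20) (hj : P.jL + δ < 3)
    (hη : ∀ r, ∀ᵐ O ∂(Measure.pi fun _ : Fin r => NUO.nu), NUO.CrvR δ (η r O) (η' r O))
    {E B : ℝ} (hE : 0 < E) (hB0 : 0 ≤ B)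
    (hB : ∀ ε : ℂ, ‖ε‖ = E → ∑ n ∈ S, ‖Pf‖ₑ *
      PBF.FA (Zep Z Zc ε) P n n η η' (fun _ _ _ _ _ => 1) ≤ ENNReal.ofReal B) :
    ‖Pf‖ * ∑ n ∈ S, ‖F0D x0 n n (Lfin P) Z Zc‖ ≤ B / E := by
  rcases eq_or_ne Pf 0 with h0 | h0
  · rw [h0, norm_zero, zero_mul]
    positivity
  have hPf : 0 < ‖Pf‖ := norm_pos_iff.2 h0
  have key : ∑ n ∈ S, ‖F0D x0 n n (Lfin P) Z Zc‖ ≤ (B / ‖Pf‖) / E := by
    refine F0D_sum_cauchyN hκ (fun n _ => lnOk_fin h n n) hZ.m hZc.m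
      (fun n _ => ZBd_fin hx0 hZ.dec n) (fun n _ => ZBd_fin hx0 hZc.dec n) hE fun ε hε => ?_
    have e1 : ∀ n ∈ S, ‖F0 x0 n n (Lfin P) (Zep Z Zc ε) (fun _ _ _ _ => 1)‖ =
        ‖PBF.FF (Zep Z Zc ε) P n n η η' (fun _ _ _ _ _ => 1)‖ := fun n _ => by
      rw [F0_FF h hx0 hP hκ hρ (hZ.ep hZc ε) hδ0 hδ hj fun r _ => hη r]
    rw [Finset.sum_congr rfl e1, le_div_iff₀ hPf, mul_comm, Finset.mul_sum]
    have h2 : ENNReal.ofReal (∑ n ∈ S, ‖Pf‖ *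
        ‖PBF.FF (Zep Z Zc ε) P n n η η' (fun _ _ _ _ _ => 1)‖) ≤ ENNReal.ofReal B := by
      rw [ENNReal.ofReal_sum_of_nonneg fun n _ => by positivity]
      refine le_trans (Finset.sum_le_sum fun n _ => ?_) (hB ε hε)
      rw [ENNReal.ofReal_mul (norm_nonneg _), ofReal_norm, ofReal_norm]
      exact mul_le_mul' le_rfl (PBF.FF_le _)
    exact (ENNReal.ofReal_le_ofReal_iff hB0).1 h2
  calc ‖Pf‖ * ∑ n ∈ S, ‖F0D x0 n n (Lfin P) Z Zc‖ ≤ ‖Pf‖ * ((B / ‖Pf‖) / E) := by gcongr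
    _ = B / E := by field_simp

end gen

section rows

variable {m : ℕ} {c : Bool → ℂ} {β : ℝ} {rw : Bool → Fin m → ℂ} {s1 s2 : Bool → ℂ → ℂ}
  {P : NUO.Par}

/-- **the cut term at the rows data**: `Zd = Zc` on the final lines -/
theorem cut_leN (hP : ParC P) (hρ : ∀ r, ∃ ρ0, 0 < ρ0 ∧ ∀ t, ρ0 ≤ P.rad r t) {δ : ℝ} (hδ0 : 0 ≤ δ)
    (hδ : δ ≤ 1 / 20) (hβ : 0 < β) (hβ' : β ≤ 4 / 3) (hr : ∀ a, Rws (rw a))
    {ex ex0 : Bool → List ℂ} (hex : ∀ a, ∀ w ∈ ex a, |w.re| ≤ NUP1.l / 2)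
    (hex0 : ∀ a, ∀ w ∈ ex0 a, |w.re| ≤ NUP1.l / 2) (h : ∀ a, NURow.SpecQ a 0 (s1 a) (s2 a))
    (hA : ∀ a, SpecAt (3 / 5 * NUP1.l) a 0 (s1 a)) {Zd Zc : Stt} {C D : ℝ} (hC : 0 ≤ C)
    (hZc : ZcOk (fun a => XX (c a) β (rw a) (rw !a) (gP β (ex a)) (gP (4 / 3) (ex0 a)) (s1 a)
      (s2 a)) Zc P (3 / 5 * NUP1.l) (2 * β) δ C D) {S : Finset ℕ}
    (hd : ∀ n ∈ S, AllW (3 / 5 * NUP1.l) n n (Lfin P) fun c x => ∀ i, ∀ t : ℝ,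
      Zd (c i).1 (c i).2 (vl (x i) t) = Zc (c i).1 (c i).2 (vl (x i) t)) {Pf : ℂ}
    {η η' : Crs} (hη : ∀ r, ∀ᵐ O ∂(Measure.pi fun _ : Fin r => nu), CrvR δ (η r O) (η' r O))
    {E B : ℝ} (hE : 0 < E) (hB0 : 0 ≤ B)
    (hB : ∀ ε : ℂ, ‖ε‖ = E → ∑ n ∈ S, ‖Pf‖ₑ *
      FA (Zep (fun a => XX (c a) β (rw a) (rw !a) (gP β (ex a)) (gP (4 / 3) (ex0 a)) (s1 a)
        (s2 a)) Zc ε) P n n η η' (fun _ _ _ _ _ => 1) ≤ ENNReal.ofReal B) :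
    ‖Pf‖ * ∑ n ∈ S, ‖F0D (3 / 5 * NUP1.l) n n (Lfin P) (fun a => XX (c a) β (rw a) (rw !a)
      (gP β (ex a)) (gP (4 / 3) (ex0 a)) (s1 a) (s2 a)) Zd‖ ≤ B / E := by
  have hl := Bd.l_pos
  have hZ := zok_X (c := c) hP hδ hβ hβ' hr hex hex0 h hA
  rw [Finset.sum_congr rfl fun n hn => by rw [F0D_congr (hd n hn)]]
  exact F0D_sum_leN hP.goodQ (by linarith) hP.rm (by linarith : (0 : ℝ) < 2 * β) hρ hZ
    (hZc.zok hC (by linarith) hδ0 hZ) hδ0 hδ (by linarith [hP.j2]) hη hE hB0 hB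

end rows

attribute [local instance] NUSea.seaP

/-- **the cut term**: Cauchy's estimate with the radius `E` -/
theorem cutFinN (hS : NUStabP.StabProd) {K Ca : ℝ} (hCa : 0 ≤ Ca) (hG : GasOf K Ca) :
    ∃ K' : ℝ, ∀ C c : ℝ, 0 < C → 0 < c → ∀ δ : ℝ, 0 < δ → ∃ a0 : ℝ, 0 < a0 ∧
    ∀ ep : ℝ, 0 < ep → ep ≤ 1 / 100 → ∀ e1 : ℝ, 0 < e1 → e1 ≤ 1 / 100 → ∀ J : ℝ, 0 ≤ J →
    Real.exp (-(2 * Real.pi * J)) + 3 * e1 + 3 * ep ≤ a0 →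
    ∃ m0 : ℕ, ∀ k : ℕ, m0 ≤ k → ∀ x z : ℂ, |x.re| ≤ NUMF.l / 10 → |x.im| ≤ 2 →
      -(9 / 10 * NUMF.l) ≤ z.re → z.re < 37 / 10 * NUMF.l →
      |z.im| ≤ 3 / 20 * Real.log (k + 1 : ℕ) + 2 → ∀ cc : Bool → ℂ,
      (∀ a, ‖cc a‖ = 2 * Real.cos NUP1.l) →
      ∀ (Zd Zc : Stt) (δ₀ E cz : ℝ) (Mz M : ℝ → ℝ) (Cz D : ℝ) (S : Finset ℕ),
      0 ≤ δ₀ → δ₀ ≤ 1 / ((k + 1 : ℕ) : ℝ) → 0 < E → 0 ≤ Cz →
      PBC.CutZ (ZL cc k (4 / 3 * (1 - ep)) x z) Zc (obL k (4 / 3 * (1 - ep)) x z) (pL (k + 1)) ep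
        (2 * (4 / 3 * (1 - ep))) (3 / 5 * NUP1.l) 0 (Set.range fun i => (mu1 k x i).im) cz Mz →
      E * cz ≤ δ₀ → (∀ t, E * Mz t ≤ M t) →
      OneB C c K' ep e1 J (k + 1) (PBC.obE (obL k (4 / 3 * (1 - ep)) x z) δ₀ M) →
      ZcOk (ZL cc k (4 / 3 * (1 - ep)) x z) Zc (pL (k + 1)) (3 / 5 * NUP1.l)
        (2 * (4 / 3 * (1 - ep))) (ep / 4) Cz D →
      S ⊆ range (2 * (k + 1) + 1) →
      (∀ n ∈ S, AllW (3 / 5 * NUP1.l) n n (Lfin (pL (k + 1))) fun c x => ∀ i, ∀ t : ℝ,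
        Zd (c i).1 (c i).2 (vl (x i) t) = Zc (c i).1 (c i).2 (vl (x i) t)) →
      ‖Pool.Agent.PB.Pf z (mu1 k x) (mu1 k x)‖ * ∑ n ∈ S, ‖F0D (3 / 5 * NUP1.l) n n
        (Lfin (pL (k + 1))) (ZL cc k (4 / 3 * (1 - ep)) x z) Zd‖ ≤
        ((k + 1 : ℕ) : ℝ) ^ δ * Real.exp (2 * |z.im|) / E := by
  obtain ⟨K', HT⟩ := cutSup hS hCa hG
  refine ⟨K', fun C c hC hc δ hδ => ?_⟩
  obtain ⟨a0, ha0, HT⟩ := HT C c hC hc δ hδ
  refine ⟨a0, ha0, fun ep hep hep1 e1 he he1 J hJ hsm => ?_⟩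
  obtain ⟨mt, HT⟩ := HT ep hep hep1 e1 he he1 J hJ hsm
  obtain ⟨mc, -, Hcur⟩ := curZ_crs he he1 hJ hep
  refine ⟨max mt mc, fun k hk x z hx hx' z1 z2 z3 cc hcc Zd Zc δ₀ E cz Mz M Cz D S h0 h1 hE hCz
    hcut hcz hMz hact hzc hSs hd => ?_⟩
  have k1 : mt ≤ k := (le_max_left _ _).trans hk
  have k2 : mc ≤ k + 1 := ((le_max_right _ _).trans hk).trans (Nat.le_succ k)
  have hl := NUMF.l_pos
  have hlN : NUP1.l = NUMF.l := rfl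
  have hmp : (0 : ℝ) < ((k + 1 : ℕ) : ℝ) := by positivity
  have hr : Rws (mu1 k x) := rws_mu1 k (by rw [hlN]; linarith)
  have hI : ∀ w ∈ [I, -I], |w.re| ≤ NUP1.l / 2 := by
    intro w hw
    rw [List.mem_cons, List.mem_singleton] at hw
    rcases hw with rfl | rfl
    · rw [Complex.I_re, abs_zero, hlN]; positivity
    · rw [Complex.neg_re, Complex.I_re, neg_zero, abs_zero, hlN]; positivity
  have hone : OneC (ZL cc k (4 / 3 * (1 - ep)) x z) (obL k (4 / 3 * (1 - ep)) x z) (pL (k + 1)) ep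
      (2 * (4 / 3 * (1 - ep))) (3 / 5 * NUP1.l) 0 (Set.range fun i => (mu1 k x i).im) :=
    oneC_Lg le_rfl (by rw [hlN]; linarith) (parZ_parC (k + 1)) hep hep1 (by linarith) (by linarith)
      hr hI [] hcc (by rw [hlN]; exact z1) (by rw [hlN]; exact z2)
  have hcr : ∀ (r : ℕ) (O : Fin r → Xo), CrvR (ep / 4) (crL e1 J (k + 1) r O)
      (crL' e1 J (k + 1) r O) := fun r O => PBF.crvR_of hep hep1 (Hcur (k + 1) k2 r O)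
  refine cut_leN (m := k + 1) (c := cc) (β := 4 / 3 * (1 - ep)) (rw := fun _ => mu1 k x)
    (s1 := fun _ => Lg z z) (s2 := fun _ w => Lg z z w * Lg z z (w - NUP1.l)) (ex := fun _ => [I, -I])
    (ex0 := fun _ => []) (P := pL (k + 1)) (parZ_parC (k + 1)) (fun r => PBC.parZ_low (k + 1) r)
    (δ := ep / 4) (by linarith) (by linarith) (by linarith) (by linarith) (fun _ => hr)
    (fun _ => hI) (fun _ w hw => absurd hw List.not_mem_nil)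
    (fun a => PBX.Lg_SpecQ a (by rw [hlN]; linarith) (by rw [hlN]; exact z2))
    (fun a => by
      have := PBX.Lg_SpecAt (z := z) (x0 := 3 / 5 * NUP1.l) le_rfl a (by rw [hlN]; exact z1)
        (by rw [hlN]; exact z2)
      simpa using this) hCz hzc hd
    (fun r => Filter.Eventually.of_forall fun O => hcr r O) hE (by positivity) ?_
  intro ε hε
  have hone2 := PBC.OneC.eps hone hcut (by rw [(parZ_fields (k + 1)).2.1]; norm_num) (ε := ε) h0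
    (by rw [hε]; exact hcz) (M' := M) (fun t => by rw [hε]; exact hMz t)
  have key := HT k k1 x z hx hx' z1 z2 z3 (Zep (ZL cc k (4 / 3 * (1 - ep)) x z) Zc ε) δ₀ M
    (2 * (4 / 3 * (1 - ep))) (3 / 5 * NUP1.l) 0 (Set.range fun i => (mu1 k x i).im) h0 h1 hone2 hact
  refine le_trans ?_ key
  rw [Finset.mul_sum]
  calc ∑ n ∈ S, ‖Pool.Agent.PB.Pf z (mu1 k x) (mu1 k x)‖ₑ *
        FA (Zep (ZL cc k (4 / 3 * (1 - ep)) x z) Zc ε) (pL (k + 1)) n n (crL e1 J (k + 1))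
          (crL' e1 J (k + 1)) (fun _ _ _ _ _ => 1)
      = ∑ n ∈ S, ENNReal.ofReal ‖Pool.Agent.PB.Pf z (mu1 k x) (mu1 k x)‖ *
        FE (Zep (ZL cc k (4 / 3 * (1 - ep)) x z) Zc ε) (pL (k + 1)) n n (crL e1 J (k + 1))
          (crL' e1 J (k + 1)) (fun _ _ _ _ _ => 1) := by
        refine Finset.sum_congr rfl fun n _ => ?_
        rw [FA_eq_FE, ofReal_norm]
        simp only [enorm_one]
    _ ≤ _ := Finset.sum_le_sum_of_subset hSs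

/-- **the cut term of the first Ward identity** -/
theorem cutAllN (hS : NUStabP.StabProd) {d : ℝ} (hd : 0 < d) : ∃ a0 : ℝ, 0 < a0 ∧
    ∀ ep : ℝ, 0 < ep → ep ≤ 1 / 100 → ∀ e1 : ℝ, 0 < e1 → e1 ≤ 1 / 100 → ∀ J : ℝ, 0 ≤ J →
    Real.exp (-(2 * Real.pi * J)) + 3 * e1 + 3 * ep ≤ a0 →
    ∃ m0 : ℕ, ∀ k : ℕ, m0 ≤ k → ∀ η0 : ℝ, |η0| ≤ 1 → ∀ z : ℂ, Lz z →
      |z.im| ≤ 3 / 20 * Real.log (k + 1 : ℕ) + 2 → ∀ cc : Bool → ℂ,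
      (∀ a, ‖cc a‖ = 2 * Real.cos NUP1.l) → ∀ v : Fin 2 → ℂ,
      v = PBFar.vI (4 / 3 * (1 - ep)) k ((η0 : ℂ) * I) I (PBFar.xe k η0) →
      ‖Pool.Agent.PB.Pf z (PBZF.rwx k (η0 : ℂ)) (PBZF.rwx k (η0 : ℂ))‖ *
        ∑ n ∈ range (2 * (k + 1) + 1), ‖F0D (3 / 5 * NUP1.l) n n (fl (pL (k + 1)))
          (ZR cc (4 / 3 * (1 - ep)) k z η0 v η0)
          (Zcut (ZR cc (4 / 3 * (1 - ep)) k z η0 v η0)
            (ZdR cc (4 / 3 * (1 - ep)) k z η0 v η0)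
            (ZpR cc (4 / 3 * (1 - ep)) k z η0 v)
            (PBQ1.xiK (PBZF.rwx k (η0 : ℂ)) 0) (PBQ1.krK (PBZF.rwx k (η0 : ℂ)))
            (PBQ1.r1K (PBZF.rwx k (η0 : ℂ)) 0) (PBQ1.lamK z))‖ ≤
        ((k + 1 : ℕ) : ℝ) ^ (-2 + d) * Real.exp (2 * |z.im|) := by
  obtain ⟨K, Ca, -, hCa, hG⟩ := gasOf_L
  obtain ⟨K', HT⟩ := cutFinN hS hCa hG
  obtain ⟨C, c, hC, hc, HD⟩ := PBC.cut_data K'
  obtain ⟨C0, hC0, HX⟩ := PBC.flX_xiR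
  obtain ⟨a0, ha0, HT⟩ := HT C c hC hc (d / 2) (by linarith)
  refine ⟨a0, ha0, fun ep hep hep1 e1 he he1 J hJ hsm => ?_⟩
  obtain ⟨mt, HT⟩ := HT ep hep hep1 e1 he he1 J hJ hsm
  obtain ⟨Cc, Kz, hCc, hKz, HD⟩ := HD C0 hC0 ep hep hep1
  obtain ⟨k0, hk0, HD⟩ := HD e1 he he1
  have t1 : Filter.Tendsto (fun m : ℕ => (m : ℝ) ^ (d / 2)) Filter.atTop Filter.atTop :=
    (tendsto_rpow_atTop (by positivity : 0 < d / 2)).comp tendsto_natCast_atTop_atTop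
  obtain ⟨mx, hmx⟩ := Filter.eventually_atTop.1 (t1.eventually_ge_atTop (8 * Cc))
  refine ⟨max (max mt k0) (max mx 1), fun k hk η0 hη0 z hz z3 cc hcc v hv => ?_⟩
  have k1 : mt ≤ k := (le_max_left _ _).trans ((le_max_left _ _).trans hk)
  have k2 : k0 ≤ k := (le_max_right _ _).trans ((le_max_left _ _).trans hk)
  have k3 : mx ≤ k + 1 := ((le_max_left _ _).trans ((le_max_right _ _).trans hk)).trans
    (Nat.le_succ k)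
  have k4 : 1 ≤ k := (le_max_right _ _).trans ((le_max_right _ _).trans hk)
  have hl := NUMF.l_pos
  have hlN : NUP1.l = NUMF.l := rfl
  have hkp : (0 : ℝ) < (k : ℝ) := by exact_mod_cast k4
  have hk1 : (1 : ℝ) ≤ (k : ℝ) := by exact_mod_cast k4
  have ek : ((k + 1 : ℕ) : ℝ) = (k : ℝ) + 1 := by push_cast; ring
  have hmp : (0 : ℝ) < ((k + 1 : ℕ) : ℝ) := by positivity
  have hm1 : (1 : ℝ) ≤ ((k + 1 : ℕ) : ℝ) := by rw [ek]; linarith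
  obtain ⟨E, hE⟩ : ∃ E : ℝ, E = ((k + 1 : ℕ) : ℝ) ^ (2 - d / 2) := ⟨_, rfl⟩
  have hE0 : 0 < E := by rw [hE]; exact Real.rpow_pos_of_pos hmp _
  have hE2 : E ≤ ((k : ℝ) + 1) ^ 2 := by
    rw [hE, ← ek, ← Real.rpow_natCast]
    exact Real.rpow_le_rpow_of_exponent_le hm1 (by push_cast; linarith)
  have hEd : E * ((k + 1 : ℕ) : ℝ) ^ (d / 2) = ((k + 1 : ℕ) : ℝ) ^ 2 := by
    rw [hE, ← Real.rpow_add hmp, ← Real.rpow_natCast]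
    congr 1
    push_cast
    ring
  have hδ0 : 0 ≤ E * (Cc / (k : ℝ) ^ 3) := by positivity
  have hδ1 : E * (Cc / (k : ℝ) ^ 3) ≤ 1 / ((k + 1 : ℕ) : ℝ) := by
    have h1 := hmx (k + 1) k3
    have h2 : ((k + 1 : ℕ) : ℝ) ^ 3 ≤ 8 * (k : ℝ) ^ 3 := by
      have h3 : ((k + 1 : ℕ) : ℝ) ≤ 2 * k := by rw [ek]; linarith
      calc ((k + 1 : ℕ) : ℝ) ^ 3 ≤ (2 * (k : ℝ)) ^ 3 := pow_le_pow_left₀ hmp.le h3 3
        _ = 8 * (k : ℝ) ^ 3 := by ring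
    have h4 : E * (8 * Cc) ≤ ((k + 1 : ℕ) : ℝ) ^ 2 := by
      rw [← hEd]
      exact mul_le_mul_of_nonneg_left h1 hE0.le
    rw [mul_div_assoc', div_le_div_iff₀ (by positivity) hmp]
    have h5 : E * (8 * Cc) * ((k + 1 : ℕ) : ℝ) ≤ ((k + 1 : ℕ) : ℝ) ^ 2 * ((k + 1 : ℕ) : ℝ) :=
      mul_le_mul_of_nonneg_right h4 hmp.le
    have h6 : ((k + 1 : ℕ) : ℝ) ^ 2 * ((k + 1 : ℕ) : ℝ) = ((k + 1 : ℕ) : ℝ) ^ 3 := by ring
    linarith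
  have hz' := hz
  obtain ⟨z1, z2⟩ := hz'
  have z2' : z.re < 37 / 10 * NUMF.l := by
    rw [← hlN]
    linarith [NUP1.l_pos]
  have hre : |((η0 : ℂ) * I).re| ≤ NUMF.l / 10 := by
    simp
    positivity
  have him : |((η0 : ℂ) * I).im| ≤ 2 := by
    have : ((η0 : ℂ) * I).im = η0 := by simp
    rw [this]
    linarith
  obtain ⟨X, hX⟩ : ∃ X, X = PBForce.xiR (PBZF.rwx k (η0 : ℂ)) 0 := ⟨_, rfl⟩
  have hFX : PBC.FlX k C0 X (PBFar.xe k η0) := by rw [hX]; exact HX k k4 η0 hη0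
  obtain ⟨hD1, hD2⟩ := HD k k2 η0 hη0 X hFX z z1 z2'
  obtain ⟨hcut, D, hzc⟩ := hD1 cc hcc
  have hact := hD2 E hE0.le hE2 J hJ
  obtain ⟨Zd, hZd⟩ : ∃ Zd : Stt, Zd = Zcut (ZR cc (4 / 3 * (1 - ep)) k z η0 v η0)
            (ZdR cc (4 / 3 * (1 - ep)) k z η0 v η0)
            (ZpR cc (4 / 3 * (1 - ep)) k z η0 v)
            (PBQ1.xiK (PBZF.rwx k (η0 : ℂ)) 0) (PBQ1.krK (PBZF.rwx k (η0 : ℂ)))
            (PBQ1.r1K (PBZF.rwx k (η0 : ℂ)) 0) (PBQ1.lamK z) := ⟨_, rfl⟩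
  have hline : ∀ n ∈ range (2 * (k + 1) + 1),
      AllW (3 / 5 * NUP1.l) n n (Lfin (pL (k + 1))) fun c x => ∀ i, ∀ t : ℝ,
        Zd (c i).1 (c i).2 (vl (x i) t) =
          PBC.ZcL cc k (4 / 3 * (1 - ep)) η0 z X (c i).1 (c i).2 (vl (x i) t) := by
    intro n _
    have h1 := PBZF.zcut_K (a := k) (b := 4 / 3 * (1 - ep)) (z0 := z) cc (by linarith) (by linarith)
      hz η0 (PBFar.xe k η0) (α := 3 / 5 * NUP1.l) le_rfl (by linarith [NUP1.l_pos])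
      (L := Lfin (pL (k + 1)))
      (NURow.LnH_P (parZ_parC (k + 1)).goodP (parZ_parC (k + 1)).j1 (parZ_parC (k + 1)).j2
        fun r => by
          have h3 := (parZ_parC (k + 1)).e2 r
          have h4 := (parZ_parC (k + 1)).d0 r
          linarith) n
    rw [← hv, ← hZd, ← hX] at h1
    intro p p' w w' g1 g2 i t
    exact h1 p p' w w' g1 g2 i t
  have key := HT k k1 ((η0 : ℂ) * I) z hre him z1 z2' z3 cc hcc Zd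
    (PBC.ZcL cc k (4 / 3 * (1 - ep)) η0 z X) (E * (Cc / (k : ℝ) ^ 3)) E (Cc / (k : ℝ) ^ 3)
    (PBC.MT Kz (4 / 3 * (1 - ep)) k η0) (fun t => E * PBC.MT Kz (4 / 3 * (1 - ep)) k η0 t)
    (Cc / (k : ℝ) ^ 3) D (range (2 * (k + 1) + 1)) hδ0 hδ1 hE0 (by positivity) hcut le_rfl
    (fun t => le_rfl) hact hzc (Finset.Subset.refl _) hline
  rw [← hZd, ZR_topG]
  refine key.trans (le_of_eq ?_)
  rw [hE, div_eq_mul_inv, ← Real.rpow_neg hmp.le, mul_right_comm, ← Real.rpow_add hmp]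
  congr 2
  ring


/-- **the cut term with coefficients** `‖cf n‖ ≤ 1` (plan W: `cf n = ζ ^ (k + 1 - n)`) -/
theorem cutAllC (hS : NUStabP.StabProd) {d : ℝ} (hd : 0 < d) : ∃ a0 : ℝ, 0 < a0 ∧
    ∀ ep : ℝ, 0 < ep → ep ≤ 1 / 100 → ∀ e1 : ℝ, 0 < e1 → e1 ≤ 1 / 100 → ∀ J : ℝ, 0 ≤ J →
    Real.exp (-(2 * Real.pi * J)) + 3 * e1 + 3 * ep ≤ a0 →
    ∃ m0 : ℕ, ∀ k : ℕ, m0 ≤ k → ∀ η0 : ℝ, |η0| ≤ 1 → ∀ z : ℂ, Lz z →
      |z.im| ≤ 3 / 20 * Real.log (k + 1 : ℕ) + 2 → ∀ cc : Bool → ℂ,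
      (∀ a, ‖cc a‖ = 2 * Real.cos NUP1.l) → ∀ v : Fin 2 → ℂ,
      v = PBFar.vI (4 / 3 * (1 - ep)) k ((η0 : ℂ) * I) I (PBFar.xe k η0) →
      ∀ cf : ℕ → ℂ, (∀ n ≤ 2 * (k + 1), ‖cf n‖ ≤ 1) →
      ‖∑ n ∈ range (2 * (k + 1) + 1),
        Pool.Agent.PB.Pf z (PBZF.rwx k (η0 : ℂ)) (PBZF.rwx k (η0 : ℂ)) * cf n *
        F0D (3 / 5 * NUP1.l) n n (fl (pL (k + 1)))
          (ZR cc (4 / 3 * (1 - ep)) k z η0 v η0)
          (Zcut (ZR cc (4 / 3 * (1 - ep)) k z η0 v η0)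
            (ZdR cc (4 / 3 * (1 - ep)) k z η0 v η0)
            (ZpR cc (4 / 3 * (1 - ep)) k z η0 v)
            (PBQ1.xiK (PBZF.rwx k (η0 : ℂ)) 0) (PBQ1.krK (PBZF.rwx k (η0 : ℂ)))
            (PBQ1.r1K (PBZF.rwx k (η0 : ℂ)) 0) (PBQ1.lamK z))‖ ≤
        ((k + 1 : ℕ) : ℝ) ^ (-2 + d) * Real.exp (2 * |z.im|) := by
  obtain ⟨a0, ha0, HT⟩ := cutAllN hS hd
  refine ⟨a0, ha0, fun ep hep hep1 e1 he he1 J hJ hsm => ?_⟩
  obtain ⟨m0, HT⟩ := HT ep hep hep1 e1 he he1 J hJ hsm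
  refine ⟨m0, fun k hk η0 hη0 z hz z3 cc hcc v hv cf hcf => ?_⟩
  refine le_trans ?_ (HT k hk η0 hη0 z hz z3 cc hcc v hv)
  rw [Finset.mul_sum]
  refine (norm_sum_le _ _).trans (Finset.sum_le_sum fun n hn => ?_)
  have hn' : n ≤ 2 * (k + 1) := by
    have := Finset.mem_range.1 hn
    omega
  rw [norm_mul, norm_mul]
  refine mul_le_mul_of_nonneg_right ?_ (norm_nonneg _)
  exact (mul_le_mul_of_nonneg_left (hcf n hn') (norm_nonneg _)).trans (le_of_eq (mul_one _))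

end WND

end
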