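import Pool.Agent.WND.CylFin

/-!
# The two-point function of the cylinder is positive (helper85)

The straight walk `(0, 0, white), (0, 0, black), (0, 1, white), ..., (0, k, white)`.
-/

set_option autoImplicit false

noncomputable section

namespace Pool.Agent.CylSaw

/-- the straight walk -/
def strw (k : ℕ) (i : Fin (2 * k + 1)) : V (2 * k) := (0, ((i.val / 2 : ℕ) : ZMod (2 * k)), decide (i.val % 2 = 1))

theorem strw_mem {k : ℕ} (hk : 1 ≤ k) : strw k ∈ saws k (2 * k) := by
  refine ⟨?_, ?_, ?_, ?_⟩
  · intro i j h
    have h1 : ((i.val / 2 : ℕ) : ZMod (2 * k)) = ((j.val / 2 : ℕ) : ZMod (2 * k)) :=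
      congrArg (fun p : V (2 * k) => p.2.1) h
    have h2 : decide (i.val % 2 = 1) = decide (j.val % 2 = 1) := congrArg (fun p : V (2 * k) => p.2.2) h
    rw [ZMod.natCast_eq_natCast_iff'] at h1
    have hi := i.2
    have hj := j.2
    rw [Nat.mod_eq_of_lt (by omega), Nat.mod_eq_of_lt (by omega)] at h1
    rw [decide_eq_decide] at h2
    refine Fin.ext ?_
    omega
  · unfold strw
    simp
  · unfold strw
    rw [Fin.val_last, Nat.mul_div_cancel_left _ (by norm_num : 0 < 2), Nat.mul_mod_right]
    simp
  · intro i
    rw [SimpleGraph.deleteEdges_adj]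
    refine ⟨?_, ?_⟩
    · have hi := i.2
      rcases Nat.even_or_odd' i.val with ⟨m, hm | hm⟩
      · have e1 : strw k i.castSucc = (0, (m : ZMod (2 * k)), false) := by
          unfold strw
          rw [Fin.val_castSucc, hm]
          simp
        have e2 : strw k i.succ = (0, (m : ZMod (2 * k)), true) := by
          unfold strw
          rw [Fin.val_succ, hm]
          have h3 : (2 * m + 1) / 2 = m := by omega
          have h4 : (2 * m + 1) % 2 = 1 := by omega
          rw [h3, h4]
          simp
        rw [e1, e2]
        exact Or.inl ⟨rfl, rfl, Or.inl ⟨rfl, rfl⟩⟩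
      · have e1 : strw k i.castSucc = (0, (m : ZMod (2 * k)), true) := by
          unfold strw
          rw [Fin.val_castSucc, hm]
          have h3 : (2 * m + 1) / 2 = m := by omega
          have h4 : (2 * m + 1) % 2 = 1 := by omega
          rw [h3, h4]
          simp
        have e2 : strw k i.succ = (0, ((m + 1 : ℕ) : ZMod (2 * k)), false) := by
          unfold strw
          rw [Fin.val_succ, hm]
          have h3 : (2 * m + 1 + 1) / 2 = m + 1 := by omega
          have h4 : (2 * m + 1 + 1) % 2 = 0 := by omega
          rw [h3, h4]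
          simp
        rw [e1, e2]
        refine Or.inr ⟨rfl, rfl, Or.inr (Or.inr ⟨rfl, ?_⟩)⟩
        simp only
        push_cast
        ring
    · have h0 : ∀ j, (strw k j).1 = 0 := fun _ => rfl
      rw [Set.mem_insert_iff, Set.mem_singleton_iff, not_or]
      have key : ∀ r : ZMod (2 * k), s(strw k i.castSucc, strw k i.succ) ≠ cut r := by
        intro r h
        unfold cut at h
        rw [Sym2.eq_iff] at h
        rcases h with ⟨h1, -⟩ | ⟨-, h1⟩
        · have := congrArg Prod.fst h1
          rw [h0] at this
          simp at this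
        · have := congrArg Prod.fst h1
          rw [h0] at this
          simp at this
      exact ⟨key 0, key _⟩

theorem W0r_pos {k : ℕ} (hk : 1 ≤ k) : 0 < PBM.W0r k := by
  rw [← Z_eq hk]
  exact (summable_wt hk).tsum_pos (fun w => (wt_pos w).le) ⟨2 * k, ⟨strw k, strw_mem hk⟩⟩ (wt_pos _)

end Pool.Agent.CylSaw

end
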