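import Pool.Agent.WND.Nrm
import Pool.Agent.PB.LevN
import Pool.Agent.PB.LevPW
import Pool.Agent.PV.LevXG

/-!
# PLAN W: the data of level two with an arbitrary coefficient of the same norm (helper38)

`cf j s t n`: coefficient at level `j`, `n` quanta, `SNm cf : ‖cf j s t n‖ = ‖cF j s t n‖`
(`cF` = the prefactor of plan B); weight `PVLX.wG (ZF ep) cf e1 J`.

* `cZ zz j s t n = tw (zz j) (j + 1) n * cF j s t n`: the twisted coefficient, any sequence `zz`;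
* `levNZ`, `levPZ`: the second Ward identities of both channels, constants before `cf`;
* **`levFZ`**: `PBEM.LevD`, constants before `cf`.
-/

set_option autoImplicit false
set_option linter.unusedSectionVars false

noncomputable section

open Complex MeasureTheory Filter Topology Set
open scoped ENNReal

namespace WND

open NUO NUP1S NUP1S.Ab NUP1S.AbC NUGC PBF PBFunc PBU PBWP PBLX PVLX
open NUP1 hiding Kd
open PBEI (rowS h0T mfL cL y1 y2 Apl Ami Bch)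
open PBE (TC SeaL XS thX sg2 mass)
open PBV (wm)

attribute [local instance] NUSea.seaP

/-- coefficients of the same norm as the prefactor -/
def SNm (cf : ℕ → ℝ → ℝ → ℕ → ℂ) : Prop := ∀ j s t n, ‖cf j s t n‖ = ‖cF j s t n‖

/-- the twisted coefficient -/
def cZ (zz : ℕ → ℂ) (j : ℕ) (s t : ℝ) (n : ℕ) : ℂ := tw (zz j) (j + 1) n * cF j s t n

theorem SNm_cZ {zz : ℕ → ℂ} (h : ∀ j, ‖zz j‖ = 1) : SNm (cZ zz) := fun j _ _ n =>
  norm_tw_mul (h j) (j + 1) n _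

theorem SNm_cF : SNm cF := fun _ _ _ _ => rfl

/-- **minus channel** -/
theorem levNZ : ∃ a0 : ℝ, 0 < a0 ∧ ∀ ep e1 J : ℝ, SmallP a0 ep e1 J → ∃ C : ℝ, 1 ≤ C ∧
    ∀ K th dp : ℕ → ℝ, (∀ j, C * Kj (1 / 100) j ≤ K j) →
      (∀ j : ℕ, C * ((j : ℝ) + 1) ^ (-(141 / 200 : ℝ)) ≤ th j) →
      (∀ j, C * dj (1 / 100) e1 (189 / 100) j ≤ dp j) →
      ∀ cf : ℕ → ℝ → ℝ → ℕ → ℂ, SNm cf → WmG (wG (ZF ep) cf e1 J) (19 / 10) K th dp e1 J := by
  have hl := NUP1.Bd.l_pos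
  have hl4 : 1 / 4 < NUP1.l := by
    unfold NUP1.l
    linarith [Real.pi_gt_three]
  have hb : bb < NUP1.l := by
    unfold bb
    linarith
  have e2 : NUMF.l = NUP1.l := rfl
  obtain ⟨c0, hc0, hc⟩ := seaL_rhS (b := bb) bb_pos.le hb
  obtain ⟨a1, ha1, H1⟩ := mbdS (q := 189 / 100) (ε := 1 / 100) (by norm_num) (by norm_num)
    (by norm_num)
  obtain ⟨a2, ha2, H2⟩ := hQ_minus (ε := 1 / 100) (by norm_num) (c0 := c0)
    (fun j s hs => (hc j s hs).1)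
  refine ⟨min a1 a2, lt_min ha1 ha2, fun ep e1 J hp => ?_⟩
  have hep0 := hp.ep0
  have hep1 := hp.ep1
  obtain ⟨CQ, hCQ, hQ⟩ := H2 ep e1 J (hp.mono (min_le_right _ _))
  obtain ⟨C, hC, W⟩ := PBWM.wm_of (y₁ := y1) (y₂ := y2) (a := 19 / 10) (κ := 189 / 100)
    (κ₁ := 1 / 100) (κ₂ := 1 / 200) (b := bb) (b' := bb') (q := 189 / 100) (CQ := CQ)
    (by norm_num) (by norm_num) (by norm_num) (by norm_num) (by norm_num) (by norm_num)
    (by norm_num) (by norm_num) bb'_pos bb'_lt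
    (by unfold y1 bb; rw [e2]; linarith) (by unfold y2 bb; rw [e2]; linarith) hb (by norm_num)
    le_rfl hCQ
  have hm1 : (1 : ℝ) ≤ max 1 c0⁻¹ := le_max_left _ _
  have hCm : C ≤ C * max 1 c0⁻¹ := le_mul_of_one_le_right (by linarith) hm1
  refine ⟨C * max 1 c0⁻¹, hC.trans hCm, fun K th dp hK hth hdp cf hcf => ?_⟩
  have hM := H1 ep e1 J (hp.mono (min_le_left _ _)) (-(ep / 4)) bb' (by linarith) bb'_pos
  have hF := fib_S hep0 hep1 hp.e0 hp.e1' hp.J0 (b1 := bb') (by unfold bb'; nlinarith)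
    (by unfold bb'; linarith)
  filter_upwards [hM, hF, hQ] with j hMj hFj hQj s hs t ht
  have hs1 : |s| ≤ 1 := abs_le.2 ⟨by linarith [hs.1], hs.2⟩
  have hb25 : bb' ≤ 2 / 5 * NUP1.l := by
    unfold bb'
    linarith
  have hKj := Kj_pos (1 / 100) j
  have hdj := dj_pos (1 / 100) e1 (189 / 100) j
  exact W (hFj s hs t) le_rfl (hc j s hs1).1 (fun r O => PBOR.PO_par0 (j + 1) O)
    (fun r O u y => LPo_line _ r O u y) (PBX.ParC_par0 (j + 1)).rm (h0T_fam hb25 t).1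
    (h0T_fam hb25 t).2 (hl_fibN (hFj s hs t) rfl)
    (fun M β e hM' hβ he => (hQj s hs t ht M β e hM' hβ he).nw (norm_wN (hcf j s t)))
    hKj.le hdj.le ((hMj s hs t ht).nw (hcf j s t))
    (by unfold bb'; linarith) le_rfl (K j) (th j) (dp j)
    ((mul_le_mul_of_nonneg_right hCm hKj.le).trans (hK j))
    (by
      rw [thX_zero, ← mul_assoc]
      exact hth j)
    ((mul_le_mul_of_nonneg_right hCm hdj.le).trans (hdp j))

/-- **plus channel** -/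
theorem levPZ : ∃ a0 : ℝ, 0 < a0 ∧ ∀ ep e1 J : ℝ, SmallP a0 ep e1 J → ∃ C : ℝ, 0 ≤ C ∧
    ∀ K th dp : ℕ → ℝ, (∀ j, C * Kj (1 / 100) j ≤ K j) →
      (∀ j : ℕ, C * ((j : ℝ) + 1) ^ (-(141 / 200 : ℝ)) ≤ th j) →
      (∀ j, C * dj (1 / 100) e1 (189 / 100) j ≤ dp j) →
      ∀ cf : ℕ → ℝ → ℝ → ℕ → ℂ, SNm cf →
        WpG (wG (ZF ep) cf e1 J) (19 / 10) mfL K th dp e1 J := by
  have hl := Bd.l_pos
  have hlM : (NUMF.l : ℝ) = NUP1.l := rfl
  have hl1 : NUP1.l < 1 := by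
    unfold NUP1.l
    linarith [Real.pi_lt_d2]
  have hl2 : 1 / 4 < NUP1.l := by
    unfold NUP1.l
    linarith [Real.pi_gt_three]
  have hy1 : y1 = -(NUP1.l / 10) := rfl
  have hy2 : y2 = 9 / 20 * NUP1.l := rfl
  obtain ⟨c0, hc0, hc⟩ := seaL_rhS (b := bb) bb_pos.le (by unfold bb; linarith)
  obtain ⟨a1, ha1, H1⟩ := hQ_plus (ε := 1 / 100) (by norm_num) (c0 := c0)
    fun j s hs => (hc j s hs).1
  obtain ⟨a2, ha2, H2⟩ := mbdS (q := 189 / 100) (ε := 1 / 100) (by norm_num) (by norm_num)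
    (by norm_num)
  refine ⟨min a1 a2, lt_min ha1 ha2, fun ep e1 J hp => ?_⟩
  have hep0 := hp.ep0
  have hep1 := hp.ep1
  obtain ⟨CQ, hCQ, H3⟩ := H1 ep e1 J (hp.mono (min_le_left _ _))
  have hCP : 0 ≤ PBOR.CK (189 / 100) := PBOR.CK_nonneg (by norm_num) (by norm_num)
  obtain ⟨C1, hC1, H4⟩ := wplus (y₁ := y1) (y₂ := y2) (a := 19 / 10) (κ := 189 / 100)
    (κ₁ := 1 / 100) (κ₂ := 1 / 200) (b := bb) (b' := bb') (Y₁ := -(ep / 4)) (Y₂ := bb')
    (CQ := CQ) (CP := PBOR.CK (189 / 100)) (by norm_num) (by norm_num) (by norm_num)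
    (by norm_num) (by norm_num) (by norm_num) (by norm_num) bb'_pos bb'_lt
    (by rw [hy1]; unfold bb; linarith) (by rw [hy2]; unfold bb; linarith)
    (by unfold bb'; linarith) le_rfl hCQ hCP
  obtain ⟨B, hB, hmd⟩ := PBEI.meanDat
  obtain ⟨C, hCe⟩ : ∃ C : ℝ, C = C1 * max 1 (max 1 c0⁻¹) := ⟨_, rfl⟩
  have hC0 : 0 ≤ C := by rw [hCe]; positivity
  refine ⟨C + 1, by linarith, fun K th dp hK hth hdp cf hcf => ?_⟩
  have hb0 : ep * NUP1.l / 4 < bb' := by unfold bb'; nlinarith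
  filter_upwards [H3, H2 ep e1 J (hp.mono (min_le_right _ _)) (-(ep / 4)) bb' (by linarith)
      bb'_pos, fib_S hep0 hep1 hp.e0 hp.e1' hp.J0 hb0 (by unfold bb'; linarith)]
    with j h3 h2 h1 s hs t ht M g hg hmg
  have hs1 : |s| ≤ 1 := abs_le.2 ⟨by linarith [hs.1], hs.2⟩
  have ht1 : |t| ≤ 1 := abs_le.2 ⟨by linarith [ht.1], ht.2⟩
  have hM0 : 0 ≤ M := hg.nonneg (by rw [hy1]; linarith) (by rw [hy2]; linarith)
  have hF := h1 s hs t
  have hρ := (hc j s hs1).1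
  have hth0 : 0 ≤ thS c0 j := PBE.thX_nonneg hρ.Np
  have hKj := Kj_pos (1 / 100) j
  have hdj := dj_pos (1 / 100) e1 (189 / 100) j
  have hpw : (0 : ℝ) ≤ ((j : ℝ) + 1) ^ (-(141 / 200 : ℝ)) := by positivity
  obtain ⟨D, Q, P, h5⟩ := H4 (c := cf j s t) hF hρ (hmd t ht1)
    (PBEI.h0_TC' (by norm_num : (0 : ℝ) ≤ 19 / 10) (by norm_num) t)
    (cut := fun _ => cutJ ep j s) (fun n hn r O u y => hl_fibN hF rfl n hn r O u y)
    (fun r O u => obF_line (j + 1) r O u)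
    (fun M β hM hβ r O a b x => Pp_le_plus (PBOR.PO_par0 (j + 1) O) hβ bb_pos (by norm_num)
      (by norm_num) le_rfl hM a b x)
    (fun M β e hM' hβ he => (h3 s hs t ht M β e hM' hβ he).nw (norm_wN (hcf j s t)))
    hKj.le hdj.le ((h2 s hs t ht).nw (hcf j s t)) M g hg hmg
  refine ⟨D, Q, P, WPl.mono' h5 (by rw [hy1]; linarith) (by rw [hy2]; linarith) hM0
    hKj.le ?_ (mul_nonneg hC1 hth0) ?_ ?_⟩
  · refine le_trans ?_ (hK j)
    exact le_mul_of_one_le_left hKj.le (by linarith)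
  · refine le_trans ?_ (hth j)
    have e : thX c0 ((j + 1 : ℕ) : ℝ) (189 / 100 - 1 / 100) 0 =
        max 1 c0⁻¹ * ((j : ℝ) + 1) ^ (-(141 / 200 : ℝ)) := thX_zero c0 j
    have e3 : (C1 : ℝ) * thS c0 j ≤ C * ((j : ℝ) + 1) ^ (-(141 / 200 : ℝ)) := by
      show C1 * thX c0 ((j + 1 : ℕ) : ℝ) (189 / 100 - 1 / 100) 0 ≤ _
      rw [e, hCe, ← mul_assoc]
      refine mul_le_mul_of_nonneg_right ?_ hpw
      exact mul_le_mul_of_nonneg_left (le_max_right _ _) hC1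
    refine e3.trans ?_
    exact mul_le_mul_of_nonneg_right (by linarith) hpw
  · refine le_trans ?_ (hdp j)
    refine mul_le_mul_of_nonneg_right ?_ hdj.le
    have : C1 ≤ C := by
      rw [hCe]
      exact le_mul_of_one_le_right hC1 (le_max_left _ _)
    linarith

/-- **level two, both channels** -/
theorem levFZ : ∃ a0 : ℝ, 0 < a0 ∧ ∀ ep e1 J : ℝ, SmallP a0 ep e1 J →
    ∃ (K th dp : ℕ → ℝ) (C : ℝ), 0 ≤ C ∧
      (∀ cf : ℕ → ℝ → ℝ → ℕ → ℂ, SNm cf →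
        ∀ᶠ j : ℕ in atTop, ∀ s ∈ Icc (0 : ℝ) 1, ∀ t ∈ Icc (0 : ℝ) 1,
          PBEM.LevD y1 y2 (19 / 10) (mN (2 * (j + 1))) (wG (ZF ep) cf e1 J j s t)
            (Vp (rh0 j s) (eC e1 J j)) (Vm (eC e1 J j)) (SN (NUSea.O.par0 (j + 1)) (eC e1 J j))
            (K j) (th j) (dp j) (mfL t) PBEI.sg' wm (Apl (rowS j s) 0) (Ami (rowS j s) 0) Bch) ∧
      ∀ c : ℝ, 0 ≤ c → c ≤ 13 / 20 → ∀ j : ℕ, 1 ≤ j →
        2 * K j * th j ≤ C * (j : ℝ) ^ (-c) ∧ dp j ≤ C * (j : ℝ) ^ (-c) := by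
  obtain ⟨a1, ha1, H1⟩ := levPZ
  obtain ⟨a2, ha2, H2⟩ := levNZ
  obtain ⟨a3, ha3, H3⟩ := mbdS (q := 189 / 100) (ε := 1 / 100) (by norm_num) (by norm_num)
    (by norm_num)
  refine ⟨min a1 (min a2 a3), lt_min ha1 (lt_min ha2 ha3), fun ep e1 J hp => ?_⟩
  obtain ⟨C1, hC1, G1⟩ := H1 ep e1 J (hp.mono (min_le_left _ _))
  obtain ⟨C2, hC2, G2⟩ := H2 ep e1 J (hp.mono ((min_le_right _ _).trans (min_le_left _ _)))
  have hl := NUP1.Bd.l_pos
  have G3 := H3 ep e1 J (hp.mono ((min_le_right _ _).trans (min_le_right _ _))) (-(ep / 4))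
    (9 / 100 * NUP1.l) (by linarith [hp.ep0]) (by positivity)
  obtain ⟨A, hA⟩ : ∃ A : ℝ, A = KS + C1 + C2 := ⟨_, rfl⟩
  have hKS := one_le_KS
  have hAK : KS ≤ A := by rw [hA]; linarith
  have hA1 : C1 ≤ A := by rw [hA]; linarith
  have hA2 : C2 ≤ A := by rw [hA]; linarith [hKS]
  have hA0 : 0 ≤ A := by linarith
  have hp0 : ∀ j : ℕ, (0 : ℝ) ≤ ((j : ℝ) + 1) ^ (-(141 / 200 : ℝ)) := fun j => by positivity
  refine ⟨fun j => A * Kj (1 / 100) j, fun j => A * ((j : ℝ) + 1) ^ (-(141 / 200 : ℝ)),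
    fun j => A * dj (1 / 100) e1 (189 / 100) j, 12 * A * Real.exp 2 * A + 3 * Real.exp 2 * A,
    by positivity, fun cf hcf => ?_, fun c hc hc' j hj => ⟨?_, ?_⟩⟩
  · have k1 := G1 (fun j => A * Kj (1 / 100) j)
      (fun j => A * ((j : ℝ) + 1) ^ (-(141 / 200 : ℝ)))
      (fun j => A * dj (1 / 100) e1 (189 / 100) j)
      (fun j => mul_le_mul_of_nonneg_right hA1 (Kj_pos _ j).le)
      (fun j => mul_le_mul_of_nonneg_right hA1 (hp0 j))
      (fun j => mul_le_mul_of_nonneg_right hA1 (dj_pos _ _ _ j).le) cf hcf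
    have k2 := G2 (fun j => A * Kj (1 / 100) j)
      (fun j => A * ((j : ℝ) + 1) ^ (-(141 / 200 : ℝ)))
      (fun j => A * dj (1 / 100) e1 (189 / 100) j)
      (fun j => mul_le_mul_of_nonneg_right hA2 (Kj_pos _ j).le)
      (fun j => mul_le_mul_of_nonneg_right hA2 (hp0 j))
      (fun j => mul_le_mul_of_nonneg_right hA2 (dj_pos _ _ _ j).le) cf hcf
    have hM : ∀ᶠ j : ℕ in atTop, ∀ s ∈ Icc (0 : ℝ) 1, ∀ t ∈ Icc (0 : ℝ) 1,
        MBd (2 * (j + 1)) (fun _ => ZF ep j s t) (pS j) (eC e1 J j) (eC' e1 J j) (cf j s t)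
          (rhS j s) (-(ep / 4)) (9 / 100 * NUP1.l) (Kj (1 / 100) j) (189 / 100)
          (dj (1 / 100) e1 (189 / 100) j) := by
      filter_upwards [G3] with j h s hs t ht
      exact (h s hs t ht).nw (hcf j s t)
    have hl4 : 1 / 4 < NUP1.l := by
      unfold NUP1.l
      linarith [Real.pi_gt_three]
    exact levXG (by linarith [hp.ep1]) (by norm_num) hAK (fun j => (Kj_pos _ j).le)
      (fun j => mul_nonneg hA0 (hp0 j)) (fun j => mul_nonneg hA0 (dj_pos _ _ _ j).le)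
      (bas_fx hp (b' := 9 / 100 * NUP1.l) (by linarith) le_rfl) hM k1 k2
  · refine (sz_th (d := 141 / 200) hA0 hA0 hc (by linarith) hj).trans
      (mul_le_mul_of_nonneg_right ?_ (by positivity))
    have : 0 ≤ 3 * Real.exp 2 * A := by positivity
    linarith
  · refine (sz_dp hA0 hc ?_ hj).trans (mul_le_mul_of_nonneg_right ?_ (by positivity))
    · have := hp.e1'
      have := hp.e0
      nlinarith
    · have : 0 ≤ 12 * A * Real.exp 2 * A := by positivity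
      linarith

end WND

end
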