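import Pool.Agent.WND.CloseW
import Pool.Agent.WND.Lev

/-!
# Plan W: the identities of level two at the sector weight (helper91)

* `cW_eq : cW = cZ`;
* **`lvW`**: input 3 of `closeW`;
* `e2_of`: `(E')` of `fxz (zz j) j` from the two other inputs.
-/

set_option autoImplicit false

noncomputable section

open Complex Filter Topology Set

namespace WND

theorem cW_eq : cW = cZ := rfl

/-- **input 3 of `closeW`** -/
theorem lvW {zz : ℕ → ℂ} (h : ∀ j, ‖zz j‖ = 1) : LVW (cW zz) := by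
  obtain ⟨a0, ha0, H⟩ := levFZ
  refine ⟨a0, ha0, fun ep e1 J hp => ?_⟩
  obtain ⟨K, th, dp, C, hC, h1, h2⟩ := H ep e1 J hp
  exact ⟨K, th, dp, C, hC, h1 (cW zz) (SNm_cZ h), h2⟩

/-- **`(E')` with the sector weight**, from the first Ward identity and the legs -/
theorem e2_of {zz : ℕ → ℂ} (h : ∀ j, ‖zz j‖ = 1) (hD : HDW (PsiW zz) (cW zz) (1 / 2))
    (hZ : ZLW (PsiW zz) (cW zz) (1 / 2)) : PBV.E2 (1 / 2) fun j z x => fxz (zz j) j x z :=
  closeW (lvW h) hD hZ

end WND

end
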