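import Pool.Agent.NUT2.Tp4
import Pool.Agent.WND.Fam

/-!
# The two-point functions with winding weight: mirror image (plan W, W1)
-/

set_option autoImplicit false

namespace Pool.Agent.WND

open Pool.Agent.NUF Pool.Agent Pool.Agent.NUU
open Pool.Agent.NUT2 (Ok sites S1 S2 UD_cexp eps_exp Sc zc Ic Jc sc ec lg exp_lg ok_can nodup_can em em_inj Wp Wp_swap
  Wp_perm)
open Pool.Agent.TC (nuw nuw_neg nuw_zero nuw_inv phN Wp_hom Wp_shift)
open Pool.Agent.EXL.Fm (lam)
open Complex (I exp sin cos)

/-! ### Mirror image -/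

section mir

variable {ι : Type*} [DecidableEq ι] [Finite ι] {w ε : ℂ} {z : ι → ℂ} {K L : List (ι × ι)} {A B : List ι}
  {q g m k : ι}

omit [Finite ι] in
/-- The labels of the mirror image. -/
theorem Wp_mirror (V V' : Fnl ι) (hO : Ok K L A B q g m k) :
    Wp (nuw w⁻¹) (chS (K.map Prod.swap) (L.map Prod.swap) k) V V' m k (K.map Prod.swap ++ L.map Prod.swap) =
      Wp (nuw w) (chS K L k) V V' m k (K.map Prod.swap ++ L.map Prod.swap) := by
  have e1 : ∀ M : List (ι × ι), (M.map Prod.swap).map Prod.fst = M.map Prod.snd := fun M => by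
    rw [List.map_map]; rfl
  have hn := hO.nd
  have hk := hO.k_mem
  have hm := hO.m_mem
  unfold sites at hn
  simp only [List.nodup_append, List.nodup_cons, List.map_append, List.mem_append, List.mem_cons] at hn hm
  set d : ι → ℤ × ℤ := fun x => if x ∈ L.map Prod.fst ∨ x ∈ L.map Prod.snd then (1, 0) else
    if x ∈ K.map Prod.fst ∨ x ∈ K.map Prod.snd then (-1, 0) else 0 with hd
  rw [← nuw_inv, Wp_hom]
  rw [← Wp_shift (χ' := d)]
  · congr 1
    funext x
    have hs : ∀ M : List (ι × ι), x ∈ (M.map Prod.swap).map Prod.fst ↔ x ∈ M.map Prod.snd := fun M => by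
      rw [e1]
    show phN (chS (K.map Prod.swap) (L.map Prod.swap) k x) + d x = chS K L k x
    by_cases hx : x = k
    · have f1 : x ∉ L.map Prod.fst := by grind
      have f2 : x ∉ L.map Prod.snd := by grind
      have f3 : x ∉ K.map Prod.fst := by grind
      have f4 : x ∉ K.map Prod.snd := by grind
      have f5 : d x = 0 := by
        simp only [hd]
        rw [if_neg (by rintro (h | h); exacts [f1 h, f2 h]), if_neg (by rintro (h | h); exacts [f3 h, f4 h])]
      subst hx
      unfold chS
      rw [ce_self, ce_self, f5, add_zero, cS_0 (by rwa [hs]) (by rwa [hs]), cS_0 f1 f3]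
      show ((-0 : ℤ), (1 : ℤ)) = (0, 1)
      rw [neg_zero]
    · unfold chS
      rw [ce_ne _ hx, ce_ne _ hx]
      show ((-(cS (K.map Prod.swap) (L.map Prod.swap) x) : ℤ), (0 : ℤ)) + d x = (cS K L x, 0)
      unfold cS
      simp only [hs, hd]
      by_cases f1 : x ∈ L.map Prod.fst
      · have f2 : x ∉ L.map Prod.snd := by grind
        have f4 : x ∉ K.map Prod.snd := by grind
        simp [f1, f2, f4]
      · by_cases f2 : x ∈ L.map Prod.snd
        · have f3 : x ∉ K.map Prod.fst := by grind
          simp [f1, f2, f3]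
        · by_cases f3 : x ∈ K.map Prod.fst
          · have f4 : x ∉ K.map Prod.snd := by grind
            simp [f1, f2, f3, f4]
          · by_cases f4 : x ∈ K.map Prod.snd
            · simp [f1, f2, f3, f4]
            · simp [f1, f2, f3, f4]
  · have h0 : ∀ x, x ∉ L.map Prod.fst → x ∉ L.map Prod.snd → x ∉ K.map Prod.fst → x ∉ K.map Prod.snd →
        d x = 0 := by
      intro x f1 f2 f3 f4
      simp only [hd]
      rw [if_neg (by rintro (h | h); exacts [f1 h, f2 h]), if_neg (by rintro (h | h); exacts [f3 h, f4 h])]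
    intro t ht
    rcases List.mem_cons.1 ht with rfl | ht
    · show d m = d k
      rw [h0 m (by grind) (by grind) (by grind) (by grind), h0 k (by grind) (by grind) (by grind) (by grind)]
    · rcases List.mem_append.1 ht with ht | ht
      · obtain ⟨s, hs, rfl⟩ := List.mem_map.1 ht
        have g1 : s.1 ∈ K.map Prod.fst := List.mem_map_of_mem hs
        have g2 : s.2 ∈ K.map Prod.snd := List.mem_map_of_mem hs
        have f1 : s.1 ∉ L.map Prod.fst := by grind
        have f2 : s.1 ∉ L.map Prod.snd := by grind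
        have f3 : s.2 ∉ L.map Prod.fst := by grind
        have f4 : s.2 ∉ L.map Prod.snd := by grind
        simp only [hd, Prod.fst_swap, Prod.snd_swap]
        rw [if_neg (by rintro (h | h); exacts [f3 h, f4 h]), if_pos (Or.inr g2),
          if_neg (by rintro (h | h); exacts [f1 h, f2 h]), if_pos (Or.inl g1)]
      · obtain ⟨s, hs, rfl⟩ := List.mem_map.1 ht
        have g1 : s.1 ∈ L.map Prod.fst := List.mem_map_of_mem hs
        have g2 : s.2 ∈ L.map Prod.snd := List.mem_map_of_mem hs
        simp only [hd, Prod.fst_swap, Prod.snd_swap]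
        rw [if_pos (Or.inr g2), if_pos (Or.inl g1)]

/-- Exchange of the two discs. -/
theorem WL_swap (hO : Ok K L A B q g m k) : WL w ε z K L A B q g m k =
    WL w⁻¹ (-ε) z (K.map Prod.swap) (L.map Prod.swap) B A g q m k := by
  have e1 : ∀ M : List (ι × ι), (M.map Prod.swap).map Prod.fst = M.map Prod.snd := fun M => by
    rw [List.map_map]; rfl
  have e2 : ∀ M : List (ι × ι), (M.map Prod.swap).map Prod.snd = M.map Prod.fst := fun M => by
    rw [List.map_map]; rfl
  unfold WL
  rw [Wp_swap (nuw_neg w) (nuw_zero w) (NUT2.UD_supS _ _) (NUT2.UD_supS _ _) hO.disj, List.map_append,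
    ← Wp_mirror _ _ hO, e1, e1, e2, e2, neg_neg]

end mir

section can

variable {n m : ℕ}

/-- **Mirror image on the canonical sites.** -/
theorem WC_swap {w ε : ℂ} (hε : ε = 1 ∨ ε = -1) (K L : List ℂ) (v : Fin 6 → ℂ) {A B : List (Fin 6)}
    (hA : (0 :: 1 :: (A ++ B)).Nodup) {a k : Fin 6} (ha : a ∈ A ++ B) (hk : k = 0 ∨ k = 1) :
    WC w ε K L v A B a k = WC w⁻¹ (-ε) K L (v ∘ Equiv.swap 0 1) B A a (Equiv.swap 0 1 k) := by
  have hε' : -ε = 1 ∨ -ε = -1 := by
    rcases hε with rfl | rfl
    · exact Or.inr rfl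
    · exact Or.inl (neg_neg 1)
  have hA' : (0 :: 1 :: (B ++ A)).Nodup :=
    ((List.perm_append_comm.cons _).cons _).nodup_iff.1 hA
  have ha' : a ∈ B ++ A := by
    rw [List.mem_append] at ha ⊢
    exact ha.symm
  have hk' : Equiv.swap 0 1 k = 0 ∨ Equiv.swap 0 1 k = 1 := by
    rcases hk with rfl | rfl
    · right; rfl
    · left; rfl
  have fx : ∀ c ∈ A ++ B, Equiv.swap (0 : Fin 6) 1 c = c := by
    intro c hc
    have h0 : (0 : Fin 6) ∉ 1 :: (A ++ B) := (List.nodup_cons.1 hA).1
    have h1 : (1 : Fin 6) ∉ A ++ B := (List.nodup_cons.1 (List.nodup_cons.1 hA).2).1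
    exact Equiv.swap_apply_of_ne_of_ne (fun e => h0 (by rw [← e]; exact List.mem_cons_of_mem _ hc))
      fun e => h1 (by rw [← e]; exact hc)
  have h1 := WL_map (w := w⁻¹) (z := zc K L (v ∘ Equiv.swap 0 1)) (z' := zc K L v) em_inj hε'
    (ok_can (n := K.length) (m := L.length) hA' ha' hk') (fun x _ => by
      rcases x with x | x | x
      · rfl
      · rfl
      · rfl)
  have k1 : (Ic K.length L.length).map (Prod.map (em _ _) (em _ _)) =
      (Ic K.length L.length).map Prod.swap := by
    unfold Ic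
    rw [List.map_map, List.map_map]
    rfl
  have k2 : (Jc K.length L.length).map (Prod.map (em _ _) (em _ _)) =
      (Jc K.length L.length).map Prod.swap := by
    unfold Jc
    rw [List.map_map, List.map_map]
    rfl
  have k3 : ∀ C : List (Fin 6), (∀ c ∈ C, c ∈ A ++ B) →
      (C.map (sc (n := K.length) (m := L.length))).map (em _ _) = C.map sc := by
    intro C hC
    rw [List.map_map]
    refine List.map_congr_left fun c hc => ?_
    show Sum.inr (Sum.inr (Equiv.swap 0 1 c)) = Sum.inr (Sum.inr c)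
    rw [fx c (hC c hc)]
  have k4 : ∀ c : Fin 6, em K.length L.length (sc c) = sc (Equiv.swap 0 1 c) := fun c => rfl
  rw [k1, k2, k3 B (fun c hc => List.mem_append_right _ hc),
    k3 A (fun c hc => List.mem_append_left _ hc), k4, k4, k4, k4, fx a ha, Equiv.swap_apply_self,
    Equiv.swap_apply_left, Equiv.swap_apply_right] at h1
  unfold WC
  rw [WL_swap (ok_can hA ha hk), h1]

/-- Other names of the sites `2`, ..., `5`. -/
theorem WC_perm6 {w ε : ℂ} (hε : ε = 1 ∨ ε = -1) (K L : List ℂ) (v : Fin 6 → ℂ) {A B : List (Fin 6)}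
    (hA : (0 :: 1 :: (A ++ B)).Nodup) {a k : Fin 6} (ha : a ∈ A ++ B) (hk : k = 0 ∨ k = 1)
    (σ : Equiv.Perm (Fin 6)) (h0 : σ 0 = 0) (h1 : σ 1 = 1) :
    WC w ε K L v (A.map σ) (B.map σ) (σ a) k = WC w ε K L (v ∘ σ) A B a k := by
  have hk' : σ k = k := by
    rcases hk with rfl | rfl
    · exact h0
    · exact h1
  set e : Sc K.length L.length → Sc K.length L.length := Sum.map id (Sum.map id σ) with he
  have hinj : Function.Injective e :=
    Function.Injective.sumMap Function.injective_id
      (Function.Injective.sumMap Function.injective_id σ.injective)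
  have h2 := WL_map (w := w) (z := zc K L (v ∘ σ)) (z' := zc K L v) hinj hε
    (ok_can (n := K.length) (m := L.length) hA ha hk) (fun x _ => by
      rcases x with x | x | x
      · rfl
      · rfl
      · rfl)
  have k1 : (Ic K.length L.length).map (Prod.map e e) = Ic K.length L.length := by
    unfold Ic
    rw [List.map_map]
    rfl
  have k2 : (Jc K.length L.length).map (Prod.map e e) = Jc K.length L.length := by
    unfold Jc
    rw [List.map_map]
    rfl
  have k3 : ∀ C : List (Fin 6), (C.map (sc (n := K.length) (m := L.length))).map e =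
      (C.map σ).map sc := by
    intro C
    rw [List.map_map, List.map_map]
    rfl
  have k4 : ∀ c : Fin 6, e (sc c) = sc (σ c) := fun c => rfl
  rw [k1, k2, k3, k3, k4, k4, k4, k4, h0, h1, hk'] at h2
  unfold WC
  exact h2

/-- **The mirror family.** -/
theorem fam_mir {w ε : ℂ} (hε : ε = 1 ∨ ε = -1) (q g : ℂ) :
    (fam w ε 0 q g).mir = fam w⁻¹ (-ε) 1 g q := by
  have hε' : -ε = 1 ∨ -ε = -1 := by
    rcases hε with rfl | rfl
    · exact Or.inr rfl
    · exact Or.inl (neg_neg 1)
  have v1 : ∀ a b : ℂ, (![q, g, a, b, 1, 1] ∘ Equiv.swap 0 1 : Fin 6 → ℂ) = ![g, q, a, b, 1, 1] := by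
    intro a b
    funext j
    fin_cases j <;> rfl
  have v2 : ∀ a b : ℂ, (![g, q, a, b, 1, 1] ∘ Equiv.swap 2 3 : Fin 6 → ℂ) = ![g, q, b, a, 1, 1] := by
    intro a b
    funext j
    fin_cases j <;> rfl
  unfold fam NUTP.Fam.mir
  simp only [NUTP.Fam.mk.injEq]
  refine ⟨?_, ?_, ?_, ?_, ?_, ?_, ?_, ?_⟩
  all_goals funext K L
  · funext a
    rw [WC_swap hε K L _ (by decide) (by decide) (Or.inl rfl), v1]
    rfl
  · funext a
    rw [WC_swap hε K L _ (by decide) (by decide) (Or.inl rfl), v1]
    rfl
  · funext a b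
    rw [WC_swap hε K L _ (by decide) (by decide) (Or.inl rfl), v1]
    rfl
  · funext a b
    rw [WC_swap hε K L _ (by decide) (by decide) (Or.inl rfl), v1]
    rfl
  · funext a b
    rw [WC_swap hε K L _ (by decide) (by decide) (Or.inl rfl), v1]
    rfl
  · funext a b
    rw [WC_swap hε K L _ (by decide) (by decide) (Or.inl rfl), v1]
    rfl
  · funext a b
    have h := WC_perm6 (w := w⁻¹) hε' K L ![g, q, b, a, 1, 1] (A := [2]) (B := [3]) (a := 2) (k := 1)
      (by decide) (by decide) (Or.inr rfl) (Equiv.swap 2 3) rfl rfl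
    rw [v2] at h
    rw [WC_swap hε K L _ (by decide) (by decide) (Or.inl rfl), v1]
    exact h
  · funext a b
    have h := WC_perm6 (w := w⁻¹) hε' K L ![g, q, b, a, 1, 1] (A := [2]) (B := [3]) (a := 3) (k := 1)
      (by decide) (by decide) (Or.inr rfl) (Equiv.swap 2 3) rfl rfl
    rw [v2] at h
    rw [WC_swap hε K L _ (by decide) (by decide) (Or.inl rfl), v1]
    exact h

end can

end Pool.Agent.WND
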