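import Pool.Agent.NUT2.Tp6
import Pool.Agent.WND.Swap

/-!
# The two-point functions with winding weight: permutations of the full lines (plan W, W1)
-/

set_option autoImplicit false

namespace Pool.Agent.WND

open Pool.Agent.NUF Pool.Agent Pool.Agent.NUU
open Pool.Agent.NUTV (Gk)
open Pool.Agent.NUT2 (Ok sites S1 S2 UD_cexp eps_exp Sc zc Ic Jc sc ec lg exp_lg ok_can nodup_can em em_inj Wp Wp_swap
  Wp_perm Gk.eps okR_of okR_of' UD_supS lines_R map_Ic1 map_Jc1 perm_map_ex zc_pair Gk_can1 Gk_can2 sc_inj sc_ne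
  ex_zcs)
open Pool.Agent.TC (nuw nuw_neg nuw_zero)
open Pool.Agent.EXL.Fm (lam)
open Complex (I exp sin cos)

/-! ### Permutations -/

section perm

variable {ι : Type*} [DecidableEq ι] [Finite ι] {w ε : ℂ} {z : ι → ℂ} {K L : List (ι × ι)} {A B : List ι}
  {q g m k : ι} {χ : ι → ℤ × ℤ}

omit [Finite ι] in
theorem hhw : (cops (Γ := ℤ × ℤ) (ι := ι) (nuw w)).h + (cops (Γ := ℤ × ℤ) (ι := ι) (nuw w)).h =
    3 * lam := by
  show (3 * Real.pi / 16 : ℂ) + 3 * Real.pi / 16 = 3 * lam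
  unfold EXL.Fm.lam
  ring

/-- **Exchange of two neighbouring full lines on both discs.** -/
theorem Wp_exch (hε : ε = 1 ∨ ε = -1) {X1 X2 Y1 Y2 : List ι} {s t : ι × ι} {P P' : List (ι × ι)}
    (hP : P.Perm (s :: t :: P')) (hG : Gd ((m, k) :: P))
    (hn1 : (X1 ++ s.1 :: t.1 :: X2).Nodup) (hn2 : (Y1 ++ s.2 :: t.2 :: Y2).Nodup)
    (hd : Disjoint {x | x ∈ X1 ++ s.1 :: t.1 :: X2} {x | x ∈ Y1 ++ s.2 :: t.2 :: Y2})
    (x1 : χ s.1 = χ t.1) (x2 : χ s.2 = χ t.2) (hs : z s.2 = z s.1) (ht : z t.2 = z t.1) (h1 : Gk z (X1 ++ s.1 :: t.1 :: X2))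
    (h2 : Gk z (Y1 ++ s.2 :: t.2 :: Y2)) :
    Wp (nuw w) χ (UD (fun i => -ε * z i) (X1 ++ t.1 :: s.1 :: X2))
      (UD (fun i => ε * z i) (Y1 ++ t.2 :: s.2 :: Y2)) m k P =
    Wp (nuw w) χ (UD (fun i => -ε * z i) (X1 ++ s.1 :: t.1 :: X2))
      (UD (fun i => ε * z i) (Y1 ++ s.2 :: t.2 :: Y2)) m k P := by
  have hε' : -ε = 1 ∨ -ε = -1 := by
    rcases hε with rfl | rfl
    · exact Or.inr rfl
    · exact Or.inl (neg_neg 1)
  have d1 : ∀ x ∈ Y1 ++ s.2 :: t.2 :: Y2, x ∉ X1 ++ s.1 :: t.1 :: X2 := fun x hx hx' =>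
    Set.disjoint_left.1 hd hx' hx
  have d2 : ∀ x ∈ X1 ++ s.1 :: t.1 :: X2, x ∉ Y1 ++ s.2 :: t.2 :: Y2 := fun x hx hx' =>
    Set.disjoint_left.1 hd hx hx'
  have nst1 : s.1 ≠ t.1 := by
    intro e
    have := (List.nodup_append.1 hn1).2.1
    rw [List.nodup_cons] at this
    exact this.1 (by simp [e])
  have nst2 : s.2 ≠ t.2 := by
    intro e
    have := (List.nodup_append.1 hn2).2.1
    rw [List.nodup_cons] at this
    exact this.1 (by simp [e])
  have e1 := UD_exch (z := fun i => -ε * z i) hn1 (d1 s.2 (by simp)) (d1 t.2 (by simp)) nst2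
    (Gk.eps hε' h1).gz
  have e2 := UD_exch (z := fun i => ε * z i) hn2 (d2 s.1 (by simp)) (d2 t.1 (by simp)) nst1
    (Gk.eps hε h2).gz
  have hww : ∀ n : ℤ, sin ((-ε * z s.1 - -ε * z t.1) + n * lam) ≠ 0 := fun n =>
    Gk.eps hε' h1 s.1 (by simp) t.1 (by simp) nst1 n
  have w2 : ε * z s.2 - ε * z t.2 = -(-ε * z s.1 - -ε * z t.1) := by rw [hs, ht]; ring
  have hG' : Gd ((m, k) :: s :: t :: P') := hG.perm (hP.cons _)
  rw [← e1, ← e2, w2, Wp_perm (nuw_neg w) hG hP, Wp_perm (nuw_neg w) hG hP]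
  have a1 := okR_of hww 0
  have a2 := okR_of' hww 0
  have a3 := okR_of' hww 3
  have a4 := okR_of hww (-3)
  rw [Int.cast_zero, zero_mul, add_zero] at a1 a2
  refine lines_R (nuw_neg w) (nuw_zero w) (UD_supS _ _) (UD_supS _ _) hd hG' (by simp) (by simp) (by simp)
    (by simp) x1 x2 a1 a2 ?_ ?_
  · rw [hhw, sub_eq_neg_add]
    exact_mod_cast a3
  · rw [hhw]
    have e : (-ε * z s.1 - -ε * z t.1) - 3 * lam =
        (-ε * z s.1 - -ε * z t.1) + ((-3 : ℤ) : ℂ) * lam := by push_cast; ring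
    rw [e]
    exact a4

/-- Exchange of two neighbouring full lines of the group `L`. -/
theorem WL_exchL (hε : ε = 1 ∨ ε = -1) {L1 L2 : List (ι × ι)} {s t : ι × ι}
    (hO : Ok K (L1 ++ s :: t :: L2) A B q g m k) (hs : z s.2 = z s.1) (ht : z t.2 = z t.1)
    (h1 : Gk z (A ++ ((L1 ++ s :: t :: L2).map Prod.fst ++ q :: K.map Prod.fst)))
    (h2 : Gk z (B ++ ((L1 ++ s :: t :: L2).map Prod.snd ++ g :: K.map Prod.snd))) :
    WL w ε z K (L1 ++ t :: s :: L2) A B q g m k = WL w ε z K (L1 ++ s :: t :: L2) A B q g m k := by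
  have hp : (K ++ (L1 ++ t :: s :: L2)).Perm (K ++ (L1 ++ s :: t :: L2)) :=
    List.Perm.append_left _ (List.Perm.append_left _ (List.Perm.swap _ _ _))
  have hP : (K ++ (L1 ++ s :: t :: L2)).Perm (s :: t :: (K ++ (L1 ++ L2))) := by
    have e1 : (L1 ++ s :: t :: L2).Perm (s :: t :: (L1 ++ L2)) :=
      List.perm_middle.trans (List.perm_middle.cons _)
    have e2 : (K ++ s :: t :: (L1 ++ L2)).Perm (s :: t :: (K ++ (L1 ++ L2))) :=
      List.perm_middle.trans (List.perm_middle.cons _)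
    exact (List.Perm.append_left _ e1).trans e2
  have l1 : ∀ s t : ι × ι, A ++ ((L1 ++ s :: t :: L2).map Prod.fst ++ q :: K.map Prod.fst) =
      (A ++ L1.map Prod.fst) ++ s.1 :: t.1 :: (L2.map Prod.fst ++ q :: K.map Prod.fst) := by
    intro s t
    simp
  have l2 : ∀ s t : ι × ι, B ++ ((L1 ++ s :: t :: L2).map Prod.snd ++ g :: K.map Prod.snd) =
      (B ++ L1.map Prod.snd) ++ s.2 :: t.2 :: (L2.map Prod.snd ++ g :: K.map Prod.snd) := by
    intro s t
    simp
  have n1 := hO.nd1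
  have n2 := hO.nd2
  have hd := hO.disj
  unfold S1 S2 at hd
  have hO' : Ok K (L1 ++ t :: s :: L2) A B q g m k := hO.perm hp.symm
  unfold WL
  rw [Wp_perm (nuw_neg w) hO'.gd hp, l1, l2, l1, l2]
  rw [l1] at n1 h1
  rw [l2] at n2 h2
  rw [l1, l2] at hd
  rw [chS_congr (K := K) (K' := K) (L := L1 ++ t :: s :: L2) (L' := L1 ++ s :: t :: L2) (fun _ => Iff.rfl)
    (fun x => (List.Perm.append_left L1 (List.Perm.swap s t L2)).mem_iff) k]
  exact Wp_exch hε hP hO.gd n1 n2 hd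
    (by rw [chS_fstL hO (by simp), chS_fstL hO (by simp)])
    (by rw [chS_snd hO (by simp), chS_snd hO (by simp)]) hs ht h1 h2

/-- Exchange of two neighbouring full lines of the group `K`. -/
theorem WL_exchK (hε : ε = 1 ∨ ε = -1) {L1 L2 : List (ι × ι)} {s t : ι × ι}
    (hO : Ok (L1 ++ s :: t :: L2) L A B q g m k) (hs : z s.2 = z s.1) (ht : z t.2 = z t.1)
    (h1 : Gk z (A ++ (L.map Prod.fst ++ q :: (L1 ++ s :: t :: L2).map Prod.fst)))
    (h2 : Gk z (B ++ (L.map Prod.snd ++ g :: (L1 ++ s :: t :: L2).map Prod.snd))) :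
    WL w ε z (L1 ++ t :: s :: L2) L A B q g m k = WL w ε z (L1 ++ s :: t :: L2) L A B q g m k := by
  have hp : ((L1 ++ t :: s :: L2) ++ L).Perm ((L1 ++ s :: t :: L2) ++ L) :=
    List.Perm.append_right _ (List.Perm.append_left _ (List.Perm.swap _ _ _))
  have hP : ((L1 ++ s :: t :: L2) ++ L).Perm (s :: t :: (L1 ++ L2 ++ L)) := by
    have e1 : (L1 ++ s :: t :: L2).Perm (s :: t :: (L1 ++ L2)) :=
      List.perm_middle.trans (List.perm_middle.cons _)
    exact List.Perm.append_right L e1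
  have l1 : ∀ s t : ι × ι, A ++ (L.map Prod.fst ++ q :: (L1 ++ s :: t :: L2).map Prod.fst) =
      (A ++ (L.map Prod.fst ++ q :: L1.map Prod.fst)) ++ s.1 :: t.1 :: L2.map Prod.fst := by
    intro s t
    simp
  have l2 : ∀ s t : ι × ι, B ++ (L.map Prod.snd ++ g :: (L1 ++ s :: t :: L2).map Prod.snd) =
      (B ++ (L.map Prod.snd ++ g :: L1.map Prod.snd)) ++ s.2 :: t.2 :: L2.map Prod.snd := by
    intro s t
    simp
  have n1 := hO.nd1
  have n2 := hO.nd2
  have hd := hO.disj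
  unfold S1 S2 at hd
  have hO' : Ok (L1 ++ t :: s :: L2) L A B q g m k := hO.perm hp.symm
  unfold WL
  rw [Wp_perm (nuw_neg w) hO'.gd hp, l1, l2, l1, l2]
  rw [l1] at n1 h1
  rw [l2] at n2 h2
  rw [l1, l2] at hd
  rw [chS_congr (K := L1 ++ t :: s :: L2) (K' := L1 ++ s :: t :: L2) (L := L) (L' := L)
    (fun x => (List.Perm.append_left L1 (List.Perm.swap s t L2)).mem_iff) (fun _ => Iff.rfl) k]
  exact Wp_exch hε hP hO.gd n1 n2 hd
    (by rw [chS_fstK hO (by simp), chS_fstK hO (by simp)])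
    (by rw [chS_snd hO (by simp), chS_snd hO (by simp)]) hs ht h1 h2

/-- **Permutation of the full lines of the group `L`.** -/
theorem WL_permL (hε : ε = 1 ∨ ε = -1) {L' : List (ι × ι)} (hp : L.Perm L')
    (hO : Ok K L A B q g m k) (hz : ∀ t ∈ K ++ L, z t.2 = z t.1)
    (h1 : Gk z (A ++ (L.map Prod.fst ++ q :: K.map Prod.fst)))
    (h2 : Gk z (B ++ (L.map Prod.snd ++ g :: K.map Prod.snd))) :
    WL w ε z K L A B q g m k = WL w ε z K L' A B q g m k := by
  have key : ∀ {X Y : List (ι × ι)}, X.Perm Y → ∀ L1 : List (ι × ι), Ok K (L1 ++ X) A B q g m k →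
      (∀ t ∈ K ++ (L1 ++ X), z t.2 = z t.1) →
      Gk z (A ++ ((L1 ++ X).map Prod.fst ++ q :: K.map Prod.fst)) →
      Gk z (B ++ ((L1 ++ X).map Prod.snd ++ g :: K.map Prod.snd)) →
      WL w ε z K (L1 ++ X) A B q g m k = WL w ε z K (L1 ++ Y) A B q g m k := by
    intro X Y hp
    induction hp with
    | nil => intro L1 _ _ _ _; rfl
    | cons x _ ih =>
      intro L1 a1 a2 a3 a4
      have e : ∀ M : List (ι × ι), L1 ++ x :: M = (L1 ++ [x]) ++ M := fun M => by simp
      rw [e] at a1 a2 a3 a4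
      have h := ih (L1 ++ [x]) a1 a2 a3 a4
      rw [← e, ← e] at h
      exact h
    | swap s t M =>
      intro L1 a1 a2 a3 a4
      exact (WL_exchL hε a1 (a2 t (by simp)) (a2 s (by simp)) a3 a4).symm
    | trans h1 h2 ih1 ih2 =>
      intro L1 a1 a2 a3 a4
      have hmem : ∀ t : ι × ι, t ∈ L1 ++ _ ↔ t ∈ L1 ++ _ := fun t =>
        (List.Perm.append_left L1 h1).mem_iff (a := t)
      rw [ih1 L1 a1 a2 a3 a4]
      refine ih2 L1 (a1.perm (List.Perm.append_left _ (List.Perm.append_left _ h1))) ?_ ?_ ?_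
      · intro t ht
        refine a2 t ?_
        rw [List.mem_append, hmem t, ← List.mem_append]
        exact ht
      · refine a3.sub fun x hx => ?_
        simp only [List.mem_append, List.mem_map, List.mem_cons] at hx ⊢
        rcases hx with hx | ⟨t, ht | ht, rfl⟩ | hx
        · exact Or.inl hx
        · exact Or.inr (Or.inl ⟨t, Or.inl ht, rfl⟩)
        · exact Or.inr (Or.inl ⟨t, Or.inr (h1.mem_iff.2 ht), rfl⟩)
        · exact Or.inr (Or.inr hx)
      · refine a4.sub fun x hx => ?_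
        simp only [List.mem_append, List.mem_map, List.mem_cons] at hx ⊢
        rcases hx with hx | ⟨t, ht | ht, rfl⟩ | hx
        · exact Or.inl hx
        · exact Or.inr (Or.inl ⟨t, Or.inl ht, rfl⟩)
        · exact Or.inr (Or.inl ⟨t, Or.inr (h1.mem_iff.2 ht), rfl⟩)
        · exact Or.inr (Or.inr hx)
  exact key hp [] hO hz h1 h2

/-- **Permutation of the full lines of the group `K`.** -/
theorem WL_permK (hε : ε = 1 ∨ ε = -1) {K' : List (ι × ι)} (hp : K.Perm K')
    (hO : Ok K L A B q g m k) (hz : ∀ t ∈ K ++ L, z t.2 = z t.1)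
    (h1 : Gk z (A ++ (L.map Prod.fst ++ q :: K.map Prod.fst)))
    (h2 : Gk z (B ++ (L.map Prod.snd ++ g :: K.map Prod.snd))) :
    WL w ε z K L A B q g m k = WL w ε z K' L A B q g m k := by
  have key : ∀ {X Y : List (ι × ι)}, X.Perm Y → ∀ L1 : List (ι × ι), Ok (L1 ++ X) L A B q g m k →
      (∀ t ∈ (L1 ++ X) ++ L, z t.2 = z t.1) →
      Gk z (A ++ (L.map Prod.fst ++ q :: (L1 ++ X).map Prod.fst)) →
      Gk z (B ++ (L.map Prod.snd ++ g :: (L1 ++ X).map Prod.snd)) →
      WL w ε z (L1 ++ X) L A B q g m k = WL w ε z (L1 ++ Y) L A B q g m k := by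
    intro X Y hp
    induction hp with
    | nil => intro L1 _ _ _ _; rfl
    | cons x _ ih =>
      intro L1 a1 a2 a3 a4
      have e : ∀ M : List (ι × ι), L1 ++ x :: M = (L1 ++ [x]) ++ M := fun M => by simp
      rw [e] at a1 a2 a3 a4
      have h := ih (L1 ++ [x]) a1 a2 a3 a4
      rw [← e, ← e] at h
      exact h
    | swap s t M =>
      intro L1 a1 a2 a3 a4
      exact (WL_exchK hε a1 (a2 t (by simp)) (a2 s (by simp)) a3 a4).symm
    | trans h1 h2 ih1 ih2 =>
      intro L1 a1 a2 a3 a4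
      rw [ih1 L1 a1 a2 a3 a4]
      refine ih2 L1 (a1.perm (List.Perm.append_right _ (List.Perm.append_left _ h1))) ?_ ?_ ?_
      · intro t ht
        refine a2 t ?_
        simp only [List.mem_append] at ht ⊢
        rcases ht with (ht | ht) | ht
        · exact Or.inl (Or.inl ht)
        · exact Or.inl (Or.inr (h1.mem_iff.2 ht))
        · exact Or.inr ht
      · refine a3.sub fun x hx => ?_
        simp only [List.mem_append, List.mem_map, List.mem_cons] at hx ⊢
        rcases hx with hx | hx | rfl | ⟨t, ht | ht, rfl⟩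
        · exact Or.inl hx
        · exact Or.inr (Or.inl hx)
        · exact Or.inr (Or.inr (Or.inl rfl))
        · exact Or.inr (Or.inr (Or.inr ⟨t, Or.inl ht, rfl⟩))
        · exact Or.inr (Or.inr (Or.inr ⟨t, Or.inr (h1.mem_iff.2 ht), rfl⟩))
      · refine a4.sub fun x hx => ?_
        simp only [List.mem_append, List.mem_map, List.mem_cons] at hx ⊢
        rcases hx with hx | hx | rfl | ⟨t, ht | ht, rfl⟩
        · exact Or.inl hx
        · exact Or.inr (Or.inl hx)
        · exact Or.inr (Or.inr (Or.inl rfl))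
        · exact Or.inr (Or.inr (Or.inr ⟨t, Or.inl ht, rfl⟩))
        · exact Or.inr (Or.inr (Or.inr ⟨t, Or.inr (h1.mem_iff.2 ht), rfl⟩))
  exact key hp [] hO hz h1 h2

end perm


section val

variable {w ε : ℂ} {K L : List ℂ} {v : Fin 6 → ℂ}

/-- **Permutation of the lines of the group `K`.** -/
theorem WC_permK (hε : ε = 1 ∨ ε = -1) {K' : List ℂ} (hp : K.Perm K') {A B : List (Fin 6)}
    (hA : (0 :: 1 :: (A ++ B)).Nodup) {m k : Fin 6} (hm : m ∈ A ++ B) (hk : k = 0 ∨ k = 1)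
    (h1 : NUTP.G NUTP.th (A.map v ++ (L ++ v 0 :: K)))
    (h2 : NUTP.G NUTP.th (B.map v ++ (L ++ v 1 :: K))) :
    WC w ε K L v A B m k = WC w ε K' L v A B m k := by
  have hK : ∀ a ∈ K, a ≠ 0 := fun a ha => h1.mem_ne0 (by simp [ha])
  have hL : ∀ a ∈ L, a ≠ 0 := fun a ha => h1.mem_ne0 (by simp [ha])
  have e1 : (Ic K.length L.length).map (fun t => exp (I * zc K L v t.1)) = K := by
    have := map_Ic1 (L := L) (v := v) hK
    rwa [List.map_map] at this
  have e2 : (Jc K.length L.length).map (fun t => exp (I * zc K L v t.1)) = L := by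
    have := map_Jc1 (K := K) (v := v) hL
    rwa [List.map_map] at this
  obtain ⟨X, hX, hX'⟩ := perm_map_ex _ hp _ e1
  have hO := ok_can (n := K.length) (m := L.length) hA hm hk
  have hA1 : (0 :: 1 :: A).Nodup := hA.sublist (by simp)
  have hB1 : (0 :: 1 :: B).Nodup := hA.sublist (by simp)
  have key := WL_permK (w := w) hε hX hO (zc_pair K L v) (Gk_can1 hA1 h1) (Gk_can2 hB1 h2)
  have hp2 : (Ic K.length L.length ++ Jc K.length L.length).Perm (X ++ Jc K.length L.length) :=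
    List.Perm.append_right _ hX
  have hO2 := hO.perm hp2
  unfold WC
  rw [key]
  refine WL_eq_WC hε sc_inj (Gd_cons.1 hO2.gd).2.2 (fun j t ht => sc_ne j t ((hp2.mem_iff).2 ht)) hA hm
    hk (fun t ht => by rw [zc_pair K L v t ((hp2.mem_iff).2 ht)]) (fun j hj => ex_zcs ?_) hX' e2
  rcases List.mem_cons.1 hj with rfl | hj
  · exact h1.mem_ne0 (by simp)
  rcases List.mem_cons.1 hj with rfl | hj
  · exact h2.mem_ne0 (by simp)
  rcases List.mem_append.1 hj with hj | hj
  · exact h1.mem_ne0 (List.mem_append_left _ (List.mem_map_of_mem hj))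
  · exact h2.mem_ne0 (List.mem_append_left _ (List.mem_map_of_mem hj))

/-- **Permutation of the lines of the group `L`.** -/
theorem WC_permL (hε : ε = 1 ∨ ε = -1) {L' : List ℂ} (hp : L.Perm L') {A B : List (Fin 6)}
    (hA : (0 :: 1 :: (A ++ B)).Nodup) {m k : Fin 6} (hm : m ∈ A ++ B) (hk : k = 0 ∨ k = 1)
    (h1 : NUTP.G NUTP.th (A.map v ++ (L ++ v 0 :: K)))
    (h2 : NUTP.G NUTP.th (B.map v ++ (L ++ v 1 :: K))) :
    WC w ε K L v A B m k = WC w ε K L' v A B m k := by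
  have hK : ∀ a ∈ K, a ≠ 0 := fun a ha => h1.mem_ne0 (by simp [ha])
  have hL : ∀ a ∈ L, a ≠ 0 := fun a ha => h1.mem_ne0 (by simp [ha])
  have e1 : (Ic K.length L.length).map (fun t => exp (I * zc K L v t.1)) = K := by
    have := map_Ic1 (L := L) (v := v) hK
    rwa [List.map_map] at this
  have e2 : (Jc K.length L.length).map (fun t => exp (I * zc K L v t.1)) = L := by
    have := map_Jc1 (K := K) (v := v) hL
    rwa [List.map_map] at this
  obtain ⟨X, hX, hX'⟩ := perm_map_ex _ hp _ e2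
  have hO := ok_can (n := K.length) (m := L.length) hA hm hk
  have hA1 : (0 :: 1 :: A).Nodup := hA.sublist (by simp)
  have hB1 : (0 :: 1 :: B).Nodup := hA.sublist (by simp)
  have key := WL_permL (w := w) hε hX hO (zc_pair K L v) (Gk_can1 hA1 h1) (Gk_can2 hB1 h2)
  have hp2 : (Ic K.length L.length ++ Jc K.length L.length).Perm (Ic K.length L.length ++ X) :=
    List.Perm.append_left _ hX
  have hO2 := hO.perm hp2
  unfold WC
  rw [key]
  refine WL_eq_WC hε sc_inj (Gd_cons.1 hO2.gd).2.2 (fun j t ht => sc_ne j t ((hp2.mem_iff).2 ht)) hA hm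
    hk (fun t ht => by rw [zc_pair K L v t ((hp2.mem_iff).2 ht)]) (fun j hj => ex_zcs ?_) e1 hX'
  rcases List.mem_cons.1 hj with rfl | hj
  · exact h1.mem_ne0 (by simp)
  rcases List.mem_cons.1 hj with rfl | hj
  · exact h2.mem_ne0 (by simp)
  rcases List.mem_append.1 hj with hj | hj
  · exact h1.mem_ne0 (List.mem_append_left _ (List.mem_map_of_mem hj))
  · exact h2.mem_ne0 (List.mem_append_left _ (List.mem_map_of_mem hj))

end val



end Pool.Agent.WND
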