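import Pool.Agent.NUTV.F_ex
import Pool.Agent.WND.Perm

/-!
# Plan W, W1: exchange of the two ends (fields `ex1`, `ex2`), family with a winding weight (helper39)

Copy of `NUTV/F_ex` (helper70) with the weight `nuw w` and the labels `chS K L k`.
-/

set_option autoImplicit false

namespace Pool.Agent.WND

open Pool.Agent.NUF Pool.Agent Pool.Agent.NUU Pool.Agent.NUT2
open Pool.Agent.NUTV (Sg te gz_eps ok_facts ends_wt ea_lg spare_can G_facts Gk)
open Pool.Agent.EXL.Fm (lam)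
open Pool.Agent.TC (nuw nuw_neg nuw_zero)
open Complex (I exp sin cos)

section WL

variable {ι : Type*} [DecidableEq ι] [Finite ι] {w ε : ℂ} {z : ι → ℂ} {K L : List (ι × ι)}
  {B : List ι} {a b q g k m c d : ι}

/-- **Exchange of the two ends**, the line `b` is occupied. -/
theorem WL_ends (hO : Ok K L [a, b] B q g b k) (hε : Sg ε)
    (hc : c ∉ a :: b :: (L.map Prod.fst ++ q :: K.map Prod.fst))
    (hd : d ∉ a :: b :: (L.map Prod.fst ++ q :: K.map Prod.fst)) (hcd : c ≠ d)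
    (hG : Gz z (a :: b :: (L.map Prod.fst ++ q :: K.map Prod.fst))) :
    WL w ε z K L [b, a] B q g b k =
      (EXL.rwt (ε * (z b - z a))).v * WL w ε z K L [a, b] B q g b k +
        (EXL.rwt (ε * (z b - z a))).u1 * WL w ε z K L [a, b] B q g a k := by
  obtain ⟨hab, hk, h1, h2⟩ := ok_facts hO
  have hG' := gz_eps hε hG
  have e := UD_exch (A := []) (B := L.map Prod.fst ++ q :: K.map Prod.fst) (j := a) (k := b) hO.nd1
    hc hd hcd hG'
  have key := ends_R (nuw_neg w) (nuw_zero w) (χ := chS K L k)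
    (V := UD (fun i => -ε * z i) ([a, b] ++ (L.map Prod.fst ++ q :: K.map Prod.fst)))
    (V' := UD (fun i => ε * z i) (B ++ (L.map Prod.snd ++ g :: K.map Prod.snd)))
    (UD_supS _ _) (UD_supS _ _) hO.disj hO.gd hab hk.1 h1 (by simp) (by simp)
    ((chS_end hO (by simp)).trans (chS_end hO (by simp)).symm) (-ε * z a - -ε * z b)
  unfold WL
  have e' : UD (fun i => -ε * z i) ([a, b] ++ (L.map Prod.fst ++ q :: K.map Prod.fst)) ∘ₗ
      uops.R a b (-ε * z a - -ε * z b) =
        UD (fun i => -ε * z i) ([b, a] ++ (L.map Prod.fst ++ q :: K.map Prod.fst)) := e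
  rw [← e', key, show -ε * z a - -ε * z b = ε * (z b - z a) by ring]

/-- **Exchange of the two ends**, the line `a` is occupied. -/
theorem WL_ends' (hO : Ok K L [a, b] B q g a k) (hε : Sg ε)
    (hc : c ∉ a :: b :: (L.map Prod.fst ++ q :: K.map Prod.fst))
    (hd : d ∉ a :: b :: (L.map Prod.fst ++ q :: K.map Prod.fst)) (hcd : c ≠ d)
    (hG : Gz z (a :: b :: (L.map Prod.fst ++ q :: K.map Prod.fst))) :
    WL w ε z K L [b, a] B q g a k =
      (EXL.rwt (ε * (z b - z a))).v * WL w ε z K L [a, b] B q g a k +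
        (EXL.rwt (ε * (z b - z a))).u1 * WL w ε z K L [a, b] B q g b k := by
  obtain ⟨hab, hk, h1, h2⟩ := ok_facts hO
  have hG' := gz_eps hε hG
  have e := UD_exch (A := []) (B := L.map Prod.fst ++ q :: K.map Prod.fst) (j := a) (k := b) hO.nd1
    hc hd hcd hG'
  have key := ends_R (nuw_neg w) (nuw_zero w) (χ := chS K L k)
    (V := UD (fun i => -ε * z i) ([a, b] ++ (L.map Prod.fst ++ q :: K.map Prod.fst)))
    (V' := UD (fun i => ε * z i) (B ++ (L.map Prod.snd ++ g :: K.map Prod.snd)))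
    (UD_supS _ _) (UD_supS _ _) hO.disj hO.gd hab.symm hk.2 h2 (by simp) (by simp)
    ((chS_end hO (by simp)).trans (chS_end hO (by simp)).symm) (-ε * z a - -ε * z b)
  unfold WL
  have e' : UD (fun i => -ε * z i) ([a, b] ++ (L.map Prod.fst ++ q :: K.map Prod.fst)) ∘ₗ
      uops.R b a (-ε * z a - -ε * z b) =
        UD (fun i => -ε * z i) ([b, a] ++ (L.map Prod.fst ++ q :: K.map Prod.fst)) := by
    rw [(ulaws (ι := ι)).Rs (i := b)]
    exact e
  rw [← e', key, show -ε * z a - -ε * z b = ε * (z b - z a) by ring]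

end WL

section can

variable {w ε : ℂ} {k : Fin 6} {K L : List ℂ} {q g a b : ℂ}

/-- the two exchange relations before the translation of the weights -/
theorem WC_ends (hε : Sg ε) (hk : k = 0 ∨ k = 1) {v : Fin 6 → ℂ} (hv : ∀ j, v j ≠ 0)
    (hG : NUTP.G NUTP.th (v 2 :: v 3 :: (L ++ v 0 :: K))) :
    (NUTP.sk (te ε) (v 3 / v 2) * WC w ε K L (v ∘ Equiv.swap 2 3) [2, 3] [] 2 k =
      NUTP.sn (te ε) 3 (v 2 / v 3) * (NUTP.sn (te ε) 2 1 * WC w ε K L v [2, 3] [] 2 k +
        NUTP.sn (te ε) 0 (v 3 / v 2) * WC w ε K L v [2, 3] [] 3 k)) ∧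
    (NUTP.sk (te ε) (v 3 / v 2) * WC w ε K L (v ∘ Equiv.swap 2 3) [2, 3] [] 3 k =
      NUTP.sn (te ε) 3 (v 2 / v 3) * (NUTP.sn (te ε) 2 1 * WC w ε K L v [2, 3] [] 3 k +
        NUTP.sn (te ε) 0 (v 3 / v 2) * WC w ε K L v [2, 3] [] 2 k)) := by
  have hgk : Gk (zc K L v) (sc 2 :: sc 3 :: ((Jc K.length L.length).map Prod.fst ++ sc 0 ::
      (Ic K.length L.length).map Prod.fst)) :=
    Gk_can1 (A := [2, 3]) (by decide) hG
  have hD : EXL.Fm.Dn (ε * (lg (v 3) - lg (v 2))) ≠ 0 := by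
    have := gz_eps hε.neg hgk.gz
    have h1 := this.d (sc 3) (by simp) (sc 2) (by simp) (by simp [sc])
    rwa [neg_neg, ← mul_sub] at h1
  have p1 := WC_perm6 (w := w) hε K L v (A := [2, 3]) (B := []) (by decide) (a := 2) (k := k) (by simp) hk
    (Equiv.swap 2 3) (by decide) (by decide)
  have p2 := WC_perm6 (w := w) hε K L v (A := [2, 3]) (B := []) (by decide) (a := 3) (k := k) (by simp) hk
    (Equiv.swap 2 3) (by decide) (by decide)
  rw [← p1, ← p2]
  have wt := ends_wt hε (lg (v 2)) (lg (v 3)) hD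
  rw [ea_lg (hv 2), ea_lg (hv 3)] at wt
  constructor
  · have e := WL_ends (w := w) (z := zc K L v) (ok_can (n := K.length) (m := L.length) (A := [2, 3]) (B := [])
      (by decide) (a := 3) (by simp) hk) hε (spare_can (Or.inl rfl)) (spare_can (Or.inr rfl))
      (by simp [sc]) hgk.gz
    have e' : WC w ε K L v [3, 2] [] 3 k =
        (EXL.rwt (ε * (lg (v 3) - lg (v 2)))).v * WC w ε K L v [2, 3] [] 3 k +
          (EXL.rwt (ε * (lg (v 3) - lg (v 2)))).u1 * WC w ε K L v [2, 3] [] 2 k := e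
    have e0 : ([2, 3] : List (Fin 6)).map (Equiv.swap 2 3) = [3, 2] := by decide
    have e1 : (Equiv.swap 2 3 : Equiv.Perm (Fin 6)) 2 = 3 := by decide
    rw [e0, e1, List.map_nil, e']
    exact wt _ _
  · have e := WL_ends' (w := w) (z := zc K L v) (ok_can (n := K.length) (m := L.length) (A := [2, 3]) (B := [])
      (by decide) (a := 2) (by simp) hk) hε (spare_can (Or.inl rfl)) (spare_can (Or.inr rfl))
      (by simp [sc]) hgk.gz
    have e' : WC w ε K L v [3, 2] [] 2 k =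
        (EXL.rwt (ε * (lg (v 3) - lg (v 2)))).v * WC w ε K L v [2, 3] [] 2 k +
          (EXL.rwt (ε * (lg (v 3) - lg (v 2)))).u1 * WC w ε K L v [2, 3] [] 3 k := e
    have e0 : ([2, 3] : List (Fin 6)).map (Equiv.swap 2 3) = [3, 2] := by decide
    have e1 : (Equiv.swap 2 3 : Equiv.Perm (Fin 6)) 3 = 2 := by decide
    rw [e0, e1, List.map_nil, e']
    exact wt _ _

/-- **Field `ex1`.** -/
theorem fam_ex1 (hε : Sg ε) (hk : k = 0 ∨ k = 1)
    (hG : NUTP.G (te ε) (a :: b :: q :: g :: (K ++ L))) :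
    NUTP.sk (te ε) (b / a) * (fam w ε k q g).OE K L b a =
      NUTP.sn (te ε) 3 (a / b) * (NUTP.sn (te ε) 2 1 * (fam w ε k q g).OE K L a b +
        NUTP.sn (te ε) 0 (b / a) * (fam w ε k q g).EO K L a b) := by
  obtain ⟨hv, hG'⟩ := G_facts hε hG
  have h := (WC_ends (w := w) hε hk hv hG').1
  have e : (![q, g, a, b, 1, 1] : Fin 6 → ℂ) ∘ Equiv.swap 2 3 = ![q, g, b, a, 1, 1] := by
    funext j
    fin_cases j <;> rfl
  rw [e] at h
  exact h

/-- **Field `ex2`.** -/
theorem fam_ex2 (hε : Sg ε) (hk : k = 0 ∨ k = 1)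
    (hG : NUTP.G (te ε) (a :: b :: q :: g :: (K ++ L))) :
    NUTP.sk (te ε) (b / a) * (fam w ε k q g).EO K L b a =
      NUTP.sn (te ε) 3 (a / b) * (NUTP.sn (te ε) 2 1 * (fam w ε k q g).EO K L a b +
        NUTP.sn (te ε) 0 (b / a) * (fam w ε k q g).OE K L a b) := by
  obtain ⟨hv, hG'⟩ := G_facts hε hG
  have h := (WC_ends (w := w) hε hk hv hG').2
  have e : (![q, g, a, b, 1, 1] : Fin 6 → ℂ) ∘ Equiv.swap 2 3 = ![q, g, b, a, 1, 1] := by
    funext j
    fin_cases j <;> rfl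
  rw [e] at h
  exact h

end can

end Pool.Agent.WND
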