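import Pool.Agent.NUTV.F_polEO
import Pool.Agent.WND.Perm

/-!
# The field `polEO` of the lattice with the winding weight (plan W, W1a)

Two ended lines on the side `ε`: the empty line `p` below the occupied line `r`; the function of the empty line.
-/

set_option autoImplicit false

namespace Pool.Agent.WND.PEO

open _root_.Pool.Agent.EXL _root_.Pool.Agent.EXL.Pat Filter Topology Polynomial
open _root_.Pool.Agent.EXL.Fm (lam)
open _root_.Pool.Agent.NUF _root_.Pool.Agent.NUU _root_.Pool.Agent.NUT2 _root_.Pool.Agent.NUTV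
open _root_.Pool.Agent.TC (nuw nuw_neg nuw_zero)
open _root_.Pool.Agent.NUTV.PEO (EO_mem EO_len EO_V' sc_notin side1_sub EL_can1 G1 G2 perm_bq zc_3)
open Complex (I exp sin cos)

section gen

variable {ι : Type*} [DecidableEq ι] [Finite ι] {w ε : ℂ} {z : ι → ℂ} {K L : List (ι × ι)}
  {p r q g k b c x x' : ι}

/-- **The pairing as a function of the empty line.** -/
theorem EO_line (hε : Sg ε) (hO : Ok K L [p, r] [] q g r k)
    (hb : b ∉ p :: r :: (L.map Prod.fst ++ q :: K.map Prod.fst))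
    (hc : c ∉ p :: r :: (L.map Prod.fst ++ q :: K.map Prod.fst)) (hbc : b ≠ c)
    (hG : Gz z (r :: (L.map Prod.fst ++ q :: K.map Prod.fst))) :
    ∃ P : ℂ[X], P.natDegree ≤ K.length + L.length + 2 ∧
      P.coeff (K.length + L.length + 2) =
        (∏ k ∈ (r :: (L.map Prod.fst ++ q :: K.map Prod.fst)).toFinset, (2 * exp (I * z k))⁻¹) *
          WL w ε z K L [r] [] q g r k ∧
      P.coeff 0 =
        (∏ k ∈ (r :: (L.map Prod.fst ++ q :: K.map Prod.fst)).toFinset, exp (I * z k) / 2) *
          WL w ε z K L [r] [] q g r k ∧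
      ∀ s, exp (I * s) ^ (K.length + L.length + 2) *
        WL w ε (Function.update z p s) K L [p, r] [] q g r k = P.eval (exp (I * s) ^ 2) := by
  obtain ⟨m1, m2, m3, m4, m5, m6, m7⟩ := EO_mem hO
  obtain ⟨P, h1, h2, h3, h4⟩ := line_E (ν := nuw w) (χ := chS K L k) (L := K ++ L)
    (X := r :: (L.map Prod.fst ++ q :: K.map Prod.fst))
    (V' := UD (fun i => ε * z i) ([] ++ (L.map Prod.snd ++ g :: K.map Prod.snd))) hε hO.nd1 hb hc
    hbc hG (nuw_zero w) (UD_supS _ _) hO.disj m1 m2 m4
  rw [EO_len] at h1 h2 h4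
  refine ⟨P, h1, h2, h3, fun s => ?_⟩
  rw [← h4 s]
  unfold WL
  rw [EO_V' hO]
  rfl

/-- **The upper node**: the occupied end. -/
theorem EO_zero (hε : Sg ε) (hO : Ok K L [p, r] [] q g r k)
    (hb : b ∉ p :: r :: (L.map Prod.fst ++ q :: K.map Prod.fst))
    (hc : c ∉ p :: r :: (L.map Prod.fst ++ q :: K.map Prod.fst)) (hbc : b ≠ c)
    (hG : Gz z (r :: (L.map Prod.fst ++ q :: K.map Prod.fst))) :
    WL w ε (Function.update z p (z r + 3 * ε * lam)) K L [p, r] [] q g r k = 0 := by
  obtain ⟨m1, m2, m3, m4, m5, m6, m7⟩ := EO_mem hO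
  simp only [List.mem_cons, not_or] at hb hc
  unfold WL
  rw [EO_V' hO]
  have h := line_up (ν := nuw w) (χ := chS K L k) (L := K ++ L) (m := r) (q := k)
    (Y := L.map Prod.fst ++ q :: K.map Prod.fst)
    (V' := UD (fun i => ε * z i) ([] ++ (L.map Prod.snd ++ g :: K.map Prod.snd))) hε hO.nd1
    hb.2.2 hc.2.2 hbc hG
  refine h.trans ?_
  unfold SD
  rw [node_z (nuw_neg w) (nuw_zero w) (UD_supS _ _) (UD_supS _ _) ?_ m1 m2 m4 m6 m7, mul_zero]
  refine hO.disj.mono_left fun i hi => ?_
  exact List.mem_cons_of_mem _ (List.mem_cons_of_mem _ hi)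

/-- **The fusion point.** -/
theorem EO_fuse (hε : Sg ε) (hO : Ok K L [p, r] [] q g r k)
    (hb : b ∉ p :: r :: (L.map Prod.fst ++ q :: K.map Prod.fst))
    (hc : c ∉ p :: r :: (L.map Prod.fst ++ q :: K.map Prod.fst)) (hbc : b ≠ c)
    (hG : Gk z (r :: (L.map Prod.fst ++ q :: K.map Prod.fst))) :
    WL w ε (Function.update z p (z r + 2 * ε * lam)) K L [p, r] [] q g r k =
      Fr.s2 * (∏ k ∈ (L.map Prod.fst ++ q :: K.map Prod.fst).toFinset,
        cos (z r + ε * lam - z k)) * (xh *
        WL w ε (Function.update z r (z r + ε * lam)) K L [r] [] q g r k) := by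
  obtain ⟨m1, m2, m3, m4, m5, m6, m7⟩ := EO_mem hO
  unfold WL
  rw [EO_V' hO]
  have h := line_fuse (ν := nuw w) (χ := chS K L k) (L := K ++ L) (m := r) (q := k)
    (Y := L.map Prod.fst ++ q :: K.map Prod.fst)
    (V' := UD (fun i => ε * z i) ([] ++ (L.map Prod.snd ++ g :: K.map Prod.snd))) hε hO.nd1
    hb hc hbc hG
  refine h.trans ?_
  have hd : Disjoint {i | i ∈ r :: (L.map Prod.fst ++ q :: K.map Prod.fst)} (S2 K L [] g) :=
    hO.disj.mono_left fun i hi => List.mem_cons_of_mem _ hi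
  unfold SD
  rw [fus_o (nuw_neg w) (nuw_zero w) (UD_supS _ _) (UD_supS _ _) hd (Ne.symm m1) m2 m4 (by simp) m6]
  · have e : UD (fun i => ε * Function.update z r (z r + ε * lam) i)
        ([] ++ (L.map Prod.snd ++ g :: K.map Prod.snd)) =
        UD (fun i => ε * z i) ([] ++ (L.map Prod.snd ++ g :: K.map Prod.snd)) := by
      refine UD_congr fun i hi => ?_
      rw [Function.update_of_ne]
      rintro rfl
      exact m7 hi
    rw [e]
    rfl
  · rw [chS_end hO (by simp), chS_end hO (by simp)]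

/-- **The lower node**: a full line. -/
theorem EO_node [HasRot ι] (hε : Sg ε) (hO : Ok (K ++ [(x, x')]) L [p, r] [] q g r k)
    (hb : b ∉ sites (K ++ [(x, x')]) L [p, r] [] q g)
    (hc : c ∉ sites (K ++ [(x, x')]) L [p, r] [] q g) (hbc : b ≠ c)
    (hG : Gk z (x :: r :: (L.map Prod.fst ++ q :: K.map Prod.fst)))
    (hG' : Gz z (L.map Prod.snd ++ g :: (K ++ [(x, x')]).map Prod.snd)) :
    WL w ε (Function.update z p (z x - 3 * ε * lam)) (K ++ [(x, x')]) L [p, r] [] q g r k =
      Fr.c3 * (∏ k ∈ (r :: (L.map Prod.fst ++ q :: K.map Prod.fst)).toFinset,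
        Fm.Dn (-ε * (z x - z k) + 3 * lam)) * WL w ε z K L [r] [x'] q g r k := by
  obtain ⟨m1, m2, m3, m4, m5, m6, m7⟩ := EO_mem hO
  have hx := m4 (x, x') (by simp)
  have n1 := hO.nd1
  have hd := hO.disj
  have hgd := hO.gd
  set Y := r :: (L.map Prod.fst ++ q :: K.map Prod.fst) with hY
  have e1 : [p, r] ++ (L.map Prod.fst ++ q :: (K ++ [(x, x')]).map Prod.fst) = p :: (Y ++ [x]) := by
    rw [hY]
    simp
  have e2 : [] ++ (L.map Prod.snd ++ g :: (K ++ [(x, x')]).map Prod.snd) =
      (L.map Prod.snd ++ g :: K.map Prod.snd) ++ [x'] := by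
    simp
  have hmem : ∀ y ∈ p :: (Y ++ [x]), y ∈ sites (K ++ [(x, x')]) L [p, r] [] q g := by
    intro y hy
    rw [← e1] at hy
    unfold sites
    simp only [List.mem_append, List.mem_cons, List.map_append] at hy ⊢
    tauto
  have hmem2 : ∀ y ∈ (L.map Prod.snd ++ g :: K.map Prod.snd) ++ [x'],
      y ∈ sites (K ++ [(x, x')]) L [p, r] [] q g := by
    intro y hy
    rw [← e2] at hy
    unfold sites
    simp only [List.mem_append, List.mem_cons, List.map_append] at hy ⊢
    tauto
  have hp1 : (p :: (Y ++ [x])).Perm (x :: p :: Y) :=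
    ((List.perm_append_singleton x Y).cons p).trans (List.Perm.swap _ _ _)
  rw [e1] at n1
  have hn : (x :: p :: Y).Nodup := hp1.nodup_iff.1 n1
  have hn2 : ((L.map Prod.snd ++ g :: K.map Prod.snd) ++ [x']).Nodup := by
    have := hO.nd2
    rwa [e2] at this
  have hP : (K ++ [(x, x')] ++ L).Perm ((x, x') :: (K ++ L)) := by
    rw [List.append_assoc]
    exact List.perm_middle
  unfold WL
  rw [EO_V' hO, e1, e2, Wp_perm (nuw_neg w) hgd hP]
  have h := line_lo (ν := nuw w) (χ := chS (K ++ [(x, x')]) L k) (L := (x, x') :: (K ++ L)) (m := r) (q := k)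
    (p := p) (x := x) (Y := Y) (z := z)
    (V' := UD (fun i => ε * z i) ((L.map Prod.snd ++ g :: K.map Prod.snd) ++ [x'])) hε hn
    (fun h => hb (hmem _ (hp1.mem_iff.2 h))) (fun h => hc (hmem _ (hp1.mem_iff.2 h))) hbc hG
  refine h.trans ?_
  have hS : Disjoint {i | i ∈ p :: (Y ++ [x])}
      {i | i ∈ (L.map Prod.snd ++ g :: K.map Prod.snd) ++ [x']} := by
    unfold S1 S2 at hd
    rwa [e1, e2] at hd
  have hdY : Disjoint {i | i ∈ Y} {i | i ∈ (L.map Prod.snd ++ g :: K.map Prod.snd) ++ [x']} :=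
    hS.mono_left fun i hi => by
      have hi' : i ∈ Y := hi
      show i ∈ p :: (Y ++ [x])
      simp [hi']
  have hpY : p ∉ Y := fun h => (List.nodup_cons.1 (List.nodup_cons.1 hn).2).1 h
  have hxY : x ∉ Y := fun h => (List.nodup_cons.1 hn).1 (List.mem_cons_of_mem _ h)
  have hpV : p ∉ {i | i ∈ (L.map Prod.snd ++ g :: K.map Prod.snd) ++ [x']} := fun h =>
    Set.disjoint_left.1 hS (by simp) h
  have hxV : x ∉ {i | i ∈ (L.map Prod.snd ++ g :: K.map Prod.snd) ++ [x']} := fun h =>
    Set.disjoint_left.1 hS (by simp) h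
  unfold SD
  rw [node_e (nuw_neg w) (nuw_zero w) (UD_supS _ _) (UD_supS _ _) hdY (hgd.perm (hP.cons _)) m1 m2 hx.1 hx.2
    (fun t ht => m4 t (hP.mem_iff.2 (List.mem_cons_of_mem _ ht))) hpY hxY hpV hxV,
    Wp_snoc (UD_supS _ _) (UD_supS _ _) hdY hxY hxV]
  rw [e2.symm.trans (List.nil_append _)] at hn2
  have hrot := HasRot.rot (fun i => ε * z i) (L.map Prod.snd ++ g :: K.map Prod.snd) [x'] b c
    (by rw [← e2, List.nil_append]; exact hn2) (fun h => hb (hmem2 _ h))
    (fun h => hc (hmem2 _ h)) hbc (by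
      rw [← e2, List.nil_append]
      have := gz_eps hε.neg hG'
      rwa [neg_neg] at this)
  rw [hrot]
  rfl

end gen

section can

variable {w ε : ℂ} {q g b x : ℂ} {k : Fin 6} {K L I' J' : List ℂ} {v : Fin 6 → ℂ}

/-- The pairing `EO` with the rapidity `s` of the empty line. -/
noncomputable def EOs (w ε : ℂ) (k : Fin 6) (q g : ℂ) (K L : List ℂ) (b s : ℂ) : ℂ :=
  WL w ε (Function.update (zc K L ![q, g, 1, b, 1, 1]) (sc 2) s) (Ic _ _) (Jc _ _) [sc 2, sc 3] []
    (sc 0) (sc 1) (sc 3) (sc k)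

theorem EOs_eq (a : ℂ) : (fam w ε k q g).EO K L a b = EOs w ε k q g K L b (lg a) := by
  unfold EOs
  rw [← zc_update]
  have : Function.update (![q, g, 1, b, 1, 1] : Fin 6 → ℂ) 2 a = ![q, g, a, b, 1, 1] := by
    funext j
    fin_cases j <;> rfl
  rw [this]
  rfl

theorem R_site (hε : Sg ε) (hk : k = 0 ∨ k = 1) :
    WL w ε (zc K L ![q, g, 1, b, 1, 1]) (Ic _ _) (Jc _ _) [sc 3] [] (sc 0) (sc 1) (sc 3) (sc k) =
      (fam w ε k q g).R K L b := by
  have h := WC_perm6 (w := w) hε K L ![q, g, 1, b, 1, 1] (A := [2]) (B := []) (a := 2) (k := k)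
    (by decide) (by decide) hk (Equiv.swap 2 3) rfl rfl
  have e : (![q, g, 1, b, 1, 1] : Fin 6 → ℂ) ∘ Equiv.swap 2 3 = ![q, g, b, 1, 1, 1] := by
    funext j
    fin_cases j <;> rfl
  rw [e] at h
  exact h

/-- **The polynomial of `EO` in the empty line.** -/
theorem EO_pol (hε : Sg ε) (hk : k = 0 ∨ k = 1) (hG : NUTP.G NUTP.th (b :: q :: g :: (K ++ L))) :
    ∃ P : ℂ[X], P.natDegree ≤ K.length + L.length + 2 ∧
      P.coeff (K.length + L.length + 2) =
        NUTP.tp (b :: q :: (K ++ L)) * (fam w ε k q g).R K L b ∧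
      P.coeff 0 = NUTP.bt (b :: q :: (K ++ L)) * (fam w ε k q g).R K L b ∧
      ∀ s, exp (I * s) ^ (K.length + L.length + 2) * EOs w ε k q g K L b s =
        P.eval (exp (I * s) ^ 2) := by
  have hO : Ok (Ic K.length L.length) (Jc K.length L.length) [sc 2, sc 3] [] (sc 0) (sc 1) (sc 3)
      (sc k) := ok_can (A := [2, 3]) (B := []) (by decide) (by decide) hk
  have hg := Gk_can1 (K := K) (L := L) (v := ![q, g, 1, b, 1, 1]) (A := [3]) (by decide) (G1 hG)
  have i4 := sc_notin (n := K.length) (m := L.length) (A := [2, 3]) (B := []) (j := 4) (by decide)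
  have i5 := sc_notin (n := K.length) (m := L.length) (A := [2, 3]) (B := []) (j := 5) (by decide)
  have hX : (sc 3 :: ((Jc K.length L.length).map Prod.fst ++
      sc 0 :: (Ic K.length L.length).map Prod.fst)).Nodup := (List.nodup_cons.1 hO.nd1).2
  have hE : EL (zc K L ![q, g, 1, b, 1, 1]) (sc 3 :: ((Jc K.length L.length).map Prod.fst ++
      sc 0 :: (Ic K.length L.length).map Prod.fst)) = b :: (L ++ q :: K) := by
    refine EL_can1 (A := [3]) (fun a ha => hG.mem_ne0 (by simp [ha]))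
      (fun a ha => hG.mem_ne0 (by simp [ha])) (hG.mem_ne0 (c := q) (by simp)) ?_
    intro j hj
    rw [List.mem_singleton] at hj
    subst hj
    exact hG.mem_ne0 (c := b) (by simp)
  have hE' := hE ▸ perm_bq b q K L
  obtain ⟨P, h1, h2, h3, h4⟩ := EO_line (w := w) hε hO (fun h => i4 (side1_sub (A := [sc 2, sc 3]) _ h))
    (fun h => i5 (side1_sub (A := [sc 2, sc 3]) _ h)) (fun h => absurd (sc_inj h) (by decide)) hg.gz
  have l1 : (Ic K.length L.length).length = K.length := by simp [Ic]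
  have l2 : (Jc K.length L.length).length = L.length := by simp [Jc]
  rw [l1, l2] at h1 h2 h4
  refine ⟨P, h1, ?_, ?_, h4⟩
  · rw [h2, tp_eq hX hE', R_site hε hk]
  · rw [h3, bt_eq hX hE', R_site hε hk]

/-- **The nodes.** -/
theorem EO_x [∀ n m, HasRot (Sc n m)] (hε : Sg ε) (hk : k = 0 ∨ k = 1)
    (hG : NUTP.G NUTP.th (b :: q :: g :: ((I' ++ [x]) ++ L))) :
    ∃ s, exp (I * s) ^ 2 = te ε ^ 10 * x ^ 2 ∧ ∀ n, exp (I * s) ^ n *
      EOs w ε k q g (I' ++ [x]) L b s = NUTP.dn (te ε) n x (b :: q :: (I' ++ L)) *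
        (fam w ε k q g).RE I' L b x := by
  set K := I' ++ [x] with hK
  have nK : ∀ a ∈ K, a ≠ 0 := fun a ha => hG.mem_ne0 (by simp [ha])
  have nL : ∀ a ∈ L, a ≠ 0 := fun a ha => hG.mem_ne0 (by simp [ha])
  have nq : q ≠ 0 := hG.mem_ne0 (by simp)
  have ng : g ≠ 0 := hG.mem_ne0 (by simp)
  have nb : b ≠ 0 := hG.mem_ne0 (by simp)
  set z := zc K L ![q, g, 1, b, 1, 1] with hz
  have hO : Ok (Ic K.length L.length) (Jc K.length L.length) [sc 2, sc 3] [] (sc 0) (sc 1) (sc 3)
      (sc k) := ok_can (A := [2, 3]) (B := []) (by decide) (by decide) hk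
  have hg1 := Gk_can1 (K := K) (L := L) (v := ![q, g, 1, b, 1, 1]) (A := [3]) (by decide) (G1 hG)
  have hg2 := Gk_can2 (K := K) (L := L) (v := ![q, g, 1, b, 1, 1]) (B := []) (by decide) (G2 hG)
  have i4 := sc_notin (n := K.length) (m := L.length) (A := [2, 3]) (B := []) (j := 4) (by decide)
  have i5 := sc_notin (n := K.length) (m := L.length) (A := [2, 3]) (B := []) (j := 5) (by decide)
  have hpair := zc_pair K L ![q, g, 1, b, 1, 1]
  have hne := fun j => sc_ne (n := K.length) (m := L.length) j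
  obtain ⟨K', ⟨x1, x2⟩, e1, e2, e3⟩ := split_last
    ((Ic_map (K := K) (L := L) (v := ![q, g, 1, b, 1, 1]) nK).trans hK)
  rw [← hz] at e2 e3 hg1 hg2 hpair
  have hJ := Jc_map (K := K) (L := L) (v := ![q, g, 1, b, 1, 1]) nL
  rw [← hz] at hJ
  set Jp := Jc K.length L.length with hJp
  unfold EOs
  rw [← hz, ← hJp]
  rw [e1] at hO hg1 hg2 i4 i5 hpair hne ⊢
  have hgd : Gd ((x1, x2) :: (K' ++ Jp)) := by
    refine (Gd_cons.1 hO.gd).2.2.perm ?_
    rw [List.append_assoc]
    exact List.perm_middle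
  have n1 := hO.nd1
  refine ⟨z x1 - 3 * ε * lam, ?_, fun n => ?_⟩
  · rw [pt_dn2 hε]
    exact congrArg (fun u => te ε ^ 10 * u ^ 2) e3
  have h := EO_node (w := w) hε hO i4 i5 (fun h => absurd (sc_inj h) (by decide)) (hg1.sub ?_) hg2.gz
  · rw [h]
    have hY : (sc 3 :: (Jp.map Prod.fst ++ sc 0 :: K'.map Prod.fst)).Nodup := by
      refine List.Nodup.sublist ?_ (List.nodup_cons.1 n1).2
      simp
    have hE : EL z (sc 3 :: (Jp.map Prod.fst ++ sc 0 :: K'.map Prod.fst)) = b :: (L ++ q :: I') := by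
      unfold EL
      rw [List.map_cons, List.map_append, List.map_cons, List.map_map, List.map_map]
      have a1 : exp (I * z (sc 3)) = b := ex_zcs (v := ![q, g, 1, b, 1, 1]) (j := 3) nb
      have a2 : exp (I * z (sc 0)) = q := ex_zcs (v := ![q, g, 1, b, 1, 1]) (j := 0) nq
      rw [a1, a2]
      exact congrArg₂ (fun A B : List ℂ => b :: (A ++ q :: B)) hJ e2
    have hE' := hE ▸ perm_bq b q I' L
    have hdn := dn_eq (x := x1) (z := z) hε hY hE' n
    have e3' : exp (I * z x1) = x := e3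
    rw [e3'] at hdn
    rw [hdn]
    have key : WL w ε z K' Jp [sc 3] [x2] (sc 0) (sc 1) (sc 3) (sc k) =
        (fam w ε k q g).RE I' L b x := by
      set s6 : Fin 6 → Sc K.length L.length := ![sc 0, sc 1, sc 3, x2, sc 4, sc 5] with hs6
      have hx2 : ∀ j : Fin 6, (sc j : Sc K.length L.length) ≠ x2 := fun j =>
        (hne j (x1, x2) (by simp)).2
      have hinj : Function.Injective s6 := by
        intro i j hij
        fin_cases i <;> fin_cases j <;> first
          | rfl
          | exact absurd hij (hx2 _)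
          | exact absurd hij.symm (hx2 _)
          | exact absurd (sc_inj hij) (by decide)
      have hsk : s6 k = sc k := by
        rcases hk with rfl | rfl <;> rfl
      have hd : ∀ j, ∀ t ∈ K' ++ Jp, s6 j ≠ t.1 ∧ s6 j ≠ t.2 := by
        intro j t ht
        have ht' : t ∈ K' ++ [(x1, x2)] ++ Jp := by
          rcases List.mem_append.1 ht with h | h
          · simp [h]
          · simp [h]
        have h1 := (Gd_cons.1 hgd).2.1 t ht
        fin_cases j
        · exact hne 0 t ht'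
        · exact hne 1 t ht'
        · exact hne 3 t ht'
        · exact ⟨h1.2.2.1, h1.2.2.2⟩
        · exact hne 4 t ht'
        · exact hne 5 t ht'
      have := WL_eq_WC (w := w) hε (z := z) (K := K') (L := Jp) (s := s6) hinj (Gd_cons.1 hgd).2.2 hd
        (A := [2]) (B := [3]) (by decide) (m := 2) (k := k) (by decide) hk (fun t ht => by
          rw [hpair t (by
            rcases List.mem_append.1 ht with h | h
            · simp [h]
            · simp [h])]) (v := ![q, g, b, x, 1, 1]) (fun j hj => by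
          have a1 : exp (I * z x2) = x := by
            rw [← e3']
            exact congrArg (fun u => exp (I * u)) (hpair (x1, x2) (by simp))
          fin_cases hj
          · exact ex_zcs (v := ![q, g, 1, b, 1, 1]) (j := 0) nq
          · exact ex_zcs (v := ![q, g, 1, b, 1, 1]) (j := 1) ng
          · exact ex_zcs (v := ![q, g, 1, b, 1, 1]) (j := 3) nb
          · exact a1) e2 hJ
      rw [hsk] at this
      exact this
    rw [key]
    ring
  · intro y hy
    simp only [List.mem_cons, List.mem_append, List.map_append, List.not_mem_nil,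
      List.map] at hy ⊢
    tauto

/-- **The zero.** -/
theorem EO_z (hε : Sg ε) (hk : k = 0 ∨ k = 1) (hG : NUTP.G NUTP.th (b :: q :: g :: (K ++ L))) :
    EOs w ε k q g K L b (lg b + 3 * ε * lam) = 0 := by
  have hO : Ok (Ic K.length L.length) (Jc K.length L.length) [sc 2, sc 3] [] (sc 0) (sc 1) (sc 3)
      (sc k) := ok_can (A := [2, 3]) (B := []) (by decide) (by decide) hk
  have hg := Gk_can1 (K := K) (L := L) (v := ![q, g, 1, b, 1, 1]) (A := [3]) (by decide) (G1 hG)
  have i4 := sc_notin (n := K.length) (m := L.length) (A := [2, 3]) (B := []) (j := 4) (by decide)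
  have i5 := sc_notin (n := K.length) (m := L.length) (A := [2, 3]) (B := []) (j := 5) (by decide)
  have h := EO_zero (w := w) hε hO (fun h => i4 (side1_sub (A := [sc 2, sc 3]) _ h))
    (fun h => i5 (side1_sub (A := [sc 2, sc 3]) _ h)) (fun h => absurd (sc_inj h) (by decide)) hg.gz
  rw [zc_3] at h
  exact h

/-- **The fusion point.** -/
theorem EO_f (hε : Sg ε) (hk : k = 0 ∨ k = 1) (hG : NUTP.G NUTP.th (b :: q :: g :: (K ++ L))) :
    EOs w ε k q g K L b (lg b + 2 * ε * lam) =
      (NUTP.sn (te ε) 1 1 * ((q :: (K ++ L)).map fun c => NUTP.cs (te ε * b / c)).prod) *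
        (fam w ε k q g).R K L (te ε * b) := by
  have nK : ∀ a ∈ K, a ≠ 0 := fun a ha => hG.mem_ne0 (by simp [ha])
  have nL : ∀ a ∈ L, a ≠ 0 := fun a ha => hG.mem_ne0 (by simp [ha])
  have nq : q ≠ 0 := hG.mem_ne0 (by simp)
  have ng : g ≠ 0 := hG.mem_ne0 (by simp)
  have nb : b ≠ 0 := hG.mem_ne0 (by simp)
  have hO : Ok (Ic K.length L.length) (Jc K.length L.length) [sc 2, sc 3] [] (sc 0) (sc 1) (sc 3)
      (sc k) := ok_can (A := [2, 3]) (B := []) (by decide) (by decide) hk
  have hg := Gk_can1 (K := K) (L := L) (v := ![q, g, 1, b, 1, 1]) (A := [3]) (by decide) (G1 hG)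
  have i4 := sc_notin (n := K.length) (m := L.length) (A := [2, 3]) (B := []) (j := 4) (by decide)
  have i5 := sc_notin (n := K.length) (m := L.length) (A := [2, 3]) (B := []) (j := 5) (by decide)
  set z := zc K L ![q, g, 1, b, 1, 1] with hz
  have h := EO_fuse (w := w) hε hO (fun h => i4 (side1_sub (A := [sc 2, sc 3]) _ h))
    (fun h => i5 (side1_sub (A := [sc 2, sc 3]) _ h)) (fun h => absurd (sc_inj h) (by decide)) hg
  have hb : exp (I * z (sc 3)) = b := ex_zcs (v := ![q, g, 1, b, 1, 1]) (j := 3) nb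
  have hY : ((Jc K.length L.length).map Prod.fst ++
      sc 0 :: (Ic K.length L.length).map Prod.fst).Nodup :=
    (List.nodup_cons.1 (List.nodup_cons.1 hO.nd1).2).2
  have hE : EL z ((Jc K.length L.length).map Prod.fst ++
      sc 0 :: (Ic K.length L.length).map Prod.fst) = L ++ q :: K :=
    EL_can1 (A := []) nK nL nq (by simp)
  have hE' := hE ▸ (List.perm_middle.trans (List.perm_append_comm.cons q) :
    (L ++ q :: K).Perm (q :: (K ++ L)))
  have hfs := fs_eq (y := sc 3) (z := z) hε hY hE'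
  rw [hb] at hfs
  rw [hfs]
  have hz3 : z (sc 3) = lg b := zc_3
  rw [hz3] at h
  unfold EOs
  rw [← hz, h, ← hz3]
  have key : WL w ε (Function.update z (sc 3) (z (sc 3) + ε * lam)) (Ic K.length L.length)
      (Jc K.length L.length) [sc 3] [] (sc 0) (sc 1) (sc 3) (sc k) =
      (fam w ε k q g).R K L (te ε * b) := by
    have hinj : Function.Injective fun j => (sc (Equiv.swap 2 3 j) : Sc K.length L.length) :=
      sc_inj.comp (Equiv.injective _)
    have hu : ∀ j : Fin 6, j ≠ 3 →
        Function.update z (sc 3) (z (sc 3) + ε * lam) (sc j) = z (sc j) := fun j hj => by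
      rw [Function.update_of_ne fun e => hj (sc_inj e)]
    have huI : ∀ t ∈ Ic K.length L.length ++ Jc K.length L.length,
        Function.update z (sc 3) (z (sc 3) + ε * lam) t.1 = z t.1 ∧
        Function.update z (sc 3) (z (sc 3) + ε * lam) t.2 = z t.2 := fun t ht => by
      have := sc_ne 3 t ht
      rw [Function.update_of_ne (Ne.symm this.1), Function.update_of_ne (Ne.symm this.2)]
      exact ⟨rfl, rfl⟩
    have hsk : Equiv.swap (2 : Fin 6) 3 k = k := by
      rcases hk with rfl | rfl <;> rfl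
    have := WL_eq_WC (w := w) hε (z := Function.update z (sc 3) (z (sc 3) + ε * lam))
      (K := Ic K.length L.length) (L := Jc K.length L.length) hinj
      (Gd_cons.1 hO.gd).2.2 (fun j t ht => sc_ne _ t ht)
      (A := [2]) (B := []) (by decide) (m := 2) (k := k) (by decide) hk (fun t ht => by
        rw [(huI t ht).1, (huI t ht).2, hz, zc_pair K L _ t ht]) (v := ![q, g, te ε * b, 1, 1, 1])
      (K' := K) (L' := L) (fun j hj => by
        fin_cases hj
        · show exp (I * Function.update z (sc 3) (z (sc 3) + ε * lam) (sc 0)) = q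
          rw [hu 0 (by decide)]
          exact ex_zcs (v := ![q, g, 1, b, 1, 1]) (j := 0) nq
        · show exp (I * Function.update z (sc 3) (z (sc 3) + ε * lam) (sc 1)) = g
          rw [hu 1 (by decide)]
          exact ex_zcs (v := ![q, g, 1, b, 1, 1]) (j := 1) ng
        · show exp (I * Function.update z (sc 3) (z (sc 3) + ε * lam) (sc 3)) = te ε * b
          rw [Function.update_self, pt_1, hb]) ?_ ?_
    · simp only [hsk] at this
      exact this
    · rw [List.map_congr_left (g := fun t => exp (I * z t.1)) fun t ht => by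
        rw [(huI t (by simp [ht])).1]]
      exact Ic_map nK
    · rw [List.map_congr_left (g := fun t => exp (I * z t.1)) fun t ht => by
        rw [(huI t (by simp [ht])).1]]
      exact Jc_map nL
  rw [key]
  ring

/-- **The field `polEO`.** -/
theorem polEO_fam [∀ n m, HasRot (Sc n m)] (hε : Sg ε) (hk : k = 0 ∨ k = 1) :
    ∀ (I J : List ℂ) (b : ℂ), NUTP.G (te ε) (b :: q :: g :: (I ++ J)) → ∃ P : ℂ[X],
      P.natDegree ≤ I.length + J.length + 2 ∧
      P.coeff (I.length + J.length + 2) = NUTP.tp (b :: q :: (I ++ J)) * (fam w ε k q g).R I J b ∧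
      P.coeff 0 = NUTP.bt (b :: q :: (I ++ J)) * (fam w ε k q g).R I J b ∧
      (∀ a, NUTP.G (te ε) (a :: b :: q :: g :: (I ++ J)) →
        a ^ (I.length + J.length + 2) * (fam w ε k q g).EO I J a b = P.eval (a ^ 2)) ∧
      (∀ x I', I.Perm (x :: I') → P.eval (te ε ^ 10 * x ^ 2) =
        NUTP.dn (te ε) (I.length + J.length + 2) x (b :: q :: (I' ++ J)) *
          (fam w ε k q g).RE I' J b x) ∧
      P.eval (te ε ^ 6 * b ^ 2) = 0 ∧
      P.eval (te ε ^ 4 * b ^ 2) = (te ε ^ 2 * b) ^ (I.length + J.length + 2) *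
        (NUTP.sn (te ε) 1 1 * ((q :: (I ++ J)).map fun c => NUTP.cs (te ε * b / c)).prod) *
          (fam w ε k q g).R I J (te ε * b) := by
  intro K L b hG'
  have hG := of_te_G hε hG'
  obtain ⟨P, h1, h2, h3, h4⟩ := EO_pol (w := w) (K := K) (L := L) hε hk hG
  have nb : b ≠ 0 := hG.mem_ne0 (by simp)
  have h5 : ∀ a, NUTP.G (te ε) (a :: b :: q :: g :: (K ++ L)) →
      a ^ (K.length + L.length + 2) * (fam w ε k q g).EO K L a b = P.eval (a ^ 2) := by
    intro a ha
    have := h4 (lg a)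
    rw [exp_lg ha.ne0] at this
    rw [EOs_eq, this]
  refine ⟨P, h1, h2, h3, h5, ?_, ?_, ?_⟩
  · intro x I' hp
    have hp2 : K.Perm (I' ++ [x]) := hp.trans (List.perm_append_singleton x I').symm
    have hl : (I' ++ [x]).length = K.length := hp2.length_eq.symm
    have hpG : (b :: q :: g :: (K ++ L)).Perm (b :: q :: g :: ((I' ++ [x]) ++ L)) :=
      (((hp2.append_right L).cons g).cons q).cons b
    have hG2 := hG.perm NUTP.th8 hpG
    obtain ⟨P2, -, -, -, k4⟩ := EO_pol (w := w) (K := I' ++ [x]) (L := L) hε hk hG2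
    have e : P = P2 := by
      rw [← sub_eq_zero]
      refine NUTP.zero_of_gen (te8 hε) hG' fun a ha => ?_
      rw [Polynomial.eval_sub, ← h5 a ha]
      have := k4 (lg a)
      rw [exp_lg ha.ne0, ← EOs_eq, hl] at this
      rw [← this, ← mul_sub]
      have ha' := of_te_G hε ha
      have r1 : NUTP.G NUTP.th (a :: b :: (L ++ q :: K)) := by
        refine (ha'.perm NUTP.th8 ?_).tail (a := g)
        refine ((((List.Perm.swap g q _).cons b).trans (List.Perm.swap g b _)).cons a).trans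
          ((List.Perm.swap g a _).trans ?_)
        exact (((List.perm_append_comm.cons q).trans List.perm_middle.symm).cons b).cons a |>.cons g
      have r2 : NUTP.G NUTP.th (L ++ g :: K) := G2 ha'.tail
      have := WC_permK (w := w) (v := ![q, g, a, b, 1, 1]) (k := k) (m := 3) hε hp2 (A := [2, 3]) (B := [])
        (by decide) (by decide) hk r1 r2
      have e2 : (fam w ε k q g).EO K L a b = (fam w ε k q g).EO (I' ++ [x]) L a b := this
      rw [e2, sub_self, mul_zero]
    obtain ⟨s, s1, s2⟩ := EO_x (w := w) (L := L) (q := q) (g := g) (b := b) (x := x) (I' := I')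
      hε hk hG2
    rw [← s1, e, ← k4 s, hl, s2]
  · have := h4 (lg b + 3 * ε * lam)
    rw [EO_z hε hk hG, mul_zero, pt_up2, exp_lg nb] at this
    exact this.symm
  · have := h4 (lg b + 2 * ε * lam)
    rw [EO_f hε hk hG, pt_fs2, exp_lg nb, pt_fs, exp_lg nb] at this
    rw [← this]
    ring

end can

end Pool.Agent.WND.PEO

namespace Pool.Agent.WND

open _root_.Pool.Agent.NUT2 _root_.Pool.Agent.NUTV Polynomial

variable {w ε q g : ℂ} {k : Fin 6}

/-- **The field `polEO` of `Half (te ε) w q g (fam w ε k q g)`.** -/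
theorem fam_polEO [∀ n m, HasRot (Sc n m)] (hε : Sg ε) (hk : k = 0 ∨ k = 1) (I J : List ℂ) (b : ℂ)
    (hG : NUTP.G (te ε) (b :: q :: g :: (I ++ J))) : ∃ P : ℂ[X],
      P.natDegree ≤ I.length + J.length + 2 ∧
      P.coeff (I.length + J.length + 2) = NUTP.tp (b :: q :: (I ++ J)) * (fam w ε k q g).R I J b ∧
      P.coeff 0 = NUTP.bt (b :: q :: (I ++ J)) * (fam w ε k q g).R I J b ∧
      (∀ a, NUTP.G (te ε) (a :: b :: q :: g :: (I ++ J)) →
        a ^ (I.length + J.length + 2) * (fam w ε k q g).EO I J a b = P.eval (a ^ 2)) ∧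
      (∀ x I', I.Perm (x :: I') → P.eval (te ε ^ 10 * x ^ 2) =
        NUTP.dn (te ε) (I.length + J.length + 2) x (b :: q :: (I' ++ J)) *
          (fam w ε k q g).RE I' J b x) ∧
      P.eval (te ε ^ 6 * b ^ 2) = 0 ∧
      P.eval (te ε ^ 4 * b ^ 2) = (te ε ^ 2 * b) ^ (I.length + J.length + 2) *
        (NUTP.sn (te ε) 1 1 * ((q :: (I ++ J)).map fun c => NUTP.cs (te ε * b / c)).prod) *
          (fam w ε k q g).R I J (te ε * b) :=
  PEO.polEO_fam hε hk I J b hG

end Pool.Agent.WND
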