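import Pool.Agent.NUTV.F_polER
import Pool.Agent.WND.Perm

/-!
# Plan W, W1: the field `polER` of the family with a winding weight (helper39)

Copy of `NUTV/F_polER` (helper51) with the weight `nuw w` and the labels `chS K L k`.
-/

set_option autoImplicit false

namespace Pool.Agent.WND

open _root_.Pool.Agent.EXL _root_.Pool.Agent.EXL.Pat Filter Topology Polynomial
open _root_.Pool.Agent.EXL.Fm (lam)
open _root_.Pool.Agent.NUF _root_.Pool.Agent.NUU _root_.Pool.Agent.NUT2 _root_.Pool.Agent.NUTV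
open _root_.Pool.Agent.NUTV.PER (Wp_Usymm X1 X2 Dis EL_G dis_can X1_EL X2_EL X1_len)
open Pool.Agent.TC (nuw nuw_neg nuw_zero)
open Complex (I exp sin cos)

namespace PER

section er

variable {ι : Type*} [DecidableEq ι] [Finite ι] {w ε : ℂ} {z : ι → ℂ} {K L : List (ι × ι)}
  {q g h p b c k : ι}

omit [Finite ι] in
theorem WL_er (hp : p ∉ X2 K L h g) (s : ℂ) :
    WL w ε (Function.update z p s) K L [p] [h] q g h k =
      Wp (nuw w) (chS K L k) (SD ε (Function.update z p s) (p :: X1 K L q))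
        (UD (fun i => ε * z i) (X2 K L h g)) h k (K ++ L) := by
  have e : UD (fun i => ε * Function.update z p s i) (X2 K L h g) =
      UD (fun i => ε * z i) (X2 K L h g) := UD_congr fun x hx => by
    rw [Function.update_of_ne fun hh => hp (by rwa [hh] at hx)]
  unfold WL SD
  show Wp (nuw w) (chS K L k) (UD (fun i => -ε * Function.update z p s i) (p :: X1 K L q))
    (UD (fun i => ε * Function.update z p s i) (X2 K L h g)) h k (K ++ L) = _
  rw [e]

omit [Finite ι] in
theorem WL_l : WL w ε z K L [] [h] q g h k =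
      Wp (nuw w) (chS K L k) (SD ε z (X1 K L q)) (UD (fun i => ε * z i) (X2 K L h g)) h k (K ++ L) :=
  rfl

/-- **The polynomial.** -/
theorem er_poly (hε : Sg ε) (H : Dis K L q g p h b c) (hk : k = q ∨ k = g)
    (hG1 : Gz z (X1 K L q)) : ∃ P : ℂ[X], P.natDegree ≤ (X1 K L q).length ∧
      P.coeff (X1 K L q).length =
        (∏ i ∈ (X1 K L q).toFinset, (2 * exp (I * z i))⁻¹) * WL w ε z K L [] [h] q g h k ∧
      P.coeff 0 = (∏ i ∈ (X1 K L q).toFinset, exp (I * z i) / 2) * WL w ε z K L [] [h] q g h k ∧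
      ∀ s, exp (I * s) ^ (X1 K L q).length * WL w ε (Function.update z p s) K L [p] [h] q g h k =
        P.eval (exp (I * s) ^ 2) := by
  have hpk := H.pk hk
  obtain ⟨hb, hc, hbc⟩ := H.b1
  have hp : p ∉ X2 K L h g := H.dj' (by simp)
  obtain ⟨P, a1, a2, a3, a4⟩ := line_E (ν := nuw w) (χ := chS K L k) (m := h)
    (q := k) (L := K ++ L) hε H.n1 hb hc hbc hG1 (nuw_zero w) (NUT2.UD_supS (fun i => ε * z i) (X2 K L h g))
    H.dj hpk.1 hpk.2.1 hpk.2.2
  refine ⟨P, a1, a2, a3, fun s => ?_⟩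
  rw [WL_er hp]
  exact a4 s

/-- **The upper node.** -/
theorem er_up (hε : Sg ε) {t : ι × ι} {L' : List (ι × ι)} (H : Dis K (t :: L') q g p h b c)
    (hk : k = q ∨ k = g) (hG1 : Gz z (X1 K (t :: L') q)) :
    WL w ε (Function.update z p (z t.1 + 3 * ε * lam)) K (t :: L') [p] [h] q g h k =
      Fr.c3 * (∏ i ∈ (X1 K L' q).toFinset, Fm.Dn (-ε * (z t.1 - z i))) *
        WL w ε z K L' [] [h, t.2] q g h k := by
  have hpk := H.pk hk
  obtain ⟨hb, hc, hbc⟩ := H.b1
  have hp : p ∉ X2 K (t :: L') h g := H.dj' (by simp)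
  have e1 : X1 K (t :: L') q = t.1 :: X1 K L' q := rfl
  have hn := H.n1
  rw [e1] at hb hc hn hG1
  have hn1 := List.nodup_cons.1 hn
  have hn2 := List.nodup_cons.1 hn1.2
  have hb' : b ∉ X1 K L' q := fun e => hb (by simp [e])
  have hc' : c ∉ X1 K L' q := fun e => hc (by simp [e])
  have hpS : p ∉ {i | i ∈ X1 K L' q} := fun e => hn1.1 (List.mem_cons_of_mem _ e)
  have hxS : t.1 ∉ {i | i ∈ X1 K L' q} := hn2.1
  have hperm : (K ++ t :: L').Perm (t :: (K ++ L')) := List.perm_middle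
  have htm : t ∈ K ++ t :: L' := by simp
  have hd : Disjoint {i | i ∈ X1 K L' q} {i | i ∈ X2 K (t :: L') h g} :=
    Set.disjoint_left.2 fun x hx hy => H.dj' (x := x) (by
      rw [e1]
      have hx' : x ∈ X1 K L' q := hx
      simp [hx']) hy
  have hS := NUT2.UD_supS (fun i => -ε * z i) (X1 K L' q)
  have hS' := NUT2.UD_supS (fun i => ε * z i) (X2 K (t :: L') h g)
  rw [WL_er hp, e1, line_up hε hn hb' hc' hbc hG1]
  congr 1
  rw [Wp_perm (nuw_neg w) (H.gd hk) hperm,
    Wp_Usymm (nuw_neg w) (nuw_zero w) (V := SD ε z (X1 K L' q)) hS hS' hd (a := t.1) (b := p)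
      (H.pt t htm) hp]
  have hg := H.gd hk
  have hg' : Gd ((h, k) :: (t.1, t.2) :: (K ++ L')) := by
    refine hg.perm ?_
    exact hperm.cons _
  rw [show t :: (K ++ L') = (t.1, t.2) :: (K ++ L') from rfl,
    node_e (nuw_neg w) (nuw_zero w) (V := SD ε z (X1 K L' q)) hS hS' hd hg' hpk.1 hpk.2.1
      (hpk.2.2 t htm).1 (hpk.2.2 t htm).2 (fun t' ht' => hpk.2.2 t' (by
        simp only [List.mem_append, List.mem_cons] at ht' ⊢
        tauto)) hpS hxS hp (H.pt t htm)]
  exact Wp_cons (V := SD ε z (X1 K L' q)) hS hS' hd hxS (H.pt t htm) h (K ++ L')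

/-- **The lower node.** -/
theorem er_lo [HasRot ι] (hε : Sg ε) {t : ι × ι} {K' : List (ι × ι)}
    (H : Dis (K' ++ [t]) L q g p h b c) (hk : k = q ∨ k = g) (hG1 : Gk z (X1 (K' ++ [t]) L q))
    (hG2 : Gz z (X2 (K' ++ [t]) L h g)) :
    WL w ε (Function.update z p (z t.1 - 3 * ε * lam)) (K' ++ [t]) L [p] [h] q g h k =
      Fr.c3 * (∏ i ∈ (X1 K' L q).toFinset, Fm.Dn (-ε * (z t.1 - z i) + 3 * lam)) *
        WL w ε z K' L [] [t.2, h] q g h k := by
  have hpk := H.pk hk
  obtain ⟨hb, hc, hbc⟩ := H.b1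
  obtain ⟨hb2, hc2⟩ := H.b2
  have hp : p ∉ X2 (K' ++ [t]) L h g := H.dj' (by simp)
  have e1 : X1 (K' ++ [t]) L q = X1 K' L q ++ [t.1] := by
    unfold X1
    simp
  have e2 : X2 (K' ++ [t]) L h g = X2 K' L h g ++ [t.2] := by
    unfold X2
    simp
  have hn := H.n1
  rw [e1] at hb hc hn hG1
  have pm : (t.1 :: p :: X1 K' L q).Perm (p :: (X1 K' L q ++ [t.1])) :=
    (List.Perm.swap p t.1 _).trans (List.Perm.cons p (List.perm_append_singleton t.1 _).symm)
  have hn0 := pm.nodup_iff.2 hn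
  have hb0 : b ∉ t.1 :: p :: X1 K' L q := fun e => hb (pm.mem_iff.1 e)
  have hc0 : c ∉ t.1 :: p :: X1 K' L q := fun e => hc (pm.mem_iff.1 e)
  have hG0 : Gk z (t.1 :: X1 K' L q) := hG1.sub fun x hx => by
    simp only [List.mem_append, List.mem_cons, List.not_mem_nil, or_false] at hx ⊢
    tauto
  have hn1 := List.nodup_cons.1 hn0
  have hn2 := List.nodup_cons.1 hn1.2
  have hpS : p ∉ {i | i ∈ X1 K' L q} := hn2.1
  have hxS : t.1 ∉ {i | i ∈ X1 K' L q} := fun e => hn1.1 (List.mem_cons_of_mem _ e)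
  have hperm : ((K' ++ [t]) ++ L).Perm (t :: (K' ++ L)) := by
    rw [List.append_assoc]
    exact List.perm_middle
  have htm : t ∈ (K' ++ [t]) ++ L := by simp
  have hd : Disjoint {i | i ∈ X1 K' L q} {i | i ∈ X2 (K' ++ [t]) L h g} :=
    Set.disjoint_left.2 fun x hx hy => H.dj' (x := x) (by
      rw [e1]
      have hx' : x ∈ X1 K' L q := hx
      simp [hx']) hy
  have hS := NUT2.UD_supS (fun i => -ε * z i) (X1 K' L q)
  have hS' := NUT2.UD_supS (fun i => ε * z i) (X2 (K' ++ [t]) L h g)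
  rw [WL_er hp, e1, line_lo hε hn0 hb0 hc0 hbc hG0]
  congr 1
  have hg := H.gd hk
  have hg' : Gd ((h, k) :: (t.1, t.2) :: (K' ++ L)) := by
    refine hg.perm ?_
    exact hperm.cons _
  rw [Wp_perm (nuw_neg w) (H.gd hk) hperm, show t :: (K' ++ L) = (t.1, t.2) :: (K' ++ L) from rfl,
    node_e (nuw_neg w) (nuw_zero w) (V := SD ε z (X1 K' L q)) hS hS' hd hg' hpk.1 hpk.2.1
      (hpk.2.2 t htm).1 (hpk.2.2 t htm).2 (fun t' ht' => hpk.2.2 t' (by
        simp only [List.mem_append, List.mem_cons] at ht' ⊢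
        tauto)) hpS hxS hp (H.pt t htm)]
  refine (Wp_snoc (V := SD ε z (X1 K' L q)) hS hS' hd hxS (H.pt t htm) h (K' ++ L)).trans ?_
  have hrot : UD (fun i => ε * z i) (X2 (K' ++ [t]) L h g) =
      UD (fun i => ε * z i) (t.2 :: X2 K' L h g) := by
    have hG3 : Gz (fun i => ε * z i) (X2 (K' ++ [t]) L h g) := by
      have := gz_eps hε.neg hG2
      rwa [neg_neg] at this
    have hn3 := H.n2
    rw [e2] at hG3 hb2 hc2 hn3 ⊢
    exact HasRot.rot _ (X2 K' L h g) [t.2] b c hn3 hb2 hc2 hbc hG3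
  rw [hrot]
  rfl

end er

/-! ### The field -/

section fam

variable {w ε : ℂ} {k : Fin 6} {q g h : ℂ} {I J : List ℂ}

/-- The functions with the sites 2 and 3 exchanged. -/
theorem WC_23 (hε : Sg ε) (hk : k = 0 ∨ k = 1) (a b : ℂ) (A B : List (Fin 6)) {c : Fin 6}
    (hA : (0 :: 1 :: (A ++ B)).Nodup) (hc : c ∈ A ++ B) :
    WC w ε I J ![q, g, a, b, 1, 1] (A.map (Equiv.swap 2 3)) (B.map (Equiv.swap 2 3))
      (Equiv.swap 2 3 c) k = WC w ε I J ![q, g, b, a, 1, 1] A B c k := by
  have e : (![q, g, a, b, 1, 1] ∘ Equiv.swap 2 3 : Fin 6 → ℂ) = ![q, g, b, a, 1, 1] := by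
    funext j
    fin_cases j <;> rfl
  rw [WC_perm6 hε I J _ hA hc hk (Equiv.swap 2 3) rfl rfl, e]

/-- Sites of the remaining configuration: the partner `t.2` of the removed line is the site 2. -/
theorem WL_back (hε : Sg ε) (hk : k = 0 ∨ k = 1) {h x : ℂ} {v : Fin 6 → ℂ} (hv0 : v 0 = q)
    (hv1 : v 1 = g) (hv3 : v 3 = h) (hq : q ≠ 0) (hg : g ≠ 0) (hh : h ≠ 0)
    {K' L' : List (Sc I.length J.length × Sc I.length J.length)}
    {t : Sc I.length J.length × Sc I.length J.length}
    (hP : (t :: (K' ++ L')).Perm (Ic I.length J.length ++ Jc I.length J.length))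
    (hx : exp (Complex.I * zc I J v t.1) = x) {B : List (Fin 6)} (hB : B = [2, 3] ∨ B = [3, 2]) :
    WL w ε (zc I J v) K' L' [] (B.map (Function.update sc 2 t.2)) (sc 0) (sc 1) (sc 3) (sc k) =
      WC w ε (K'.map fun t => exp (Complex.I * zc I J v t.1))
        (L'.map fun t => exp (Complex.I * zc I J v t.1)) ![q, g, x, h, 1, 1] [] B 3 k := by
  have hsc : Function.Injective (sc : Fin 6 → Sc I.length J.length) := fun i j h =>
    Sum.inr_injective (Sum.inr_injective h)
  have hcan := nodup_can (n := I.length) (m := J.length) (A := [2, 3]) (B := [4, 5]) (by decide)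
  have hGd0 : Gd (Ic I.length J.length ++ Jc I.length J.length) := (List.nodup_append.1 hcan).1
  have hGd1 : Gd (t :: (K' ++ L')) := hGd0.perm hP.symm
  obtain ⟨g1, g2, g3⟩ := Gd_cons.1 hGd1
  have hnsc : ∀ t' ∈ Ic I.length J.length ++ Jc I.length J.length, ∀ j : Fin 6,
      (sc j : Sc I.length J.length) ≠ t'.1 ∧ (sc j : Sc I.length J.length) ≠ t'.2 := by
    intro t' ht' j
    rcases List.mem_append.1 ht' with ht' | ht' <;> obtain ⟨i, -, rfl⟩ := List.mem_map.1 ht' <;>
      exact ⟨by simp [sc], by simp [sc]⟩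
  have ht : ∀ t' ∈ t :: (K' ++ L'), t' ∈ Ic I.length J.length ++ Jc I.length J.length := fun t' h' =>
    hP.mem_iff.1 h'
  have htt := hnsc t (ht t (by simp))
  set s : Fin 6 → Sc I.length J.length := Function.update sc 2 t.2 with hs
  have s2 : s 2 = t.2 := Function.update_self _ _ _
  have sne : ∀ j, j ≠ 2 → s j = sc j := fun j hj => Function.update_of_ne hj _ _
  have hinj : Function.Injective s := by
    intro i j hij
    by_cases hi : i = 2
    · by_cases hj : j = 2
      · rw [hi, hj]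
      · rw [hi, s2, sne j hj] at hij
        exact absurd hij.symm (htt j).2
    · by_cases hj : j = 2
      · rw [hj, s2, sne i hi] at hij
        exact absurd hij (htt i).2
      · rw [sne i hi, sne j hj] at hij
        exact hsc hij
  have hd : ∀ j, ∀ t' ∈ K' ++ L', s j ≠ t'.1 ∧ s j ≠ t'.2 := by
    intro j t' ht'
    by_cases hj : j = 2
    · rw [hj, s2]
      have := g2 t' ht'
      exact ⟨this.2.2.1, this.2.2.2⟩
    · rw [sne j hj]
      exact hnsc t' (ht t' (List.mem_cons_of_mem _ ht')) j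
  have hz : ∀ t' ∈ K' ++ L', exp (Complex.I * zc I J v t'.2) = exp (Complex.I * zc I J v t'.1) :=
    fun t' ht' => by rw [zc_pair I J v t' (ht t' (List.mem_cons_of_mem _ ht'))]
  have e0 : s 0 = sc 0 := sne 0 (by decide)
  have e1 : s 1 = sc 1 := sne 1 (by decide)
  have e3 : s 3 = sc 3 := sne 3 (by decide)
  have ek : s k = sc k := sne k (by rcases hk with rfl | rfl <;> decide)
  have hA : (0 :: 1 :: ([] ++ B)).Nodup := by rcases hB with rfl | rfl <;> decide
  have hm : (3 : Fin 6) ∈ [] ++ B := by rcases hB with rfl | rfl <;> decide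
  have hv : ∀ j ∈ 0 :: 1 :: ([] ++ B), exp (Complex.I * zc I J v (s j)) =
      (![q, g, x, h, 1, 1] : Fin 6 → ℂ) j := by
    have c0 : exp (Complex.I * zc I J v (s 0)) = q := by
      rw [e0]
      show exp (Complex.I * lg (v 0)) = q
      rw [hv0, exp_lg hq]
    have c1 : exp (Complex.I * zc I J v (s 1)) = g := by
      rw [e1]
      show exp (Complex.I * lg (v 1)) = g
      rw [hv1, exp_lg hg]
    have c3 : exp (Complex.I * zc I J v (s 3)) = h := by
      rw [e3]
      show exp (Complex.I * lg (v 3)) = h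
      rw [hv3, exp_lg hh]
    have c2 : exp (Complex.I * zc I J v (s 2)) = x := by
      rw [s2, zc_pair I J v t (ht t (by simp)), hx]
    intro j hj
    have hj' : j = 0 ∨ j = 1 ∨ j = 2 ∨ j = 3 := by
      rcases hB with rfl | rfl
      · simpa using hj
      · simp only [List.nil_append, List.mem_cons, List.not_mem_nil, or_false] at hj
        tauto
    rcases hj' with rfl | rfl | rfl | rfl
    · exact c0
    · exact c1
    · exact c2
    · exact c3
  have key := WL_eq_WC (w := w) (ε := ε) hε (z := zc I J v) hinj g3 hd (A := []) (B := B) hA hm hk hz hv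
    rfl rfl
  rw [e0, e1, e3, ek] at key
  exact key

/-- The field for the lines at the end of `I` and at the start of `J`. -/
theorem er_fam [HasRot (Sc I.length J.length)] (hε : Sg ε) (hk : k = 0 ∨ k = 1)
    (hG : NUTP.G (te ε) (h :: q :: g :: (I ++ J))) : ∃ P : ℂ[X],
    P.natDegree ≤ I.length + J.length + 1 ∧
    P.coeff (I.length + J.length + 1) = NUTP.tp (q :: (I ++ J)) * (fam w ε k q g).L I J h ∧
    P.coeff 0 = NUTP.bt (q :: (I ++ J)) * (fam w ε k q g).L I J h ∧
    (∀ r, r ≠ 0 → r ^ (I.length + J.length + 1) * (fam w ε k q g).ER I J r h = P.eval (r ^ 2)) ∧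
    (∀ x I', I = I' ++ [x] → P.eval (te ε ^ 10 * x ^ 2) =
      NUTP.dn (te ε) (I.length + J.length + 1) x (q :: (I' ++ J)) * (fam w ε k q g).EO' I' J x h) ∧
    (∀ y J', J = y :: J' → P.eval (te ε ^ 6 * y ^ 2) =
      NUTP.up (te ε) (I.length + J.length + 1) y (q :: (I ++ J')) *
        (fam w ε k q g).OE' I J' h y) := by
  have hG' := of_te_G hε hG
  have hh : h ≠ 0 := hG'.mem_ne0 (by simp)
  have hq : q ≠ 0 := hG'.mem_ne0 (by simp)
  have hg : g ≠ 0 := hG'.mem_ne0 (by simp)
  have hI : ∀ c ∈ I, c ≠ 0 := fun c hc => hG'.mem_ne0 (by simp [hc])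
  have hJ : ∀ c ∈ J, c ≠ 0 := fun c hc => hG'.mem_ne0 (by simp [hc])
  have hk' : (sc k : Sc I.length J.length) = sc 0 ∨ (sc k : Sc I.length J.length) = sc 1 := by
    rcases hk with rfl | rfl
    · exact Or.inl rfl
    · exact Or.inr rfl
  have e1 := X1_EL (v := ![q, g, 1, h, 1, 1]) hI hJ hq
  have e2 := X2_EL (v := ![q, g, 1, h, 1, 1]) hI hJ hg hh
  have p1 : (J ++ q :: I).Perm (q :: (I ++ J)) :=
    List.perm_middle.trans (List.perm_append_comm.cons _)
  have q1 : (EL (zc I J ![q, g, 1, h, 1, 1]) (X1 (Ic I.length J.length) (Jc I.length J.length)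
      (sc 0))).Perm (q :: (I ++ J)) := by
    rw [e1]
    exact p1
  have q2 : (EL (zc I J ![q, g, 1, h, 1, 1]) (X2 (Ic I.length J.length) (Jc I.length J.length)
      (sc 3) (sc 1))).Perm (h :: g :: (I ++ J)) := by
    rw [e2]
    exact (List.perm_middle.trans (List.perm_append_comm.cons _)).cons _
  have G1 := EL_G (List.nodup_cons.1 dis_can.n1).2 q1 (hG'.subl (List.Sublist.trans ((List.sublist_cons_self g _).cons_cons q)
    (List.sublist_cons_self h _)))
  have G2 := EL_G dis_can.n2 q2 (hG'.subl ((List.sublist_cons_self q _).cons_cons h))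
  have H := dis_can (n := I.length) (m := J.length)
  obtain ⟨P, a1, a2, a3, a4⟩ := er_poly hε H hk' G1.gz
  rw [X1_len] at a1 a2 a4
  have eL : WL w ε (zc I J ![q, g, 1, h, 1, 1]) (Ic I.length J.length) (Jc I.length J.length) []
      [sc 3] (sc 0) (sc 1) (sc 3) (sc k) = (fam w ε k q g).L I J h :=
    WC_23 hε hk 1 h [] [2] (c := 2) (by decide) (by decide)
  refine ⟨P, a1, ?_, ?_, ?_, ?_, ?_⟩
  · rw [a2, eL, tp_eq (List.nodup_cons.1 H.n1).2 q1]
  · rw [a3, eL, bt_eq (List.nodup_cons.1 H.n1).2 q1]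
  · intro r hr
    have e := a4 (lg r)
    rw [exp_lg hr, ← zc_update] at e
    have ev : Function.update (![q, g, 1, h, 1, 1] : Fin 6 → ℂ) 2 r = ![q, g, r, h, 1, 1] := by
      funext j
      fin_cases j <;> rfl
    rw [ev] at e
    exact e
  · intro x I' hI'
    have hn0 := H.n1
    obtain ⟨K', t, hK, hK', hx⟩ := split_last
      ((Ic_map (K := I) (L := J) (v := ![q, g, 1, h, 1, 1]) hI).trans hI')
    have hJm := Jc_map (K := I) (L := J) (v := ![q, g, 1, h, 1, 1]) hJ
    have hP : (t :: (K' ++ Jc I.length J.length)).Perm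
        (Ic I.length J.length ++ Jc I.length J.length) := by
      rw [hK, List.append_assoc]
      exact List.perm_middle.symm
    have hb := WL_back (w := w) hε hk (q := q) (g := g) (h := h) (v := ![q, g, 1, h, 1, 1]) rfl rfl rfl
      hq hg hh hP hx (B := [2, 3]) (Or.inl rfl)
    rw [hK', hJm] at hb
    have hb' : WL w ε (zc I J ![q, g, 1, h, 1, 1]) K' (Jc I.length J.length) [] [t.2, sc 3] (sc 0)
      (sc 1) (sc 3) (sc k) = (fam w ε k q g).EO' I' J x h := hb
    have a5 := a4 (zc I J ![q, g, 1, h, 1, 1] t.1 - 3 * ε * lam)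
    rw [hK] at H G1 G2 a5 hn0
    rw [er_lo hε H hk' G1 G2.gz, hb', pt_dn2 hε, hx] at a5
    have e3 : X1 (K' ++ [t]) (Jc I.length J.length) (sc 0) =
        X1 K' (Jc I.length J.length) (sc 0) ++ [t.1] := by
      unfold X1
      simp
    have hnX : (X1 K' (Jc I.length J.length) (sc 0)).Nodup := by
      rw [e3] at hn0
      exact (List.nodup_append.1 (List.nodup_cons.1 hn0).2).1
    have hS : (EL (zc I J ![q, g, 1, h, 1, 1]) (X1 K' (Jc I.length J.length) (sc 0))).Perm
        (q :: (I' ++ J)) := by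
      have e4 : EL (zc I J ![q, g, 1, h, 1, 1]) (X1 K' (Jc I.length J.length) (sc 0)) =
          J ++ q :: I' := by
        unfold EL X1
        rw [List.map_append, List.map_cons, List.map_map, List.map_map]
        exact congrArg₂ (· ++ ·) hJm (congrArg₂ List.cons (exp_lg hq) hK')
      rw [e4]
      exact List.perm_middle.trans (List.perm_append_comm.cons _)
    have e5 := dn_eq (x := t.1) hε hnX hS (I.length + J.length + 1)
    rw [hx] at e5
    rw [e5, ← a5]
    ring
  · intro y J' hJ'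
    have hn0 := H.n1
    obtain ⟨t, L', hL, hL', hy⟩ := split_head
      ((Jc_map (K := I) (L := J) (v := ![q, g, 1, h, 1, 1]) hJ).trans hJ')
    have hIm := Ic_map (K := I) (L := J) (v := ![q, g, 1, h, 1, 1]) hI
    have hP : (t :: (Ic I.length J.length ++ L')).Perm
        (Ic I.length J.length ++ Jc I.length J.length) := by
      rw [hL]
      exact List.perm_middle.symm
    have hb := WL_back (w := w) hε hk (q := q) (g := g) (h := h) (v := ![q, g, 1, h, 1, 1]) rfl rfl rfl
      hq hg hh hP hy (B := [3, 2]) (Or.inr rfl)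
    rw [hL', hIm] at hb
    have hb' : WL w ε (zc I J ![q, g, 1, h, 1, 1]) (Ic I.length J.length) L' [] [sc 3, t.2] (sc 0)
      (sc 1) (sc 3) (sc k) = (fam w ε k q g).OE' I J' h y :=
      hb.trans (WC_23 hε hk y h [] [2, 3] (c := 2) (by decide) (by decide))
    have a5 := a4 (zc I J ![q, g, 1, h, 1, 1] t.1 + 3 * ε * lam)
    rw [hL] at H G1 a5 hn0
    rw [er_up hε H hk' G1.gz, hb', pt_up2, hy] at a5
    have hnX : (X1 (Ic I.length J.length) L' (sc 0)).Nodup :=
      (List.nodup_cons.1 (List.nodup_cons.1 hn0).2).2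
    have hS : (EL (zc I J ![q, g, 1, h, 1, 1]) (X1 (Ic I.length J.length) L' (sc 0))).Perm
        (q :: (I ++ J')) := by
      have e4 : EL (zc I J ![q, g, 1, h, 1, 1]) (X1 (Ic I.length J.length) L' (sc 0)) =
          J' ++ q :: I := by
        unfold EL X1
        rw [List.map_append, List.map_cons, List.map_map, List.map_map]
        exact congrArg₂ (· ++ ·) hL' (congrArg₂ List.cons (exp_lg hq) hIm)
      rw [e4]
      exact List.perm_middle.trans (List.perm_append_comm.cons _)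
    have e5 := up_eq (y := t.1) hε hnX hS (I.length + J.length + 1)
    rw [hy] at e5
    rw [e5, ← a5]
    ring

theorem ER_perm (hε : Sg ε) (hk : k = 0 ∨ k = 1) {I' J' : List ℂ} (hI : I.Perm I') (hJ : J.Perm J')
    {r : ℂ} (hG : NUTP.G (te ε) (r :: h :: q :: g :: (I ++ J))) :
    (fam w ε k q g).ER I J r h = (fam w ε k q g).ER I' J' r h := by
  have hG' := of_te_G hε hG
  have k1 : NUTP.G NUTP.th (r :: (J ++ q :: I)) := by
    have h1 : NUTP.G NUTP.th (r :: q :: (I ++ J)) := hG'.subl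
      (((List.Sublist.trans ((List.sublist_cons_self g _).cons_cons q)
        (List.sublist_cons_self h _)).cons_cons r))
    refine NUTP.G.perm NUTP.th8 (List.Perm.cons r ?_) h1
    exact ((List.perm_append_comm.cons q).trans List.perm_middle.symm)
  have k2 : NUTP.G NUTP.th (h :: (J ++ g :: I)) := by
    have h1 : NUTP.G NUTP.th (h :: g :: (I ++ J)) := hG'.subl
      (List.Sublist.trans ((List.sublist_cons_self q _).cons_cons h) (List.sublist_cons_self r _))
    refine NUTP.G.perm NUTP.th8 (List.Perm.cons h ?_) h1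
    exact ((List.perm_append_comm.cons g).trans List.perm_middle.symm)
  have k3 : NUTP.G NUTP.th (r :: (J ++ q :: I')) :=
    NUTP.G.perm NUTP.th8 (List.Perm.cons r (List.Perm.append_left J (hI.cons q))) k1
  have k4 : NUTP.G NUTP.th (h :: (J ++ g :: I')) :=
    NUTP.G.perm NUTP.th8 (List.Perm.cons h (List.Perm.append_left J (hI.cons g))) k2
  have e1 : WC w ε I J ![q, g, r, h, 1, 1] [2] [3] 3 k = WC w ε I' J ![q, g, r, h, 1, 1] [2] [3] 3 k :=
    WC_permK hε hI (by decide) (by decide) hk k1 k2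
  have e2 : WC w ε I' J ![q, g, r, h, 1, 1] [2] [3] 3 k =
      WC w ε I' J' ![q, g, r, h, 1, 1] [2] [3] 3 k :=
    WC_permL hε hJ (by decide) (by decide) hk k3 k4
  exact e1.trans e2

end fam

end PER

open _root_.Pool.Agent.WND.PER in
/-- **The field `polER`.** -/
theorem fam_polER {w ε : ℂ} {k : Fin 6} {q g : ℂ} [∀ n m, HasRot (Sc n m)] (hε : Sg ε) (hk : k = 0 ∨ k = 1) (I J : List ℂ) (h : ℂ)
    (hG : NUTP.G (te ε) (h :: q :: g :: (I ++ J))) : ∃ P : ℂ[X],
    P.natDegree ≤ I.length + J.length + 1 ∧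
    P.coeff (I.length + J.length + 1) = NUTP.tp (q :: (I ++ J)) * (fam w ε k q g).L I J h ∧
    P.coeff 0 = NUTP.bt (q :: (I ++ J)) * (fam w ε k q g).L I J h ∧
    (∀ r, NUTP.G (te ε) (r :: h :: q :: g :: (I ++ J)) →
      r ^ (I.length + J.length + 1) * (fam w ε k q g).ER I J r h = P.eval (r ^ 2)) ∧
    (∀ x I', I.Perm (x :: I') → P.eval (te ε ^ 10 * x ^ 2) =
      NUTP.dn (te ε) (I.length + J.length + 1) x (q :: (I' ++ J)) * (fam w ε k q g).EO' I' J x h) ∧
    (∀ y J', J.Perm (y :: J') → P.eval (te ε ^ 6 * y ^ 2) =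
      NUTP.up (te ε) (I.length + J.length + 1) y (q :: (I ++ J')) *
        (fam w ε k q g).OE' I J' h y) := by
  obtain ⟨P, a1, a2, a3, a4, a5, a6⟩ := er_fam (w := w) (q := q) (g := g) hε hk hG
  refine ⟨P, a1, a2, a3, fun r hr => a4 r hr.ne0, ?_, ?_⟩
  · intro x I' hp
    have hp' : I.Perm (I' ++ [x]) := hp.trans (List.perm_append_singleton x I').symm
    have hG2 : NUTP.G (te ε) (h :: q :: g :: ((I' ++ [x]) ++ J)) :=
      NUTP.G.perm (te8 hε) ((((List.Perm.append_right J hp').cons g).cons q).cons h) hG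
    obtain ⟨P2, -, -, -, b4, b5, -⟩ := er_fam (w := w) (q := q) (g := g) hε hk hG2
    have hlen : (I' ++ [x]).length = I.length := hp'.length_eq.symm
    have hPP : P - P2 = 0 := NUTP.zero_of_gen (te8 hε) hG fun a ha => by
      rw [Polynomial.eval_sub, ← a4 a ha.ne0, ← b4 a ha.ne0, hlen,
        ER_perm hε hk hp' (List.Perm.refl J) ha, sub_self]
    have := b5 x I' rfl
    rw [sub_eq_zero.1 hPP, this, hlen]
  · intro y J' hp
    have hG2 : NUTP.G (te ε) (h :: q :: g :: (I ++ (y :: J'))) :=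
      NUTP.G.perm (te8 hε) ((((List.Perm.append_left I hp).cons g).cons q).cons h) hG
    obtain ⟨P2, -, -, -, b4, -, b6⟩ := er_fam (w := w) (q := q) (g := g) hε hk hG2
    have hlen : (y :: J').length = J.length := hp.length_eq.symm
    have hPP : P - P2 = 0 := NUTP.zero_of_gen (te8 hε) hG fun a ha => by
      rw [Polynomial.eval_sub, ← a4 a ha.ne0, ← b4 a ha.ne0, hlen,
        ER_perm hε hk (List.Perm.refl I) hp ha, sub_self]
    have := b6 y J' rfl
    rw [sub_eq_zero.1 hPP, this, hlen]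

end Pool.Agent.WND
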