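import Pool.Agent.NUTV.F_polOE
import Pool.Agent.WND.Perm

/-!
# The field `polOE` of the lattice with the winding weight (plan W, W1a)

The occupied line `m` and the empty line `p` end at `f` (first disc); the empty line varies.  The upper node of
the empty line removes a line of `L`, there is no factor.
-/

set_option autoImplicit false

namespace Pool.Agent.WND

open _root_.Pool.Agent.EXL _root_.Pool.Agent.EXL.Pat Polynomial
open _root_.Pool.Agent.EXL.Fm (lam)
open _root_.Pool.Agent.NUF _root_.Pool.Agent.NUU _root_.Pool.Agent.NUT2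
open _root_.Pool.Agent.NUTV
open _root_.Pool.Agent.TC (nuw nuw_neg nuw_zero)
open _root_.Pool.Agent.NUTV.POE (LX LX_length Cf g1 g2 cf v3 gkX EL_LX)
open Complex (I exp sin cos)

namespace POE

section gen

variable {ι : Type*} [DecidableEq ι] [Finite ι] {w ε : ℂ} {z : ι → ℂ} {K L : List (ι × ι)}
  {q g m p k b c : ι}

/-- The pairing with the empty line at the bottom. -/
noncomputable def BW (w ε : ℂ) (z : ι → ℂ) (K L : List (ι × ι)) (q g m p k : ι) (s : ℂ) : ℂ :=
  Wp (nuw w) (chS K L k) (SD ε (Function.update z p s) (p :: LX K L q m))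
    (UD (fun i => ε * z i) ((L.map Prod.snd ++ g :: K.map Prod.snd))) m k (K ++ L)

omit [Finite ι] in
/-- For generic values of the empty line: the two-point function `OE`. -/
theorem BW_gen [HasRot ι] (hε : Sg ε) (h : Cf K L q g m p k b c) {s : ℂ}
    (hG : Gz (Function.update z p s) (m :: p :: (L.map Prod.fst ++ q :: K.map Prod.fst))) :
    BW w ε z K L q g m p k s = WL w ε (Function.update z p s) K L [m, p] [] q g m k := by
  have hn := h.ok.nd1
  have e1 := line_gen (A := [m]) (B := L.map Prod.fst ++ q :: K.map Prod.fst) (p := p) (z := z) (s := s)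
    hε hn h.b1 h.c1 h.bc hG
  unfold BW LX WL
  rw [e1]
  have e2 : UD (fun i => ε * Function.update z p s i)
      ([] ++ (L.map Prod.snd ++ g :: K.map Prod.snd)) =
      UD (fun i => ε * z i) (L.map Prod.snd ++ g :: K.map Prod.snd) := by
    rw [List.nil_append]
    refine UD_congr fun x hx => ?_
    rw [Function.update_of_ne]
    rintro rfl
    have h1 : x ∈ S1 K L [m, x] q := by simp [S1]
    have h2 : x ∈ S2 K L ([] : List ι) g := hx
    exact Set.disjoint_left.1 h.ok.disj h1 h2
  rw [e2]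
  rfl

omit [Finite ι] in
/-- The pairing with the other end alone. -/
theorem Wp_R [HasRot ι] (hε : Sg ε) (h : Cf K L q g m p k b c) (hG : Gz z (LX K L q m))
    (V' : Fnl ι) (M : List (ι × ι)) :
    Wp (nuw w) (chS K L k) (SD ε z (LX K L q m)) V' m k M =
      Wp (nuw w) (chS K L k) (UD (fun i => -ε * z i)
        ([m] ++ (L.map Prod.fst ++ q :: K.map Prod.fst))) V' m k M := by
  unfold LX SD at *
  rw [HasRot.rot (fun i => -ε * z i) (L.map Prod.fst ++ q :: K.map Prod.fst) [m] b c ?_ ?_ ?_ h.bc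
    (gz_eps hε hG)]
  · have hn := h.ok.nd1
    refine (List.Perm.nodup_iff List.perm_append_comm).1 (hn.sublist ?_)
    simp
  · have := h.b1
    simp only [List.mem_append, List.mem_cons] at this ⊢
    tauto
  · have := h.c1
    simp only [List.mem_append, List.mem_cons] at this ⊢
    tauto

/-- **The polynomial.** -/
theorem BW_pol [HasRot ι] (hε : Sg ε) (h : Cf K L q g m p k b c) (hG : Gz z (LX K L q m)) :
    ∃ P : ℂ[X], P.natDegree ≤ K.length + L.length + 2 ∧
      P.coeff (K.length + L.length + 2) =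
        (∏ k ∈ (LX K L q m).toFinset, (2 * exp (I * z k))⁻¹) * WL w ε z K L [m] [] q g m k ∧
      P.coeff 0 =
        (∏ k ∈ (LX K L q m).toFinset, exp (I * z k) / 2) * WL w ε z K L [m] [] q g m k ∧
      ∀ s, exp (I * s) ^ (K.length + L.length + 2) * BW w ε z K L q g m p k s =
        P.eval (exp (I * s) ^ 2) := by
  have key := line_E (ν := nuw w) (χ := chS K L k) (m := m) (q := k) (L := K ++ L)
    (V' := UD (fun i => ε * z i) ((L.map Prod.snd ++ g :: K.map Prod.snd))) hε h.nd h.b2 h.c2 h.bc hG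
    (nuw_zero w) (UD_supS _ _) h.dj h.pm h.pk h.pL
  rw [LX_length, Wp_R hε h hG] at key
  exact key

/-- **The zero.** -/
theorem BW_zero [HasRot ι] (hε : Sg ε) (h : Cf K L q g m p k b c) (hG : Gk z (LX K L q m)) :
    BW w ε z K L q g m p k (z m - 3 * ε * lam) = 0 := by
  have hn : (m :: p :: (L.map Prod.fst ++ q :: K.map Prod.fst)).Nodup := h.ok.nd1
  have e := line_lo (ν := nuw w) (χ := chS K L k) (m := m) (q := k) (L := K ++ L) (x := m) (p := p)
    (V' := UD (fun i => ε * z i) ((L.map Prod.snd ++ g :: K.map Prod.snd))) hε hn h.b1 h.c1 h.bc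
    (z := z) (hG.sub ?_)
  · unfold BW LX
    rw [e]
    have h1 := h.dj
    have hp : p ∉ {x | x ∈ L.map Prod.snd ++ g :: K.map Prod.snd} := fun hx =>
      Set.disjoint_left.1 h1 (show p ∈ {x | x ∈ p :: LX K L q m} by simp) hx
    have hm : m ∉ {x | x ∈ L.map Prod.snd ++ g :: K.map Prod.snd} := fun hx =>
      Set.disjoint_left.1 h1 (show m ∈ {x | x ∈ p :: LX K L q m} by simp [LX]) hx
    have hd : Disjoint {x | x ∈ L.map Prod.fst ++ q :: K.map Prod.fst}
        {x | x ∈ L.map Prod.snd ++ g :: K.map Prod.snd} := by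
      refine h1.mono_left fun x hx => ?_
      have hx' : x ∈ L.map Prod.fst ++ q :: K.map Prod.fst := hx
      show x ∈ p :: ((L.map Prod.fst ++ q :: K.map Prod.fst) ++ [m])
      simp only [List.mem_append, List.mem_cons] at hx' ⊢
      tauto
    have e0 := node_z' (ν := nuw w) (nuw_neg w) (nuw_zero w) (χ := chS K L k)
      (V := SD ε z (L.map Prod.fst ++ q :: K.map Prod.fst))
      (V' := UD (fun i => ε * z i) ((L.map Prod.snd ++ g :: K.map Prod.snd)))
      (UD_supS _ _) (UD_supS _ _) hd (a := p) (b := m) (q := k) (L := K ++ L) h.pm h.pk h.pL hp hm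
    rw [e0, mul_zero]
  · intro x hx
    unfold LX
    simp only [List.mem_append, List.mem_cons] at hx ⊢
    tauto

/-- The node at an empty end, names exchanged. -/
theorem node_e' {S S' : Set ι} {V V' : Fnl ι} {r n x x' l : ι} {M : List (ι × ι)}
    (hV : SupS S V) (hV' : SupS S' V') (hd : Disjoint S S')
    (hL : Gd ((n, l) :: (x, x') :: M)) (h1 : r ≠ n) (h2 : r ≠ l) (h3 : r ≠ x)
    (h4 : r ≠ x') (h5 : ∀ t ∈ M, r ≠ t.1 ∧ r ≠ t.2) (hr : r ∉ S) (hx : x ∉ S)
    (hr' : r ∉ S') (hx' : x ∉ S') :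
    Wp (nuw w) (chS K L k) (V ∘ₗ uops.U r x) V' n l ((x, x') :: M) =
      Wp (nuw w) (chS K L k) V V' n l M := by
  rw [← node_e (nuw_neg w) (nuw_zero w) (χ := chS K L k) hV hV' hd hL h1 h2 h3 h4 h5 hr hx hr' hx']
  have q1 : On S'ᶜ (cw.U r x) := On.cU hr' hx'
  have q2 : On S'ᶜ (cw.U x r) := On.cU hx' hr'
  unfold Wp
  show pr (ℤ × ℤ) (V ∘ₗ rep0 ℂ id (cw.U r x)) V' _ = pr (ℤ × ℤ) (V ∘ₗ rep0 ℂ id (cw.U x r)) V' _
  rw [pr_left (nuw_zero w) hV hV' hd q1, pr_left (nuw_zero w) hV hV' hd q2]
  show pr (ℤ × ℤ) V V' ((cops (nuw w)).U r x _) = pr (ℤ × ℤ) V V' ((cops (nuw w)).U x r _)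
  rw [U_symm (nuw_neg w) (nuw_zero w)]

/-- **The upper node.** -/
theorem BW_up [HasRot ι] {y y' : ι} (hε : Sg ε) (h : Cf K ((y, y') :: L) q g m p k b c)
    (hG : Gk z (LX K ((y, y') :: L) q m)) :
    BW w ε z K ((y, y') :: L) q g m p k (z y + 3 * ε * lam) =
      Fr.c3 * (∏ k ∈ (LX K L q m).toFinset, Fm.Dn (-ε * (z y - z k))) *
        WL w ε z K L [m] [y'] q g m k := by
  have hX : LX K ((y, y') :: L) q m = y :: LX K L q m := rfl
  have hn : (p :: y :: LX K L q m).Nodup := h.nd
  have hb : b ∉ p :: y :: LX K L q m := h.b2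
  have hc : c ∉ p :: y :: LX K L q m := h.c2
  have hG' : Gk z (y :: LX K L q m) := hG
  have hbL : b ∉ LX K L q m := fun hh => hb (by simp [hh])
  have hcL : c ∉ LX K L q m := fun hh => hc (by simp [hh])
  unfold BW
  rw [hX, line_up hε hn hbL hcL h.bc hG'.gz]
  congr 1
  have hdj := h.dj
  have hP : (K ++ (y, y') :: L).Perm ((y, y') :: (K ++ L)) := List.perm_middle
  have hgd : Gd ((m, k) :: (K ++ (y, y') :: L)) := h.ok.gd
  have hgd' : Gd ((m, k) :: (y, y') :: (K ++ L)) := hgd.perm (hP.cons _)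
  rw [Wp_perm (nuw_neg w) hgd hP]
  have pl := h.pL
  have hpt := pl (y, y') (by simp)
  have hd : Disjoint {x | x ∈ LX K L q m}
      {x | x ∈ ((y, y') :: L).map Prod.snd ++ g :: K.map Prod.snd} := by
    refine hdj.mono_left fun x hx => ?_
    have hx' : x ∈ LX K L q m := hx
    show x ∈ p :: y :: LX K L q m
    simp [hx']
  have hn1 := List.nodup_cons.1 hn
  have hn2 := List.nodup_cons.1 hn1.2
  have hS : SupS {x | x ∈ LX K L q m} (SD ε z (LX K L q m)) := UD_supS _ _
  rw [node_e' hS (UD_supS _ _) hd hgd' h.pm h.pk hpt.1 hpt.2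
    (fun s hs => pl s (hP.mem_iff.2 (List.mem_cons_of_mem _ hs)))
    (fun hh => hn1.1 (List.mem_cons_of_mem _ hh)) hn2.1
    (fun hh => Set.disjoint_left.1 hdj (show p ∈ {x | x ∈ p :: y :: LX K L q m} by simp) hh)
    (fun hh => Set.disjoint_left.1 hdj (show y ∈ {x | x ∈ p :: y :: LX K L q m} by simp) hh)]
  have hR := HasRot.rot (fun i => -ε * z i) (L.map Prod.fst ++ q :: K.map Prod.fst) [m] b c
    (show ((L.map Prod.fst ++ q :: K.map Prod.fst) ++ [m]).Nodup from hn2.2) hbL hcL h.bc
    (gz_eps hε (hG'.sub fun x hx => List.mem_cons_of_mem _ hx).gz)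
  rw [Wp_cons hS (UD_supS _ _) hd hn2.1
    (fun hh => Set.disjoint_left.1 hdj (show y ∈ {x | x ∈ p :: y :: LX K L q m} by simp) hh)]
  unfold WL SD LX
  rw [hR]
  rfl

end gen

section can

variable {w ε a q g : ℂ} {K L : List ℂ} {k : Fin 6}

/-- The field on the canonical sites; the upper node for the first line of the group `J`. -/
theorem base [∀ n m, HasRot (Sc n m)] (hε : Sg ε) (hk : k = 0 ∨ k = 1) (K L : List ℂ) (a : ℂ)
    (hG : NUTP.G NUTP.th (a :: q :: g :: (K ++ L))) : ∃ P : ℂ[X],
    P.natDegree ≤ K.length + L.length + 2 ∧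
    P.coeff (K.length + L.length + 2) = NUTP.tp (a :: q :: (K ++ L)) * (fam w ε k q g).R K L a ∧
    P.coeff 0 = NUTP.bt (a :: q :: (K ++ L)) * (fam w ε k q g).R K L a ∧
    (∀ b, NUTP.G NUTP.th (b :: a :: q :: g :: (K ++ L)) →
      b ^ (K.length + L.length + 2) * (fam w ε k q g).OE K L a b = P.eval (b ^ 2)) ∧
    (∀ y L', L = y :: L' → P.eval (te ε ^ 6 * y ^ 2) =
      NUTP.up (te ε) (K.length + L.length + 2) y (a :: q :: (K ++ L')) *
        (fam w ε k q g).RE K L' a y) ∧
    P.eval (te ε ^ 10 * a ^ 2) = 0 := by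
  set z := zc K L ![q, g, a, 1, 1, 1] with hz
  have hcf := cf hk K.length L.length
  have hgk := gkX hG
  have hEL := EL_LX hG
  rw [← hz] at hgk hEL
  have hI : (Ic K.length L.length).length = K.length := by unfold Ic; simp
  have hJ : (Jc K.length L.length).length = L.length := by unfold Jc; simp
  obtain ⟨P, p1, p2, p3, p4⟩ := BW_pol (w := w) hε hcf hgk.gz
  rw [hI, hJ] at p1 p2 p4
  have hnd := (List.nodup_cons.1 hcf.nd).2
  have hK : ∀ a ∈ K, a ≠ 0 := fun a ha => hG.mem_ne0 (by simp [ha])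
  have hL : ∀ a ∈ L, a ≠ 0 := fun a ha => hG.mem_ne0 (by simp [ha])
  have hq : (![q, g, a, 1, 1, 1] : Fin 6 → ℂ) 0 ≠ 0 := hG.mem_ne0 (by simp)
  have hg : (![q, g, a, 1, 1, 1] : Fin 6 → ℂ) 1 ≠ 0 := hG.mem_ne0 (by simp)
  have ha : (![q, g, a, 1, 1, 1] : Fin 6 → ℂ) 2 ≠ 0 := hG.mem_ne0 (by simp)
  have hza : exp (I * z (sc 2)) = a := ex_zcs ha
  refine ⟨P, p1, ?_, ?_, ?_, ?_, ?_⟩
  · rw [p2, tp_eq hnd hEL]
    rfl
  · rw [p3, bt_eq hnd hEL]
    rfl
  · intro b hb
    have hb0 : b ≠ 0 := hb.mem_ne0 (by simp)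
    have h1 := p4 (lg b)
    rw [exp_lg hb0] at h1
    rw [← h1]
    congr 1
    have hu : Function.update z (sc 3) (lg b) = zc K L ![q, g, a, b, 1, 1] := by
      rw [hz, ← zc_update, v3]
    have hgb : Gk (Function.update z (sc 3) (lg b)) (sc 2 :: sc 3 ::
        ((Jc K.length L.length).map Prod.fst ++ sc 0 :: (Ic K.length L.length).map Prod.fst)) := by
      rw [hu]
      exact Gk_can1 (A := [2, 3]) (v := ![q, g, a, b, 1, 1]) (by decide) (g2 hb)
    rw [BW_gen hε hcf hgb.gz, hu]
    rfl
  · intro y L' e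
    have hmap : (Jc K.length L.length).map (fun t => exp (I * z t.1)) = y :: L' := by
      rw [← e]
      exact Jc_map hL
    obtain ⟨⟨t, t'⟩, P', hP', h2, h3⟩ := split_head hmap
    simp only at h3
    have hcf' := hcf
    rw [hP'] at hcf'
    have hgk' := hgk
    rw [hP'] at hgk'
    have h4 := BW_up (w := w) hε hcf' hgk'
    rw [← hP'] at h4
    have h5 := p4 (z t + 3 * ε * lam)
    rw [pt_up2, h3] at h5
    rw [← h5, h4, ← h3]
    have hnd' : (LX (Ic K.length L.length) P' (sc 0) (sc 2)).Nodup := by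
      have := hnd
      rw [hP'] at this
      exact (List.nodup_cons.1 this).2
    have hEL' : (EL z (LX (Ic K.length L.length) P' (sc 0) (sc 2))).Perm (a :: q :: (K ++ L')) := by
      have h6 : (exp (I * z t) :: EL z (LX (Ic K.length L.length) P' (sc 0) (sc 2))).Perm
          (a :: q :: (K ++ y :: L')) := by
        have := hEL
        have hKL : a :: q :: (K ++ L) = a :: q :: (K ++ y :: L') := by rw [e]
        rw [hP', hKL] at this
        exact this
      rw [h3] at h6
      have h7 : (a :: q :: (K ++ y :: L')).Perm (y :: a :: q :: (K ++ L')) := by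
        have e1 : (K ++ y :: L').Perm (y :: (K ++ L')) := List.perm_middle
        exact (((e1.cons q).trans (List.Perm.swap y q _)).cons a).trans (List.Perm.swap y a _)
      exact (h6.trans h7).cons_inv
    rw [up_eq hε hnd' hEL']
    have h8 : WL w ε z (Ic K.length L.length) P' [sc 2] [t'] (sc 0) (sc 1) (sc 2) (sc k) =
        (fam w ε k q g).RE K L' a (exp (I * z t)) := by
      set s : Fin 6 → Sc K.length L.length := Function.update sc 3 t' with hs
      have htm : (t, t') ∈ Ic K.length L.length ++ Jc K.length L.length := by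
        rw [hP']; simp
      have hsub : ∀ x ∈ Ic K.length L.length ++ P', x ∈ Ic K.length L.length ++ Jc K.length L.length := by
        intro x hx
        rw [hP']
        simp only [List.mem_append, List.mem_cons] at hx ⊢
        tauto
      have hne : ∀ j, sc j ≠ t' := fun j => (sc_ne j _ htm).2
      have hGd : Gd (Ic K.length L.length ++ (t, t') :: P') := by
        have := (Gd_cons.1 hcf.ok.gd).2.2
        rwa [hP'] at this
      have hGd' : Gd ((t, t') :: (Ic K.length L.length ++ P')) := hGd.perm List.perm_middle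
      obtain ⟨g0, g3, g4⟩ := Gd_cons.1 hGd'
      have hs3 : s 3 = t' := by rw [hs, Function.update_self]
      have hsj : ∀ j, j ≠ 3 → s j = sc j := fun j hj => by rw [hs, Function.update_of_ne hj]
      have hsinj : Function.Injective s := by
        intro i j hij
        by_cases hi : i = 3
        · by_cases hj : j = 3
          · rw [hi, hj]
          · rw [hi, hs3, hsj j hj] at hij
            exact absurd hij.symm (hne j)
        · by_cases hj : j = 3
          · rw [hj, hs3, hsj i hi] at hij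
            exact absurd hij (hne i)
          · rw [hsj i hi, hsj j hj] at hij
            exact sc_inj hij
      have hzt' : exp (I * z t') = exp (I * z t) := by
        have := NUT2.zc_pair K L ![q, g, a, 1, 1, 1] (t, t') htm
        simp only at this
        rw [hz, this]
      have key := WL_eq_WC (w := w) (ε := ε) hε (z := z) (K := Ic K.length L.length) (L := P') (s := s) hsinj g4
        (fun j x hx => by
          by_cases hj : j = 3
          · rw [hj, hs3]
            have := g3 x hx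
            exact ⟨this.2.2.1, this.2.2.2⟩
          · rw [hsj j hj]
            exact sc_ne j x (hsub x hx))
        (A := [2]) (B := [3]) (by decide) (m := 2) (k := k) (by simp) hk
        (fun x hx => by
          have := NUT2.zc_pair K L ![q, g, a, 1, 1, 1] x (hsub x hx)
          rw [hz, this])
        (v := ![q, g, a, exp (I * z t), 1, 1])
        (fun j hj => by
          have hj' : j = 0 ∨ j = 1 ∨ j = 2 ∨ j = 3 := by simpa using hj
          rcases hj' with rfl | rfl | rfl | rfl
          · rw [hsj 0 (by decide)]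
            exact ex_zcs hq
          · rw [hsj 1 (by decide)]
            exact ex_zcs hg
          · rw [hsj 2 (by decide)]
            exact ex_zcs ha
          · rw [hs3, hzt']
            rfl)
        (K' := K) (L' := L') (Ic_map hK) h2
      have hk3 : s k = sc k := hsj k (by rcases hk with rfl | rfl <;> decide)
      rw [hk3, hsj 0 (by decide), hsj 1 (by decide), hsj 2 (by decide), List.map_cons, List.map_nil,
        List.map_cons, List.map_nil, hsj 2 (by decide), hs3] at key
      rw [key]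
      rfl
    rw [h8]
    ring
  · have h5 := p4 (z (sc 2) - 3 * ε * lam)
    rw [BW_zero hε hcf hgk, mul_zero, pt_dn2 hε, hza] at h5
    exact h5.symm

end can

/-- **The field `polOE`.** -/
theorem _root_.Pool.Agent.WND.polOE [∀ n m, HasRot (Sc n m)] {w ε : ℂ} {k : Fin 6} (hε : Sg ε)
    (hk : k = 0 ∨ k = 1) (q g : ℂ) (K L : List ℂ) (a : ℂ)
    (hG : NUTP.G (te ε) (a :: q :: g :: (K ++ L))) : ∃ P : ℂ[X],
    P.natDegree ≤ K.length + L.length + 2 ∧
    P.coeff (K.length + L.length + 2) = NUTP.tp (a :: q :: (K ++ L)) * (fam w ε k q g).R K L a ∧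
    P.coeff 0 = NUTP.bt (a :: q :: (K ++ L)) * (fam w ε k q g).R K L a ∧
    (∀ b, NUTP.G (te ε) (b :: a :: q :: g :: (K ++ L)) →
      b ^ (K.length + L.length + 2) * (fam w ε k q g).OE K L a b = P.eval (b ^ 2)) ∧
    (∀ y L', L.Perm (y :: L') → P.eval (te ε ^ 6 * y ^ 2) =
      NUTP.up (te ε) (K.length + L.length + 2) y (a :: q :: (K ++ L')) *
        (fam w ε k q g).RE K L' a y) ∧
    P.eval (te ε ^ 10 * a ^ 2) = 0 := by
  have hG' := of_te_G hε hG
  obtain ⟨P, p1, p2, p3, p4, p5, p6⟩ := POE.base (w := w) (k := k) hε hk K L a hG'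
  refine ⟨P, p1, p2, p3, fun b hb => p4 b (of_te_G hε hb), ?_, p6⟩
  intro y L' hp
  have hGy : NUTP.G NUTP.th (a :: q :: g :: (K ++ y :: L')) :=
    NUTP.G.perm NUTP.th8 ((((hp.append_left K).cons g).cons q).cons a) hG'
  obtain ⟨Q, q1, q2, q3, q4, q5, q6⟩ := POE.base (w := w) (k := k) hε hk K (y :: L') a hGy
  have hlen : L.length = (y :: L').length := hp.length_eq
  have hPQ : P = Q := by
    rw [← sub_eq_zero]
    refine NUTP.zero_of_gen (θ := NUTP.th) NUTP.th8 hG' fun b hb => ?_
    have hb' : NUTP.G NUTP.th (b :: a :: q :: g :: (K ++ y :: L')) :=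
      NUTP.G.perm NUTP.th8 (((((hp.append_left K).cons g).cons q).cons a).cons b) hb
    rw [eval_sub, ← p4 b hb, ← q4 b hb', hlen]
    have e : (fam w ε k q g).OE K L a b = (fam w ε k q g).OE K (y :: L') a b := by
      refine WC_permL hε hp (A := [2, 3]) (B := []) (by decide) (by simp) hk (g2 hb) ?_
      refine NUTP.G.perm NUTP.th8 ?_ (NUTP.G.subl (S := b :: a :: q :: g :: (K ++ L))
        (S' := g :: (K ++ L)) ?_ hb)
      · exact ((List.perm_append_comm).cons g).trans List.perm_middle.symm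
      · exact ((List.sublist_cons_self q _).trans (List.sublist_cons_self a _)).trans
          (List.sublist_cons_self b _)
    rw [e, sub_self]
  rw [hPQ, hlen]
  exact q5 y L' rfl

end POE

end Pool.Agent.WND
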