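import Pool.Agent.NUTV.F_polOEo
import Pool.Agent.WND.Perm

/-!
# The field `polOEo` of the lattice with the winding weight (plan W, W1a)

Two ended lines on the side `ε`: the occupied line `a` below the empty line `b`; the function of `a`.  The lower
node of the occupied line removes a line of `K` and gives the factor `w⁻¹`.
-/

set_option autoImplicit false

namespace Pool.Agent.WND

open _root_.Pool.Agent.EXL _root_.Pool.Agent.EXL.Pat Filter Topology Polynomial
open _root_.Pool.Agent.EXL.Fm (lam)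
open _root_.Pool.Agent.NUF _root_.Pool.Agent.NUU _root_.Pool.Agent.NUT2 _root_.Pool.Agent.NUTV
open _root_.Pool.Agent.TC (nuw nuw_neg nuw_zero)
open _root_.Pool.Agent.NUTV.OEo (vv sc4)
open Complex (I exp sin cos)

section lo

variable {ι : Type*} [DecidableEq ι] [Finite ι] [HasRot ι] {w ε : ℂ} {z : ι → ℂ} {K L : List (ι × ι)}
  {A B : List ι} {p x x' q g k b c : ι}

/-- **The lower node of the occupied line.** -/
theorem WL_lo (hw : w ≠ 0) (hε : Sg ε) (hO : Ok (K ++ [(x, x')]) L (p :: A) B q g p k)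
    (hb : b ∉ sites (K ++ [(x, x')]) L (p :: A) B q g)
    (hc : c ∉ sites (K ++ [(x, x')]) L (p :: A) B q g) (hbc : b ≠ c)
    (hG1 : Gk z (A ++ (L.map Prod.fst ++ q :: (K ++ [(x, x')]).map Prod.fst)))
    (hG2 : Gk z (B ++ (L.map Prod.snd ++ g :: (K ++ [(x, x')]).map Prod.snd))) :
    WL w ε (Function.update z p (z x - 3 * ε * lam)) (K ++ [(x, x')]) L (p :: A) B q g p k =
      w⁻¹ * (Fr.c3 * (∏ k ∈ (A ++ (L.map Prod.fst ++ q :: K.map Prod.fst)).toFinset,
        EXL.Fm.Dn (-ε * (z x - z k) + 3 * lam)) *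
        WL w ε z K L A (x' :: B) q g x' k) := by
  set Y : List ι := A ++ (L.map Prod.fst ++ q :: K.map Prod.fst) with hY
  set Y' : List ι := B ++ (L.map Prod.snd ++ g :: K.map Prod.snd) with hY'
  have hn := hO.nd
  have e1 : (p :: A) ++ (L.map Prod.fst ++ q :: (K ++ [(x, x')]).map Prod.fst) = p :: (Y ++ [x]) := by
    rw [hY]
    simp
  have e2 : B ++ (L.map Prod.snd ++ g :: (K ++ [(x, x')]).map Prod.snd) = Y' ++ [x'] := by
    rw [hY']
    simp
  have e3 : A ++ (L.map Prod.fst ++ q :: (K ++ [(x, x')]).map Prod.fst) = Y ++ [x] := by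
    rw [hY]
    simp
  have hS1 := hO.nd1
  have hS2 := hO.nd2
  rw [e1] at hS1
  rw [e2] at hS2 hG2
  rw [e3] at hG1
  -- membership
  have m1 : ∀ v, v ∈ p :: (Y ++ [x]) → v ∈ sites (K ++ [(x, x')]) L (p :: A) B q g := by
    intro v hv
    rw [hY] at hv
    simp only [sites, List.map_append, List.map_cons, List.map_nil, List.mem_append, List.mem_cons,
      List.not_mem_nil, or_false] at hv ⊢
    tauto
  have m2 : ∀ v, v ∈ Y' ++ [x'] → v ∈ sites (K ++ [(x, x')]) L (p :: A) B q g := by
    intro v hv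
    rw [hY'] at hv
    simp only [sites, List.map_append, List.map_cons, List.map_nil, List.mem_append, List.mem_cons,
      List.not_mem_nil, or_false] at hv ⊢
    tauto
  have hdis := hO.disj
  have hdis' : ∀ v, v ∈ p :: (Y ++ [x]) → v ∉ Y' ++ [x'] := by
    intro v h1 h2
    have h3 : v ∈ S1 (K ++ [(x, x')]) L (p :: A) q := by
      show v ∈ (p :: A) ++ (L.map Prod.fst ++ q :: (K ++ [(x, x')]).map Prod.fst)
      rw [e1]
      exact h1
    have h4 : v ∈ S2 (K ++ [(x, x')]) L B g := by
      show v ∈ B ++ (L.map Prod.snd ++ g :: (K ++ [(x, x')]).map Prod.snd)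
      rw [e2]
      exact h2
    exact Set.disjoint_left.1 hdis h3 h4
  have hk : k ≠ p ∧ k ≠ x := by
    have h1 := hO.gd
    unfold Gd at h1
    simp only [List.nodup_append, List.nodup_cons, List.map_append, List.mem_append, List.mem_cons,
      List.map_cons, List.map_nil, List.cons_append, List.not_mem_nil, or_false] at h1
    grind
  -- the left functional does not depend on the rapidity of p
  have u2 : UD (fun i => ε * Function.update z p (z x - 3 * ε * lam) i) (Y' ++ [x']) =
      UD (fun i => ε * z i) (Y' ++ [x']) := by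
    refine UD_congr fun v hv => ?_
    have : v ≠ p := fun h => hdis' p (by simp) (h ▸ hv)
    simp only [Function.update_of_ne this]
  have u3 : UD (fun i => ε * z i) (Y' ++ [x']) = UD (fun i => ε * z i) (x' :: Y') := by
    have hG : Gz (fun i => ε * z i) (Y' ++ [x']) := by
      have := gz_eps hε.neg hG2.gz
      simpa using this
    exact HasRot.rot _ Y' [x'] b c hS2 (fun h => hb (m2 _ h)) (fun h => hc (m2 _ h)) hbc hG
  have hperm : (K ++ [(x, x')] ++ L).Perm ((x, x') :: (K ++ L)) := by
    rw [List.append_assoc]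
    exact List.perm_middle
  unfold WL
  rw [e1, e2, u2, u3]
  have hb1 : b ∉ x :: p :: Y := fun h => hb (m1 _ (by
    simp only [List.mem_cons, List.mem_append] at h ⊢
    tauto))
  have hc1 : c ∉ x :: p :: Y := fun h => hc (m1 _ (by
    simp only [List.mem_cons, List.mem_append] at h ⊢
    tauto))
  have hn1 : (x :: p :: Y).Nodup := by
    refine (List.Perm.nodup_iff ?_).1 hS1
    refine List.Perm.trans (List.Perm.cons p ?_) (List.Perm.swap x p Y)
    exact List.perm_append_comm (l₁ := Y) (l₂ := [x])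
  have hGx : Gk z (x :: Y) := hG1.sub fun v hv => by
    simp only [List.mem_cons, List.mem_append, List.not_mem_nil, or_false] at hv ⊢
    tauto
  have key := line_lo (ν := nuw w) (χ := chS (K ++ [(x, x')]) L k) (V' := UD (fun i => ε * z i) (x' :: Y'))
    (m := p) (q := k) (L := K ++ [(x, x')] ++ L) hε hn1 hb1 hc1 hbc hGx
  unfold SD at key
  have f1 : p ∉ L.map Prod.fst := by
    rw [hY] at hS1
    intro h
    refine (List.nodup_cons.1 hS1).1 ?_
    simp only [List.mem_append, List.mem_cons, List.not_mem_nil, or_false] at h ⊢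
    tauto
  have f2 : p ∉ (K ++ [(x, x')]).map Prod.fst := by
    rw [hY] at hS1
    intro h
    refine (List.nodup_cons.1 hS1).1 ?_
    simp only [List.map_append, List.map_cons, List.map_nil, List.mem_append, List.mem_cons,
      List.not_mem_nil, or_false] at h ⊢
    tauto
  have f3 : x ∉ L.map Prod.fst := by
    rw [hY] at hn1
    intro h
    refine (List.nodup_cons.1 hn1).1 ?_
    simp only [List.mem_cons, List.mem_append] at h ⊢
    tauto
  have hgd : Gd ((p, k) :: (x, x') :: (K ++ L)) := hO.gd.perm (hperm.cons _)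
  have hnd := nodK (w := w) (K := K) (L := L) (V := UD (fun i => -ε * z i) Y)
    (V' := UD (fun i => ε * z i) (x' :: Y')) (S := {w | w ∈ Y}) (S' := {w | w ∈ x' :: Y'}) hw
    (UD_supS _ _) (UD_supS _ _) ?_ hgd ?_ ?_ ?_ ?_ f1 f2 f3
  · rw [key, Wp_perm (nuw_neg w) hO.gd hperm, hnd]
    show _ = w⁻¹ * (Fr.c3 * _ * Wp (nuw w) (chS K L k) (UD (fun i => -ε * z i) Y)
      (UD (fun i => ε * z i) (x' :: Y')) x' k (K ++ L))
    ring
  · rw [Set.disjoint_left]
    intro v h1 h2
    exact hdis' v (by simp only [List.mem_cons, List.mem_append]; exact Or.inr (Or.inl h1))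
      (by
        have h2' : v ∈ x' :: Y' := h2
        simp only [List.mem_cons, List.mem_append, List.not_mem_nil, or_false] at h2' ⊢
        tauto)
  · intro h
    exact (List.nodup_cons.1 hS1).1 (by
      have h' : p ∈ Y := h
      simp [h'])
  · intro h
    have h' : x ∈ Y := h
    have := (List.nodup_cons.1 hn1).1
    exact this (by simp [h'])
  · intro h
    have h' : p ∈ x' :: Y' := h
    exact hdis' p (by simp) (by
      simp only [List.mem_cons, List.mem_append, List.not_mem_nil, or_false] at h' ⊢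
      tauto)
  · intro h
    have h' : x ∈ x' :: Y' := h
    exact hdis' x (by simp) (by
      simp only [List.mem_cons, List.mem_append, List.not_mem_nil, or_false] at h' ⊢
      tauto)

end lo

namespace OEo

section WL

variable {ι : Type*} [DecidableEq ι] [Finite ι] {w ε : ℂ} {z : ι → ℂ} {K L : List (ι × ι)}
  {A B : List ι} {p q g k b c : ι}

/-- the degree, the occupied line is the lowest one -/
theorem pol (hε : Sg ε) (hO : Ok K L (p :: A) B q g p k)
    (hb : b ∉ p :: (A ++ (L.map Prod.fst ++ q :: K.map Prod.fst)))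
    (hc : c ∉ p :: (A ++ (L.map Prod.fst ++ q :: K.map Prod.fst))) (hbc : b ≠ c)
    (hG : Gz z (A ++ (L.map Prod.fst ++ q :: K.map Prod.fst))) : ∃ P : ℂ[X],
      P.natDegree ≤ K.length + L.length + A.length ∧
      ∀ s, exp (I * s) ^ (K.length + L.length + A.length) *
        WL w ε (Function.update z p s) K L (p :: A) B q g p k = P.eval (exp (I * s) ^ 2) := by
  have hd := hO.disj
  have hl : (A ++ (L.map Prod.fst ++ q :: K.map Prod.fst)).length - 1 =
      K.length + L.length + A.length := by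
    simp only [List.length_append, List.length_map, List.length_cons]
    omega
  have hp : p ∉ B ++ (L.map Prod.snd ++ g :: K.map Prod.snd) := fun h =>
    Set.disjoint_left.1 hd (show p ∈ S1 K L (p :: A) q by simp [S1]) h
  obtain ⟨P, a1, a2⟩ := line_O (ν := nuw w) (χ := chS K L k) (q := k) (L := K ++ L) (p := p)
    (X := A ++ (L.map Prod.fst ++ q :: K.map Prod.fst))
    (V' := UD (fun i => ε * z i) (B ++ (L.map Prod.snd ++ g :: K.map Prod.snd))) hε hO.nd1 hb hc hbc hG
    (nuw_zero w) (UD_supS _ _) hd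
  rw [hl] at a1 a2
  refine ⟨P, a1, fun s => ?_⟩
  rw [← a2 s]
  congr 1
  unfold WL
  have e : UD (fun i => ε * Function.update z p s i) (B ++ (L.map Prod.snd ++ g :: K.map Prod.snd)) =
      UD (fun i => ε * z i) (B ++ (L.map Prod.snd ++ g :: K.map Prod.snd)) := by
    refine UD_congr fun x hx => ?_
    rw [Function.update_of_ne]
    rintro rfl
    exact hp hx
  rw [e]
  rfl

end WL

section can

variable {w ε q g : ℂ} {k : Fin 6}

/-- one ended line on each side, the second one is occupied, read on the canonical sites -/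
theorem read {ι : Type*} [DecidableEq ι] (hε : Sg ε) {z : ι → ℂ} {K L : List (ι × ι)}
    {s0 : Fin 6 → ι} (hs : Function.Injective s0) {u : ι} (hu : ∀ j, s0 j ≠ u) (hG : Gd (K ++ L))
    (hd : ∀ j, ∀ t ∈ K ++ L, s0 j ≠ t.1 ∧ s0 j ≠ t.2) (hdw : ∀ t ∈ K ++ L, u ≠ t.1 ∧ u ≠ t.2)
    (hk : k = 0 ∨ k = 1) (hz : ∀ t ∈ K ++ L, z t.2 = z t.1) {b y : ℂ}
    (h0 : exp (I * z (s0 0)) = q) (h1 : exp (I * z (s0 1)) = g) (hb : exp (I * z (s0 3)) = b)
    (h2 : exp (I * z u) = y) {K' L' : List ℂ} (hK : K.map (fun t => exp (I * z t.1)) = K')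
    (hL : L.map (fun t => exp (I * z t.1)) = L') :
    WL w ε z K L [s0 3] [u] (s0 0) (s0 1) u (s0 k) = WC w ε K' L' ![q, g, b, y, 1, 1] [2] [3] 3 k := by
  set s1 : Fin 6 → ι := s0 ∘ Equiv.swap 2 3 with hs1
  have hs1i : Function.Injective s1 := hs.comp (Equiv.injective _)
  have a0 : s1 0 = s0 0 := by
    rw [hs1]
    rfl
  have a1 : s1 1 = s0 1 := by
    rw [hs1]
    rfl
  have a2 : s1 2 = s0 3 := by
    rw [hs1]
    rfl
  have e0 : Function.update s1 3 u 0 = s0 0 := (Function.update_of_ne (by decide) _ _).trans a0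
  have e1 : Function.update s1 3 u 1 = s0 1 := (Function.update_of_ne (by decide) _ _).trans a1
  have e2 : Function.update s1 3 u 2 = s0 3 := (Function.update_of_ne (by decide) _ _).trans a2
  have e3 : Function.update s1 3 u 3 = u := Function.update_self _ _ _
  have ek : Function.update s1 3 u k = s0 k := by
    rcases hk with rfl | rfl
    · exact e0
    · exact e1
  have key := WL_eq_WC (w := w) hε (z := z) (K := K) (L := L) (s := Function.update s1 3 u)
    (hs := ?_) hG ?_ (A := [2]) (B := [3]) (by decide) (m := 3) (k := k) (by simp) hk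
    (fun t ht => by rw [hz t ht]) (v := ![q, g, b, y, 1, 1]) ?_ hK hL
  · rw [e0, e1, e3, ek] at key
    simp only [List.map_nil, List.map_cons, e2, e3] at key
    exact key
  · intro i j hij
    by_cases hi : i = 3
    · by_cases hj : j = 3
      · rw [hi, hj]
      · rw [hi, e3, Function.update_of_ne hj] at hij
        exact absurd hij.symm (hu _)
    · by_cases hj : j = 3
      · rw [hj, e3, Function.update_of_ne hi] at hij
        exact absurd hij (hu _)
      · rw [Function.update_of_ne hi, Function.update_of_ne hj] at hij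
        exact hs1i hij
  · intro j t ht
    by_cases hj : j = 3
    · rw [hj, e3]
      exact hdw t ht
    · rw [Function.update_of_ne hj]
      exact hd _ t ht
  · intro j hj
    simp only [List.cons_append, List.nil_append, List.mem_cons, List.not_mem_nil, or_false] at hj
    rcases hj with rfl | rfl | rfl | rfl
    · rw [e0, h0]
      rfl
    · rw [e1, h1]
      rfl
    · rw [e2, hb]
      rfl
    · rw [e3, h2]
      rfl

theorem core (hw : w ≠ 0) (hε : Sg ε) (hk : k = 0 ∨ k = 1) [∀ n m, HasRot (Sc n m)] (K L : List ℂ) (b : ℂ)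
    (hG : NUTP.G NUTP.th (b :: q :: g :: (K ++ L))) : ∃ P : ℂ[X],
      (∀ a, a ≠ 0 → a ^ (K.length + L.length + 1) * (fam w ε k q g).OE K L a b = P.eval (a ^ 2)) ∧
      (∀ x K', K = K' ++ [x] → P.eval (te ε ^ 10 * x ^ 2) =
        w⁻¹ * NUTP.dn (te ε) (K.length + L.length + 1) x (b :: q :: (K' ++ L)) *
          (fam w ε k q g).ER K' L b x) := by
  set z := zc K L ![q, g, 1, b, 1, 1] with hz
  have hKn : ∀ a ∈ K, a ≠ 0 := fun a ha => hG.mem_ne0 (by simp [ha])
  have hLn : ∀ a ∈ L, a ≠ 0 := fun a ha => hG.mem_ne0 (by simp [ha])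
  have hbn : b ≠ 0 := hG.mem_ne0 (by simp)
  have hqn : q ≠ 0 := hG.mem_ne0 (by simp)
  have hgn : g ≠ 0 := hG.mem_ne0 (by simp)
  have z0 : exp (I * z (sc 0)) = q := ex_zcs (j := 0) hqn
  have z1 : exp (I * z (sc 1)) = g := ex_zcs (j := 1) hgn
  have z3 : exp (I * z (sc 3)) = b := ex_zcs (j := 3) hbn
  have hO : Ok (Ic K.length L.length) (Jc K.length L.length) [sc 2, sc 3] [] (sc 0) (sc 1) (sc 2)
      (sc k) := ok_can (A := [2, 3]) (B := []) (by decide) (by simp) hk
  have hp1 : NUTP.G NUTP.th (b :: (L ++ q :: K)) := by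
    refine NUTP.G.perm NUTP.th8 (S := b :: q :: (K ++ L)) ?_ (hG.subl (by simp))
    exact ((List.perm_append_comm.cons q).trans List.perm_middle.symm).cons b
  have hp2 : NUTP.G NUTP.th (L ++ g :: K) := by
    refine NUTP.G.perm NUTP.th8 (S := g :: (K ++ L)) ?_ hG.tail.tail
    exact (List.perm_append_comm.cons g).trans List.perm_middle.symm
  have g1 : Gk z (sc 3 :: ((Jc K.length L.length).map Prod.fst ++
      sc 0 :: (Ic K.length L.length).map Prod.fst)) := Gk_can1 (A := [3]) (by decide) hp1
  have g2 : Gk z ((Jc K.length L.length).map Prod.snd ++ sc 1 :: (Ic K.length L.length).map Prod.snd) :=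
    Gk_can2 (B := []) (by decide) hp2
  have sp0 : ∀ j : Fin 6, j = 4 ∨ j = 5 → sc j ∉ sites (Ic K.length L.length) (Jc K.length L.length)
      [sc 2, sc 3] [] (sc 0) (sc 1) := by
    intro j hj
    refine sc4 (C := [0, 1, 2, 3]) (by rcases hj with rfl | rfl <;> decide) fun x hx => ?_
    simp only [sites, List.mem_append, List.mem_cons, List.mem_map, List.not_mem_nil, or_false] at hx ⊢
    rcases hx with (⟨t, ht, rfl⟩ | ⟨t, ht, rfl⟩) | rfl | rfl | rfl | rfl
    · exact Or.inr ⟨t, ht, Or.inl rfl⟩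
    · exact Or.inr ⟨t, ht, Or.inr rfl⟩
    · exact Or.inl ⟨0, by simp, rfl⟩
    · exact Or.inl ⟨1, by simp, rfl⟩
    · exact Or.inl ⟨2, by simp, rfl⟩
    · exact Or.inl ⟨3, by simp, rfl⟩
  have sp : ∀ j : Fin 6, j = 4 ∨ j = 5 →
      (sc j ∉ sc 2 :: ([sc 3] ++ ((Jc K.length L.length).map Prod.fst ++
        sc 0 :: (Ic K.length L.length).map Prod.fst))) := by
    intro j hj h
    refine sp0 j hj ?_
    simp only [sites, List.map_append, List.mem_append, List.mem_cons, List.not_mem_nil, or_false] at h ⊢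
    tauto
  have h45 : (sc 4 : Sc K.length L.length) ≠ sc 5 := fun h => by
    have := sc_inj h
    exact absurd this (by decide)
  obtain ⟨P, -, a2⟩ := pol (w := w) (A := [sc 3]) hε hO (sp 4 (Or.inl rfl)) (sp 5 (Or.inr rfl)) h45 g1.gz
  have hlen : (Ic K.length L.length).length + (Jc K.length L.length).length +
      ([sc 3] : List (Sc K.length L.length)).length = K.length + L.length + 1 := by
    simp [Ic, Jc]
  rw [hlen] at a2
  have eK := Ic_map (L := L) (v := ![q, g, 1, b, 1, 1]) hKn
  have eL := Jc_map (K := K) (v := ![q, g, 1, b, 1, 1]) hLn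
  have hGd : Gd (Ic K.length L.length ++ Jc K.length L.length) := (Gd_cons.1 hO.gd).2.2
  have hzp := zc_pair K L ![q, g, 1, b, 1, 1]
  refine ⟨P, ?_, ?_⟩
  · intro a ha
    have := a2 (lg a)
    rw [exp_lg ha] at this
    rw [← this]
    congr 1
    show WL w ε (zc K L ![q, g, a, b, 1, 1]) _ _ _ _ _ _ _ _ = _
    rw [vv, zc_update]
    rfl
  · -- the lower node
    intro x K' hK'
    obtain ⟨T, ⟨x1, x2⟩, t1, t2, t3⟩ := split_last (eK.trans hK')
    simp only at t3
    have t1' : Ic K.length L.length = T ++ [(x1, x2)] := t1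
    rw [t1'] at hO a2 g1 g2 hGd hzp sp0
    have hx2 : z x2 = z x1 := hzp (x1, x2) (by simp)
    have hnd := hO.nd1
    have k1 := a2 (z x1 - 3 * ε * lam)
    have hlo := WL_lo (z := z) (A := [sc 3]) (B := []) hw hε hO (b := sc 4) (c := sc 5)
      (sp0 4 (Or.inl rfl)) (sp0 5 (Or.inr rfl)) h45 g1 g2
    rw [hlo, pt_dn2 hε, t3] at k1
    rw [← k1]
    have hYn : ([sc 3] ++ ((Jc K.length L.length).map Prod.fst ++ sc 0 :: T.map Prod.fst)).Nodup := by
      simp only [List.map_append, List.map_cons, List.map_nil, List.cons_append, List.nil_append] at hnd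
      refine (List.nodup_cons.1 hnd).2.sublist ?_
      refine List.Sublist.cons_cons _ ?_
      exact List.Sublist.append_left (List.Sublist.cons_cons _ (List.sublist_append_left _ _)) _
    have hYe : (EL z ([sc 3] ++ ((Jc K.length L.length).map Prod.fst ++ sc 0 :: T.map Prod.fst))).Perm
        (b :: q :: (K' ++ L)) := by
      have e1 : EL z ([sc 3] ++ ((Jc K.length L.length).map Prod.fst ++ sc 0 :: T.map Prod.fst)) =
          b :: (L ++ q :: K') := by
        unfold EL
        rw [List.cons_append, List.nil_append, List.map_cons, List.map_append, List.map_cons,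
          List.map_map, List.map_map, z0, z3]
        exact congrArg₂ (fun a c => b :: (a ++ q :: c)) eL t2
      rw [e1]
      exact (List.perm_middle.trans (List.perm_append_comm.cons q)).cons b
    have hdn := dn_eq (z := z) (x := x1) hε hYn hYe (K.length + L.length + 1)
    rw [t3] at hdn
    rw [hdn]
    have hpm : (T ++ [(x1, x2)] ++ Jc K.length L.length).Perm
        ((x1, x2) :: (T ++ Jc K.length L.length)) := by
      rw [List.append_assoc]
      exact List.perm_middle
    have hGd' : Gd (T ++ Jc K.length L.length) := (Gd_cons.1 (hGd.perm hpm)).2.2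
    have hwd : ∀ t ∈ T ++ Jc K.length L.length, x2 ≠ t.1 ∧ x2 ≠ t.2 := by
      intro t ht
      have h2 := (Gd_cons.1 (hGd.perm hpm)).2.1 t ht
      exact ⟨h2.2.2.1, h2.2.2.2⟩
    have hout : ∀ j : Fin 6, ∀ t ∈ T ++ [(x1, x2)] ++ Jc K.length L.length,
        (sc j : Sc K.length L.length) ≠ t.1 ∧ sc j ≠ t.2 := by
      intro j t ht
      rw [← t1'] at ht
      exact sc_ne j t ht
    have hrd := read (w := w) (z := z) (K := T) (L := Jc K.length L.length) (s0 := sc) (u := x2) (q := q)
      (g := g) (k := k) hε sc_inj (fun j => (hout j (x1, x2) (by simp)).2) hGd'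
      (fun j t ht => hout j t (by
        simp only [List.mem_append, List.mem_cons, List.not_mem_nil] at ht ⊢
        tauto)) hwd hk
      (fun t ht => hzp t (by
        simp only [List.mem_append, List.mem_cons, List.not_mem_nil] at ht ⊢
        tauto)) z0 z1 z3 (by rw [hx2, t3]) t2 eL
    rw [hrd]
    show _ = _ * WC w ε K' L ![q, g, b, x, 1, 1] [2] [3] 3 k
    ring

end can

end OEo

variable {w ε q g : ℂ} {k : Fin 6}

/-- **The field `polOEo`.** -/
theorem fam_polOEo (hw : w ≠ 0) (hε : Sg ε) (hk : k = 0 ∨ k = 1) [∀ n m, HasRot (Sc n m)] (K L : List ℂ) (b : ℂ)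
    (hG' : NUTP.G (te ε) (b :: q :: g :: (K ++ L))) : ∃ P : ℂ[X],
      (∀ a, NUTP.G (te ε) (a :: b :: q :: g :: (K ++ L)) →
        a ^ (K.length + L.length + 1) * (fam w ε k q g).OE K L a b = P.eval (a ^ 2)) ∧
      (∀ x K', K.Perm (x :: K') → P.eval (te ε ^ 10 * x ^ 2) =
        w⁻¹ * NUTP.dn (te ε) (K.length + L.length + 1) x (b :: q :: (K' ++ L)) *
          (fam w ε k q g).ER K' L b x) := by
  have hG := of_te_G hε hG'
  obtain ⟨P, a2, -⟩ := OEo.core hw hε hk K L b hG
  refine ⟨P, fun a ha => a2 a ha.ne0, fun x K' hK => ?_⟩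
  have hK2 : K.Perm (K' ++ [x]) := hK.trans (List.perm_append_singleton x K').symm
  have hl : (K' ++ [x]).length = K.length := hK2.length_eq.symm
  obtain ⟨Q, b2, b3⟩ := OEo.core hw hε hk (K' ++ [x]) L b
    (hG.perm NUTP.th8 ((((hK2.append_right L).cons g).cons q).cons b))
  rw [hl] at b2 b3
  have hPQ : P = Q := by
    rw [← sub_eq_zero]
    refine NUTP.zero_of_gen NUTP.th8 hG fun a ha => ?_
    have ha0 : a ≠ 0 := ha.ne0
    have e1 : NUTP.G NUTP.th (a :: b :: (L ++ q :: K)) := by
      refine NUTP.G.perm NUTP.th8 (S := a :: b :: q :: (K ++ L)) ?_ (ha.subl (by simp))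
      exact (((List.perm_append_comm.cons q).trans List.perm_middle.symm).cons b).cons a
    have e2 : NUTP.G NUTP.th (L ++ g :: K) := by
      refine NUTP.G.perm NUTP.th8 (S := g :: (K ++ L)) ?_ ha.tail.tail.tail
      exact (List.perm_append_comm.cons g).trans List.perm_middle.symm
    have h1 : (fam w ε k q g).OE K L a b = (fam w ε k q g).OE (K' ++ [x]) L a b :=
      WC_permK hε hK2 (v := ![q, g, a, b, 1, 1]) (A := [2, 3]) (B := []) (by decide) (by simp) hk e1 e2
    rw [Polynomial.eval_sub, ← a2 a ha0, ← b2 a ha0, h1, sub_self]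
  rw [hPQ, b3 x K' rfl]

end Pool.Agent.WND
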