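import Pool.Agent.WND.F_ex
import Pool.Agent.WND.F_polR
import Pool.Agent.WND.F_polOE
import Pool.Agent.WND.F_polOEo
import Pool.Agent.WND.F_polEO
import Pool.Agent.WND.F_polEOo
import Pool.Agent.WND.F_polER
import Pool.Agent.WND.Swap

/-!
# The relations in the lines of both sides for the lattice family with winding weight (plan W, W1)
-/

set_option autoImplicit false

namespace Pool.Agent.WND

open Pool.Agent.NUF Pool.Agent Pool.Agent.NUU
open Pool.Agent.NUTV (HasRot Sg te te_one te_neg)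
open Pool.Agent.NUT2 (Sc)

variable [∀ n m : ℕ, HasRot (Sc n m)] {w ε : ℂ} {k : Fin 6} {q g : ℂ}

/-- The relations in the lines of the right side. -/
theorem fam_half (hw : w ≠ 0) (hε : Sg ε) (hk : k = 0 ∨ k = 1) :
    NUTP.Half (te ε) w q g (fam w ε k q g) where
  polR := polR hw hε hk
  polOE := polOE hε hk q g
  polOEo I J b hG := fam_polOEo hw hε hk I J b hG
  polEO I J b hG := fam_polEO hε hk I J b hG
  polEOo I J a hG := fam_polEOo hw hε hk q g I J a hG
  ex1 _ _ _ _ hG := fam_ex1 hε hk hG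
  ex2 _ _ _ _ hG := fam_ex2 hε hk hG
  polER I J h hG := fam_polER hε hk I J h hG

theorem fam_right (hw : w ≠ 0) : NUTP.Half NUTP.th w q g (fam w 1 0 q g) := by
  have h := fam_half (w := w) (ε := 1) (k := 0) (q := q) (g := g) hw (Or.inl rfl) (Or.inl rfl)
  rwa [te_one] at h

theorem fam_left (hw : w ≠ 0) : NUTP.Half NUTP.th⁻¹ w⁻¹ g q (fam w 1 0 q g).mir := by
  have h := fam_half (w := w⁻¹) (ε := -1) (k := 1) (q := g) (g := q) (inv_ne_zero hw) (Or.inr rfl) (Or.inr rfl)
  rw [fam_mir (Or.inl rfl)]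
  rw [te_neg] at h
  exact h

end Pool.Agent.WND
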