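import Pool.Agent.WND.U01

/-!
# Plan W: the inputs of the function side for `f0t d`, `fxt d` (helper96)

Real `|d| ≤ 1 / 10`; everything eventually in `j`, uniformly in `d`.

* `hd_ff`, `hd_fp`: `FD aL σL 1 0 1 j`; `hd_p0`, `hd_a1`; `hd_uf`, `hd_up`.
-/

set_option autoImplicit false

noncomputable section

open Complex Set Filter Topology
open Pool.Agent.PB.Rec (seg)
open NUP1 (l lpos)
open PBV (aL σL aL_eq σL_eq two_σL FD FD_zero FD_cons strip_open seg_Is ev_pow)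

namespace WND

theorem ga_le {d : ℝ} (hd : |d| ≤ 1 / 10) (z : ℂ) : ‖ga d z‖ ≤ Real.exp (4 / 15 * |z.im|) := by
  rw [norm_ga]
  refine Real.exp_le_exp.2 ?_
  have h1 : d * z.im ≤ |d| * |z.im| := by
    rw [← abs_mul]
    exact le_abs_self _
  nlinarith [abs_nonneg z.im]

/-- (U0) for `f0t d`, `fxt d` -/
theorem u0t : (∀ᶠ j : ℕ in atTop, ∀ d : ℝ, |d| ≤ 1 / 10 → ∀ z : ℂ, |z.re| ≤ 18 / 5 * l →
      |z.im| ≤ 3 / 20 * Real.log j + 1 → ‖f0t d j z‖ ≤ (j : ℝ) ^ (1 : ℝ)) ∧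
    ∀ᶠ j : ℕ in atTop, ∀ d : ℝ, |d| ≤ 1 / 10 → ∀ s ∈ Icc (0 : ℝ) 1, ∀ z : ℂ,
      |z.re| ≤ 18 / 5 * l → |z.im| ≤ 3 / 20 * Real.log j + 1 →
      ‖fxt d j (I * s) z‖ ≤ (j : ℝ) ^ (1 : ℝ) := by
  have key : ∀ᶠ j : ℕ in atTop, ∀ y : ℝ, |y| ≤ 3 / 20 * Real.log j + 1 →
      Real.exp (4 / 15 * |y|) * (2 * (Real.exp 2 * (j : ℝ) ^ (2 / 5 : ℝ))) ≤ (j : ℝ) ^ (1 : ℝ) := by
    filter_upwards [ev_pow (Real.exp (4 / 15) * (2 * Real.exp 2)) (show (22 / 50 : ℝ) < 1 by norm_num),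
      eventually_ge_atTop 1] with j h1 h2 y hy
    have hj : (0 : ℝ) < j := by exact_mod_cast h2
    refine le_trans ?_ h1
    have e1 : Real.exp (4 / 15 * |y|) ≤ Real.exp (4 / 15) * (j : ℝ) ^ (2 / 50 : ℝ) := by
      rw [Real.rpow_def_of_pos hj, ← Real.exp_add]
      refine Real.exp_le_exp.2 ?_
      linarith
    have e2 : (j : ℝ) ^ (22 / 50 : ℝ) = (j : ℝ) ^ (2 / 50 : ℝ) * (j : ℝ) ^ (2 / 5 : ℝ) := by
      rw [← Real.rpow_add hj]
      norm_num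
    rw [e2]
    calc Real.exp (4 / 15 * |y|) * (2 * (Real.exp 2 * (j : ℝ) ^ (2 / 5 : ℝ))) ≤
        (Real.exp (4 / 15) * (j : ℝ) ^ (2 / 50 : ℝ)) * (2 * (Real.exp 2 * (j : ℝ) ^ (2 / 5 : ℝ))) :=
          mul_le_mul_of_nonneg_right e1 (by positivity)
      _ = _ := by ring
  constructor
  · filter_upwards [u0z.1, key] with j h1 h2 d hd z hz hz'
    rw [f0t_eq, norm_mul]
    refine (mul_le_mul (ga_le hd z) (h1 (zt d) (norm_zt d) z hz hz') (norm_nonneg _)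
      (Real.exp_pos _).le).trans (le_trans ?_ (h2 z.im hz'))
    refine mul_le_mul_of_nonneg_left ?_ (Real.exp_pos _).le
    have : 0 ≤ Real.exp 2 * (j : ℝ) ^ (2 / 5 : ℝ) := by positivity
    linarith
  · filter_upwards [u0z.2, key] with j h1 h2 d hd s hs z hz hz'
    rw [fxt_eq, norm_mul]
    exact (mul_le_mul (ga_le hd z) (h1 (zt d) (norm_zt d) s hs z hz hz') (norm_nonneg _)
      (Real.exp_pos _).le).trans (h2 z.im hz')

theorem hs_aL : aL + σL = 18 / 5 * l := by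
  rw [aL_eq, σL_eq]
  ring

theorem hr_aL : aL + σL < 43 / 10 * l := by
  have := lpos
  rw [hs_aL]
  linarith

theorem hr_σL : σL < 13 / 10 * l := by
  have := lpos
  rw [σL_eq]
  linarith

theorem cast_aL : ((aL : ℝ) : ℂ) = 3 * l := by
  rw [aL_eq]
  push_cast
  ring

theorem hd_ff : ∀ᶠ j : ℕ in atTop, ∀ d : ℝ, |d| ≤ 1 / 10 → FD aL σL 1 0 1 j (f0t d j) := by
  filter_upwards [u0t.1] with j hj d hd
  obtain ⟨Q, hQ, hz⟩ := f0t_zeros d j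
  refine FD_zero hr_aL hr_σL (fun z h => (f0t_diff d j).differentiableAt ((strip_open _).mem_nhds h))
    (fun z h => hQ.differentiableAt ((strip_open _).mem_nhds h)) (fun z _ => ?_) ?_
  · rw [cast_aL]
    exact hz z
  · intro z h1 h2
    rw [two_σL] at h2
    rw [hs_aL] at h1
    exact hj d hd z h1 h2

theorem hd_fp : ∀ᶠ j : ℕ in atTop, ∀ d : ℝ, |d| ≤ 1 / 10 → ∀ x ∈ seg 0,
    FD aL σL 1 0 1 j (fun z => fxt d j x z) := by
  have hl := lpos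
  filter_upwards [u0t.2, eventually_ge_atTop 1] with j hj hj1 d hd x hx
  obtain ⟨s, hs1, rfl⟩ := seg_Is hx
  have hx0 : |(I * (s : ℂ)).re| ≤ l / 2 := by
    simp
    linarith
  obtain ⟨Q, hQ, hz⟩ := fxt_zeros d j hx0
  refine FD_cons hj1 (x := I * s) (by simp) (by simp [abs_of_nonneg hs1.1, hs1.2]) hr_aL hr_σL
    (fun z h => (fxt_diff d j hx0).differentiableAt ((strip_open _).mem_nhds h))
    (fun z h => hQ.differentiableAt ((strip_open _).mem_nhds h)) (fun z _ => ?_) ?_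
  · rw [cast_aL]
    exact hz z
  · intro z h1 h2
    rw [two_σL] at h2
    rw [hs_aL] at h1
    exact hj d hd s hs1 z h1 h2

theorem hd_p0 (d : ℂ) (j : ℕ) (z : ℂ) : fxt d j 0 z = f0t d (j + 1) z := fxt_zero d j z

theorem hd_a1 (d : ℂ) (j : ℕ) {x : ℂ} (hx : x ∈ seg 0) : fxt d j x (x + aL) = f0t d j x := by
  have hl := lpos
  obtain ⟨s, hs1, rfl⟩ := seg_Is hx
  have hx0 : |(I * (s : ℂ)).re| ≤ l / 2 := by
    simp
    linarith
  rw [cast_aL]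
  exact fxt_leg d j hx0

/-- (U1) at the rows `0`, imaginary axis -/
theorem hd_uf {ε : ℝ} (hε : 0 < ε) : ∀ᶠ j : ℕ in atTop, ∀ d : ℝ, |d| ≤ 1 / 10 → ∀ z : ℂ,
    z.re = 0 → |z.im| ≤ 9 / 80 * Real.log j + 1 →
    ‖f0t d j z‖ ≤ (j : ℝ) ^ ε * Real.exp ((2 + 4 / 15) * |z.im|) := by
  filter_upwards [(u1z ε hε).1] with j hj d hd z hz hz'
  rw [f0t_eq, norm_mul]
  refine (mul_le_mul (ga_le hd z) (hj (zt d) (norm_zt d) z hz hz') (norm_nonneg _)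
    (Real.exp_pos _).le).trans (le_of_eq ?_)
  rw [show (2 + 4 / 15) * |z.im| = 4 / 15 * |z.im| + 2 * |z.im| by ring, Real.exp_add]
  ring

/-- (U1) with one moved row -/
theorem hd_up {ε : ℝ} (hε : 0 < ε) : ∀ᶠ j : ℕ in atTop, ∀ d : ℝ, |d| ≤ 1 / 10 → ∀ x ∈ seg 0,
    ∀ t ∈ Icc (0 : ℝ) 1, ‖fxt d j x (I * t)‖ ≤ (j : ℝ) ^ ε := by
  filter_upwards [(u1z (ε / 2) (by linarith)).2, ev_pow (Real.exp (4 / 15))
    (show ε / 2 < ε by linarith)] with j hj h2 d hd x hx t ht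
  obtain ⟨s, hs1, rfl⟩ := seg_Is hx
  rw [fxt_eq, norm_mul]
  have h3 : ‖ga d (I * t)‖ ≤ Real.exp (4 / 15) := by
    refine (ga_le hd _).trans (Real.exp_le_exp.2 ?_)
    have e1 : (I * (t : ℂ)).im = t := by simp
    rw [e1, abs_of_nonneg ht.1]
    linarith [ht.2]
  exact (mul_le_mul h3 (hj (zt d) (norm_zt d) s hs1 t ht) (norm_nonneg _)
    (Real.exp_pos _).le).trans h2

/-- continuity in `d` at the rows `0` -/
theorem f0t_cont (j : ℕ) {z : ℂ} (hz : |z.re| < 43 / 10 * l) : Continuous fun d : ℝ => f0t d j z := by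
  rw [continuous_iff_continuousAt]
  intro d
  have t : Tendsto (fun d : ℝ => (d : ℂ)) (𝓝 d) (𝓝 (d : ℂ)) :=
    Complex.continuous_ofReal.tendsto d
  exact ft_tendsto (F := 𝓝 d) (d := fun d : ℝ => (d : ℂ)) (z := fun _ => z)
    (x := fun _ _ => (0 : ℂ)) t tendsto_const_nhds (fun i => tendsto_const_nhds)
    (Eventually.of_forall fun _ => Pool.Agent.PB.Rws_zero j) (Pool.Agent.PB.Rws_zero j) hz

end WND

end
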