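import Pool.Agent.PB.FDGlue

/-!
# Plan W: the value at a height, growth exponent `G` (helper12)

`value_tallG`: `PBV.value_tall` with `|f j z| ≤ j^ε e^{G |Im z|}` on `Re z = 0`, `G ≥ 0` in place of `2`.
-/

set_option autoImplicit false

noncomputable section

open Complex MeasureTheory Set Filter Topology
open PBV

namespace WNDF

/-- the value at a height, growth exponent `G` -/
theorem value_tallG {a σ ρ y₀ b₀ ε₀ x₁ c G : ℝ} (C : ℝ) (hG : 0 ≤ G) (hρ : 0 ≤ ρ) (hρσ : ρ < σ) (hσ : σ < a)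
    (hb : 0 ≤ b₀) (hbσ : b₀ < σ) (hy : 0 ≤ y₀) (hε : 0 < ε₀) (hε1 : ε₀ < 1) (hx : 0 < x₁)
    (hx1 : x₁ ≤ (1 - ε₀) * (2 * σ / Real.pi)) (hc : 0 ≤ c) :
    ∃ K0 : ℕ, ∀ K ≥ K0, ∀ (C' : ℝ) (f : ℕ → ℂ → ℂ), (∀ᶠ j : ℕ in atTop, FD a σ y₀ b₀ C j (f j)) →
      (∀ ε : ℝ, 0 < ε → ∀ᶠ j : ℕ in atTop, ∀ z : ℂ, z.re = 0 → |z.im| ≤ x₁ * Real.log j + 1 →
        ‖f j z‖ ≤ (j : ℝ) ^ ε * Real.exp (G * |z.im|)) →
      (∀ᶠ j : ℕ in atTop, ∀ k ∈ Finset.Icc (-(K : ℤ)) K, k ≠ 0 →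
        ‖kc a σ ε₀ j (f j) k‖ ≤ C' * (j : ℝ) ^ (-c)) →
      ∀ ε : ℝ, 0 < ε → ∀ᶠ j : ℕ in atTop, ∀ z : ℂ, |z.re| ≤ a + ρ → |z.im| ≤ x₁ * Real.log j →
        ‖f j z - kc a σ ε₀ j (f j) 0‖ ≤
          (j : ℝ) ^ (-(c * (1 - |z.im| / (x₁ * Real.log j))) + ε) * Real.exp (G * |z.im|) := by
  have hpi := Real.pi_pos
  obtain ⟨K0, hK0⟩ := ktall (a := a) (σ := σ) (ρ := ρ) C (c + 1) hρ hρσ hσ hb hbσ hy hε hε1
  refine ⟨K0, fun K hK C' f hfd hU hG ε hε' => ?_⟩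
  obtain ⟨V, hV0, N0, hN0⟩ := hK0 K hK
  set C1 : ℝ := max C' 1 with hC1
  have hC11 : 1 ≤ C1 := le_max_right _ _
  -- the constant
  set B : ℝ := 1 + 2 * K * (C1 * max (V * (2 * Real.exp G)) 1) with hB
  have hB1 : 1 ≤ B := by
    have : 0 ≤ 2 * K * (C1 * max (V * (2 * Real.exp G)) 1) := by positivity
    linarith
  have hlog : Tendsto (fun N : ℕ => Real.log N) atTop atTop :=
    Real.tendsto_log_atTop.comp tendsto_natCast_atTop_atTop
  filter_upwards [hfd, hU (ε / 2) (by positivity), hG, eventually_ge_atTop N0, eventually_ge_atTop 2,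
    hlog.eventually_ge_atTop (Real.log B / (ε / 2)), hlog.eventually_gt_atTop 0]
    with j h1 h2 h3 h4 h5 h6 hL0 z hz hzi
  set L := Real.log j with hL
  have hj0 : (0 : ℝ) < j := by
    have : 0 < j := by omega
    exact_mod_cast this
  have hj1 : (1 : ℝ) ≤ j := by
    have : 1 ≤ j := by omega
    exact_mod_cast this
  have hje : ∀ x : ℝ, (j : ℝ) ^ x = Real.exp (x * L) := by
    intro x
    rw [Real.rpow_def_of_pos hj0, mul_comm]
  set τ := x₁ * L with hτ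
  have hτ0 : 0 < τ := by positivity
  have hτ1 : τ ≤ (1 - ε₀) * (2 * σ / Real.pi * L) := by
    calc τ ≤ (1 - ε₀) * (2 * σ / Real.pi) * L := by rw [hτ]; gcongr
      _ = _ := by ring
  set S : ℝ := (j : ℝ) ^ (ε / 2) * Real.exp (G * (τ + 1)) with hS
  have hS1 : 1 ≤ S := by
    rw [hS]
    have e1 : 1 ≤ (j : ℝ) ^ (ε / 2) := Real.one_le_rpow hj1 (by positivity)
    have e2 : 1 ≤ Real.exp (G * (τ + 1)) := Real.one_le_exp (by positivity)
    nlinarith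
  have him : ∀ t ∈ Icc (0 : ℝ) 1, ∀ w : ℂ, w.re = 0 → |w.im| = τ + t → ‖f j w‖ ≤ S := by
    intro t ht w hw hwi
    refine (h2 w hw (by rw [hwi]; linarith [ht.2])).trans ?_
    rw [hS, hwi]
    have : τ + t ≤ τ + 1 := by linarith [ht.2]
    gcongr
  have hIt : ∀ t ∈ Icc (0 : ℝ) 1, (I * (τ + t) : ℂ).re = 0 ∧ |(I * (τ + t) : ℂ).im| = τ + t := by
    intro t ht
    have e1 : (I * (τ + t) : ℂ) = I * ((τ + t : ℝ) : ℂ) := by push_cast; ring
    rw [e1]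
    constructor
    · simp
    · simp only [mul_im, I_re, ofReal_im, mul_zero, I_im, ofReal_re, one_mul, zero_add]
      rw [abs_of_nonneg (by linarith [ht.1])]
  have key := hN0 j h4 (f j) h1 τ S (C1 * (j : ℝ) ^ (-c)) |z.im| hτ0 hτ1 (abs_nonneg _) hzi
    (fun t ht => him t ht _ (hIt t ht).1 (hIt t ht).2)
    (fun t ht => him t ht _ (by rw [neg_re, (hIt t ht).1, neg_zero]) (by
      rw [neg_im, abs_neg]; exact (hIt t ht).2))
    (fun k hk hk0 => (h3 k hk hk0).trans (by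
      have : C' ≤ C1 := le_max_left _ _
      have := Real.rpow_nonneg hj0.le (-c)
      gcongr)) z hz le_rfl
  refine key.trans ?_
  set θ := |z.im| / τ with hθ
  have hθ0 : 0 ≤ θ := by positivity
  have hθ1 : θ ≤ 1 := by rw [hθ, div_le_one hτ0]; exact hzi
  have hθτ : θ * τ = |z.im| := by rw [hθ]; field_simp
  -- the first factor
  have f1 : (C1 * (j : ℝ) ^ (-c)) ^ (1 - θ) ≤ C1 * (j : ℝ) ^ (-(c * (1 - θ))) := by
    rw [Real.mul_rpow (by linarith) (by positivity), ← Real.rpow_mul hj0.le]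
    have e1 : C1 ^ (1 - θ) ≤ C1 := by
      calc C1 ^ (1 - θ) ≤ C1 ^ (1 : ℝ) := Real.rpow_le_rpow_of_exponent_le hC11 (by linarith)
        _ = C1 := Real.rpow_one _
    rw [show -c * (1 - θ) = -(c * (1 - θ)) by ring]
    gcongr
  -- the second factor
  have f2 : (V * (S + (j : ℝ) ^ (-(c + 1)))) ^ θ ≤
      max (V * (2 * Real.exp G)) 1 * ((j : ℝ) ^ (ε / 2) * Real.exp (G * |z.im|)) := by
    have e1 : (j : ℝ) ^ (-(c + 1)) ≤ 1 := Real.rpow_le_one_of_one_le_of_nonpos hj1 (by linarith)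
    have e2 : V * (S + (j : ℝ) ^ (-(c + 1))) ≤ max (V * (2 * Real.exp G)) 1 *
        ((j : ℝ) ^ (ε / 2) * Real.exp (G * τ)) := by
      calc V * (S + (j : ℝ) ^ (-(c + 1))) ≤ V * (2 * S) := by
            have : S + (j : ℝ) ^ (-(c + 1)) ≤ 2 * S := by linarith
            gcongr
        _ = V * (2 * Real.exp G) * ((j : ℝ) ^ (ε / 2) * Real.exp (G * τ)) := by
            rw [hS, mul_add, Real.exp_add]
            ring_nf
        _ ≤ _ := by
            have := le_max_left (V * (2 * Real.exp G)) 1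
            gcongr
    have hS0 : 0 ≤ V * (S + (j : ℝ) ^ (-(c + 1))) := by positivity
    have hM1 : 1 ≤ max (V * (2 * Real.exp G)) 1 := le_max_right _ _
    calc (V * (S + (j : ℝ) ^ (-(c + 1)))) ^ θ ≤ (max (V * (2 * Real.exp G)) 1 *
          ((j : ℝ) ^ (ε / 2) * Real.exp (G * τ))) ^ θ := Real.rpow_le_rpow hS0 e2 hθ0
      _ = (max (V * (2 * Real.exp G)) 1) ^ θ * (((j : ℝ) ^ (ε / 2)) ^ θ * (Real.exp (G * τ)) ^ θ) := by
          rw [Real.mul_rpow (by linarith) (by positivity), Real.mul_rpow (by positivity) (by positivity)]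
      _ ≤ _ := by
          have g1 : (max (V * (2 * Real.exp G)) 1) ^ θ ≤ max (V * (2 * Real.exp G)) 1 := by
            calc _ ≤ (max (V * (2 * Real.exp G)) 1) ^ (1 : ℝ) :=
                  Real.rpow_le_rpow_of_exponent_le hM1 hθ1
              _ = _ := Real.rpow_one _
          have g2 : ((j : ℝ) ^ (ε / 2)) ^ θ ≤ (j : ℝ) ^ (ε / 2) := by
            have : 1 ≤ (j : ℝ) ^ (ε / 2) := Real.one_le_rpow hj1 (by positivity)
            calc _ ≤ ((j : ℝ) ^ (ε / 2)) ^ (1 : ℝ) := Real.rpow_le_rpow_of_exponent_le this hθ1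
              _ = _ := Real.rpow_one _
          have g3 : (Real.exp (G * τ)) ^ θ = Real.exp (G * |z.im|) := by
            rw [← Real.exp_mul]
            congr 1
            rw [← hθτ]
            ring
          rw [g3]
          gcongr
  -- the error
  have f3 : (j : ℝ) ^ (-(c + 1)) ≤ (j : ℝ) ^ (-(c * (1 - θ)) + ε / 2) * Real.exp (G * |z.im|) := by
    have e1 : (j : ℝ) ^ (-(c + 1)) ≤ (j : ℝ) ^ (-(c * (1 - θ)) + ε / 2) :=
      Real.rpow_le_rpow_of_exponent_le hj1 (by nlinarith)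
    have e2 : 1 ≤ Real.exp (G * |z.im|) := Real.one_le_exp (by positivity)
    have e3 : 0 ≤ (j : ℝ) ^ (-(c * (1 - θ)) + ε / 2) := by positivity
    nlinarith
  have f4 : 2 * K * ((C1 * (j : ℝ) ^ (-c)) ^ (1 - θ) * (V * (S + (j : ℝ) ^ (-(c + 1)))) ^ θ) ≤
      2 * K * (C1 * max (V * (2 * Real.exp G)) 1) *
        ((j : ℝ) ^ (-(c * (1 - θ)) + ε / 2) * Real.exp (G * |z.im|)) := by
    have e1 : (C1 * (j : ℝ) ^ (-c)) ^ (1 - θ) * (V * (S + (j : ℝ) ^ (-(c + 1)))) ^ θ ≤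
        (C1 * (j : ℝ) ^ (-(c * (1 - θ)))) * (max (V * (2 * Real.exp G)) 1 *
          ((j : ℝ) ^ (ε / 2) * Real.exp (G * |z.im|))) := by
      have e2 : 0 ≤ (V * (S + (j : ℝ) ^ (-(c + 1)))) ^ θ := Real.rpow_nonneg (by positivity) _
      exact mul_le_mul f1 f2 e2 (by positivity)
    calc _ ≤ 2 * K * ((C1 * (j : ℝ) ^ (-(c * (1 - θ)))) * (max (V * (2 * Real.exp G)) 1 *
          ((j : ℝ) ^ (ε / 2) * Real.exp (G * |z.im|)))) := by gcongr
      _ = 2 * K * (C1 * max (V * (2 * Real.exp G)) 1) *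
          (((j : ℝ) ^ (-(c * (1 - θ))) * (j : ℝ) ^ (ε / 2)) * Real.exp (G * |z.im|)) := by ring
      _ = _ := by rw [← Real.rpow_add hj0]
  have f5 : B ≤ (j : ℝ) ^ (ε / 2) := by
    rw [hje]
    rw [div_le_iff₀ (by positivity)] at h6
    calc B = Real.exp (Real.log B) := (Real.exp_log (by linarith)).symm
      _ ≤ _ := Real.exp_le_exp.2 (by linarith)
  set X := (j : ℝ) ^ (-(c * (1 - θ)) + ε / 2) * Real.exp (G * |z.im|) with hX
  have hX0 : 0 ≤ X := by positivity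
  calc (j : ℝ) ^ (-(c + 1)) + 2 * K * ((C1 * (j : ℝ) ^ (-c)) ^ (1 - θ) *
        (V * (S + (j : ℝ) ^ (-(c + 1)))) ^ θ) ≤ X + 2 * K * (C1 * max (V * (2 * Real.exp G)) 1) * X :=
        add_le_add f3 f4
    _ = B * X := by rw [hB]; ring
    _ ≤ (j : ℝ) ^ (ε / 2) * X := by gcongr
    _ = _ := by
      rw [hX, ← mul_assoc, ← Real.rpow_add hj0]
      congr 2
      ring

end WNDF
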