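import Pool.Agent.WND.RecWF
import Pool.Agent.WND.TallG
import Pool.Agent.WND.Seq
import Pool.Agent.PB.EPrOf

/-!
# Plan W: the function side with a twist, uniform in an index (helper12)

`f i j` = the function with `j` rows at `0`, twist `d i`, without the monodromy; `Psi i j z x` = the same
with one more row at `x`.

* `FunHW d Dd G C f Psi`: zeros at the rows and crude bound (`FD`), `Psi i j z 0 = f i (j + 1) z`, (A1)
  `Psi i j (x + 3l) x = f i j x`, sharp bounds (growth exponent `G`), all uniform in `i`;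
* `EPrW c d Psi`: the first order identity with the twisted derivative;
* **`FunHW.out`**: with `g i j` = the zero coefficient of `f i j` (`bK (f i) j 0`), `ν i = (2/3) (d i)²`:
  `FunOW`: `‖g i (j + 1) (1 + ν i / j) - g i j‖ ≤ C j^(-(1+c))`, `‖g i j - G∞ i j^(-ν i)‖ ≤ C j^(-c)`,
  `‖f i j z - g i j‖ ≤ C j^(-c)` (`|Re z| ≤ 3l`, `|Im z| ≤ 2`) and the value at every height, one constant.
-/

set_option autoImplicit false

noncomputable section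

open Complex MeasureTheory Set Filter Topology
open Pool.Agent.PB.Rec (EL EL_coef EL_add EL_sub EL_le ReR seg Bx Op)
open PBV (FD aL σL aL_pos σL_pos σL_lt two_σL pi_div_aL kL log_ev bK aK pow_ev one_le_aL ball_box rP rM
  field_diff mem_seg0)

namespace WNDF

variable {ι : Type*}

/-- the hypotheses of the function side, with a twist -/
structure FunHW (d : ι → ℝ) (Dd G C : ℝ) (f : ι → ℕ → ℂ → ℂ) (Psi : ι → ℕ → ℂ → ℂ → ℂ) : Prop where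
  dd : ∀ i, |d i| ≤ Dd
  ff : ∀ᶠ j : ℕ in atTop, ∀ i, FD aL σL 1 0 C j (f i j)
  fp : ∀ᶠ j : ℕ in atTop, ∀ i, ∀ x ∈ seg 0, FD aL σL 1 0 C j (fun z => Psi i j z x)
  p0 : ∀ᶠ j : ℕ in atTop, ∀ i z, Psi i j z 0 = f i (j + 1) z
  a1 : ∀ᶠ j : ℕ in atTop, ∀ i, ∀ x ∈ seg 0, Psi i j (x + aL) x = f i j x
  uf : ∀ ε : ℝ, 0 < ε → ∀ᶠ j : ℕ in atTop, ∀ i, ∀ z : ℂ, z.re = 0 →
    |z.im| ≤ 9 / 80 * Real.log j + 1 → ‖f i j z‖ ≤ (j : ℝ) ^ ε * Real.exp (G * |z.im|)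
  up : ∀ ε : ℝ, 0 < ε → ∀ᶠ j : ℕ in atTop, ∀ i, ∀ x ∈ seg 0, ∀ t ∈ Icc (0 : ℝ) 1,
    ‖Psi i j (I * t) x‖ ≤ (j : ℝ) ^ ε

/-- the first order identity with a twist, uniform in the index -/
def EPrW (c : ℝ) (d : ι → ℝ) (Psi : ι → ℕ → ℂ → ℂ → ℂ) : Prop :=
  ∃ C' : ℝ, ∀ᶠ j : ℕ in atTop, ∀ i, ∀ s ∈ Icc (0 : ℝ) 1, ∀ t ∈ Icc (0 : ℝ) 1, ∃ D : ℂ,
    HasDerivAt (fun s : ℝ => Psi i j (I * t) (I * s)) D s ∧
    ‖D - (1 / j : ℝ) * OpW (8 / 3) (1 / 8) (-(I / 2)) (d i) (fun z => Psi i j z (I * s))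
      (exp (I * (8 / 3 : ℝ) * (I * s))) (I * t)‖ ≤ C' * (j : ℝ) ^ (-(1 + c))

/-- the exponent of the zero mode -/
def nuW (d : ℝ) : ℝ := 2 / 3 * d ^ 2

theorem nuW_nonneg (d : ℝ) : 0 ≤ nuW d := by
  unfold nuW
  positivity

theorem nuW_le {d Dd : ℝ} (h : |d| ≤ Dd) : nuW d ≤ nuW Dd := by
  unfold nuW
  have : d ^ 2 ≤ Dd ^ 2 := sq_le_sq' (by linarith [(abs_le.1 h).1]) (abs_le.1 h).2
  linarith

/-- the output of the function side, with a twist -/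
structure FunOW (c G : ℝ) (d : ι → ℝ) (f : ι → ℕ → ℂ → ℂ) (g : ι → ℕ → ℂ) (ginf : ι → ℂ) : Prop where
  step : ∃ C' : ℝ, ∀ᶠ j : ℕ in atTop, ∀ i, ‖g i (j + 1) * (1 + ((nuW (d i) / j : ℝ) : ℂ)) - g i j‖ ≤
    C' * (j : ℝ) ^ (-(1 + c))
  lim : ∃ C' : ℝ, 0 ≤ C' ∧ ∀ᶠ j : ℕ in atTop, ∀ i,
    ‖g i j - ginf i * (((j : ℝ) ^ (-nuW (d i)) : ℝ) : ℂ)‖ ≤ C' * (j : ℝ) ^ (-c)
  box : ∃ C' : ℝ, 0 ≤ C' ∧ ∀ᶠ j : ℕ in atTop, ∀ i, ∀ z : ℂ, |z.re| ≤ aL → |z.im| ≤ 2 →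
    ‖f i j z - g i j‖ ≤ C' * (j : ℝ) ^ (-c)
  val : ∀ ρ : ℝ, 0 ≤ ρ → ρ < σL → ∀ ε : ℝ, 0 < ε → ∀ᶠ j : ℕ in atTop, ∀ i, ∀ z : ℂ, |z.re| ≤ aL + ρ →
    |z.im| ≤ 9 / 80 * Real.log j → ‖f i j z - g i j‖ ≤
      (j : ℝ) ^ (-(c * (1 - |z.im| / (9 / 80 * Real.log j))) + ε) * Real.exp (G * |z.im|)

variable {d : ι → ℝ} {Dd G C : ℝ} {f : ι → ℕ → ℂ → ℂ} {Psi : ι → ℕ → ℂ → ℂ → ℂ}

/-- K-terms of `f` -/
theorem FunHW.kf (h : FunHW d Dd G C f Psi) (e : ℝ) {ρ : ℝ} (hρ : 0 ≤ ρ) (hρσ : ρ < σL) :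
    ∃ K0 : ℕ, ∀ K ≥ K0, ∀ᶠ j : ℕ in atTop, ∀ i, ∀ z : ℂ, |z.re| ≤ aL + ρ → |z.im| ≤ 2 →
      ‖f i j z - EL (8 / 3) K (bK (f i) j) z‖ ≤ (j : ℝ) ^ (-e) := by
  obtain ⟨K0, hK0⟩ := kL C e hρ hρσ
  refine ⟨K0, fun K hK => ?_⟩
  obtain ⟨V, -, hV⟩ := hK0 K hK
  filter_upwards [hV, h.ff, log_ev (25 / 3)] with j h1 h2 h3 i z hz hzi
  exact (h1 _ (h2 i)).1 z hz (by linarith)

/-- K-terms of `Psi (., x)` -/
theorem FunHW.kp (h : FunHW d Dd G C f Psi) (e : ℝ) {ρ : ℝ} (hρ : 0 ≤ ρ) (hρσ : ρ < σL) :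
    ∃ K0 : ℕ, ∀ K ≥ K0, ∀ᶠ j : ℕ in atTop, ∀ i, ∀ x ∈ seg 0, ∀ z : ℂ, |z.re| ≤ aL + ρ → |z.im| ≤ 2 →
      ‖Psi i j z x - EL (8 / 3) K (aK (Psi i) j x) z‖ ≤ (j : ℝ) ^ (-e) := by
  obtain ⟨K0, hK0⟩ := kL C e hρ hρσ
  refine ⟨K0, fun K hK => ?_⟩
  obtain ⟨V, -, hV⟩ := hK0 K hK
  filter_upwards [hV, h.fp, log_ev (25 / 3)] with j h1 h2 h3 i x hx z hz hzi
  exact (h1 _ (h2 i x hx)).1 z hz (by linarith)

/-- `Psi` in the box -/
theorem FunHW.bd (h : FunHW d Dd G C f Psi) {ε : ℝ} (hε : 0 < ε) : ∀ᶠ j : ℕ in atTop, ∀ i, ∀ x ∈ seg 0,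
    ∀ z : ℂ, |z.re| ≤ aL → |z.im| ≤ 2 → ‖Psi i j z x‖ ≤ (j : ℝ) ^ ε := by
  obtain ⟨K0, hK0⟩ := kL C 1 (ρ := 0) le_rfl σL_pos
  obtain ⟨V, hV0, hV⟩ := hK0 K0 le_rfl
  set E : ℝ := (2 * K0 + 1) * Real.exp (|(8 / 3 : ℝ)| * K0 * 2) with hE
  have hE0 : 0 < E := by positivity
  filter_upwards [hV, h.fp, h.up (ε / 2) (by positivity), log_ev (25 / 3),
    pow_ev (show 0 < ε / 2 by positivity) (1 + E * (V * 2)), eventually_ge_atTop 1]
    with j h1 h2 h3 h4 h5 h6 i x hx z hz hzi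
  have hj1 : (1 : ℝ) ≤ j := by exact_mod_cast h6
  have hj0 : (0 : ℝ) < j := by linarith
  obtain ⟨k1, k2⟩ := h1 _ (h2 i x hx)
  set S : ℝ := (j : ℝ) ^ (ε / 2) with hS
  have hS1 : 1 ≤ S := Real.one_le_rpow hj1 (by positivity)
  have hm1 : (j : ℝ) ^ (-(1 : ℝ)) ≤ 1 := Real.rpow_le_one_of_one_le_of_nonpos hj1 (by norm_num)
  have e1 := k1 z (by linarith) (by linarith)
  have e2 : ‖EL (8 / 3) K0 (PBV.kc aL σL (1 / 5) j (fun z => Psi i j z x)) z‖ ≤ E * (V * (2 * S)) := by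
    refine (EL_le (fun k hk => (k2 S (h3 i x hx) k hk).trans
      (mul_le_mul_of_nonneg_left (show S + (j : ℝ) ^ (-(1 : ℝ)) ≤ 2 * S by linarith) hV0.le)) z).trans ?_
    rw [hE]
    gcongr
  have e3 : Psi i j z x = (Psi i j z x - EL (8 / 3) K0 (PBV.kc aL σL (1 / 5) j (fun z => Psi i j z x)) z) +
      EL (8 / 3) K0 (PBV.kc aL σL (1 / 5) j (fun z => Psi i j z x)) z := by ring
  have e4 : ‖Psi i j z x‖ ≤ (1 + E * (V * 2)) * S := by
    rw [e3]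
    refine (norm_add_le _ _).trans ?_
    have : E * (V * (2 * S)) = E * (V * 2) * S := by ring
    rw [this] at e2
    rw [add_mul, one_mul]
    linarith
  calc ‖Psi i j z x‖ ≤ (1 + E * (V * 2)) * S := e4
    _ ≤ (j : ℝ) ^ (ε / 2) * S := by gcongr
    _ = (j : ℝ) ^ ε := by
      rw [hS, ← Real.rpow_add hj0]
      congr 1
      ring

/-- the derivatives in the legs -/
theorem FunHW.dbd (h : FunHW d Dd G C f Psi) {ε : ℝ} (hε : 0 < ε) : ∀ᶠ j : ℕ in atTop, ∀ i, ∀ x ∈ seg 0,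
    ∀ t ∈ Icc (0 : ℝ) 1, ‖Psi i j (I * t) x‖ ≤ (j : ℝ) ^ ε ∧
      ‖deriv (fun z => Psi i j z x) (I * t)‖ ≤ (j : ℝ) ^ ε ∧
      ‖deriv (deriv fun z => Psi i j z x) (I * t)‖ ≤ (j : ℝ) ^ ε := by
  filter_upwards [h.bd (show 0 < ε / 2 by positivity), h.fp, h.up ε hε, log_ev (20 / 3),
    pow_ev (show 0 < ε / 2 by positivity) 16, eventually_ge_atTop 1] with j h1 h2 h2' h3 h4 h5 i x hx t ht
  have hj1 : (1 : ℝ) ≤ j := by exact_mod_cast h5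
  have hj0 : (0 : ℝ) < j := by linarith
  have key := Pool.Agent.PB.Rec.cauchy2 (f := fun z => Psi i j z x) (z := I * t) (r := 1 / 2)
    (ε := (j : ℝ) ^ (ε / 2)) (by norm_num)
    (fun z hz => ((h2 i x hx).df z (by
      have := ball_box ht hz
      have := σL_pos
      linarith) (by
      rw [two_σL]
      have := ball_box ht hz
      linarith)).differentiableWithinAt)
    (fun z hz => h1 i x hx z (ball_box ht hz).1 (ball_box ht hz).2)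
  have e0 : 0 < (j : ℝ) ^ (ε / 2) := by positivity
  have e1 : (j : ℝ) ^ ε = (j : ℝ) ^ (ε / 2) * (j : ℝ) ^ (ε / 2) := by
    rw [← Real.rpow_add hj0, add_halves]
  refine ⟨h2' i x hx t ht, ?_, ?_⟩
  · refine key.1.trans ?_
    rw [e1, div_le_iff₀ (by norm_num)]
    nlinarith
  · refine key.2.trans ?_
    rw [e1, div_le_iff₀ (by norm_num)]
    nlinarith

/-- **the limit and the value in the box** -/
theorem FunHW.chain (h : FunHW d Dd G C f Psi) {c : ℝ} (hc : nuW Dd < c) (hc1 : c < 2 / 3 * (1 - Dd) ^ 2)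
    (hD1 : Dd ≤ 1) (hE : EPrW c d Psi) :
    ∃ ginf : ι → ℂ,
      (∃ C' : ℝ, ∀ᶠ j : ℕ in atTop, ∀ i,
        ‖bK (f i) (j + 1) 0 * (1 + ((nuW (d i) / j : ℝ) : ℂ)) - bK (f i) j 0‖ ≤ C' * (j : ℝ) ^ (-(1 + c))) ∧
      (∃ C' : ℝ, 0 ≤ C' ∧ ∀ᶠ j : ℕ in atTop, ∀ i,
        ‖bK (f i) j 0 - ginf i * (((j : ℝ) ^ (-nuW (d i)) : ℝ) : ℂ)‖ ≤ C' * (j : ℝ) ^ (-c)) ∧
      ∃ K0 : ℕ, ∀ K ≥ K0, ∃ C' : ℝ, 0 ≤ C' ∧
        (∀ᶠ j : ℕ in atTop, ∀ i, ∀ k ∈ Finset.Icc (-(K : ℤ)) K, k ≠ 0 →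
          ‖bK (f i) j k‖ ≤ C' * (j : ℝ) ^ (-c)) ∧
        ∀ᶠ j : ℕ in atTop, ∀ i, ∀ z : ℂ, |z.re| ≤ aL → |z.im| ≤ 2 →
          ‖f i j z - EL (8 / 3) K (bK (f i) j) z‖ ≤ (j : ℝ) ^ (-c) := by
  have hpi := Real.pi_pos
  obtain ⟨C1, hE⟩ := hE
  set ρ : ℝ := σL / 2 with hρ
  have hρ0 : 0 < ρ := by
    have := σL_pos
    positivity
  have hρ1 : ρ < σL := by
    have := σL_pos
    linarith
  have hν0 : 0 ≤ nuW Dd := nuW_nonneg Dd
  have hc0 : 0 < c := hν0.trans_lt hc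
  have hDd0 : ∀ i : ι, 0 ≤ Dd := fun i => (abs_nonneg _).trans (h.dd i)
  have hc23 : c < 1 ∨ IsEmpty ι := by
    by_cases hι : Nonempty ι
    · obtain ⟨i⟩ := hι
      left
      have := hDd0 i
      nlinarith
    · right
      exact not_nonempty_iff.1 hι
  rcases hc23 with hclt | hemp
  swap
  · refine ⟨fun _ => 0, ⟨0, Eventually.of_forall fun j i => (hemp.false i).elim⟩,
      ⟨0, le_rfl, Eventually.of_forall fun j i => (hemp.false i).elim⟩, 0, fun K _ => ⟨0, le_rfl,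
      Eventually.of_forall fun j i => (hemp.false i).elim,
      Eventually.of_forall fun j i => (hemp.false i).elim⟩⟩
  obtain ⟨K1, hK1⟩ := h.kf (1 + c) hρ0.le hρ1
  obtain ⟨K2, hK2⟩ := h.kp (1 + c) hρ0.le hρ1
  have key : ∀ K ≥ max K1 K2, ∃ C' : ℝ, 0 ≤ C' ∧
      (∀ᶠ j : ℕ in atTop, ∀ i, ∀ k ∈ Finset.Icc (-(K : ℤ)) K, k ≠ 0 → ‖bK (f i) j k‖ ≤ C' * (j : ℝ) ^ (-c)) ∧
      (∀ᶠ j : ℕ in atTop, ∀ i,
        ‖bK (f i) (j + 1) 0 * (1 + ((2 * (1 / 8) * (8 / 3) * d i ^ 2 / j : ℝ) : ℂ)) - bK (f i) j 0‖ ≤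
        C' * (j : ℝ) ^ (-(1 + c))) ∧
      (∀ᶠ j : ℕ in atTop, ∀ i, ‖bK (f i) (j + 1) 0‖ ≤ C' * (j : ℝ) ^ (1 - c)) := by
    intro K hK
    have hk1 := hK1 K (le_of_max_le_left hK)
    have hk2 := hK2 K (le_of_max_le_right hK)
    set C2 : ℝ := max C1 1 with hC2
    have hC21 : 1 ≤ C2 := le_max_right _ _
    have hC2' : C1 ≤ C2 := le_max_left _ _
    refine chainW (w := 8 / 3) (L := aL) (R := aL + ρ) (α := 1 / 8) (β := -(I / 2)) (c := c) (e0 := 1 - c)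
      (C := C2) (Dd := Dd) (by norm_num) (by unfold aL; ring)
      (by rw [abs_of_pos aL_pos]; linarith) hc0.le (by linarith) le_rfl (by norm_num) hD1
      (by linarith) K h.dd (n := f) (Psi := Psi) (b := fun i => bK (f i)) (a := fun i => aK (Psi i))
      ?_ ?_ ?_ ?_ ?_ ?_ ?_
    · -- differentiability
      filter_upwards [h.fp, log_ev (20 / 3)] with j hj hL i x hx z hz
      refine ((hj i x hx).df z ?_ ?_).differentiableWithinAt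
      · linarith [hz.1]
      · rw [two_σL]
        linarith [hz.2]
    · -- K-terms of Psi
      filter_upwards [hk2] with j hj i x hx z hz
      refine (hj i x hx z hz.1.le hz.2.le).trans ?_
      have : 0 ≤ (j : ℝ) ^ (-(1 + c)) := by positivity
      nlinarith
    · filter_upwards [hk1] with j hj i z hz
      refine (hj i z hz.1.le hz.2.le).trans ?_
      have : 0 ≤ (j : ℝ) ^ (-(1 + c)) := by positivity
      nlinarith
    · filter_upwards [h.up (1 - c) (by linarith)] with j hj i x hx t ht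
      refine (hj i x hx t ht).trans ?_
      have : 0 ≤ (j : ℝ) ^ (1 - c) := by positivity
      nlinarith
    · filter_upwards [hE] with j hj i s hs t ht
      obtain ⟨D, h1, h2⟩ := hj i s hs t ht
      refine ⟨D, h1, h2.trans ?_⟩
      have : 0 ≤ (j : ℝ) ^ (-(1 + c)) := by positivity
      gcongr
    · filter_upwards [h.p0] with j hj i z _
      exact hj i z
    · filter_upwards [h.a1] with j hj i x hx
      exact hj i x hx
  obtain ⟨C', hC'0, h1, h2, h3⟩ := key (max K1 K2) le_rfl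
  have h2' : ∀ᶠ j : ℕ in atTop, ∀ i,
      ‖bK (f i) (j + 1) 0 * (1 + ((nuW (d i) / j : ℝ) : ℂ)) - bK (f i) j 0‖ ≤ C' * (j : ℝ) ^ (-(1 + c)) := by
    filter_upwards [h2] with j hj i
    have e1 : nuW (d i) / j = 2 * (1 / 8) * (8 / 3) * d i ^ 2 / j := by
      unfold nuW
      ring
    rw [e1]
    exact hj i
  obtain ⟨ginf, C3, hC30, h4⟩ := seq_powW (b := fun i j => bK (f i) j 0) (ν := fun i => nuW (d i))
    (ν0 := nuW Dd) (c := c) (e := 1 - c) (C := C') (fun i => nuW_nonneg _) (fun i => nuW_le (h.dd i)) hc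
    hclt.le le_rfl h2' h3
  refine ⟨ginf, ⟨C', h2'⟩, ⟨C3, hC30, h4⟩, max K1 K2, fun K hK => ?_⟩
  obtain ⟨C4, hC40, g1, -, -⟩ := key K hK
  refine ⟨C4, hC40, g1, ?_⟩
  filter_upwards [hK1 K (le_of_max_le_left hK), eventually_ge_atTop 1] with j hj hj1 i z hz hzi
  have hj1' : (1 : ℝ) ≤ j := by exact_mod_cast hj1
  exact (hj i z (by linarith) hzi).trans (Real.rpow_le_rpow_of_exponent_le hj1' (by linarith))

/-- **the output of the function side, with a twist** -/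
theorem FunHW.out (h : FunHW d Dd G C f Psi) (hG : 0 ≤ G) {c : ℝ} (hc : nuW Dd < c)
    (hc1 : c < 2 / 3 * (1 - Dd) ^ 2) (hD1 : Dd ≤ 1) (hE : EPrW c d Psi) :
    ∃ ginf : ι → ℂ, FunOW c G d f (fun i j => bK (f i) j 0) ginf := by
  have hc0 : 0 < c := (nuW_nonneg Dd).trans_lt hc
  obtain ⟨ginf, h1, h2, K0, hK0⟩ := h.chain hc hc1 hD1 hE
  refine ⟨ginf, h1, h2, ?_, ?_⟩
  · -- the box
    obtain ⟨C', hC'0, g1, g2⟩ := hK0 K0 le_rfl
    set E : ℝ := (2 * K0 + 1) * Real.exp (|(8 / 3 : ℝ)| * K0 * 2) with hEdef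
    have hE0 : 0 < E := by positivity
    refine ⟨1 + E * C', by positivity, ?_⟩
    filter_upwards [g1, g2, eventually_ge_atTop 1] with j a1 a2 a3 i z hz hzi
    have hj1 : (1 : ℝ) ≤ j := by exact_mod_cast a3
    have hj0 : (0 : ℝ) < j := by linarith
    have e1 := a2 i z hz hzi
    have e2 : EL (8 / 3) K0 (bK (f i) j) z = bK (f i) j 0 +
        EL (8 / 3) K0 (fun k => if k = 0 then 0 else bK (f i) j k) z := by
      unfold EL
      rw [← Finset.add_sum_erase _ _ (show (0 : ℤ) ∈ Finset.Icc (-(K0 : ℤ)) K0 by simp),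
        ← Finset.add_sum_erase _ _ (show (0 : ℤ) ∈ Finset.Icc (-(K0 : ℤ)) K0 by simp)]
      simp only [Int.cast_zero, mul_zero, zero_mul, exp_zero, mul_one, if_true, zero_add]
      congr 1
      refine Finset.sum_congr rfl fun k hk => ?_
      rw [if_neg (Finset.ne_of_mem_erase hk)]
    have e3 : ‖EL (8 / 3) K0 (fun k => if k = 0 then 0 else bK (f i) j k) z‖ ≤ E * (C' * (j : ℝ) ^ (-c)) := by
      refine (EL_le (a := fun k => if k = 0 then 0 else bK (f i) j k) (A := C' * (j : ℝ) ^ (-c))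
        (fun k hk => ?_) z).trans ?_
      · split_ifs with h
        · rw [norm_zero]
          positivity
        · exact a1 i k hk h
      · rw [hEdef]
        gcongr
    have e4 : f i j z - bK (f i) j 0 = (f i j z - EL (8 / 3) K0 (bK (f i) j) z) +
        EL (8 / 3) K0 (fun k => if k = 0 then 0 else bK (f i) j k) z := by
      rw [e2]
      ring
    rw [e4]
    refine (norm_add_le _ _).trans ((add_le_add e1 e3).trans (le_of_eq ?_))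
    ring
  · intro ρ hρ hρσ ε hε
    have hx1 : (9 / 80 : ℝ) ≤ (1 - 1 / 5) * (2 * σL / Real.pi) := by
      rw [two_σL]
      norm_num
    obtain ⟨K1, hK1⟩ := value_tallG (a := aL) (σ := σL) (ρ := ρ) (y₀ := 1) (b₀ := 0) (ε₀ := 1 / 5)
      (x₁ := 9 / 80) (c := c) (G := G) C hG hρ hρσ σL_lt le_rfl
      σL_pos zero_le_one (by norm_num) (by norm_num) (by norm_num) hx1 hc0.le
    obtain ⟨C', -, g1, -⟩ := hK0 (max K0 K1) (le_max_left _ _)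
    refine WNDS.unif_ev (P := fun j i => ∀ z : ℂ, |z.re| ≤ aL + ρ → |z.im| ≤ 9 / 80 * Real.log j →
      ‖f i j z - bK (f i) j 0‖ ≤
      (j : ℝ) ^ (-(c * (1 - |z.im| / (9 / 80 * Real.log j))) + ε) * Real.exp (G * |z.im|)) fun ii => ?_
    exact hK1 (max K0 K1) (le_max_right _ _) C' (fun j => f (ii j) j)
      (by filter_upwards [h.ff] with j hj; exact hj (ii j))
      (fun ε hε => by filter_upwards [h.uf ε hε] with j hj; exact hj (ii j))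
      (by filter_upwards [g1] with j hj; exact hj (ii j)) ε hε

/-! ### what follows at `0`, continuity -/

/-- **the value at `0`, with the power taken out** -/
theorem FunOW.at0 {c : ℝ} {g : ι → ℕ → ℂ} {ginf : ι → ℂ} (h : FunOW c G d f g ginf)
    (hd : ∀ i, |d i| ≤ Dd) :
    ∃ C' : ℝ, 0 ≤ C' ∧ ∀ᶠ j : ℕ in atTop, ∀ i,
      ‖f i j 0 * (((j : ℝ) ^ nuW (d i) : ℝ) : ℂ) - ginf i‖ ≤ C' * (j : ℝ) ^ (-(c - nuW Dd)) := by
  obtain ⟨C1, hC1, h1⟩ := h.lim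
  obtain ⟨C2, hC2, h2⟩ := h.box
  refine ⟨C1 + C2, by positivity, ?_⟩
  filter_upwards [h1, h2, eventually_ge_atTop 1] with j a1 a2 a3 i
  have hj1 : (1 : ℝ) ≤ j := by exact_mod_cast a3
  have hj0 : (0 : ℝ) < j := by linarith
  have e1 := a1 i
  have e2 := a2 i 0 (by simp [aL_pos.le]) (by simp)
  have e3 : ‖f i j 0 - ginf i * (((j : ℝ) ^ (-nuW (d i)) : ℝ) : ℂ)‖ ≤ (C1 + C2) * (j : ℝ) ^ (-c) := by
    have e : f i j 0 - ginf i * (((j : ℝ) ^ (-nuW (d i)) : ℝ) : ℂ) = (f i j 0 - g i j) +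
        (g i j - ginf i * (((j : ℝ) ^ (-nuW (d i)) : ℝ) : ℂ)) := by ring
    rw [e]
    refine (norm_add_le _ _).trans ?_
    linarith
  have hne : (j : ℝ) ^ (-nuW (d i)) * (j : ℝ) ^ nuW (d i) = 1 := by
    rw [← Real.rpow_add hj0, neg_add_cancel, Real.rpow_zero]
  have e4 : f i j 0 * (((j : ℝ) ^ nuW (d i) : ℝ) : ℂ) - ginf i =
      (f i j 0 - ginf i * (((j : ℝ) ^ (-nuW (d i)) : ℝ) : ℂ)) * (((j : ℝ) ^ nuW (d i) : ℝ) : ℂ) := by
    have : (((j : ℝ) ^ (-nuW (d i)) : ℝ) : ℂ) * (((j : ℝ) ^ nuW (d i) : ℝ) : ℂ) = 1 := by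
      rw [← Complex.ofReal_mul, hne, Complex.ofReal_one]
    rw [sub_mul, mul_assoc, this, mul_one]
  rw [e4, norm_mul, Complex.norm_real, Real.norm_of_nonneg (by positivity)]
  have e5 : (j : ℝ) ^ nuW (d i) ≤ (j : ℝ) ^ nuW Dd :=
    Real.rpow_le_rpow_of_exponent_le hj1 (nuW_le (hd i))
  calc _ ≤ (C1 + C2) * (j : ℝ) ^ (-c) * (j : ℝ) ^ nuW Dd := by gcongr
    _ = _ := by
      rw [mul_assoc, ← Real.rpow_add hj0]
      congr 2
      ring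

/-- **continuity of the constant** -/
theorem FunOW.cont [TopologicalSpace ι] {c : ℝ} {g : ι → ℕ → ℂ} {ginf : ι → ℂ}
    (h : FunOW c G d f g ginf) (hd : ∀ i, |d i| ≤ Dd) (hc : nuW Dd < c) (hdc : Continuous d)
    (hf : ∀ᶠ j : ℕ in atTop, Continuous fun i => f i j 0) : Continuous ginf := by
  obtain ⟨C', hC', h1⟩ := h.at0 hd
  have hlim : Tendsto (fun j : ℕ => C' * (j : ℝ) ^ (-(c - nuW Dd))) atTop (𝓝 0) := by
    have h2 := ((tendsto_rpow_neg_atTop (show 0 < c - nuW Dd by linarith)).comp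
      tendsto_natCast_atTop_atTop).const_mul C'
    rw [mul_zero] at h2
    exact h2
  have hu : TendstoUniformly (fun (j : ℕ) (i : ι) => f i j 0 * (((j : ℝ) ^ nuW (d i) : ℝ) : ℂ)) ginf
      atTop := by
    rw [Metric.tendstoUniformly_iff]
    intro ε hε
    filter_upwards [h1, hlim.eventually_lt_const hε] with j a1 a2 i
    rw [dist_comm, dist_eq_norm]
    exact (a1 i).trans_lt a2
  refine hu.continuous ?_
  refine Eventually.frequently ?_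
  filter_upwards [hf, eventually_ge_atTop 1] with j hj hj1
  have hj0 : (0 : ℝ) < j := by exact_mod_cast hj1
  refine hj.mul (Complex.continuous_ofReal.comp ?_)
  refine Continuous.rpow continuous_const ?_ fun i => Or.inl hj0.ne'
  unfold nuW
  fun_prop

end WNDF
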