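import Pool.Agent.WND.FunWI
import Pool.Agent.WND.Main

/-!
# Plan W: the output of the function side in the form of the top level (helper12)

**`funZ`**: from `U0Z`, `U1Z`, `E2Z c`: a function `G`, continuous and bounded on `|d| ≤ Dd`, with
`WND.FunZ gW G c Dd` (`gW j d` = the zero coefficient of `f0t d j`) and
`WND.FunZ (fun N d => f0z (zt d) N 0) G c Dd`.
-/

set_option autoImplicit false

noncomputable section

open Complex Set Filter Topology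
open PBV (bK aL aL_pos)
open WND (f0z f0t ga zt)

namespace WNDF

/-- the zero coefficient of the function with twist `d` -/
def gW (j : ℕ) (d : ℝ) : ℂ := bK (f0t (d : ℂ)) j 0

theorem ga_zero (d : ℂ) : ga d 0 = 1 := by
  unfold ga
  rw [mul_zero, Complex.exp_zero]

/-- **the function side for the top level** -/
theorem funZ_of {c Dd : ℝ} {ginf : Tw Dd → ℂ} (hc : Continuous ginf)
    (h : FunOW c (2 + 8 / 3 * Dd) (fun i : Tw Dd => i.1) (fun i => f0t (i.1 : ℂ))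
      (fun i j => bK (f0t (i.1 : ℂ)) j 0) ginf) :
    ∃ (G : ℝ → ℂ) (B : ℝ), ContinuousOn G (Icc (-Dd) Dd) ∧ (∀ d : ℝ, |d| ≤ Dd → ‖G d‖ ≤ B) ∧
      WND.FunZ gW G c Dd ∧ WND.FunZ (fun N d => f0z (zt (d : ℂ)) N 0) G c Dd := by
  classical
  set G : ℝ → ℂ := fun d => if h : |d| ≤ Dd then ginf ⟨d, h⟩ else 0 with hG
  have hGe : ∀ i : Tw Dd, G i.1 = ginf i := by
    intro i
    simp only [hG, dif_pos i.2, Subtype.coe_eta]
  have hcont : ContinuousOn G (Icc (-Dd) Dd) := by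
    rw [continuousOn_iff_continuous_domRestrict]
    have e : (Icc (-Dd) Dd).domRestrict G = fun x : Icc (-Dd) Dd =>
        ginf ⟨x.1, abs_le.2 ⟨x.2.1, x.2.2⟩⟩ := by
      funext x
      exact hGe ⟨x.1, abs_le.2 ⟨x.2.1, x.2.2⟩⟩
    rw [e]
    exact hc.comp (continuous_subtype_val.subtype_mk _)
  obtain ⟨B, hB⟩ := isCompact_Icc.exists_bound_of_continuousOn hcont
  refine ⟨G, B, hcont, fun d hd => hB d (abs_le.1 hd), ?_, ?_⟩
  · obtain ⟨C', -, h1⟩ := h.lim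
    refine ⟨C', ?_⟩
    filter_upwards [h1] with j hj d hd
    have := hj ⟨d, hd⟩
    rw [← hGe ⟨d, hd⟩] at this
    exact this
  · obtain ⟨C1, -, h1⟩ := h.lim
    obtain ⟨C2, -, h2⟩ := h.box
    refine ⟨C1 + C2, ?_⟩
    filter_upwards [h1, h2] with j a1 a2 d hd
    have e1 := a1 ⟨d, hd⟩
    rw [← hGe ⟨d, hd⟩] at e1
    have e2 := a2 ⟨d, hd⟩ 0 (by simp [aL_pos.le]) (by simp)
    have e3 : f0t (d : ℂ) j 0 = f0z (zt (d : ℂ)) j 0 := by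
      rw [WND.f0t_eq, ga_zero, one_mul]
    have e2' : ‖f0z (zt (d : ℂ)) j 0 - bK (f0t (d : ℂ)) j 0‖ ≤ C2 * (j : ℝ) ^ (-c) := by
      rw [← e3]
      exact e2
    have e4 : f0z (zt (d : ℂ)) j 0 - G d * (((j : ℝ) ^ (-(2 / 3 * d ^ 2)) : ℝ) : ℂ) =
        (f0z (zt (d : ℂ)) j 0 - bK (f0t (d : ℂ)) j 0) +
        (bK (f0t (d : ℂ)) j 0 - G d * (((j : ℝ) ^ (-(2 / 3 * d ^ 2)) : ℝ) : ℂ)) := by ring
    rw [e4]
    refine (norm_add_le _ _).trans ?_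
    have e5 : ‖bK (f0t (d : ℂ)) j 0 - G d * (((j : ℝ) ^ (-(2 / 3 * d ^ 2)) : ℝ) : ℂ)‖ ≤
      C1 * (j : ℝ) ^ (-c) := e1
    linarith

theorem funZ {C c Dd : ℝ} (hD0 : 0 ≤ Dd) (hD : Dd ≤ 1 / 10) (hc : nuW Dd < c) (hc1 : c ≤ 1 / 2)
    (h0 : U0Z C) (h1 : U1Z) (hE : E2Z c) :
    ∃ (G : ℝ → ℂ) (B : ℝ), ContinuousOn G (Icc (-Dd) Dd) ∧ (∀ d : ℝ, |d| ≤ Dd → ‖G d‖ ≤ B) ∧
      WND.FunZ gW G c Dd ∧ WND.FunZ (fun N d => f0z (zt (d : ℂ)) N 0) G c Dd := by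
  obtain ⟨ginf, hcont, h⟩ := funW_f0t hD0 hD hc hc1 h0 h1 hE
  exact funZ_of hcont h

end WNDF
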