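import Pool.Agent.WND.DefsZ
import Pool.Agent.PB.FNeq

/-!
# Plan W: the function with winding weight is the functional with coefficients `ζ ^ (m - n)` (helper4)

* **`nzn_FF`**: `nzn n z x x = Pf z x x * FF (ZL ..) P n n η η' 1`, `-9/10 l ≤ Re z < 37/10 l`;
* **`nzz_FF`, `fz_FF`**; `fz_le` (`‖ζ‖ = 1`): the same bound by moduli as without twist;
* `norm_zpw`, `ft_le` (`d` real).
-/

set_option autoImplicit false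
set_option linter.unusedSectionVars false
set_option linter.unusedVariables false

noncomputable section

open Complex MeasureTheory Finset
open scoped ENNReal

namespace WND

open NUO NUP1 NUCR NUP1S NUP1S.Ab NUP1S.AbC NURow NUGC PBF PBX
open NUP1.Bd (Ob)
open Pool.Agent.PB (nz fN Pf cn LS)

variable {m : ℕ} {P : NUO.Par}

/-- **the part with `n` quanta is the functional** -/
theorem nzn_FF {ep β : ℝ} (hP : ParC P) (hρ : ∀ r, ∃ ρ0, 0 < ρ0 ∧ ∀ t, ρ0 ≤ P.rad r t)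
    (hep0 : 0 < ep) (hep : ep ≤ 1 / 100) (hβ : 0 < β) (hβ' : β ≤ 4 / 3)
    {x : Fin m → ℂ} (hx : Rws x) {ex ex0 : List ℂ} (hex : ∀ w ∈ ex, |w.re| ≤ l / 2)
    (hex0 : ∀ w ∈ ex0, |w.re| ≤ l / 2) {z : ℂ} (h1 : -(9 / 10 * l) ≤ z.re)
    (h2 : z.re < 37 / 10 * l) {n : ℕ} {η η' : Crs}
    (hη : ∀ r ≤ n + n, ∀ᵐ O ∂(Measure.pi fun _ : Fin r => nu), CurB ep (η r O) (η' r O)) :
    nzn n z x x = Pf z x x * FF (ZL β x ex ex0 z) P n n η η' (fun _ _ _ _ _ => 1) := by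
  unfold nzn
  rw [← DZ_ZL hP hρ hep0 hep hβ hβ' hx hex hex0 h1 h2 hη]
  rfl

/-- **the function with winding weight is the functional with coefficients** -/
theorem nzz_FF (ζ : ℂ) {ep β : ℝ} (hP : ParC P) (hρ : ∀ r, ∃ ρ0, 0 < ρ0 ∧ ∀ t, ρ0 ≤ P.rad r t)
    (hep0 : 0 < ep) (hep : ep ≤ 1 / 100) (hβ : 0 < β) (hβ' : β ≤ 4 / 3)
    {x : Fin m → ℂ} (hx : Rws x) {ex ex0 : List ℂ} (hex : ∀ w ∈ ex, |w.re| ≤ l / 2)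
    (hex0 : ∀ w ∈ ex0, |w.re| ≤ l / 2) {z : ℂ} (h1 : -(9 / 10 * l) ≤ z.re)
    (h2 : z.re < 37 / 10 * l) {η η' : ℕ → Crs}
    (hη : ∀ n ∈ range (2 * m + 1), ∀ r ≤ n + n, ∀ᵐ O ∂(Measure.pi fun _ : Fin r => nu),
      CurB ep (η n r O) (η' n r O)) :
    nzz ζ z x x = ∑ n ∈ range (2 * m + 1), Pf z x x * ζ ^ ((m : ℤ) - n) *
      FF (ZL β x ex ex0 z) P n n (η n) (η' n) (fun _ _ _ _ _ => 1) := by
  unfold nzz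
  refine Finset.sum_congr rfl fun n hn => ?_
  rw [nzn_FF hP hρ hep0 hep hβ hβ' hx hex hex0 h1 h2 (hη n hn)]
  ring

theorem fz_FF (ζ : ℂ) {ep β : ℝ} (hP : ParC P) (hρ : ∀ r, ∃ ρ0, 0 < ρ0 ∧ ∀ t, ρ0 ≤ P.rad r t)
    (hep0 : 0 < ep) (hep : ep ≤ 1 / 100) (hβ : 0 < β) (hβ' : β ≤ 4 / 3)
    {x : Fin m → ℂ} (hx : Rws x) {ex ex0 : List ℂ} (hex : ∀ w ∈ ex, |w.re| ≤ l / 2)
    (hex0 : ∀ w ∈ ex0, |w.re| ≤ l / 2) {z : ℂ} (h1 : -(9 / 10 * l) ≤ z.re)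
    (h2 : z.re < 37 / 10 * l) {η η' : ℕ → Crs}
    (hη : ∀ n ∈ range (2 * m + 1), ∀ r ≤ n + n, ∀ᵐ O ∂(Measure.pi fun _ : Fin r => nu),
      CurB ep (η n r O) (η' n r O)) :
    fz ζ x z = ∑ n ∈ range (2 * m + 1), Pf z x x * ζ ^ ((m : ℤ) - n) *
      FF (ZL β x ex ex0 z) P n n (η n) (η' n) (fun _ _ _ _ _ => 1) := by
  have hl := Bd.l_pos
  rw [fz_right ζ hx ⟨by linarith, by linarith⟩]
  exact nzz_FF ζ hP hρ hep0 hep hβ hβ' hx hex hex0 h1 h2 hη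

/-! ## moduli -/

theorem norm_zpw {ζ : ℂ} (h : ‖ζ‖ = 1) (k : ℤ) : ‖ζ ^ k‖ = 1 := by
  rw [norm_zpow, h, one_zpow]

/-- **the bound by the functional with moduli is the one without twist** -/
theorem fz_le {ζ : ℂ} (hζ : ‖ζ‖ = 1) {ep β : ℝ} (hP : ParC P)
    (hρ : ∀ r, ∃ ρ0, 0 < ρ0 ∧ ∀ t, ρ0 ≤ P.rad r t)
    (hep0 : 0 < ep) (hep : ep ≤ 1 / 100) (hβ : 0 < β) (hβ' : β ≤ 4 / 3)
    {x : Fin m → ℂ} (hx : Rws x) {ex ex0 : List ℂ} (hex : ∀ w ∈ ex, |w.re| ≤ l / 2)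
    (hex0 : ∀ w ∈ ex0, |w.re| ≤ l / 2) {z : ℂ} (h1 : -(9 / 10 * l) ≤ z.re)
    (h2 : z.re < 37 / 10 * l) {η η' : ℕ → Crs}
    (hη : ∀ n ∈ range (2 * m + 1), ∀ r ≤ n + n, ∀ᵐ O ∂(Measure.pi fun _ : Fin r => nu),
      CurB ep (η n r O) (η' n r O)) :
    ‖fz ζ x z‖ₑ ≤ ‖Pf z x x‖ₑ * ∑ n ∈ range (2 * m + 1),
      FA (ZL β x ex ex0 z) P n n (η n) (η' n) (fun _ _ _ _ _ => 1) := by
  rw [fz_FF ζ hP hρ hep0 hep hβ hβ' hx hex hex0 h1 h2 hη, Finset.mul_sum]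
  refine (enorm_sum_le _ _).trans (Finset.sum_le_sum fun n _ => ?_)
  have e : ‖ζ ^ ((m : ℤ) - n)‖ₑ = 1 := by
    rw [← ofReal_norm, norm_zpw hζ, ENNReal.ofReal_one]
  rw [enorm_mul, enorm_mul, e, mul_one]
  exact mul_le_mul_right (FF_le _) _

theorem ft_le (d : ℝ) {ep β : ℝ} (hP : ParC P)
    (hρ : ∀ r, ∃ ρ0, 0 < ρ0 ∧ ∀ t, ρ0 ≤ P.rad r t)
    (hep0 : 0 < ep) (hep : ep ≤ 1 / 100) (hβ : 0 < β) (hβ' : β ≤ 4 / 3)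
    {x : Fin m → ℂ} (hx : Rws x) {ex ex0 : List ℂ} (hex : ∀ w ∈ ex, |w.re| ≤ l / 2)
    (hex0 : ∀ w ∈ ex0, |w.re| ≤ l / 2) {z : ℂ} (h1 : -(9 / 10 * l) ≤ z.re)
    (h2 : z.re < 37 / 10 * l) {η η' : ℕ → Crs}
    (hη : ∀ n ∈ range (2 * m + 1), ∀ r ≤ n + n, ∀ᵐ O ∂(Measure.pi fun _ : Fin r => nu),
      CurB ep (η n r O) (η' n r O)) :
    ‖ft d x z‖ₑ ≤ ENNReal.ofReal (Real.exp (8 / 3 * d * z.im)) * (‖Pf z x x‖ₑ *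
      ∑ n ∈ range (2 * m + 1), FA (ZL β x ex ex0 z) P n n (η n) (η' n) (fun _ _ _ _ _ => 1)) := by
  unfold ft
  rw [enorm_mul, ← ofReal_norm (ga _ _), norm_ga]
  exact mul_le_mul_right (fz_le (norm_zt d) hP hρ hep0 hep hβ hβ' hx hex hex0 h1 h2 hη) _

end WND

end
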