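import Pool.Agent.NUP1L.Link5

/-!
# The gas of the two-point functions at any `χ` as a sum over states and marks

`gas_stateZ`: as `NUP1.Leg.gas_state`, with the factor `χ ^ (2 M - 2 n)`, `n` = number of quanta of the second world.
-/

set_option autoImplicit false
set_option linter.unusedSectionVars false

noncomputable section

open Complex Finset

namespace WND

open NUP1 NUP1.Leg
open NUTP (sn th ea lam cs)
open NUTP.Gas (Cf Ty sm sm_congr sm_zero tt fl ow cr tm gas)
open NUP1.Grand (P)

variable {m M : ℕ}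

theorem nl_bs (s : SignType) : NUTP.Gas.nl (bs s) = 0 := by
  cases s <;> rfl

theorem nl_mkd (s : SignType) : NUTP.Gas.nl (mkd s) = 0 := by
  cases s <;> rfl

theorem nl_kk (a : Fin m → SignType) (μ : Option (Fin m)) (i : Fin m) :
    NUTP.Gas.nl (kk a μ i) = 0 := by
  by_cases h : μ = some i
  · subst h
    rw [kk_self]
    exact nl_mkd _
  · rcases μ with _ | j
    · rw [kk_none]
      exact nl_bs _
    · rw [kk_ne a (fun e => h (by rw [e]))]
      exact nl_bs _

/-- the number of occupied ended lines on the left -/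
theorem tt_nl (r o : ℂ) (x : Fin m → ℂ) (a : Fin m → SignType) (μ : Option (Fin m)) :
    tt NUTP.Gas.nl (Lf r o x (k0 μ) (kk a μ)) = 1 := by
  have e0 : tt NUTP.Gas.nl (Lf r o x (k0 μ) (kk a μ)) =
      NUTP.Gas.nl (k0 μ) + (1 + ∑ i, NUTP.Gas.nl (kk a μ i)) := by
    unfold Lf
    rw [tt_cons', tt_cons', tt_ofFn]
    rfl
  rw [e0]
  simp only [nl_kk, Finset.sum_const_zero]
  rcases μ with _ | i <;> rfl

/-- **The gas at any `χ`**: the factor is `χ ^ (2 M - 2 n)`. -/
theorem gas_stateZ (χ : ℂ) {r o r' o' : ℂ} {x : Fin m → ℂ} {y : Fin M → ℂ}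
    (gx : ∀ i j, i ≠ j → Gz (x i - x j)) (gy : ∀ i j, i ≠ j → Gz (y i - y j))
    (g : ∀ α β, Gz (oz r x α - oz r' y β)) (g1 : ∀ i, Gz (r - x i)) (g2 : ∀ i, Gz (o' - x i))
    (g3 : ∀ j, Gz (r' - y j)) (g4 : ∀ j, Gz (o - y j)) :
    gas th χ ((ea r, .re) :: (ea o, .lo) :: fl (List.ofFn fun i => ea (x i)))
      ((ea r', .re) :: (ea o', .lo) :: fl (List.ofFn fun j => ea (y j))) =
    sin l * (Bp r o' x * Bp r' o y) * ∑ a : Fin m → SignType, ∑ b : Fin M → SignType,
      if ∑ i, nq (a i) + M = ∑ j, nq (b j) + m then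
        χ ^ (2 * (M : ℤ) - 2 * ((∑ j, nq (b j) : ℕ) : ℤ)) *
        (sta x (hE (cc m) r o r' o' x y) a * sta y (hE (cc M) r' o' r o y x) b * crq x y a b *
          MS r r' x y a b) else 0 := by
  have gxy : ∀ i j, Gz (x i - y j) := fun i j => g (some i) (some j)
  have g' : ∀ β α, Gz (oz r' y β - oz r x α) := fun β α => by
    have := (g α β).neg
    rwa [neg_sub] at this
  set X : List (ℂ × NUTP.Gas.Ty) := (ea r, .re) :: (ea o, .lo) :: fl (List.ofFn fun i => ea (x i)) with hX
  set Y : List (ℂ × NUTP.Gas.Ty) := (ea r', .re) :: (ea o', .lo) :: fl (List.ofFn fun j => ea (y j)) with hY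
  set W : Cf → Cf → ℂ := fun e f => if tt NUTP.Gas.ch e = tt NUTP.Gas.ch f then
    χ ^ (-1 + tt NUTP.Gas.ch f + tt NUTP.Gas.nl e + tt NUTP.Gas.nl f) *
      (ow th e * ow th f * cr th e f) else 0 with hW
  have e1 : gas th χ X Y = sn th 1 1 * sm X fun e => if tt NUTP.Gas.mk e = 0 then
      (sm Y fun f => if tt NUTP.Gas.mk f = 0 then W e f else 0) else 0 := by
    unfold gas
    congr 1
    refine sm_congr fun e _ => ?_
    by_cases he : tt NUTP.Gas.mk e = 0
    · rw [if_pos he]
      refine sm_congr fun f _ => ?_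
      unfold tm
      by_cases hf : tt NUTP.Gas.mk f = 0
      · rw [if_pos hf, hW]
        simp only [he, hf, zero_add, true_and]
      · rw [if_neg hf, if_neg]
        rintro ⟨-, h, -⟩
        exact hf (by simpa using h)
    · rw [if_neg he]
      refine (sm_congr (ψ := fun _ => (0 : ℂ)) fun f _ => ?_).trans (sm_zero _)
      unfold tm
      rw [if_neg]
      rintro ⟨h, -⟩
      exact he (by simpa using h)
  rw [e1, hX, sm_world]
  simp only [hY, sm_world]
  rw [sn11, mul_assoc (sin (l : ℂ))]
  congr 1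
  rw [Finset.mul_sum]
  refine Finset.sum_congr rfl fun a _ => ?_
  -- one state of the first world
  have e2 : ∀ (μ : Option (Fin m)) (b : Fin M → SignType) (ν : Option (Fin M)),
      (if live a μ = true then (if live b ν = true then
        W (Lf (ea r) (ea o) (fun i => ea (x i)) (k0 μ) (kk a μ))
          (Lf (ea r') (ea o') (fun j => ea (y j)) (k0 ν) (kk b ν)) else 0) else 0) =
      if ∑ i, nq (a i) + M = ∑ j, nq (b j) + m then
        χ ^ (2 * (M : ℤ) - 2 * ((∑ j, nq (b j) : ℕ) : ℤ)) *
        (Bp r o' x * Bp r' o y * (sta x (hE (cc m) r o r' o' x y) a *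
          sta y (hE (cc M) r' o' r o y x) b * crq x y a b) *
          (mkw r r' x a y b μ * mkw r' r y b x a ν * Dk (mkp r x a μ - mkp r' y b ν))) else 0 := by
    intro μ b ν
    by_cases hμ : live a μ = true
    · rw [if_pos hμ]
      by_cases hν : live b ν = true
      · rw [if_pos hν, hW]
        simp only
        rw [tt_Lf _ _ _ hμ, tt_Lf _ _ _ hν, tt_nl, tt_nl]
        have hc : (2 * (m : ℤ) - 2 * (∑ i, (nq (a i) : ℤ)) - 1 =
            2 * (M : ℤ) - 2 * (∑ j, (nq (b j) : ℤ)) - 1) ↔
            ∑ i, nq (a i) + M = ∑ j, nq (b j) + m := by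
          rw [← Nat.cast_sum, ← Nat.cast_sum]
          constructor <;> intro h <;> omega
        have hx : (-1 + (2 * (M : ℤ) - 2 * (∑ j, (nq (b j) : ℤ)) - 1) + 1 + 1 : ℤ) =
            2 * (M : ℤ) - 2 * ((∑ j, nq (b j) : ℕ) : ℤ) := by
          rw [Nat.cast_sum]
          ring
        simp only [hc, hx]
        by_cases hcc : ∑ i, nq (a i) + M = ∑ j, nq (b j) + m
        · rw [if_pos hcc, if_pos hcc, own_mark hμ gx g1, own_mark hν gy g3, cr_mark hμ hν g]
          have hb := base_eq (r := r) (o := o) (r' := r') (o' := o') a b gx gy gxy g1 g2 g3 g4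
          rw [← hb]
          unfold mkw
          ring
        · rw [if_neg hcc, if_neg hcc]
      · rw [if_neg hν]
        have h0 : mkw r' r y b x a ν = 0 := by
          unfold mkw
          rw [mkc_dead b ν (by simpa using hν)]
          ring
        rw [h0]
        simp
    · rw [if_neg hμ]
      have h0 : mkw r r' x a y b μ = 0 := by
        unfold mkw
        rw [mkc_dead a μ (by simpa using hμ)]
        ring
      rw [h0]
      simp
  have e3 : ∀ μ : Option (Fin m), (if live a μ = true then ∑ b : Fin M → SignType,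
      ∑ ν : Option (Fin M), (if live b ν = true then
        W (Lf (ea r) (ea o) (fun i => ea (x i)) (k0 μ) (kk a μ))
          (Lf (ea r') (ea o') (fun j => ea (y j)) (k0 ν) (kk b ν)) else 0) else 0) =
      ∑ b : Fin M → SignType, ∑ ν : Option (Fin M), (if live a μ = true then
        (if live b ν = true then W (Lf (ea r) (ea o) (fun i => ea (x i)) (k0 μ) (kk a μ))
          (Lf (ea r') (ea o') (fun j => ea (y j)) (k0 ν) (kk b ν)) else 0) else 0) := by
    intro μ
    by_cases hμ : live a μ = true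
    · simp only [if_pos hμ]
    · simp only [if_neg hμ, Finset.sum_const_zero]
  simp only [e3, e2]
  rw [Finset.sum_comm, Finset.mul_sum]
  refine Finset.sum_congr rfl fun b _ => ?_
  by_cases hcc : ∑ i, nq (a i) + M = ∑ j, nq (b j) + m
  · simp only [if_pos hcc]
    unfold MS
    rw [Finset.mul_sum, Finset.mul_sum, Finset.mul_sum]
    refine Finset.sum_congr rfl fun μ _ => ?_
    rw [Finset.mul_sum, Finset.mul_sum, Finset.mul_sum]
    refine Finset.sum_congr rfl fun ν _ => ?_
    ring
  · simp only [if_neg hcc, Finset.sum_const_zero, mul_zero]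

end WND

end
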