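import Pool.Agent.WND.Tw
import Pool.Agent.WND.DefsZ
import Pool.Agent.PB.I1G
import Pool.Agent.PV.LevXG

/-!
# Plan W: the first Ward identity with the winding weight (helper5)

Rows `i s, 0^j`, legs at `i t`, `j + 1` rows; coefficient `tw ζ (j + 1) n` of `n` quanta.

* `mainG w`: the main term of `PBEM.E2_of` with the weight `w`;
* `total_leZ`: the total insertion against `mainG`, any coefficient of the norm of `Pf`;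
* `fxz_val`: `fxz ζ j x z` is `Pf * ∑ tw ζ (j + 1) n * DZ n`;
* **`hD_unif`**: the derivative against the main term, uniform in `ζ` (`‖ζ‖ = 1`);
* **`hD_finZ`**: the same for the levels of a sequence `zz`.
-/

set_option autoImplicit false
set_option linter.unusedSectionVars false
set_option linter.unusedVariables false
set_option maxHeartbeats 1000000

noncomputable section

attribute [local instance] NUSea.seaP

open Complex MeasureTheory Finset Filter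
open scoped Classical

namespace WNDH

open NUP1 hiding Kd
open NUO NUP1S NUP1S.Ab NUP1S.AbC PBF PBFunc PB PBRep PBI
open PBForce (xiR rhoR Rws0)
open PBV (wm)
open PBEI (Apl Ami Bch rF uF qF rowS)
open PBLg (rhS hS)
open PBX (Lg DZ)
open Pool.Agent.PB (Pf)
open WND (tw norm_tw norm_tw_mul fxz)

/-- **the main term with the weight `w`**: the form of `PBEM.E2_of` -/
def mainG (e1 J : ℝ) (j : ℕ) (s t : ℝ) (w : CfN (2 * (j + 1)) → ℂ) : ℂ :=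
  (∫ q, F (mN (2 * (j + 1))) w (fun ω =>
      Vp (rhS (hS j s)) (fun _ => PBU.cr e1 J (j + 1)) (Apl (rowS j s) 0 q) ω *
        Vp (rhS (hS j s)) (fun _ => PBU.cr e1 J (j + 1)) (Bch q) ω) ∂wm) +
    ((∫ q, F (mN (2 * (j + 1))) w (fun ω =>
        Vm (fun _ => PBU.cr e1 J (j + 1)) (Ami (rowS j s) 0 q) ω *
          Vm (fun _ => PBU.cr e1 J (j + 1)) (Bch q) ω) ∂wm) +
      2 * F (mN (2 * (j + 1))) w (fun ω =>
        Vm (fun _ => PBU.cr e1 J (j + 1)) (uF (rowS j s) 0) ω *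
          SN (NUSea.O.par0 (j + 1)) (fun _ => PBU.cr e1 J (j + 1)) ω) -
      ((PBV.rP j s : ℂ) - (PBV.rM j s : ℂ)) / 2 * F (mN (2 * (j + 1))) w
        (fun ω => SN (NUSea.O.par0 (j + 1)) (fun _ => PBU.cr e1 J (j + 1)) ω *
          SN (NUSea.O.par0 (j + 1)) (fun _ => PBU.cr e1 J (j + 1)) ω)) +
    F (mN (2 * (j + 1))) w
      (Vp (rhS (hS j s)) (fun _ => PBU.cr e1 J (j + 1)) (qF (rowS j s) 0 t))

theorem mainL_eq (ep e1 J : ℝ) (j : ℕ) (s t : ℝ) :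
    mainL ep e1 J j s t = mainG e1 J j s t (PBLg.wL ep e1 J j s t) := rfl

/-- the weight of the family with the coefficient `c` -/
def wC' (ep e1 J : ℝ) (j : ℕ) (s t : ℝ) (c : ℕ → ℂ) : CfN (2 * (j + 1)) → ℂ :=
  wN (fun _ => PBLX.ZF ep j s t) (PBLX.pS j) (2 * (j + 1)) (PBLX.eC e1 J j) (PBLX.eC' e1 J j) c

theorem wC'_wG (ep e1 J : ℝ) (cf : ℕ → ℝ → ℝ → ℕ → ℂ) (j : ℕ) (s t : ℝ) :
    wC' ep e1 J j s t (cf j s t) = PVLX.wG (PBLX.ZF ep) cf e1 J j s t := rfl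

theorem wC'_wL (ep e1 J : ℝ) (j : ℕ) (s t : ℝ) :
    wC' ep e1 J j s t (PBLX.cF j s t) = PBLg.wL ep e1 J j s t := by
  unfold wC' PBLg.wL
  rfl

/-- the value of the total insertion with the coefficient `c` -/
def F0TZ (ep : ℝ) (j : ℕ) (s t : ℝ) (c : ℕ → ℂ) : ℂ :=
  F0N (PBT.ZL (fun _ => Leg.cc (j + 1)) j (4 / 3 * (1 - ep)) (I * s) (I * t)) (PBT.pL (j + 1))
    (3 / 5 * NUP1.l) (2 * (j + 1)) c (insT j s t)

/-! ### the moments for another weight of the same norm -/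

theorem pins_nw {Ω : Type*} [MeasurableSpace Ω] {μ : Measure Ω} {y₁ y₂ a : ℝ} {w w' : Ω → ℂ}
    {Vp Vm : (ℂ → ℂ) → Ω → ℂ} {S : Ω → ℂ} {pin : Ω → ℝ} {δ : ℝ}
    (h : Pins y₁ y₂ a μ w Vp Vm S pin δ) (e : ∀ ω, ‖w' ω‖ = ‖w ω‖) :
    Pins y₁ y₂ a μ w' Vp Vm S pin δ where
  δ0 := h.δ0
  p0 := h.p0
  one := h.one.nw e
  two := h.two.nw e
  st := h.st.nw e
  vp M g hg := (h.vp M g hg).nw e
  vm M g hg := (h.vm M g hg).nw e

theorem mo_nw {N : ℕ} {a K2 dp : ℝ} {w w' : CfN N → ℂ} {ρ0 : ℝ → ℂ} {P : NUO.Par} {η : ℕ → Crs}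
    (h : Mo a w ρ0 P η K2 dp) (e : ∀ ω, ‖w' ω‖ = ‖w ω‖) (hm : AEStronglyMeasurable w' (mN N)) :
    Mo a w' ρ0 P η K2 dp where
  K0 := h.K0
  wm := hm
  pin := pins_nw h.pin e
  one := h.one.nw e
  vp M g hg hm' := (h.vp M g hg hm').nw e
  vm M g hg hm' := (h.vm M g hg hm').nw e
  sm := h.sm
  s := h.s.nw e

/-- **the total insertion against the main term**, any coefficient of the norm of `Pf` -/
theorem total_leZ {c : ℝ} (hc : c ≤ 13 / 20) : ∃ a0 : ℝ, 0 < a0 ∧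
    ∀ ep e1 J : ℝ, 0 < ep → ep ≤ 1 / 100 → 0 < e1 → e1 ≤ 1 / 100 → 0 ≤ J →
    Real.exp (-(2 * Real.pi * J)) + 3 * e1 + 3 * ep ≤ a0 → ∃ C : ℝ, 0 < C ∧
    ∀ᶠ j : ℕ in atTop, ∀ s ∈ Set.Icc (0 : ℝ) 1, ∀ t ∈ Set.Icc (0 : ℝ) 1, ∀ cf : ℕ → ℂ,
      (∀ n, ‖cf n‖ = ‖Pf (I * t) (rowS j s) (rowS j s)‖) →
      ‖((j + 1 : ℝ) : ℂ) * F0TZ ep j s t cf - mainG e1 J j s t (wC' ep e1 J j s t cf)‖ ≤
        C * ((j + 1 : ℕ) : ℝ) ^ (-c) := by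
  have hl := Bd.l_pos
  have hlN : NUP1.l = NUMF.l := rfl
  obtain ⟨a1, ha1, HT⟩ := trN_ZL
  obtain ⟨a2, ha2, HU⟩ := PBU.uxL 2 6 (1 / 40) (by norm_num)
  obtain ⟨Kr, hKr, HR⟩ := PBRep.repI (a' := 19 / 10) (by norm_num) (by norm_num)
  obtain ⟨C1, hC1, HE⟩ := PBEI.rep_EF (a := 39 / 20) (a' := 19 / 10) (by norm_num) (by norm_num)
    (by norm_num)
  obtain ⟨C2, hC2, HL⟩ := PBQ1.lamK_DQ
  obtain ⟨Mq, hMq, HQ⟩ := exists_gl_dec hC2.le (fun z h1 h2 b u hu =>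
    HL z (by rw [h1, abs_zero]; exact (half_pos NUMF.l_pos).le) h2 2 le_rfl b u hu)
  refine ⟨min a1 a2, lt_min ha1 ha2, fun ep e1 J hep hep1 he he1 hJ hsm => ?_⟩
  obtain ⟨m1, HT⟩ := HT ep e1 J hep hep1 he he1 hJ (hsm.trans (min_le_left _ _))
  have hU := HU ep e1 J hep he hJ (hsm.trans (min_le_right _ _))
  obtain ⟨m2, HM⟩ := moL hU le_rfl (a := 19 / 10) (by norm_num) (by norm_num)
  refine ⟨Kr * (1 + Mq) * (720 * Real.exp 2), by positivity, ?_⟩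
  filter_upwards [eventually_ge_atTop m1, eventually_ge_atTop m2] with j j1 j2 s hs t ht cf hcf
  have hs1 : |s| ≤ 1 := abs_le.2 ⟨by linarith [hs.1], hs.2⟩
  have ht1 : |t| ≤ 1 := abs_le.2 ⟨by linarith [ht.1], ht.2⟩
  have hx := PBEI.rowS_ok j hs1
  have hT := HT j j1 s t hs1 ht1
  have hP : NURow.ParP (PBT.pL (j + 1)) := parP_par0 (j + 1)
  have hPO : PBOb.ParO (PBT.pL (j + 1)) := PBOb.ParO.of hP
  have hPC : NUGC.ParC (PBT.pL (j + 1)) := PBF.parZ_parC (j + 1)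
  have hL := ln_row (N := 2 * (j + 1)) hP (x0 := 3 / 5 * l) (by linarith) (by linarith) hx
  have hw : AEStronglyMeasurable (PBLg.wL ep e1 J j s t) (mN (2 * (j + 1))) :=
    (wN_meas hT.mc).aestronglyMeasurable
  have hw' : AEStronglyMeasurable (wC' ep e1 J j s t cf) (mN (2 * (j + 1))) :=
    (wN_meas hT.mc).aestronglyMeasurable
  have hnw : ∀ ω, ‖wC' ep e1 J j s t cf ω‖ = ‖PBLg.wL ep e1 J j s t ω‖ := fun ω => by
    rw [← wC'_wL]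
    exact norm_wN hcf ω
  have hM := mo_nw (HM j j2 s t hs1 ht1 hw) hnw hw'
  have eρ : (fun u => rhoR (rowS j s) (vl l u)) = rhS (hS j s) := by
    funext u
    exact PBLg.rhoR_hS j s u
  have hc0 : ∀ n ≤ 2 * (j + 1), MCr (PBT.crL e1 J (j + 1)) (PBT.crL' e1 J (j + 1)) := fun n hn =>
    (hT.ins n hn).hc
  have hre : |(I * (t : ℂ)).re| ≤ l / 2 := by
    rw [show (I * (t : ℂ)).re = 0 by simp, abs_zero]
    positivity
  -- the linear insertion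
  have hadl : AdS (PBT.pL (j + 1)) (3 / 5 * l) (ep / 4)
      (sK fun b z => ((j + 1 : ℕ) : ℂ) * gl (rowS j s) 0 (I * t) b z) :=
    (adS_gl hPO (by linarith) (by linarith) hx 0 hre).cmul _
  obtain ⟨q1, q2⟩ := HQ (j + 1) (rowS j s) 0 hx t ht1 (19 / 10) (by norm_num) (by norm_num)
  have hobs := obs_gl (N := 2 * (j + 1)) (P := PBT.pL (j + 1)) (x0 := 3 / 5 * l) (δ := ep / 4)
    (a := 19 / 10) (Mq := Mq) (η := fun _ => PBT.crL e1 J (j + 1))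
    (η' := fun _ => PBT.crL' e1 J (j + 1)) hPC.goodQ hPO (by linarith) hPC.rm hc0
    (by linarith) (fun n hn r hr O => (hT.ins n hn).hη r hr O) hL.hρ (rowS j s) 0 t
    (by norm_num) (by norm_num) hMq.le q1 q2
  have evc : (VC (PBQ1.rhK (rowS j s)) (PBT.pL (j + 1)) (fun _ => PBT.crL e1 J (j + 1))
      fun b z => ((j + 1 : ℕ) : ℂ) * gl (rowS j s) 0 (I * t) b z : CfN (2 * (j + 1)) → ℂ) =
      fun ω => ((j + 1 : ℕ) : ℂ) * VC (PBQ1.rhK (rowS j s)) (PBT.pL (j + 1))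
        (fun _ => PBT.crL e1 J (j + 1)) (gl (rowS j s) 0 (I * t)) ω := by
    funext ω
    exact VC_smul _ _ _ ω
  rw [← evc] at hobs
  rw [eρ] at hL hobs
  -- integrability of the two channels
  obtain ⟨r1, r2, -⟩ := HE (j + 1) (rowS j s) 0 hx
  have y1 : -(NUMF.l / 10) < 0 := by rw [← hlN]; linarith
  have y2 : 0 < 9 / 20 * NUMF.l := by rw [← hlN]; linarith
  have hρm : AEStronglyMeasurable (rhS (hS j s)) volume := (PBLg.DN_rhS j s).1.1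
  have i1 := i2 (N := 2 * (j + 1)) (η := fun _ => PBT.crL e1 J (j + 1))
    (η' := fun _ => PBT.crL' e1 J (j + 1)) (rowS j s) 0 r1 y1 y2 hρm hc0 hw' hM.K0 hM.vp
  have i1' := i2' (N := 2 * (j + 1)) (η := fun _ => PBT.crL e1 J (j + 1))
    (η' := fun _ => PBT.crL' e1 J (j + 1)) (rowS j s) 0 r2 y1 y2 hc0 hw' hM.K0 hM.vm
  have key := HR (j + 1) (rowS j s) 0 hx _ (PBT.pL (j + 1)) (3 / 5 * l) _ _ _ (2 * (j + 1)) _ _
    cf _ (PBQ1.rhK (rowS j s)) (rhS (hS j s))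
    (gl (rowS j s) 0 (I * t)) t Mq _ _ hT hL hM hadl hobs i1 i1'
  have e1' : ((j + 1 : ℝ) : ℂ) = ((j + 1 : ℕ) : ℂ) := by push_cast; ring
  have eP : PBEI.rP (rowS j s) 0 = (PBV.rP j s : ℂ) := PBEI.rP_rowS j s
  have eM : PBEI.rM (rowS j s) 0 = (PBV.rM j s : ℂ) := PBEI.rM_rowS j s
  rw [eP, eM] at key
  rw [e1']
  refine (key).trans ?_
  -- sizes
  have hm0 : (0 : ℝ) < ((j + 1 : ℕ) : ℝ) := by positivity
  have hm1 : (1 : ℝ) ≤ ((j + 1 : ℕ) : ℝ) := by exact_mod_cast Nat.succ_le_succ (Nat.zero_le j)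
  have hexp : Real.exp (2 * |t|) ≤ Real.exp 2 := Real.exp_le_exp.2 (by linarith)
  have hpow : ((j + 1 : ℕ) : ℝ) ^ (-(3 / 8 * (19 / 10) * (1 - 4 * e1))) *
      ((j + 1 : ℕ) : ℝ) ^ (1 / 40 : ℝ) ≤ ((j + 1 : ℕ) : ℝ) ^ (-c) := by
    rw [← Real.rpow_add hm0]
    refine Real.rpow_le_rpow_of_exponent_le hm1 ?_
    linarith
  have hdl : PBUI.dl 720 e1 (19 / 10) (1 / 40) (Real.exp (2 * |t|)) (j + 1) ≤
      720 * Real.exp 2 * ((j + 1 : ℕ) : ℝ) ^ (-c) := by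
    unfold PBUI.dl
    calc 720 * ((j + 1 : ℕ) : ℝ) ^ (-(3 / 8 * (19 / 10) * (1 - 4 * e1))) *
          ((j + 1 : ℕ) : ℝ) ^ (1 / 40 : ℝ) * Real.exp (2 * |t|) =
        720 * (((j + 1 : ℕ) : ℝ) ^ (-(3 / 8 * (19 / 10) * (1 - 4 * e1))) *
          ((j + 1 : ℕ) : ℝ) ^ (1 / 40 : ℝ)) * Real.exp (2 * |t|) := by ring
      _ ≤ 720 * ((j + 1 : ℕ) : ℝ) ^ (-c) * Real.exp 2 := by gcongr
      _ = _ := by ring
  have hK0 : 0 ≤ Kr * (1 + Mq) := by positivity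
  calc Kr * (1 + Mq) * PBUI.dl 720 e1 (19 / 10) (1 / 40) (Real.exp (2 * |t|)) (j + 1) ≤
      Kr * (1 + Mq) * (720 * Real.exp 2 * ((j + 1 : ℕ) : ℝ) ^ (-c)) :=
        mul_le_mul_of_nonneg_left hdl hK0
    _ = _ := by ring

/-! ### the function -/

open PBZF (ZR ZdR ZpR Lz rwx)

/-- **the function at one moved row** -/
theorem fxz_val (ζ : ℂ) (j : ℕ) (η : ℝ) {z0 : ℂ} (hz : Lz z0) :
    fxz ζ j ((η : ℂ) * I) z0 = Pf z0 (rwx j (η : ℂ)) (rwx j (η : ℂ)) *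
      ∑ n ∈ range (2 * (j + 1) + 1), tw ζ (j + 1) n *
        DZ (Leg.cc (j + 1)) (Leg.cc (j + 1)) (Lg z0 z0) (Lg z0 z0) (rwx j (η : ℂ))
          (rwx j (η : ℂ)) n := by
  have hl := Bd.l_pos
  have hz' := hz
  obtain ⟨z1, z2⟩ := hz'
  show WND.fz ζ (rwx j (η : ℂ)) z0 = _
  rw [WND.fz_right ζ (PBZF.Rws_rwx j η) ⟨by linarith, by linarith⟩]
  unfold WND.nzz WND.nzn
  rw [Finset.mul_sum]
  refine Finset.sum_congr rfl fun n _ => ?_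
  show tw ζ (j + 1) n * (Pf z0 (rwx j (η : ℂ)) (rwx j (η : ℂ)) *
    DZ (Leg.cc (j + 1)) (Leg.cc (j + 1)) (Lg z0 z0) (Lg z0 z0) (rwx j (η : ℂ))
      (rwx j (η : ℂ)) n) = _
  ring

/-- the derivative from the total insertion, `ζ` uniform -/
theorem hD_allZ {d : ℝ} (hd : 0 < d) : ∃ a0 : ℝ, 0 < a0 ∧
    ∀ ep : ℝ, 0 < ep → ep ≤ 1 / 100 → ∀ e1 : ℝ, 0 < e1 → e1 ≤ 1 / 100 → ∀ J : ℝ, 0 ≤ J →
    Real.exp (-(2 * Real.pi * J)) + 3 * e1 + 3 * ep ≤ a0 →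
    ∃ m0 : ℕ, ∀ j : ℕ, m0 ≤ j → ∀ s ∈ Set.Icc (0 : ℝ) 1, ∀ t ∈ Set.Icc (0 : ℝ) 1,
      ∀ ζ : ℂ, ‖ζ‖ = 1 → ∀ (main : ℂ) (δa : ℝ),
      ‖((j + 1 : ℝ) : ℂ) * F0TZ ep j s t (fun n => tw ζ (j + 1) n *
        Pf (I * t) (rowS j s) (rowS j s)) - main‖ ≤ δa →
      ∃ D : ℂ, HasDerivAt (fun s : ℝ => fxz ζ j (I * s) (I * t)) D s ∧
        ‖((j + 1 : ℝ) : ℂ) * D - main‖ ≤ δa + Real.exp 2 * ((j + 1 : ℕ) : ℝ) ^ (-1 + d) := by
  obtain ⟨a0, ha0, HT⟩ := cutZ Pool.Agent.NUM3.stabProd hd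
  refine ⟨a0, ha0, fun ep hep hep1 e1 he he1 J hJ hsm => ?_⟩
  obtain ⟨m0, HT⟩ := HT ep hep hep1 e1 he he1 J hJ hsm
  refine ⟨m0, fun j hj s hs t ht ζ hζ main δa h1 => ?_⟩
  have hl := Bd.l_pos
  have hs1 : |s| ≤ 1 := abs_le.2 ⟨by linarith [hs.1], hs.2⟩
  have ht1 : |t| ≤ 1 := abs_le.2 ⟨by linarith [ht.1], ht.2⟩
  have hre : (I * (t : ℂ)).re = 0 := by simp
  have him : (I * (t : ℂ)).im = t := by simp
  have hz : Lz (I * (t : ℂ)) := by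
    constructor <;> rw [hre] <;> linarith
  have hP : NUGC.ParC (PBT.pL (j + 1)) := PBF.parZ_parC (j + 1)
  set v : Fin 2 → ℂ := PBFar.vI (4 / 3 * (1 - ep)) j ((s : ℂ) * I) I (PBFar.xe j s) with hv
  have hb : (0 : ℝ) < 4 / 3 * (1 - ep) := by linarith
  have hb' : 4 / 3 * (1 - ep) ≤ 4 / 3 := by linarith
  have key := fxZ_D (k := j) (s := s) (b := 4 / 3 * (1 - ep)) (z0 := I * t) (v := v)
    (fun n => tw ζ (j + 1) n) hP hb hb' hz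
    (fun n _ => by
      have := ffamH j s t n hs1 ht1
      rw [← rwx_rowS] at this
      exact this)
  have hlog : 0 ≤ Real.log ((j + 1 : ℕ) : ℝ) := Real.log_nonneg (by
    have : (1 : ℝ) ≤ ((j + 1 : ℕ) : ℝ) := by exact_mod_cast Nat.succ_le_succ (Nat.zero_le j)
    exact this)
  have hc := HT j hj s hs1 (I * t) hz (by rw [him]; linarith [ht1]) ζ hζ v hv
  have efx : (fun s : ℝ => fxz ζ j (I * s) (I * t)) = fun η : ℝ =>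
      Pf (I * t) (PBZF.rwx j (η : ℂ)) (PBZF.rwx j (η : ℂ)) *
        ∑ n ∈ range (2 * (j + 1) + 1), tw ζ (j + 1) n *
          DZ (Leg.cc (j + 1)) (Leg.cc (j + 1)) (Lg (I * t) (I * t))
          (Lg (I * t) (I * t)) (PBZF.rwx j (η : ℂ)) (PBZF.rwx j (η : ℂ)) n := by
    funext η
    rw [mul_comm I (η : ℂ)]
    exact fxz_val ζ j η hz
  rw [efx]
  have eA : F0TZ ep j s t (fun n => tw ζ (j + 1) n * Pf (I * t) (rowS j s) (rowS j s)) =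
      F0N (ZR (fun _ => Leg.cc (j + 1)) (4 / 3 * (1 - ep)) j (I * t) s v s)
      (PBT.pL (j + 1)) (3 / 5 * NUP1.l) (2 * (j + 1))
      (fun n => tw ζ (j + 1) n * Pf (I * t) (PBZF.rwx j s) (PBZF.rwx j s))
      (fun ι _ c z => nuQI (PBQ1.rhK (PBZF.rwx j s)) (PBOb.aK (xiR (PBZF.rwx j s) 0)) ι c z +
        nuI (PBQ1.rhK (PBZF.rwx j s)) (glK (I * t) (PBZF.rwx j s) 0) ι c z) := by
    unfold F0TZ insT
    rw [rwx_rowS, PBT.ZR_topG, mul_comm (s : ℂ) I]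
  rw [eA] at h1
  have hcn := hD_one key h1 hc
  obtain ⟨D, hD, hb2⟩ := hcn
  refine ⟨D, hD, hb2.trans ?_⟩
  have hj0 : (0 : ℝ) < ((j + 1 : ℕ) : ℝ) := by positivity
  have en : ‖(((j : ℝ) + 1 : ℝ) : ℂ)‖ = ((j + 1 : ℕ) : ℝ) := by
    rw [Complex.norm_real, Real.norm_of_nonneg (by positivity)]
    push_cast
    ring
  have e2 : Real.exp (2 * |(I * (t : ℂ)).im|) ≤ Real.exp 2 := by
    rw [him]
    exact Real.exp_le_exp.2 (by linarith)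
  have e3 : ((j + 1 : ℕ) : ℝ) * ((j + 1 : ℕ) : ℝ) ^ (-2 + d) = ((j + 1 : ℕ) : ℝ) ^ (-1 + d) := by
    have h := Real.rpow_add hj0 1 (-2 + d)
    rw [Real.rpow_one] at h
    rw [← h]
    congr 1
    ring
  rw [en]
  have hp : 0 ≤ ((j + 1 : ℕ) : ℝ) ^ (-2 + d) := Real.rpow_nonneg hj0.le _
  calc δa + ((j + 1 : ℕ) : ℝ) * (((j + 1 : ℕ) : ℝ) ^ (-2 + d) * Real.exp (2 * |(I * (t : ℂ)).im|))
      ≤ δa + ((j + 1 : ℕ) : ℝ) * (((j + 1 : ℕ) : ℝ) ^ (-2 + d) * Real.exp 2) := by gcongr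
    _ = δa + Real.exp 2 * (((j + 1 : ℕ) : ℝ) * ((j + 1 : ℕ) : ℝ) ^ (-2 + d)) := by ring
    _ = _ := by rw [e3]

/-- **hypothesis `hD` of `PBEM.E2_of` with the winding weight**, uniform in `ζ` -/
theorem hD_unif {c : ℝ} (hc0 : 0 ≤ c) (hc : c ≤ 13 / 20) : ∃ a0 : ℝ, 0 < a0 ∧
    ∀ ep e1 J : ℝ, 0 < ep → ep ≤ 1 / 100 → 0 < e1 → e1 ≤ 1 / 100 → 0 ≤ J →
    Real.exp (-(2 * Real.pi * J)) + 3 * e1 + 3 * ep ≤ a0 → ∃ C : ℝ, 0 < C ∧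
    ∀ᶠ j : ℕ in atTop, ∀ s ∈ Set.Icc (0 : ℝ) 1, ∀ t ∈ Set.Icc (0 : ℝ) 1, ∀ ζ : ℂ, ‖ζ‖ = 1 →
      ∃ D : ℂ, HasDerivAt (fun s : ℝ => fxz ζ j (I * s) (I * t)) D s ∧
      ‖((j + 1 : ℝ) : ℂ) * D - mainG e1 J j s t (PVLX.wG (PBLX.ZF ep)
        (fun j s t n => tw ζ (j + 1) n * PBLX.cF j s t n) e1 J j s t)‖ ≤ C * (j : ℝ) ^ (-c) := by
  obtain ⟨a1, ha1, H1⟩ := total_leZ hc
  obtain ⟨a2, ha2, H2⟩ := hD_allZ (d := 1 / 4) (by norm_num)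
  refine ⟨min a1 a2, lt_min ha1 ha2, fun ep e1 J hep hep1 he he1 hJ hsm => ?_⟩
  obtain ⟨C, hC, H1⟩ := H1 ep e1 J hep hep1 he he1 hJ (hsm.trans (min_le_left _ _))
  obtain ⟨m0, H⟩ := H2 ep hep hep1 e1 he he1 J hJ (hsm.trans (min_le_right _ _))
  refine ⟨C + Real.exp 2, by positivity, ?_⟩
  filter_upwards [H1, eventually_ge_atTop m0, eventually_ge_atTop 1] with j h1 hm0 h2 s hs t ht ζ hζ
  have h3 := h1 s hs t ht (fun n => tw ζ (j + 1) n * Pf (I * t) (rowS j s) (rowS j s))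
    fun n => norm_tw_mul hζ _ _ _
  obtain ⟨D, hD, hb⟩ := H j hm0 s hs t ht ζ hζ _ _ h3
  refine ⟨D, hD, hb.trans ?_⟩
  have hm1 : (1 : ℝ) ≤ ((j + 1 : ℕ) : ℝ) := by exact_mod_cast Nat.succ_le_succ (Nat.zero_le j)
  have hj0 : (0 : ℝ) < j := by exact_mod_cast h2
  have p1 : ((j + 1 : ℕ) : ℝ) ^ (-1 + 1 / 4 : ℝ) ≤ ((j + 1 : ℕ) : ℝ) ^ (-c) :=
    Real.rpow_le_rpow_of_exponent_le hm1 (by linarith)
  have p2 : ((j + 1 : ℕ) : ℝ) ^ (-c) ≤ (j : ℝ) ^ (-c) := by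
    refine Real.rpow_le_rpow_of_nonpos hj0 ?_ (by linarith)
    push_cast
    linarith
  have hE := Real.exp_pos (2 : ℝ)
  calc C * ((j + 1 : ℕ) : ℝ) ^ (-c) + Real.exp 2 * ((j + 1 : ℕ) : ℝ) ^ (-1 + 1 / 4 : ℝ) ≤
      C * (j : ℝ) ^ (-c) + Real.exp 2 * (j : ℝ) ^ (-c) := by
        have := p1.trans p2
        gcongr
    _ = _ := by ring

/-- **hypothesis `hD` of `PBEM.E2_of` with the winding weight**, the levels of a sequence -/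
theorem hD_finZ (zz : ℕ → ℂ) (hz : ∀ j, ‖zz j‖ = 1) {c : ℝ} (hc0 : 0 ≤ c) (hc : c ≤ 13 / 20) :
    ∃ a0 : ℝ, 0 < a0 ∧
    ∀ ep e1 J : ℝ, 0 < ep → ep ≤ 1 / 100 → 0 < e1 → e1 ≤ 1 / 100 → 0 ≤ J →
    Real.exp (-(2 * Real.pi * J)) + 3 * e1 + 3 * ep ≤ a0 → ∃ C : ℝ, 0 < C ∧
    ∀ᶠ j : ℕ in atTop, ∀ s ∈ Set.Icc (0 : ℝ) 1, ∀ t ∈ Set.Icc (0 : ℝ) 1, ∃ D : ℂ,
      HasDerivAt (fun s : ℝ => fxz (zz j) j (I * s) (I * t)) D s ∧
      ‖((j + 1 : ℝ) : ℂ) * D - mainG e1 J j s t (PVLX.wG (PBLX.ZF ep)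
        (fun j s t n => tw (zz j) (j + 1) n * PBLX.cF j s t n) e1 J j s t)‖ ≤
        C * (j : ℝ) ^ (-c) := by
  obtain ⟨a0, ha0, H⟩ := hD_unif hc0 hc
  refine ⟨a0, ha0, fun ep e1 J hep hep1 he he1 hJ hsm => ?_⟩
  obtain ⟨C, hC, h⟩ := H ep e1 J hep hep1 he he1 hJ hsm
  refine ⟨C, hC, ?_⟩
  filter_upwards [h] with j hj s hs t ht
  exact hj s hs t ht (zz j) (hz j)

end WNDH

end

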