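import Pool.Agent.WND.TwV
import Pool.Agent.WND.HD

/-!
# Plan X: the first Ward identity with anti-legs and the winding weight (helper5)

Rows `i s, 0^j`, legs at `i t`, anti-legs at `0`, `j + 1` rows; coefficient `tw ζ (j + 1) n` of `n`
quanta. Copy of helper89's `PV/RepV`, `PV/HDV`.

* `mainGV w`: the main term of `PBEM.E2V_of` with the weight `w`;
* `total_leVZ`: the total insertion against `mainGV`, any coefficient of the norm of `PfV`;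
* **`hD_unifV`**: the derivative against the main term, uniform in `ζ` (`‖ζ‖ = 1`);
* **`hD_finVZ`**: the same for the levels of a sequence `zz`.
-/

set_option autoImplicit false
set_option linter.unusedSectionVars false
set_option linter.unusedVariables false
set_option maxHeartbeats 1000000

noncomputable section

attribute [local instance] NUSea.seaP

open Complex MeasureTheory Finset Filter
open scoped ENNReal Classical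

namespace WNDH

section rep

open NUP1 hiding Kd
open NUO NUP1S NUP1S.Ab NUP1S.AbC PBF PBFunc PB PBRep
open PBI (Stt Kd F0 F0Ok fl nuI nuQI mnI InD PAll Ins Pf_ne mu1_eq rowS_re meas_SN)
open PBForce (xiR rhoR Rws0)
open PBV (wm)
open PBEI (Apl Ami Bch rF uF qF rowS)
open PBLg (rhS hS)
open PVI (wV trN_V moV insTV rhV DN_rhV)

/-- **the main term with the weight `w`**: the form of `PBEM.E2V_of` -/
def mainGV (e1 J : ℝ) (j : ℕ) (s t : ℝ) (w : CfN (2 * (j + 1)) → ℂ) : ℂ :=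
  (∫ q, F (mN (2 * (j + 1))) w (fun ω =>
      Vp (rhV j s) (fun _ => PBU.cr e1 J (j + 1)) (Apl (rowS j s) 0 q) ω *
        Vp (rhV j s) (fun _ => PBU.cr e1 J (j + 1)) (Bch q) ω) ∂wm) +
    ((∫ q, F (mN (2 * (j + 1))) w (fun ω =>
        Vm (fun _ => PBU.cr e1 J (j + 1)) (Ami (rowS j s) 0 q) ω *
          Vm (fun _ => PBU.cr e1 J (j + 1)) (Bch q) ω) ∂wm) +
      2 * F (mN (2 * (j + 1))) w (fun ω =>
        Vm (fun _ => PBU.cr e1 J (j + 1)) (uF (rowS j s) 0) ω *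
          SN (NUSea.O.par0 (j + 1)) (fun _ => PBU.cr e1 J (j + 1)) ω) -
      ((PBV.rP j s : ℂ) - (PBV.rM j s : ℂ)) / 2 * F (mN (2 * (j + 1))) w
        (fun ω => SN (NUSea.O.par0 (j + 1)) (fun _ => PBU.cr e1 J (j + 1)) ω *
          SN (NUSea.O.par0 (j + 1)) (fun _ => PBU.cr e1 J (j + 1)) ω)) +
    F (mN (2 * (j + 1))) w
      (Vp (rhV j s) (fun _ => PBU.cr e1 J (j + 1))
        (fun z => qF (rowS j s) 0 t z - qF (rowS j s) 0 0 z))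

/-- the weight of the family with anti-legs, coefficient `c` -/
abbrev wCV (ep e1 J : ℝ) (j : ℕ) (s t : ℝ) (c : ℕ → ℂ) : CfN (2 * (j + 1)) → ℂ :=
  wN (fun _ => PV.ZV (4 / 3 * (1 - ep)) (rowS j s) [I, -I] [] (I * t) 0)
    (fun _ => NUSea.O.par0 (j + 1)) (2 * (j + 1)) (fun _ => PBU.cr e1 J (j + 1))
    (fun _ => PBU.cr' e1 J (j + 1)) c

theorem wCV_wG (ep e1 J : ℝ) (cf : ℕ → ℝ → ℝ → ℕ → ℂ) (j : ℕ) (s t : ℝ) :
    wCV ep e1 J j s t (cf j s t) = PVLX.wG (PVX.ZFV ep) cf e1 J j s t := rfl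

/-- the value of the total insertion with the coefficient `c` -/
def F0TVZ (ep : ℝ) (j : ℕ) (s t : ℝ) (c : ℕ → ℂ) : ℂ :=
  F0N (PV.ZV (4 / 3 * (1 - ep)) (rowS j s) [I, -I] [] (I * t) 0) (PBT.pL (j + 1))
    (3 / 5 * NUP1.l) (2 * (j + 1)) c (insTV j s t)

/-- **the total insertion against the main term**, any coefficient of the norm of `PfV` -/
theorem total_leVZ {p : ℝ} (hp : 1 / 10 ≤ p) : ∃ a0 : ℝ, 0 < a0 ∧
    ∀ ep e1 J : ℝ, 0 < ep → ep ≤ 1 / 100 → 0 < e1 → e1 ≤ 1 / 100 → 0 ≤ J →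
    Real.exp (-(2 * Real.pi * J)) + 3 * e1 + 3 * ep ≤ a0 → ∃ C : ℝ, 0 < C ∧
    ∀ᶠ j : ℕ in atTop, ∀ s ∈ Set.Icc (0 : ℝ) 1, ∀ t ∈ Set.Icc (0 : ℝ) 1, ∀ cf : ℕ → ℂ,
      (∀ n, ‖cf n‖ = ‖PV.PfV (I * t) 0 (rowS j s) (rowS j s)‖) →
      ‖((j + 1 : ℝ) : ℂ) * F0TVZ ep j s t cf - mainGV e1 J j s t (wCV ep e1 J j s t cf)‖ ≤
        C * ((j + 1 : ℕ) : ℝ) ^ p := by
  have hl := Bd.l_pos
  have hlN : NUP1.l = NUMF.l := rfl
  obtain ⟨a1, ha1, HT⟩ := trN_V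
  obtain ⟨a2, ha2, HU⟩ := PV.uxV 2 6 (1 / 40) (by norm_num)
  obtain ⟨Kr, hKr, HR⟩ := PVR.repI_q (a' := 19 / 10) (by norm_num) (by norm_num)
  obtain ⟨C1, hC1, HE⟩ := PBEI.rep_EF (a := 39 / 20) (a' := 19 / 10) (by norm_num) (by norm_num)
    (by norm_num)
  obtain ⟨Mq, hMq, HQ⟩ := PVR.exists_glV_dec
  refine ⟨min a1 a2, lt_min ha1 ha2, fun ep e1 J hep hep1 he he1 hJ hsm => ?_⟩
  obtain ⟨m1, HT⟩ := HT ep e1 J hep hep1 he he1 hJ (hsm.trans (min_le_left _ _))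
  have hU := HU ep e1 J hep he hJ (hsm.trans (min_le_right _ _))
  obtain ⟨m2, HM⟩ := moV hU le_rfl (a := 19 / 10) (by norm_num) (by norm_num)
  refine ⟨Kr * (1 + Mq) * (720 * Real.exp 4), by positivity, ?_⟩
  filter_upwards [eventually_ge_atTop m1, eventually_ge_atTop m2] with j j1 j2 s hs t ht cf hcf
  have hs1 : |s| ≤ 1 := abs_le.2 ⟨by linarith [hs.1], hs.2⟩
  have ht1 : |t| ≤ 1 := abs_le.2 ⟨by linarith [ht.1], ht.2⟩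
  have hx := PBEI.rowS_ok j hs1
  have hT := HT j j1 s t hs1 ht1
  have hP : NURow.ParP (PBT.pL (j + 1)) := parP_par0 (j + 1)
  have hPO : PBOb.ParO (PBT.pL (j + 1)) := PBOb.ParO.of hP
  have hPC : NUGC.ParC (PBT.pL (j + 1)) := PBF.parZ_parC (j + 1)
  have hL := ln_row (N := 2 * (j + 1)) hP (x0 := 3 / 5 * l) (by linarith) (by linarith) hx
  have hw : AEStronglyMeasurable (wV ep e1 J j s t) (mN (2 * (j + 1))) :=
    (wN_meas hT.mc).aestronglyMeasurable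
  have hw' : AEStronglyMeasurable (wCV ep e1 J j s t cf) (mN (2 * (j + 1))) :=
    (wN_meas hT.mc).aestronglyMeasurable
  have hnw : ∀ ω, ‖wCV ep e1 J j s t cf ω‖ = ‖wV ep e1 J j s t ω‖ := fun ω => norm_wN hcf ω
  have hM := mo_nw (HM j j2 s t hs1 ht1 hw) hnw hw'
  have hc0 : ∀ n ≤ 2 * (j + 1), MCr (PBT.crL e1 J (j + 1)) (PBT.crL' e1 J (j + 1)) := fun n hn =>
    (hT.ins n hn).hc
  have hre : |(I * (t : ℂ)).re| ≤ l / 2 := by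
    rw [show (I * (t : ℂ)).re = 0 by simp, abs_zero]
    positivity
  have hI0 : I * ((0 : ℝ) : ℂ) = 0 := by simp
  -- the linear insertion
  have hadl : AdS (PBT.pL (j + 1)) (3 / 5 * l) (ep / 4)
      (sK fun b z => ((j + 1 : ℕ) : ℂ) * PVR.glV (rowS j s) 0 (I * t) 0 b z) :=
    (PVR.adS_glV hPO (by linarith) (by linarith) hx 0 hre (p' := 0)
      (by rw [zero_re, abs_zero]; positivity)).cmul _
  obtain ⟨q1, q2⟩ := HQ (j + 1) (rowS j s) 0 hx t 0 ht1 (by simp) (19 / 10) (by norm_num)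
    (by norm_num)
  have hobs := PVR.obs_glV (N := 2 * (j + 1)) (P := PBT.pL (j + 1)) (x0 := 3 / 5 * l) (δ := ep / 4)
    (a := 19 / 10) (Mq := Mq) (η := fun _ => PBT.crL e1 J (j + 1))
    (η' := fun _ => PBT.crL' e1 J (j + 1)) hPC.goodQ hPO (by linarith) hPC.rm hc0
    (by linarith) (fun n hn r hr O => (hT.ins n hn).hη r hr O) hL.hρ (rowS j s) 0 t 0
    (by norm_num) (by norm_num) hMq.le q1 q2
  rw [hI0] at hobs
  have evc : (VC (PBQ1.rhK (rowS j s)) (PBT.pL (j + 1)) (fun _ => PBT.crL e1 J (j + 1))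
      fun b z => ((j + 1 : ℕ) : ℂ) * PVR.glV (rowS j s) 0 (I * t) 0 b z :
        CfN (2 * (j + 1)) → ℂ) =
      fun ω => ((j + 1 : ℕ) : ℂ) * VC (PBQ1.rhK (rowS j s)) (PBT.pL (j + 1))
        (fun _ => PBT.crL e1 J (j + 1)) (PVR.glV (rowS j s) 0 (I * t) 0) ω := by
    funext ω
    exact VC_smul _ _ _ ω
  rw [← evc] at hobs
  -- integrability of the two channels
  obtain ⟨r1, r2, -⟩ := HE (j + 1) (rowS j s) 0 hx
  have y1 : -(NUMF.l / 10) < 0 := by rw [← hlN]; linarith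
  have y2 : 0 < 9 / 20 * NUMF.l := by rw [← hlN]; linarith
  have hρm : AEStronglyMeasurable (rhV j s) volume := by
    rw [DN_rhV]
    exact (PBLg.DN_rhS j s).1.1
  have i1 := i2 (N := 2 * (j + 1)) (η := fun _ => PBT.crL e1 J (j + 1))
    (η' := fun _ => PBT.crL' e1 J (j + 1)) (rowS j s) 0 r1 y1 y2 hρm hc0 hw' hM.K0 hM.vp
  have i1' := i2' (N := 2 * (j + 1)) (η := fun _ => PBT.crL e1 J (j + 1))
    (η' := fun _ => PBT.crL' e1 J (j + 1)) (rowS j s) 0 r2 y1 y2 hc0 hw' hM.K0 hM.vm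
  have key := HR (j + 1) (rowS j s) 0 hx _ (PBT.pL (j + 1)) (3 / 5 * l) _ _ _ (2 * (j + 1)) _ _
    cf _ (PBQ1.rhK (rowS j s)) (rhV j s)
    (PVR.glV (rowS j s) 0 (I * t) 0) (PVR.qV (rowS j s) 0 t 0) Mq _ _ hT hL hM hadl hobs i1 i1'
  have e1' : ((j + 1 : ℝ) : ℂ) = ((j + 1 : ℕ) : ℂ) := by push_cast; ring
  have eP : PBEI.rP (rowS j s) 0 = (PBV.rP j s : ℂ) := PBEI.rP_rowS j s
  have eM : PBEI.rM (rowS j s) 0 = (PBV.rM j s : ℂ) := PBEI.rM_rowS j s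
  rw [eP, eM] at key
  rw [e1']
  refine (key).trans ?_
  -- sizes
  have hm0 : (0 : ℝ) < ((j + 1 : ℕ) : ℝ) := by positivity
  have hm1 : (1 : ℝ) ≤ ((j + 1 : ℕ) : ℝ) := by exact_mod_cast Nat.succ_le_succ (Nat.zero_le j)
  have hexp : Real.exp (4 * |t|) ≤ Real.exp 4 := Real.exp_le_exp.2 (by linarith)
  have hpow : ((j + 1 : ℕ) : ℝ) ^ (-(3 / 8 * (19 / 10) * (1 - 4 * e1))) *
      ((j + 1 : ℕ) : ℝ) ^ (1 / 40 : ℝ) * ((j + 1 : ℕ) : ℝ) ^ (3 / 4 : ℝ) ≤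
      ((j + 1 : ℕ) : ℝ) ^ p := by
    rw [← Real.rpow_add hm0, ← Real.rpow_add hm0]
    refine Real.rpow_le_rpow_of_exponent_le hm1 ?_
    linarith
  have hdl : PBUI.dl 720 e1 (19 / 10) (1 / 40)
      (((j + 1 : ℕ) : ℝ) ^ (3 / 4 : ℝ) * Real.exp (4 * |t|)) (j + 1) ≤
      720 * Real.exp 4 * ((j + 1 : ℕ) : ℝ) ^ p := by
    unfold PBUI.dl
    calc 720 * ((j + 1 : ℕ) : ℝ) ^ (-(3 / 8 * (19 / 10) * (1 - 4 * e1))) *
          ((j + 1 : ℕ) : ℝ) ^ (1 / 40 : ℝ) *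
            (((j + 1 : ℕ) : ℝ) ^ (3 / 4 : ℝ) * Real.exp (4 * |t|)) =
        720 * (((j + 1 : ℕ) : ℝ) ^ (-(3 / 8 * (19 / 10) * (1 - 4 * e1))) *
          ((j + 1 : ℕ) : ℝ) ^ (1 / 40 : ℝ) * ((j + 1 : ℕ) : ℝ) ^ (3 / 4 : ℝ)) *
            Real.exp (4 * |t|) := by ring
      _ ≤ 720 * ((j + 1 : ℕ) : ℝ) ^ p * Real.exp 4 := by gcongr
      _ = _ := by ring
  have hK0 : 0 ≤ Kr * (1 + Mq) := by positivity
  refine (mul_le_mul_of_nonneg_left hdl hK0).trans (le_of_eq ?_)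
  ring

end rep

section all

open NUP1 hiding Kd
open NUP1S NUP1.Bd NURow PB PBZF PBRep PBQ1 PBForce PBI PBT PV PVI
open PBX (Lg DZ)
open PBLX (SmallP)
open PBEI (rowS)
open PVZ (ZRV ZdRV ZpRV ZRV_ZV exists_zfamV_P F0_ZRV_ev)
open WND (norm_tw norm_tw_mul)

/-- the derivative from the total insertion, `ζ` uniform -/
theorem hD_allVZ {d : ℝ} (hd : 0 < d) : ∃ a0 : ℝ, 0 < a0 ∧
    ∀ ep : ℝ, 0 < ep → ep ≤ 1 / 100 → ∀ e1 : ℝ, 0 < e1 → e1 ≤ 1 / 100 → ∀ J : ℝ, 0 ≤ J →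
    Real.exp (-(2 * Real.pi * J)) + 3 * e1 + 3 * ep ≤ a0 →
    ∃ m0 : ℕ, ∀ j : ℕ, m0 ≤ j → ∀ s ∈ Set.Icc (0 : ℝ) 1, ∀ t ∈ Set.Icc (0 : ℝ) 1,
      ∀ ζ : ℂ, ‖ζ‖ = 1 → ∀ (main : ℂ) (δa : ℝ),
      ‖((j + 1 : ℝ) : ℂ) * F0TVZ ep j s t (fun n => WND.tw ζ (j + 1) n *
        PfV (I * t) 0 (rowS j s) (rowS j s)) - main‖ ≤ δa →
      ∃ D : ℂ, HasDerivAt (fun s : ℝ => SV ζ j (I * t) (I * s)) D s ∧
        ‖((j + 1 : ℝ) : ℂ) * D - main‖ ≤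
          δa + Real.exp 4 * ((j + 1 : ℕ) : ℝ) ^ (-(1 / 4) + d) := by
  obtain ⟨a0, ha0, HT⟩ := cutZV Pool.Agent.NUM3.stabProd hd
  refine ⟨a0, ha0, fun ep hep hep1 e1 he he1 J hJ hsm => ?_⟩
  obtain ⟨m0, HT⟩ := HT ep hep hep1 e1 he he1 J hJ hsm
  refine ⟨m0, fun j hj s hs t ht ζ hζ main δa h1 => ?_⟩
  have hl := Bd.l_pos
  have hlN : NUP1.l = NUMF.l := rfl
  have hs1 : |s| ≤ 1 := abs_le.2 ⟨by linarith [hs.1], hs.2⟩
  have ht1 : |t| ≤ 1 := abs_le.2 ⟨by linarith [ht.1], ht.2⟩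
  have hre : (I * (t : ℂ)).re = 0 := by simp
  have him : (I * (t : ℂ)).im = t := by simp
  have hz : Lz (I * (t : ℂ)) := by
    constructor <;> rw [hre] <;> linarith
  have hP : NUGC.ParC (pL (j + 1)) := PBF.parZ_parC (j + 1)
  have h0' : |(0 : ℂ).re| ≤ NUP1.l / 2 := by
    rw [Complex.zero_re, abs_zero]
    positivity
  have h0'' : |(0 : ℂ).re| < 7 / 10 * NUP1.l := by
    rw [Complex.zero_re, abs_zero]
    positivity
  set v : Fin 2 → ℂ := PBFar.vI (4 / 3 * (1 - ep)) j ((s : ℂ) * I) I (PBFar.xe j s) with hv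
  have hb : (0 : ℝ) < 4 / 3 * (1 - ep) := by linarith
  have hb' : 4 / 3 * (1 - ep) ≤ 4 / 3 := by linarith
  obtain ⟨Dz, -, hZF⟩ := exists_zfamV_P (fun _ => Leg.cc (j + 1)) j (z := I * (t : ℂ))
    (z' := 0) s v hb hb' hz h0' 
  obtain ⟨Pf', hPf, hN⟩ := fVx_num (a := j) (s := s) (z := I * (t : ℂ))
    (by rw [hre]; linarith) (by rw [hre]; linarith)
  have hF : ∀ n ∈ range (2 * (j + 1) + 1), ∃ B, FFam (3 / 5 * l) n (fl (pL (j + 1))) B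
      (xiK (PBZF.rwx j s) 0) (fun b w => deriv (xiR (PBZF.rwx j s) 0) (fp b w))
      (PBOb.aK (xiR (PBZF.rwx j s) 0)) (rhK (PBZF.rwx j s)) (krK (PBZF.rwx j s))
      (r1K (PBZF.rwx j s) 0) (lamV (I * t) 0) := fun n _ => by
    rw [rwx_rowS]
    exact ffamHV j s t n hs1 ht1
  have key := fVxZ_D (a := j) (s := s) (z := I * (t : ℂ)) (P := pL (j + 1))
    (fun n => WND.tw ζ (j + 1) n)
    (Z := ZRV (fun _ => Leg.cc (j + 1)) (4 / 3 * (1 - ep)) j (I * t) 0 s v)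
    (Zd := ZdRV (fun _ => Leg.cc (j + 1)) (4 / 3 * (1 - ep)) j (I * t) 0 s v)
    (Zp := ZpRV (fun _ => Leg.cc (j + 1)) (4 / 3 * (1 - ep)) j (I * t) 0 s v)
    (fun n _ => hZF _ hP n) hF
    (F0_ZRV_ev hP hb hb' j hz h0'' s v (range (2 * (j + 1) + 1)))
    hPf hN
  have hlog : 0 ≤ Real.log ((j + 1 : ℕ) : ℝ) := Real.log_nonneg (by
    have : (1 : ℝ) ≤ ((j + 1 : ℕ) : ℝ) := by exact_mod_cast Nat.succ_le_succ (Nat.zero_le j)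
    exact this)
  have hc := HT j hj s hs1 (I * t) hz (by rw [him]; linarith [ht1]) ζ hζ v hv
  have efx : (fun s : ℝ => SV ζ j (I * t) (I * s)) = fun η : ℝ =>
      PfV (I * t) 0 (PBZF.rwx j (η : ℂ)) (PBZF.rwx j (η : ℂ)) *
        ∑ n ∈ range (2 * (j + 1) + 1), WND.tw ζ (j + 1) n *
          DZ (Leg.cc (j + 1)) (Leg.cc (j + 1)) (LV (I * t) 0)
          (LV (I * t) 0) (PBZF.rwx j (η : ℂ)) (PBZF.rwx j (η : ℂ)) n := by
    funext η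
    rw [mul_comm I (η : ℂ)]
    rfl
  rw [efx]
  have eA : F0TVZ ep j s t (fun n => WND.tw ζ (j + 1) n *
        PfV (I * t) 0 (rowS j s) (rowS j s)) = F0N (ZRV (fun _ => Leg.cc (j + 1)) (4 / 3 * (1 - ep)) j (I * t) 0 s v s)
      (pL (j + 1)) (3 / 5 * NUP1.l) (2 * (j + 1))
      (fun n => WND.tw ζ (j + 1) n * PfV (I * t) 0 (PBZF.rwx j s) (PBZF.rwx j s))
      (fun ι _ c z => nuQI (rhK (PBZF.rwx j s)) (PBOb.aK (xiR (PBZF.rwx j s) 0)) ι c z +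
        nuI (rhK (PBZF.rwx j s)) (glKV (I * t) 0 (PBZF.rwx j s) 0) ι c z) := by
    unfold F0TVZ insTV
    rw [ZRV_I, rwx_rowS]
    rfl
  rw [eA] at h1
  have hcn := hD_one key h1 hc
  obtain ⟨D, hD, hb2⟩ := hcn
  refine ⟨D, hD, hb2.trans ?_⟩
  have hj0 : (0 : ℝ) < ((j + 1 : ℕ) : ℝ) := by positivity
  have en : ‖(((j : ℝ) + 1 : ℝ) : ℂ)‖ = ((j + 1 : ℕ) : ℝ) := by
    rw [Complex.norm_real, Real.norm_of_nonneg (by positivity)]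
    push_cast
    ring
  have e2 : Real.exp (4 * |(I * (t : ℂ)).im|) ≤ Real.exp 4 := by
    rw [him]
    exact Real.exp_le_exp.2 (by linarith)
  have e3 : ((j + 1 : ℕ) : ℝ) * (((j + 1 : ℕ) : ℝ) ^ (-2 + d) * ((j + 1 : ℕ) : ℝ) ^ (3 / 4 : ℝ)) =
      ((j + 1 : ℕ) : ℝ) ^ (-(1 / 4) + d) := by
    have h := Real.rpow_add hj0 1 (-2 + d)
    rw [Real.rpow_one] at h
    rw [← mul_assoc, ← h, ← Real.rpow_add hj0]
    congr 1
    ring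
  rw [en]
  have hp : 0 ≤ ((j + 1 : ℕ) : ℝ) ^ (-2 + d) := Real.rpow_nonneg hj0.le _
  have hp' : 0 ≤ ((j + 1 : ℕ) : ℝ) ^ (3 / 4 : ℝ) := Real.rpow_nonneg hj0.le _
  calc δa + ((j + 1 : ℕ) : ℝ) * (((j + 1 : ℕ) : ℝ) ^ (-2 + d) *
        (((j + 1 : ℕ) : ℝ) ^ (3 / 4 : ℝ) * Real.exp (4 * |(I * (t : ℂ)).im|)))
      ≤ δa + ((j + 1 : ℕ) : ℝ) * (((j + 1 : ℕ) : ℝ) ^ (-2 + d) *
        (((j + 1 : ℕ) : ℝ) ^ (3 / 4 : ℝ) * Real.exp 4)) := by gcongr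
    _ = δa + Real.exp 4 * (((j + 1 : ℕ) : ℝ) *
        (((j + 1 : ℕ) : ℝ) ^ (-2 + d) * ((j + 1 : ℕ) : ℝ) ^ (3 / 4 : ℝ))) := by ring
    _ = _ := by rw [e3]

/-- **the first Ward identity with anti-legs and the winding weight**, uniform in `ζ` -/
theorem hD_unifV {p : ℝ} (hp : 1 / 10 ≤ p) : ∃ a0 : ℝ, 0 < a0 ∧
    ∀ ep e1 J : ℝ, SmallP a0 ep e1 J → ∃ C : ℝ, 0 ≤ C ∧
    ∀ᶠ j : ℕ in atTop, ∀ s ∈ Set.Icc (0 : ℝ) 1, ∀ t ∈ Set.Icc (0 : ℝ) 1, ∀ ζ : ℂ, ‖ζ‖ = 1 →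
      ∃ D : ℂ, HasDerivAt (fun s : ℝ => SV ζ j (I * t) (I * s)) D s ∧
      ‖((j + 1 : ℝ) : ℂ) * D - mainGV e1 J j s t (PVLX.wG (PVX.ZFV ep)
        (fun j s t n => WND.tw ζ (j + 1) n * PVX.cFV j s t n) e1 J j s t)‖ ≤ C * (j : ℝ) ^ p := by
  obtain ⟨a1, ha1, H1⟩ := total_leVZ hp
  obtain ⟨a2, ha2, H2⟩ := hD_allVZ (d := 1 / 4) (by norm_num)
  refine ⟨min a1 a2, lt_min ha1 ha2, fun ep e1 J hP => ?_⟩
  obtain ⟨C, hC, H1⟩ := H1 ep e1 J hP.ep0 hP.ep1 hP.e0 hP.e1' hP.J0 (hP.sm.trans (min_le_left _ _))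
  have hp0 : (0 : ℝ) ≤ p := by linarith
  obtain ⟨m0, H⟩ := H2 ep hP.ep0 hP.ep1 e1 hP.e0 hP.e1' J hP.J0 (hP.sm.trans (min_le_right _ _))
  refine ⟨C * 2 ^ p + Real.exp 4, by positivity, ?_⟩
  filter_upwards [H1, eventually_ge_atTop m0, eventually_ge_atTop 1] with j h1 hm0 h2 s hs t ht ζ hζ
  have h3 := h1 s hs t ht (fun n => WND.tw ζ (j + 1) n * PfV (I * t) 0 (rowS j s) (rowS j s))
    fun n => norm_tw_mul hζ _ _ _
  obtain ⟨D, hD, hb⟩ := H j hm0 s hs t ht ζ hζ _ _ h3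
  refine ⟨D, hD, hb.trans ?_⟩
  have hj1 : (1 : ℝ) ≤ j := by exact_mod_cast h2
  have hj0 : (0 : ℝ) < j := by linarith
  have p1 : ((j + 1 : ℕ) : ℝ) ^ (-(1 / 4) + 1 / 4 : ℝ) ≤ (j : ℝ) ^ p := by
    rw [show (-(1 / 4) + 1 / 4 : ℝ) = 0 by norm_num, Real.rpow_zero]
    exact Real.one_le_rpow hj1 hp0
  have p2 : ((j + 1 : ℕ) : ℝ) ^ p ≤ 2 ^ p * (j : ℝ) ^ p := by
    rw [← Real.mul_rpow (by norm_num) hj0.le]
    refine Real.rpow_le_rpow (by positivity) ?_ hp0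
    push_cast
    linarith
  have hE := Real.exp_pos (4 : ℝ)
  calc C * ((j + 1 : ℕ) : ℝ) ^ p + Real.exp 4 * ((j + 1 : ℕ) : ℝ) ^ (-(1 / 4) + 1 / 4 : ℝ) ≤
      C * (2 ^ p * (j : ℝ) ^ p) + Real.exp 4 * (j : ℝ) ^ p := by gcongr
    _ = _ := by ring

/-- **the first Ward identity with anti-legs and the winding weight**, the levels of a sequence -/
theorem hD_finVZ (zz : ℕ → ℂ) (hz : ∀ j, ‖zz j‖ = 1) {p : ℝ} (hp : 1 / 10 ≤ p) :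
    ∃ a0 : ℝ, 0 < a0 ∧ ∀ ep e1 J : ℝ, SmallP a0 ep e1 J → ∃ C : ℝ, 0 ≤ C ∧
    ∀ᶠ j : ℕ in atTop, ∀ s ∈ Set.Icc (0 : ℝ) 1, ∀ t ∈ Set.Icc (0 : ℝ) 1, ∃ D : ℂ,
      HasDerivAt (fun s : ℝ => SV (zz j) j (I * t) (I * s)) D s ∧
      ‖((j + 1 : ℝ) : ℂ) * D - mainGV e1 J j s t (PVLX.wG (PVX.ZFV ep)
        (fun j s t n => WND.tw (zz j) (j + 1) n * PVX.cFV j s t n) e1 J j s t)‖ ≤
        C * (j : ℝ) ^ p := by
  obtain ⟨a0, ha0, H⟩ := hD_unifV hp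
  refine ⟨a0, ha0, fun ep e1 J hP => ?_⟩
  obtain ⟨C, hC, h⟩ := H ep e1 J hP
  refine ⟨C, hC, ?_⟩
  filter_upwards [h] with j hj s hs t ht
  exact hj s hs t ht (zz j) (hz j)

end all

end WNDH

end
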