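import Pool.Agent.WND.Lev
import Pool.Agent.WND.CloseW

/-!
# PLAN W: the input `LVW` of `closeW` (helper38)
-/

set_option autoImplicit false

noncomputable section

namespace WND

/-- **`LVW`, arbitrary coefficient of the same norm** -/
theorem lvw {cf : ℕ → ℝ → ℝ → ℕ → ℂ} (h : SNm cf) : LVW cf := by
  obtain ⟨a0, ha0, H⟩ := levFZ
  refine ⟨a0, ha0, fun ep e1 J hp => ?_⟩
  obtain ⟨K, th, dp, C, hC, h1, h2⟩ := H ep e1 J hp
  exact ⟨K, th, dp, C, hC, h1 cf h, h2⟩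

/-- **`LVW` at the twist** -/
theorem lvw_cW {zz : ℕ → ℂ} (h : ∀ j, ‖zz j‖ = 1) : LVW (cW zz) := lvw (norm_cW h)

end WND

end
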