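import Pool.Agent.WND.CylAng

/-!
# The moment generating function of the winding angle (helper85)

* `cn_abs`: a self-avoiding walk crosses the arc at most `k` times, so `|cn w| ≤ k`;
* `hasDerivAt_es`: exponential sums with bounded exponents are entire;
* `angMgf_diff`, `angMgf_zero`, `angMgf_I`, `angMgf_deriv2`, `angMgf_real`.
-/

set_option autoImplicit false

noncomputable section

open Filter Topology Complex

namespace WND

/-- an exponential sum with bounded exponents -/
def es {ι : Type*} (a x : ι → ℝ) (p : ℕ) (t : ℂ) : ℂ :=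
  ∑' w, (a w : ℂ) * (x w : ℂ) ^ p * Complex.exp (t * (x w : ℂ))

variable {ι : Type*} {a x : ι → ℝ} {R : ℝ}

theorem es_bound (ha : ∀ w, 0 ≤ a w) (hx : ∀ w, |x w| ≤ R) (p : ℕ) {t : ℂ} {T : ℝ} (ht : ‖t‖ ≤ T) (w : ι) :
    ‖(a w : ℂ) * (x w : ℂ) ^ p * Complex.exp (t * (x w : ℂ))‖ ≤ a w * (R ^ p * Real.exp (T * R)) := by
  have hR : 0 ≤ R := (abs_nonneg _).trans (hx w)
  have hT : 0 ≤ T := (norm_nonneg _).trans ht
  rw [norm_mul, norm_mul, norm_pow, Complex.norm_real, Complex.norm_real, Real.norm_of_nonneg (ha w),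
    Real.norm_eq_abs, Complex.norm_exp, mul_assoc]
  refine mul_le_mul_of_nonneg_left ?_ (ha w)
  have h1 : |x w| ^ p ≤ R ^ p := pow_le_pow_left₀ (abs_nonneg _) (hx w) p
  have h2 : (t * (x w : ℂ)).re ≤ T * R := by
    refine (Complex.re_le_norm _).trans ?_
    rw [norm_mul, Complex.norm_real, Real.norm_eq_abs]
    exact mul_le_mul ht (hx w) (abs_nonneg _) hT
  exact mul_le_mul h1 (Real.exp_le_exp.2 h2) (Real.exp_pos _).le (by positivity)

theorem es_summable (ha : ∀ w, 0 ≤ a w) (hs : Summable a) (hx : ∀ w, |x w| ≤ R) (p : ℕ) (t : ℂ) :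
    Summable fun w => (a w : ℂ) * (x w : ℂ) ^ p * Complex.exp (t * (x w : ℂ)) :=
  Summable.of_norm_bounded (hs.mul_right _) fun w => es_bound ha hx p le_rfl w

theorem hasDerivAt_es (ha : ∀ w, 0 ≤ a w) (hs : Summable a) (hx : ∀ w, |x w| ≤ R) (p : ℕ) (t : ℂ) :
    HasDerivAt (es a x p) (es a x (p + 1) t) t := by
  have hT : t ∈ Metric.ball (0 : ℂ) (‖t‖ + 1) := by simp
  have h := hasDerivAt_tsum_of_isPreconnected (u := fun w => a w * (R ^ (p + 1) * Real.exp ((‖t‖ + 1) * R)))
    (g := fun (w : ι) (z : ℂ) => (a w : ℂ) * (x w : ℂ) ^ p * Complex.exp (z * (x w : ℂ)))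
    (g' := fun (w : ι) (z : ℂ) => (a w : ℂ) * (x w : ℂ) ^ (p + 1) * Complex.exp (z * (x w : ℂ)))
    (t := Metric.ball (0 : ℂ) (‖t‖ + 1)) (y₀ := t) (y := t)
    (hs.mul_right _) Metric.isOpen_ball (convex_ball _ _).isPreconnected
    (fun w z _ => by
      have h1 : HasDerivAt (fun z : ℂ => Complex.exp (z * (x w : ℂ))) (Complex.exp (z * (x w : ℂ)) * (x w : ℂ)) z := by
        simpa using ((hasDerivAt_id z).mul_const (x w : ℂ)).cexp
      have h2 := h1.const_mul ((a w : ℂ) * (x w : ℂ) ^ p)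
      refine h2.congr_deriv ?_
      ring)
    (fun w z hz => es_bound ha hx (p + 1) (by simpa using (mem_ball_zero_iff.1 hz).le) w)
    hT (es_summable ha hs hx p t) hT
  exact h

theorem es_diff (ha : ∀ w, 0 ≤ a w) (hs : Summable a) (hx : ∀ w, |x w| ≤ R) (p : ℕ) :
    Differentiable ℂ (es a x p) := fun t => (hasDerivAt_es ha hs hx p t).differentiableAt

theorem es_deriv2 (ha : ∀ w, 0 ≤ a w) (hs : Summable a) (hx : ∀ w, |x w| ≤ R) (t : ℂ) :
    iteratedDeriv 2 (es a x 0) t = es a x 2 t := by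
  have h1 : deriv (es a x 0) = es a x 1 := funext fun t => (hasDerivAt_es ha hs hx 0 t).deriv
  have h2 : deriv (es a x 1) = es a x 2 := funext fun t => (hasDerivAt_es ha hs hx 1 t).deriv
  rw [iteratedDeriv_succ, iteratedDeriv_one, h1, h2]

end WND

namespace Pool.Agent.CylSaw

open WND

/-! ### the number of crossings -/

theorem ncard_up {k n : ℕ} {w : Fin (n + 1) → V (2 * k)} (hw : Function.Injective w) :
    {i : Fin n | Up (w i.castSucc) (w i.succ)}.ncard ≤ k := by
  classical
  have h : ∀ i ∈ {i : Fin n | Up (w i.castSucc) (w i.succ)}, ((w i.succ).2.1).val ∈ (Finset.range k : Finset ℕ) := by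
    rintro i ⟨r, -, h2, -, h4⟩
    rw [h4]
    simpa using h2
  have h3 := Set.ncard_le_ncard_of_injOn (s := {i : Fin n | Up (w i.castSucc) (w i.succ)})
    (t := (Finset.range k : Set ℕ)) (fun i => ((w i.succ).2.1).val) h (by
      rintro i ⟨r, hr0, hrk, -, h4⟩ j ⟨s, hs0, -, -, h5⟩ e
      simp only [h4, h5] at e
      have e1 : r = s := by
        have hk : NeZero (2 * k) := by
          refine ⟨fun h => ?_⟩
          have : k = 0 := by omega
          subst this
          omega
        exact ZMod.val_injective _ e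
      have e2 : w i.succ = w j.succ := by rw [h4, h5, e1]
      exact Fin.succ_injective _ (hw e2)) (Finset.finite_toSet _)
  rwa [Set.ncard_coe_finset, Finset.card_range] at h3

theorem ncard_dn {k n : ℕ} {w : Fin (n + 1) → V (2 * k)} (hw : Function.Injective w) :
    {i : Fin n | Up (w i.succ) (w i.castSucc)}.ncard ≤ k := by
  classical
  have h : ∀ i ∈ {i : Fin n | Up (w i.succ) (w i.castSucc)}, ((w i.succ).2.1).val ∈ (Finset.range k : Finset ℕ) := by
    rintro i ⟨r, -, h2, h3, -⟩
    rw [h3]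
    simpa using h2
  have h3 := Set.ncard_le_ncard_of_injOn (s := {i : Fin n | Up (w i.succ) (w i.castSucc)})
    (t := (Finset.range k : Set ℕ)) (fun i => ((w i.succ).2.1).val) h (by
      rintro i ⟨r, hr0, hrk, h4, -⟩ j ⟨s, hs0, -, h5, -⟩ e
      simp only [h4, h5] at e
      have e1 : r = s := by
        have hk : NeZero (2 * k) := by
          refine ⟨fun h => ?_⟩
          have : k = 0 := by omega
          subst this
          omega
        exact ZMod.val_injective _ e
      have e2 : w i.succ = w j.succ := by rw [h4, h5, e1]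
      exact Fin.succ_injective _ (hw e2)) (Finset.finite_toSet _)
  rwa [Set.ncard_coe_finset, Finset.card_range] at h3

theorem cn_abs {k : ℕ} (w : Saw k) : |cn w| ≤ k := by
  have h1 := ncard_up w.2.2.1
  have h2 := ncard_dn w.2.2.1
  unfold cn wind
  rw [abs_le]
  constructor <;> omega

theorem wang_abs {k : ℕ} (hk : 1 ≤ k) (w : Saw k) : |wang w| ≤ 2 * Real.pi * k := by
  have h1 : |(cn w : ℝ)| ≤ k := by
    have h := cn_abs w
    rw [← Int.cast_abs]
    exact_mod_cast h
  have hpi := Real.pi_pos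
  rw [wang_eq hk, abs_neg, abs_mul, abs_of_pos (by positivity : (0 : ℝ) < 2 * Real.pi)]
  exact mul_le_mul_of_nonneg_left h1 (by positivity)

/-! ### the moment generating function -/

theorem angMgf_es {k : ℕ} (t : ℂ) :
    angMgf k t = es (fun w : Saw k => wt w) wang 0 t / (Z k : ℂ) := by
  unfold angMgf es
  simp only [pow_zero, mul_one]

theorem exp_summable {k : ℕ} (hk : 1 ≤ k) (t : ℂ) :
    Summable fun w : Saw k => (wt w : ℂ) * Complex.exp (t * (wang w : ℂ)) := by
  have h := es_summable (fun w : Saw k => (wt_pos w).le) (summable_wt hk) (wang_abs hk) 0 t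
  simpa only [pow_zero, mul_one] using h

theorem angMgf_diff {k : ℕ} (hk : 1 ≤ k) : Differentiable ℂ (angMgf k) := by
  have h : angMgf k = fun t => es (fun w : Saw k => wt w) wang 0 t / (Z k : ℂ) := funext fun t => angMgf_es t
  rw [h]
  exact (es_diff (fun w : Saw k => (wt_pos w).le) (summable_wt hk) (wang_abs hk) 0).div_const _

theorem angMgf_zero {k : ℕ} (hk : 1 ≤ k) : angMgf k 0 = 1 := by
  have hZ : (Z k : ℂ) ≠ 0 := by exact_mod_cast (Z_pos hk).ne'
  unfold angMgf
  rw [div_eq_one_iff_eq hZ]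
  simp only [zero_mul, Complex.exp_zero, mul_one]
  unfold Z
  rw [Complex.ofReal_tsum]

theorem angMgf_I (k : ℕ) (s : ℝ) : angMgf k (s * I) = angChar k s := by
  unfold angMgf angChar
  congr 1
  refine tsum_congr fun w => ?_
  congr 2
  push_cast
  ring

theorem angMgf_deriv2 {k : ℕ} (hk : 1 ≤ k) : iteratedDeriv 2 (angMgf k) 0 = (angSq k : ℂ) := by
  have h : angMgf k = fun t => (Z k : ℂ)⁻¹ * es (fun w : Saw k => wt w) wang 0 t :=
    funext fun t => by rw [angMgf_es, div_eq_inv_mul]
  have hd := es_diff (fun w : Saw k => (wt_pos w).le) (summable_wt hk) (wang_abs hk) 0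
  have h2 : iteratedDeriv 2 (fun t => (Z k : ℂ)⁻¹ * es (fun w : Saw k => wt w) wang 0 t) 0 =
      (Z k : ℂ)⁻¹ * iteratedDeriv 2 (es (fun w : Saw k => wt w) wang 0) 0 := by
    have hc : ContDiffAt ℂ 2 (es (fun w : Saw k => wt w) wang 0) 0 := (hd.analyticAt 0).contDiffAt
    exact iteratedDeriv_const_mul _ hc
  rw [h, h2, es_deriv2 (fun w : Saw k => (wt_pos w).le) (summable_wt hk) (wang_abs hk)]
  unfold es angSq
  rw [Complex.ofReal_div, Complex.ofReal_tsum, div_eq_inv_mul]
  congr 1
  refine tsum_congr fun w => ?_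
  rw [zero_mul, Complex.exp_zero, mul_one]
  push_cast
  ring

/-- the real exponential moments -/
def mgfR (k : ℕ) (t : ℝ) : ℝ := (∑' w : Saw k, wt w * Real.exp (t * wang w)) / Z k

theorem summable_mgfR {k : ℕ} (hk : 1 ≤ k) (t : ℝ) : Summable fun w : Saw k => wt w * Real.exp (t * wang w) := by
  have h := (exp_summable hk (t : ℂ)).norm
  refine h.congr fun w => ?_
  rw [norm_mul, Complex.norm_real, Real.norm_of_nonneg (wt_pos w).le, Complex.norm_exp]
  congr 2
  rw [← Complex.ofReal_mul, Complex.ofReal_re]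

theorem angMgf_real (k : ℕ) (t : ℝ) : angMgf k (t : ℂ) = (mgfR k t : ℂ) := by
  unfold angMgf mgfR
  rw [Complex.ofReal_div, Complex.ofReal_tsum]
  congr 1
  refine tsum_congr fun w => ?_
  push_cast
  rfl

end Pool.Agent.CylSaw

end
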