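import Pool.Agent.PB.Mst0

/-!
# Plan W, W7 / W+: the regular function as its class `W W`, with coefficients (helper38)

Coefficients `c n` of the number `n` of quanta, `‖c n‖ ≤ q n`. The sums of moduli of `PB/Oth0` with
the weight `q n`: `sValQ`, `sValDQ`, `sIntQ`, `sPtQ` (`q = 1`: `sVal`, `sValD`, `sInt`, `sPt`).

* `split_c`, `ww_near_c`, `mst_near_c`, `mst_FF_c`: copies of `PB/MstG` (split) and `PB/Mst0`;
* `OthQ q C X m K kD P e`: the four bounds;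
* **`mst_famQ`**: families over a geometry, on the window, from the weighted bounds.
-/

set_option autoImplicit false
set_option linter.unusedSectionVars false

noncomputable section

open Complex MeasureTheory Finset Filter
open scoped ENNReal

namespace WND

open NUO NUP1 NUCR NUP1S NURow NUGC PBX PBR
open NUP1.N (E11)
open NUP1.Leg (Dk)

/-! ### weighted sums of moduli -/

/-- the sum over the numbers of the values of a class, weight `q` -/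
def sValQ (q : ℕ → ℝ) (K : PBQ.KD) (P : NUO.Par) (N : ℕ) (t t' : HT) : ℝ := ∑ n ∈ range (N + 1),
  q n * ‖(K.cl t t').val (K.Z true) (K.Z false) (3 / 5 * l) n n (lX P) (lY P)‖

/-- the same for D1 (`o = true`), D1' -/
def sValDQ (q : ℕ → ℝ) (K : PBQ.KD) (kD : Bool → ℂ → ℂ) (P : NUO.Par) (N : ℕ) (o : Bool) : ℝ :=
  ∑ n ∈ range (N + 1),
    q n * ‖(cDo o (kD o)).val (K.Z true) (K.Z false) (3 / 5 * l) n n (lX P) (lY P)‖

/-- the sum over the numbers of the integrals over a set, weight `q` -/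
def sIntQ (q : ℕ → ℝ) (K : PBQ.KD) (P : NUO.Par) (N : ℕ) (t t' : HT) (S : Set (ℝ × ℝ)) : ℝ≥0∞ :=
  ∑ n ∈ range (N + 1), ENNReal.ofReal (q n) *
    ∫⁻ y in S, ‖(K.cl t t').pre (vl (htL t) y.1) (vl (htL t') y.2)‖ₑ *
    ‖(K.cl t t').Z (K.Z true) (K.Z false) (3 / 5 * l) n n (lX P) (lY P) (vl (htL t) y.1)
      (vl (htL t') y.2)‖ₑ

theorem sValQ_one (K : PBQ.KD) (P : NUO.Par) (N : ℕ) (t t' : HT) :
    sValQ (fun _ => 1) K P N t t' = PBO.sVal K P N t t' := by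
  unfold sValQ PBO.sVal
  simp only [one_mul]

theorem sValDQ_one (K : PBQ.KD) (kD : Bool → ℂ → ℂ) (P : NUO.Par) (N : ℕ) (o : Bool) :
    sValDQ (fun _ => 1) K kD P N o = PBO.sValD K kD P N o := by
  unfold sValDQ PBO.sValD
  simp only [one_mul]

theorem sIntQ_one (K : PBQ.KD) (P : NUO.Par) (N : ℕ) (t t' : HT) (S : Set (ℝ × ℝ)) :
    sIntQ (fun _ => 1) K P N t t' S = PBO.sInt K P N t t' S := by
  unfold sIntQ PBO.sInt
  simp only [ENNReal.ofReal_one, one_mul]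

section one

variable {m : ℕ} {D : RD m} {P : NUO.Par}

/-- **everything but the class `W, W`, with coefficients** -/
theorem split_c (G : RG) (P : NUO.Par) {N : ℕ} {B : ℝ} {c : ℕ → ℂ} {q : ℕ → ℝ}
    (hc : ∀ n, ‖c n‖ ≤ q n)
    (h : ∀ t t' : HT, (t, t') ≠ (.W, .W) → ∑ n ∈ range (N + 1), q n * ‖G.v P t t' n‖ ≤ B)
    (h1 : ∀ o : Bool, ∑ n ∈ range (N + 1), q n * ‖G.v1 P o n‖ ≤ B) :
    ‖∑ n ∈ range (N + 1), c n * G.tot P n -
        (2 * (Real.pi : ℂ))⁻¹ ^ 2 * ∑ n ∈ range (N + 1), c n * G.v P .W .W n‖ ≤ RG.KA * B := by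
  have hone : ∀ n, G.tot P n - (2 * (Real.pi : ℂ))⁻¹ ^ 2 * G.v P .W .W n =
      (2 * (Real.pi : ℂ))⁻¹ ^ 2 * (∑ p ∈ RG.oth, p.1.sg * p.2.sg * G.v P p.1 p.2 n) -
        sin l / sin (2 * l) * ((2 * (Real.pi : ℂ))⁻¹ * (G.v1 P true n + G.v1 P false n)) := by
    intro n
    have h1 : (∑ t : HT, ∑ t' : HT, t.sg * t'.sg * G.v P t t' n) =
        G.v P .W .W n + ∑ p ∈ RG.oth, p.1.sg * p.2.sg * G.v P p.1 p.2 n := by
      rw [← Fintype.sum_prod_type' (f := fun t t' => t.sg * t'.sg * G.v P t t' n)]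
      have h2 := Finset.add_sum_erase (univ : Finset (HT × HT))
        (fun p => p.1.sg * p.2.sg * G.v P p.1 p.2 n) (Finset.mem_univ (HT.W, HT.W))
      rw [← h2]
      simp [HT.sg, RG.oth]
    unfold RG.tot
    rw [h1]
    ring
  have hbd : ∀ n, ‖G.tot P n - (2 * (Real.pi : ℂ))⁻¹ ^ 2 * G.v P .W .W n‖ ≤
      (2 * Real.pi)⁻¹ ^ 2 * (∑ p ∈ RG.oth, ‖G.v P p.1 p.2 n‖) +
        ‖sin (l : ℂ) / sin (2 * l)‖ * ((2 * Real.pi)⁻¹ * ∑ o : Bool, ‖G.v1 P o n‖) := by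
    intro n
    rw [hone n]
    refine (norm_sub_le _ _).trans (add_le_add ?_ ?_)
    · rw [norm_mul, norm_pow, RG.norm_2pi]
      refine mul_le_mul_of_nonneg_left ?_ (by positivity)
      refine (norm_sum_le _ _).trans (sum_le_sum fun p _ => le_of_eq ?_)
      rw [norm_mul, norm_mul, RG.norm_sg, RG.norm_sg, one_mul, one_mul]
    · rw [norm_mul, norm_mul, RG.norm_2pi]
      refine mul_le_mul_of_nonneg_left (mul_le_mul_of_nonneg_left ?_ (by positivity))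
        (by positivity)
      rw [Fintype.sum_bool]
      exact norm_add_le _ _
  have e0 : ∑ n ∈ range (N + 1), c n * G.tot P n -
      (2 * (Real.pi : ℂ))⁻¹ ^ 2 * ∑ n ∈ range (N + 1), c n * G.v P .W .W n =
      ∑ n ∈ range (N + 1), c n * (G.tot P n - (2 * (Real.pi : ℂ))⁻¹ ^ 2 * G.v P .W .W n) := by
    rw [Finset.mul_sum, ← Finset.sum_sub_distrib]
    refine Finset.sum_congr rfl fun n _ => ?_
    ring
  have e1 : ∑ p ∈ RG.oth, ∑ n ∈ range (N + 1), q n * ‖G.v P p.1 p.2 n‖ ≤ 15 * B := by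
    calc ∑ p ∈ RG.oth, ∑ n ∈ range (N + 1), q n * ‖G.v P p.1 p.2 n‖ ≤ ∑ _p ∈ RG.oth, B :=
          sum_le_sum fun p hp => h p.1 p.2 (RG.mem_oth.1 hp)
      _ = 15 * B := by rw [sum_const, RG.card_oth, nsmul_eq_mul]; norm_num
  have e2 : ∑ o : Bool, ∑ n ∈ range (N + 1), q n * ‖G.v1 P o n‖ ≤ 2 * B := by
    rw [Fintype.sum_bool]
    linarith [h1 true, h1 false]
  rw [e0]
  calc ‖∑ n ∈ range (N + 1), c n * (G.tot P n - (2 * (Real.pi : ℂ))⁻¹ ^ 2 * G.v P .W .W n)‖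
      ≤ ∑ n ∈ range (N + 1), q n *
          ‖G.tot P n - (2 * (Real.pi : ℂ))⁻¹ ^ 2 * G.v P .W .W n‖ := by
        refine (norm_sum_le _ _).trans (sum_le_sum fun n _ => ?_)
        rw [norm_mul]
        exact mul_le_mul_of_nonneg_right (hc n) (norm_nonneg _)
    _ ≤ ∑ n ∈ range (N + 1), ((2 * Real.pi)⁻¹ ^ 2 * (∑ p ∈ RG.oth, q n * ‖G.v P p.1 p.2 n‖) +
        ‖sin (l : ℂ) / sin (2 * l)‖ * ((2 * Real.pi)⁻¹ * ∑ o : Bool, q n * ‖G.v1 P o n‖)) :=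
        sum_le_sum fun n _ => by
          refine (mul_le_mul_of_nonneg_left (hbd n) ((norm_nonneg _).trans (hc n))).trans
            (le_of_eq ?_)
          rw [← Finset.mul_sum, ← Finset.mul_sum]
          ring
    _ = (2 * Real.pi)⁻¹ ^ 2 * (∑ p ∈ RG.oth, ∑ n ∈ range (N + 1), q n * ‖G.v P p.1 p.2 n‖) +
        ‖sin (l : ℂ) / sin (2 * l)‖ * ((2 * Real.pi)⁻¹ *
          ∑ o : Bool, ∑ n ∈ range (N + 1), q n * ‖G.v1 P o n‖) := by
        rw [sum_add_distrib, ← mul_sum, ← mul_sum, ← mul_sum, sum_comm]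
        congr 3
        exact sum_comm
    _ ≤ (2 * Real.pi)⁻¹ ^ 2 * (15 * B) +
        ‖sin (l : ℂ) / sin (2 * l)‖ * ((2 * Real.pi)⁻¹ * (2 * B)) := by
        gcongr
    _ = RG.KA * B := by unfold RG.KA; ring

variable {K : PBQ.KD} {kD : Bool → ℂ → ℂ} {c : ℕ → ℂ} {q : ℕ → ℝ}

theorem sValQ_eq (h : IsKD K kD D) (N : ℕ) (t t' : HT) :
    sValQ q K P N t t' = ∑ n ∈ range (N + 1), q n * ‖(rgD D).v P t t' n‖ := by
  unfold sValQ RG.v
  rw [h.cl, h.zX, h.zY]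
  rfl

theorem sValDQ_eq (h : IsKD K kD D) (N : ℕ) (o : Bool) :
    sValDQ q K kD P N o = ∑ n ∈ range (N + 1), q n * ‖(rgD D).v1 P o n‖ := by
  unfold sValDQ RG.v1
  rw [h.cl1, h.zX, h.zY]
  rfl

theorem sIntQ_eq (h : IsKD K kD D) (N : ℕ) (t t' : HT) (S : Set (ℝ × ℝ)) :
    sIntQ q K P N t t' S = ∑ n ∈ range (N + 1), ENNReal.ofReal (q n) * ∫⁻ y in S,
      ‖(rgD D).pre t t' y‖ₑ * ‖(rgD D).Z P t t' n y‖ₑ := by
  unfold sIntQ
  rw [h.cl, h.zX, h.zY]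
  rfl

/-- the class `W W` on a measurable set, with coefficients -/
theorem ww_near_c (hc : ∀ n, ‖c n‖ ≤ q n) (H : D.Ok) (hβ : 1 < D.β) (hP : ParM P) {N N' : ℕ}
    (hN : N' ≤ N) {B' : ℝ} (hB' : 0 ≤ B') (hK : IsKD K kD D) {S : Set (ℝ × ℝ)}
    (hS : MeasurableSet S) (hf : sIntQ q K P N .W .W Sᶜ ≤ ENNReal.ofReal B') :
    ‖∑ n ∈ range (N' + 1), c n * (rgD D).v P .W .W n -
      ∫ y in S, preWW D y * ∑ n ∈ range (N' + 1), c n * objWW D P n y‖ ≤ B' := by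
  have hi := fun n => int_preWW H hβ hP n
  have e0 : ∀ n (y : ℝ × ℝ), preWW D y * (c n * objWW D P n y) =
      c n * (preWW D y * objWW D P n y) := fun n y => by ring
  have e1 : ∫ y in S, preWW D y * ∑ n ∈ range (N' + 1), c n * objWW D P n y =
      ∑ n ∈ range (N' + 1), c n * ∫ y in S, preWW D y * objWW D P n y := by
    simp only [Finset.mul_sum, e0]
    rw [integral_finsetSum _ fun n _ => ((hi n).const_mul (c n)).integrableOn]
    exact Finset.sum_congr rfl fun n _ => integral_const_mul _ _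
  have e2 : ∀ n ∈ range (N' + 1), c n * (rgD D).v P .W .W n -
      c n * ∫ y in S, preWW D y * objWW D P n y =
      c n * ∫ y in Sᶜ, preWW D y * objWW D P n y := by
    intro n _
    have e3 : (rgD D).v P .W .W n = ∫ y, preWW D y * objWW D P n y := by
      rw [RG.v_eq]
      exact integral_congr_ae (Filter.Eventually.of_forall fun y => by
        show (rgD D).pre .W .W y * (rgD D).Z P .W .W n y = _
        rw [rgD_pre, rgD_Z])
    rw [e3, ← integral_add_compl hS (hi n)]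
    ring
  rw [e1, ← Finset.sum_sub_distrib, Finset.sum_congr rfl e2]
  have h2 : ‖∑ n ∈ range (N' + 1), c n * ∫ y in Sᶜ, preWW D y * objWW D P n y‖ₑ ≤
      ENNReal.ofReal B' := by
    refine (enorm_sum_le _ _).trans (le_trans ?_ hf)
    rw [sIntQ_eq hK]
    refine (Finset.sum_le_sum fun n _ => ?_).trans (Finset.sum_le_sum_of_subset_of_nonneg
        (Finset.range_subset_range.2 (by omega)) fun _ _ _ => zero_le)
    have h3 : ‖c n‖ₑ ≤ ENNReal.ofReal (q n) := by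
      rw [← ofReal_norm]
      exact ENNReal.ofReal_le_ofReal (hc n)
    rw [enorm_mul]
    refine mul_le_mul' h3 ?_
    refine (enorm_integral_le_lintegral_enorm _).trans (lintegral_mono fun y => ?_)
    rw [rgD_pre, rgD_Z, enorm_mul]
  rw [← ofReal_norm] at h2
  exact (ENNReal.ofReal_le_ofReal_iff hB').1 h2

/-- **the regular function as its class `W W` on a measurable set, with coefficients** -/
theorem mst_near_c (hc : ∀ n, ‖c n‖ ≤ q n) (H : D.Ok) (hβ : 1 < D.β) (hP : ParM P)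
    (hK : IsKD K kD D) {N N' : ℕ} (hN : N' ≤ N) {B B' : ℝ} (hB' : 0 ≤ B')
    (ho : ∀ t t' : HT, ¬(t = .W ∧ t' = .W) → sValQ q K P N t t' ≤ B)
    (hd : ∀ o : Bool, sValDQ q K kD P N o ≤ B)
    {S : Set (ℝ × ℝ)} (hS : MeasurableSet S)
    (hf : sIntQ q K P N .W .W Sᶜ ≤ ENNReal.ofReal B') :
    ‖∑ n ∈ range (N' + 1), c n * EED D n - (2 * (Real.pi : ℂ))⁻¹ ^ 2 *
      ∫ y in S, preWW D y * ∑ n ∈ range (N' + 1), c n * objWW D P n y‖ ≤
      RG.KA * B + (2 * Real.pi)⁻¹ ^ 2 * B' := by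
  have hsub : range (N' + 1) ⊆ range (N + 1) := Finset.range_subset_range.2 (by omega)
  have e1 : ‖∑ n ∈ range (N' + 1), c n * (rgD D).tot P n -
      (2 * (Real.pi : ℂ))⁻¹ ^ 2 * ∑ n ∈ range (N' + 1), c n * (rgD D).v P .W .W n‖ ≤
      RG.KA * B := by
    refine split_c (rgD D) P hc (fun t t' ht => ?_) fun o => ?_
    · refine le_trans (Finset.sum_le_sum_of_subset_of_nonneg hsub fun n _ _ =>
        mul_nonneg ((norm_nonneg _).trans (hc n)) (norm_nonneg _)) ?_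
      rw [← sValQ_eq hK]
      exact ho t t' fun h => ht (by rw [h.1, h.2])
    · refine le_trans (Finset.sum_le_sum_of_subset_of_nonneg hsub fun n _ _ =>
        mul_nonneg ((norm_nonneg _).trans (hc n)) (norm_nonneg _)) ?_
      rw [← sValDQ_eq hK]
      exact hd o
  have e2 := ww_near_c hc H hβ hP hN hB' hK hS hf
  rw [Finset.sum_congr rfl fun n _ => by rw [EED_eq H hβ hP n]]
  have e3 : ∑ n ∈ range (N' + 1), c n * (rgD D).tot P n - (2 * (Real.pi : ℂ))⁻¹ ^ 2 *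
      ∫ y in S, preWW D y * ∑ n ∈ range (N' + 1), c n * objWW D P n y =
      (∑ n ∈ range (N' + 1), c n * (rgD D).tot P n -
        (2 * (Real.pi : ℂ))⁻¹ ^ 2 * ∑ n ∈ range (N' + 1), c n * (rgD D).v P .W .W n) +
      (2 * (Real.pi : ℂ))⁻¹ ^ 2 * (∑ n ∈ range (N' + 1), c n * (rgD D).v P .W .W n -
        ∫ y in S, preWW D y * ∑ n ∈ range (N' + 1), c n * objWW D P n y) := by
    ring
  rw [e3]
  refine (norm_add_le _ _).trans (add_le_add e1 ?_)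
  rw [norm_mul, norm_pow, RG.norm_2pi]
  exact mul_le_mul_of_nonneg_left e2 (by positivity)

/-- **the regular function as the functionals of its class `W W`, with coefficients** -/
theorem mst_FF_c (hc : ∀ n, ‖c n‖ ≤ q n) (H : D.Ok) (hβ : 1 < D.β) {ex ex0 : List ℂ} {c0 : ℝ}
    (hR : REq D ex ex0 c0)
    (hP : ParM P) {ep : ℝ} (hep0 : 0 < ep) (hep : ep ≤ 1 / 100)
    (hρ : ∀ r, ∃ ρ0, 0 < ρ0 ∧ ∀ t, ρ0 ≤ P.rad r t) (hK : IsKD K kD D) {N N' : ℕ}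
    (hN : N' ≤ N) {B B' : ℝ} (hB' : 0 ≤ B')
    (ho : ∀ t t' : HT, ¬(t = .W ∧ t' = .W) → sValQ q K P N t t' ≤ B)
    (hd : ∀ o : Bool, sValDQ q K kD P N o ≤ B)
    {S : Set (ℝ × ℝ)} (hS : MeasurableSet S)
    (hf : sIntQ q K P N .W .W Sᶜ ≤ ENNReal.ofReal B')
    (η η' : ℝ × ℝ → PBF.Crs) (hη : ∀ y, ∀ r ≤ N' + N', ∀ᵐ O ∂(Measure.pi fun _ : Fin r => nu),
      CurB ep (η y r O) (η' y r O)) :
    ‖∑ n ∈ range (N' + 1), c n * EED D n - (2 * (Real.pi : ℂ))⁻¹ ^ 2 *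
      ∫ y in S, preWW D y * ∑ n ∈ range (N' + 1), c n *
        PBF.FF (ZWW D y) P n n (η y) (η' y) (fun _ _ _ _ _ => 1)‖ ≤
      RG.KA * B + (2 * Real.pi)⁻¹ ^ 2 * B' := by
  have e := mst_near_c hc H hβ hP hK hN hB' ho hd hS hf
  have e1 : ∫ y in S, preWW D y * ∑ n ∈ range (N' + 1), c n *
      PBF.FF (ZWW D y) P n n (η y) (η' y) (fun _ _ _ _ _ => 1) =
      ∫ y in S, preWW D y * ∑ n ∈ range (N' + 1), c n * objWW D P n y := by
    refine setIntegral_congr_fun hS fun y _ => ?_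
    beta_reduce
    congr 1
    refine Finset.sum_congr rfl fun n hn => ?_
    congr 1
    exact (RWW_FF H hR hP.1 hep0 hep hρ (by simp [vl]) (by simp [vl]) n
      fun r hr => hη y r (by have := Finset.mem_range.1 hn; omega)).symm
  rw [e1]
  exact e

end one

/-! ### families -/

section fam

variable [NUSea.Sea]

open PBTR (winW)

/-- **the weighted bounds at level `m`** (the first three of `PBO.oth0`) -/
structure OthQ (q : ℕ → ℝ) (K : PBQ.KD) (kD : Bool → ℂ → ℂ) (m : ℕ) (Cst ε EM : ℝ) : Prop where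
  v : ∀ t t' : HT, ¬(t = .W ∧ t' = .W) → sValQ q K (NUSea.O.par0 m) (2 * m) t t' ≤
    Cst * (m : ℝ) ^ (-(7 / 16) + ε) * Real.exp ((m : ℝ) ^ 2 * EM)
  d : ∀ o : Bool, sValDQ q K kD (NUSea.O.par0 m) (2 * m) o ≤
    Cst * (m : ℝ) ^ (-(7 / 16) + ε) * Real.exp ((m : ℝ) ^ 2 * EM)
  i : ∀ (S : Set (ℝ × ℝ)) (κ : ℝ), MeasurableSet S →
    (∀ z ∈ S, κ ≤ 2 * |z.1| + 2 * |z.2| + |z.1 - z.2| / 2) →
    sIntQ q K (NUSea.O.par0 m) (2 * m) .W .W S ≤
      ENNReal.ofReal (Cst * (Real.exp (-κ) * (m : ℝ) ^ ε + (m : ℝ) ^ (-(7 / 16) + ε)) *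
        Real.exp ((m : ℝ) ^ 2 * EM))

/-- `q = 1` -/
theorem othQ_one {G : PBO.Geo} (hP : PBO.PerBdR G) {K : ℝ → ℕ → PBQ.KD}
    {kD : ℝ → ℕ → Bool → ℂ → ℂ} (hK : PBO.ClOk G K kD) :
    ∀ ε : ℝ, 0 < ε → ∃ ep0 : ℝ, 0 < ep0 ∧ ep0 ≤ 1 / 100 ∧
      ∀ ep : ℝ, 0 < ep → ep ≤ ep0 → ∃ (Cst : ℝ) (k0 : ℕ), 0 ≤ Cst ∧ 1 ≤ k0 ∧ ∀ k : ℕ, k0 ≤ k →
        OthQ (fun _ => 1) (K ep k) (kD ep k) k Cst ε G.EM := by
  intro ε hε
  obtain ⟨ep0, h0, h1, hoth⟩ := PBO.oth0 hP hK ε hε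
  refine ⟨ep0, h0, h1, fun ep hep hep' => ?_⟩
  obtain ⟨Cst, k0, hC, hk0, hk⟩ := hoth ep hep hep'
  refine ⟨Cst, k0, hC, hk0, fun k hkk => ?_⟩
  obtain ⟨ho, hd, hww, -⟩ := hk k hkk
  refine ⟨fun t t' h => ?_, fun o => ?_, fun S κ hS h => ?_⟩
  · rw [sValQ_one]
    exact ho t t' h
  · rw [sValDQ_one]
    exact hd o
  · rw [sIntQ_one]
    exact hww S κ hS h

/-- **the regular function over a geometry, on the window, with coefficients** (one level) -/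
theorem mst_lev {EM ε Cst : ℝ} {k : ℕ} (hk1 : 1 ≤ k) (hC : 0 ≤ Cst) {K : PBQ.KD}
    {kD : Bool → ℂ → ℂ} {q : ℕ → ℝ} (hQ : OthQ q K kD k Cst ε EM) {D : RD (k - 1)}
    {ex ex0 : List ℂ} {c0 ep : ℝ} (hep : 0 < ep) (hep1 : ep ≤ 1 / 100)
    (hD : D.Ok ∧ 1 < D.β ∧ REq D ex ex0 c0 ∧ IsKD K kD D) (η η' : ℝ × ℝ → PBF.Crs)
    (hη : ∀ y, ∀ r ≤ 2 * (k - 1) + 2 * (k - 1),
      ∀ᵐ O ∂(Measure.pi fun _ : Fin r => nu), CurB ep (η y r O) (η' y r O))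
    {c : ℕ → ℂ} (hc : ∀ n, ‖c n‖ ≤ q n) :
    ‖∑ n ∈ range (2 * (k - 1) + 1), c n * EED D n - (2 * (Real.pi : ℂ))⁻¹ ^ 2 *
      ∫ y in winW (3 / 8) k, preWW D y * ∑ n ∈ range (2 * (k - 1) + 1), c n *
        PBF.FF (ZWW D y) (NUSea.O.par0 k) n n (η y) (η' y) (fun _ _ _ _ _ => 1)‖ ≤
      (RG.KA * Cst + (2 * Real.pi)⁻¹ ^ 2 * (2 * Cst)) * (k : ℝ) ^ (-(7 / 16) + ε) *
        Real.exp ((k : ℝ) ^ 2 * EM) := by
  obtain ⟨ho, hd, hww⟩ := hQ
  obtain ⟨hOk, hβ, hR, hIs⟩ := hD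
  have hkR : (1 : ℝ) ≤ k := by exact_mod_cast hk1
  have hkR0 : (0 : ℝ) < k := by linarith
  have hPk : ParM (NUSea.O.par0 k) := PBO.parM_par0 k
  have hρ := PBC.parZ_low (m := k)
  obtain ⟨X, hX⟩ : ∃ X : ℝ, X = Real.exp ((k : ℝ) ^ 2 * EM) := ⟨_, rfl⟩
  have hX0 : 0 < X := by rw [hX]; exact Real.exp_pos _
  rw [← hX] at ho hd hww ⊢
  have hw := hww (winW (3 / 8) k)ᶜ (15 / 16 * Real.log k)
    (PBTR.measurableSet_winW _ _).compl fun z hz => out_win hz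
  have e1 : Real.exp (-(15 / 16 * Real.log k)) * (k : ℝ) ^ ε ≤ (k : ℝ) ^ (-(7 / 16) + ε) := by
    have e2 : Real.exp (-(15 / 16 * Real.log k)) = (k : ℝ) ^ (-(15 / 16) : ℝ) := by
      rw [Real.rpow_def_of_pos hkR0]
      congr 1
      ring
    rw [e2, ← Real.rpow_add hkR0]
    exact Real.rpow_le_rpow_of_exponent_le hkR (by linarith)
  have hB' : 0 ≤ 2 * Cst * (k : ℝ) ^ (-(7 / 16) + ε) * X := by positivity
  have hf : sIntQ q K (NUSea.O.par0 k) (2 * k) .W .W (winW (3 / 8) k)ᶜ ≤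
      ENNReal.ofReal (2 * Cst * (k : ℝ) ^ (-(7 / 16) + ε) * X) := by
    refine hw.trans (ENNReal.ofReal_le_ofReal ?_)
    refine mul_le_mul_of_nonneg_right ?_ hX0.le
    calc Cst * (Real.exp (-(15 / 16 * Real.log k)) * (k : ℝ) ^ ε + (k : ℝ) ^ (-(7 / 16) + ε))
        ≤ Cst * ((k : ℝ) ^ (-(7 / 16) + ε) + (k : ℝ) ^ (-(7 / 16) + ε)) := by gcongr
      _ = _ := by ring
  refine (mst_FF_c hc hOk hβ hR hPk hep hep1 hρ hIs (N := 2 * k) (N' := 2 * (k - 1)) (by omega)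
    hB' ho hd (PBTR.measurableSet_winW _ _) hf η η' hη).trans (le_of_eq ?_)
  ring

end fam

end WND

end
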