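import Pool.Agent.WND.WcDef
import Pool.Agent.NUT2.KForm

/-!
# The function of the cut: rules (plan W, W1c)

* `PG_free`: the start is free: `0`;
* `PG_step`: the arc of the start ends at a site `i` of a line `(i, j)`: contraction of `i`, `j`, factor
  `χ ^ (c i - c j)`;
* `PG_end`: the arc of the start ends at `k`;
* `PG_map`: injective relabelling.
-/

set_option autoImplicit false

namespace Pool.Agent.WND

open Pool.Agent.NUF Pool.Agent Pool.Agent.NUU Pool.Agent.NUT2
open Pool.Agent.TC (nuw nuw_neg nuw_zero Wp_shift Wp_scale Gf_nil_apply)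
open Pool.Agent.EXL.Net (Co_apply Co_symm)

section rules

variable {ι : Type*} [DecidableEq ι] {χ : ℂ} {c : ι → ℤ} {m k i j : ι} {R R' : List (ι × ι)} {P : EXL.Pat ι}

theorem PG_def : PG χ c m k R P = Gf (nuw χ) m k R (LPat.gau (ce c k) (ofP (ℤ × ℤ) P)) := rfl

theorem PG_free (h : P m = m) : PG χ c m k R P = 0 := by
  rw [PG_def]
  unfold Gf
  rw [oo_apply, if_pos (show (LPat.gau (ce c k) (ofP (ℤ × ℤ) P)) m = m from h)]

/-- The value through the pairing of two states. -/
theorem Wp_ev (x : ι → ℤ × ℤ) : Wp (nuw χ) x (evP (EXL.Pat.empty : EXL.Pat ι)) (evP P) m k R =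
    Gf (nuw χ) m k R (LPat.gau x (ofP (ℤ × ℤ) P)) := by
  unfold Wp
  rw [pr_apply]
  show Gf (nuw χ) m k R (LPat.gau x (ofP (ℤ × ℤ) (un EXL.Pat.empty P))) = _
  rw [un_comm (fun x => Or.inl rfl), un_empty]

/-- A label at the start. -/
theorem PG_scale (hχ : χ ≠ 0) (hmk : m ≠ k) (hR : ∀ t ∈ R, m ≠ t.1 ∧ m ≠ t.2 ∧ k ≠ t.1 ∧ k ≠ t.2) (d : ℤ)
    (P : EXL.Pat ι) :
    Gf (nuw χ) m k R (LPat.gau (ce c k + Pi.single m ((d, 0) : ℤ × ℤ)) (ofP (ℤ × ℤ) P)) =
      χ ^ (-d) * PG χ c m k R P := by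
  have e : ce c k + Pi.single m ((d, 0) : ℤ × ℤ) =
      ((fun x => (c x, 0)) + Pi.single k ((-d, 1) : ℤ × ℤ)) +
        (Pi.single m ((d, 0) : ℤ × ℤ) + Pi.single k ((d, 0) : ℤ × ℤ)) := by
    unfold ce
    funext x
    simp only [Pi.add_apply]
    by_cases h1 : x = k
    · subst h1
      rw [Pi.single_eq_same, Pi.single_eq_same, Pi.single_eq_same, Pi.single_eq_of_ne hmk.symm]
      ext
      · simp
      · simp
    · rw [Pi.single_eq_of_ne h1, Pi.single_eq_of_ne h1, Pi.single_eq_of_ne h1]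
      simp
  rw [← Wp_ev, e, Wp_shift, Wp_scale hχ hmk (-d) c _ _ hR]
  · congr 1
    exact Wp_ev (ce c k)
  · intro t ht
    rcases List.mem_cons.1 ht with rfl | ht
    · simp only [Pi.add_apply]
      rw [Pi.single_eq_same, Pi.single_eq_same, Pi.single_eq_of_ne hmk, Pi.single_eq_of_ne hmk.symm,
        add_zero, zero_add]
    · obtain ⟨h1, h2, h3, h4⟩ := hR t ht
      simp only [Pi.add_apply]
      rw [Pi.single_eq_of_ne h1.symm, Pi.single_eq_of_ne h2.symm, Pi.single_eq_of_ne h3.symm,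
        Pi.single_eq_of_ne h4.symm]

/-- Contraction of a pattern with labels. -/
theorem cut_gau (hij : i ≠ j) (hmi : m ≠ i) (hmj : m ≠ j) (hP : P m = i) (hj : P j ≠ j) (x : ι → ℤ × ℤ) :
    LPat.cut i j (LPat.gau x (ofP (ℤ × ℤ) P)) =
      LPat.gau (x + Pi.single m (x j - x i)) (ofP (ℤ × ℤ) (EXL.Pat.cut i j P)) ∧
    LPat.cut j i (LPat.gau x (ofP (ℤ × ℤ) P)) =
      LPat.gau (x + Pi.single m (x j - x i)) (ofP (ℤ × ℤ) (EXL.Pat.cut i j P)) := by
  have inv : ∀ y, P (P y) = y := P.inv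
  have hi : P i = m := by rw [← hP, inv]
  have hc : i ≠ j ∧ P i ≠ i ∧ P j ≠ j ∧ P i ≠ j := ⟨hij, by rw [hi]; exact hmi, hj, by rw [hi]; exact hmj⟩
  have hPj : P j ≠ i := fun h => hmj (by rw [← hi, ← h, inv])
  have hPjm : P j ≠ m := fun h => hij (by rw [← hP, ← h, inv])
  have hc' : j ≠ i ∧ P j ≠ j ∧ P i ≠ i ∧ P j ≠ i := ⟨hij.symm, hj, hc.2.1, hPj⟩
  have ev : ∀ y, EXL.Pat.cut i j P y = if y = i then i else if y = j then j else if y = m then P j
      else if y = P j then m else P y := by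
    intro y
    rw [EXL.cut_apply (show EXL.Pat.CtOK i j P from hc), hi]
  set Q := LPat.gau x (ofP (ℤ × ℤ) P) with hQ
  have Qf : ∀ y, Q y = P y := fun y => rfl
  have Qs : ∀ y, Q.s y = x y - x (P y) := fun y => by
    show (0 : ℤ × ℤ) + x y - x (P y) = _
    rw [zero_add]
  have hcQ : LPat.CtOK i j Q := hc
  have hcQ' : LPat.CtOK j i Q := hc'
  have s1 : ∀ y, (LPat.cut i j Q).s y = if y = i then 0 else if y = j then 0 else if y = m then Q.s j - Q.s i
      else if y = P j then Q.s i - Q.s j else Q.s y := by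
    intro y
    show (if LPat.CtOK i j Q then (if y = i then 0 else if y = j then 0 else if y = Q i then Q.s j - Q.s i
      else if y = Q j then Q.s i - Q.s j else Q.s y) else Q.s y) = _
    rw [if_pos hcQ, Qf, Qf, hi]
  have f1 : ∀ y, (LPat.cut i j Q).f y = if y = i then i else if y = j then j else if y = m then P j
      else if y = P j then m else P y := by
    intro y
    show (if LPat.CtOK i j Q then (if y = i then i else if y = j then j else if y = Q i then Q j
      else if y = Q j then Q i else Q y) else Q y) = _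
    rw [if_pos hcQ, Qf, Qf, Qf, hi]
  have s2 : ∀ y, (LPat.cut j i Q).s y = (LPat.cut i j Q).s y := by
    intro y
    rw [s1]
    show (if LPat.CtOK j i Q then (if y = j then 0 else if y = i then 0 else if y = Q j then Q.s i - Q.s j
      else if y = Q i then Q.s j - Q.s i else Q.s y) else Q.s y) = _
    rw [if_pos hcQ', Qf, Qf, hi]
    by_cases y1 : y = i
    · rw [if_pos y1, if_pos y1, if_neg (fun e => hij (y1.symm.trans e))]
    rw [if_neg y1, if_neg y1]
    by_cases y2 : y = j
    · rw [if_pos y2, if_pos y2]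
    rw [if_neg y2, if_neg y2]
    by_cases y3 : y = m
    · rw [if_pos y3, if_pos y3, if_neg (fun e => hPjm (e.symm.trans y3))]
    rw [if_neg y3, if_neg y3]
  have f2 : ∀ y, (LPat.cut j i Q).f y = (LPat.cut i j Q).f y := by
    intro y
    rw [f1]
    show (if LPat.CtOK j i Q then (if y = j then j else if y = i then i else if y = Q j then Q i
      else if y = Q i then Q j else Q y) else Q y) = _
    rw [if_pos hcQ', Qf, Qf, Qf, hi]
    by_cases y1 : y = i
    · rw [if_pos y1, if_neg (fun e => hij (y1.symm.trans e)), if_pos y1]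
    rw [if_neg y1, if_neg y1]
    by_cases y2 : y = j
    · rw [if_pos y2, if_pos y2]
    rw [if_neg y2, if_neg y2]
    by_cases y3 : y = m
    · rw [if_pos y3, if_pos y3, if_neg (fun e => hPjm (e.symm.trans y3))]
    rw [if_neg y3, if_neg y3]
  have key : LPat.cut i j Q = LPat.gau (x + Pi.single m (x j - x i)) (ofP (ℤ × ℤ) (EXL.Pat.cut i j P)) := by
    refine LPat.ext (funext fun y => ?_) (funext fun y => ?_)
    · rw [f1]
      exact (ev y).symm
    · rw [s1]
      show _ = (0 : ℤ × ℤ) + (x + Pi.single m (x j - x i) : ι → ℤ × ℤ) y -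
        (x + Pi.single m (x j - x i) : ι → ℤ × ℤ) (EXL.Pat.cut i j P y)
      rw [ev, zero_add, Qs, Qs, Qs, hi]
      simp only [Pi.add_apply]
      by_cases y1 : y = i
      · rw [if_pos y1, if_pos y1, y1, sub_self]
      rw [if_neg y1, if_neg y1]
      by_cases y2 : y = j
      · rw [if_pos y2, if_pos y2, y2, sub_self]
      rw [if_neg y2, if_neg y2]
      by_cases y3 : y = m
      · rw [if_pos y3, if_pos y3, y3, Pi.single_eq_same, Pi.single_eq_of_ne hPjm, add_zero]
        abel
      rw [if_neg y3, if_neg y3]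
      by_cases y4 : y = P j
      · rw [if_pos y4, if_pos y4, y4, Pi.single_eq_same, Pi.single_eq_of_ne hPjm, add_zero]
        abel
      rw [if_neg y4, if_neg y4]
      have y5 : P y ≠ m := fun e => y1 (by rw [← hP, ← e, inv])
      rw [Pi.single_eq_of_ne y3, Pi.single_eq_of_ne y5, add_zero, add_zero]
  refine ⟨key, ?_⟩
  rw [← key]
  exact LPat.ext (funext f2) (funext s2)

/-- **The step over a line.** -/
theorem PG_step (hχ : χ ≠ 0) (hp : R.Perm ((i, j) :: R') ∨ R.Perm ((j, i) :: R')) (hG : Gd ((m, k) :: R))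
    (hP : P m = i) :
    PG χ c m k R P = χ ^ (c i - c j) * EXL.Net.Co i j (PG χ c m k R') P := by
  have inv : ∀ y, P (P y) = y := P.inv
  have hi : P i = m := by rw [← hP, inv]
  obtain ⟨a1, a2, a3, a4, a5, a6, a7⟩ : m ≠ k ∧ i ≠ j ∧ m ≠ i ∧ m ≠ j ∧ k ≠ i ∧ k ≠ j ∧
      ∀ t ∈ R', m ≠ t.1 ∧ m ≠ t.2 ∧ k ≠ t.1 ∧ k ≠ t.2 := by
    rcases hp with hp | hp
    · obtain ⟨h1, h2, h3⟩ := Gd_cons.1 (hG.perm (hp.cons _))
      have h4 := h2 (i, j) (by simp)
      have h5 := (Gd_cons.1 h3).1
      exact ⟨h1, h5, h4.1, h4.2.1, h4.2.2.1, h4.2.2.2, fun t ht => h2 t (by simp [ht])⟩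
    · obtain ⟨h1, h2, h3⟩ := Gd_cons.1 (hG.perm (hp.cons _))
      have h4 := h2 (j, i) (by simp)
      have h5 := (Gd_cons.1 h3).1
      exact ⟨h1, h5.symm, h4.2.1, h4.1, h4.2.2.2, h4.2.2.1, fun t ht => h2 t (by simp [ht])⟩
  have hii : P i ≠ i := by rw [hi]; exact a3
  have hij' : P i ≠ j := by rw [hi]; exact a4
  set Q := LPat.gau (ce c k) (ofP (ℤ × ℤ) P) with hQ
  have Qf : ∀ y, Q y = P y := fun y => rfl
  rw [PG_def, ← hQ, Co_apply, if_neg (fun h => hii h.1)]
  by_cases hj : P j = j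
  · rw [if_pos (Or.inr (Or.inl hj)), mul_zero]
    rcases hp with hp | hp
    · rw [Gf_perm (nuw_neg χ) hG hp, Gf_cons (nuw_neg χ) a3 a4 a5 a6]
      exact glue_l a2 (show Q i ≠ i from hii) (show Q j = j from hj) _
    · rw [Gf_perm (nuw_neg χ) hG hp, Gf_cons (nuw_neg χ) a4 a3 a6 a5]
      exact glue_r a2.symm (show Q j = j from hj) (show Q i ≠ i from hii) _
  · have hPji : P j ≠ i := fun h => a4 (by rw [← hi, ← h, inv])
    rw [if_neg (by
      rw [not_or, not_or]
      exact ⟨hii, hj, hij'⟩)]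
    have cg := cut_gau a2 a3 a4 hP hj (ce c k)
    rw [← hQ] at cg
    have hx : ce c k j - ce c k i = ((c j - c i, 0) : ℤ × ℤ) := by
      rw [ce_ne c a6.symm, ce_ne c a5.symm]
      rfl
    have fin : Gf (nuw χ) m k R' (LPat.gau (ce c k + Pi.single m (ce c k j - ce c k i))
        (ofP (ℤ × ℤ) (EXL.Pat.cut i j P))) = χ ^ (c i - c j) * PG χ c m k R' (EXL.Pat.cut i j P) := by
      rw [hx, PG_scale hχ a1 a7, neg_sub]
    rcases hp with hp | hp
    · rw [Gf_perm (nuw_neg χ) hG hp, Gf_cons (nuw_neg χ) a3 a4 a5 a6]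
      show (cops (nuw χ)).glue i j (Gf (nuw χ) m k R') Q = _
      rw [glue_occ a2 (show Q i ≠ i from hii) (show Q j ≠ j from hj), lw_neg _ _ (show Q i ≠ j from hij'),
        jo_neg _ (show Q i ≠ j from hij'), one_mul, cg.1]
      exact fin
    · rw [Gf_perm (nuw_neg χ) hG hp, Gf_cons (nuw_neg χ) a4 a3 a6 a5]
      show (cops (nuw χ)).glue j i (Gf (nuw χ) m k R') Q = _
      rw [glue_occ a2.symm (show Q j ≠ j from hj) (show Q i ≠ i from hii), lw_neg _ _ (show Q j ≠ i from hPji),
        jo_neg _ (show Q j ≠ i from hPji), one_mul, cg.2]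
      exact fin

/-- The arc of the start ends at `k`, labelled form. -/
theorem Gf_end (hG : Gd ((m, k) :: R)) (Q : LPat (ℤ × ℤ) ι) (hQ : Q m = k)
    (hs : ∀ x, x ≠ m → x ≠ k → (Q.s x).2 = 0) :
    Gf (nuw χ) m k R Q = open Classical in if (∀ x, x ≠ m → x ≠ k → Q x = x) then nuw χ (Q.s m) else 0 := by
  classical
  induction R generalizing Q with
  | nil =>
    rw [Gf_nil_apply (Gd_cons.1 hG).1]
    by_cases h : ∀ x, x ≠ m → x ≠ k → Q x = x
    · rw [if_pos ⟨hQ, h⟩, if_pos h]
    · rw [if_neg (fun h' => h h'.2), if_neg h]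
  | cons t R ih =>
    obtain ⟨e1, e2, e3⟩ := Gd_cons.1 hG
    obtain ⟨f1, f2, f3, f4⟩ := e2 t (by simp)
    simp only at e1 f1 f2 f3 f4
    have ht : t.1 ≠ t.2 := (Gd_cons.1 e3).1
    have hG' : Gd ((m, k) :: R) := Gd_cons.2 ⟨e1, fun s hs => e2 s (by simp [hs]), (Gd_cons.1 e3).2.2⟩
    have inv : ∀ x, Q (Q x) = x := Q.inv
    have hk : Q k = m := by rw [← hQ, inv]
    rw [Gf_cons (nuw_neg χ) f1 f2 f3 f4]
    by_cases a1 : Q t.1 = t.1
    · by_cases a2 : Q t.2 = t.2
      · rw [glue_emp ht a1 a2, ih hG' Q hQ hs]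
      · rw [glue_r ht a1 a2, if_neg fun h => a2 (h _ f2.symm f4.symm)]
    · rw [if_neg fun h => a1 (h _ f1.symm f3.symm)]
      by_cases a2 : Q t.2 = t.2
      · rw [glue_l ht a1 a2]
      · rw [glue_occ ht a1 a2]
        by_cases a3 : Q t.1 = t.2
        · rw [lw_pos _ _ a3]
          have h1 : (Q.s t.1).2 = 0 := hs _ f1.symm f3.symm
          have h2 : nuw χ (Q.s t.1) = 0 := by
            unfold nuw
            rw [h1, if_neg (by decide), if_neg (by decide)]
          rw [h2, zero_mul]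
        · rw [lw_neg _ _ a3, jo_neg _ a3, one_mul]
          have hc : LPat.CtOK t.1 t.2 Q := ⟨ht, a1, a2, a3⟩
          have b1 : Q t.1 ≠ m := fun h => f3 (by rw [← hQ, ← h, inv])
          have b2 : Q t.1 ≠ k := fun h => f1 (by rw [← hk, ← h, inv])
          have b3 : Q t.2 ≠ m := fun h => f4 (by rw [← hQ, ← h, inv])
          have b4 : Q t.2 ≠ k := fun h => f2 (by rw [← hk, ← h, inv])
          have cf : ∀ x, LPat.cut t.1 t.2 Q x = if x = t.1 then t.1 else if x = t.2 then t.2
              else if x = Q t.1 then Q t.2 else if x = Q t.2 then Q t.1 else Q x := by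
            intro x
            show (if LPat.CtOK t.1 t.2 Q then _ else _) = _
            rw [if_pos hc]
          have cs : ∀ x, (LPat.cut t.1 t.2 Q).s x = if x = t.1 then 0 else if x = t.2 then 0
              else if x = Q t.1 then Q.s t.2 - Q.s t.1 else if x = Q t.2 then Q.s t.1 - Q.s t.2 else Q.s x := by
            intro x
            show (if LPat.CtOK t.1 t.2 Q then _ else _) = _
            rw [if_pos hc]
          rw [ih hG' _ _ _, if_neg]
          · intro h
            have h1 := h (Q t.1) b1 b2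
            have h2 : LPat.cut t.1 t.2 Q (Q t.1) = Q t.2 := by
              rw [cf, if_neg a1, if_neg a3, if_pos rfl]
            rw [h2] at h1
            have h3 := congrArg Q h1
            rw [inv, inv] at h3
            exact ht h3.symm
          · rw [cf, if_neg f1, if_neg f2, if_neg b1.symm, if_neg b3.symm, hQ]
          · intro x x1 x2
            rw [cs]
            split_ifs
            · rfl
            · rfl
            · rw [Prod.snd_sub, hs _ f2.symm f4.symm, hs _ f1.symm f3.symm, sub_zero]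
            · rw [Prod.snd_sub, hs _ f2.symm f4.symm, hs _ f1.symm f3.symm, sub_zero]
            · exact hs x x1 x2

/-- **The end.** -/
theorem PG_end (hG : Gd ((m, k) :: R)) (hP : P m = k) :
    PG χ c m k R P = χ ^ (c k - c m) * (EXL.HS.ind (ark m k) : EXL.Pat ι → ℂ) P := by
  classical
  have hmk : m ≠ k := (Gd_cons.1 hG).1
  have inv : ∀ y, P (P y) = y := P.inv
  have hk : P k = m := by rw [← hP, inv]
  set Q := LPat.gau (ce c k) (ofP (ℤ × ℤ) P) with hQ
  have Qs : ∀ y, Q.s y = ce c k y - ce c k (P y) := fun y => by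
    show (0 : ℤ × ℤ) + ce c k y - ce c k (P y) = _
    rw [zero_add]
  rw [PG_def, ← hQ, Gf_end hG Q hP]
  · have hs : Q.s m = (c m - c k, -1) := by
      rw [Qs, hP, ce_ne c hmk, ce_self]
      ext
      · simp
      · simp
    by_cases h : ∀ x, x ≠ m → x ≠ k → Q x = x
    · have e : P = ark m k := by
        ext x
        rw [ark_apply]
        by_cases x1 : x = m
        · rw [if_pos x1, x1]
          exact hP
        by_cases x2 : x = k
        · rw [if_neg x1, if_pos x2, x2]
          exact hk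
        rw [if_neg x1, if_neg x2]
        exact h x x1 x2
      rw [if_pos h, hs, e, EXL.HS.ind_self, mul_one]
      unfold nuw
      simp only [if_true]
      rw [if_neg (by decide)]
      congr 1
      ring
    · rw [if_neg h, EXL.HS.ind_ne, mul_zero]
      rintro rfl
      apply h
      intro x x1 x2
      show ark m k x = x
      rw [ark_apply, if_neg x1, if_neg x2]
  · intro x x1 x2
    have x3 : P x ≠ k := fun e => x1 (by rw [← hk, ← e, inv])
    rw [Qs, ce_ne c x2, ce_ne c x3]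
    simp

end rules

section map

variable {α β : Type*} [DecidableEq α] [DecidableEq β] {e : β → α} {χ : ℂ} {c : β → ℤ} {c' : α → ℤ}
  {m k : β} {R : List (β × β)}

/-- **Relabelling**: `Q` = the state `p` on the image of the sites. -/
theorem PG_map (he : Function.Injective e) (hc : ∀ x, c' (e x) = c x) (hG : Gd ((m, k) :: R))
    {Q : EXL.Pat α} {p : EXL.Pat β} (h1 : ∀ x, Q (e x) = e (p x)) (h2 : ∀ x, x ∉ Set.range e → Q x = x) :
    PG χ c' (e m) (e k) (R.map (Prod.map e e)) Q = PG χ c m k R p := by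
  have hce : ∀ x, ce c' (e k) (e x) = ce c k x := by
    intro x
    by_cases h : x = k
    · rw [h, ce_self, ce_self, hc]
    · rw [ce_ne _ h, ce_ne _ (fun hh => h (he hh)), hc]
  exact (relE_Gf (ν := nuw χ) he hG).tw hce _ _ ⟨⟨h1, fun x => rfl⟩, h2⟩

end map

end Pool.Agent.WND
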