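import Pool.Agent.GLD.TwoCut
import Pool.Agent.WND.PGr

/-!
# The network of the cylinder with the winding weight: exploration (plan W, W1c)

`mainW`: the network evaluated on the function of the cut `PG`, one arc from the start to the half edge `p`, is the
sum over the words from `p` with the weight `χ ^ label`.  `two_cutW`: the same from the empty state.
-/

set_option autoImplicit false

namespace Pool.Agent.WND

open Pool.Agent.NUF Pool.Agent Pool.Agent.NUU Pool.Agent.NUT2
open Pool.Agent.TC (nuw nuw_neg nuw_zero)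
open Pool.Agent.EXL Pool.Agent.EXL.Net HexObs HexObs.LP
open Pool.Agent.NUF.Cyl (Nm PO PO_apply)

/-! ### words -/

section words

variable {C : Nm} {χ x : ℂ} {c : Lab → ℤ} {A : Finset Pt} {T : Finset (Pt × Pt)} {p : Pt × Pt}

theorem hwd_zero (hp : C.nm p.1 = p.1) (t : List Bool) : hwd C p t 0 = p := Prod.ext hp rfl

theorem hwd_succ (p : Pt × Pt) (b : Bool) (s : List Bool) (i : ℕ) :
    hwd C p (b :: s) (i + 1) = hwd C (C.nb p, turn b p.2) s i := by
  unfold hwd Nm.nb
  rw [Net.vx_cons, Net.dx_cons, Nm.nm_vx]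

theorem lbs_nil : lbs C c p [] = 0 := rfl

theorem lbs_cons (hp : C.nm p.1 = p.1) (b : Bool) (s : List Bool) :
    lbs C c p (b :: s) = lbh C c p + lbs C c (C.nb p, turn b p.2) s := by
  unfold lbs
  rw [List.length_cons, Finset.sum_range_succ', hwd_zero hp, add_comm]
  simp only [hwd_succ]

theorem WsW_out (hp : C.nm p.1 = p.1) (h : C.nb p ∉ A) :
    WsW C χ x c A T p = if C.rv p ∈ T then 1 else 0 := by
  unfold WsW
  have e : C.arr A p = {[]} := by
    ext t
    rw [Nm.mem_arr, Finset.mem_singleton]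
    constructor
    · intro ht
      rcases t with _ | ⟨b, s⟩
      · rfl
      · exact absurd (Nm.arr_cons.1 ht).1 h
    · rintro rfl
      exact ⟨fun i h1 h2 => by simp at h2; omega, fun i k h1 h2 h3 => by simp at h3; omega⟩
  rw [e, Finset.filter_singleton, Nm.le_nil hp]
  split_ifs
  · simp [lbs_nil]
  · simp

theorem WsW_in (hχ : χ ≠ 0) (hp : C.nm p.1 = p.1) (h : C.nb p ∈ A) (h' : C.rv p ∉ T) :
    WsW C χ x c A T p = x * χ ^ lbh C c p * (WsW C χ x c (A.erase (C.nb p)) T (C.nb p, rotL p.2) +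
      WsW C χ x c (A.erase (C.nb p)) T (C.nb p, rotR p.2)) := by
  classical
  unfold WsW
  set A' := A.erase (C.nb p) with hA'
  have e : (C.arr A p).filter (fun t => C.rv (C.le p t) ∈ T) =
      ((C.arr A' (C.nb p, rotL p.2)).filter
        (fun t => C.rv (C.le (C.nb p, rotL p.2) t) ∈ T)).image (List.cons true) ∪
      ((C.arr A' (C.nb p, rotR p.2)).filter
        (fun t => C.rv (C.le (C.nb p, rotR p.2) t) ∈ T)).image (List.cons false) := by
    ext t
    simp only [Finset.mem_union, Finset.mem_image, Finset.mem_filter, Nm.mem_arr]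
    constructor
    · rintro ⟨h1, h2⟩
      rcases t with _ | ⟨b, s⟩
      · rw [Nm.le_nil hp] at h2
        exact absurd h2 h'
      · rw [Nm.arr_cons] at h1
        rw [Nm.le_cons] at h2
        cases b
        · exact Or.inr ⟨s, ⟨h1.2, h2⟩, rfl⟩
        · exact Or.inl ⟨s, ⟨h1.2, h2⟩, rfl⟩
    · rintro (⟨s, ⟨h1, h2⟩, rfl⟩ | ⟨s, ⟨h1, h2⟩, rfl⟩)
      · rw [Nm.arr_cons, Nm.le_cons]
        exact ⟨⟨h, h1⟩, h2⟩
      · rw [Nm.arr_cons, Nm.le_cons]
        exact ⟨⟨h, h1⟩, h2⟩
  have hd : Disjoint (((C.arr A' (C.nb p, rotL p.2)).filter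
        (fun t => C.rv (C.le (C.nb p, rotL p.2) t) ∈ T)).image (List.cons true))
      (((C.arr A' (C.nb p, rotR p.2)).filter
        (fun t => C.rv (C.le (C.nb p, rotR p.2) t) ∈ T)).image (List.cons false)) := by
    rw [Finset.disjoint_left]
    intro t h1 h2
    obtain ⟨s, -, rfl⟩ := Finset.mem_image.1 h1
    obtain ⟨r, -, hr⟩ := Finset.mem_image.1 h2
    simp at hr
  have ht : ∀ (b : Bool) (s : List Bool), x ^ (b :: s).length * χ ^ lbs C c p (b :: s) =
      x * χ ^ lbh C c p * (x ^ s.length * χ ^ lbs C c (C.nb p, turn b p.2) s) := by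
    intro b s
    rw [lbs_cons hp, zpow_add₀ hχ, List.length_cons, pow_succ]
    ring
  rw [e, Finset.sum_union hd, Finset.sum_image (fun a _ b _ hab => List.cons_injective hab),
    Finset.sum_image (fun a _ b _ hab => List.cons_injective hab), mul_add, Finset.mul_sum,
    Finset.mul_sum]
  congr 1
  · exact Finset.sum_congr rfl fun s _ => ht true s
  · exact Finset.sum_congr rfl fun s _ => ht false s

/-- the words that end at `b` when the vertex of `b` is not in the domain. -/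
theorem WsW_self {b : Pt × Pt} (hb : C.nm b.1 = b.1) (hbA : b.1 ∉ A) (hp : C.nm p.1 = p.1) :
    WsW C χ x c A {C.rv b} p = if p = b then 1 else 0 := by
  unfold WsW
  have hle : ∀ t, C.Arr A p t → C.rv (C.le p t) ∈ ({C.rv b} : Finset (Pt × Pt)) → t = [] ∧ p = b := by
    intro t ht h
    rw [Finset.mem_singleton] at h
    have h1 : C.le p t = b := by
      have h2 : C.nm (C.le p t).1 = (C.le p t).1 := C.idem _
      rw [← Nm.rv_rv h2, h, Nm.rv_rv hb]
    rcases t with _ | ⟨a, s⟩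
    · rw [Nm.le_nil hp] at h1
      exact ⟨rfl, h1⟩
    · exfalso
      apply hbA
      rw [← h1]
      exact ht.mem _ (by simp) le_rfl
  by_cases h : p = b
  · rw [if_pos h]
    have e : (C.arr A p).filter (fun t => C.rv (C.le p t) ∈ ({C.rv b} : Finset (Pt × Pt))) = {[]} := by
      ext t
      rw [Finset.mem_filter, Nm.mem_arr]
      constructor
      · rintro ⟨h1, h2⟩
        rw [Finset.mem_singleton]
        exact (hle t h1 h2).1
      · intro ht
        rw [Finset.mem_singleton] at ht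
        subst ht
        refine ⟨⟨fun i h1 h2 => by simp at h2; omega, fun i k h1 h2 h3 => by simp at h3; omega⟩, ?_⟩
        rw [Nm.le_nil hp, h, Finset.mem_singleton]
    rw [e, Finset.sum_singleton]
    simp [lbs_nil]
  · rw [if_neg h]
    refine Finset.sum_eq_zero fun t ht => ?_
    rw [Finset.mem_filter, Nm.mem_arr] at ht
    exact absurd (hle t ht.1 ht.2).2 h

end words

/-! ### functions that agree -/

section agree

/-- the functions agree on the states in which `u` is joined to `v`. -/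
def Agr (u v : Lab) (F F' : Pat Lab → ℂ) : Prop := ∀ q : Pat Lab, q u = v → F q = F' q

variable {u v a b : Lab} {F F' : Pat Lab → ℂ}

theorem agr_cupO (hu : a ≠ u ∧ b ≠ u) (h : Agr u v F F') : Agr u v (cupO a b F) (cupO a b F') := by
  intro q hq
  rw [cupO_apply, cupO_apply]
  split_ifs with c
  · apply h
    rw [EXL.cup_apply c, if_neg hu.1.symm, if_neg hu.2.symm, hq]
  · rfl

theorem agr_Co (hab : a ≠ b) (hu : a ≠ u ∧ b ≠ u) (hv : a ≠ v ∧ b ≠ v) (h : Agr u v F F') :
    Agr u v (Co a b F) (Co a b F') := by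
  intro q hq
  rw [Co_apply, Co_apply]
  split_ifs with c1 c2
  · exact h q hq
  · rfl
  · rw [not_or, not_or] at c2
    apply h
    have hc : EXL.Pat.CtOK a b q := ⟨hab, c2.1, c2.2.1, c2.2.2⟩
    have n1 : u ≠ q a := fun e => hv.1 (by rw [← hq, e, q.inv])
    have n2 : u ≠ q b := fun e => hv.2 (by rw [← hq, e, q.inv])
    rw [EXL.cut_apply hc, if_neg hu.1.symm, if_neg hu.2.symm, if_neg n1, if_neg n2, hq]

theorem agr_Crv (y : ℂ) {v' : Pt} (hu : ∀ d, hf (v', d) ≠ u) (h : Agr u v F F') :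
    Agr u v (Crv y v' F) (Crv y v' F') := by
  intro q hq
  unfold Crv Cr
  simp only [LinearMap.add_apply, Module.End.one_apply, LinearMap.smul_apply, Pi.add_apply, Pi.smul_apply]
  rw [h q hq, agr_cupO ⟨hu _, hu _⟩ h q hq, agr_cupO ⟨hu _, hu _⟩ h q hq, agr_cupO ⟨hu _, hu _⟩ h q hq]

variable {C : Nm}

theorem agr_CR (y : ℂ) {A : Finset Pt} (hu : ∀ w ∈ A, ∀ d, hf (w, d) ≠ u) (h : Agr u v F F') :
    Agr u v (CR y A F) (CR y A F') := by
  have key : (fun B : Op Lab ℂ => ∀ F F', Agr u v F F' → Agr u v (B F) (B F')) (CR y A) := by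
    refine Finset.noncommProd_induction A _ _ (fun B : Op Lab ℂ => ∀ F F', Agr u v F F' → Agr u v (B F) (B F'))
      (fun a b ha hb F F' h => ha _ _ (hb F F' h)) (fun F F' h => h) (fun w hw F F' h => ?_)
    exact agr_Crv y (hu w hw) h
  exact key F F' h

theorem agr_CO {E : Finset (Sym2 Lab)} (hE : C.Edg E)
    (hu : ∀ h, C.ed h ∈ E → C.De h → hf h ≠ u ∧ hf (C.rv h) ≠ u)
    (hv : ∀ h, C.ed h ∈ E → C.De h → hf h ≠ v ∧ hf (C.rv h) ≠ v) (h : Agr u v F F') :
    Agr u v (Nm.CO ℂ E hE F) (Nm.CO ℂ E hE F') := by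
  have key : (fun B : Op Lab ℂ => ∀ F F', Agr u v F F' → Agr u v (B F) (B F')) (Nm.CO ℂ E hE) := by
    refine Finset.noncommProd_induction E _ _ (fun B : Op Lab ℂ => ∀ F F', Agr u v F F' → Agr u v (B F) (B F'))
      (fun a b ha hb F F' h => ha _ _ (hb F F' h)) (fun F F' h => h) (fun e he F F' h => ?_)
    obtain ⟨g, hg, rfl⟩ := hE e he
    rw [Nm.CoS_ed]
    refine agr_Co ?_ (hu g he hg) (hv g he hg) h
    intro e
    exact Nm.rv_ne hg (Sum.inl_injective e)
  exact key F F' h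

/-- the value is 1 at the arc of `u` and `v`, and 0 at the other states in which `u` is joined to `v`. -/
def Gud (u v : Lab) (F : Pat Lab → ℂ) : Prop := F (ark u v) = 1 ∧ ∀ q : Pat Lab, q u = v → q ≠ ark u v → F q = 0

theorem gud_cupO (hab : a ≠ b) (hu : a ≠ u ∧ b ≠ u) (hv : a ≠ v ∧ b ≠ v) (h : Gud u v F) {q : Pat Lab}
    (hq : q u = v) : cupO a b F q = 0 := by
  rw [cupO_apply]
  split_ifs with c
  · apply h.2
    · rw [EXL.cup_apply c, if_neg hu.1.symm, if_neg hu.2.symm, hq]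
    · intro e
      have h1 : (EXL.Pat.cup a b q) a = ark u v a := by rw [e]
      rw [EXL.cup_apply c, if_pos rfl, ark_apply, if_neg hu.1, if_neg hv.1] at h1
      exact hab h1.symm
  · rfl

theorem gud_Crv (y : ℂ) {v' : Pt} (hu : ∀ d, hf (v', d) ≠ u) (hv : ∀ d, hf (v', d) ≠ v)
    (h : Gud u v F) : Gud u v (Crv y v' F) := by
  have h0 := dv_ne v'
  have key : ∀ q : Pat Lab, q u = v → Crv y v' F q = F q := by
    intro q hq
    unfold Crv Cr
    simp only [LinearMap.add_apply, Module.End.one_apply, LinearMap.smul_apply, Pi.add_apply, Pi.smul_apply]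
    rw [gud_cupO (by simpa using h0.1.symm) ⟨hu _, hu _⟩ ⟨hv _, hv _⟩ h hq,
      gud_cupO (by simpa using h0.2.1.symm) ⟨hu _, hu _⟩ ⟨hv _, hv _⟩ h hq,
      gud_cupO (by simpa using h0.2.2) ⟨hu _, hu _⟩ ⟨hv _, hv _⟩ h hq]
    simp
  have hf : (ark u v : Pat Lab) u = v := by rw [ark_apply, if_pos rfl]
  exact ⟨by rw [key _ hf]; exact h.1, fun q h1 h2 => by rw [key _ h1]; exact h.2 q h1 h2⟩

theorem gud_Co (hab : a ≠ b) (hu : a ≠ u ∧ b ≠ u) (hv : a ≠ v ∧ b ≠ v) (h : Gud u v F) :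
    Gud u v (Co a b F) := by
  have ea : (ark u v : Pat Lab) a = a := by rw [ark_apply, if_neg hu.1, if_neg hv.1]
  have eb : (ark u v : Pat Lab) b = b := by rw [ark_apply, if_neg hu.2, if_neg hv.2]
  refine ⟨?_, fun q h1 h2 => ?_⟩
  · rw [Co_apply, if_pos ⟨ea, eb⟩]
    exact h.1
  · rw [Co_apply]
    split_ifs with c1 c2
    · exact h.2 q h1 h2
    · rfl
    · rw [not_or, not_or] at c2
      have hc : EXL.Pat.CtOK a b q := ⟨hab, c2.1, c2.2.1, c2.2.2⟩
      have qv : q v = u := by rw [← h1, q.inv]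
      have n1 : u ≠ q a := fun e => hv.1 (by rw [← h1, e, q.inv])
      have n2 : u ≠ q b := fun e => hv.2 (by rw [← h1, e, q.inv])
      have n3 : v ≠ q a := fun e => hu.1 (by rw [← qv, e, q.inv])
      apply h.2
      · rw [EXL.cut_apply hc, if_neg hu.1.symm, if_neg hu.2.symm, if_neg n1, if_neg n2, h1]
      · intro e
        have h3 : (EXL.Pat.cut a b q) (q a) = ark u v (q a) := by rw [e]
        rw [EXL.cut_apply hc, if_neg c2.1, if_neg c2.2.2, if_pos rfl, ark_apply, if_neg n1.symm, if_neg n3.symm] at h3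
        exact hab (q.inj h3).symm

theorem gud_CR (y : ℂ) {A : Finset Pt} (hu : ∀ w ∈ A, ∀ d, hf (w, d) ≠ u)
    (hv : ∀ w ∈ A, ∀ d, hf (w, d) ≠ v) (h : Gud u v F) : Gud u v (CR y A F) := by
  have key : (fun B : Op Lab ℂ => ∀ F, Gud u v F → Gud u v (B F)) (CR y A) := by
    refine Finset.noncommProd_induction A _ _ (fun B : Op Lab ℂ => ∀ F, Gud u v F → Gud u v (B F))
      (fun a b ha hb F h => ha _ (hb F h)) (fun F h => h) (fun w hw F h => ?_)
    exact gud_Crv y (hu w hw) (hv w hw) h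
  exact key F h

theorem gud_CO {E : Finset (Sym2 Lab)} (hE : C.Edg E)
    (hu : ∀ h, C.ed h ∈ E → C.De h → hf h ≠ u ∧ hf (C.rv h) ≠ u)
    (hv : ∀ h, C.ed h ∈ E → C.De h → hf h ≠ v ∧ hf (C.rv h) ≠ v) (h : Gud u v F) : Gud u v (Nm.CO ℂ E hE F) := by
  have key : (fun B : Op Lab ℂ => ∀ F, Gud u v F → Gud u v (B F)) (Nm.CO ℂ E hE) := by
    refine Finset.noncommProd_induction E _ _ (fun B : Op Lab ℂ => ∀ F, Gud u v F → Gud u v (B F))
      (fun a b ha hb F h => ha _ (hb F h)) (fun F h => h) (fun e he F h => ?_)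
    obtain ⟨g, hg, rfl⟩ := hE e he
    rw [Nm.CoS_ed]
    refine gud_Co ?_ (hu g he hg) (hv g he hg) h
    intro e
    exact Nm.rv_ne hg (Sum.inl_injective e)
  exact key F h

end agree

/-! ### the exploration -/

section main

variable {C : Nm} {χ x : ℂ} {c : Lab → ℤ} {a b : Pt × Pt} {E : Finset (Sym2 Lab)} {Ra : List (Pt × Pt)}
  {A : Finset Pt} {p : Pt × Pt}

/-- the value is 0 if a site outside of the lines is occupied. -/
theorem PG_off {ι : Type*} [DecidableEq ι] {c : ι → ℤ} {m k s : ι} {R : List (ι × ι)} {P : EXL.Pat ι}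
    (h1 : s ≠ m) (h2 : s ≠ k) (h : ∀ t ∈ R, s ≠ t.1 ∧ s ≠ t.2) (hs : P s ≠ s) : PG χ c m k R P = 0 := by
  rw [PG_def, ← E_Gf h1 h2 h]
  have e1 : (cops (Γ := ℤ × ℤ) (nuw χ)).E s = lE (ℤ × ℤ) ℂ s := by
    show repL (nuw χ) id (we s) = _
    rw [repL, we, FreeAlgebra.lift_ι_apply]
    rfl
  rw [e1, lE_apply, if_neg]
  exact hs

/-- the lines of the half edges. -/
def lnS (C : Nm) (Ra : List (Pt × Pt)) : List (Lab × Lab) := Ra.map fun h => (hf h, hf (C.rv h))

/-- the half edge can be reached. -/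
def Okh (C : Nm) (a b : Pt × Pt) (E : Finset (Sym2 Lab)) (Ra : List (Pt × Pt)) (q : Pt × Pt) : Prop :=
  q = b ∨ q = C.rv b ∨ q = C.rv a ∨ C.ed q ∈ E ∨ q ∈ Ra ∨ C.rv q ∈ Ra

/-- the edges `E`, the lines `Ra`, the cut edges of `a`, `b`. -/
structure Nt (C : Nm) (c : Lab → ℤ) (a b : Pt × Pt) (E : Finset (Sym2 Lab)) (Ra : List (Pt × Pt)) : Prop where
  ha : C.De a
  hb : C.De b
  ab : C.ed a ≠ C.ed b
  hE : C.Edg E
  hR : ∀ h ∈ Ra, C.De h
  G : Gd ((be, hf b) :: lnS C Ra)
  nE : ∀ h ∈ Ra, C.ed h ∉ E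
  aE : C.ed a ∉ E
  bE : C.ed b ∉ E
  aR : ∀ t ∈ lnS C Ra, (hf (C.rv a) : Lab) ≠ t.1 ∧ (hf (C.rv a) : Lab) ≠ t.2
  bR : ∀ t ∈ lnS C Ra, (hf (C.rv b) : Lab) ≠ t.1 ∧ (hf (C.rv b) : Lab) ≠ t.2
  l0 : ∀ h, C.De h → C.ed h ∈ E → lbh C c h = 0

theorem Nt.erE (hN : Nt C c a b E Ra) (e : Sym2 Lab) : Nt C c a b (E.erase e) Ra where
  ha := hN.ha
  hb := hN.hb
  ab := hN.ab
  hE := Nm.Edg.erase hN.hE e
  hR := hN.hR
  G := hN.G
  nE h hh hm := hN.nE h hh (Finset.mem_of_mem_erase hm)
  aE hm := hN.aE (Finset.mem_of_mem_erase hm)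
  bE hm := hN.bE (Finset.mem_of_mem_erase hm)
  aR := hN.aR
  bR := hN.bR
  l0 h h1 h2 := hN.l0 h h1 (Finset.mem_of_mem_erase h2)

theorem lnS_perm {g : Pt × Pt} (hg : g ∈ Ra) : (lnS C Ra).Perm ((hf g, hf (C.rv g)) :: lnS C (Ra.erase g)) := by
  unfold lnS
  exact (List.perm_cons_erase hg).map _

theorem Nt.erR (hN : Nt C c a b E Ra) {g : Pt × Pt} (hg : g ∈ Ra) : Nt C c a b E (Ra.erase g) where
  ha := hN.ha
  hb := hN.hb
  ab := hN.ab
  hE := hN.hE
  hR h hh := hN.hR h (List.mem_of_mem_erase hh)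
  G := by
    have h1 := hN.G.perm ((lnS_perm (C := C) hg).cons _)
    obtain ⟨a1, a2, a3⟩ := Gd_cons.1 h1
    exact Gd_cons.2 ⟨a1, fun s hs => a2 s (by simp [hs]), (Gd_cons.1 a3).2.2⟩
  nE h hh := hN.nE h (List.mem_of_mem_erase hh)
  aE := hN.aE
  bE := hN.bE
  aR t ht := hN.aR t ((lnS_perm (C := C) hg).symm.subset (List.mem_cons_of_mem _ ht))
  bR t ht := hN.bR t ((lnS_perm (C := C) hg).symm.subset (List.mem_cons_of_mem _ ht))
  l0 := hN.l0

theorem ed_inj' {h k : Pt × Pt} (hk : C.nm k.1 = k.1) (n1 : h ≠ k) (n2 : h ≠ C.rv k) : C.ed h ≠ C.ed k := by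
  rw [Ne, Nm.ed_eq hk, not_or]
  exact ⟨n1, n2⟩

/-- one step of the exploration. -/
theorem stepW {E' : Finset (Sym2 Lab)} (hE' : C.Edg E') (hp : C.De p) (h1 : p.1 ∉ A) (F : Pat Lab → ℂ) :
    (CR x A * (CoS (C.ed p) * Nm.CO ℂ E' hE') : Op Lab ℂ) F (st p) = if C.nb p ∈ A then
      x * ((CR x (A.erase (C.nb p)) * Nm.CO ℂ E' hE' : Op Lab ℂ) F (st (C.nb p, rotL p.2)) +
        (CR x (A.erase (C.nb p)) * Nm.CO ℂ E' hE' : Op Lab ℂ) F (st (C.nb p, rotR p.2))) else 0 := by
  by_cases hw : C.nb p ∈ A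
  · rw [if_pos hw]
    set w := C.nb p with hwd
    have hwp : w ≠ p.1 := fun h => h1 (h ▸ hw)
    have hDw : C.De (w, -p.2) := hp.rv'
    have hrv : C.rv p = (w, -p.2) := rfl
    have r1 : rotL (rotL (-p.2)) = rotR p.2 := by
      refine Prod.ext ?_ ?_ <;> simp only [rotL, rotR, Prod.fst_neg, Prod.snd_neg] <;> ring
    have r2 : rotR (rotR (-p.2)) = rotL p.2 := by
      refine Prod.ext ?_ ?_ <;> simp only [rotL, rotR, Prod.fst_neg, Prod.snd_neg] <;> ring
    have hne : ∀ s : Bool, turn s p.2 ≠ -p.2 := by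
      have key : ∀ d ∈ dirs, ∀ s : Bool, turn s d ≠ -d := by decide
      exact key p.2 hp.1.1
    have c2 := Nm.CoS_CR_comm (K := ℂ) (C := C) (A := A.erase w) x
      (fun h => h1 (Finset.mem_of_mem_erase h)) (Finset.notMem_erase w A)
    have e : (CR x A * (CoS (C.ed p) * Nm.CO ℂ E' hE') : Op Lab ℂ) =
        Crv x w * (CoS (C.ed p) * (CR x (A.erase w) * Nm.CO ℂ E' hE')) := by
      rw [CR_erase x hw]
      calc _ = Crv x w * (CR x (A.erase w) * CoS (C.ed p)) * Nm.CO ℂ E' hE' := by simp only [mul_assoc]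
        _ = _ := by
          rw [← c2.eq]
          simp only [mul_assoc]
    rw [e]
    simp only [Module.End.mul_apply]
    rw [Crv_eq x hDw.1, Nm.CoS_ed, r1, r2, hrv]
    have q1 : (w, -p.2) ≠ p := fun h => hwp (congrArg Prod.fst h)
    have q2 : (w, rotR p.2) ≠ p := fun h => hwp (congrArg Prod.fst h)
    have q3 : (w, rotL p.2) ≠ p := fun h => hwp (congrArg Prod.fst h)
    have q4 : (w, -p.2) ≠ (w, rotR p.2) := fun h => hne false (congrArg Prod.snd h).symm
    have q5 : (w, -p.2) ≠ (w, rotL p.2) := fun h => hne true (congrArg Prod.snd h).symm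
    refine (step_in x q1 q2 q3 q4 q5 _).trans ?_
    rw [add_comm]
  · rw [if_neg hw]
    have c2 := Nm.CoS_CR_comm (K := ℂ) (C := C) x h1 hw
    have e : (CR x A * (CoS (C.ed p) * Nm.CO ℂ E' hE') : Op Lab ℂ) =
        CoS (C.ed p) * (CR x A * Nm.CO ℂ E' hE') := by
      calc _ = (CR x A * CoS (C.ed p)) * Nm.CO ℂ E' hE' := by simp only [mul_assoc]
        _ = _ := by
          rw [← c2.eq]
          simp only [mul_assoc]
    rw [e]
    simp only [Module.End.mul_apply]
    rw [Nm.CoS_ed]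
    exact Co_st (Nm.rv_ne hp).symm _

/-- the labels touched by the edges of E. -/
theorem hfE {g : Pt × Pt} (h : C.ed g ∉ E) {h' : Pt × Pt} (h1 : C.ed h' ∈ E) (h2 : C.De h') :
    (hf h' : Lab) ≠ hf g ∧ (hf (C.rv h') : Lab) ≠ hf g := by
  constructor
  · intro e
    exact h (by rw [← Sum.inl_injective e]; exact h1)
  · intro e
    apply h
    rw [← Sum.inl_injective e, Nm.ed_rv h2.2]
    exact h1

/-- **The exploration with labels.** -/
theorem mainW (hχ : χ ≠ 0) (cb : c (hf b) = 0) (cbe : c be = 0) (n : ℕ) :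
    ∀ (A : Finset Pt), A.card = n → ∀ (E : Finset (Sym2 Lab)) (Ra : List (Pt × Pt)) (hN : Nt C c a b E Ra)
      (p : Pt × Pt), C.De p → p.1 ∉ A → a.1 ∉ A → Okh C a b E Ra p →
      (∀ w ∈ A, ∀ d, C.De (w, d) → Okh C a b E Ra (w, d)) →
      (CR x A * Nm.CO ℂ E hN.hE : Op Lab ℂ) (PG χ c be (hf b) (lnS C Ra)) (st p) =
        WsW C χ x c A {C.rv b} p := by
  induction n using Nat.strong_induction_on with
  | _ n ih =>
    intro A hA E Ra hN p hp h1 aA ok okA
    have hbe : ∀ w ∈ A, ∀ d, (hf (w, d) : Lab) ≠ be := fun w _ d => by simp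
    have hbeE : ∀ h, C.ed h ∈ E → C.De h → (hf h : Lab) ≠ be ∧ (hf (C.rv h) : Lab) ≠ be := fun h _ _ => by simp
    have hvp : ∀ w ∈ A, ∀ d, (hf (w, d) : Lab) ≠ hf p := by
      intro w hw d e
      exact h1 (by rw [← Sum.inl_injective e]; exact hw)
    -- the value depends on the states with the arc from be to p only
    have agX : ∀ F F' : Pat Lab → ℂ, C.ed p ∉ E → Agr be (hf p) F F' →
        (CR x A * Nm.CO ℂ E hN.hE : Op Lab ℂ) F (st p) = (CR x A * Nm.CO ℂ E hN.hE : Op Lab ℂ) F' (st p) := by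
      intro F F' hpE hF
      refine agr_CR x hbe (agr_CO hN.hE hbeE (fun h a1 a2 => hfE hpE a1 a2) hF) _ ?_
      exact st_be p
    have zero : ∀ s : Pt × Pt, p = s → C.ed s ∉ E → s ≠ b → (∀ t ∈ lnS C Ra, (hf s : Lab) ≠ t.1 ∧ (hf s : Lab) ≠ t.2) →
        (CR x A * Nm.CO ℂ E hN.hE : Op Lab ℂ) (PG χ c be (hf b) (lnS C Ra)) (st p) = 0 := by
      intro s hs hsE hsb hsR
      rw [agX _ 0 (by rw [hs]; exact hsE), map_zero]
      · rfl
      · intro q hq
        refine PG_off (s := hf s) (by simp) (by simpa using hsb) hsR ?_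
        rw [← hs, ← hq, q.inv, hq]
        simp
    by_cases hpb : p = b
    · -- the end
      subst hpb
      rw [WsW_self hp.2 h1 hp.2, if_pos rfl]
      rw [agX _ (EXL.HS.ind (ark be (hf p))) hN.bE]
      · have h3 : Gud be (hf p) (EXL.HS.ind (ark be (hf p)) : Pat Lab → ℂ) :=
          ⟨EXL.HS.ind_self _, fun q _ h => EXL.HS.ind_ne h⟩
        exact (gud_CR x hbe hvp (gud_CO hN.hE hbeE (fun h a1 a2 => hfE hN.bE a1 a2) h3)).1
      · intro q hq
        rw [PG_end hN.G hq, cb, cbe, sub_zero, zpow_zero, one_mul]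
    by_cases hprb : p = C.rv b
    · -- the other half of the last edge
      rw [zero (C.rv b) hprb (by rw [Nm.ed_rv hN.hb.2]; exact hN.bE) (Nm.rv_ne hN.hb).symm hN.bR]
      symm
      by_cases hbA : b.1 ∈ A
      · have nb' : C.nb p = b.1 := by
          rw [hprb]
          exact congrArg Prod.fst (Nm.rv_rv hN.hb.2)
        have p2 : p.2 = -b.2 := by rw [hprb]; rfl
        have tn : ∀ s : Bool, turn s (-b.2) ≠ b.2 := by
          have key : ∀ d ∈ dirs, ∀ s : Bool, turn s (-d) ≠ d := by decide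
          exact key b.2 hN.hb.1.1
        have w0 : ∀ s : Bool, WsW C χ x c (A.erase b.1) {C.rv b} (b.1, turn s p.2) = 0 := by
          intro s
          rw [WsW_self (p := (b.1, turn s p.2)) hN.hb.2 (Finset.notMem_erase _ _) hN.hb.2, if_neg]
          intro e
          exact tn s (by rw [← p2]; exact congrArg Prod.snd e)
        have w1 := w0 true
        have w2 := w0 false
        change WsW C χ x c (A.erase b.1) {C.rv b} (b.1, rotL p.2) = 0 at w1
        change WsW C χ x c (A.erase b.1) {C.rv b} (b.1, rotR p.2) = 0 at w2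
        rw [WsW_in hχ hp.2 (by rw [nb']; exact hbA), nb', w1, w2, add_zero, mul_zero]
        rw [hprb, Nm.rv_rv hN.hb.2, Finset.mem_singleton]
        exact Nm.rv_ne hN.hb
      · rw [WsW_self hN.hb.2 hbA hp.2, if_neg hpb]
    by_cases hpra : p = C.rv a
    · -- the other half of the first edge
      have h2 : C.rv a ≠ b := fun e => hN.ab (by rw [← e, Nm.ed_rv hN.ha.2])
      rw [zero (C.rv a) hpra (by rw [Nm.ed_rv hN.ha.2]; exact hN.aE) h2 hN.aR]
      symm
      have nb' : C.nb p = a.1 := by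
        rw [hpra]
        exact congrArg Prod.fst (Nm.rv_rv hN.ha.2)
      rw [WsW_out hp.2 (by rw [nb']; exact aA), if_neg]
      rw [hpra, Nm.rv_rv hN.ha.2, Finset.mem_singleton]
      intro e
      exact hN.ab (by rw [e, Nm.ed_rv hN.hb.2])
    -- a step
    have hrT : C.rv p ∉ ({C.rv b} : Finset (Pt × Pt)) := by
      rw [Finset.mem_singleton]
      intro e
      exact hpb (by rw [← Nm.rv_rv hp.2, e, Nm.rv_rv hN.hb.2])
    have fin : ∀ (E' : Finset (Sym2 Lab)) (Ra' : List (Pt × Pt)) (hN' : Nt C c a b E' Ra') (y : ℂ), y = χ ^ lbh C c p →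
        (∀ q, C.De q → q ≠ p → q ≠ C.rv p → Okh C a b E Ra q → Okh C a b E' Ra' q) →
        y * (CR x A * (CoS (C.ed p) * Nm.CO ℂ E' hN'.hE) : Op Lab ℂ) (PG χ c be (hf b) (lnS C Ra')) (st p) =
          WsW C χ x c A {C.rv b} p := by
      intro E' Ra' hN' y hy hok
      rw [stepW hN'.hE hp h1]
      by_cases hw : C.nb p ∈ A
      · rw [if_pos hw, WsW_in hχ hp.2 hw hrT]
        have hcard : (A.erase (C.nb p)).card < n := by
          rw [← hA]
          exact Finset.card_erase_lt_of_mem hw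
        have hwp : C.nb p ≠ p.1 := fun h => h1 (h ▸ hw)
        have hne : ∀ s : Bool, turn s p.2 ≠ -p.2 := by
          have key : ∀ d ∈ dirs, ∀ s : Bool, turn s d ≠ -d := by decide
          exact key p.2 hp.1.1
        have hrec : ∀ s : Bool, (CR x (A.erase (C.nb p)) * Nm.CO ℂ E' hN'.hE : Op Lab ℂ)
            (PG χ c be (hf b) (lnS C Ra')) (st (C.nb p, turn s p.2)) =
            WsW C χ x c (A.erase (C.nb p)) {C.rv b} (C.nb p, turn s p.2) := by
          intro s
          refine ih _ hcard (A.erase (C.nb p)) rfl E' Ra' hN' _ (Nm.De.turn hp s) (Finset.notMem_erase _ _)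
            (fun h => aA (Finset.mem_of_mem_erase h)) ?_ ?_
          · refine hok _ (Nm.De.turn hp s) (fun h => hwp (congrArg Prod.fst h)) (fun h => hne s (congrArg Prod.snd h)) ?_
            exact okA _ hw _ (Nm.De.turn hp s)
          · intro u hu d hd
            rw [Finset.mem_erase] at hu
            refine hok _ hd (fun h => h1 ?_) (fun h => hu.1 (congrArg Prod.fst h)) (okA u hu.2 d hd)
            rw [← h]
            exact hu.2
        have m1 := hrec true
        have m2 := hrec false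
        change (CR x (A.erase (C.nb p)) * Nm.CO ℂ E' hN'.hE : Op Lab ℂ)
            (PG χ c be (hf b) (lnS C Ra')) (st (C.nb p, rotL p.2)) =
            WsW C χ x c (A.erase (C.nb p)) {C.rv b} (C.nb p, rotL p.2) at m1
        change (CR x (A.erase (C.nb p)) * Nm.CO ℂ E' hN'.hE : Op Lab ℂ)
            (PG χ c be (hf b) (lnS C Ra')) (st (C.nb p, rotR p.2)) =
            WsW C χ x c (A.erase (C.nb p)) {C.rv b} (C.nb p, rotR p.2) at m2
        rw [m1, m2, hy]
        ring
      · rw [if_neg hw, mul_zero, WsW_out hp.2 hw, if_neg hrT]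
    by_cases hpE : C.ed p ∈ E
    · -- an edge of E
      have h2 := fin (E.erase (C.ed p)) Ra (hN.erE _) 1 (by rw [hN.l0 p hp hpE, zpow_zero]) ?_
      · rw [one_mul] at h2
        rw [← h2, Nm.CO_erase hN.hE hpE]
      · intro q dq q1 q2 hq
        rcases hq with h | h | h | h | h | h
        · exact Or.inl h
        · exact Or.inr (Or.inl h)
        · exact Or.inr (Or.inr (Or.inl h))
        · refine Or.inr (Or.inr (Or.inr (Or.inl ?_)))
          rw [Finset.mem_erase]
          exact ⟨ed_inj' hp.2 q1 q2, h⟩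
        · exact Or.inr (Or.inr (Or.inr (Or.inr (Or.inl h))))
        · exact Or.inr (Or.inr (Or.inr (Or.inr (Or.inr h))))
    · -- a line
      have c1 : Commute (CoS (C.ed p) : Op Lab ℂ) (Nm.CO ℂ E hN.hE) := by
        refine Finset.noncommProd_commute E _ _ _ (fun e he => ?_)
        obtain ⟨h, hh, rfl⟩ := hN.hE e he
        exact Nm.CoS_comm hp.2 hh.2 (fun e => hpE (by rw [e]; exact he))
      have line : ∀ g : Pt × Pt, g ∈ Ra → (g = p ∨ g = C.rv p) →
          (CR x A * Nm.CO ℂ E hN.hE : Op Lab ℂ) (PG χ c be (hf b) (lnS C Ra)) (st p) =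
            WsW C χ x c A {C.rv b} p := by
        intro g hg hgp
        have hN' := hN.erR hg
        have ag : Agr be (hf p) (PG χ c be (hf b) (lnS C Ra))
            (χ ^ lbh C c p • (CoS (C.ed p) : Op Lab ℂ) (PG χ c be (hf b) (lnS C (Ra.erase g)))) := by
          intro q hq
          rw [Pi.smul_apply, smul_eq_mul, Nm.CoS_ed]
          refine PG_step hχ ?_ hN.G hq
          have hperm := lnS_perm (C := C) hg
          rcases hgp with h | h
          · left
            rwa [h] at hperm ⊢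
          · right
            rw [h, Nm.rv_rv hp.2] at hperm
            rwa [h]
        rw [agX _ _ hpE ag, map_smul, Pi.smul_apply, smul_eq_mul]
        have h2 := fin E (Ra.erase g) hN' _ rfl ?_
        · rw [← h2]
          congr 1
          rw [c1.eq]
          rfl
        · intro q dq q1 q2 hq
          rcases hq with h | h | h | h | h | h
          · exact Or.inl h
          · exact Or.inr (Or.inl h)
          · exact Or.inr (Or.inr (Or.inl h))
          · exact Or.inr (Or.inr (Or.inr (Or.inl h)))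
          · refine Or.inr (Or.inr (Or.inr (Or.inr (Or.inl ?_))))
            refine (List.mem_erase_of_ne ?_).2 h
            rcases hgp with e | e <;> rw [e]
            · exact q1
            · exact q2
          · refine Or.inr (Or.inr (Or.inr (Or.inr (Or.inr ?_))))
            refine (List.mem_erase_of_ne ?_).2 h
            rcases hgp with e | e <;> rw [e]
            · intro e2
              exact q2 (by rw [← e2, Nm.rv_rv dq.2])
            · intro e2
              exact q1 (by rw [← Nm.rv_rv dq.2, e2, Nm.rv_rv hp.2])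
      rcases ok with h | h | h | h | h | h
      · exact absurd h hpb
      · exact absurd h hprb
      · exact absurd h hpra
      · exact absurd h hpE
      · exact line p h (Or.inl rfl)
      · exact line (C.rv p) h (Or.inr rfl)

theorem PG_swap {ι : Type*} [DecidableEq ι] {c : ι → ℤ} {m m' k : ι} {R : List (ι × ι)} (hG : Gd ((m, k) :: R))
    (hm' : m' ≠ k) (hR : ∀ t ∈ R, m' ≠ t.1 ∧ m' ≠ t.2) (hc : c m' = c m) (P : EXL.Pat ι) :
    PG χ c m' k R (EXL.Pat.swap m m' P) = PG χ c m k R P := by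
  obtain ⟨e1, e2, e3⟩ := Gd_cons.1 hG
  have h := PG_map (χ := χ) (c := c) (c' := c) (Equiv.swap m m').injective (m := m) (k := k) (R := R) (fun x => by
      rw [Equiv.swap_apply_def]
      split_ifs with h1 h2
      · rw [h1, hc]
      · rw [h2, hc]
      · rfl) hG (Q := EXL.Pat.swap m m' P) (p := P) (fun x => by
      rw [EXL.swap_apply, Equiv.swap_apply_self]) (fun x hx => absurd (Set.mem_range.2
        ⟨Equiv.swap m m' x, Equiv.swap_apply_self m m' x⟩) hx)
  rw [Equiv.swap_apply_left, Equiv.swap_apply_of_ne_of_ne e1.symm hm'.symm] at h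
  have hm : R.map (Prod.map (Equiv.swap m m') (Equiv.swap m m')) = R := by
    conv_rhs => rw [← List.map_id R]
    refine List.map_congr_left fun t ht => ?_
    obtain ⟨a1, a2, -, -⟩ := e2 t ht
    obtain ⟨b1, b2⟩ := hR t ht
    refine Prod.ext ?_ ?_
    · exact Equiv.swap_apply_of_ne_of_ne a1.symm b1.symm
    · exact Equiv.swap_apply_of_ne_of_ne a2.symm b2.symm
  rw [hm] at h
  exact h

/-- **The network on the function of the cut.** -/
theorem two_cutW (hχ : χ ≠ 0) (hN : Nt C c a b E Ra) (ca : c (hf a) = 0) (cra : c (hf (C.rv a)) = 0)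
    (cb : c (hf b) = 0) (cbe : c be = 0) (haR : ∀ t ∈ lnS C Ra, (hf a : Lab) ≠ t.1 ∧ (hf a : Lab) ≠ t.2)
    (aA : a.1 ∈ A) (okA : ∀ w ∈ A, ∀ d, C.De (w, d) → (w, d) ≠ a → Okh C a b E Ra (w, d)) :
    (CR x A * Nm.CO ℂ E hN.hE : Op Lab ℂ) (PG χ c (hf a) (hf b) (lnS C Ra)) Pat.empty =
      WsW C χ x c A {C.rv b} (C.rv a) := by
  classical
  have ha := hN.ha
  have hb := hN.hb
  have hab : a ≠ b := fun e => hN.ab (by rw [e])
  set A' := A.erase a.1 with hA'
  have aA' : a.1 ∉ A' := Finset.notMem_erase a.1 A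
  set X : Op Lab ℂ := CR x A' * Nm.CO ℂ E hN.hE with hX
  set F : Pat Lab → ℂ := PG χ c (hf a) (hf b) (lnS C Ra) with hF
  have pa : Commute (PO (hf a) : Op Lab ℂ) X :=
    (MXR.CR_PO_comm x aA').mul_right (MXR.CO_PO_comm hN.hE hN.aE)
  have Fa : ∀ q : Pat Lab, q (hf a) = hf a → F q = 0 := fun q hq => PG_free hq
  have Xa : ∀ q : Pat Lab, q (hf a) = hf a → X F q = 0 := fun q hq => GLD.val_zero pa hq Fa
  have rn : ∀ s : Bool, turn s (-a.2) ≠ a.2 := by
    have key : ∀ d ∈ dirs, ∀ s : Bool, turn s (-d) ≠ d := by decide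
    exact key a.2 ha.1.1
  have la : ∀ s : Bool, C.De (a.1, turn s (-a.2)) := by
    intro s
    have h1 := ha.rv'.turn s
    have h2 : C.nb (C.rv a) = a.1 := congrArg Prod.fst (Nm.rv_rv ha.2)
    have h3 : C.nb (C.nb a, -a.2) = a.1 := h2
    rw [h3] at h1
    exact h1
  have e2 : (CR x A * Nm.CO ℂ E hN.hE : Op Lab ℂ) F Pat.empty = Crv x a.1 (X F) Pat.empty := by
    rw [CR_erase x aA, hX]
    rfl
  have hfi : ∀ {c d : Pt × Pt}, c ≠ d → (hf c : Lab) ≠ hf d := by
    intro c d hcd e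
    exact hcd (Sum.inl_injective e)
  have vala : Crv x a.1 (X F) Pat.empty = x * (X F (EXL.Pat.cup (hf a) (hf (a.1, turn true (-a.2))) Pat.empty) +
        X F (EXL.Pat.cup (hf a) (hf (a.1, turn false (-a.2))) Pat.empty)) := by
    rw [Crv_eq x (v := a.1) (e := a.2) ha.1]
    have t1 : turn true (-a.2) = rotR (rotR a.2) := (GLD.turn_neg a.2).1
    have t2 : turn false (-a.2) = rotL (rotL a.2) := (GLD.turn_neg a.2).2
    rw [t1, t2, add_comm (X F _)]
    have n1 := rn false
    have n2 := rn true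
    rw [t2] at n1
    rw [t1] at n2
    refine GLD.Cr_val x ?_ ?_ rfl rfl rfl Xa
    · exact hfi fun e => n1 (congrArg Prod.snd e).symm
    · exact hfi fun e => n2 (congrArg Prod.snd e).symm
  -- exchange of the labels be, a
  have ia : GLD.Inv be (hf a) X := by
    refine (GLD.inv_CR x (fun v _ d => by simp) ?_).mul (GLD.inv_CO hN.hE (fun h _ _ => ⟨by simp, by simp⟩) ?_)
    · intro v hv d e
      exact aA' (by rw [Sum.inl_injective e]; exact hv)
    · intro h h1 h2
      have := hfE hN.aE h1 h2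
      exact ⟨this.1.symm, this.2.symm⟩
  have hG := hN.G
  have hFs : sw be (hf a) F = PG χ c be (hf b) (lnS C Ra) := by
    funext q
    show F (EXL.Pat.swap be (hf a) q) = _
    exact PG_swap hG (hfi hab) haR (by rw [ca, cbe]) q
  have val : ∀ s : Bool, X F (EXL.Pat.cup (hf a) (hf (a.1, turn s (-a.2))) Pat.empty) =
      WsW C χ x c A' {C.rv b} (a.1, turn s (-a.2)) := by
    intro s
    have s1 : EXL.Pat.swap be (hf a) (st (a.1, turn s (-a.2))) =
        EXL.Pat.cup (hf a) (hf (a.1, turn s (-a.2))) Pat.empty := by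
      show EXL.Pat.swap be (hf a) (EXL.Pat.cup be (hf (a.1, turn s (-a.2))) Pat.empty) = _
      rw [GLD.swap_cup, GLD.swap_empty, Equiv.swap_apply_left, Equiv.swap_apply_of_ne_of_ne]
      · simp
      · exact hfi fun e => rn s (congrArg Prod.snd e)
    have s2 : X F (EXL.Pat.cup (hf a) (hf (a.1, turn s (-a.2))) Pat.empty) =
        X (PG χ c be (hf b) (lnS C Ra)) (st (a.1, turn s (-a.2))) := by
      rw [← s1, ← hFs]
      show sw be (hf a) (X F) _ = _
      rw [ia]
    rw [s2]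
    refine mainW hχ cb cbe A'.card A' rfl E Ra hN _ (la s) aA' aA' ?_ ?_
    · exact okA a.1 aA _ (la s) fun e => rn s (congrArg Prod.snd e)
    · intro w hw d hd
      refine okA w (Finset.mem_of_mem_erase hw) d hd fun e => ?_
      exact aA' (by rw [← e]; exact hw)
  rw [e2, vala, val, val]
  -- the words
  have nba : C.nb (C.rv a) = a.1 := congrArg Prod.fst (Nm.rv_rv ha.2)
  have w1 := WsW_in (C := C) (x := x) (c := c) (A := A) (T := {C.rv b}) (p := C.rv a) hχ (Nm.nm_nb a)
    (by rw [nba]; exact aA) (by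
      rw [Nm.rv_rv ha.2, Finset.mem_singleton]
      intro e
      exact hN.ab (by rw [e, Nm.ed_rv hb.2]))
  rw [nba] at w1
  have l0 : lbh C c (C.rv a) = 0 := by
    unfold lbh
    rw [Nm.rv_rv ha.2, ca, cra, sub_zero]
  rw [l0, zpow_zero, mul_one] at w1
  exact w1.symm

end main

end Pool.Agent.WND
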