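import Pool.Agent.TC.Fam

/-!
# Plan W: the node at an occupied end, line with any label (helper36)

`node_oc`: the ended line `r` merges with the full line `(x, x')`, `χ x = χ r + c`: factor `ω ^ c`.
-/

set_option autoImplicit false

namespace Pool.Agent.WND

open _root_.Pool.Agent.EXL _root_.Pool.Agent.NUF _root_.Pool.Agent.NUU _root_.Pool.Agent.NUT2
open _root_.Pool.Agent.TC

section node

variable {ι : Type*} [DecidableEq ι] [Finite ι] {ω : ℂ} {S S' : Set ι} {V V' : Fnl ι} {χ : ι → ℤ}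

/-- **Node at an occupied end, line with the label `c` more than the end.** -/
theorem node_oc (hω : ω ≠ 0) (c : ℤ) (hV : SupS S V) (hV' : SupS S' V') (hd : Disjoint S S')
    {r q x x' : ι} {L : List (ι × ι)} (hL : Gd ((r, q) :: (x, x') :: L)) (hr : r ∉ S) (hx : x ∉ S)
    (hr' : r ∉ S') (hx' : x ∉ S') (h1 : χ x = χ r + c) :
    Wp (nuw ω) (ce χ q) (V ∘ₗ uops.U x r) V' r q ((x, x') :: L) =
      ω ^ c * Wp (nuw ω) (ce χ q) V V' x' q L := by
  obtain ⟨e1, e2, e3⟩ := Gd_cons.1 hL
  obtain ⟨e4, e5, e6, e7⟩ := e2 (x, x') (by simp)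
  obtain ⟨e8, e9, -⟩ := Gd_cons.1 e3
  simp only at e1 e4 e5 e6 e7 e8
  -- the labels shifted along the pair `x`, `x'`
  set d : ι → ℤ × ℤ := fun y => if y = x ∨ y = x' then (-c, 0) else 0 with hdd
  have s1 : Wp (nuw ω) (ce χ q + d) (V ∘ₗ uops.U x r) V' r q ((x, x') :: L) =
      Wp (nuw ω) (ce χ q) (V ∘ₗ uops.U x r) V' r q ((x, x') :: L) := by
    refine Wp_shift _ _ _ _ fun t ht => ?_
    rcases List.mem_cons.1 ht with rfl | ht
    · simp only [hdd]
      rw [if_neg (by rintro (h | h); exacts [e4 h, e5 h]), if_neg (by rintro (h | h); exacts [e6 h, e7 h])]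
    · rcases List.mem_cons.1 ht with rfl | ht
      · simp only [hdd, true_or, or_true, if_true]
      · have f1 := e9 t ht
        simp only [hdd]
        rw [if_neg (by rintro (h | h); exacts [f1.1 h.symm, f1.2.2.1 h.symm]),
          if_neg (by rintro (h | h); exacts [f1.2.1 h.symm, f1.2.2.2 h.symm])]
  have s2 : (ce χ q + d) x = (ce χ q + d) r := by
    simp only [hdd, ce, Pi.add_apply, true_or, if_true]
    rw [if_neg (by rintro (h | h); exacts [e4 h, e5 h]), Pi.single_eq_of_ne e6.symm,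
      Pi.single_eq_of_ne e1, h1]
    ext
    · simp
    · simp
  have s3 := node_o (ν := nuw ω) (nuw_neg ω) (nuw_zero ω) hV hV' hd hL hr hx hr' hx' s2
  -- the labels shifted along the pair `x'`, `q`
  set d' : ι → ℤ × ℤ := fun y => if y = x' ∨ y = q then (c, 0) else 0 with hdd'
  have s4 : Wp (nuw ω) ((ce χ q + d) + d') V V' x' q L = Wp (nuw ω) (ce χ q + d) V V' x' q L := by
    refine Wp_shift _ _ _ _ fun t ht => ?_
    rcases List.mem_cons.1 ht with rfl | ht
    · simp only [hdd', true_or, or_true, if_true]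
    · have f1 := e9 t ht
      have f2 := e2 t (by simp [ht])
      simp only [hdd']
      rw [if_neg (by rintro (h | h); exacts [f1.2.2.1 h.symm, f2.2.2.1 h.symm]),
        if_neg (by rintro (h | h); exacts [f1.2.2.2 h.symm, f2.2.2.2 h.symm])]
  have s5 : Wp (nuw ω) ((ce χ q + d) + d') V V' x' q L =
      Wp (nuw ω) ((fun y => (χ y, 0)) + Pi.single q (c, 1)) V V' x' q L := by
    refine Wp_chi hV hV' hd (fun y hy => ?_) _ _ _
    have hyx : y ≠ x := by
      rintro rfl
      rcases hy with hy | hy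
      · exact hx hy
      · exact hx' hy
    simp only [hdd, hdd', ce, Pi.add_apply]
    by_cases h2 : y = x'
    · subst h2
      have h3 : y ≠ q := Ne.symm e7
      rw [if_pos (Or.inr rfl), if_pos (Or.inl rfl), Pi.single_eq_of_ne h3, Pi.single_eq_of_ne h3]
      ext
      · simp
      · simp
    · by_cases h3 : y = q
      · subst h3
        rw [if_neg (by rintro (h | h); exacts [hyx h, h2 h]), if_pos (Or.inr rfl), Pi.single_eq_same,
          Pi.single_eq_same]
        ext
        · simp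
        · simp
      · rw [if_neg (by rintro (h | h); exacts [hyx h, h2 h]),
          if_neg (by rintro (h | h); exacts [h2 h, h3 h]), Pi.single_eq_of_ne h3,
          Pi.single_eq_of_ne h3]
        simp
  have hL' : ∀ t ∈ L, x' ≠ t.1 ∧ x' ≠ t.2 ∧ q ≠ t.1 ∧ q ≠ t.2 := fun t ht =>
    ⟨(e9 t ht).2.2.1, (e9 t ht).2.2.2, (e2 t (by simp [ht])).2.2.1, (e2 t (by simp [ht])).2.2.2⟩
  have s6 := Wp_scale (m := x') hω (Ne.symm e7) c χ V V' hL'
  rw [← s1, s3, ← s4, s5, s6]
  rfl

end node

end Pool.Agent.WND
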