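import Pool.Agent.PB.Nz

/-!
# The dislocated function graded by the number of quanta (helper4)

`nzn n z x y` : the part of `nz z x y` with `n` quanta in each group (`n ≤ 2 m`).

* `sum_nzn`, `nzn_gen`, `nzn_tendsto`, `nzn_diff`, `nzn_big` (`n > 2 m`), `nzn_perm`;
* **`nzn_leg`** : `nzn n (x₀ + 3 l) (x₀, x) (x₀, y) = nzn n x₀ x y` (A1);
* **`nzn_neg`** : `nzn (2 m - n) (-z) (-x) (-y) = nzn n z x y`, `|Re z| < 7 l / 5` (A2).
-/

set_option autoImplicit false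
set_option linter.unusedSectionVars false

noncomputable section

open Complex Filter Topology

namespace WND

open NUP1 (l lpos St sta nq crq)
open NUP1.Grand (P)
open PBR (rh)
open PBX (DZ Lg Rws SpA pull K3 DZ_eq DZ_tendsto Lg_SpA pull_ne pull_re pull_Rws pull_tendsto)
open Pool.Agent.PB (cn Pf nz DS hD LS LS_open Hgt Lg_unif Lg_tendsto bd_im Pf_tendsto Pf_diff
  DS_bridge sta_diff pull_Hgt DS_leg' DS_neg DS_eq_zero cn_succ Pf_leg sub_re_le sin_hgt mem_LS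
  mem_LS3 pull_cons DZ_perm Pf_perm diff_of_joint gn_im gc_re den_row mem_LS_neg Nu D1 D2
  pre_Nu PN_D hrow_hD)

variable {m : ℕ}

/-- **the part with `n` quanta** -/
def nzn (n : ℕ) (z : ℂ) (x y : Fin m → ℂ) : ℂ := Pf z x y * DZ (cn m) (cn m) (Lg z z) (Lg z z) x y n

theorem sum_nzn (z : ℂ) (x y : Fin m → ℂ) :
    ∑ n ∈ Finset.range (2 * m + 1), nzn n z x y = nz z x y := by
  unfold nzn Pool.Agent.PB.nz
  rw [Finset.mul_sum]

/-- pairwise different heights -/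
theorem nzn_gen (n : ℕ) {z : ℂ} {x y : Fin m → ℂ} (hz : z ∈ LS) (hx : Rws x) (hy : Rws y)
    (ix : Hgt x) (iy : Hgt y) :
    nzn n z x y = Pf z x y * DS n x y (hD (cn m) z x y) (hD (cn m) z y x) := by
  unfold nzn
  rw [DZ_eq ix iy hx hy (Lg_SpA hz.1 hz.2) (Lg_SpA hz.1 hz.2), DS_bridge]

/-- joint continuity -/
theorem nzn_tendsto (n : ℕ) {E : Type*} {F : Filter E} [F.IsCountablyGenerated] {z : E → ℂ}
    {x y : E → Fin m → ℂ} {z0 : ℂ} {x0 y0 : Fin m → ℂ} (tz : Tendsto z F (𝓝 z0))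
    (tx : ∀ i, Tendsto (fun e => x e i) F (𝓝 (x0 i)))
    (ty : ∀ i, Tendsto (fun e => y e i) F (𝓝 (y0 i))) (hx : ∀ᶠ e in F, Rws (x e))
    (hy : ∀ᶠ e in F, Rws (y e)) (hx0 : Rws x0) (hy0 : Rws y0) (hz : z0 ∈ LS) :
    Tendsto (fun e => nzn n (z e) (x e) (y e)) F (𝓝 (nzn n z0 x0 y0)) := by
  obtain ⟨D, hD, hb⟩ := Lg_unif tz hz
  have h1 : Tendsto (fun e => Pf (z e) (x e) (y e)) F (𝓝 (Pf z0 x0 y0)) :=
    Pf_tendsto tz tx ty (fun i j => Pool.Agent.PB.Rws.dist hx0 hx0 i j)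
      (fun i j => Pool.Agent.PB.Rws.dist hy0 hy0 i j)
      (fun i j => Pool.Agent.PB.Rws.dist hx0 hy0 i j) (Pool.Agent.PB.Rws.narZ hx0 hz)
      (Pool.Agent.PB.Rws.narZ hy0 hz)
  have h2 : Tendsto (fun e => DZ (cn m) (cn m) (Lg (z e) (z e)) (Lg (z e) (z e)) (x e) (y e) n) F
      (𝓝 (DZ (cn m) (cn m) (Lg z0 z0) (Lg z0 z0) x0 y0 n)) := by
    refine DZ_tendsto (R := (∑ j, |(x0 j).im| + 1) + (∑ j, |(y0 j).im| + 1)) (cn m) (cn m) ?_ hx0 hy0
      tx ty (s := fun e => Lg (z e) (z e)) (t := fun e => Lg (z e) (z e)) (s0 := Lg z0 z0)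
      (t0 := Lg z0 z0) hD ?_ (fun u hu => Lg_tendsto tz hz hu) (fun u hu => Lg_tendsto tz hz hu) n
    · filter_upwards [hx, hy, bd_im tx, bd_im ty] with e h1 h2 h3 h4
      have s1 : 0 ≤ ∑ j, |(x0 j).im| := Finset.sum_nonneg fun _ _ => abs_nonneg _
      have s2 : 0 ≤ ∑ j, |(y0 j).im| := Finset.sum_nonneg fun _ _ => abs_nonneg _
      exact ⟨h1, h2, fun i => (h3 i).trans (by linarith), fun i => (h4 i).trans (by linarith)⟩
    · filter_upwards [hb] with e he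
      exact ⟨PBX.Lg_meas _ _, PBX.Lg_meas _ _, fun u hu => ⟨he u hu, he u hu⟩⟩
  exact h1.mul h2

theorem DSn_diff (n : ℕ) (c c' : ℂ) {x y : Fin m → ℂ} {z : ℂ} (hz : z ∈ LS) (hx : Rws x)
    (hy : Rws y) : DifferentiableAt ℂ (fun z => DS n x y (hD c z x y) (hD c' z y x)) z := by
  unfold Pool.Agent.PB.DS
  refine DifferentiableAt.fun_sum fun a _ => DifferentiableAt.fun_sum fun b _ => ?_
  exact ((sta_diff c y a hz hx).mul (sta_diff c' x b hz hy)).mul_const _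

/-- **analyticity in the legs** -/
theorem nzn_diff (n : ℕ) {x y : Fin m → ℂ} (hx : Rws x) (hy : Rws y) :
    DifferentiableOn ℂ (fun z => nzn n z x y) LS := by
  refine diff_of_joint (F := 𝓝[>] (0 : ℝ)) (D := fun z e => nzn n z (pull x e) (pull y e))
    (fun z hz => ?_) LS_open ?_
  · have t2 : ∀ (x : Fin m → ℂ) (i : Fin m), Tendsto (fun p : ℂ × ℝ => pull x p.2 i)
        (𝓝 z ×ˢ 𝓝[>] 0) (𝓝 (x i)) := fun x i => (pull_tendsto x i).comp tendsto_snd
    exact nzn_tendsto n (F := 𝓝 z ×ˢ 𝓝[>] (0 : ℝ)) (z := fun p => p.1) (x := fun p => pull x p.2)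
      (y := fun p => pull y p.2) tendsto_fst (t2 x) (t2 y)
      (Eventually.of_forall fun p => pull_Rws hx p.2) (Eventually.of_forall fun p => pull_Rws hy p.2)
      hx hy hz
  · filter_upwards [pull_Hgt x, pull_Hgt y] with e h1 h2
    have rx := pull_Rws hx e
    have ry := pull_Rws hy e
    have : DifferentiableOn ℂ (fun z => Pf z (pull x e) (pull y e) *
        DS n (pull x e) (pull y e) (hD (cn m) z (pull x e) (pull y e))
          (hD (cn m) z (pull y e) (pull x e))) LS := fun z hz =>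
      ((Pf_diff (fun i j => Pool.Agent.PB.Rws.dist rx rx i j)
        (fun i j => Pool.Agent.PB.Rws.dist ry ry i j)
        (fun i j => Pool.Agent.PB.Rws.dist rx ry i j) (Pool.Agent.PB.Rws.narZ rx hz)
        (Pool.Agent.PB.Rws.narZ ry hz)).mul
        (DSn_diff n (cn m) (cn m) hz rx ry)).differentiableWithinAt
    exact this.congr fun z hz => nzn_gen n hz rx ry h1 h2

/-- more than `2 m` quanta -/
theorem nzn_big {n : ℕ} (hn : 2 * m < n) {z : ℂ} {x y : Fin m → ℂ} (hz : z ∈ LS) (hx : Rws x)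
    (hy : Rws y) : nzn n z x y = 0 := by
  have t : Tendsto (fun e => nzn n z (pull x e) (pull y e)) (𝓝[>] (0 : ℝ)) (𝓝 (nzn n z x y)) :=
    nzn_tendsto n tendsto_const_nhds (pull_tendsto x) (pull_tendsto y)
      (Eventually.of_forall fun e => pull_Rws hx e) (Eventually.of_forall fun e => pull_Rws hy e)
      hx hy hz
  refine tendsto_nhds_unique (t.congr' ?_) tendsto_const_nhds
  filter_upwards [pull_Hgt x, pull_Hgt y] with e h1 h2
  rw [nzn_gen n hz (pull_Rws hx e) (pull_Rws hy e) h1 h2, DS_eq_zero hn, mul_zero]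

theorem nzn_perm (n : ℕ) (z : ℂ) (x : Fin m → ℂ) (σ : Equiv.Perm (Fin m)) :
    nzn n z (fun i => x (σ i)) (fun i => x (σ i)) = nzn n z x x := by
  unfold nzn
  rw [Pf_perm, DZ_perm]

/-! ### (A1) -/

theorem cn_sgn (n k : ℕ) (z : ℂ) (x y : Fin m → ℂ) :
    DS n x y (hD (cn k) z x y) (hD (cn k) z y x) =
      DS n x y (hD (sin (2 * l) / sin l) z x y) (hD (sin (2 * l) / sin l) z y x) := by
  induction k with
  | zero => simp [Pool.Agent.PB.cn]
  | succ k ih => rw [cn_succ, DS_neg, ih]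

theorem nzn_leg_gen (n : ℕ) {x0 : ℂ} {x y : Fin m → ℂ} (h0 : |x0.re| ≤ l / 2) (hx : Rws x)
    (hy : Rws y) (ix : Hgt (Fin.cons x0 x : Fin (m + 1) → ℂ))
    (iy : Hgt (Fin.cons x0 y : Fin (m + 1) → ℂ)) :
    nzn n (x0 + 3 * l) (Fin.cons x0 x : Fin (m + 1) → ℂ) (Fin.cons x0 y : Fin (m + 1) → ℂ) =
      nzn n x0 x y := by
  have ix' : Hgt x := fun i j hij => by
    simpa using ix i.succ j.succ fun h => hij (Fin.succ_injective _ h)
  have iy' : Hgt y := fun i j hij => by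
    simpa using iy i.succ j.succ fun h => hij (Fin.succ_injective _ h)
  have kx : ∀ i, (x i).im ≠ x0.im := fun i => by simpa using ix i.succ 0 (Fin.succ_ne_zero i)
  have ky : ∀ i, (y i).im ≠ x0.im := fun i => by simpa using iy i.succ 0 (Fin.succ_ne_zero i)
  rw [nzn_gen n (mem_LS3 h0) (Pool.Agent.PB.Rws.cons h0 hx) (Pool.Agent.PB.Rws.cons h0 hy) ix iy,
    nzn_gen n (mem_LS h0) hx hy ix' iy',
    cn_sgn n m x0 x y, cn_sgn n (m + 1), DS_leg' n _ _ x0 (fun i => (sin_hgt (kx i)).1)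
      (fun i => (sin_hgt (kx i)).2) (fun i => (sin_hgt (ky i)).1) (fun i => (sin_hgt (ky i)).2),
    Pf_leg (fun i => sub_re_le h0 (hx i)) fun i => sub_re_le h0 (hy i)]

/-- **(A1), `n` quanta, all rows** -/
theorem nzn_leg (n : ℕ) {x0 : ℂ} {x y : Fin m → ℂ} (h0 : |x0.re| ≤ l / 2) (hx : Rws x)
    (hy : Rws y) :
    nzn n (x0 + 3 * l) (Fin.cons x0 x : Fin (m + 1) → ℂ) (Fin.cons x0 y : Fin (m + 1) → ℂ) =
      nzn n x0 x y := by
  have rx := Pool.Agent.PB.Rws.cons h0 hx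
  have ry := Pool.Agent.PB.Rws.cons h0 hy
  set px : ℝ → Fin m → ℂ := fun e i => pull (Fin.cons x0 x : Fin (m + 1) → ℂ) e i.succ with hpx
  set py : ℝ → Fin m → ℂ := fun e i => pull (Fin.cons x0 y : Fin (m + 1) → ℂ) e i.succ with hpy
  have rpx : ∀ e, Rws (px e) := fun e i => pull_Rws rx e i.succ
  have rpy : ∀ e, Rws (py e) := fun e i => pull_Rws ry e i.succ
  have t1 : Tendsto (fun e => nzn n (x0 + 3 * l) (pull (Fin.cons x0 x : Fin (m + 1) → ℂ) e)
      (pull (Fin.cons x0 y : Fin (m + 1) → ℂ) e)) (𝓝[>] (0 : ℝ))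
      (𝓝 (nzn n (x0 + 3 * l) (Fin.cons x0 x : Fin (m + 1) → ℂ)
        (Fin.cons x0 y : Fin (m + 1) → ℂ))) :=
    nzn_tendsto n tendsto_const_nhds (pull_tendsto _) (pull_tendsto _)
      (Eventually.of_forall fun e => pull_Rws rx e) (Eventually.of_forall fun e => pull_Rws ry e)
      rx ry (mem_LS3 h0)
  have t2 : Tendsto (fun e => nzn n x0 (px e) (py e)) (𝓝[>] (0 : ℝ)) (𝓝 (nzn n x0 x y)) :=
    nzn_tendsto n tendsto_const_nhds
      (fun i => by simpa using pull_tendsto (Fin.cons x0 x : Fin (m + 1) → ℂ) i.succ)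
      (fun i => by simpa using pull_tendsto (Fin.cons x0 y : Fin (m + 1) → ℂ) i.succ)
      (Eventually.of_forall rpx) (Eventually.of_forall rpy) hx hy (mem_LS h0)
  refine tendsto_nhds_unique (t1.congr' ?_) t2
  filter_upwards [pull_Hgt (Fin.cons x0 x : Fin (m + 1) → ℂ),
    pull_Hgt (Fin.cons x0 y : Fin (m + 1) → ℂ)] with e h1 h2
  rw [pull_cons x0 x e] at h1 ⊢
  rw [pull_cons x0 y e] at h2 ⊢
  exact nzn_leg_gen n h0 (rpx e) (rpy e) h1 h2

/-! ### (A2) -/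

/-- the part of the state sum with `n` quanta in each group -/
def SSn (n : ℕ) (z : ℂ) (x y : Fin m → ℂ) : ℂ :=
  ∑ a ∈ St m n, ∑ b ∈ St m n, PBS.tm z x y a b

theorem nq_flip (s : SignType) : nq (-s) + nq s = 2 := by
  cases s <;> rfl

theorem nq_sum_flip (a : Fin m → SignType) : ∑ i, nq ((-a) i) + ∑ i, nq (a i) = 2 * m := by
  rw [← Finset.sum_add_distrib]
  have : ∀ i ∈ (Finset.univ : Finset (Fin m)), nq ((-a) i) + nq (a i) = 2 := fun i _ => by
    rw [Pi.neg_apply]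
    exact nq_flip _
  rw [Finset.sum_congr rfl this, Finset.sum_const, Finset.card_univ, Fintype.card_fin]
  simp [mul_comm]

theorem mem_St {n : ℕ} {a : Fin m → SignType} : a ∈ St m n ↔ ∑ i, nq (a i) = n := by
  unfold NUP1.St
  rw [Finset.mem_filter]
  exact ⟨fun h => h.2, fun h => ⟨Finset.mem_univ _, h⟩⟩

theorem sum_flip {n : ℕ} (hn : n ≤ 2 * m) (f : (Fin m → SignType) → ℂ) :
    ∑ a ∈ St m (2 * m - n), f a = ∑ a ∈ St m n, f (-a) := by
  refine Finset.sum_bij' (fun a _ => -a) (fun a _ => -a) ?_ ?_ ?_ ?_ ?_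
  · intro a ha
    rw [mem_St] at ha ⊢
    have := nq_sum_flip a
    omega
  · intro a ha
    rw [mem_St] at ha ⊢
    have := nq_sum_flip a
    omega
  · intro a _
    exact neg_neg a
  · intro a _
    exact neg_neg a
  · intro a _
    rw [neg_neg]

theorem SSn_neg {n : ℕ} (hn : n ≤ 2 * m) (z : ℂ) (x y : Fin m → ℂ) :
    SSn (2 * m - n) (-z) (-x) (-y) = SSn n z x y := by
  unfold SSn
  rw [sum_flip hn]
  refine Finset.sum_congr rfl fun a _ => ?_
  rw [sum_flip hn]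
  exact Finset.sum_congr rfl fun b _ => PBS.tm_flip z x y a b

/-- generic rows: the part of the normalised state sum -/
theorem nzn_SSn (n : ℕ) {z : ℂ} {x y : Fin m → ℂ} (hz : z ∈ LS) (hx : Rws x) (hy : Rws y)
    (ix : Hgt x) (iy : Hgt y) : nzn n z x y = sin l * SSn n z x y / PBS.PN z x y := by
  have g1 : ∀ i j, i ≠ j → NUP1.Mu.Gn (x i - x j) := fun i j hij =>
    gn_im (by rw [sub_im]; exact sub_ne_zero.2 (ix i j hij))
  have g2 : ∀ i j, i ≠ j → NUP1.Mu.Gn (y i - y j) := fun i j hij =>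
    gn_im (by rw [sub_im]; exact sub_ne_zero.2 (iy i j hij))
  have g3 : ∀ i j, NUP1.Mu.Gc (x i - y j) := fun i j => gc_re (sub_re_le (hx i) (hy j))
  have den : ∀ {u : Fin m → ℂ}, Rws u → ∀ i, sin (z - u i + 2 * l) ≠ 0 ∧
      sin (z - u i + 3 * l) ≠ 0 := by
    intro u hu i
    obtain ⟨h1, h2⟩ := den_row hz (hu i)
    refine ⟨h1, ?_⟩
    rwa [show z - (u i - (l : ℂ)) + 2 * l = z - u i + 3 * l by ring] at h2
  have e1 : SSn n z x y = PBS.pre z x * PBS.pre z y *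
      DS n x y (hD (sin (2 * l) / sin l) z x y) (hD (sin (2 * l) / sin l) z y x) := by
    unfold SSn Pool.Agent.PB.DS
    rw [Finset.mul_sum]
    refine Finset.sum_congr rfl fun a ha => ?_
    rw [Finset.mul_sum]
    refine Finset.sum_congr rfl fun b hb => ?_
    rw [mem_St] at ha hb
    rw [PBS.tm_eq g1 g2 g3 (den hx) (den hy) a b (by
      have h1 := NUP1.Mu.sum_nq a
      have h2 := NUP1.Mu.sum_nq b
      simp only [NUP1.Mu.nq_eq] at h1 h2
      rw [ha] at h1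
      rw [hb] at h2
      linarith), hrow_hD, hrow_hD]
  rw [nzn_gen n hz hx hy ix iy, cn_sgn, e1, pre_Nu, pre_Nu, PN_D]
  unfold Pool.Agent.PB.Pf
  have h : ((3 : ℂ) / 2) ^ (m + m + 1) * (2 / 3) ^ (m + m + 1) = 1 := by
    rw [← mul_pow]
    norm_num
  have h23 : ((2 : ℂ) / 3) ^ (m + m + 1) ≠ 0 := pow_ne_zero _ (by norm_num)
  have h32 : ((3 : ℂ) / 2) ^ (m + m + 1) = 1 / (2 / 3) ^ (m + m + 1) := by
    rw [eq_div_iff h23]
    exact h
  rw [h32]
  by_cases hD : D1 z x * D1 z y * D2 x y * rh 0 = 0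
  · rw [hD]
    simp
  field_simp

/-- **(A2), `n` quanta, all rows** -/
theorem nzn_neg {n : ℕ} (hn : n ≤ 2 * m) {z : ℂ} (hz : |z.re| < 7 / 5 * l) {x y : Fin m → ℂ}
    (hx : Rws x) (hy : Rws y) : nzn (2 * m - n) (-z) (-x) (-y) = nzn n z x y := by
  obtain ⟨h1, h2⟩ := mem_LS_neg hz
  have t1 : Tendsto (fun e => nzn (2 * m - n) (-z) (-pull x e) (-pull y e)) (𝓝[>] (0 : ℝ))
      (𝓝 (nzn (2 * m - n) (-z) (-x) (-y))) :=
    nzn_tendsto (2 * m - n) (x := fun e => -pull x e) (y := fun e => -pull y e) tendsto_const_nhds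
      (fun i => (pull_tendsto x i).neg) (fun i => (pull_tendsto y i).neg)
      (Eventually.of_forall fun e => Pool.Agent.PB.Rws.neg (pull_Rws hx e))
      (Eventually.of_forall fun e => Pool.Agent.PB.Rws.neg (pull_Rws hy e))
      (Pool.Agent.PB.Rws.neg hx) (Pool.Agent.PB.Rws.neg hy) h2
  have t2 : Tendsto (fun e => nzn n z (pull x e) (pull y e)) (𝓝[>] (0 : ℝ)) (𝓝 (nzn n z x y)) :=
    nzn_tendsto n tendsto_const_nhds (pull_tendsto x) (pull_tendsto y)
      (Eventually.of_forall fun e => pull_Rws hx e) (Eventually.of_forall fun e => pull_Rws hy e)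
      hx hy h1
  refine tendsto_nhds_unique (t1.congr' ?_) t2
  filter_upwards [pull_Hgt x, pull_Hgt y] with e ex ey
  have rx := pull_Rws hx e
  have ry := pull_Rws hy e
  rw [nzn_SSn _ h2 (Pool.Agent.PB.Rws.neg rx) (Pool.Agent.PB.Rws.neg ry)
    (Pool.Agent.PB.Hgt.neg ex) (Pool.Agent.PB.Hgt.neg ey), nzn_SSn _ h1 rx ry ex ey, SSn_neg hn,
    PBS.PN_neg]

end WND

end
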