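import Pool.Agent.WND.DefsZ

/-!
# Plan W: relations of `f0z`, `fxz` (the monodromy `ζ` at `± 3 l`) (helper4)

* `nzz_pf`: `nzz ζ z x y = Pf z x y * ∑ n, ζ ^ (m - n) * DZ .. n`; `f0z_right`, `fxz_right`;
  `exists_zt`: every `ζ ≠ 0` is `zt d`; `f0z_tendsto`, `fxz_tendsto`: joint continuity (weight, row, legs);
* **`fz_zeros`, `f0z_zeros`, `fxz_zeros`** (`ζ⁻¹ f (z + 3 l) - ζ f (z - 3 l) = ∏ (z - mu j) * Q z`).
-/

set_option autoImplicit false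
set_option linter.unusedSectionVars false

noncomputable section

open Complex Filter Topology

namespace WND

open NUP1 (l lpos)
open PBX (Rws Lg DZ)
open Pool.Agent.PB (LS mem_LS mem_LS3 Rws_zero Rws_cons Pf cn)

variable {m : ℕ}

/-- the function with winding weight, the prefactor outside -/
theorem nzz_pf (ζ z : ℂ) (x y : Fin m → ℂ) :
    nzz ζ z x y = Pf z x y * ∑ n ∈ Finset.range (2 * m + 1),
      ζ ^ ((m : ℤ) - n) * DZ (cn m) (cn m) (Lg z z) (Lg z z) x y n := by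
  unfold nzz nzn
  rw [Finset.mul_sum]
  exact Finset.sum_congr rfl fun n _ => by ring

theorem f0z_right (ζ : ℂ) (N : ℕ) {z : ℂ} (hz : z ∈ LS) :
    f0z ζ N z = nzz ζ z (fun _ : Fin N => (0 : ℂ)) (fun _ : Fin N => (0 : ℂ)) :=
  fz_right ζ (Rws_zero N) hz

theorem fxz_right (ζ : ℂ) (N : ℕ) {x : ℂ} (h : |x.re| ≤ l / 2) {z : ℂ} (hz : z ∈ LS) :
    fxz ζ N x z = nzz ζ z (Fin.cons x (fun _ : Fin N => (0 : ℂ)) : Fin (N + 1) → ℂ)
      (Fin.cons x (fun _ : Fin N => (0 : ℂ)) : Fin (N + 1) → ℂ) :=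
  fz_right ζ (Rws_cons h) hz

/-- joint continuity in the weight and the legs -/
theorem f0z_tendsto {E : Type*} {F : Filter E} [F.IsCountablyGenerated] {ζ z : E → ℂ} {ζ0 z0 : ℂ}
    (N : ℕ) (tζ : Tendsto ζ F (𝓝 ζ0)) (hζ : ζ0 ≠ 0) (tz : Tendsto z F (𝓝 z0))
    (hz0 : |z0.re| < 43 / 10 * l) :
    Tendsto (fun e => f0z (ζ e) N (z e)) F (𝓝 (f0z ζ0 N z0)) :=
  fz_tendsto tζ hζ tz (fun _ => tendsto_const_nhds) (Eventually.of_forall fun _ => Rws_zero N)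
    (Rws_zero N) hz0

/-- joint continuity in the weight, the moved row and the legs -/
theorem fxz_tendsto {E : Type*} {F : Filter E} [F.IsCountablyGenerated] {ζ x z : E → ℂ}
    {ζ0 x0 z0 : ℂ} (N : ℕ) (tζ : Tendsto ζ F (𝓝 ζ0)) (hζ : ζ0 ≠ 0) (tx : Tendsto x F (𝓝 x0))
    (tz : Tendsto z F (𝓝 z0)) (hx : ∀ᶠ e in F, |(x e).re| ≤ l / 2) (hx0 : |x0.re| ≤ l / 2)
    (hz0 : |z0.re| < 43 / 10 * l) :
    Tendsto (fun e => fxz (ζ e) N (x e) (z e)) F (𝓝 (fxz ζ0 N x0 z0)) := by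
  refine fz_tendsto tζ hζ tz (fun i => ?_) (hx.mono fun _ h => Rws_cons h) (Rws_cons hx0) hz0
  refine Fin.cases ?_ (fun j => ?_) i
  · simpa using tx
  · simpa using tendsto_const_nhds

/-! ### with the monodromy -/

theorem ga_ne (d z : ℂ) : ga d z ≠ 0 := exp_ne_zero _

/-- every weight is `zt d` -/
theorem exists_zt {ζ : ℂ} (hζ : ζ ≠ 0) : ∃ d : ℂ, zt d = ζ := by
  refine ⟨Complex.log ζ / (Real.pi * I), ?_⟩
  unfold zt
  have hp : (Real.pi : ℂ) ≠ 0 := by exact_mod_cast Real.pi_ne_zero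
  rw [show (Real.pi : ℂ) * (Complex.log ζ / (Real.pi * I)) * I = Complex.log ζ by
    field_simp, Complex.exp_log hζ]

/-- **the zeros**, all rows -/
theorem fz_zeros {ζ : ℂ} (hζ : ζ ≠ 0) {mu : Fin m → ℂ} (hmu : Rws mu) :
    ∃ Q : ℂ → ℂ, DifferentiableOn ℂ Q {z | |z.re| < 13 / 10 * l} ∧
      ∀ z, ζ⁻¹ * fz ζ mu (z + 3 * l) - ζ * fz ζ mu (z - 3 * l) = (∏ j, (z - mu j)) * Q z := by
  obtain ⟨d, rfl⟩ := exists_zt hζ
  obtain ⟨Q, hQ, h⟩ := ft_zeros d hmu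
  refine ⟨fun z => (ga d z)⁻¹ * Q z,
    (((ga_diff d).inv (fun z => ga_ne d z)).differentiableOn).mul hQ, fun z => ?_⟩
  have h1 := h z
  unfold ft at h1
  rw [ga_add, ga_sub] at h1
  have h2 := ga_ne d z
  have h3 := zt_ne d
  have h4 : (∏ j, (z - mu j)) * ((ga d z)⁻¹ * Q z) = (ga d z)⁻¹ * ((∏ j, (z - mu j)) * Q z) := by
    ring
  rw [h4, ← h1]
  field_simp

theorem f0z_zeros {ζ : ℂ} (hζ : ζ ≠ 0) (N : ℕ) :
    ∃ Q : ℂ → ℂ, DifferentiableOn ℂ Q {z | |z.re| < 13 / 10 * l} ∧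
      ∀ z, ζ⁻¹ * f0z ζ N (z + 3 * l) - ζ * f0z ζ N (z - 3 * l) = z ^ N * Q z := by
  obtain ⟨Q, hQ, h⟩ := fz_zeros hζ (Rws_zero N)
  refine ⟨Q, hQ, fun z => ?_⟩
  have := h z
  simp only [sub_zero, Finset.prod_const, Finset.card_univ, Fintype.card_fin] at this
  exact this

theorem fxz_zeros {ζ : ℂ} (hζ : ζ ≠ 0) (N : ℕ) {x : ℂ} (hx : |x.re| ≤ l / 2) :
    ∃ Q : ℂ → ℂ, DifferentiableOn ℂ Q {z | |z.re| < 13 / 10 * l} ∧
      ∀ z, ζ⁻¹ * fxz ζ N x (z + 3 * l) - ζ * fxz ζ N x (z - 3 * l) = (z - x) * z ^ N * Q z := by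
  obtain ⟨Q, hQ, h⟩ := fz_zeros hζ (Rws_cons (N := N) hx)
  refine ⟨Q, hQ, fun z => ?_⟩
  have := h z
  rw [Fin.prod_univ_succ] at this
  simp only [Fin.cons_zero, Fin.cons_succ, sub_zero, Finset.prod_const, Finset.card_univ,
    Fintype.card_fin] at this
  exact this

end WND

end
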