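import Pool.Agent.WND.OthT
import Pool.Agent.PB.Oth2

/-!
# The other classes at rows `0` with the weight `exp (τ |n - m|)` (PLAN W+, T3)

`oth1_ofT`, **`oth1_GIT`**: `PBO.oth1_of`, `PBO.oth1_GI` with the weight.
-/

set_option autoImplicit false
set_option linter.unusedSectionVars false

noncomputable section

open Complex MeasureTheory Finset
open scoped ENNReal

namespace WNDT

open NUO NUP1 NUCR NUP1S NURow NUGC PBO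

/-- **all classes except `W W`, and `W W` outside the near set, rows 0, with the weight** -/
theorem oth1_ofT {ex ex0 : List ℂ} (hX : CutOk ex ex0) {G : Geo}
    (hB : ∀ k β, G.B k β = PBR.ob0 (k - 1) β ex ex0) (hM : G.MF = PB0.MF0)
    (h4 : @S4R NUSea.seaP G) (h1 : @OneR NUSea.seaP G) :
    ∀ ε : ℝ, 0 < ε → ∃ ep0 : ℝ, 0 < ep0 ∧ ep0 ≤ 1 / 100 ∧
      ∀ ep : ℝ, 0 < ep → ep ≤ ep0 → ∃ (τ Cst : ℝ) (m0 : ℕ), 0 < τ ∧ 0 ≤ Cst ∧ 1 ≤ m0 ∧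
        ∀ m : ℕ, m0 ≤ m →
        (∀ t t' : HT, ¬(t = .W ∧ t' = .W) →
          sValT τ m (KX ex ex0 ep m) (@NUSea.O.par0 NUSea.seaP m) (2 * m) t t' ≤
            Cst * (m : ℝ) ^ (-(7 / 16) + ε) * Real.exp ((m : ℝ) ^ 2 * G.EM)) ∧
        (∀ o : Bool, sValDT τ m (KX ex ex0 ep m) (kDX ex ex0 ep m) (@NUSea.O.par0 NUSea.seaP m)
            (2 * m) o ≤ Cst * (m : ℝ) ^ (-(7 / 16) + ε) * Real.exp ((m : ℝ) ^ 2 * G.EM)) ∧
        (∀ (S : Set (ℝ × ℝ)) (κ : ℝ), MeasurableSet S →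
          (∀ z ∈ S, κ ≤ 2 * |z.1| + 2 * |z.2| + |z.1 - z.2| / 2) →
          sIntT τ m (KX ex ex0 ep m) (@NUSea.O.par0 NUSea.seaP m) (2 * m) .W .W S ≤
            ENNReal.ofReal (Cst * (Real.exp (-κ) * (m : ℝ) ^ ε + (m : ℝ) ^ (-(7 / 16) + ε)) *
              Real.exp ((m : ℝ) ^ 2 * G.EM))) ∧
        (∀ y : ℝ × ℝ, |y.1| ≤ 3 / 8 * Real.log m → |y.2| ≤ 3 / 8 * Real.log m →
          sPtT τ m (KX ex ex0 ep m) (@NUSea.O.par0 NUSea.seaP m) (2 * m) .W .W (vl (htL .W) y.1)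
              (vl (htL .W) y.2) ≤
            Cst * (Real.exp (-(2 * |y.1| + 2 * |y.2| + |y.1 - y.2| / 2)) * (m : ℝ) ^ ε) *
              Real.exp ((m : ℝ) ^ 2 * G.EM)) := by
  let _ : NUSea.Sea := NUSea.seaP
  have hnn : ∀ m β, (G.B m β).Nn := fun m β => by
    rw [hB]
    exact PBR.ob0_nn _ _ _ _
  exact oth0T (perBd_of0 hnn h4 h1) (clOk0 hX hB hM)

attribute [local instance] NUSea.seaP

/-- **all classes except `W W`, and `W W` outside the near set, rows 0, with the weight** -/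
theorem oth1_GIT (h4 : S4R (PBR.G0 [I, -I] [])) :
    ∀ ε : ℝ, 0 < ε → ∃ ep0 : ℝ, 0 < ep0 ∧ ep0 ≤ 1 / 100 ∧
      ∀ ep : ℝ, 0 < ep → ep ≤ ep0 → ∃ (τ Cst : ℝ) (m0 : ℕ), 0 < τ ∧ 0 ≤ Cst ∧ 1 ≤ m0 ∧
        ∀ m : ℕ, m0 ≤ m →
        (∀ t t' : HT, ¬(t = .W ∧ t' = .W) →
          sValT τ m (KX [I, -I] [] ep m) (NUSea.O.par0 m) (2 * m) t t' ≤
            Cst * (m : ℝ) ^ (-(7 / 16) + ε) * Real.exp ((m : ℝ) ^ 2 * PBVR.EMF0)) ∧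
        (∀ o : Bool, sValDT τ m (KX [I, -I] [] ep m) (kDX [I, -I] [] ep m) (NUSea.O.par0 m)
            (2 * m) o ≤ Cst * (m : ℝ) ^ (-(7 / 16) + ε) * Real.exp ((m : ℝ) ^ 2 * PBVR.EMF0)) ∧
        (∀ (S : Set (ℝ × ℝ)) (κ : ℝ), MeasurableSet S →
          (∀ z ∈ S, κ ≤ 2 * |z.1| + 2 * |z.2| + |z.1 - z.2| / 2) →
          sIntT τ m (KX [I, -I] [] ep m) (NUSea.O.par0 m) (2 * m) .W .W S ≤
            ENNReal.ofReal (Cst * (Real.exp (-κ) * (m : ℝ) ^ ε + (m : ℝ) ^ (-(7 / 16) + ε)) *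
              Real.exp ((m : ℝ) ^ 2 * PBVR.EMF0))) ∧
        (∀ y : ℝ × ℝ, |y.1| ≤ 3 / 8 * Real.log m → |y.2| ≤ 3 / 8 * Real.log m →
          sPtT τ m (KX [I, -I] [] ep m) (NUSea.O.par0 m) (2 * m) .W .W (vl (htL .W) y.1)
              (vl (htL .W) y.2) ≤
            Cst * (Real.exp (-(2 * |y.1| + 2 * |y.2| + |y.1 - y.2| / 2)) * (m : ℝ) ^ ε) *
              Real.exp ((m : ℝ) ^ 2 * PBVR.EMF0)) :=
  oth1_ofT cutOk_I (G := PBR.G0 [I, -I] []) (fun _ _ => rfl) rfl h4 PBR.oneR_GI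

end WNDT

end
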