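import Pool.Agent.PB.Oth0T

/-!
# Tilted sums over the numbers of quanta, one class (PLAN W+, T2)

The tilted bounds `PerGen .. ν d ..` give more than the sum over the numbers `n`: they give the sum
with the weight `tl (d / 2) ν n = exp (d / 2 * |n - ν|)`.

* `tl`; `perGen_tl`, `r4U_tl`, `r4_tl`: terms and classes with the weight;
* `glue_UT`, `glue_classT`: `NUGC.glue_U`, `NUGC.glue_class` with the weight;
* `cls_leBT`: `PBR.cls_leB` with the weight; `top_cFST`, `top_cDBT`: the integrals over a set.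
-/

set_option autoImplicit false
set_option linter.unusedSectionVars false

noncomputable section

open Complex MeasureTheory Finset
open scoped ENNReal

namespace WNDT

open NUO NUP1 NUCR NUP1S NUP1S.Ab NUP1S.AbC NUP1S.AbG NURow NUP1.Leg NUGC

/-- **the weight** `exp (τ |n - ν|)` -/
def tl (τ ν : ℝ) (n : ℕ) : ℝ := Real.exp (τ * |(n : ℝ) - ν|)

theorem tl_pos (τ ν : ℝ) (n : ℕ) : 0 < tl τ ν n := Real.exp_pos _

theorem one_le_tl {τ : ℝ} (h : 0 ≤ τ) (ν : ℝ) (n : ℕ) : 1 ≤ tl τ ν n :=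
  Real.one_le_exp (mul_nonneg h (abs_nonneg _))

theorem tl_mono {τ τ' : ℝ} (h : τ ≤ τ') (ν : ℝ) (n : ℕ) : tl τ ν n ≤ tl τ' ν n :=
  Real.exp_le_exp.2 (mul_le_mul_of_nonneg_right h (abs_nonneg _))

/-- a shift of the number -/
theorem tl_shift {τ : ℝ} (h : 0 ≤ τ) (ν : ℝ) (n D : ℕ) :
    tl τ ν (n + D) ≤ Real.exp (τ * D) * tl τ ν n := by
  unfold tl
  rw [← Real.exp_add, ← mul_add]
  refine Real.exp_le_exp.2 (mul_le_mul_of_nonneg_left ?_ h)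
  have h1 : |((n + D : ℕ) : ℝ) - ν| = |(D : ℝ) + ((n : ℝ) - ν)| := by
    congr 1
    push_cast
    ring
  rw [h1]
  refine (abs_add_le _ _).trans (le_of_eq ?_)
  rw [Nat.abs_cast]

/-- the weight against the tilt of half the size -/
theorem tilt_le {d ν : ℝ} (hd : 0 < d) (n : ℕ) {b' : ℝ} (hb' : b' = d / 2 ∨ b' = -(d / 2)) :
    ∃ b : ℝ, (b = d ∨ b = -d) ∧
      Real.exp (b' * (ν - n)) * tl (d / 2) ν n ≤ Real.exp (b * (ν - n)) := by
  unfold tl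
  rcases le_total (ν - n) 0 with h | h
  · refine ⟨-d, Or.inr rfl, ?_⟩
    rw [← Real.exp_add, abs_of_nonneg (by linarith)]
    refine Real.exp_le_exp.2 ?_
    rcases hb' with rfl | rfl
    · have : d * (ν - n) ≤ 0 := mul_nonpos_of_nonneg_of_nonpos hd.le h
      linarith
    · linarith
  · refine ⟨d, Or.inl rfl, ?_⟩
    rw [← Real.exp_add, abs_of_nonpos (by linarith)]
    refine Real.exp_le_exp.2 ?_
    rcases hb' with rfl | rfl
    · linarith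
    · have : 0 ≤ d * (ν - n) := mul_nonneg hd.le h
      linarith

/-- the terms with the weight -/
def tT (g : ℕ → ℝ) (T : Term) : Term := fun n r O η η' => ENNReal.ofReal (g n) * T n r O η η'

/-- **the tilted bound of the terms with the weight** -/
theorem perGen_tl {C C' c b : ℝ} {k : ℕ} {c1 c' L ep e1 J ν d : ℝ} {N a : ℕ} {T : Term} {Q : ℝ}
    (hd : 0 < d) (h : PerGen C C' c b k c1 c' L ep e1 J ν d N a T Q) :
    PerGen C C' c b k c1 c' L ep e1 J ν (d / 2) N a (tT (tl (d / 2) ν) T) Q := by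
  intro n hn b' hb' r hr O
  obtain ⟨b, hb, hle⟩ := tilt_le (ν := ν) hd n hb'
  obtain ⟨η, η', hc, hW⟩ := h n hn b hb r hr O
  refine ⟨η, η', hc, fun W => le_trans ?_ (hW W)⟩
  unfold tT
  rw [← mul_assoc, ← ENNReal.ofReal_mul (Real.exp_pos _).le]
  exact mul_le_mul' (ENNReal.ofReal_le_ofReal hle) le_rfl

/-- the representation with the weight -/
theorem r4U_tl {U : Type} [Fintype U] {ep : ℝ} {a : ℕ} {c : U → ℝ≥0∞} {T : U → Term}
    {Z : ℕ → ℂ} {g : ℕ → ℝ} (hg : ∀ n, 0 ≤ g n) (h : R4genU ep a c T Z) :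
    R4genU ep a c (fun u => tT (g) (T u)) fun n => (g n : ℂ) * Z n := by
  intro η η' hη n
  have h1 := h η η' hη n
  rw [enorm_mul]
  have e1 : ‖(g n : ℂ)‖ₑ = ENNReal.ofReal (g n) := by
    rw [← ofReal_norm, Complex.norm_real, Real.norm_eq_abs, abs_of_nonneg (hg n)]
  rw [e1]
  refine (mul_le_mul_right h1 _).trans (le_of_eq ?_)
  rw [Finset.mul_sum]
  refine Finset.sum_congr rfl fun r _ => ?_
  rw [mul_left_comm, ← lintegral_const_mul' _ _ ENNReal.ofReal_ne_top]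
  congr 1
  refine lintegral_congr fun O => ?_
  rw [Finset.mul_sum]
  refine Finset.sum_congr rfl fun u _ => ?_
  unfold tT
  rw [mul_left_comm]

/-- the same, one choice -/
theorem r4_tl {ep : ℝ} {a : ℕ} {T : Term} {Z : ℕ → ℂ} {g : ℕ → ℝ} (hg : ∀ n, 0 ≤ g n)
    (h : R4gen ep a T Z) : R4gen ep a (tT g T) fun n => (g n : ℂ) * Z n := by
  intro η η' hη n
  have h1 := h η η' hη n
  rw [enorm_mul]
  have e1 : ‖(g n : ℂ)‖ₑ = ENNReal.ofReal (g n) := by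
    rw [← ofReal_norm, Complex.norm_real, Real.norm_eq_abs, abs_of_nonneg (hg n)]
  rw [e1]
  refine (mul_le_mul_right h1 _).trans (le_of_eq ?_)
  rw [Finset.mul_sum]
  refine Finset.sum_congr rfl fun r _ => ?_
  rw [mul_left_comm, ← lintegral_const_mul' _ _ ENNReal.ofReal_ne_top]
  rfl

theorem norm_tl {τ ν : ℝ} (n : ℕ) (z : ℂ) : ‖(tl τ ν n : ℂ) * z‖ = tl τ ν n * ‖z‖ := by
  rw [norm_mul, Complex.norm_real, Real.norm_eq_abs, abs_of_nonneg (tl_pos τ ν n).le]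

/-- **the bound of one class with choices, with the weight** -/
theorem glue_UT {C c b c1 c' : ℝ} {k : ℕ} (hC : 0 < C) (hc : 0 < c) (hb : 0 < b) (hc1 : 0 < c1)
    (hc' : 0 ≤ c') {δ : ℝ} (hδ : 0 < δ) :
    ∃ a0 : ℝ, 0 < a0 ∧ ∀ C' : ℝ, 0 ≤ C' → ∃ L0 : ℝ, ∀ L ≥ L0, ∀ ep : ℝ, 0 ≤ ep → ep ≤ 1 / 4 →
      ∀ e1 : ℝ, 0 < e1 → e1 ≤ 1 / 4 → ∀ J : ℝ, 0 ≤ J →
      Real.exp (-(2 * Real.pi * J)) + 3 * e1 + 3 * ep ≤ a0 →
      ∀ (ν d : ℝ) (N a : ℕ) (U : Type) (_ : Fintype U) (w : U → ℝ≥0∞) (Q : U → ℝ) (T : U → Term)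
        (Z : ℕ → ℂ), 0 < d → (∀ u, 0 ≤ Q u) → (∀ u, w u ≠ ⊤) →
      ((2 * N + a + 1 : ℕ) : ℝ) ≤ Real.exp (2 * L) → R4genU ep a w T Z →
      (∀ u, w u ≠ 0 → PerGen C C' c b k c1 c' L ep e1 J ν d N a (T u) (Q u)) →
      ∑ n ∈ range (N + 1), tl (d / 2) ν n * ‖Z n‖ ≤
        4 * (1 + 1 / (d / 2)) * ((∑ u, (w u).toReal * Q u) * Real.exp (δ * L)) := by
  obtain ⟨a0, ha0, h⟩ := glue_U (k := k) hC hc hb hc1 hc' hδ
  refine ⟨a0, ha0, fun C' hC' => ?_⟩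
  obtain ⟨L0, h⟩ := h C' hC'
  refine ⟨L0, fun L hL ep hep hep' e1 he1 he1' J hJ hsm ν d N a U _ w Q T Z hd hQ hw hN hR hP => ?_⟩
  have key := h L hL ep hep hep' e1 he1 he1' J hJ hsm ν (d / 2) N a U inferInstance w Q
    (fun u => tT (tl (d / 2) ν) (T u)) (fun n => (tl (d / 2) ν n : ℂ) * Z n) (by linarith) hQ hw hN
    (r4U_tl (fun n => (tl_pos _ _ n).le) hR) (fun u hu => perGen_tl hd (hP u hu))
  simp only [norm_tl] at key
  exact key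

/-- **the bound of one class, with the weight** -/
theorem glue_classT {C c b c1 c' : ℝ} {k : ℕ} (hC : 0 < C) (hc : 0 < c) (hb : 0 < b) (hc1 : 0 < c1)
    (hc' : 0 ≤ c') {δ : ℝ} (hδ : 0 < δ) :
    ∃ a0 : ℝ, 0 < a0 ∧ ∀ C' : ℝ, 0 ≤ C' → ∃ L0 : ℝ, ∀ L ≥ L0, ∀ ep : ℝ, 0 ≤ ep → ep ≤ 1 / 4 →
      ∀ e1 : ℝ, 0 < e1 → e1 ≤ 1 / 4 → ∀ J : ℝ, 0 ≤ J →
      Real.exp (-(2 * Real.pi * J)) + 3 * e1 + 3 * ep ≤ a0 →
      ∀ (ν d Q : ℝ) (N aX aY : ℕ) (B : OB) (P : Par) (Z : ℕ → ℂ), 0 < d → 0 ≤ Q →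
      ((2 * N + (aX + aY) + 1 : ℕ) : ℝ) ≤ Real.exp (2 * L) → R4Cof ep B P aX aY Z →
      PerCof C C' c b k c1 c' L ep e1 J ν d N B P aX aY Q →
      ∑ n ∈ range (N + 1), tl (d / 2) ν n * ‖Z n‖ ≤
        4 * (1 + 1 / (d / 2)) * (Q * Real.exp (δ * L)) := by
  obtain ⟨a0, ha0, h⟩ := glue_gen (k := k) hC hc hb hc1 hc' hδ
  refine ⟨a0, ha0, fun C' hC' => ?_⟩
  obtain ⟨L0, h⟩ := h C' hC'
  refine ⟨L0, fun L hL ep hep hep' e1 he1 he1' J hJ hsm ν d Q N aX aY B P Z hd hQ hN hR hP => ?_⟩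
  have key := h L hL ep hep hep' e1 he1 he1' J hJ hsm ν (d / 2) Q N (aX + aY)
    (tT (tl (d / 2) ν) (TmC (fun _ _ => B) P aX aY)) (fun n => (tl (d / 2) ν n : ℂ) * Z n)
    (by linarith) hQ hN (r4_tl (fun n => (tl_pos _ _ n).le) hR) (perGen_tl hd hP)
  simp only [norm_tl] at key
  exact key

/-- the shifted sum with the weight -/
theorem sum_shiftT {τ ν : ℝ} (hτ : 0 ≤ τ) {f : ℕ → ℝ} (hf : ∀ n, 0 ≤ f n) {D : ℕ}
    (h0 : ∀ n < D, f n = 0) (N : ℕ) :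
    ∑ n ∈ range (N + 1), tl τ ν n * f n ≤
      Real.exp (τ * D) * ∑ n ∈ range (N + 1), tl τ ν n * f (n + D) := by
  refine (sum_shift (D := D) (f := fun n => tl τ ν n * f n)
    (fun n => mul_nonneg (tl_pos _ _ n).le (hf n)) (fun n hn => by rw [h0 n hn, mul_zero]) N).trans ?_
  rw [Finset.mul_sum]
  refine Finset.sum_le_sum fun n _ => ?_
  rw [← mul_assoc]
  exact mul_le_mul_of_nonneg_right (tl_shift hτ ν n D) (hf _)

theorem htM_le (t t' : HT) : htM t t' ≤ 2 := by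
  cases t <;> cases t' <;> decide

/-- constant of the sums with the weight -/
def cT (d : ℝ) : ℝ := 4 * (1 + 1 / (d / 2)) * Real.exp d

theorem cT_nonneg {d : ℝ} (h : 0 < d) : 0 ≤ cT d := by unfold cT; positivity

/-- **The bound of the class `cF t t'` at fixed half quanta, with the weight.** -/
theorem cls_leBT {C c b c1 c' : ℝ} {k : ℕ} (hC : 0 < C) (hc : 0 < c) (hb : 0 < b) (hc1 : 0 < c1)
    (hc' : 0 ≤ c') {δ : ℝ} (hδ : 0 < δ) :
    ∃ a0 : ℝ, 0 < a0 ∧ ∀ C' : ℝ, 0 ≤ C' → ∃ L0 : ℝ, ∀ L ≥ L0, ∀ ep : ℝ, 0 < ep → ep ≤ 1 / 100 →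
      ∀ e1 : ℝ, 0 < e1 → e1 ≤ 1 / 4 → ∀ J : ℝ, 0 ≤ J →
      Real.exp (-(2 * Real.pi * J)) + 3 * e1 + 3 * ep ≤ a0 →
      ∀ (P : NUO.Par), ParC P → ∀ (X : Bool → Option O3 → ℂ → ℂ) (ob : (Bool → ℂ → ℝ) → OB)
        (κ : ℝ) (E0 : Set ℝ), PBR.Bs X ob P ep κ E0 → ∀ (kF kP kF' kP' : ℂ → ℂ) (t t' : HT)
        (w w' : ℂ), w.re = htL t → w'.re = htL t' →
      ∀ (ν d : ℝ) (K : ℕ) (Q : Bool × Bool → ℝ), 0 < d → (∀ u, 0 ≤ Q u) →
      ((2 * K + (htM t t' - htD t' + (htM t t' - htD t)) + 1 : ℕ) : ℝ) ≤ Real.exp (2 * L) →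
      (∀ u : Bool × Bool, (u.1 = true → htP t = true) → (u.2 = true → htP t' = true) →
        PerGen C C' c b k c1 c' L ep e1 J ν d K (htM t t' - htD t' + (htM t t' - htD t))
          (TmV u.1.toNat u.2.toNat (PBR.obKB ob t t' w w' u.1 u.2) P
            (htM t t' - htD t') (htM t t' - htD t)) (Q u)) →
      ∑ n ∈ range (K + 1), tl (d / 2) ν n *
        ‖(cF (X true) (X false) kF kP kF' kP' t t').Z (X true) (X false)
          (3 / 5 * l) n n (lX P) (lY P) w w'‖ ≤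
        cT d *
          ((∑ u : Bool × Bool, PBR.wKB X t t' w w' u.1 u.2 * Q u) * Real.exp (δ * L)) := by
  obtain ⟨a0, ha0, h⟩ := glue_UT (k := k) hC hc hb hc1 hc' hδ
  refine ⟨a0, ha0, fun C' hC' => ?_⟩
  obtain ⟨L0, h⟩ := h C' hC'
  refine ⟨L0, fun L hL ep hep hep' e1 he1 he1' J hJ hsm P hP X ob κ E0 hB kF kP kF' kP'
    t t' w w' hw hw' ν d K Q hd hQ hK hPer => ?_⟩
  have key := h L hL ep hep.le (hep'.trans (by norm_num)) e1 he1 he1' J hJ hsm ν d K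
    (htM t t' - htD t' + (htM t t' - htD t)) (Bool × Bool) inferInstance
    (fun u => ENNReal.ofReal (PBR.wKB X t t' w w' u.1 u.2)) Q
    (fun u => TmV u.1.toNat u.2.toNat (PBR.obKB ob t t' w w' u.1 u.2) P
        (htM t t' - htD t') (htM t t' - htD t)) _ hd hQ (fun u => ENNReal.ofReal_ne_top) hK
    (PBR.r4_cFB hB hP hep hep' kF kP kF' kP' t t' hw hw') (fun u hu => by
      by_cases hf : (u.1 = true → htP t = true) ∧ (u.2 = true → htP t' = true)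
      · exact hPer u hf.1 hf.2
      · exact absurd (by unfold PBR.wKB; rw [if_neg hf, ENNReal.ofReal_zero]) hu)
  have e1 : ∀ u : Bool × Bool, (ENNReal.ofReal (PBR.wKB X t t' w w' u.1 u.2)).toReal =
      PBR.wKB X t t' w w' u.1 u.2 := fun u =>
    ENNReal.toReal_ofReal (PBR.wKB_nonneg _ _ _ _ _ _ _)
  simp only [e1] at key
  refine (sum_shiftT (D := htM t t') (by linarith) (fun n => norm_nonneg _)
    (fun n hn => ?_) K).trans ?_
  · rw [cF_zero _ _ _ _ _ _ _ _ _ _ _ hn, norm_zero]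
  · have h1 : Real.exp (d / 2 * (htM t t' : ℕ)) ≤ Real.exp d := by
      refine Real.exp_le_exp.2 ?_
      have h2 : ((htM t t' : ℕ) : ℝ) ≤ 2 := by exact_mod_cast htM_le t t'
      nlinarith
    have h0 : 0 ≤ (∑ u : Bool × Bool, PBR.wKB X t t' w w' u.1 u.2 * Q u) :=
      sum_nonneg fun u _ => mul_nonneg (PBR.wKB_nonneg _ _ _ _ _ _ _) (hQ u)
    calc _ ≤ Real.exp d * (4 * (1 + 1 / (d / 2)) *
          ((∑ u : Bool × Bool, PBR.wKB X t t' w w' u.1 u.2 * Q u) * Real.exp (δ * L))) :=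
          mul_le_mul h1 key (sum_nonneg fun n _ => mul_nonneg (tl_pos _ _ _).le (norm_nonneg _))
            (Real.exp_pos _).le
      _ = _ := by unfold cT; ring

/-- **the sum over the numbers of the double integral of a class over a set, with the weight** -/
theorem top_cFST {C c b c1 c' : ℝ} {k : ℕ} (hC : 0 < C) (hc : 0 < c) (hb : 0 < b) (hc1 : 0 < c1)
    (hc' : 0 ≤ c') {δ : ℝ} (hδ : 0 < δ) :
    ∃ a0 : ℝ, 0 < a0 ∧ ∀ C' : ℝ, 0 ≤ C' → ∃ L0 : ℝ, ∀ L ≥ L0, ∀ ep : ℝ, 0 < ep → ep ≤ 1 / 100 →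
      ∀ e1 : ℝ, 0 < e1 → e1 ≤ 1 / 4 → ∀ J : ℝ, 0 ≤ J →
      Real.exp (-(2 * Real.pi * J)) + 3 * e1 + 3 * ep ≤ a0 →
      ∀ (P : NUO.Par), ParC P → ∀ (X : Bool → Option O3 → ℂ → ℂ) (ob : (Bool → ℂ → ℝ) → OB)
        (κ : ℝ) (E0 : Set ℝ), PBR.Bs X ob P ep κ E0 → ∀ (kF kP kF' kP' : ℂ → ℂ) (t t' : HT)
        (ν d : ℝ) (K : ℕ) (Q : ℝ × ℝ → Bool × Bool → ℝ), 0 < d →
      (∀ y u, 0 ≤ Q y u) →
      ((2 * K + (htM t t' - htD t' + (htM t t' - htD t)) + 1 : ℕ) : ℝ) ≤ Real.exp (2 * L) →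
      (∀ (y : ℝ × ℝ) (u : Bool × Bool), (u.1 = true → htP t = true) →
        (u.2 = true → htP t' = true) →
        PerGen C C' c b k c1 c' L ep e1 J ν d K (htM t t' - htD t' + (htM t t' - htD t))
          (TmV u.1.toNat u.2.toNat
            (PBR.obKB ob t t' (vl (htL t) y.1) (vl (htL t') y.2) u.1 u.2) P
            (htM t t' - htD t') (htM t t' - htD t)) (Q y u)) →
      ∀ S : Set (ℝ × ℝ),
      ∑ n ∈ range (K + 1), ENNReal.ofReal (tl (d / 2) ν n) * ∫⁻ y in S,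
          ‖(cF (X true) (X false) kF kP kF' kP' t t').pre (vl (htL t) y.1) (vl (htL t') y.2)‖ₑ *
          ‖(cF (X true) (X false) kF kP kF' kP' t t').Z (X true) (X false) (3 / 5 * l) n n
            (lX P) (lY P) (vl (htL t) y.1) (vl (htL t') y.2)‖ₑ ≤
        ENNReal.ofReal (cT d * Real.exp (δ * L)) *
          ∫⁻ y in S, ‖(cF (X true) (X false) kF kP kF' kP' t t').pre
              (vl (htL t) y.1) (vl (htL t') y.2)‖ₑ *
            ENNReal.ofReal (∑ u : Bool × Bool,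
              PBR.wKB X t t' (vl (htL t) y.1) (vl (htL t') y.2) u.1 u.2 * Q y u) := by
  obtain ⟨a0, ha0, h⟩ := cls_leBT (k := k) hC hc hb hc1 hc' hδ
  refine ⟨a0, ha0, fun C' hC' => ?_⟩
  obtain ⟨L0, h⟩ := h C' hC'
  refine ⟨L0, fun L hL ep hep hep' e1 he1 he1' J hJ hsm P hP X ob κ E0 hB kF kP kF' kP'
    t t' ν d K Q hd hQ hK hPer S => ?_⟩
  have e0 : ∀ n : ℕ, ENNReal.ofReal (tl (d / 2) ν n) * ∫⁻ y in S,
          ‖(cF (X true) (X false) kF kP kF' kP' t t').pre (vl (htL t) y.1) (vl (htL t') y.2)‖ₑ *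
          ‖(cF (X true) (X false) kF kP kF' kP' t t').Z (X true) (X false) (3 / 5 * l) n n
            (lX P) (lY P) (vl (htL t) y.1) (vl (htL t') y.2)‖ₑ =
      ∫⁻ y in S, ENNReal.ofReal (tl (d / 2) ν n) *
          (‖(cF (X true) (X false) kF kP kF' kP' t t').pre (vl (htL t) y.1) (vl (htL t') y.2)‖ₑ *
          ‖(cF (X true) (X false) kF kP kF' kP' t t').Z (X true) (X false) (3 / 5 * l) n n
            (lX P) (lY P) (vl (htL t) y.1) (vl (htL t') y.2)‖ₑ) := fun n =>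
    (lintegral_const_mul' _ _ ENNReal.ofReal_ne_top).symm
  simp only [e0]
  refine (sum_lint_le' _ _ _).trans ?_
  rw [← lintegral_const_mul' _ _ ENNReal.ofReal_ne_top]
  refine lintegral_mono fun y => ?_
  beta_reduce
  have h4 : (0 : ℝ) ≤ cT d := cT_nonneg hd
  have hS : 0 ≤ ∑ u : Bool × Bool,
      PBR.wKB X t t' (vl (htL t) y.1) (vl (htL t') y.2) u.1 u.2 * Q y u :=
    sum_nonneg fun u _ => mul_nonneg (PBR.wKB_nonneg _ _ _ _ _ _ _) (hQ y u)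
  have key := h L hL ep hep hep' e1 he1 he1' J hJ hsm P hP X ob κ E0 hB kF kP kF' kP'
    t t' (vl (htL t) y.1) (vl (htL t') y.2) (by simp [vl]) (by simp [vl]) ν d K (Q y) hd
    (hQ y) hK (fun u => hPer y u)
  have key2 := ENNReal.ofReal_le_ofReal key
  rw [ENNReal.ofReal_sum_of_nonneg fun n _ => mul_nonneg (tl_pos _ _ _).le (norm_nonneg _)] at key2
  have e1 : ∀ n : ℕ, ENNReal.ofReal (tl (d / 2) ν n) *
          (‖(cF (X true) (X false) kF kP kF' kP' t t').pre (vl (htL t) y.1) (vl (htL t') y.2)‖ₑ *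
          ‖(cF (X true) (X false) kF kP kF' kP' t t').Z (X true) (X false) (3 / 5 * l) n n
            (lX P) (lY P) (vl (htL t) y.1) (vl (htL t') y.2)‖ₑ) =
      ‖(cF (X true) (X false) kF kP kF' kP' t t').pre (vl (htL t) y.1) (vl (htL t') y.2)‖ₑ *
        ENNReal.ofReal (tl (d / 2) ν n *
          ‖(cF (X true) (X false) kF kP kF' kP' t t').Z (X true) (X false) (3 / 5 * l) n n
            (lX P) (lY P) (vl (htL t) y.1) (vl (htL t') y.2)‖) := fun n => by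
    rw [ENNReal.ofReal_mul (tl_pos _ _ _).le, ofReal_norm]
    exact mul_left_comm _ _ _
  simp only [e1]
  rw [← Finset.mul_sum]
  refine (mul_le_mul_right key2 _).trans (le_of_eq ?_)
  rw [show cT d * ((∑ u : Bool × Bool, PBR.wKB X t t'
      (vl (htL t) y.1) (vl (htL t') y.2) u.1 u.2 * Q y u) * Real.exp (δ * L)) =
      (cT d * Real.exp (δ * L)) * ∑ u : Bool × Bool, PBR.wKB X t t' (vl (htL t) y.1)
      (vl (htL t') y.2) u.1 u.2 * Q y u by ring,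
    ENNReal.ofReal_mul (mul_nonneg h4 (Real.exp_pos _).le)]
  exact mul_left_comm _ _ _

/-- a real bound from an extended one -/
theorem sum_real_le {ι : Type*} {s : Finset ι} {f : ι → ℝ} (hf : ∀ i ∈ s, 0 ≤ f i) {B : ℝ}
    (hB : 0 ≤ B) (h : ∑ i ∈ s, ENNReal.ofReal (f i) ≤ ENNReal.ofReal B) : ∑ i ∈ s, f i ≤ B := by
  rw [← ENNReal.ofReal_sum_of_nonneg hf] at h
  exact (ENNReal.ofReal_le_ofReal_iff hB).1 h

/-- the values of a class with the weight from the integrals over all positions -/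
theorem cls_val_leT {τ ν : ℝ} (c : CD) (X Y : Option O3 → ℂ → ℂ) (α : ℝ) (K : ℕ)
    (lnX : ∀ p p' : ℕ, (Fin p → O3) → (Fin p' → O3) → Fin p → ℝ)
    (lnY : ∀ p p' : ℕ, (Fin p → O3) → (Fin p' → O3) → Fin p' → ℝ) {B : ℝ} (hB : 0 ≤ B)
    (h : ∑ n ∈ range (K + 1), ENNReal.ofReal (tl τ ν n) *
      ∫⁻ y : ℝ × ℝ in Set.univ, ‖c.pre (vl c.a y.1) (vl c.b y.2)‖ₑ *
      ‖c.Z X Y α n n lnX lnY (vl c.a y.1) (vl c.b y.2)‖ₑ ≤ ENNReal.ofReal B) :
    ∑ n ∈ range (K + 1), tl τ ν n * ‖c.val X Y α n n lnX lnY‖ ≤ B := by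
  have e : ∀ n : ℕ, tl τ ν n * ‖c.val X Y α n n lnX lnY‖ =
      ‖(tl τ ν n : ℂ) * c.val X Y α n n lnX lnY‖ := fun n => (norm_tl n _).symm
  simp only [e]
  refine sum_norm_le hB (le_trans ?_ h)
  refine sum_le_sum fun n _ => ?_
  rw [Measure.restrict_univ, enorm_mul]
  have e1 : ‖(tl τ ν n : ℂ)‖ₑ = ENNReal.ofReal (tl τ ν n) := by
    rw [← ofReal_norm, Complex.norm_real, Real.norm_eq_abs, abs_of_nonneg (tl_pos _ _ _).le]
  rw [e1]
  exact mul_le_mul' le_rfl (c.val_le X Y α n n lnX lnY)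

/-- the same with one line: the integrals -/
theorem CD1_sumT {τ ν : ℝ} (c : CD1) (X Y : Option O3 → ℂ → ℂ) (α : ℝ) (K : ℕ)
    (lnX : ∀ p p' : ℕ, (Fin p → O3) → (Fin p' → O3) → Fin p → ℝ)
    (lnY : ∀ p p' : ℕ, (Fin p → O3) → (Fin p' → O3) → Fin p' → ℝ) (q : ℝ → ℝ≥0∞)
    (h : ∀ᵐ y : ℝ, ENNReal.ofReal (∑ n ∈ range (K + 1), tl τ ν n *
      ‖c.Z X Y α n n lnX lnY (vl c.a y)‖) ≤ q y) :
    ∑ n ∈ range (K + 1), ENNReal.ofReal (tl τ ν n * ‖c.val X Y α n n lnX lnY‖) ≤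
      ∫⁻ y : ℝ, ‖c.K (vl c.a y)‖ₑ * q y := by
  calc ∑ n ∈ range (K + 1), ENNReal.ofReal (tl τ ν n * ‖c.val X Y α n n lnX lnY‖)
      ≤ ∑ n ∈ range (K + 1), ∫⁻ y : ℝ, ‖c.K (vl c.a y)‖ₑ *
        ENNReal.ofReal (tl τ ν n * ‖c.Z X Y α n n lnX lnY (vl c.a y)‖) := by
        refine sum_le_sum fun n _ => ?_
        rw [ENNReal.ofReal_mul (tl_pos _ _ _).le, ofReal_norm]
        refine (mul_le_mul' le_rfl (c.val_le X Y α n n lnX lnY)).trans (le_of_eq ?_)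
        rw [← lintegral_const_mul' _ _ ENNReal.ofReal_ne_top]
        refine lintegral_congr fun y => ?_
        rw [ENNReal.ofReal_mul (tl_pos _ _ _).le, ofReal_norm]
        exact mul_left_comm _ _ _
    _ ≤ ∫⁻ y : ℝ, ∑ n ∈ range (K + 1), ‖c.K (vl c.a y)‖ₑ *
        ENNReal.ofReal (tl τ ν n * ‖c.Z X Y α n n lnX lnY (vl c.a y)‖) := sum_lint_le' _ _ _
    _ ≤ _ := by
      refine lintegral_mono_ae (h.mono fun y hy => ?_)
      rw [← Finset.mul_sum, ← ENNReal.ofReal_sum_of_nonneg fun n _ =>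
        mul_nonneg (tl_pos _ _ _).le (norm_nonneg _)]
      gcongr

/-- **The bound of the classes D1 (`o = true`), D1' (`o = false`), with the weight** -/
theorem top_cDBT {C c b c1 c' : ℝ} {k : ℕ} (hC : 0 < C) (hc : 0 < c) (hb : 0 < b) (hc1 : 0 < c1)
    (hc' : 0 ≤ c') {δ : ℝ} (hδ : 0 < δ) :
    ∃ a0 : ℝ, 0 < a0 ∧ ∀ C' : ℝ, 0 ≤ C' → ∃ L0 : ℝ, ∀ L ≥ L0, ∀ ep : ℝ, 0 < ep → ep ≤ 1 / 100 →
      ∀ e1 : ℝ, 0 < e1 → e1 ≤ 1 / 4 → ∀ J : ℝ, 0 ≤ J →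
      Real.exp (-(2 * Real.pi * J)) + 3 * e1 + 3 * ep ≤ a0 →
      ∀ (P : NUO.Par), ParC P → ∀ (X : Bool → Option O3 → ℂ → ℂ) (ob : (Bool → ℂ → ℝ) → OB)
        (κ : ℝ) (E0 : Set ℝ), PBR.Bs X ob P ep κ E0 → ∀ (kD : ℂ → ℂ) (o : Bool)
        (ν d : ℝ) (K : ℕ) (Q : ℝ → ℝ), 0 < d → (∀ y, 0 ≤ Q y) →
      ((2 * K + 1 : ℕ) : ℝ) ≤ Real.exp (2 * L) →
      (∀ y : ℝ, PerCof C C' c b k c1 c' L ep e1 J ν d K
        (PBR.obDB ob o (vl (-(11 / 4) * l) y)) P 0 0 (Q y)) →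
      ∑ n ∈ range (K + 1), ENNReal.ofReal (tl (d / 2) ν n * ‖(cDo o kD).val
        (X true) (X false) (3 / 5 * l) n n (lX P) (lY P)‖) ≤
        ENNReal.ofReal (cT d * Real.exp (δ * L)) *
          ∫⁻ y : ℝ, ENNReal.ofReal (‖kD (vl (-(11 / 4) * l) y)‖ * Q y) := by
  obtain ⟨a0, ha0, h⟩ := glue_classT (k := k) hC hc hb hc1 hc' hδ
  refine ⟨a0, ha0, fun C' hC' => ?_⟩
  obtain ⟨L0, h⟩ := h C' hC'
  refine ⟨L0, fun L hL ep hep hep' e1 he1 he1' J hJ hsm P hP X ob κ E0 hB kD o ν d K Q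
    hd hQ hK hPer => ?_⟩
  have hR : ∀ w : ℂ, w.re = -(11 / 4) * l → R4Cof ep (PBR.obDB ob o w) P 0 0
      (fun n => (cDo o kD).Z (X true) (X false) (3 / 5 * l) n n (lX P) (lY P) w) := by
    intro w hw
    have key := PBR.r4_cDB hB hP hep hep' kD hw
    cases o
    · exact key.2
    · exact key.1
  have hE : (1 : ℝ) ≤ Real.exp d := Real.one_le_exp hd.le
  have h4' : (0 : ℝ) ≤ 4 * (1 + 1 / (d / 2)) := by positivity
  have h4 : (0 : ℝ) ≤ cT d * Real.exp (δ * L) := mul_nonneg (cT_nonneg hd) (Real.exp_pos _).le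
  have key := CD1_sumT (τ := d / 2) (ν := ν) (cDo o kD) (X true) (X false) (3 / 5 * l) K
    (lX P) (lY P) (fun y => ENNReal.ofReal (cT d * Real.exp (δ * L) * Q y))
    (Filter.Eventually.of_forall fun y => by
      rw [cDo_a]
      refine ENNReal.ofReal_le_ofReal ?_
      refine (h L hL ep hep.le (hep'.trans (by norm_num)) e1 he1 he1' J hJ hsm ν d (Q y) K 0 0
        _ P _ hd (hQ y) (by simpa using hK) (hR (vl (-(11 / 4) * l) y) (by simp [vl]))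
        (hPer y)).trans ?_
      have h5 : 0 ≤ Q y * Real.exp (δ * L) := mul_nonneg (hQ y) (Real.exp_pos _).le
      calc 4 * (1 + 1 / (d / 2)) * (Q y * Real.exp (δ * L))
          ≤ 4 * (1 + 1 / (d / 2)) * Real.exp d * (Q y * Real.exp (δ * L)) :=
            mul_le_mul_of_nonneg_right (le_mul_of_one_le_right h4' hE) h5
        _ = _ := by unfold cT; ring)
  refine key.trans (le_of_eq ?_)
  rw [← lintegral_const_mul' _ _ ENNReal.ofReal_ne_top]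
  refine lintegral_congr fun y => ?_
  rw [cDo_a, cDo_K, ← ofReal_norm, ← ENNReal.ofReal_mul (norm_nonneg _), ← ENNReal.ofReal_mul h4]
  congr 1
  ring

end WNDT

end
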