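import Pool.Agent.NUN.Front
import Pool.Agent.WND.WcCyl

/-!
# The function of the cut under an injective renaming of the sites (plan W, W1c)
-/

set_option autoImplicit false

namespace Pool.Agent.WND

open Pool.Agent.NUF Pool.Agent Pool.Agent.NUU Pool.Agent.NUT2
open Pool.Agent.TC (nuw)
open Pool.Agent.EXL

variable {α β : Type*} [DecidableEq α] [DecidableEq β] {κ : β → α} {χ : ℂ} {c : β → ℤ} {c' : α → ℤ}
  {m k : β} {R : List (β × β)}

/-- The labels with the mark of the end. -/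
theorem ce_map (hκ : Function.Injective κ) (hc : ∀ b, c' (κ b) = c b) (x : β) :
    ce c' (κ k) (κ x) = ce c k x := by
  by_cases h : x = k
  · subst h
    rw [ce_self, ce_self, hc]
  · rw [ce_ne _ h, ce_ne _ fun e => h (hκ e), hc]

/-- Two patterns which correspond to each other. -/
theorem PG_res (hκ : Function.Injective κ) (hc : ∀ b, c' (κ b) = c b) (hR : Gd ((m, k) :: R))
    {Q : Pat α} {P : Pat β} (h : ∀ b, Q (κ b) = κ (P b)) (h' : ∀ x, (¬ ∃ b, κ b = x) → Q x = x) :
    PG χ c' (κ m) (κ k) (R.map (Prod.map κ κ)) Q = PG χ c m k R P := by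
  have key := (relE_Gf (ν := nuw χ) hκ hR).tw (ce_map (k := k) hκ hc)
  exact key _ _ ⟨⟨h, fun _ => rfl⟩, fun x hx => h' x fun e => hx e⟩

/-- **Naturality of the function of the cut.** -/
theorem PG_lft (hκ : Function.Injective κ) (hc : ∀ b, c' (κ b) = c b) (hR : Gd ((m, k) :: R)) (P : Pat β) :
    PG χ c' (κ m) (κ k) (R.map (Prod.map κ κ)) (lft κ hκ P) = PG χ c m k R P :=
  PG_res hκ hc hR (lft_apply κ hκ P) fun _ hx => lft_of_notMem κ hκ P hx

/-- The labels of the lines. -/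
theorem cS_map (hκ : Function.Injective κ) (K L : List (β × β)) (x : β) :
    cS (K.map (Prod.map κ κ)) (L.map (Prod.map κ κ)) (κ x) = cS K L x := by
  have h : ∀ M : List (β × β), κ x ∈ (M.map (Prod.map κ κ)).map Prod.fst ↔ x ∈ M.map Prod.fst := by
    intro M
    rw [List.map_map]
    constructor
    · intro h
      obtain ⟨t, ht, h1⟩ := List.mem_map.1 h
      exact List.mem_map.2 ⟨t, ht, hκ h1⟩
    · intro h
      obtain ⟨t, ht, h1⟩ := List.mem_map.1 h
      exact List.mem_map.2 ⟨t, ht, congrArg κ h1⟩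
  unfold cS
  simp only [h]

section rows

open Pool.Agent.EXL.Net HexObs HexObs.LP
open Pool.Agent.NUN (Xr Xl fr fr_inj Fr)
open Pool.Agent.MXR (prs rowI rowJ r0 rk)

variable {N : ℕ}

/-- The lines of the rows. -/
theorem prs_lnL (l : List (Fin N)) :
    (prs l).map (Prod.map (fr N (fun _ => 0) (fun _ => -1) false 0 0)
      (fr N (fun _ => 0) (fun _ => -1) false 0 0)) = l.map lnL := by
  unfold prs
  rw [List.map_map]
  rfl

/-- The sites of the cut are different. -/
theorem gd_prs {l : List (Fin N)} (hl : l.Nodup) {i j : Fin N} (hij : i ≠ j) (hi : i ∉ l) (hj : j ∉ l) :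
    Gd ((Xr i, Xr j) :: prs l) := by
  have x1 : Function.Injective (Xr : Fin N → NUF.St N) := fun a b h => by simpa [Xr] using h
  have x2 : Function.Injective (Xl : Fin N → NUF.St N) := fun a b h => by simpa [Xl] using h
  have x3 : ∀ a b : Fin N, (Xr a : NUF.St N) ≠ Xl b := fun a b h => by simp [Xr, Xl] at h
  unfold Gd
  rw [List.map_cons, List.map_cons, MXR.prs_fst, MXR.prs_snd]
  have y1 : Xr i ∉ l.map Xr := fun h => hi ((List.mem_map_of_injective x1).1 h)
  have y2 : Xr j ∉ l.map Xr := fun h => hj ((List.mem_map_of_injective x1).1 h)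
  have y3 : ∀ a : Fin N, Xr a ∉ l.map Xl := fun a h => by
    obtain ⟨b, -, e⟩ := List.mem_map.1 h
    exact x3 a b e.symm
  have y4 : ∀ a ∈ l.map Xr, a ∉ l.map Xl := fun a h => by
    obtain ⟨b, -, rfl⟩ := List.mem_map.1 h
    exact y3 b
  have y5 : (Xr i : NUF.St N) ≠ Xr j := fun h => hij (x1 h)
  have y6 := hl.map x1
  have y7 := hl.map x2
  simp only [List.nodup_append, List.nodup_cons, List.cons_append, List.mem_append, List.mem_cons]
  grind

/-- **The function of the cut on the front.** -/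
theorem PG_Fr {I J : List (Fin N)} (hl : (I ++ J).Nodup) {i j : Fin N} (hij : i ≠ j) (hi : i ∉ I ++ J)
    (hj : j ∉ I ++ J) (q : Pat (NUF.St N)) :
    PG χ (cS (I.map lnL) (J.map lnL)) (lW 0 ((i : ℕ) : ℤ)) (lW 0 ((j : ℕ) : ℤ)) ((I ++ J).map lnL)
      (Fr (fun _ => 0) (fun _ => -1) false 0 0 q) =
      PG χ (cS (prs I) (prs J)) (Xr i) (Xr j) (prs I ++ prs J) q := by
  have h := PG_lft (χ := χ) (κ := fr N (fun _ => 0) (fun _ => -1) false 0 0)
    (c := cS (prs I) (prs J)) (c' := cS (I.map lnL) (J.map lnL)) (fr_inj _ _ _ _ _) (fun b => by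
      rw [← prs_lnL, ← prs_lnL]
      exact cS_map (fr_inj _ _ _ _ _) _ _ b) (gd_prs hl hij hi hj) q
  rw [prs_lnL, MXR.prs_append] at h
  exact h

theorem rowI_nodup (k : ℕ) : (rowI k).Nodup := by
  unfold rowI
  refine (List.nodup_finRange _).map fun a b h => ?_
  have := congrArg Fin.val h
  simp only at this
  exact Fin.ext (by omega)

theorem rowJ_nodup (k : ℕ) : (rowJ k).Nodup := by
  unfold rowJ
  refine (List.nodup_finRange _).map fun a b h => ?_
  have := congrArg Fin.val h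
  simp only at this
  exact Fin.ext (by omega)

theorem mem_rowI {k : ℕ} {a : Fin (2 * k)} (h : a ∈ rowI k) : k < (a : ℕ) := by
  unfold rowI at h
  obtain ⟨i, -, rfl⟩ := List.mem_map.1 h
  simp only
  omega

theorem mem_rowJ {k : ℕ} {a : Fin (2 * k)} (h : a ∈ rowJ k) : 0 < (a : ℕ) ∧ (a : ℕ) < k := by
  unfold rowJ at h
  obtain ⟨i, -, rfl⟩ := List.mem_map.1 h
  have := i.2
  simp only
  omega

theorem rowIJ_nodup (k : ℕ) : (rowI k ++ rowJ k).Nodup := by
  rw [List.nodup_append]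
  refine ⟨rowI_nodup k, rowJ_nodup k, fun a ha b hb e => ?_⟩
  subst e
  have h1 := mem_rowI ha
  have h2 := mem_rowJ hb
  omega

theorem r0_notMem {k : ℕ} (hk : 1 ≤ k) : r0 hk ∉ rowI k ++ rowJ k := by
  intro h
  rcases List.mem_append.1 h with h | h
  · have h1 : k < 0 := mem_rowI h
    omega
  · have h1 : 0 < 0 ∧ 0 < k := mem_rowJ h
    omega

theorem rk_notMem {k : ℕ} (hk : 1 ≤ k) : rk hk ∉ rowI k ++ rowJ k := by
  intro h
  rcases List.mem_append.1 h with h | h
  · have h1 : k < k := mem_rowI h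
    omega
  · have h1 : 0 < k ∧ k < k := mem_rowJ h
    omega

theorem r0_ne_rk {k : ℕ} (hk : 1 ≤ k) : r0 hk ≠ rk hk := fun h => by
  have h1 : 0 = k := congrArg Fin.val h
  omega

/-- **The function of the cut of `W0W` on the front.** -/
theorem PG_front {k : ℕ} (hk : 1 ≤ k) (q : Pat (NUF.St (2 * k))) :
    PG χ (cL k) (lW 0 0) (lW 0 (k : ℤ)) ((rowI k ++ rowJ k).map lnL)
      (Fr (fun _ => 0) (fun _ => -1) false 0 0 q) =
      PG χ (cS (prs (rowI k)) (prs (rowJ k))) (Xr (r0 hk)) (Xr (rk hk)) (prs (rowI k) ++ prs (rowJ k)) q :=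
  PG_Fr (rowIJ_nodup k) (r0_ne_rk hk) (r0_notMem hk) (rk_notMem hk) q

end rows

end Pool.Agent.WND
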