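import Pool.Agent.WND.TwoL
import Pool.Agent.WND.WcDef

/-!
# The labelled words and the winding weight (plan W, W1c; helper60)

`DLb C χ c`: the labels of the half edges `h` are `(c (hf (C.rv h)) - c (hf h), 0)`, a loop with the label `g` has
the weight `nuw χ g`.  `two_cutPw`: the labelled network between the legs of two cut edges is `WsW`.
-/

set_option autoImplicit false

namespace Pool.Agent.WND

open Pool.Agent.EXL Pool.Agent.EXL.Net Pool.Agent.NUN Pool.Agent.NUF Pool.Agent.NUF.LPat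
  Pool.Agent.NUF.Cyl HexObs HexObs.LP
open Pool.Agent.TC (nuw nuw_neg)

variable {C : Nm}

/-- **The labels of the network.** -/
noncomputable def DLb (C : Nm) (χ : ℂ) (c : Lab → ℤ) : C.Lb (ℤ × ℤ) ℂ where
  nu := nuw χ
  even := nuw_neg χ
  lab h := (-lbh C c h, 0)
  anti h hh := by
    have e : lbh C c (C.rv h) = -lbh C c h := by
      unfold lbh
      rw [Nm.rv_rv hh]
      ring
    rw [e]
    ext <;> simp

variable {χ : ℂ} {c : Lab → ℤ}

theorem DLb_lab (h : Pt × Pt) : (DLb C χ c).lab h = (-lbh C c h, 0) := rfl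

theorem DLb_nu : (DLb C χ c).nu = nuw χ := rfl

theorem nuw_snd0 (n : ℤ) : nuw χ (n, 0) = 0 := by
  unfold nuw
  simp

theorem DLb_gas (x : ℂ) : (DLb C χ c).Gas x fun _ => 1 := by
  refine gas_one fun A E _ => ?_
  have e : (DLb C χ c).lE E = (∑ q ∈ E, (-lbh C c q), 0) := by
    unfold Nm.Lb.lE
    ext
    · rw [Prod.fst_sum]
      rfl
    · rw [Prod.snd_sum]
      exact Finset.sum_eq_zero fun q _ => rfl
  rw [e, DLb_nu, nuw_snd0]

theorem DLb_ls (p : Pt × Pt) (t : List Bool) :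
    (DLb C χ c).ls p t = (-(lbs C c p t + lbh C c (C.le p t)), 0) := by
  unfold Nm.Lb.ls
  ext
  · rw [Prod.fst_sum, Finset.sum_range_succ]
    unfold lbs
    rw [neg_add, ← Finset.sum_neg_distrib]
    rfl
  · rw [Prod.snd_sum]
    exact Finset.sum_eq_zero fun q _ => rfl

/-- **The labelled words are the words with the winding weight.** -/
theorem Pw_WsW (x : ℂ) {A : Finset Pt} {b p : Pt × Pt} (hb : C.nm b.1 = b.1) (lb : lbh C c b = 0) :
    (DLb C χ c).Pw x (fun _ => 1) A (C.rv b) (0, 1) p = WsW C χ x c A {C.rv b} p := by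
  unfold Nm.Lb.Pw WsW
  refine Finset.sum_congr ?_ fun t ht => ?_
  · ext t
    rw [Finset.mem_filter, Finset.mem_filter, Finset.mem_singleton]
  · rw [Finset.mem_filter, Finset.mem_singleton] at ht
    have e : C.le p t = b := by
      have h1 := congrArg C.rv ht.2
      rwa [Nm.rv_rv hb, Nm.rv_rv (C.idem _)] at h1
    rw [DLb_ls, e, lb, add_zero, DLb_nu, mul_one]
    congr 1
    have e2 : ((0, 1) : ℤ × ℤ) - (-lbs C c p t, 0) = (lbs C c p t, 1) := by
      ext <;> simp
    rw [e2]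
    unfold nuw
    rw [if_pos rfl]

/-- **The labelled network between the legs of two cut edges.** -/
theorem two_cutPw (x : ℂ) {A : Finset Pt} (hV : ∀ w ∈ A, Vt w ∧ C.nm w = w) {E E' : Finset (Sym2 Lab)}
    (hE : C.Edg E) (hE' : C.Edg E') {a b : Pt × Pt} (ha : C.De a) (hb : C.De b) (ea : C.ed a ∉ E)
    (eb : C.ed b ∉ E) (hab : C.ed a ≠ C.ed b) (eE : E' = insert (C.ed a) (insert (C.ed b) E)) (aA : a.1 ∈ A)
    (bA : b.1 ∈ A) (uv : a.1 ≠ b.1) (incl : C.Incl A E') (la : lbh C c a = 0) (lb : lbh C c b = 0) :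
    (lCR (ℤ × ℤ) x A * (DLb C χ c).cO E hE) (J2 (nuw χ) (0, 1) (hf a) (hf b) (dl (ℤ × ℤ) Lab)) LPat.empty =
      WsW C χ x c A {C.rv b} (C.rv a) := by
  have hd : ∀ i : Lab, lE (ℤ × ℤ) ℂ i (dl (ℤ × ℤ) Lab) = dl (ℤ × ℤ) Lab := by
    intro i
    funext p
    rw [lE_apply]
    by_cases h : p i = i
    · rw [if_pos h]
    · rw [if_neg h]
      unfold dl
      rw [if_neg]
      rintro rfl
      exact h rfl
  have z0 : ∀ h : Pt × Pt, lbh C c h = 0 → (DLb C χ c).lab h = 0 := by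
    intro h hh
    rw [DLb_lab, hh, neg_zero]
    rfl
  have key := two_cutL (D := DLb C χ c) (DLb_gas x)
    (fun a b h => mul_left_cancel₀ (two_ne_zero' ℂ) h) hV hE hE' ha hb ea eb hab eE aA bA uv incl (z0 a la)
    (z0 b lb) (0, 1) (hd _) (hd _)
  rw [Pw_WsW x hb.2 lb] at key
  have e1 : dl (ℤ × ℤ) Lab LPat.empty = 1 := if_pos rfl
  rw [e1, mul_one] at key
  exact key

end Pool.Agent.WND
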