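import Pool.Agent.WND.REz
import Pool.Agent.NUP1L.RowC

/-!
# `RE` of the gas at any `χ` for equal heights of the rows and the ends

`RE_tendstoZ` : as `NUP1.Leg.RE_tendsto`, with the factor `χ ^ (2 n - 2 m)`.
-/

set_option autoImplicit false
set_option linter.unusedSectionVars false

noncomputable section

open Complex MeasureTheory Filter Topology

namespace WND

open NUP1 NUP1.Leg
open NUTP (th ea)
open NUTP.Gas (gasF)
open NUP1.N (Ln UD RD Fm E11 Bx OnL LnAB)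

variable {m : ℕ}

/-- **`RE` at any `χ`, equal heights of the rows and the ends.** -/
theorem RE_tendstoZ (χ : ℂ) {ι : Type*} {F : Filter ι} [F.IsCountablyGenerated] {a b R : ℝ}
    (ha : a = 31 / 50 ∨ a = 5 / 4) (hb : 1 < b) (hb' : b ≤ 4 / 3)
    {p h q g : ι → ℂ} {x y : ι → Fin m → ℂ} {p0 h0 q0 g0 : ℂ} {x0 y0 : Fin m → ℂ}
    (H : ∀ᶠ e in F, Ht (p e) (h e) (q e) (g e) (x e) (y e))
    (B1 : ∀ᶠ e in F, Bx R (p e)) (B2 : ∀ᶠ e in F, Bx R (h e)) (B3 : ∀ᶠ e in F, Bx R (q e))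
    (B4 : ∀ᶠ e in F, Bx R (g e)) (B5 : ∀ᶠ e in F, ∀ i, Bx R (x e i))
    (B6 : ∀ᶠ e in F, ∀ i, Bx R (y e i))
    (b1 : Bx R p0) (b2 : Bx R h0) (b3 : Bx R q0) (b4 : Bx R g0) (b5 : ∀ i, Bx R (x0 i))
    (b6 : ∀ i, Bx R (y0 i))
    (t1 : Tendsto p F (𝓝 p0)) (t2 : Tendsto h F (𝓝 h0)) (t3 : Tendsto q F (𝓝 q0))
    (t4 : Tendsto g F (𝓝 g0)) (t5 : ∀ i, Tendsto (fun e => x e i) F (𝓝 (x0 i)))
    (t6 : ∀ i, Tendsto (fun e => y e i) F (𝓝 (y0 i))) :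
    Tendsto (fun e => (gasF th χ true (ea (-(q e))) (ea (-(g e)))).RE
      (List.ofFn fun i => ea (-(x e i))) (List.ofFn fun j => ea (-(y e j))) (ea (-(p e)))
      (ea (-(h e)))) F
    (𝓝 (sin l * (Bp h0 q0 x0 * Bp g0 p0 y0) * ∑ n ∈ Finset.range (2 * m + 1),
      χ ^ (2 * (n : ℤ) - 2 * (m : ℤ)) *
      E11 (3 / 5 * l) (-(17 / 10) * l) h0 g0 x0 y0 (hC b (cc m) h0 p0 g0 q0 x0 y0)
        (hC b (cc m) g0 q0 h0 p0 y0 x0) n n (a * l) (-(11 / 4) * l))) := by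
  have hl := lpos
  have L := NUP1.N.Ln_start ha
  have hb0 : 0 < b := by linarith
  -- the lines
  have hline : ∀ z : ℂ, (OnL (3 / 5 * l) (-(17 / 10) * l) z.re ∨
      z.re = -(11 / 4) * l + 3 * l) → z.re ∈ K4 := by
    intro z hz
    simp only [K4, Set.mem_insert_iff, Set.mem_singleton_iff]
    rcases hz with (hz | hz | hz) | hz
    · exact Or.inl hz
    · exact Or.inr (Or.inl hz)
    · exact Or.inr (Or.inr (Or.inl hz))
    · exact Or.inr (Or.inr (Or.inr (by rw [hz]; ring)))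
  obtain ⟨D, hD, bD⟩ := bd_hC Kok_K4 hb0 hb' (cc m) m m R
  have hκ : (2 * b + m - 2 * m : ℝ) = 2 * b - m := by ring
  have bD' : ∀ {r o r' o' : ℂ} {x y : Fin m → ℂ}, Bx R r → Bx R o → Bx R r' → Bx R o' →
      (∀ i, Bx R (x i)) → (∀ i, Bx R (y i)) → ∀ z : ℂ,
      (OnL (3 / 5 * l) (-(17 / 10) * l) z.re ∨ z.re = -(11 / 4) * l + 3 * l) →
      ‖hC b (cc m) r o r' o' x y z‖ ≤ D * Real.exp (-((2 * b - m) * |z.im|)) := by
    intro r o r' o' x y h1 h2 h3 h4 h5 h6 z hz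
    have := bD r o r' o' x y h1 h2 h3 h4 h5 h6 z (hline z hz)
    rwa [hκ] at this
  -- the family
  have hF : Fm F (3 / 5 * l) (-(17 / 10) * l) (-(11 / 4) * l) (max D D) (2 * b - m) R h g x y
      (fun e => hC b (cc m) (h e) (p e) (g e) (q e) (x e) (y e))
      (fun e => hC b (cc m) (g e) (q e) (h e) (p e) (y e) (x e)) h0 g0 x0 y0
      (hC b (cc m) h0 p0 g0 q0 x0 y0) (hC b (cc m) g0 q0 h0 p0 y0 x0) := by
    refine ⟨?_, b2, b4, b5, b6, t2, t4, t5, t6, fun z hz => ?_, fun z hz => ?_⟩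
    · filter_upwards [B1, B2, B3, B4, B5, B6] with e k1 k2 k3 k4 k5 k6
      exact UD_hC (cc m) k2 k4 k5 k6 (fun z hz => bD' k2 k1 k4 k3 k5 k6 z hz)
        fun z hz => bD' k4 k3 k2 k1 k6 k5 z hz
    · exact tendsto_hC Kok_K4 (hline z hz) hb0 hb' (cc m) t2 t1 t4 t3 t5 t6 b2.1 b3.1
        fun i => (b5 i).1
    · exact tendsto_hC Kok_K4 (hline z hz) hb0 hb' (cc m) t4 t3 t2 t1 t6 t5 b4.1 b1.1
        fun i => (b6 i).1
  have hK : 2 < (2 * b - m : ℝ) + m := by linarith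
  -- the limit of the integrals
  have hlim : Tendsto (fun e => sin l * (Bp (h e) (q e) (x e) * Bp (g e) (p e) (y e)) *
      ∑ n ∈ Finset.range (2 * m + 1), χ ^ (2 * (n : ℤ) - 2 * (m : ℤ)) *
        E11 (3 / 5 * l) (-(17 / 10) * l) (h e) (g e) (x e) (y e)
        (hC b (cc m) (h e) (p e) (g e) (q e) (x e) (y e))
        (hC b (cc m) (g e) (q e) (h e) (p e) (y e) (x e)) n n (a * l) (-(11 / 4) * l)) F
      (𝓝 (sin l * (Bp h0 q0 x0 * Bp g0 p0 y0) * ∑ n ∈ Finset.range (2 * m + 1),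
        χ ^ (2 * (n : ℤ) - 2 * (m : ℤ)) *
        E11 (3 / 5 * l) (-(17 / 10) * l) h0 g0 x0 y0 (hC b (cc m) h0 p0 g0 q0 x0 y0)
          (hC b (cc m) g0 q0 h0 p0 y0 x0) n n (a * l) (-(11 / 4) * l))) :=
    (tendsto_const_nhds.mul ((tendsto_Bp t2 t3 t5).mul (tendsto_Bp t4 t1 t6))).mul
      (tendsto_finsetSum _ fun n _ => tendsto_const_nhds.mul (NUP1.N.E11_tendsto L hF hK n))
  refine hlim.congr' ?_
  filter_upwards [H, B1, B2, B3, B4, B5, B6] with e He k1 k2 k3 k4 k5 k6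
  have hRp : Rp (h e) (g e) (x e) (y e) := ⟨k2.1, k4.1, fun i => (k5 i).1, fun i => (k6 i).1⟩
  rw [RE_LLZ χ He hRp le_rfl L.a3 L.a4 L.b4 L.b5 L.d1 L.d2]
  congr 1
  refine Finset.sum_congr rfl fun n _ => ?_
  congr 1
  rw [Nat.sub_self, add_zero, ← LegJ_hC b]
  refine (NUP1.N.LegJ_E11 L (κ := 2 * b - m) ?_ (κ₀ := 2 * b - m) (R := R) (D := max D D) ?_
    hK).symm
  · have := RD_hC (R := R) (α := 3 / 5 * l) (β := -(17 / 10) * l) (b := b) (by linarith)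
      (by linarith) (by linarith) (by linarith) hb0 hb' (cc m) (cc m) k2 k1 k4 k3 k4 k3 k2 k1 k5
      k6 He.xx He.yy (n := n) (n' := n) rfl
    rwa [hκ] at this
  · exact UD_hC (cc m) k2 k4 k5 k6 (fun z hz => bD' k2 k1 k4 k3 k5 k6 z hz)
      fun z hz => bD' k4 k3 k2 k1 k6 k5 z hz

end WND

end
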