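import Pool.Agent.WND.GasS
import Pool.Agent.NUP1L.Link6
import Pool.Agent.NUP1L.LegFin

/-!
# The two-point function `RE` of the gas at any `χ`

`RE_LLZ` : as `NUP1.Leg.RE_LL`, with the factor `χ ^ (2 n' - 2 M)` for `n'` quanta of the second world.
-/

set_option autoImplicit false
set_option linter.unusedSectionVars false

noncomputable section

open Complex Finset

namespace WND

open NUP1 NUP1.Leg
open NUTP (th ea)
open NUTP.Gas (gasF)

variable {m M : ℕ} {A B α β : ℝ}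

/-- **`RE` at any `χ` as a sum over the states of the rows and the marks.** -/
theorem RE_stateZ (χ : ℂ) {p h q g : ℂ} {x : Fin m → ℂ} {y : Fin M → ℂ}
    (gx : ∀ i j, i ≠ j → Gz (x i - x j)) (gy : ∀ i j, i ≠ j → Gz (y i - y j))
    (gg : ∀ α β, Gz (oz h x α - oz g y β)) (g1 : ∀ i, Gz (h - x i)) (g2 : ∀ i, Gz (q - x i))
    (g3 : ∀ j, Gz (g - y j)) (g4 : ∀ j, Gz (p - y j)) :
    (gasF th χ true (ea (-q)) (ea (-g))).RE (List.ofFn fun i => ea (-x i))
      (List.ofFn fun j => ea (-y j)) (ea (-p)) (ea (-h)) =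
    sin l * (Bp h q x * Bp g p y) * ∑ a : Fin m → SignType, ∑ b : Fin M → SignType,
      if ∑ i, nq (a i) + M = ∑ j, nq (b j) + m then
        χ ^ (2 * ((∑ j, nq (b j) : ℕ) : ℤ) - 2 * (M : ℤ)) *
        (sta x (hE (cc m) h p g q x y) a * sta y (hE (cc M) g q h p y x) b * crq x y a b *
          MS h g x y a b) else 0 := by
  rw [NUTP.Gas.RE_eq NUTP.th8]
  have e : ∀ z : ℂ, (ea (-z))⁻¹ = ea z := fun z => by rw [← NUTP.ea_neg, neg_neg]
  have el : ∀ {k : ℕ} (z : Fin k → ℂ), ((List.ofFn fun i => ea (-z i)).map fun x => x⁻¹) =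
      List.ofFn fun i => ea (z i) := by
    intro k z
    rw [List.map_ofFn]
    congr 1
    funext i
    exact e _
  rw [e, e, e, e, el, el, gas_stateZ χ⁻¹ gx gy gg g1 g2 g3 g4]
  have ex : ∀ n : ℕ, χ⁻¹ ^ (2 * (M : ℤ) - 2 * (n : ℤ)) = χ ^ (2 * (n : ℤ) - 2 * (M : ℤ)) := by
    intro n
    rw [inv_zpow', neg_sub]
  simp only [ex]

/-- **`RE` at any `χ` as integrals over the lines of the half quanta.** -/
theorem RE_legZ (χ : ℂ) {p h q g : ℂ} {x : Fin m → ℂ} {y : Fin M → ℂ} (H : Ht p h q g x y)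
    (R : Rp h g x y) (hmM : M ≤ m) (hα1 : 1 / 2 * l < α) (hα2 : α < 3 / 2 * l)
    (hβ1 : -(9 / 2 * l) < β) (hβ2 : β < -(3 / 2 * l)) (h3 : 3 * l < α - β)
    (h5 : α - β < 5 * l) :
    (gasF th χ true (ea (-q)) (ea (-g))).RE (List.ofFn fun i => ea (-x i))
      (List.ofFn fun j => ea (-y j)) (ea (-p)) (ea (-h)) =
    sin l * (Bp h q x * Bp g p y) * ∑ n' ∈ Finset.range (2 * M + 1),
      χ ^ (2 * (n' : ℤ) - 2 * (M : ℤ)) *
      LegI α β h g (hE (cc m) h p g q x y) (hE (cc M) g q h p y x) x y (n' + (m - M)) n' := by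
  rw [RE_stateZ χ (fun i j hij => Gz_sub (H.xx i j hij)) (fun i j hij => Gz_sub (H.yy i j hij))
    (fun α β => by
      rcases α with _ | i <;> rcases β with _ | j
      · exact Gz_sub H.hg
      · exact Gz_sub (H.hy j)
      · exact Gz_sub fun h => H.gx i h.symm
      · exact Gz_sub (H.xy i j))
    (fun i => Gz_sub (H.hx i)) (fun i => Gz_sub (H.qx i)) (fun j => Gz_sub (H.gy j))
    (fun j => Gz_sub (H.py j))]
  congr 1
  rw [sum_group _ hmM]
  refine Finset.sum_congr rfl fun n' _ => ?_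
  rw [← legI_eq H R _ _ hα1 hα2 hβ1 hβ2 h3 h5 (by omega), Finset.mul_sum]
  refine Finset.sum_congr rfl fun a _ => ?_
  rw [Finset.mul_sum]
  refine Finset.sum_congr rfl fun b hb => ?_
  have hb2 : ∑ j, nq (b j) = n' := (Finset.mem_filter.1 hb).2
  rw [hb2]

/-- **`RE` at any `χ` as double line integrals.** -/
theorem RE_LLZ (χ : ℂ) {p h q g : ℂ} {x : Fin m → ℂ} {y : Fin M → ℂ} (H : Ht p h q g x y)
    (R : Rp h g x y) (hmM : M ≤ m) (hα1 : 1 / 2 * l < A) (hα2 : A < 3 / 2 * l)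
    (hβ1 : -(9 / 2 * l) < B) (hβ2 : B < -(3 / 2 * l)) (h3 : 3 * l < A - B)
    (h5 : A - B < 5 * l) :
    (gasF th χ true (ea (-q)) (ea (-g))).RE (List.ofFn fun i => ea (-x i))
      (List.ofFn fun j => ea (-y j)) (ea (-p)) (ea (-h)) =
    sin l * (Bp h q x * Bp g p y) * ∑ n' ∈ Finset.range (2 * M + 1),
      χ ^ (2 * (n' : ℤ) - 2 * (M : ℤ)) *
      LegJ A B h g x y (hE (cc m) h p g q x y) (hE (cc M) g q h p y x) (n' + (m - M)) n' := by
  rw [RE_legZ χ H R hmM hα1 hα2 hβ1 hβ2 h3 h5]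
  congr 1
  refine Finset.sum_congr rfl fun n' _ => ?_
  rw [← legJ_eq H R _ _ hα1 hα2 hβ1 hβ2 h3 h5 (by omega),
    legI_eq H R _ _ hα1 hα2 hβ1 hβ2 h3 h5 (by omega)]

end WND

end
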