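import Pool.Agent.PB.SeqL
import Pool.Agent.PV.SeqV

/-!
# Plan W: the scalar sequence lemmas, uniform in an index (helper12)

* `seq_smallW`: `g i (j + 2) (1 + θ / j) ≤ g i j + C j^(-(1+c))`, `2 c < θ`, `g i j ≤ C₀ j^e`:
  `g i j ≤ B j^(-c)`, one `B`;
* `seq_powW`: `‖b i (j + 1) (1 + ν i / j) - b i j‖ ≤ C j^(-(1+c))`, `‖b i (j + 1)‖ ≤ C j^e`,
  `0 ≤ ν i ≤ ν₀ < c`: `‖b i j - g i j^(-ν i)‖ ≤ C' j^(-c)`, one `C'`.
-/

set_option autoImplicit false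

open Filter Topology

namespace WNDF

variable {ι : Type*}

/-- **decay of a mode, uniform in the index** -/
theorem seq_smallW {g : ι → ℕ → ℝ} {θ c C C0 e : ℝ} (hc : 0 ≤ c) (hθ : 2 * c < θ)
    (hg : ∀ᶠ j : ℕ in atTop, ∀ i, g i j ≤ C0 * (j : ℝ) ^ e)
    (h : ∀ᶠ j : ℕ in atTop, ∀ i, g i (j + 2) * (1 + θ / j) ≤ g i j + C * (j : ℝ) ^ (-(1 + c))) :
    ∃ B : ℝ, 0 ≤ B ∧ ∀ᶠ j : ℕ in atTop, ∀ i, g i j ≤ B * (j : ℝ) ^ (-c) := by
  have hd : 0 < (θ - 2 * c) / 2 := by linarith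
  have hlim : Tendsto (fun j : ℕ => 2 * c * θ / (j : ℝ)) atTop (nhds 0) :=
    tendsto_const_div_atTop_nhds_zero_nat _
  have h1 : ∀ᶠ j : ℕ in atTop, 2 * c * θ / (j : ℝ) ≤ (θ - 2 * c) / 2 := hlim.eventually_le_const hd
  obtain ⟨J, hJ⟩ := eventually_atTop.1 (((h.and h1).and (eventually_ge_atTop 1)).and hg)
  set B : ℝ := max (max (C0 * (J : ℝ) ^ e * (J : ℝ) ^ c)
    (C0 * ((J + 1 : ℕ) : ℝ) ^ e * ((J + 1 : ℕ) : ℝ) ^ c)) (|C| / ((θ - 2 * c) / 2)) with hB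
  have hB2 : |C| / ((θ - 2 * c) / 2) ≤ B := le_max_right _ _
  have hB0 : 0 ≤ B := le_trans (by positivity) hB2
  have hBC : C ≤ B * ((θ - 2 * c) / 2) := by
    rw [div_le_iff₀ hd] at hB2
    exact (le_abs_self C).trans hB2
  have base : ∀ (i : ι) (m : ℕ), 1 ≤ m → g i m ≤ C0 * (m : ℝ) ^ e → C0 * (m : ℝ) ^ e * (m : ℝ) ^ c ≤ B →
      g i m ≤ B * (m : ℝ) ^ (-c) := by
    intro i m hm hg1 hh
    have hi0 : (0 : ℝ) < m := by exact_mod_cast hm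
    have hp : (0 : ℝ) < (m : ℝ) ^ c := Real.rpow_pos_of_pos hi0 _
    rw [Real.rpow_neg hi0.le, ← div_eq_mul_inv, le_div_iff₀ hp]
    exact (mul_le_mul_of_nonneg_right hg1 hp.le).trans hh
  have hJ1 : 1 ≤ J := (hJ J le_rfl).1.2
  refine ⟨B, hB0, eventually_atTop.2 ⟨J, fun j hj i => ?_⟩⟩
  have key : ∀ n : ℕ, g i (J + n) ≤ B * ((J + n : ℕ) : ℝ) ^ (-c) ∧
      g i (J + n + 1) ≤ B * ((J + n + 1 : ℕ) : ℝ) ^ (-c) := by
    intro n
    induction n with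
    | zero =>
      refine ⟨?_, ?_⟩
      · rw [Nat.add_zero]
        exact base i J hJ1 ((hJ J le_rfl).2 i) ((le_max_left _ _).trans (le_max_left _ _))
      · rw [Nat.add_zero]
        exact base i (J + 1) (by omega) ((hJ (J + 1) (by omega)).2 i)
          ((le_max_right _ _).trans (le_max_left _ _))
    | succ n ih =>
      refine ⟨by rw [← Nat.add_assoc]; exact ih.2, ?_⟩
      obtain ⟨⟨⟨a1, a2⟩, a3⟩, -⟩ := hJ (J + n) (by omega)
      have hx : (0 : ℝ) < ((J + n : ℕ) : ℝ) := by exact_mod_cast a3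
      have := Pool.Agent.PB.Rec.seq_step hx hc hθ hB0 a2 hBC (a1 i) ih.1
      have e : ((J + (n + 1) + 1 : ℕ) : ℝ) = ((J + n : ℕ) : ℝ) + 2 := by
        push_cast
        ring
      rw [e, show J + (n + 1) + 1 = J + n + 2 by ring]
      exact this
  obtain ⟨n, rfl⟩ := Nat.exists_eq_add_of_le hj
  exact (key n).1

/-- limit with a rate, explicit constant -/
theorem seq_lim1 {E : Type*} [NormedAddCommGroup E] [CompleteSpace E] {G : ℕ → E} {c C : ℝ} {J : ℕ}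
    (hc : 0 < c) (hJ : 1 ≤ J) (h : ∀ j ≥ J, ‖G (j + 1) - G j‖ ≤ C * (j : ℝ) ^ (-(1 + c))) :
    ∃ g : E, ∀ j ≥ J, ‖G j - g‖ ≤ |C| / (c * (2 : ℝ) ^ (-(1 + c))) * (j : ℝ) ^ (-c) := by
  set κ : ℝ := c * (2 : ℝ) ^ (-(1 + c)) with hκ
  have hκ0 : 0 < κ := by positivity
  set D : ℝ := |C| / κ with hD
  have hD0 : 0 ≤ D := by positivity
  set H : ℕ → ℝ := fun j => D * (j : ℝ) ^ (-c) with hH
  have hstep : ∀ j ≥ J, ‖G (j + 1) - G j‖ ≤ H j - H (j + 1) := by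
    intro j hj
    have h1 := h j hj
    have hj1 : (1 : ℝ) ≤ j := by exact_mod_cast hJ.trans hj
    have h3 := PVF.rpow_tele hj1 hc
    have h4 : C * (j : ℝ) ^ (-(1 + c)) ≤ D * (κ * (j : ℝ) ^ (-(1 + c))) := by
      have e : D * (κ * (j : ℝ) ^ (-(1 + c))) = |C| * (j : ℝ) ^ (-(1 + c)) := by
        rw [hD, ← mul_assoc, div_mul_cancel₀ _ hκ0.ne']
      rw [e]
      have : 0 ≤ (j : ℝ) ^ (-(1 + c)) := by positivity
      gcongr
      exact le_abs_self C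
    have h5 : D * (κ * (j : ℝ) ^ (-(1 + c))) ≤ D * ((j : ℝ) ^ (-c) - ((j : ℝ) + 1) ^ (-c)) :=
      mul_le_mul_of_nonneg_left h3 hD0
    refine h1.trans (h4.trans (h5.trans (le_of_eq ?_)))
    simp only [hH]
    push_cast
    ring
  have htele : ∀ j ≥ J, ∀ n : ℕ, ‖G (j + n) - G j‖ ≤ H j - H (j + n) := by
    intro j hj n
    induction n with
    | zero => simp
    | succ n ih =>
      have h1 := hstep (j + n) (by omega)
      have e : G (j + (n + 1)) - G j = (G (j + n + 1) - G (j + n)) + (G (j + n) - G j) := by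
        rw [← Nat.add_assoc]
        abel
      rw [e]
      refine (norm_add_le _ _).trans ?_
      rw [← Nat.add_assoc]
      linarith
  have hH0 : ∀ j, 0 ≤ H j := fun j => by positivity
  have hHlim : Tendsto H atTop (𝓝 0) := by
    have h1 := ((tendsto_rpow_neg_atTop hc).comp tendsto_natCast_atTop_atTop).const_mul D
    rw [mul_zero] at h1
    exact h1
  have hcau : CauchySeq (fun n => G (J + n)) := by
    refine cauchySeq_of_le_tendsto_0' (fun n => H (J + n)) ?_ ?_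
    · intro n m hnm
      obtain ⟨k, rfl⟩ := Nat.exists_eq_add_of_le hnm
      have := htele (J + n) (by omega) k
      rw [dist_comm, dist_eq_norm, ← Nat.add_assoc]
      linarith [hH0 (J + n + k)]
    · have h1 : Tendsto (fun n => H (n + J)) atTop (𝓝 0) := (tendsto_add_atTop_iff_nat J).2 hHlim
      refine h1.congr fun n => ?_
      rw [Nat.add_comm]
  obtain ⟨g, hg⟩ := cauchySeq_tendsto_of_complete hcau
  refine ⟨g, fun j hj => ?_⟩
  obtain ⟨m, rfl⟩ := Nat.exists_eq_add_of_le hj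
  have h1 : Tendsto (fun n => ‖G (J + m + n) - G (J + m)‖) atTop (𝓝 ‖g - G (J + m)‖) := by
    have h2 : Tendsto (fun n => G (J + (n + m))) atTop (𝓝 g) := (tendsto_add_atTop_iff_nat m).2 hg
    refine ((h2.congr fun n => ?_).sub_const _).norm
    rw [Nat.add_comm n m, Nat.add_assoc]
  rw [norm_sub_rev]
  refine le_of_tendsto' h1 fun n => (htele (J + m) (by omega) n).trans ?_
  have := hH0 (J + m + n)
  have e : H (J + m) = D * ((J + m : ℕ) : ℝ) ^ (-c) := rfl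
  linarith

/-- **limit with a rate, uniform in the index** -/
theorem seq_limW {E : Type*} [NormedAddCommGroup E] [CompleteSpace E] {G : ι → ℕ → E} {c : ι → ℝ}
    {c0 C : ℝ} (hc0 : 0 < c0) (hc : ∀ i, c0 ≤ c i) (hc1 : ∀ i, c i ≤ 1)
    (h : ∀ᶠ j : ℕ in atTop, ∀ i, ‖G i (j + 1) - G i j‖ ≤ C * (j : ℝ) ^ (-(1 + c i))) :
    ∃ (g : ι → E) (C' : ℝ), 0 ≤ C' ∧ ∀ᶠ j : ℕ in atTop, ∀ i, ‖G i j - g i‖ ≤ C' * (j : ℝ) ^ (-(c i)) := by
  obtain ⟨J, hJ⟩ := eventually_atTop.1 (h.and (eventually_ge_atTop 1))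
  have h1 : ∀ i, ∃ g : E, ∀ j ≥ J, ‖G i j - g‖ ≤
      |C| / (c i * (2 : ℝ) ^ (-(1 + c i))) * (j : ℝ) ^ (-(c i)) := fun i =>
    seq_lim1 (hc0.trans_le (hc i)) (hJ J le_rfl).2 fun j hj => (hJ j hj).1 i
  choose g hg using h1
  refine ⟨g, |C| / (c0 / 4), by positivity, eventually_atTop.2 ⟨J, fun j hj i => (hg i j hj).trans ?_⟩⟩
  have h2 : c0 / 4 ≤ c i * (2 : ℝ) ^ (-(1 + c i)) := by
    have h3 : (2 : ℝ) ^ (-2 : ℝ) ≤ (2 : ℝ) ^ (-(1 + c i)) :=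
      Real.rpow_le_rpow_of_exponent_le (by norm_num) (by linarith [hc1 i])
    have h4 : (2 : ℝ) ^ (-2 : ℝ) = 1 / 4 := by
      rw [Real.rpow_neg (by norm_num)]
      norm_num
    rw [h4] at h3
    calc c0 / 4 = c0 * (1 / 4) := by ring
      _ ≤ _ := mul_le_mul (hc i) h3 (by norm_num) (hc0.le.trans (hc i))
  have h5 : 0 ≤ (j : ℝ) ^ (-(c i)) := by positivity
  gcongr

/-- the second order error of the power -/
theorem pow_stepW {x ν : ℝ} (hx : 1 ≤ x) (hν : 0 ≤ ν) (hν1 : ν ≤ 1) :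
    |(x + 1) ^ ν - (1 + ν / x) * x ^ ν| ≤ 2 * x ^ (ν - 2) := by
  have hx0 : 0 < x := by linarith
  set y : ℝ := 1 / x with hy
  have hy0 : 0 < y := by positivity
  have hy1 : y ≤ 1 := by rw [hy, div_le_one hx0]; exact hx
  have e1 : (x + 1) ^ ν = x ^ ν * (1 + y) ^ ν := by
    rw [← Real.mul_rpow hx0.le (by positivity)]
    congr 1
    rw [hy]
    field_simp
  have e2 : x ^ (ν - 2) = x ^ ν * y ^ 2 := by
    rw [Real.rpow_sub hx0, hy]
    norm_num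
    rfl
  have e3 : (x + 1) ^ ν - (1 + ν / x) * x ^ ν = x ^ ν * ((1 + y) ^ ν - (1 + ν * y)) := by
    rw [e1, hy]
    ring
  have hp : 0 < x ^ ν := Real.rpow_pos_of_pos hx0 _
  rw [e3, abs_mul, abs_of_pos hp, e2]
  have h4 : |(1 + y) ^ ν - (1 + ν * y)| ≤ 2 * y ^ 2 := by
    have hl : 0 < 1 + y := by linarith
    set u : ℝ := ν * Real.log (1 + y) with hu
    have hlog1 : Real.log (1 + y) ≤ y := by
      have := Real.log_le_sub_one_of_pos hl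
      linarith
    have hlog0 : 0 ≤ Real.log (1 + y) := Real.log_nonneg (by linarith)
    have hlog2 : y - y ^ 2 ≤ Real.log (1 + y) := by
      have h5 := Real.one_sub_inv_le_log_of_pos hl
      have h6 : y - y ^ 2 ≤ 1 - (1 + y)⁻¹ := by
        have h7 : 1 - (1 + y)⁻¹ - (y - y ^ 2) = y ^ 3 / (1 + y) := by
          field_simp
          ring
        have : 0 ≤ y ^ 3 / (1 + y) := by positivity
        linarith
      linarith
    have hu0 : 0 ≤ u := by positivity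
    have huy : u ≤ y := by
      rw [hu]
      nlinarith
    have e4 : (1 + y) ^ ν = Real.exp u := by
      rw [Real.rpow_def_of_pos hl, hu]
      congr 1
      ring
    have h8 : |Real.exp u - 1 - u| ≤ u ^ 2 := Real.abs_exp_sub_one_sub_id_le (by
      rw [abs_of_nonneg hu0]
      linarith)
    have h9 : |u - ν * y| ≤ y ^ 2 := by
      rw [abs_le]
      constructor
      · have : ν * (y - y ^ 2) ≤ u := mul_le_mul_of_nonneg_left hlog2 hν
        nlinarith [sq_nonneg y]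
      · have : u ≤ ν * y := mul_le_mul_of_nonneg_left hlog1 hν
        nlinarith [sq_nonneg y]
    have h10 : u ^ 2 ≤ y ^ 2 := by nlinarith
    rw [e4]
    have e5 : Real.exp u - (1 + ν * y) = (Real.exp u - 1 - u) + (u - ν * y) := by ring
    rw [e5]
    refine (abs_add_le _ _).trans ?_
    linarith
  nlinarith

/-- **the power law with a rate, uniform in the index** -/
theorem seq_powW {b : ι → ℕ → ℂ} {ν : ι → ℝ} {ν0 c e C : ℝ} (hν : ∀ i, 0 ≤ ν i) (hν0 : ∀ i, ν i ≤ ν0)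
    (hc : ν0 < c) (hc1 : c ≤ 1) (he : e ≤ 1 - c)
    (h : ∀ᶠ j : ℕ in atTop, ∀ i, ‖b i (j + 1) * (1 + ((ν i / j : ℝ) : ℂ)) - b i j‖ ≤
      C * (j : ℝ) ^ (-(1 + c)))
    (hb : ∀ᶠ j : ℕ in atTop, ∀ i, ‖b i (j + 1)‖ ≤ C * (j : ℝ) ^ e) :
    ∃ (g : ι → ℂ) (C' : ℝ), 0 ≤ C' ∧ ∀ᶠ j : ℕ in atTop, ∀ i,
      ‖b i j - g i * (((j : ℝ) ^ (-ν i) : ℝ) : ℂ)‖ ≤ C' * (j : ℝ) ^ (-c) := by
  have hlim := seq_limW (G := fun i j => b i j * (((j : ℝ) ^ (ν i) : ℝ) : ℂ)) (c := fun i => c - ν i)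
    (c0 := c - ν0) (C := 2 * |C| + |C|) (by linarith) (fun i => by linarith [hν0 i])
    (fun i => by linarith [hν i]) (by
    filter_upwards [h, hb, eventually_ge_atTop 1] with j h1 h2 h3 i
    have hj1 : (1 : ℝ) ≤ j := by exact_mod_cast h3
    have hj0 : (0 : ℝ) < j := by linarith
    have e1 : b i (j + 1) * ((((j + 1 : ℕ) : ℝ) ^ (ν i) : ℝ) : ℂ) - b i j * (((j : ℝ) ^ (ν i) : ℝ) : ℂ) =
        b i (j + 1) * ((((j : ℝ) + 1) ^ (ν i) - (1 + ν i / j) * (j : ℝ) ^ (ν i) : ℝ) : ℂ) +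
        (b i (j + 1) * (1 + ((ν i / j : ℝ) : ℂ)) - b i j) * (((j : ℝ) ^ (ν i) : ℝ) : ℂ) := by
      push_cast
      ring
    rw [e1]
    refine (norm_add_le _ _).trans ?_
    rw [norm_mul, norm_mul, Complex.norm_real, Complex.norm_real, Real.norm_eq_abs, Real.norm_eq_abs,
      abs_of_pos (Real.rpow_pos_of_pos hj0 (ν i))]
    have h4 := pow_stepW hj1 (hν i) (by linarith [hν0 i])
    have hC : C ≤ |C| := le_abs_self C
    have g1 : ‖b i (j + 1)‖ * |((j : ℝ) + 1) ^ (ν i) - (1 + ν i / j) * (j : ℝ) ^ (ν i)| ≤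
        (|C| * (j : ℝ) ^ e) * (2 * (j : ℝ) ^ (ν i - 2)) := by
      have h5 : ‖b i (j + 1)‖ ≤ |C| * (j : ℝ) ^ e := (h2 i).trans (by gcongr)
      gcongr
    have g2 : ‖b i (j + 1) * (1 + ((ν i / j : ℝ) : ℂ)) - b i j‖ * (j : ℝ) ^ (ν i) ≤
        (|C| * (j : ℝ) ^ (-(1 + c))) * (j : ℝ) ^ (ν i) := by
      have h5 : ‖b i (j + 1) * (1 + ((ν i / j : ℝ) : ℂ)) - b i j‖ ≤ |C| * (j : ℝ) ^ (-(1 + c)) :=
        (h1 i).trans (by gcongr)
      gcongr
    have g3 : (j : ℝ) ^ e * (j : ℝ) ^ (ν i - 2) ≤ (j : ℝ) ^ (-(1 + (c - ν i))) := by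
      rw [← Real.rpow_add hj0]
      exact Real.rpow_le_rpow_of_exponent_le hj1 (by linarith)
    have g4 : (j : ℝ) ^ (-(1 + c)) * (j : ℝ) ^ (ν i) = (j : ℝ) ^ (-(1 + (c - ν i))) := by
      rw [← Real.rpow_add hj0]
      congr 1
      ring
    have g5 : (|C| * (j : ℝ) ^ e) * (2 * (j : ℝ) ^ (ν i - 2)) ≤ 2 * |C| * (j : ℝ) ^ (-(1 + (c - ν i))) := by
      calc _ = 2 * |C| * ((j : ℝ) ^ e * (j : ℝ) ^ (ν i - 2)) := by ring
        _ ≤ _ := by gcongr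
    have g6 : (|C| * (j : ℝ) ^ (-(1 + c))) * (j : ℝ) ^ (ν i) = |C| * (j : ℝ) ^ (-(1 + (c - ν i))) := by
      rw [mul_assoc, g4]
    rw [g6] at g2
    linarith)
  obtain ⟨g, C', hC', hg⟩ := hlim
  refine ⟨g, C', hC', ?_⟩
  filter_upwards [hg, eventually_ge_atTop 1] with j h1 h3 i
  have hj1 : (1 : ℝ) ≤ j := by exact_mod_cast h3
  have hj0 : (0 : ℝ) < j := by linarith
  have hne : (j : ℝ) ^ (ν i) * (j : ℝ) ^ (-ν i) = 1 := by
    rw [← Real.rpow_add hj0, add_neg_cancel, Real.rpow_zero]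
  have e1 : b i j - g i * (((j : ℝ) ^ (-ν i) : ℝ) : ℂ) =
      (b i j * (((j : ℝ) ^ (ν i) : ℝ) : ℂ) - g i) * (((j : ℝ) ^ (-ν i) : ℝ) : ℂ) := by
    have : (((j : ℝ) ^ (ν i) : ℝ) : ℂ) * (((j : ℝ) ^ (-ν i) : ℝ) : ℂ) = 1 := by
      rw [← Complex.ofReal_mul, hne, Complex.ofReal_one]
    rw [sub_mul, mul_assoc, this, mul_one]
  rw [e1, norm_mul, Complex.norm_real, Real.norm_of_nonneg (by positivity)]
  have h5 := h1 i
  calc _ ≤ C' * (j : ℝ) ^ (-(c - ν i)) * (j : ℝ) ^ (-ν i) := by gcongr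
    _ = C' * (j : ℝ) ^ (-c) := by
      rw [mul_assoc, ← Real.rpow_add hj0]
      congr 2
      ring

end WNDF
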