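import Pool.Agent.WND.NetW
import Pool.Agent.WND.PGlft

/-!
# The rings of the two halves on the function of the cut are the words with the winding weight (plan W, W1c)
-/

set_option autoImplicit false

namespace Pool.Agent.WND

open Pool.Agent.NUF Pool.Agent Pool.Agent.NUU Pool.Agent.NUT2
open Pool.Agent.EXL hiding cc
open Pool.Agent.EXL.Pat Pool.Agent.EXL.Net HexObs HexObs.LP
open Pool.Agent.NUF.Cyl (Nm Cy pL A_inj)
open Pool.Agent.NUN (cc Xr Xl fr Fr fr_inj Om A_mem_Om)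
open Pool.Agent.NUNC
open Pool.Agent.MXR (XR XL prs rowI rowJ r0 rk)
open Pool.Agent.GLD (aW aW_inj rv_aW aW_mem_HA aW_notMem EB edg_EB mem_EB ed_inj_HA sorted0 two_k HB)

variable {N : ℕ}

theorem gd_map {α β : Type*} [DecidableEq α] [DecidableEq β] {κ : β → α} (hκ : Function.Injective κ)
    {L : List (β × β)} (h : Gd L) : Gd (L.map (Prod.map κ κ)) := by
  unfold Gd at h ⊢
  have e : (L.map (Prod.map κ κ)).map Prod.fst ++ (L.map (Prod.map κ κ)).map Prod.snd =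
      (L.map Prod.fst ++ L.map Prod.snd).map κ := by
    rw [List.map_append, List.map_map, List.map_map, List.map_map, List.map_map]
    rfl
  rw [e]
  exact h.map hκ

theorem gd_lnL {l : List (Fin N)} (hl : l.Nodup) {i j : Fin N} (hij : i ≠ j) (hi : i ∉ l) (hj : j ∉ l) :
    Gd ((lW 0 ((i : ℕ) : ℤ), lW 0 ((j : ℕ) : ℤ)) :: l.map lnL) := by
  have h := gd_map (fr_inj (N := N) (fun _ => 0) (fun _ => -1) false 0 0) (gd_prs hl hij hi hj)
  rw [List.map_cons, prs_lnL] at h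
  exact h

theorem lnS_aW (hN : 1 ≤ N) (l : List (Fin N)) :
    lnS (Cy N hN) (l.map fun a : Fin N => aW (a : ℕ)) = l.map lnL := by
  unfold lnS
  rw [List.map_map]
  refine List.map_congr_left fun a _ => ?_
  show (hf (aW (a : ℕ)), hf ((Cy N hN).rv (aW (a : ℕ)))) = lnL a
  rw [rv_aW hN a.2]
  rfl

theorem lE_ne_lW (r s : ℤ) : (lE (-1) r : Lab) ≠ lW 0 s := by
  intro e
  have h := congrArg Prod.snd (Sum.inl_injective e)
  exact absurd h (by show ¬ (((1, -1) : Pt) = ((-1, 1) : Pt)); decide)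

theorem lE_inj {r s : ℤ} (h : (lE (-1) r : Lab) = lE (-1) s) : r = s := by
  have h1 := congrArg Prod.fst (Sum.inl_injective h)
  exact (Cyl.B_inj.1 h1).2

theorem lW_inj {r s : ℤ} (h : (lW 0 r : Lab) = lW 0 s) : r = s := by
  have h1 := congrArg Prod.fst (Sum.inl_injective h)
  exact (A_inj.1 h1).2

variable {I J : List (Fin N)}

/-- the labels vanish off the right halves of the lines. -/
theorem cS_off {x : Lab} (h : ∀ a ∈ I ++ J, x ≠ lW 0 ((a : ℕ) : ℤ)) : cS (I.map lnL) (J.map lnL) x = 0 := by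
  refine cS_0 ?_ ?_
  · intro hx
    rw [List.map_map] at hx
    obtain ⟨a, ha, e⟩ := List.mem_map.1 hx
    exact h a (List.mem_append_right _ ha) e.symm
  · intro hx
    rw [List.map_map] at hx
    obtain ⟨a, ha, e⟩ := List.mem_map.1 hx
    exact h a (List.mem_append_left _ ha) e.symm

/-- the data of the network of the cylinder. -/
theorem nt_cyl (hN : 1 ≤ N) (m : ℕ) (hl : (I ++ J).Nodup) {i j : Fin N} (hij : i ≠ j) (hi : i ∉ I ++ J)
    (hj : j ∉ I ++ J) : Nt (Cy N hN) (cS (I.map lnL) (J.map lnL)) (aW (i : ℕ)) (aW (j : ℕ)) (EB m hN [])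
      ((I ++ J).map fun a : Fin N => aW (a : ℕ)) where
  ha := De_HA hN (aW_mem_HA (m := m) i.2)
  hb := De_HA hN (aW_mem_HA (m := m) j.2)
  ab e := hij (Fin.ext (aW_inj (ed_inj_HA (m := m) hN (aW_mem_HA i.2) (aW_mem_HA j.2) e)))
  hE := edg_EB m hN []
  hR h hh := by
    obtain ⟨a, -, rfl⟩ := List.mem_map.1 hh
    exact De_HA hN (aW_mem_HA (m := m) a.2)
  G := by
    rw [lnS_aW hN]
    obtain ⟨a1, a2, a3⟩ := Gd_cons.1 (gd_lnL hl hij hi hj)
    refine Gd_cons.2 ⟨by simp [aW], fun t ht => ?_, a3⟩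
    have h := a2 t ht
    obtain ⟨a, -, rfl⟩ := List.mem_map.1 ht
    exact ⟨by simp [lnL, lW], by simp [lnL, Net.lE], h.2.2.1, h.2.2.2⟩
  nE h hh := by
    obtain ⟨a, -, rfl⟩ := List.mem_map.1 hh
    exact aW_notMem hN (by simp)
  aE := aW_notMem hN (by simp)
  bE := aW_notMem hN (by simp)
  aR t ht := by
    rw [lnS_aW hN] at ht
    obtain ⟨a, ha, rfl⟩ := List.mem_map.1 ht
    rw [rv_aW hN i.2]
    refine ⟨lE_ne_lW _ _, fun e => hi ?_⟩
    have h1 : ((i : ℕ) : ℤ) = ((a : ℕ) : ℤ) := lE_inj e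
    rwa [Fin.ext (by exact_mod_cast h1 : (i : ℕ) = (a : ℕ))]
  bR t ht := by
    rw [lnS_aW hN] at ht
    obtain ⟨a, ha, rfl⟩ := List.mem_map.1 ht
    rw [rv_aW hN j.2]
    refine ⟨lE_ne_lW _ _, fun e => hj ?_⟩
    have h1 : ((j : ℕ) : ℤ) = ((a : ℕ) : ℤ) := lE_inj e
    rwa [Fin.ext (by exact_mod_cast h1 : (j : ℕ) = (a : ℕ))]
  l0 h hd hh := by
    have key : ∀ g : Pt × Pt, (Cy N hN).ed g ∈ EB m hN [] →
        cS (I.map lnL) (J.map lnL) (hf g : Lab) = 0 := by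
      intro g hg
      refine cS_off fun a _ e => ?_
      have e1 : g = aW (a : ℕ) := Sum.inl_injective e
      rw [e1] at hg
      exact aW_notMem hN (by simp) hg
    unfold lbh
    rw [key h hh, key _ (by rw [Nm.ed_rv hd.2]; exact hh), sub_zero]

/-- **The rings of the two halves on the function of the cut.** -/
theorem rings_gen {χ : ℂ} (hχ : χ ≠ 0) (x : ℂ) (hN : 1 ≤ N) {m : ℕ} (hm : 1 ≤ m) (hl : (I ++ J).Nodup)
    {i j : Fin N} (hij : i ≠ j) (hi : i ∉ I ++ J) (hj : j ∉ I ++ J) (hr : ∀ a, a ∉ I ++ J → a = i ∨ a = j) :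
    (NUG.ringF (fun _ => hexW x) cc dd (XR N))^[m] ((NUG.ringF (fun _ => hexW x) cc dd (XL N))^[m]
      (PG χ (cS (prs I) (prs J)) (Xr i) (Xr j) (prs I ++ prs J))) Pat.empty =
      WsW (Cy N hN) χ x (cS (I.map lnL) (J.map lnL)) (Om N m) {pL ((j : ℕ) : ℤ)} (pL ((i : ℕ) : ℤ)) := by
  set c : Lab → ℤ := cS (I.map lnL) (J.map lnL) with hc
  set G : Pat Lab → ℂ := PG χ c (lW 0 ((i : ℕ) : ℤ)) (lW 0 ((j : ℕ) : ℤ)) ((I ++ J).map lnL) with hG
  have t := tot_eq x N m G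
  have e : (fun q => G (Fr (fun _ => 0) (fun _ => -1) false 0 0 q)) =
      PG χ (cS (prs I) (prs J)) (Xr i) (Xr j) (prs I ++ prs J) := funext fun q => PG_Fr hl hij hi hj q
  rw [e] at t
  refine t.symm.trans ?_
  have s := sorted0 (K := ℂ) x hN (m := m) (l := []) List.nodup_nil G
  rw [List.map_nil, List.prod_nil, Module.End.one_apply] at s
  rw [s]
  have hNt := nt_cyl hN m hl hij hi hj
  have okA : ∀ w ∈ Om N m, ∀ d, (Cy N hN).De (w, d) → (w, d) ≠ aW (i : ℕ) →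
      Okh (Cy N hN) (aW (i : ℕ)) (aW (j : ℕ)) (EB m hN []) ((I ++ J).map fun a : Fin N => aW (a : ℕ)) (w, d) := by
    intro w hw d hd hne
    obtain ⟨h, hh, e1⟩ := mem_EA.1 (ed_mem_EA hN m w hw d hd)
    unfold HA at hh
    rcases List.mem_append.1 hh with hh | hh
    · refine Or.inr (Or.inr (Or.inr (Or.inl ?_)))
      rw [← e1]
      refine mem_EB.2 ⟨h, ?_, rfl⟩
      unfold HB
      rw [List.map_nil, List.append_nil]
      exact hh
    · obtain ⟨r, hr1, rfl⟩ := List.mem_map.1 hh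
      rw [List.mem_range] at hr1
      have hdA : (Cy N hN).De (aW r) := De_HA hN (aW_mem_HA (m := m) hr1)
      have e2 := (Nm.ed_eq (C := Cy N hN) (h := (w, d)) (k := aW r) hdA.2).1 e1.symm
      by_cases hrl : (⟨r, hr1⟩ : Fin N) ∈ I ++ J
      · have hmem : aW r ∈ (I ++ J).map fun a : Fin N => aW (a : ℕ) := List.mem_map.2 ⟨⟨r, hr1⟩, hrl, rfl⟩
        rcases e2 with e2 | e2
        · rw [e2]
          exact Or.inr (Or.inr (Or.inr (Or.inr (Or.inl hmem))))
        · rw [e2]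
          refine Or.inr (Or.inr (Or.inr (Or.inr (Or.inr ?_))))
          rw [Nm.rv_rv hdA.2]
          exact hmem
      · rcases hr _ hrl with h2 | h2
        · have h3 : r = (i : ℕ) := congrArg Fin.val h2
          rw [h3] at e2
          rcases e2 with e2 | e2
          · exact absurd e2 hne
          · exact Or.inr (Or.inr (Or.inl e2))
        · have h3 : r = (j : ℕ) := congrArg Fin.val h2
          rw [h3] at e2
          rcases e2 with e2 | e2
          · exact Or.inl e2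
          · exact Or.inr (Or.inl e2)
  have ci : ∀ s : Fin N, s ∉ I ++ J → c (hf (aW (s : ℕ))) = 0 := fun s hs => cS_off fun a ha e => by
    have h1 : ((s : ℕ) : ℤ) = ((a : ℕ) : ℤ) := lW_inj e
    exact hs (by rwa [Fin.ext (by exact_mod_cast h1 : (s : ℕ) = (a : ℕ))])
  have cr : c (hf ((Cy N hN).rv (aW (i : ℕ)))) = 0 := by
    rw [rv_aW hN i.2]
    exact cS_off fun a _ => lE_ne_lW _ _
  have cbe : c be = 0 := cS_off fun a _ => by simp [lW]
  have haR : ∀ t ∈ lnS (Cy N hN) ((I ++ J).map fun a : Fin N => aW (a : ℕ)),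
      (hf (aW (i : ℕ)) : Lab) ≠ t.1 ∧ (hf (aW (i : ℕ)) : Lab) ≠ t.2 := by
    intro t ht
    rw [lnS_aW hN] at ht
    have h := (Gd_cons.1 (gd_lnL hl hij hi hj)).2.1 t ht
    exact ⟨h.1, h.2.1⟩
  have key := two_cutW (x := x) (A := Om N m) hχ hNt (ci i hi) cr (ci j hj) cbe haR
    (A_mem_Om (by omega) (by omega) (by positivity) (by exact_mod_cast i.2)) okA
  rw [lnS_aW hN, rv_aW hN i.2, rv_aW hN j.2] at key
  exact key

/-- **W1c (d).** -/
theorem rings_W {χ : ℂ} (hχ : χ ≠ 0) {k : ℕ} (hk : 1 ≤ k) {m : ℕ} (hm : 1 ≤ m) :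
    (NUG.ringC cc dd (XR (2 * k)))^[m] ((NUG.ringC cc dd (XL (2 * k)))^[m]
      (PG χ (cS (prs (rowI k)) (prs (rowJ k))) (Xr (r0 hk)) (Xr (rk hk)) (prs (rowI k) ++ prs (rowJ k)))) Pat.empty =
      WmW χ hk m := by
  have hrest : ∀ a : Fin (2 * k), a ∉ rowI k ++ rowJ k → a = r0 hk ∨ a = rk hk := by
    intro a ha
    by_contra hc
    rw [not_or] at hc
    exact ha (((MXR.rest_rows hk).2 a).2 hc)
  exact rings_gen hχ (xc : ℂ) (two_k hk) hm (rowIJ_nodup k) (r0_ne_rk hk) (r0_notMem hk) (rk_notMem hk) hrest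

end Pool.Agent.WND
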