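import Pool.Agent.WND.Oth1T
import Pool.Agent.PB.Mst0
import Pool.Agent.PB.S4G0

/-!
# The tilted sum of the moduli of the eleven integrals, rows `0`, ends `0` (PLAN W+)

`sum_tot`: `∑ n, w n ‖tot n‖` from the weighted sums of the classes; **`sumT_fam`**, **`sumT`**: for every
`ε > 0` and every small `ep` there are `τ, C > 0` with
`∑ n ≤ 2 (k - 1), exp (τ |n - k|) ‖EED n‖ ≤ C k ^ ε exp (k ^ 2 EM)`.
-/

set_option autoImplicit false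
set_option linter.unusedSectionVars false

noncomputable section

open Complex MeasureTheory Finset Filter
open scoped ENNReal

namespace WNDT

open NUO NUP1 NUCR NUP1S NURow NUGC PBX PBR
open NUP1.N (E11)

/-- **the weighted sum of the moduli of the signed sums of the classes** -/
theorem sum_tot (G : RG) (P : NUO.Par) {N : ℕ} {w : ℕ → ℝ} (hw : ∀ n, 0 ≤ w n) {B : ℝ}
    (h : ∀ t t' : HT, ∑ n ∈ range (N + 1), w n * ‖G.v P t t' n‖ ≤ B)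
    (h1 : ∀ o : Bool, ∑ n ∈ range (N + 1), w n * ‖G.v1 P o n‖ ≤ B) :
    ∑ n ∈ range (N + 1), w n * ‖G.tot P n‖ ≤
      (16 * (2 * Real.pi)⁻¹ ^ 2 + 2 * (‖sin (l : ℂ) / sin (2 * l)‖ * (2 * Real.pi)⁻¹)) * B := by
  have hbd : ∀ n, ‖G.tot P n‖ ≤
      (2 * Real.pi)⁻¹ ^ 2 * (∑ t : HT, ∑ t' : HT, ‖G.v P t t' n‖) +
        ‖sin (l : ℂ) / sin (2 * l)‖ * ((2 * Real.pi)⁻¹ * ∑ o : Bool, ‖G.v1 P o n‖) := by
    intro n
    unfold RG.tot
    refine (norm_sub_le _ _).trans (add_le_add ?_ ?_)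
    · rw [norm_mul, norm_pow, RG.norm_2pi]
      refine mul_le_mul_of_nonneg_left ?_ (by positivity)
      refine (norm_sum_le _ _).trans (sum_le_sum fun t _ => ?_)
      refine (norm_sum_le _ _).trans (sum_le_sum fun t' _ => le_of_eq ?_)
      rw [norm_mul, norm_mul, RG.norm_sg, RG.norm_sg, one_mul, one_mul]
    · rw [norm_mul, norm_mul, RG.norm_2pi]
      refine mul_le_mul_of_nonneg_left (mul_le_mul_of_nonneg_left ?_ (by positivity))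
        (by positivity)
      rw [Fintype.sum_bool]
      exact norm_add_le _ _
  have e1 : ∑ t : HT, ∑ t' : HT, ∑ n ∈ range (N + 1), w n * ‖G.v P t t' n‖ ≤ 16 * B := by
    calc ∑ t : HT, ∑ t' : HT, ∑ n ∈ range (N + 1), w n * ‖G.v P t t' n‖ ≤
          ∑ _t : HT, ∑ _t' : HT, B := sum_le_sum fun t _ => sum_le_sum fun t' _ => h t t'
      _ = 16 * B := by
        simp only [sum_const, card_univ, nsmul_eq_mul]
        have : Fintype.card HT = 4 := rfl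
        rw [this]
        push_cast
        ring
  have e2 : ∑ o : Bool, ∑ n ∈ range (N + 1), w n * ‖G.v1 P o n‖ ≤ 2 * B := by
    rw [Fintype.sum_bool]
    linarith [h1 true, h1 false]
  calc ∑ n ∈ range (N + 1), w n * ‖G.tot P n‖
      ≤ ∑ n ∈ range (N + 1), ((2 * Real.pi)⁻¹ ^ 2 *
          (∑ t : HT, ∑ t' : HT, w n * ‖G.v P t t' n‖) +
        ‖sin (l : ℂ) / sin (2 * l)‖ * ((2 * Real.pi)⁻¹ * ∑ o : Bool, w n * ‖G.v1 P o n‖)) :=
        sum_le_sum fun n _ => by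
          refine (mul_le_mul_of_nonneg_left (hbd n) (hw n)).trans (le_of_eq ?_)
          simp only [← Finset.mul_sum]
          ring
    _ = (2 * Real.pi)⁻¹ ^ 2 * (∑ t : HT, ∑ t' : HT, ∑ n ∈ range (N + 1), w n * ‖G.v P t t' n‖) +
        ‖sin (l : ℂ) / sin (2 * l)‖ * ((2 * Real.pi)⁻¹ *
          ∑ o : Bool, ∑ n ∈ range (N + 1), w n * ‖G.v1 P o n‖) := by
        rw [sum_add_distrib, ← mul_sum, ← mul_sum, ← mul_sum]
        have q1 : ∑ n ∈ range (N + 1), ∑ t : HT, ∑ t' : HT, w n * ‖G.v P t t' n‖ =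
            ∑ t : HT, ∑ t' : HT, ∑ n ∈ range (N + 1), w n * ‖G.v P t t' n‖ := by
          rw [sum_comm]
          exact sum_congr rfl fun t _ => sum_comm
        have q2 : ∑ n ∈ range (N + 1), ∑ o : Bool, w n * ‖G.v1 P o n‖ =
            ∑ o : Bool, ∑ n ∈ range (N + 1), w n * ‖G.v1 P o n‖ := sum_comm
        rw [q1, q2]
    _ ≤ (2 * Real.pi)⁻¹ ^ 2 * (16 * B) +
        ‖sin (l : ℂ) / sin (2 * l)‖ * ((2 * Real.pi)⁻¹ * (2 * B)) := by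
        gcongr
    _ = _ := by ring

section one

variable {m : ℕ} {D : RD m} {P : NUO.Par} {K : PBQ.KD} {kD : Bool → ℂ → ℂ} {τ ν : ℝ}

theorem sValT_eq (h : IsKD K kD D) (N : ℕ) (t t' : HT) :
    sValT τ ν K P N t t' = ∑ n ∈ range (N + 1), tl τ ν n * ‖(rgD D).v P t t' n‖ := by
  unfold sValT RG.v
  rw [h.cl, h.zX, h.zY]
  rfl

theorem sValDT_eq (h : IsKD K kD D) (N : ℕ) (o : Bool) :
    sValDT τ ν K kD P N o = ∑ n ∈ range (N + 1), tl τ ν n * ‖(rgD D).v1 P o n‖ := by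
  unfold sValDT RG.v1
  rw [h.cl1, h.zX, h.zY]
  rfl

/-- the class `W W` from its integral over everything -/
theorem sValT_le (K : PBQ.KD) (P : NUO.Par) (N : ℕ) (t t' : HT) {B : ℝ} (hB : 0 ≤ B)
    (h : sIntT τ ν K P N t t' Set.univ ≤ ENNReal.ofReal B) : sValT τ ν K P N t t' ≤ B := by
  unfold sValT
  refine cls_val_leT _ _ _ _ _ _ _ hB ?_
  have e1 : (K.cl t t').a = htL t := cF_a _ _ _ _ _ _ _ _
  have e2 : (K.cl t t').b = htL t' := cF_b _ _ _ _ _ _ _ _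
  rw [e1, e2]
  exact h

end one

/-- constant of the sum over all classes -/
def KS : ℝ := 16 * (2 * Real.pi)⁻¹ ^ 2 + 2 * (‖sin (l : ℂ) / sin (2 * l)‖ * (2 * Real.pi)⁻¹)

theorem KS_nonneg : 0 ≤ KS := by unfold KS; positivity

section fam

variable [NUSea.Sea]

/-- **the tilted sum over a geometry** -/
theorem sumT_fam {G : PBO.Geo} (hP : PBO.PerBdR G) {K : ℝ → ℕ → PBQ.KD}
    {kD : ℝ → ℕ → Bool → ℂ → ℂ} (hK : PBO.ClOk G K kD) {D : ∀ (_ : ℝ) (k : ℕ), RD (k - 1)}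
    (hD : ∀ ep : ℝ, 0 < ep → ep ≤ 1 / 100 → ∀ k : ℕ, (D ep k).Ok ∧ 1 < (D ep k).β ∧
      IsKD (K ep k) (kD ep k) (D ep k)) :
    ∀ ε : ℝ, 0 < ε → ∃ ep0 : ℝ, 0 < ep0 ∧ ep0 ≤ 1 / 100 ∧
      ∀ ep : ℝ, 0 < ep → ep ≤ ep0 → ∃ (τ Cst : ℝ) (k0 : ℕ), 0 < τ ∧ 0 ≤ Cst ∧ 1 ≤ k0 ∧
        ∀ k : ℕ, k0 ≤ k → ∑ n ∈ range (2 * k + 1), tl τ k n * ‖EED (D ep k) n‖ ≤
          Cst * (k : ℝ) ^ ε * Real.exp ((k : ℝ) ^ 2 * G.EM) := by
  intro ε hε
  obtain ⟨ep0, h0, h1, hoth⟩ := oth0T hP hK ε hε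
  refine ⟨ep0, h0, h1, fun ep hep hep' => ?_⟩
  obtain ⟨τ, Cst, k0, hτ, hC, hk0, hk⟩ := hoth ep hep hep'
  have hep1 : ep ≤ 1 / 100 := hep'.trans h1
  have hKS := KS_nonneg
  refine ⟨τ, KS * (2 * Cst), k0, hτ, by positivity, hk0, fun k hkk => ?_⟩
  obtain ⟨ho, hd, hww, -⟩ := hk k hkk
  obtain ⟨hOk, hβ, hIs⟩ := hD ep hep hep1 k
  have hk1 : 1 ≤ k := hk0.trans hkk
  have hkR : (1 : ℝ) ≤ k := by exact_mod_cast hk1
  have hkR0 : (0 : ℝ) < k := by linarith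
  have hPk : ParM (NUSea.O.par0 k) := PBO.parM_par0 k
  obtain ⟨X, hX⟩ : ∃ X : ℝ, X = Real.exp ((k : ℝ) ^ 2 * G.EM) := ⟨_, rfl⟩
  have hX0 : 0 < X := by rw [hX]; exact Real.exp_pos _
  rw [← hX] at ho hd hww ⊢
  have e1 : (k : ℝ) ^ (-(7 / 16) + ε) ≤ (k : ℝ) ^ ε :=
    Real.rpow_le_rpow_of_exponent_le hkR (by linarith)
  have e2 : Cst * (k : ℝ) ^ (-(7 / 16) + ε) * X ≤ 2 * Cst * (k : ℝ) ^ ε * X := by
    have h2 : 0 ≤ (k : ℝ) ^ ε * X := by positivity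
    have h3 : Cst * ((k : ℝ) ^ (-(7 / 16) + ε) * X) ≤ Cst * ((k : ℝ) ^ ε * X) :=
      mul_le_mul_of_nonneg_left (mul_le_mul_of_nonneg_right e1 hX0.le) hC
    have h4 : 0 ≤ Cst * ((k : ℝ) ^ ε * X) := mul_nonneg hC h2
    linarith
  have hB0 : 0 ≤ 2 * Cst * (k : ℝ) ^ ε * X := by positivity
  have hW : sValT τ k (K ep k) (NUSea.O.par0 k) (2 * k) .W .W ≤ 2 * Cst * (k : ℝ) ^ ε * X := by
    refine sValT_le _ _ _ _ _ hB0 ((hww Set.univ 0 MeasurableSet.univ fun z _ => by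
      positivity).trans (ENNReal.ofReal_le_ofReal ?_))
    rw [neg_zero, Real.exp_zero, one_mul]
    refine mul_le_mul_of_nonneg_right ?_ hX0.le
    have h3 : Cst * ((k : ℝ) ^ ε + (k : ℝ) ^ (-(7 / 16) + ε)) ≤
        Cst * ((k : ℝ) ^ ε + (k : ℝ) ^ ε) :=
      mul_le_mul_of_nonneg_left (by linarith) hC
    linarith
  have hv : ∀ t t' : HT, ∑ n ∈ range (2 * k + 1), tl τ k n *
      ‖(rgD (D ep k)).v (NUSea.O.par0 k) t t' n‖ ≤ 2 * Cst * (k : ℝ) ^ ε * X := by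
    intro t t'
    rw [← sValT_eq hIs]
    by_cases h : t = .W ∧ t' = .W
    · rw [h.1, h.2]
      exact hW
    · exact (ho t t' h).trans e2
  have hv1 : ∀ o : Bool, ∑ n ∈ range (2 * k + 1), tl τ k n *
      ‖(rgD (D ep k)).v1 (NUSea.O.par0 k) o n‖ ≤ 2 * Cst * (k : ℝ) ^ ε * X := by
    intro o
    rw [← sValDT_eq hIs]
    exact (hd o).trans e2
  have key := sum_tot (rgD (D ep k)) (NUSea.O.par0 k) (w := tl τ k)
    (fun n => (tl_pos _ _ n).le) hv hv1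
  rw [Finset.sum_congr rfl fun n _ => by rw [EED_eq hOk hβ hPk n]]
  refine key.trans (le_of_eq ?_)
  show KS * _ = _
  ring

end fam

/-! ### rows `0`, ends `0` -/

attribute [local instance] NUSea.seaP

/-- **The tilted sum of the moduli of the eleven integrals**, `k` effective rows `0`, cutoff points
`± i`. -/
theorem sumT : ∀ ε : ℝ, 0 < ε → ∃ ep0 : ℝ, 0 < ep0 ∧ ep0 ≤ 1 / 100 ∧
      ∀ ep : ℝ, 0 < ep → ep ≤ ep0 → ∃ (τ Cst : ℝ) (k0 : ℕ), 0 < τ ∧ 0 ≤ Cst ∧ 1 ≤ k0 ∧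
        ∀ k : ℕ, k0 ≤ k → ∑ n ∈ range (2 * k + 1), tl τ k n *
          ‖EED (R0 (k - 1) (beC ep) [I, -I] []) n‖ ≤
            Cst * (k : ℝ) ^ ε * Real.exp ((k : ℝ) ^ 2 * PBVR.EMF0) :=
  sumT_fam (G := G0 [I, -I] []) (PBO.perBd_of0 (G0_nn [I, -I] []) s4R_GI oneR_GI)
    (K := PBO.KX [I, -I] []) (kD := PBO.kDX [I, -I] [])
    (PBO.clOk0 PBO.cutOk_I (fun _ _ => rfl) rfl)
    (D := fun ep k => R0 (k - 1) (beC ep) [I, -I] []) fun _ h0 h1 k =>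
      ⟨PBO.DX_Ok PBO.cutOk_I h0 h1 k, (PBO.beC_bd h0 h1).1,
        ⟨rfl, rfl, rfl, rfl, rfl, rfl, rfl, rfl⟩⟩

end WNDT

end
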