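import Pool.Agent.WND.SumT
import Pool.Agent.PB.TopR0

/-!
# The tilted sum, normalised (PLAN W+)

**`sumTN`**: `∑ n ≤ 2 (k - 1), exp (τ |n - k|) ‖nrR k * EED n‖ ≤ C k ^ ε`; **`tailS`**: the truncated sums.
-/

set_option autoImplicit false
set_option linter.unusedSectionVars false

noncomputable section

open Complex MeasureTheory Finset Filter
open scoped ENNReal

namespace WNDT

open NUO NUP1 NUCR NUP1S NURow NUGC PBX PBR
open PBI (nrR)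

/-- **the tilted sum of the moduli, normalised** -/
theorem sumTN : ∀ ε : ℝ, 0 < ε → ∃ ep0 : ℝ, 0 < ep0 ∧ ep0 ≤ 1 / 100 ∧
    ∀ ep : ℝ, 0 < ep → ep ≤ ep0 → ∃ (τ C : ℝ) (k0 : ℕ), 0 < τ ∧ 0 ≤ C ∧ 1 ≤ k0 ∧
      ∀ k : ℕ, k0 ≤ k → ∑ n ∈ range (2 * (k - 1) + 1), tl τ k n *
        ‖nrR k * EED (R0 (k - 1) (beC ep) [I, -I] []) n‖ ≤ C * (k : ℝ) ^ ε := by
  intro ε hε
  obtain ⟨ep0, h0, h1, H⟩ := sumT ε hε
  refine ⟨ep0, h0, h1, fun ep hep hep' => ?_⟩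
  obtain ⟨τ, C, k0, hτ, hC, hk0, H⟩ := H ep hep hep'
  have hs : 0 < Real.sin l := Real.sin_pos_of_pos_of_lt_pi NUP1.Bd.l_pos (by
    unfold l
    linarith [Real.pi_pos])
  refine ⟨τ, (Real.sin l)⁻¹ * C, k0, hτ, by positivity, hk0, fun k hk => ?_⟩
  have h := H k hk
  have hn := PBI.norm_nrR (hk0.trans hk)
  have h2 : ∑ n ∈ range (2 * (k - 1) + 1), tl τ k n *
      ‖nrR k * EED (R0 (k - 1) (beC ep) [I, -I] []) n‖ ≤
      ‖nrR k‖ * ∑ n ∈ range (2 * k + 1), tl τ k n *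
        ‖EED (R0 (k - 1) (beC ep) [I, -I] []) n‖ := by
    rw [Finset.mul_sum]
    refine (Finset.sum_le_sum_of_subset_of_nonneg (Finset.range_subset_range.2
      (by omega : 2 * (k - 1) + 1 ≤ 2 * k + 1)) fun n _ _ =>
      mul_nonneg (tl_pos _ _ _).le (norm_nonneg _)).trans (le_of_eq ?_)
    refine Finset.sum_congr rfl fun n _ => ?_
    rw [norm_mul]
    ring
  refine h2.trans ((mul_le_mul_of_nonneg_left h (norm_nonneg _)).trans (le_of_eq ?_))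
  rw [← hn]
  ring

/-- **the truncated sums** -/
theorem tailS : ∀ ε : ℝ, 0 < ε → ∃ ep : ℝ, 0 < ep ∧ ep ≤ 1 / 100 ∧
    ∃ (C d : ℝ) (k0 : ℕ), 0 ≤ C ∧ 0 < d ∧ 1 ≤ k0 ∧ ∀ k : ℕ, k0 ≤ k →
      ∀ K : ℕ, K ≤ k → K ≤ 2 * (k - 1) →
        ‖nrR k * ∑ n ∈ range (K + 1), EED (R0 (k - 1) (beC ep) [I, -I] []) n‖ ≤
          C * (k : ℝ) ^ ε * Real.exp (-(d * ((k : ℝ) - K))) := by
  intro ε hε
  obtain ⟨ep0, h0, h1, H⟩ := sumTN ε hε
  obtain ⟨τ, C, k0, hτ, hC, hk0, H⟩ := H ep0 h0 le_rfl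
  refine ⟨ep0, h0, h1, C, τ, k0, hC, hτ, hk0, fun k hk K hK hK' => ?_⟩
  have h := H k hk
  have hKk : (K : ℝ) ≤ k := by exact_mod_cast hK
  have e1 : ∀ n ∈ range (K + 1), ‖nrR k * EED (R0 (k - 1) (beC ep0) [I, -I] []) n‖ ≤
      Real.exp (-(τ * ((k : ℝ) - K))) * (tl τ k n *
        ‖nrR k * EED (R0 (k - 1) (beC ep0) [I, -I] []) n‖) := by
    intro n hn
    have hn' : (n : ℝ) ≤ K := by exact_mod_cast Nat.lt_succ_iff.1 (Finset.mem_range.1 hn)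
    rw [← mul_assoc]
    refine le_mul_of_one_le_left (norm_nonneg _) ?_
    unfold tl
    rw [← Real.exp_add]
    refine Real.one_le_exp ?_
    rw [abs_of_nonpos (by linarith)]
    have : 0 ≤ τ * ((K : ℝ) - n) := mul_nonneg hτ.le (by linarith)
    linarith
  calc ‖nrR k * ∑ n ∈ range (K + 1), EED (R0 (k - 1) (beC ep0) [I, -I] []) n‖
      = ‖∑ n ∈ range (K + 1), nrR k * EED (R0 (k - 1) (beC ep0) [I, -I] []) n‖ := by
        rw [Finset.mul_sum]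
    _ ≤ ∑ n ∈ range (K + 1), ‖nrR k * EED (R0 (k - 1) (beC ep0) [I, -I] []) n‖ :=
        norm_sum_le _ _
    _ ≤ ∑ n ∈ range (K + 1), Real.exp (-(τ * ((k : ℝ) - K))) * (tl τ k n *
        ‖nrR k * EED (R0 (k - 1) (beC ep0) [I, -I] []) n‖) := Finset.sum_le_sum e1
    _ = Real.exp (-(τ * ((k : ℝ) - K))) * ∑ n ∈ range (K + 1), tl τ k n *
        ‖nrR k * EED (R0 (k - 1) (beC ep0) [I, -I] []) n‖ := by rw [Finset.mul_sum]
    _ ≤ Real.exp (-(τ * ((k : ℝ) - K))) * (C * (k : ℝ) ^ ε) := by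
        refine mul_le_mul_of_nonneg_left (le_trans ?_ h) (Real.exp_pos _).le
        exact Finset.sum_le_sum_of_subset_of_nonneg (Finset.range_subset_range.2 (by omega))
          fun n _ _ => mul_nonneg (tl_pos _ _ _).le (norm_nonneg _)
    _ = _ := by ring

end WNDT

end
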