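import Pool.Agent.PB.TRsZ

/-!
# Plan W, W7 (i): (H3) between the two ends of the s-path, arbitrary coefficients (helper39)

The proof of `PB/TRsF` uses only the modulus of the coefficient of each number of quanta and
statements for one number of quanta (`MeanH`, `PathD`).  For every coefficient `c : ℕ → ℂ` with
`‖c n‖ = ‖Pv k τ‖` (e.g. `ζ ^ ((k - 1) - n) * Pv k τ`, `‖ζ‖ = 1`):

* `nFc`, `nFc'`: the normalised functional on the path and its derivative;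
* `enorm_wN_c`, `lint_c`, `WI_c`: the weight with the coefficient `c`;
* `hE_c`: the error on the path;
* **`h3_c`**: (H3), the scale independent of `c`.
-/

set_option autoImplicit false
set_option linter.unusedSectionVars false

noncomputable section

open Complex MeasureTheory Finset Filter
open scoped ENNReal

namespace PBTV

open NUO NUP1 NUP1S NUP1S.Ab NUP1S.AbC NUGC PBFunc PBF PBU PBP

attribute [local instance] NUSea.seaP

section coef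

variable {N : ℕ} {Z : ℕ → Bool → Option O3 → ℂ → ℂ} {P : ℕ → NUO.Par} {η η' : ℕ → Crs}
  {c : ℕ → ℂ} {p : ℂ}

theorem enorm_wN_c (h : ∀ n, ‖c n‖ = ‖p‖) (x : CfN N) :
    ‖wN Z P N η η' c x‖ₑ = ‖wN Z P N η η' (fun _ => p) x‖ₑ := by
  unfold wN
  rw [enorm_mul, enorm_mul, ← ofReal_norm (c _), h, ofReal_norm]

theorem lint_c (h : ∀ n, ‖c n‖ = ‖p‖) (Y : CfN N → ℝ≥0∞) :
    ∫⁻ x, ‖wN Z P N η η' c x‖ₑ * Y x ∂(mN N) =
      ∫⁻ x, ‖wN Z P N η η' (fun _ => p) x‖ₑ * Y x ∂(mN N) :=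
  lintegral_congr fun x => by rw [enorm_wN_c h]

theorem WI_c (hm : ∀ n ≤ N, MC (Z n) (P n) (η n) (η' n)) (h : ∀ n, ‖c n‖ = ‖p‖) {O : CfN N → ℂ}
    (hO : Measurable O) (hI : WI (mN N) (wN Z P N η η' (fun _ => p)) O) :
    WI (mN N) (wN Z P N η η' c) O := by
  refine ⟨((wN_meas hm).mul hO).aestronglyMeasurable, ?_⟩
  have h2 := hI.2
  unfold HasFiniteIntegral at h2 ⊢
  simp only [enorm_mul] at h2 ⊢
  rw [lint_c h]
  exact h2

end coef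

/-- the normalised functional on the path, coefficients `c` -/
def nFc (ep e1 J : ℝ) (c : ℕ → ℂ) (k : ℕ) (τ : ℝ × ℝ) (s : ℝ) : ℂ :=
  nF (fun _ => Zv ep k τ) (fun _ => Dv τ) (fun _ => NUSea.O.par0 k) (2 * (k - 1))
    (fun _ => cr e1 J k) (fun _ => cr' e1 J k) c 1 (κv k τ) s

/-- its derivative -/
def nFc' (ep e1 J : ℝ) (c : ℕ → ℂ) (k : ℕ) (τ : ℝ × ℝ) (s : ℝ) : ℂ :=
  nF' (fun _ => Zv ep k τ) (fun _ => Dv τ) (fun _ => NUSea.O.par0 k) (2 * (k - 1))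
    (fun _ => cr e1 J k) (fun _ => cr' e1 J k) c 1 (κv k τ) s

/-- **the error on the path**, arbitrary coefficients -/
theorem hE_c {ep e1 J ε : ℝ} (hep : 0 < ep) (_hep1 : ep ≤ 1 / 100)
    (hV : UB famV ep e1 J 2 6 ε) (hW : UB famW ep e1 J 2 6 ε) (hM : MeanP ep e1 J)
    (hP : PathP ep e1 J) {C : ℝ} (hC : 1 ≤ C)
    (hG : ∃ k0 : ℕ, ∀ k ≥ k0, ∀ τ : ℝ × ℝ, okv k τ → ∀ s : ℝ, 0 ≤ s → s ≤ 1 →
      G1P ep C k τ s ∧ G2P ep C k τ s) :
    ∃ C' : ℝ, 0 < C' ∧ ∃ k0 : ℕ, ∀ k ≥ k0, ∀ τ : ℝ × ℝ, okv k τ → PBT3.k1T τ ≠ 0 →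
      ∀ c : ℕ → ℂ, (∀ n, ‖c n‖ = ‖Pv k τ‖) → ∀ s : ℝ, 0 ≤ s → s ≤ 1 →
      ‖nFc' ep e1 J c k τ s - (s * PBT3.qI (wa τ) (wb τ) + PBT3.pI (wa τ) (wb τ)) *
        nFc ep e1 J c k τ s‖ ≤ (E1v (2 * C) e1 ε k (Mv τ) + E2v C' ε k (Mv τ)) *
        (Real.exp |τ.1 + τ.2| ^ (1 - s) * (Real.exp (-mTv τ) / ‖PBT3.k1T τ‖) ^ s) := by
  obtain ⟨k1, h1⟩ := hM
  obtain ⟨k2, h2⟩ := hP
  obtain ⟨k3, h3⟩ := hG
  obtain ⟨k4, h4⟩ := lin_bd hV hep hC (fun m i => (Real.exp_pos _).le)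
  obtain ⟨k5, h5⟩ := lin_bd hW hep hC (fun m i => (Real.exp_pos _).le)
  obtain ⟨C1, hC1, k6, h6⟩ := quad_bd hV (fun m i => (Real.exp_pos _).le)
  obtain ⟨C2, hC2, k7, h7⟩ := quad_bd hW (fun m i => (Real.exp_pos _).le)
  obtain ⟨k8, h8⟩ := wiF_v hV (by norm_num)
  refine ⟨max C1 C2, lt_max_of_lt_left hC1,
    max 2 (max k1 (max k2 (max k3 (max k4 (max k5 (max k6 (max k7 k8))))))),
    fun k hk τ hok hk1 c hc s hs0 hs1 => ?_⟩
  simp only [ge_iff_le, max_le_iff] at hk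
  obtain ⟨hk0, i1, i2, i3, i4, i5, i6, i7, i8⟩ := hk
  obtain ⟨B, hB⟩ := h2 k i2 τ hok
  have hI := WI_c hB.mc0 hc measurable_const (h8 k i8 τ hok (hB.mc0 0 (Nat.zero_le _)))
  obtain ⟨κ, hMean⟩ := h1 k i1 τ (s : ℂ)
  obtain ⟨g1, g2⟩ := h3 k i3 τ hok s hs0 hs1
  have hkp : (0 : ℝ) < k := by exact_mod_cast (by omega : 0 < k)
  have hmc := mcr_cr' e1 J k
  have mV : MC (famV.Z ep k τ) (NUSea.O.par0 k) (cr e1 J k) (cr' e1 J k) := hB.mc0 0 (Nat.zero_le _)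
  have mW : MC (famW.Z ep k τ) (NUSea.O.par0 k) (cr e1 J k) (cr' e1 J k) := hB.mc 1 0 (Nat.zero_le _)
  have hEm := hMean.mE hmc (hB.mst 0 (Nat.zero_le _)) (PBT3.pI (wa τ) (wb τ)) (PBT3.qI (wa τ) (wb τ))
  have hQm := MIn_Qst hMean.crv hMean.h1 hMean.b0 hMean.sea hMean.fld hmc
  have hLm : MIn (ERL ep e1 J k τ s) := fun r a b => (hEm r a b).sub (hQm r a b)
  have hη : ∀ t, |etaC e1 J k k t| ≤ NUMF.l / 10 := by
    intro t
    have h := zc_strip (hMean.crv 0 (fun i => i.elim0)) hMean.h1 t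
    rw [zc_im] at h
    have hl := NUMF.l_pos
    have e : NUP1.l = NUMF.l := rfl
    rw [e] at h
    exact h.trans (by linarith)
  set Y : Bool → CfN (2 * (k - 1)) → ℝ≥0∞ := fun b x => if b then
    ‖evN (fun _ => ERL ep e1 J k τ s) x‖ₑ else
    ‖evN (fun _ => Qst (cr e1 J k) (rv k) (Xv k τ)) x‖ₑ with hY
  set Ec : Bool → ℝ := fun b => if b then E1v (2 * C) e1 ε k (Mv τ) else
    E2v (max C1 C2) ε k (Mv τ) with hEc
  have hkε : 0 < (k : ℝ) ^ ε := Real.rpow_pos_of_pos hkp _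
  have hk3 : 0 < (k : ℝ) ^ (-(3 / 4 * (1 - 4 * e1))) := Real.rpow_pos_of_pos hkp _
  have hlog : 0 ≤ Real.log k := Real.log_nonneg (by exact_mod_cast (by omega : 1 ≤ k))
  have hM0 := MvF_nonneg τ
  have hCC : 0 < max C1 C2 := lt_max_of_lt_left hC1
  have hEpos : ∀ b ∈ (Finset.univ : Finset Bool), 0 < Ec b := by
    intro b _
    cases b
    · simp only [hEc, E2v, Bool.false_eq_true, if_false]
      positivity
    · simp only [hEc, E1v, if_true]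
      positivity
  have hYm : ∀ b ∈ (Finset.univ : Finset Bool), Measurable (Y b) := by
    intro b _
    cases b
    · exact (evN_meas fun _ _ => hQm).enorm
    · exact (evN_meas fun _ _ => hLm).enorm
  have hE2 : ∀ Cx, Cx ≤ max C1 C2 → E2v Cx ε k (Mv τ) ≤ E2v (max C1 C2) ε k (Mv τ) := by
    intro Cx hCx
    unfold E2v
    gcongr
  have hb0 : ∀ b ∈ (Finset.univ : Finset Bool), ENNReal.ofReal ‖(1 : ℂ)‖ *
      ∫⁻ x, ‖wN (fun _ => Zv ep k τ) (fun _ => NUSea.O.par0 k) (2 * (k - 1))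
        (fun _ => cr e1 J k) (fun _ => cr' e1 J k) c x‖ₑ * Y b x
        ∂(mN (2 * (k - 1))) ≤ ENNReal.ofReal (Ec b * Real.exp |τ.1 + τ.2|) := by
    intro b _
    rw [norm_one, ENNReal.ofReal_one, one_mul, lint_c hc]
    cases b
    · refine (h6 k i6 τ hok mV hη).trans (ENNReal.ofReal_le_ofReal ?_)
      exact mul_le_mul_of_nonneg_right (hE2 C1 (le_max_left _ _)) (Real.exp_pos _).le
    · exact h4 k i4 τ hok mV s g1 g2 hLm
  have hb1 : ∀ b ∈ (Finset.univ : Finset Bool),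
      ENNReal.ofReal (‖(1 : ℂ)‖ * Real.exp (-(κv k τ).re)) *
      ∫⁻ x, ‖wN (expN (fun _ => Zv ep k τ) (fun _ => Dv τ) 1) (fun _ => NUSea.O.par0 k)
        (2 * (k - 1)) (fun _ => cr e1 J k) (fun _ => cr' e1 J k) c x‖ₑ * Y b x
        ∂(mN (2 * (k - 1))) ≤ ENNReal.ofReal (Ec b * (Real.exp (-mTv τ) / ‖PBT3.k1T τ‖)) := by
    intro b _
    rw [lint_c hc]
    refine lint_W hk1 ?_
    cases b
    · refine (h7 k i7 τ hok mW hη).trans (ENNReal.ofReal_le_ofReal ?_)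
      exact mul_le_mul_of_nonneg_right (hE2 C2 (le_max_right _ _)) (Real.exp_pos _).le
    · exact h5 k i5 τ hok mW s g1 g2 hLm
  have hμ1 : 0 < Real.exp (-mTv τ) / ‖PBT3.k1T τ‖ := div_pos (Real.exp_pos _) (norm_pos_iff.2 hk1)
  have hmean := mean_N hB hI (fun n _ => hMean) (κ0 := κv k τ) (fun n _ => rfl)
    (PBT3.pI (wa τ) (wb τ)) (PBT3.qI (wa τ) (wb τ)) Finset.univ (Y := Y) hYm (by
      intro x
      rw [Fintype.sum_bool]
      have e : evN (fun n => ERR (Dv τ) (NUSea.O.par0 k) (cr e1 J k) (s : ℂ)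
          (PBT3.pI (wa τ) (wb τ)) (PBT3.qI (wa τ) (wb τ)) (rv k) (Xv k τ) (D1v τ) (Ev k τ)
          (lgv ep k τ) (kov k)) x = evN (fun _ => ERL ep e1 J k τ s) x +
          evN (fun _ => Qst (cr e1 J k) (rv k) (Xv k τ)) x := by
        unfold evN ev ERL
        exact (sub_add_cancel _ _).symm
      rw [e]
      exact enorm_add_le _ _)
  have key := nF_err hB Finset.univ hYm hs0 hs1 (Real.exp_pos _) hμ1 hEpos one_ne_zero hb0 hb1 hmean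
  rw [Fintype.sum_bool] at key
  exact key

/-- **(H3) between the two ends of the s-path**, arbitrary coefficients -/
theorem h3_cw (hV : UX famV) (hW : UX famW)
    (hMP : ∃ a1 : ℝ, 0 < a1 ∧ ∀ ep e1 J : ℝ, 0 < ep → ep ≤ 1 / 100 → 0 < e1 → e1 ≤ 1 / 100 →
      0 ≤ J → Real.exp (-(2 * Real.pi * J)) + 3 * e1 + 3 * ep ≤ a1 →
      MeanP ep e1 J ∧ PathP ep e1 J)
    (hG : ∀ ep : ℝ, 0 < ep → ep ≤ 1 / 100 → ∃ C : ℝ, 1 ≤ C ∧ ∃ k0 : ℕ, ∀ k ≥ k0, ∀ τ : ℝ × ℝ,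
      okv k τ → ∀ s : ℝ, 0 ≤ s → s ≤ 1 → G1P ep C k τ s ∧ G2P ep C k τ s) {c1 : ℝ}
    (hc1 : c1 < 3 / 4) :
    ∃ a0 : ℝ, 0 < a0 ∧ ∀ ep e1 J : ℝ, 0 < ep → ep ≤ 1 / 100 → 0 < e1 → e1 ≤ 1 / 100 → 0 ≤ J →
      Real.exp (-(2 * Real.pi * J)) + 3 * e1 + 3 * ep ≤ a0 →
      ∀ᶠ k : ℕ in atTop, ∀ τ : ℝ × ℝ, okv k τ → ∀ c : ℕ → ℂ, (∀ n, ‖c n‖ = ‖Pv k τ‖) →
        ‖PBT3.k1T τ‖ * ‖nFc ep e1 J c k τ 1 - Complex.exp (PBT3.gF τ) * nFc ep e1 J c k τ 0‖ ≤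
          (k : ℝ) ^ (-c1) := by
  set e := (3 / 4 - c1) / 2 with he
  have he0 : 0 < e := by rw [he]; linarith
  obtain ⟨aV, haV, hV⟩ := hV 2 6 (e / 4) (by positivity)
  obtain ⟨aW, haW, hW⟩ := hW 2 6 (e / 4) (by positivity)
  obtain ⟨a1, ha1, hMP⟩ := hMP
  refine ⟨min a1 (min (e / 4) (min aV aW)), lt_min ha1 (lt_min (by positivity) (lt_min haV haW)),
    fun ep e1 J hep hep1 he1 he11 hJ hsm' => ?_⟩
  have s0 := hsm'.trans (min_le_left _ _)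
  have hsm := hsm'.trans (min_le_right _ _)
  have s1 := hsm.trans (min_le_left _ _)
  have s2 := hsm.trans ((min_le_right _ _).trans (min_le_left _ _))
  have s3 := hsm.trans ((min_le_right _ _).trans (min_le_right _ _))
  have hexp := (Real.exp_pos (-(2 * Real.pi * J))).le
  obtain ⟨hM, hP⟩ := hMP ep e1 J hep hep1 he1 he11 hJ s0
  obtain ⟨C, hC, hGG⟩ := hG ep hep hep1
  obtain ⟨C', hC', k1, hE⟩ := hE_c hep hep1 (hV ep e1 J hep he1 hJ s2) (hW ep e1 J hep he1 hJ s3)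
    hM hP hC hGG
  obtain ⟨k2, hP2⟩ := hP
  obtain ⟨k3, hI3⟩ := wiF_v (hV ep e1 J hep he1 hJ s2) (by norm_num)
  obtain ⟨A, hA, hk1⟩ := PBT3.k1T_le
  obtain ⟨Cg, hCg, hgF⟩ := PBT3.gF_re
  obtain ⟨Cp, hCp, hpF⟩ := PBT3.pF_re
  set A' := max A 1 with hA'
  set Cc := max Cg Cp with hCc
  have hCc0 : 0 ≤ Cc := le_max_of_le_left hCg
  have hlim : Tendsto (fun k : ℕ => 3 * A' * Real.exp (2 * Cc) * (k : ℝ) ^ (-(3 / 4 - e - c1)))
      atTop (nhds (3 * A' * Real.exp (2 * Cc) * 0)) :=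
    ((tendsto_rpow_neg_atTop (by rw [he]; linarith)).comp tendsto_natCast_atTop_atTop).const_mul _
  rw [mul_zero] at hlim
  filter_upwards [E_le (C := 2 * C) (C' := C') (e := e) (e1 := e1) (ε := e / 4) (by positivity)
    hC'.le he1.le (by linarith), hlim.eventually_le_const one_pos, eventually_ge_atTop k1,
    eventually_ge_atTop k2, eventually_ge_atTop 1, eventually_ge_atTop k3] with
    k f1 f2 f3 f4 f5 f6 τ hok c hc
  have hκ : (1 : ℝ) ≤ k := by exact_mod_cast f5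
  have hκ0 : (0 : ℝ) < k := by linarith
  rcases eq_or_ne (PBT3.k1T τ) 0 with hz | hz
  · rw [hz, norm_zero, zero_mul]
    exact Real.rpow_nonneg hκ0.le _
  obtain ⟨B, hB⟩ := hP2 k f4 τ hok
  have hI := WI_c hB.mc0 hc measurable_const (hI3 k f6 τ hok (hB.mc0 0 (Nat.zero_le _)))
  have hnn : ∀ s : ℝ, 0 ≤ Real.exp |τ.1 + τ.2| ^ (1 - s) *
      (Real.exp (-mTv τ) / ‖PBT3.k1T τ‖) ^ s := fun s =>
    mul_nonneg (Real.rpow_nonneg (Real.exp_pos _).le _)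
      (Real.rpow_nonneg (div_nonneg (Real.exp_pos _).le (norm_nonneg _)) _)
  have hM0 := MvF_nonneg τ
  have key := PBTs.h3_pt (k1 := PBT3.k1T τ) (F := nFc ep e1 J c k τ) (F' := nFc' ep e1 J c k τ)
    (p := PBT3.pI (wa τ) (wb τ)) (q := PBT3.qI (wa τ) (wb τ))
    (m := fun s => Real.exp |τ.1 + τ.2| ^ (1 - s) * (Real.exp (-mTv τ) / ‖PBT3.k1T τ‖) ^ s)
    (A := A') (C := Cc) (d := 1 / 20) (e := e) (e0 := 0) (e1 := 0) (κ := (k : ℝ)) (t := τ)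
    (le_max_right _ _) hCc0 (by norm_num) hκ le_rfl le_rfl
    (by
      have : PBTs.mT τ = mTv τ := rfl
      rw [this]
      refine hok.trans (le_of_eq ?_)
      ring)
    ((hk1 τ).trans (mul_le_mul_of_nonneg_right (le_max_left _ _) (Real.exp_pos _).le))
    (by
      rw [gI_v]
      have h := abs_le.1 (hgF τ)
      have h' : Cg ≤ Cc := le_max_left _ _
      linarith [h.2])
    (by
      rw [pI_v]
      have h := abs_le.1 (hpF τ)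
      have h' : Cp ≤ Cc := le_max_right _ _
      linarith [h.1])
    (fun s _ => hasDerivAt_nF hB hI 1 (κv k τ) s)
    (fun s hs => (hE k f3 τ hok hz c hc s hs.1 hs.2).trans
      (mul_le_mul_of_nonneg_right (f1 (Mv τ) hM0 (Mv_le_log f5 hok)) (hnn s)))
    (fun s _ => hnn s)
    (fun s _ => by
      simp only [sub_zero, Real.rpow_one, Real.rpow_zero, mul_one, sub_self, one_mul, le_refl])
    (by simp only [sub_zero, Real.rpow_one, Real.rpow_zero, mul_one, one_mul, le_refl])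
    (by
      simp only [sub_self, Real.rpow_one, Real.rpow_zero, one_mul]
      rw [mul_div_cancel₀ _ (norm_ne_zero_iff.2 hz)]
      exact le_rfl)
  rw [gI_v] at key
  refine key.trans ?_
  have e1' : (k : ℝ) ^ (e + 0 + 0 - 3 / 4) = (k : ℝ) ^ (-(3 / 4 - e - c1)) * (k : ℝ) ^ (-c1) := by
    rw [← Real.rpow_add hκ0]
    congr 1
    ring
  rw [e1', ← mul_assoc]
  calc 3 * A' * Real.exp (2 * Cc) * (k : ℝ) ^ (-(3 / 4 - e - c1)) * (k : ℝ) ^ (-c1)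
      ≤ 1 * (k : ℝ) ^ (-c1) := mul_le_mul_of_nonneg_right f2 (Real.rpow_nonneg hκ0.le _)
    _ = _ := one_mul _

/-- **(H3) between the two ends of the s-path**, arbitrary coefficients, no hypothesis -/
theorem h3_c {c1 : ℝ} (hc1 : c1 < 3 / 4) :
    ∃ a0 : ℝ, 0 < a0 ∧ ∀ ep e1 J : ℝ, 0 < ep → ep ≤ 1 / 100 → 0 < e1 → e1 ≤ 1 / 100 → 0 ≤ J →
      Real.exp (-(2 * Real.pi * J)) + 3 * e1 + 3 * ep ≤ a0 →
      ∀ᶠ k : ℕ in atTop, ∀ τ : ℝ × ℝ, okv k τ → ∀ c : ℕ → ℂ, (∀ n, ‖c n‖ = ‖Pv k τ‖) →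
        ‖PBT3.k1T τ‖ * ‖nFc ep e1 J c k τ 1 - Complex.exp (PBT3.gF τ) * nFc ep e1 J c k τ 0‖ ≤
          (k : ℝ) ^ (-c1) :=
  h3_cw ux_famV PBTW.ux_famW
    ⟨1, one_pos, fun ep e1 J a b c d e _ => mpp_w ep e1 J a b c d e⟩ (fun _ h0 h1 => gp_w h0 h1) hc1

end PBTV

end
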