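import Pool.Agent.PB.TRFin3
import Pool.Agent.WND.TRsFc
import Pool.Agent.WND.FzFF

/-!
# Plan W, W7: the two ends of the `s`-path with winding weight (helper24)

* `cz ζ k n := ζ ^ ((k - 1) - n)`: the coefficient of `n` quanta at `k - 1` rows; `cWk w k n := w ^ (n - (k - 1))`;
* `SWc c ep e1 J k τ`: the class W W with coefficients `c`;
* `nFc_eq`: the normalised functional with coefficients on the path;
* **`nFc_one`**: at `s = 1` it is `Rk (SWc c ep e1 J) k τ`;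
* **`nFc_zero`**: at `s = 0` and `c = cz ζ k` it is `f0z ζ (k - 1) (PBT3.zt τ)`;
* **`h3_z`**: (H3) with winding weight, uniformly in `ζ` on the unit circle.
-/

set_option autoImplicit false

noncomputable section

open Complex MeasureTheory Set Filter Topology

namespace WND

open NUP1 (l)
open NUGC (beC etaC etaC')
open NUP1S (O3)
open NUCR (CurB)
open PBFunc (WI F)
open PBF (FF FFN FAN expZ expN wN mN evN nF nF' PathD CfN)
open PBX (R0 ZL)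
open PBR (RZW)
open Pool.Agent.PB (Pf f0)
open PBT3 (wt pF gF k1T)
open PBTRat (EM)
open PBTR (nearS)
open PBU (cr cr')
open PBTV (Zv Dv Pv κv nFc wa wb nk rv okv)
open PBTRF (PD PI Rk KK)

attribute [local instance] NUSea.seaP

/-- the coefficient of `n` quanta at `k - 1` rows, function side -/
def cz (ζ : ℂ) (k n : ℕ) : ℂ := ζ ^ (((k - 1 : ℕ) : ℤ) - n)

/-- the coefficient of `n` quanta at `k - 1` rows, class side -/
def cWk (w : ℂ) (k n : ℕ) : ℂ := w ^ ((n : ℤ) - ((k - 1 : ℕ) : ℤ))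

theorem cWk_cz (ζ : ℂ) : cWk ζ⁻¹ = cz ζ := by
  funext k n
  unfold cWk cz
  rw [inv_zpow', neg_sub]

theorem cz_one (k n : ℕ) : cz 1 k n = 1 := one_zpow _

theorem norm_cz {ζ : ℂ} (h : ‖ζ‖ = 1) (k n : ℕ) : ‖cz ζ k n‖ = 1 := by
  unfold cz
  rw [norm_zpow, h, one_zpow]

theorem norm_cWk {w : ℂ} (h : ‖w‖ = 1) (k n : ℕ) : ‖cWk w k n‖ = 1 := by
  unfold cWk
  rw [norm_zpow, h, one_zpow]

/-- the class W W with coefficients -/
def SWc (c : ℕ → ℂ) (ep e1 J : ℝ) (k : ℕ) (τ : ℝ × ℝ) : ℂ :=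
  ∑ n ∈ Finset.range (2 * (k - 1) + 1), c n *
    FF (RZW (R0 (k - 1) (beC ep) [I, -I] []) (wt τ.1) (wt τ.2))
      (NUSea.O.par0 k) n n (cr e1 J k) (cr' e1 J k) (fun _ _ _ _ _ => 1)

section ends

variable {ep e1 J : ℝ} {k : ℕ} {τ : ℝ × ℝ} {B : ℝ} {c : ℕ → ℂ}

/-- the functional with coefficients on the path as the sum over the numbers of quanta -/
theorem nFc_eq (h : PD ep e1 J k τ B) (hI : PI ep e1 J k τ) (hc : ∀ n, ‖c n‖ = ‖Pv k τ‖) (s : ℝ) :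
    nFc ep e1 J c k τ s = Complex.exp (-(s * κv k τ)) *
      ∑ n ∈ Finset.range (2 * (k - 1) + 1), c n * FF (expZ (Zv ep k τ) (Dv τ) s) (NUSea.O.par0 k) n n
        (cr e1 J k) (cr' e1 J k) (fun _ _ _ _ _ => 1) := by
  have hm := PathD.mc h (s : ℂ)
  have hI' := PBTV.WI_c h.mc0 hc measurable_const hI
  have hW := PathD.wi h hI' (s : ℂ)
  have hΨ : ∀ n ≤ 2 * (k - 1), PBF.MIn ((fun _ _ _ _ _ _ => (1 : ℂ) : ℕ → PBF.Ins) n) :=
    fun n _ r a b => measurable_const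
  have h4 : (evN (fun _ _ _ _ _ _ => (1 : ℂ)) : CfN (2 * (k - 1)) → ℂ) = fun _ => 1 := rfl
  have hf : FAN (expN (fun _ => Zv ep k τ) (fun _ => Dv τ) s) (fun _ => NUSea.O.par0 k)
      (2 * (k - 1)) (fun _ => cr e1 J k) (fun _ => cr' e1 J k) c
      (fun _ _ _ _ _ _ => 1) < ⊤ := by
    rw [PBF.FAN_eq hm hΨ, h4]
    have h2 := hW.2
    unfold HasFiniteIntegral at h2
    simpa only [enorm_mul] using h2
  have h3 := PBF.FFN_eq hm hΨ hf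
  rw [h4] at h3
  unfold nFc nF
  rw [one_mul, ← h3]
  unfold FFN
  rfl

/-- **left end** -/
theorem nFc_zero (ζ : ℂ) (h : PD ep e1 J k τ B) (hI : PI ep e1 J k τ) (hep0 : 0 < ep)
    (hep : ep ≤ 1 / 100) (hcur : CurB ep (etaC e1 J k k) (etaC' e1 J k k)) (hζ : ‖ζ‖ = 1) :
    nFc ep e1 J (fun n => Pv k τ * cz ζ k n) k τ 0 = f0z ζ (k - 1) (PBT3.zt τ) := by
  have hl := PBR.l_pos'
  obtain ⟨z1, z2⟩ := PBTRF.zt_mem τ
  rw [nFc_eq h hI (fun n => by rw [norm_mul, norm_cz hζ, mul_one]) 0, ofReal_zero, PBF.expZ_zero,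
    zero_mul, neg_zero, Complex.exp_zero, one_mul]
  unfold Pv Zv f0z
  refine (fz_FF ζ (ep := ep) (P := NUSea.O.par0 k) (PBX.ParC_par0 k) (PBX.rad_low k) hep0 hep
    (by linarith) (by linarith) (Pool.Agent.PB.Rws_zero (k - 1)) (ex := [I, -I]) (ex0 := [])
    (fun w hw => ?_) (fun w hw => ?_) z1.le (by linarith) (η := fun _ => cr e1 J k)
    (η' := fun _ => cr' e1 J k) fun n _ r _ => Filter.Eventually.of_forall fun _ => hcur).symm
  · have : w.re = 0 := by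
      simp only [List.mem_cons, List.not_mem_nil, or_false] at hw
      rcases hw with rfl | rfl <;> simp
    rw [this, abs_zero]
    positivity
  · simp at hw

/-- **right end** -/
theorem nFc_one (a : ℕ → ℂ) (ha : ∀ n, ‖a n‖ = 1) (h : PD ep e1 J k τ B) (hI : PI ep e1 J k τ)
    (hep : ep ≤ 1 / 100) (hcur : CurB ep (etaC e1 J k k) (etaC' e1 J k k)) :
    nFc ep e1 J (fun n => Pv k τ * a n) k τ 1 = Rk (SWc a ep e1 J) k τ := by
  have hl := PBR.l_pos'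
  rw [nFc_eq h hI (fun n => by rw [norm_mul, ha, mul_one]) 1, ofReal_one, one_mul, PBTRF.exp_κv]
  have e2 : SWc a ep e1 J k τ = ∑ n ∈ Finset.range (2 * (k - 1) + 1), a n *
      FF (expZ (Zv ep k τ) (Dv τ) 1) (NUSea.O.par0 k) n n (cr e1 J k) (cr' e1 J k)
        (fun _ _ _ _ _ => 1) := by
    unfold SWc
    refine Finset.sum_congr rfl fun n _ => ?_
    congr 1
    rw [PBTs.ZW_RZW]
    exact PBTs.FF_WL (PBT3.wt_re _) (PBT3.wt_re _) (PBX.ParC_par0 k) (k - 1) (beC ep) [I, -I] []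
      (fun r _ => Filter.Eventually.of_forall fun _ t => by
        have h := hcur.h1 t
        refine h.trans ?_
        nlinarith) _
  unfold Rk
  rw [e2]
  have e3 : ∀ n, Pv k τ * a n * FF (expZ (Zv ep k τ) (Dv τ) 1) (NUSea.O.par0 k) n n (cr e1 J k)
      (cr' e1 J k) (fun _ _ _ _ _ => 1) = Pv k τ * (a n * FF (expZ (Zv ep k τ) (Dv τ) 1)
        (NUSea.O.par0 k) n n (cr e1 J k) (cr' e1 J k) (fun _ _ _ _ _ => 1)) := fun n => by ring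
  simp only [e3]
  rw [← Finset.mul_sum]
  unfold Pv
  ring

end ends

/-- **(H3) with winding weight** from the estimate between the two ends -/
theorem h3_ofc {ep e1 J c1 : ℝ} (hep0 : 0 < ep) (hep : ep ≤ 1 / 100) (he1 : 0 < e1)
    (he1' : e1 ≤ 1 / 100) (hJ : 0 ≤ J)
    (hI : ∀ᶠ k : ℕ in atTop, ∀ τ : ℝ × ℝ, okv k τ → PI ep e1 J k τ)
    (hE : ∀ᶠ k : ℕ in atTop, ∀ τ : ℝ × ℝ, okv k τ → ∀ c : ℕ → ℂ, (∀ n, ‖c n‖ = ‖Pv k τ‖) →
      ‖k1T τ‖ * ‖nFc ep e1 J c k τ 1 - Complex.exp (gF τ) * nFc ep e1 J c k τ 0‖ ≤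
        (k : ℝ) ^ (-c1)) :
    ∀ᶠ k : ℕ in atTop, ∀ τ ∈ nearS (3 / 8 + 1 / 20) k, ∀ ζ : ℂ, ‖ζ‖ = 1 →
      ‖k1T τ‖ * ‖Rk (SWc (cz ζ k) ep e1 J) k τ - Complex.exp (gF τ) * f0z ζ (k - 1) (PBT3.zt τ)‖ ≤
        (k : ℝ) ^ (-c1) := by
  obtain ⟨m0, hm0, hcur⟩ := PBF.curZ_crs he1 he1' hJ hep0
  obtain ⟨m1, hP⟩ := PBTRF.pathD_v he1 he1' hJ ep
  filter_upwards [hI, hE, eventually_ge_atTop m0, eventually_ge_atTop m1] with
    k g1 g2 g3 g4 τ hτ ζ hζ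
  have hok : okv k τ := by
    have h : PBTR.mT τ ≤ (3 / 8 + 1 / 20) * Real.log k := hτ
    show 2 * |τ.1| + 2 * |τ.2| + |τ.1 - τ.2| / 2 ≤ 17 / 40 * Real.log k
    have h2 : (3 / 8 + 1 / 20 : ℝ) * Real.log k = 17 / 40 * Real.log k := by ring
    rw [h2] at h
    exact h
  obtain ⟨B, hB⟩ := hP k g4 τ
  have hc : CurB ep (etaC e1 J k k) (etaC' e1 J k k) := hcur k g3 0 (fun i => i.elim0)
  rw [← nFc_one (cz ζ k) (norm_cz hζ k) hB (g1 τ hok) hep hc, ← nFc_zero ζ hB (g1 τ hok) hep0 hep hc hζ]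
  exact g2 τ hok _ fun n => by rw [norm_mul, norm_cz hζ, mul_one]

/-- **(H3) with winding weight** -/
theorem h3_z {c1 : ℝ} (hc1 : c1 < 3 / 4) :
    ∃ a0 : ℝ, 0 < a0 ∧ ∀ ep e1 J : ℝ, 0 < ep → ep ≤ 1 / 100 → 0 < e1 → e1 ≤ 1 / 100 → 0 ≤ J →
      Real.exp (-(2 * Real.pi * J)) + 3 * e1 + 3 * ep ≤ a0 →
      ∀ᶠ k : ℕ in atTop, ∀ τ ∈ nearS (3 / 8 + 1 / 20) k, ∀ ζ : ℂ, ‖ζ‖ = 1 →
        ‖k1T τ‖ * ‖Rk (SWc (cz ζ k) ep e1 J) k τ - Complex.exp (gF τ) * f0z ζ (k - 1) (PBT3.zt τ)‖ ≤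
          (k : ℝ) ^ (-c1) := by
  obtain ⟨a1, ha1, h3⟩ := PBTV.h3_c hc1
  obtain ⟨a2, ha2, h4⟩ := PBTRF.PI_ev PBTV.ux_famV
  refine ⟨min a1 a2, lt_min ha1 ha2, fun ep e1 J he he' h1 h1' hJ hs => ?_⟩
  exact h3_ofc he he' h1 h1' hJ (h4 ep e1 J he h1 hJ (hs.trans (min_le_right _ _)))
    (h3 ep e1 J he he' h1 h1' hJ (hs.trans (min_le_left _ _)))

end WND

end
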