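import Pool.Agent.PB.TRsum

/-!
# Plan W, W7 (4): integration over the heights of the half quanta at one level (helper23)

* **`WND.tr_level`**: the proof of `PBTR.tr_core` at one level `k`, rate `a ≥ 5 / 2`, the constants before `k`.
-/

set_option autoImplicit false

noncomputable section

open MeasureTheory Set Filter Topology Complex

namespace WND

open PBTR

/-- outside the near set -/
theorem exp_far {d L x : ℝ} (hd : 0 < d) (hd' : d ≤ 1 / 20) (hL : 0 ≤ L) (h1 : (3 / 8 + d) * L < x) :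
    -x ≤ -(3 / 8 + 7 / 8 * d) * L + -(d / 4 * x) := by
  have h2 : (1 - d / 4) * ((3 / 8 + d) * L) ≤ (1 - d / 4) * x :=
    mul_le_mul_of_nonneg_left h1.le (by linarith)
  have h3 : (3 / 8 + 7 / 8 * d) * L ≤ (1 - d / 4) * ((3 / 8 + d) * L) := by
    rw [← mul_assoc]
    refine mul_le_mul_of_nonneg_right ?_ hL
    have h4 : 0 ≤ d * (1 / 20 - d) := mul_nonneg hd.le (by linarith)
    have h5 : (1 - d / 4) * (3 / 8 + d) = 3 / 8 + 7 / 8 * d + (d / 32 - d * d / 4) := by ring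
    have h6 : 0 ≤ d / 32 - d * d / 4 := by
      have : d * d ≤ d * (1 / 20) := by linarith [mul_sub d (1 / 20) d]
      linarith
    linarith
  have h7 : (1 - d / 4) * x = x - d / 4 * x := by ring
  have h8 : -(3 / 8 + 7 / 8 * d) * L = -((3 / 8 + 7 / 8 * d) * L) := by ring
  linarith

/-- the weight of the far set is integrable -/
theorem int_mT {d : ℝ} (hd : 0 < d) :
    Integrable fun τ : ℝ × ℝ => Real.exp (-(d / 4 * mT τ)) := by
  refine (int_esT (θ := d / 4) (by linarith)).mono' ?_ (Eventually.of_forall fun τ => ?_)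
  · exact (Real.continuous_exp.comp (continuous_const.mul continuous_mT).neg).aestronglyMeasurable
  · rw [Real.norm_of_nonneg (Real.exp_pos _).le]
    apply Real.exp_le_exp.2
    have h1 := two_sT_le τ
    have h2 := sT_nonneg τ
    have h3 : d / 4 * sT τ ≤ d / 4 * mT τ := mul_le_mul_of_nonneg_left (by linarith) (by linarith)
    linarith

/-- **integration over the heights of the half quanta**, one level -/
theorem tr_level {d m c0 c1 a A B1 V0 : ℝ} (hd : 0 < d) (hd' : d ≤ 1 / 20) (hm : 0 < m) (hm' : m ≤ 3 / 8)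
    (hc0 : m ≤ c0) (hc1 : m ≤ c1) (ha : 5 / 2 ≤ a) (hA : 0 ≤ A) (hB1 : 0 ≤ B1) (hV0 : 0 ≤ V0) :
    ∃ B : ℝ, 0 ≤ B ∧ ∀ k : ℕ, 1 ≤ k → ∀ (n g0 : ℂ) (R F k1 E : ℝ × ℝ → ℂ) (W : Set (ℝ × ℝ)),
      MeasurableSet W → PBTR.nearS (3 / 8 + d) k ⊆ W →
      AEStronglyMeasurable (fun τ => k1 τ * R τ) (volume.restrict W) →
      AEStronglyMeasurable (fun τ => k1 τ * E τ) volume →
      ‖n - ∫ τ in W, k1 τ * R τ‖ ≤ (k : ℝ) ^ (-c0) →
      (∀ τ ∈ W, ‖k1 τ * R τ‖ ≤ (k : ℝ) ^ (d / 8) * Real.exp (-(PBTR.mT τ))) →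
      (∀ τ ∈ PBTR.nearS (3 / 8 + d) k, ‖k1 τ‖ * ‖R τ - E τ * F τ‖ ≤ (k : ℝ) ^ (-c1)) →
      (∀ τ, ‖k1 τ * E τ‖ ≤ A * Real.exp (-(a * PBTR.sT τ))) →
      (∀ τ ∈ PBTR.nearS (3 / 8 + d) k, ‖F τ - g0‖ * Real.exp (-(a * PBTR.sT τ)) ≤ B1 * (k : ℝ) ^ (-m)) →
      ‖g0‖ ≤ V0 * (k : ℝ) ^ (d / 8) →
      ‖n - g0 * ∫ τ, k1 τ * E τ‖ ≤ B * (k : ℝ) ^ (-(m / 2)) := by
  have hv := int_esT (θ := m / 4) (by linarith)
  have hw := int_mT hd
  set IV : ℝ := ∫ τ : ℝ × ℝ, Real.exp (-(m / 4 * sT τ)) with hIV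
  set IW : ℝ := ∫ τ : ℝ × ℝ, Real.exp (-(d / 4 * mT τ)) with hIW
  have hIV0 : 0 ≤ IV := integral_nonneg fun τ => (Real.exp_pos _).le
  have hIW0 : 0 ≤ IW := integral_nonneg fun τ => (Real.exp_pos _).le
  have hAB : 0 ≤ A * B1 := mul_nonneg hA hB1
  have hVA : 0 ≤ V0 * A := mul_nonneg hV0 hA
  refine ⟨1 + ((1 + A * B1) * IV + (1 + V0 * A) * IW), by positivity, ?_⟩
  intro k hk1 n g0 R F k1 E W hWm hWS q2 qK q3 q4 q5 qA q6 q7
  have hk : (1 : ℝ) ≤ k := by exact_mod_cast hk1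
  have hkp : (0 : ℝ) < k := by linarith
  have hL : 0 ≤ Real.log k := Real.log_nonneg hk
  have hq : 0 ≤ (k : ℝ) ^ (d / 8) := Real.rpow_nonneg hkp.le _
  have hKi : Integrable fun τ => k1 τ * E τ :=
    ((int_esT (θ := a) (by linarith)).const_mul A).mono' qK (Eventually.of_forall fun τ => qA τ)
  set RR : ℝ × ℝ → ℂ := W.indicator fun τ => k1 τ * R τ with hRR
  have hRRi : Integrable RR := by
    rw [hRR, integrable_indicator_iff hWm]
    refine Integrable.mono' (g := fun τ => (k : ℝ) ^ (d / 8) * Real.exp (-(d / 4 * mT τ)))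
      ((hw.const_mul _).integrableOn) q2 ?_
    refine (ae_restrict_iff' hWm).2 (Eventually.of_forall fun τ hτ => (q4 τ hτ).trans ?_)
    refine mul_le_mul_of_nonneg_left (Real.exp_le_exp.2 ?_) hq
    have h1 : d / 4 * mT τ ≤ 1 * mT τ := mul_le_mul_of_nonneg_right (by linarith) (mT_nonneg τ)
    linarith
  have hRRint : ∫ τ, RR τ = ∫ τ in W, k1 τ * R τ := by
    rw [hRR, integral_indicator hWm]
  -- near
  have h7 : (k : ℝ) ^ (-c1) ≤ (k : ℝ) ^ (-m) := Real.rpow_le_rpow_of_exponent_le hk (by linarith)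
  have near : ∀ τ ∈ nearS (3 / 8 + d) k, ‖RR τ - g0 * (k1 τ * E τ)‖ ≤
      ((1 + A * B1) * (k : ℝ) ^ (-(m / 2))) * Real.exp (-(m / 4 * sT τ)) := by
    intro τ hτ
    have h1 : RR τ = k1 τ * R τ := by
      rw [hRR, Set.indicator_of_mem (hWS hτ)]
    have h2 : RR τ - g0 * (k1 τ * E τ) = k1 τ * (R τ - E τ * F τ) + (k1 τ * E τ) * (F τ - g0) := by
      rw [h1]; ring
    have h5 : ‖k1 τ * E τ‖ * ‖F τ - g0‖ ≤ A * (B1 * (k : ℝ) ^ (-m)) := by
      calc _ ≤ A * Real.exp (-(a * sT τ)) * ‖F τ - g0‖ :=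
            mul_le_mul_of_nonneg_right (qA τ) (norm_nonneg _)
        _ = A * (‖F τ - g0‖ * Real.exp (-(a * sT τ))) := by ring
        _ ≤ _ := mul_le_mul_of_nonneg_left (q6 τ hτ) hA
    have h10 : (k : ℝ) ^ (-m) ≤ (k : ℝ) ^ (-(m / 2)) * Real.exp (-(m / 4 * sT τ)) := by
      rw [rpow_log hk, rpow_log hk, ← Real.exp_add]
      apply Real.exp_le_exp.2
      have h11 := (nearS_sT hd' hL hτ).1
      have h12 : m / 4 * sT τ ≤ m / 4 * (1 / 4 * Real.log k) :=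
        mul_le_mul_of_nonneg_left h11 (by linarith)
      have h13 : 0 ≤ m * Real.log k := mul_nonneg hm.le hL
      have h14 : m / 4 * (1 / 4 * Real.log k) = m * Real.log k / 16 := by ring
      have h15 : -(m / 2) * Real.log k = -(m * Real.log k / 2) := by ring
      have h16 : -m * Real.log k = -(m * Real.log k) := by ring
      linarith
    rw [h2]
    calc _ ≤ ‖k1 τ * (R τ - E τ * F τ)‖ + ‖(k1 τ * E τ) * (F τ - g0)‖ := norm_add_le _ _
      _ = ‖k1 τ‖ * ‖R τ - E τ * F τ‖ + ‖k1 τ * E τ‖ * ‖F τ - g0‖ := by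
          rw [norm_mul, norm_mul (k1 τ * E τ)]
      _ ≤ (k : ℝ) ^ (-m) + A * (B1 * (k : ℝ) ^ (-m)) := add_le_add ((q5 τ hτ).trans h7) h5
      _ = (1 + A * B1) * (k : ℝ) ^ (-m) := by ring
      _ ≤ (1 + A * B1) * ((k : ℝ) ^ (-(m / 2)) * Real.exp (-(m / 4 * sT τ))) :=
          mul_le_mul_of_nonneg_left h10 (by linarith)
      _ = _ := by ring
  -- far
  have hout : ∀ τ ∉ nearS (3 / 8 + d) k, Real.exp (-(mT τ)) ≤
      (k : ℝ) ^ (-(3 / 8 + 7 / 8 * d)) * Real.exp (-(d / 4 * mT τ)) := by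
    intro τ hτ
    have h1 : (3 / 8 + d) * Real.log k < mT τ := lt_of_not_ge hτ
    rw [rpow_log hk, ← Real.exp_add]
    exact Real.exp_le_exp.2 (exp_far hd hd' hL h1)
  have far : ∀ τ ∉ nearS (3 / 8 + d) k, ‖RR τ‖ ≤
      ((k : ℝ) ^ (d / 8) * (k : ℝ) ^ (-(3 / 8 + 7 / 8 * d))) * Real.exp (-(d / 4 * mT τ)) := by
    intro τ hτ
    by_cases hW : τ ∈ W
    · rw [hRR, Set.indicator_of_mem hW]
      refine (q4 τ hW).trans ?_
      rw [mul_assoc]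
      exact mul_le_mul_of_nonneg_left (hout τ hτ) hq
    · rw [hRR, Set.indicator_of_notMem hW, norm_zero]
      exact mul_nonneg (mul_nonneg hq (Real.rpow_nonneg hkp.le _)) (Real.exp_pos _).le
  have farK : ∀ τ ∉ nearS (3 / 8 + d) k, ‖k1 τ * E τ‖ ≤
      (A * (k : ℝ) ^ (-(3 / 8 + 7 / 8 * d))) * Real.exp (-(d / 4 * mT τ)) := by
    intro τ hτ
    refine (qA τ).trans ?_
    rw [mul_assoc]
    refine mul_le_mul_of_nonneg_left (le_trans (Real.exp_le_exp.2 ?_) (hout τ hτ)) hA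
    have h1 := mT_le τ
    have h3 : 5 / 2 * sT τ ≤ a * sT τ := mul_le_mul_of_nonneg_right ha (sT_nonneg τ)
    linarith
  have hA' : 0 ≤ A * (k : ℝ) ^ (-(3 / 8 + 7 / 8 * d)) := mul_nonneg hA (Real.rpow_nonneg hkp.le _)
  have hfin := nearfar (μ := volume) (measurableSet_nearS (3 / 8 + d) k) (g := g0) hRRi hKi hv hw
    (fun τ => (Real.exp_pos _).le) (fun τ => (Real.exp_pos _).le)
    (mul_nonneg hq (Real.rpow_nonneg hkp.le _))
    (mul_nonneg (by linarith) (Real.rpow_nonneg hkp.le _)) near far farK (A := IV) (B := IW) le_rfl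
    (setIntegral_le_integral hw (Eventually.of_forall fun τ => (Real.exp_pos _).le)) hA'
  rw [hRRint] at hfin
  have p1 : (k : ℝ) ^ (-c0) ≤ (k : ℝ) ^ (-(m / 2)) :=
    Real.rpow_le_rpow_of_exponent_le hk (by linarith)
  have p2 : (k : ℝ) ^ (d / 8) * (k : ℝ) ^ (-(3 / 8 + 7 / 8 * d)) ≤ (k : ℝ) ^ (-(m / 2)) := by
    rw [← Real.rpow_add hkp]
    exact Real.rpow_le_rpow_of_exponent_le hk (by linarith)
  have p3 : ‖g0‖ * (A * (k : ℝ) ^ (-(3 / 8 + 7 / 8 * d))) ≤ V0 * A * (k : ℝ) ^ (-(m / 2)) := by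
    calc _ ≤ V0 * (k : ℝ) ^ (d / 8) * (A * (k : ℝ) ^ (-(3 / 8 + 7 / 8 * d))) :=
          mul_le_mul_of_nonneg_right q7 hA'
      _ = V0 * A * ((k : ℝ) ^ (d / 8) * (k : ℝ) ^ (-(3 / 8 + 7 / 8 * d))) := by ring
      _ ≤ _ := mul_le_mul_of_nonneg_left p2 hVA
  have e1 : n - g0 * ∫ τ, k1 τ * E τ = (n - ∫ τ in W, k1 τ * R τ) +
      ((∫ τ in W, k1 τ * R τ) - g0 * ∫ τ, k1 τ * E τ) := by ring
  rw [e1]
  refine (norm_add_le _ _).trans ?_
  have p4 : ((k : ℝ) ^ (d / 8) * (k : ℝ) ^ (-(3 / 8 + 7 / 8 * d)) +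
      ‖g0‖ * (A * (k : ℝ) ^ (-(3 / 8 + 7 / 8 * d)))) * IW ≤
      (((k : ℝ) ^ (-(m / 2)) + V0 * A * (k : ℝ) ^ (-(m / 2)))) * IW :=
    mul_le_mul_of_nonneg_right (add_le_add p2 p3) hIW0
  calc _ ≤ (k : ℝ) ^ (-(m / 2)) + ((1 + A * B1) * (k : ℝ) ^ (-(m / 2)) * IV +
        (((k : ℝ) ^ (-(m / 2)) + V0 * A * (k : ℝ) ^ (-(m / 2)))) * IW) :=
        add_le_add (q3.trans p1) (hfin.trans (add_le_add le_rfl p4))
    _ = _ := by ring

end WND
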