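import Pool.Agent.PB.TRFin
import Pool.Agent.WND.FunW
import Pool.Agent.WND.FunHd

/-!
# Plan W, W7: the function side of the transfer with winding weight (helper24)

* `EW d τ := exp (gF τ) * (ga d (zt τ))⁻¹`: `EW d τ * f0t d N (zt τ) = exp (gF τ) * f0z (ζ_d) N (zt τ)`;
* `k1E_le`: `‖k1T * EW d‖ ≤ A e^{-(43/15) (|τ₁| + |τ₂|)}`, `|d| ≤ 1 / 10`;
* `kapW d := u0 * ∫ k1T * EW d`, `kapW_le`;
* **`harmW`**: on the near set `‖f0t d (k-1) (zt τ) - f0t d (k-1) 0‖ e^{-(43/15) (|τ₁| + |τ₂|)} ≤ 2 k^{-1/4}`,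
  uniformly in the index; `g0W`: `‖f0t d (k-1) 0‖ ≤ k^ε`.
-/

set_option autoImplicit false

noncomputable section

open Complex MeasureTheory Set Filter Topology

namespace WND

open PBT3 (gF k1T)
open PBTR (nearS sT yT mT)

/-- the factor of the constant -/
def EW (d : ℝ) (τ : ℝ × ℝ) : ℂ := exp (gF τ) * (ga d (PBT3.zt τ))⁻¹

theorem ga_ne (d z : ℂ) : ga d z ≠ 0 := exp_ne_zero _

theorem EW_mul (d : ℝ) (N : ℕ) (τ : ℝ × ℝ) :
    EW d τ * f0t d N (PBT3.zt τ) = exp (gF τ) * f0z (zt d) N (PBT3.zt τ) := by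
  rw [f0t_eq, EW]
  have h := ga_ne d (PBT3.zt τ)
  field_simp

theorem f0t_z0 (d : ℂ) (N : ℕ) : f0t d N 0 = f0z (zt d) N 0 := by
  rw [f0t_eq]
  unfold ga
  rw [mul_zero, exp_zero, one_mul]

theorem zt_zT' (τ : ℝ × ℝ) : (PBT3.zt τ).re = -(NUP1.l / 4) ∧ (PBT3.zt τ).im = -yT τ := by
  refine ⟨PBT3.zt_re τ, ?_⟩
  rw [PBT3.zt_im]
  unfold yT
  ring

theorem continuous_EW (d : ℝ) : Continuous (EW d) := by
  unfold EW
  refine PBT3.continuous_exp_gF.mul (Continuous.inv₀ ?_ fun τ => ga_ne _ _)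
  unfold ga
  exact (continuous_const.mul PBT3.continuous_zt).cexp

theorem norm_EW (d : ℝ) (τ : ℝ × ℝ) :
    ‖EW d τ‖ = ‖exp (gF τ)‖ * Real.exp (8 / 3 * d * yT τ) := by
  unfold EW
  rw [norm_mul, norm_inv, norm_ga, (zt_zT' τ).2, ← Real.exp_neg]
  congr 2
  ring

/-- **bound of the kernel of the constant** -/
theorem k1E_le : ∃ A : ℝ, 0 ≤ A ∧ ∀ d : ℝ, |d| ≤ 1 / 10 → ∀ τ : ℝ × ℝ,
    ‖k1T τ * EW d τ‖ ≤ A * Real.exp (-(43 / 15 * sT τ)) := by
  obtain ⟨A, hA, h⟩ := PBT3.k1_exp_le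
  refine ⟨A, hA.le, fun d hd τ => ?_⟩
  rw [norm_mul, norm_EW, ← mul_assoc, ← norm_mul]
  have h2 : 8 / 3 * d * yT τ ≤ 2 / 15 * sT τ := by
    have e1 : d * yT τ ≤ |d| * |yT τ| := by
      rw [← abs_mul]
      exact le_abs_self _
    have e2 := PBTR.yT_le τ
    have e3 := abs_nonneg (yT τ)
    nlinarith
  calc ‖k1T τ * exp (gF τ)‖ * Real.exp (8 / 3 * d * yT τ)
      ≤ A * Real.exp (-(3 * (|τ.1| + |τ.2|))) * Real.exp (2 / 15 * sT τ) :=
        mul_le_mul (h τ) (Real.exp_le_exp.2 h2) (Real.exp_pos _).le (by positivity)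
    _ = A * Real.exp (-(43 / 15 * sT τ)) := by
        rw [mul_assoc, ← Real.exp_add]
        congr 2
        unfold sT
        ring

/-- the constant of the transfer -/
def kapW (d : ℝ) : ℂ := PBTRF.u0 * ∫ τ, k1T τ * EW d τ

theorem meas_k1E (d : ℝ) : AEStronglyMeasurable (fun τ => k1T τ * EW d τ) volume :=
  (PBT3.continuous_k1T.mul (continuous_EW d)).aestronglyMeasurable

theorem kapW_le : ∃ K : ℝ, 0 ≤ K ∧ ∀ d : ℝ, |d| ≤ 1 / 10 → ‖kapW d‖ ≤ K := by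
  obtain ⟨A, hA, h⟩ := k1E_le
  have hi := (PBTR.int_esT (θ := 43 / 15) (by norm_num)).const_mul A
  have h0 : 0 ≤ ∫ τ, A * Real.exp (-(43 / 15 * sT τ)) := integral_nonneg fun τ => by positivity
  refine ⟨‖PBTRF.u0‖ * ∫ τ, A * Real.exp (-(43 / 15 * sT τ)), by positivity, fun d hd => ?_⟩
  unfold kapW
  rw [norm_mul]
  refine mul_le_mul_of_nonneg_left ?_ (norm_nonneg _)
  exact norm_integral_le_of_norm_le hi (Eventually.of_forall (h d hd))

/-! ### the functions on the near set -/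

section fun_side

variable {ι : Type*} {dd : ι → ℝ} {c : ℝ} {g : ι → ℕ → ℂ} {ginf : ι → ℂ}

theorem ev_log_pred : ∀ᶠ k : ℕ in atTop, 0 ≤ Real.log k ∧ 1 ≤ k - 1 ∧
    (17 / 160 : ℝ) * Real.log k ≤ 9 / 80 * Real.log ((k - 1 : ℕ) : ℝ) ∧
    (k : ℝ) ^ (1 / 4 : ℝ) ≤ ((k - 1 : ℕ) : ℝ) ^ (3 / 10 : ℝ) := by
  have h1 := PBTR.ev_log 100
  filter_upwards [h1, eventually_ge_atTop 2] with k h1 h2
  have h3 : (2 : ℝ) ≤ k := by exact_mod_cast h2
  have hc : ((k - 1 : ℕ) : ℝ) = k - 1 := by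
    rw [Nat.cast_sub (by omega)]
    norm_num
  have h4 : Real.log k - Real.log 2 ≤ Real.log ((k - 1 : ℕ) : ℝ) := by
    rw [← Real.log_div (by linarith) (by norm_num), hc]
    exact Real.log_le_log (by linarith) (by linarith)
  have h5 : Real.log 2 ≤ 1 := by
    have := Real.log_two_lt_d9
    linarith
  have hk1 : (0 : ℝ) < ((k - 1 : ℕ) : ℝ) := by rw [hc]; linarith
  refine ⟨by linarith, by omega, by linarith, ?_⟩
  rw [Real.rpow_def_of_pos (by linarith : (0 : ℝ) < k), Real.rpow_def_of_pos hk1]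
  apply Real.exp_le_exp.2
  linarith

/-- **the functions on the near set** -/
theorem harmW (hO : WNDF.FunOW c (2 + 4 / 15) dd (fun i j z => f0t (dd i) j z) g ginf)
    (hc : 3 / 8 ≤ c) :
    ∀ᶠ k : ℕ in atTop, ∀ i, ∀ τ ∈ nearS (3 / 8 + 1 / 20) k,
      ‖f0t (dd i) (k - 1) (PBT3.zt τ) - f0t (dd i) (k - 1) 0‖ * Real.exp (-(43 / 15 * sT τ)) ≤
        2 * (k : ℝ) ^ (-(1 / 4) : ℝ) := by
  have hl := PBR.l_pos'
  have ht : Tendsto (fun k : ℕ => k - 1) atTop atTop := tendsto_sub_atTop_nat 1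
  have hv := ht.eventually (hO.val 0 le_rfl PBV.σL_pos (3 / 40) (by norm_num))
  filter_upwards [hv, ev_log_pred] with k h1 h2 i τ hτ
  obtain ⟨hL, hk1, hlog, hpow⟩ := h2
  obtain ⟨-, hy, -⟩ := PBTR.nearS_sT le_rfl hL hτ
  obtain ⟨zr, zi⟩ := zt_zT' τ
  have hs0 := PBTR.sT_nonneg τ
  have hys := PBTR.yT_le τ
  have hj : (1 : ℝ) ≤ ((k - 1 : ℕ) : ℝ) := by exact_mod_cast hk1
  have hj0 : (0 : ℝ) < ((k - 1 : ℕ) : ℝ) := by linarith
  have hk0 : (0 : ℝ) < k := by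
    have : 0 < k := by omega
    exact_mod_cast this
  set j : ℕ := k - 1 with hjdef
  have hjlog : 0 ≤ Real.log (j : ℝ) := Real.log_nonneg hj
  -- one value, at any point of the strip of the near set
  have key : ∀ z : ℂ, |z.re| ≤ PBV.aL → |z.im| ≤ 17 / 160 * Real.log k → |z.im| ≤ |yT τ| →
      ‖f0t (dd i) j z - g i j‖ * Real.exp (-(43 / 15 * sT τ)) ≤ (k : ℝ) ^ (-(1 / 4) : ℝ) := by
    intro z z1 z2 z3
    have h3 := h1 i z (by linarith) (z2.trans hlog)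
    have ha := abs_nonneg z.im
    have h4 : (j : ℝ) ^ (-(c * (1 - |z.im| / (9 / 80 * Real.log j))) + 3 / 40) ≤
        (j : ℝ) ^ (-(3 / 10) : ℝ) * Real.exp (10 / 3 * |z.im|) := by
      rcases hjlog.eq_or_lt with hz | hz
      · have hj1 : (j : ℝ) = 1 := by
          have := Real.exp_log hj0
          rw [← hz, Real.exp_zero] at this
          exact this.symm
        rw [hj1, Real.one_rpow, Real.one_rpow, one_mul]
        exact Real.one_le_exp (by positivity)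
      · rw [Real.rpow_def_of_pos hj0, Real.rpow_def_of_pos hj0, ← Real.exp_add]
        apply Real.exp_le_exp.2
        have h5 : 0 ≤ 1 - |z.im| / (9 / 80 * Real.log j) := by
          rw [sub_nonneg, div_le_one (by positivity)]
          exact z2.trans hlog
        have h6 : 3 / 8 * (1 - |z.im| / (9 / 80 * Real.log j)) ≤
            c * (1 - |z.im| / (9 / 80 * Real.log j)) := mul_le_mul_of_nonneg_right hc h5
        have h7 : Real.log j * (|z.im| / (9 / 80 * Real.log j)) = 80 / 9 * |z.im| := by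
          field_simp
        nlinarith
    have h5 : Real.exp (10 / 3 * |z.im|) * Real.exp ((2 + 4 / 15) * |z.im|) *
        Real.exp (-(43 / 15 * sT τ)) ≤ 1 := by
      rw [← Real.exp_add, ← Real.exp_add]
      apply Real.exp_le_one_iff.2
      nlinarith
    calc ‖f0t (dd i) j z - g i j‖ * Real.exp (-(43 / 15 * sT τ))
        ≤ ((j : ℝ) ^ (-(3 / 10) : ℝ) * Real.exp (10 / 3 * |z.im|)) * Real.exp ((2 + 4 / 15) * |z.im|) *
          Real.exp (-(43 / 15 * sT τ)) :=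
          mul_le_mul_of_nonneg_right (h3.trans (mul_le_mul_of_nonneg_right h4 (Real.exp_pos _).le))
            (Real.exp_pos _).le
      _ = (j : ℝ) ^ (-(3 / 10) : ℝ) * (Real.exp (10 / 3 * |z.im|) * Real.exp ((2 + 4 / 15) * |z.im|) *
          Real.exp (-(43 / 15 * sT τ))) := by ring
      _ ≤ (j : ℝ) ^ (-(3 / 10) : ℝ) * 1 := mul_le_mul_of_nonneg_left h5 (by positivity)
      _ ≤ (k : ℝ) ^ (-(1 / 4) : ℝ) := by
          rw [mul_one, Real.rpow_neg hj0.le, Real.rpow_neg hk0.le]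
          exact inv_anti₀ (by positivity) hpow
  have haL := PBV.aL_eq
  have k1 := key (PBT3.zt τ) (by
    rw [zr, abs_neg, abs_of_pos (by positivity), haL]
    linarith) (by
    rw [zi, abs_neg]
    refine hy.trans (le_of_eq ?_)
    ring) (by rw [zi, abs_neg])
  have k2 := key 0 (by
    simp only [zero_re, abs_zero]
    exact PBV.aL_pos.le) (by
    simp only [zero_im, abs_zero]
    positivity) (by
    simp only [zero_im, abs_zero]
    exact abs_nonneg _)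
  have e : f0t (dd i) j (PBT3.zt τ) - f0t (dd i) j 0 =
      (f0t (dd i) j (PBT3.zt τ) - g i j) - (f0t (dd i) j 0 - g i j) := by ring
  rw [e]
  calc _ ≤ (‖f0t (dd i) j (PBT3.zt τ) - g i j‖ + ‖f0t (dd i) j 0 - g i j‖) *
        Real.exp (-(43 / 15 * sT τ)) :=
        mul_le_mul_of_nonneg_right (norm_sub_le _ _) (Real.exp_pos _).le
    _ = _ := add_mul _ _ _
    _ ≤ (k : ℝ) ^ (-(1 / 4) : ℝ) + (k : ℝ) ^ (-(1 / 4) : ℝ) := add_le_add k1 k2
    _ = _ := by ring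

end fun_side

/-- the value at `0` -/
theorem g0W {ε : ℝ} (hε : 0 < ε) : ∀ᶠ k : ℕ in atTop, ∀ d : ℝ, |d| ≤ 1 / 10 →
    ‖f0t d (k - 1) 0‖ ≤ 1 * (k : ℝ) ^ ε := by
  have ht : Tendsto (fun k : ℕ => k - 1) atTop atTop := tendsto_sub_atTop_nat 1
  filter_upwards [ht.eventually (hd_uf hε), ev_log_pred] with k h1 h2 d hd
  obtain ⟨hL, hk1, hlog, hpow⟩ := h2
  have hj : (1 : ℝ) ≤ ((k - 1 : ℕ) : ℝ) := by exact_mod_cast hk1
  have hk0 : ((k - 1 : ℕ) : ℝ) ≤ k := by exact_mod_cast Nat.sub_le _ _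
  have h3 := h1 d hd 0 (by simp) (by
    simp only [zero_im, abs_zero]
    have := Real.log_nonneg hj
    linarith)
  simp only [zero_im, abs_zero, mul_zero, Real.exp_zero, mul_one] at h3
  rw [one_mul]
  exact h3.trans (Real.rpow_le_rpow (by linarith) hk0 hε.le)

end WND

end
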