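import Pool.Agent.WND.TRFin2c
import Pool.Agent.WND.TRfunW
import Pool.Agent.WND.TRcore
import Pool.Agent.WND.FunWI
import Pool.Agent.WND.E2z
import Pool.Agent.WND.Main
import Pool.Agent.WND.W0GasW
import Pool.Agent.PB.TRH1

/-!
# Plan W, W7: the transfer with winding weight (helper24)

* **`funO_z`**: the function side, `|d| ≤ 1 / 10`, no hypothesis;
* `G0 d`, **`funZ_z`**: `FunZ (fun N d => f0z (ζ_d) N 0) G0 (1 / 2) (1 / 10)`, `G0` bounded;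
* `H1c`, `Hmc`, `H2c`: class decomposition, measurability, bound on the window, coefficients `c n`;
* `phys_W`: the physical function with winding weight is the class side with coefficients `cz ζ k`;
* **`tr1z_of`**, **`trz_all_of`**: `TR1Z nrm Wz (f0z) (1 / 10)`, `TRZ nrm Wz (1 / 10)`.
-/

set_option autoImplicit false

noncomputable section

open Complex MeasureTheory Set Filter Topology

namespace WND

open NUP1 (l)
open NUGC (beC)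
open PBX (R0)
open PBT3 (gF k1T)
open PBTR (nearS sT yT mT winW)
open PBTRF (Rk KK u0 u0_ne KK_eq)
open PBI (nrR)
open PBR (EED)

attribute [local instance] NUSea.seaP

/-! ### the function side -/

theorem u0Z : WNDF.U0Z 1 := by
  have key : ∀ᶠ j : ℕ in atTop, 2 * Real.exp 2 * (j : ℝ) ^ (2 / 5 : ℝ) ≤ (j : ℝ) ^ (1 : ℝ) :=
    PBV.ev_pow (2 * Real.exp 2) (by norm_num)
  constructor
  · filter_upwards [u0z.1, key] with j h1 h2 w hw z hz hz'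
    refine (h1 w hw z hz hz').trans (le_trans ?_ h2)
    have : 0 ≤ Real.exp 2 * (j : ℝ) ^ (2 / 5 : ℝ) := by positivity
    linarith
  · filter_upwards [u0z.2, key] with j h1 h2 w hw s hs z hz hz'
    refine (h1 w hw s hs z hz hz').trans (le_trans (le_of_eq ?_) h2)
    ring

theorem u1Z : WNDF.U1Z := fun ε hε => u1z ε hε

theorem e2Z : WNDF.E2Z (1 / 2) := WNDF.E2Z_of_seq fun _ h => e2z h

/-- **the function side with a twist** -/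
theorem funO_z : ∃ ginf : WNDF.Tw (1 / 10) → ℂ, Continuous ginf ∧
    WNDF.FunOW (1 / 2) (2 + 4 / 15) (fun i : WNDF.Tw (1 / 10) => i.1)
      (fun i j z => f0t (i.1 : ℂ) j z) (fun i j => PBV.bK (f0t (i.1 : ℂ)) j 0) ginf := by
  obtain ⟨g, h1, h2⟩ := WNDF.funW_f0t (C := 1) (c := 1 / 2) (Dd := 1 / 10) (by norm_num) le_rfl
    (by unfold WNDF.nuW; norm_num) le_rfl u0Z u1Z e2Z
  refine ⟨g, h1, ?_⟩
  have e : (2 + 8 / 3 * (1 / 10) : ℝ) = 2 + 4 / 15 := by norm_num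
  rw [e] at h2
  exact h2

/-- **function side for the top level** -/
theorem funZ_z : ∃ (g : ℝ → ℂ) (B : ℝ), (∀ d : ℝ, |d| ≤ 1 / 10 → ‖g d‖ ≤ B) ∧
    ContinuousOn g (Icc (-(1 / 10)) (1 / 10)) ∧
    FunZ (fun N d => f0z (zt d) N 0) g (1 / 2) (1 / 10) := by
  obtain ⟨ginf, hcont, hO⟩ := funO_z
  have hset : {d : ℝ | |d| ≤ 1 / 10} = Icc (-(1 / 10)) (1 / 10) := by
    ext d
    simp [abs_le]
  have hcomp : IsCompact {d : ℝ | |d| ≤ 1 / 10} := by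
    rw [hset]
    exact isCompact_Icc
  haveI : CompactSpace (WNDF.Tw (1 / 10)) := isCompact_iff_compactSpace.1 hcomp
  obtain ⟨B, hB⟩ := (isCompact_univ : IsCompact (univ : Set (WNDF.Tw (1 / 10)))).exists_bound_of_continuousOn
    hcont.continuousOn
  set G : ℝ → ℂ := fun d => if h : |d| ≤ 1 / 10 then ginf ⟨d, h⟩ else 0 with hG
  have hGd : ∀ d (h : |d| ≤ 1 / 10), G d = ginf ⟨d, h⟩ := fun d h => by
    rw [hG]
    exact dif_pos h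
  refine ⟨G, B, fun d hd => ?_, ?_, ?_⟩
  · rw [hGd d hd]
    exact hB _ (mem_univ _)
  · rw [continuousOn_iff_continuous_restrict]
    have e : (Icc (-(1 / 10 : ℝ)) (1 / 10)).domRestrict G =
        ginf ∘ fun x : Icc (-(1 / 10 : ℝ)) (1 / 10) => (⟨x.1, by
          have := x.2
          rw [abs_le]
          exact ⟨by linarith [this.1], by linarith [this.2]⟩⟩ : WNDF.Tw (1 / 10)) := by
      funext x
      exact hGd _ _
    rw [e]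
    exact hcont.comp (Continuous.subtype_mk continuous_subtype_val _)
  · obtain ⟨C1, hC1, h1⟩ := hO.lim
    obtain ⟨C2, hC2, h2⟩ := hO.box
    refine ⟨C1 + C2, ?_⟩
    filter_upwards [h1, h2] with j a1 a2 d hd
    have e1 := a1 ⟨d, hd⟩
    have e2 := a2 ⟨d, hd⟩ 0 (by simpa using PBV.aL_pos.le) (by simp)
    rw [hGd d hd, ← f0t_z0]
    have e : f0t (d : ℂ) j 0 - ginf ⟨d, hd⟩ * (((j : ℝ) ^ (-(2 / 3 * d ^ 2)) : ℝ) : ℂ) =
        (f0t (d : ℂ) j 0 - PBV.bK (f0t (d : ℂ)) j 0) + (PBV.bK (f0t (d : ℂ)) j 0 -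
          ginf ⟨d, hd⟩ * (((j : ℝ) ^ (-(2 / 3 * d ^ 2)) : ℝ) : ℂ)) := by ring
    rw [e]
    refine (norm_add_le _ _).trans ?_
    have e1' : ‖PBV.bK (f0t (d : ℂ)) j 0 -
        ginf ⟨d, hd⟩ * (((j : ℝ) ^ (-(2 / 3 * d ^ 2)) : ℝ) : ℂ)‖ ≤ C1 * (j : ℝ) ^ (-(1 / 2) : ℝ) := e1
    have e2' : ‖f0t (d : ℂ) j 0 - PBV.bK (f0t (d : ℂ)) j 0‖ ≤ C2 * (j : ℝ) ^ (-(1 / 2) : ℝ) := e2
    linarith

/-! ### inputs -/

/-- class decomposition with coefficients -/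
def H1c (c0 : ℝ) : Prop := ∃ ep0 : ℝ, 0 < ep0 ∧ ep0 ≤ 1 / 100 ∧
  ∀ ep : ℝ, 0 < ep → ep ≤ ep0 → ∀ e1 : ℝ, 0 < e1 → e1 ≤ 1 / 100 → ∀ J : ℝ, 0 ≤ J →
  ∀ᶠ k : ℕ in atTop, ∀ c : ℕ → ℂ, (∀ n, ‖c n‖ ≤ 1) →
    ‖nrR k * ∑ n ∈ Finset.range (2 * (k - 1) + 1), c n * EED (R0 (k - 1) (beC ep) [I, -I] []) n -
      ∫ τ in winW (3 / 8) k, KK (SWc c ep e1 J) k τ‖ ≤ (k : ℝ) ^ (-c0)

/-- measurability -/
def Hmc : Prop := ∀ ep : ℝ, 0 < ep → ep ≤ 1 / 100 → ∀ e1 : ℝ, 0 < e1 → e1 ≤ 1 / 100 → ∀ J : ℝ, 0 ≤ J →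
  ∀ᶠ k : ℕ in atTop, ∀ c : ℕ → ℂ, AEStronglyMeasurable (KK (SWc c ep e1 J) k) volume

/-- bound on the window with coefficients -/
def H2c (e : ℝ) : Prop := ∃ κ0 : ℝ, 0 < κ0 ∧ κ0 ≤ 1 / 100 ∧
  ∀ ep : ℝ, 0 < ep → ep ≤ κ0 → ∀ e1 : ℝ, 0 < e1 → e1 ≤ κ0 → ∀ J : ℝ, 0 ≤ J →
  Real.exp (-(2 * Real.pi * J)) ≤ κ0 →
  ∀ᶠ k : ℕ in atTop, ∀ c : ℕ → ℂ, (∀ n, ‖c n‖ ≤ 1) → ∀ τ ∈ winW (3 / 8) k,
    ‖KK (SWc c ep e1 J) k τ‖ ≤ (k : ℝ) ^ e * Real.exp (-(mT τ))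

/-- the physical function `Wz` is the class side with winding weight -/
def PhysZ (Wz : ℕ → ℝ → ℂ) : Prop := ∀ ep : ℝ, 0 < ep → ep ≤ 1 / 100 → ∀ k : ℕ, 1 ≤ k →
  ∀ d : ℝ, |d| ≤ 1 / 10 →
    2 ^ (2 * k * (2 * k - 1)) * (Pool.Agent.PB.B0 k ^ 2 * Wz k d) / ((PBM.bulk0 k : ℝ) : ℂ) =
      nrR k * ∑ n ∈ Finset.range (2 * (k - 1) + 1), cz (zt d) k n *
        EED (R0 (k - 1) (beC ep) [I, -I] []) n

/-- the normaliser and the phase -/
theorem nrm_mul (k : ℕ) (w : ℂ) : ((PBM.nrm k : ℝ) : ℂ) * w = PBM.ph k *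
    (2 ^ (2 * k * (2 * k - 1)) * (Pool.Agent.PB.B0 k ^ 2 * w) / ((PBM.bulk0 k : ℝ) : ℂ)) := by
  unfold PBM.nrm
  have h := PBM.ph_mul k
  rw [PBM.B0_RR]
  push_cast at h ⊢
  rw [← h]
  ring

/-- **the physical function with winding weight**, `χ ^ 2 = ζ⁻¹` -/
theorem phys_W {χ : ℂ} (hlat : Pool.Agent.WND.LatW χ) (hχ : χ ≠ 0) {d : ℝ} (h2 : χ ^ 2 = (zt d)⁻¹)
    {k : ℕ} (hk : 1 ≤ k) {ep : ℝ} (hep : 0 < ep) (hep1 : ep ≤ 1 / 100) :
    2 ^ (2 * k * (2 * k - 1)) * (Pool.Agent.PB.B0 k ^ 2 * Pool.Agent.WND.W0W χ k hk) /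
        ((PBM.bulk0 k : ℝ) : ℂ) =
      nrR k * ∑ n ∈ Finset.range (2 * (k - 1) + 1), cz (zt d) k n *
        EED (R0 (k - 1) (beC ep) [I, -I] []) n := by
  have h := Pool.Agent.WND.W0_gasW_R0 hlat hχ hk (a := 31 / 50) (Or.inl rfl) (β := beC ep)
    (PBO.beC_bd hep hep1).1 (by unfold beC; linarith) (ex := [I, -I]) (ex0 := []) PBO.cutOk_I.re
    (by simp)
  have hb : PBM.bulk0 k = Pool.Agent.NUF.bulk k := rfl
  have hc : ∀ n : ℕ, (χ ^ 2) ^ ((n : ℤ) - ((k - 1 : ℕ) : ℤ)) = cz (zt d) k n := by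
    intro n
    rw [h2]
    unfold cz
    rw [inv_zpow', neg_sub]
  simp only [hc] at h
  rw [h, hb]
  unfold nrR EED
  ring

/-! ### the transfer -/

theorem abs_pow {a b : ℝ} (h : a < b) (M : ℝ) : ∀ᶠ k : ℕ in atTop, M * (k : ℝ) ^ a ≤ (k : ℝ) ^ b :=
  PBV.ev_pow M h

/-- **the transfer with winding weight** -/
theorem tr1z_of {Wz : ℕ → ℝ → ℂ} (hW : PhysZ Wz) (H1 : H1c (13 / 32)) (Hm : Hmc) (H2 : H2c (1 / 180)) :
    TR1Z PBM.nrm Wz (fun N d => f0z (zt d) N 0) (1 / 10) := by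
  obtain ⟨ep0, hep0, -, H1⟩ := H1
  obtain ⟨κ0, hκ, hκ1, H2⟩ := H2
  obtain ⟨a1, ha1, h3⟩ := h3_z (c1 := 1 / 2) (by norm_num)
  obtain ⟨ginf, -, hO⟩ := funO_z
  obtain ⟨A, hA, hk1E⟩ := k1E_le
  obtain ⟨K, hK, hkap⟩ := kapW_le
  obtain ⟨a, ha⟩ : ∃ a, a = min (min ep0 κ0) a1 := ⟨_, rfl⟩
  have ha0 : 0 < a := by rw [ha]; exact lt_min (lt_min hep0 hκ) ha1
  have q1 : a ≤ ep0 := by rw [ha]; exact (min_le_left _ _).trans (min_le_left _ _)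
  have q2 : a ≤ κ0 := by rw [ha]; exact (min_le_left _ _).trans (min_le_right _ _)
  have q3 : a ≤ a1 := by rw [ha]; exact min_le_right _ _
  obtain ⟨ep, J, he, he', hJ, hs⟩ := PBU.exists_small ha0
  have hexp := Real.exp_pos (-(2 * Real.pi * J))
  have he1 : ep ≤ 1 / 100 := he'.trans (q2.trans hκ1)
  have h1 := H1 ep he (he'.trans q1) ep he he1 J hJ
  have hm := Hm ep he he1 ep he he1 J hJ
  have h2 := H2 ep he (he'.trans q2) ep he (he'.trans q2) J hJ (by linarith)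
  have h3 := h3 ep ep J he he1 he he1 hJ (hs.trans q3)
  have hh := harmW hO (by norm_num)
  have hg := g0W (ε := 1 / 160) (by norm_num)
  have hb : 0 < ‖u0‖ := norm_pos_iff.2 u0_ne
  obtain ⟨B, hB, key⟩ := tr_level (d := 1 / 20) (m := 1 / 4) (c0 := 3 / 8) (c1 := 1 / 2)
    (a := 43 / 15) (A := A) (B1 := 2) (V0 := 1) (by norm_num) le_rfl (by norm_num) (by norm_num)
    (by norm_num) (by norm_num) (by norm_num) hA (by norm_num) (by norm_num)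
  refine ⟨1 / 8, ‖u0‖ * B, K, kapW, PBM.ph, by norm_num, Eventually.of_forall PBM.norm_ph, hkap, ?_⟩
  filter_upwards [h1, hm, h2, h3, hh, hg, abs_pow (show (-(13 / 32) : ℝ) < -(3 / 8) by norm_num) ‖u0‖⁻¹,
    abs_pow (show (1 / 180 : ℝ) < 1 / 160 by norm_num) ‖u0‖⁻¹, eventually_ge_atTop 1]
    with k g1 g2 g3 g4 g5 g6 g7 g8 hk d hd
  have hζ : ‖zt d‖ = 1 := norm_zt d
  have hcz : ∀ n, ‖cz (zt d) k n‖ ≤ 1 := fun n => (norm_cz hζ k n).le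
  have hKK : ∀ τ, KK (SWc (cz (zt d) k) ep ep J) k τ =
      u0 * (k1T τ * Rk (SWc (cz (zt d) k) ep ep J) k τ) := fun τ => KK_eq _ hk τ
  have hphn : PBM.ph k ≠ 0 := by
    rw [← norm_ne_zero_iff, PBM.norm_ph]
    exact one_ne_zero
  set X : ℂ := nrR k * ∑ n ∈ Finset.range (2 * (k - 1) + 1), cz (zt d) k n *
    EED (R0 (k - 1) (beC ep) [I, -I] []) n with hX
  have hphys : ((PBM.nrm k : ℝ) : ℂ) * Wz k d = PBM.ph k * X := by
    rw [nrm_mul, hW ep he he1 k hk d hd]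
  have r1 := key k hk (u0⁻¹ * X) (f0t d (k - 1) 0) (Rk (SWc (cz (zt d) k) ep ep J) k)
    (fun τ => f0t d (k - 1) (PBT3.zt τ)) k1T (EW d) (winW (3 / 8) k)
    (PBTR.measurableSet_winW _ _) (PBTR.nearS_sub_win le_rfl k) (by
      have e : (fun τ => k1T τ * Rk (SWc (cz (zt d) k) ep ep J) k τ) =
          fun τ => u0⁻¹ * KK (SWc (cz (zt d) k) ep ep J) k τ := by
        funext τ
        rw [hKK, ← mul_assoc, inv_mul_cancel₀ u0_ne, one_mul]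
      rw [e]
      exact ((g2 _).restrict).const_mul _) (meas_k1E d) (by
      have e : ∫ τ in winW (3 / 8) k, k1T τ * Rk (SWc (cz (zt d) k) ep ep J) k τ =
          u0⁻¹ * ∫ τ in winW (3 / 8) k, KK (SWc (cz (zt d) k) ep ep J) k τ := by
        simp only [hKK]
        rw [integral_const_mul, ← mul_assoc, inv_mul_cancel₀ u0_ne, one_mul]
      rw [e, ← mul_sub, norm_mul, norm_inv]
      exact (mul_le_mul_of_nonneg_left (g1 _ hcz) (by positivity)).trans g7) (fun τ hτ => by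
      have h8 := g3 _ hcz τ hτ
      rw [hKK, norm_mul] at h8
      have h9 : ‖k1T τ * Rk (SWc (cz (zt d) k) ep ep J) k τ‖ ≤
          ‖u0‖⁻¹ * ((k : ℝ) ^ (1 / 180 : ℝ) * Real.exp (-(mT τ))) := by
        rw [inv_mul_eq_div, le_div_iff₀ hb]
        linarith
      refine h9.trans ?_
      rw [← mul_assoc]
      have e : (1 / 20 : ℝ) / 8 = 1 / 160 := by norm_num
      rw [e]
      exact mul_le_mul_of_nonneg_right g8 (Real.exp_pos _).le) (fun τ hτ => by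
      rw [EW_mul]
      exact g4 τ hτ _ hζ) (hk1E d hd) (fun τ hτ => g5 ⟨d, hd⟩ τ hτ) (by
      have e : (1 / 20 : ℝ) / 8 = 1 / 160 := by norm_num
      rw [e]
      exact g6 d hd)
  have e8 : -((1 / 4 : ℝ) / 2) = -(1 / 8) := by norm_num
  rw [e8] at r1
  have e : ((PBM.nrm k : ℝ) : ℂ) * Wz k d - PBM.ph k * (kapW d * f0z (zt d) (k - 1) 0) =
      PBM.ph k * u0 * (u0⁻¹ * X - f0t d (k - 1) 0 * ∫ τ, k1T τ * EW d τ) := by
    rw [hphys, ← f0t_z0]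
    unfold kapW
    have h := mul_inv_cancel₀ u0_ne
    linear_combination (-(PBM.ph k * X)) * h
  show ‖((PBM.nrm k : ℝ) : ℂ) * Wz k d - PBM.ph k * (kapW d * f0z (zt d) (k - 1) 0)‖ ≤ _
  rw [e, norm_mul, norm_mul, PBM.norm_ph, one_mul, mul_assoc]
  exact mul_le_mul_of_nonneg_left r1 hb.le

/-- **the transfer and the function side together** -/
theorem trz_all_of {Wz : ℕ → ℝ → ℂ} (hW : PhysZ Wz) (H1 : H1c (13 / 32)) (Hm : Hmc)
    (H2 : H2c (1 / 180)) : TRZ PBM.nrm Wz (1 / 10) := by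
  obtain ⟨g, B, hB, -, hf⟩ := funZ_z
  exact trz_of (by norm_num) (by norm_num) (by norm_num) hB hf (tr1z_of hW H1 Hm H2)

end WND

end
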