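import Pool.Agent.PB.TRH1
import Pool.Agent.WND.TRFin2c
import Pool.Agent.WND.MstQ

/-!
# Plan W, W7: (H1) with coefficients (helper38)

* `KK_SWc`: the integrand with coefficients in the names of `PB/Mst0`;
* `h1_lev`: one level, any weight `q` and the weighted bounds `OthQ`;
* **`h1_SWc`**: the class side with coefficients `‖c n‖ ≤ 1` is the integral of
  `KK (SWc c ep e1 J) k` over the window, error `k ^ (-c0)`, every `c0 < 7/16`, uniformly in `c`;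
* **`h1_SWq`**: the same for `‖c n‖ ≤ q k n`, from the weighted bounds;
* **`hm_SWc`**: measurability.
-/

set_option autoImplicit false
set_option linter.unusedSectionVars false

noncomputable section

open Complex MeasureTheory Finset Filter
open scoped ENNReal

namespace WND

open NUO NUP1 NUCR NUP1S NURow NUGC PBX PBR
open NUP1.Leg (Dk)

/-! ### rows `0`, ends `0` -/

attribute [local instance] NUSea.seaP

open PBTR (winW)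
open PBI (nrR kR)

/-- the integrand with coefficients in the names of `PB/Mst0` -/
theorem KK_SWc (c : ℕ → ℂ) (ep e1 J : ℝ) (k : ℕ) (y : ℝ × ℝ) : PBTRF.KK (SWc c ep e1 J) k y =
    nrR k * (2 * (Real.pi : ℂ))⁻¹ ^ 2 * (preWW (R0 (k - 1) (beC ep) [I, -I] []) y *
      ∑ n ∈ range (2 * (k - 1) + 1), c n *
        PBF.FF (ZWW (R0 (k - 1) (beC ep) [I, -I] []) y)
          (NUSea.O.par0 k) n n (fun _ _ => etaC e1 J k k) (fun _ _ => etaC' e1 J k k)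
          (fun _ _ _ _ _ => 1)) := by
  have e : PBTRF.KK (SWc c ep e1 J) k y = (nrR k * (2 * Real.pi : ℂ)⁻¹ ^ 2) * kR k y *
      SWc c ep e1 J k y := by
    unfold PBTRF.KK kR
    rw [PBTRF.nr_eq, PBTRF.wt_vl, PBTRF.wt_vl]
  rw [e, PBTRF.preWW_R0]
  unfold SWc ZWW
  rw [PBTRF.wt_vl, PBTRF.wt_vl]
  have h1e : ∀ m : ℕ, (PBU.cr e1 J m : PBF.Crs) = fun _ _ => etaC e1 J m m := fun m => rfl
  have h2e : ∀ m : ℕ, (PBU.cr' e1 J m : PBF.Crs) = fun _ _ => etaC' e1 J m m := fun m => rfl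
  simp only [h1e, h2e]
  ring

/-- one level -/
theorem h1_lev {c0 Cst : ℝ} {k k0 : ℕ} (hC : 0 ≤ Cst) (hk0 : 1 ≤ k0) {ep e1 J : ℝ}
    (hep : 0 < ep) (hep1 : ep ≤ 1 / 100) {q : ℕ → ℝ}
    (hQ : OthQ q (PBO.KX [I, -I] [] ep k) (PBO.kDX [I, -I] [] ep k) k Cst ((7 / 16 - c0) / 2)
      PBVR.EMF0)
    (q1 : (Real.sin l)⁻¹ * (RG.KA * Cst + (2 * Real.pi)⁻¹ ^ 2 * (2 * Cst)) ≤
      (k : ℝ) ^ ((7 / 16 - c0) / 2)) (q2 : k0 ≤ k)
    (q3 : ∀ r ≤ 2 * (k - 1) + 2 * (k - 1), ∀ᵐ _O ∂(Measure.pi fun _ : Fin r => nu),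
      CurB ep (etaC e1 J k k) (etaC' e1 J k k))
    {c : ℕ → ℂ} (hc1 : ∀ n, ‖c n‖ ≤ q n) :
    ‖nrR k * ∑ n ∈ range (2 * (k - 1) + 1), c n * EED (R0 (k - 1) (beC ep) [I, -I] []) n -
        ∫ τ in winW (3 / 8) k, PBTRF.KK (SWc c ep e1 J) k τ‖ ≤ (k : ℝ) ^ (-c0) := by
  have hk : 1 ≤ k := hk0.trans q2
  have hkp : (0 : ℝ) < k := by exact_mod_cast hk
  have e := mst_lev hk hC hQ (D := R0 (k - 1) (beC ep) [I, -I] []) (ex := [I, -I]) (ex0 := [])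
    (c0 := 2 * Real.cos l) hep hep1
    ⟨PBO.DX_Ok PBO.cutOk_I hep hep1 k, (PBO.beC_bd hep hep1).1, REq_R0 _ _ PBO.cutOk_I.re,
      ⟨rfl, rfl, rfl, rfl, rfl, rfl, rfl, rfl⟩⟩
    (fun _ _ _ => etaC e1 J k k) (fun _ _ _ => etaC' e1 J k k) (fun y => q3) hc1
  obtain ⟨Ca, hCa⟩ : ∃ Ca : ℝ, Ca = RG.KA * Cst + (2 * Real.pi)⁻¹ ^ 2 * (2 * Cst) := ⟨_, rfl⟩
  rw [← hCa] at e q1
  simp only [KK_SWc]
  rw [integral_const_mul, mul_assoc, ← mul_sub, norm_mul]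
  refine (mul_le_mul_of_nonneg_left e (norm_nonneg _)).trans ?_
  have hn := PBI.norm_nrR hk
  have e1 : (k : ℝ) ^ (-(7 / 16) + (7 / 16 - c0) / 2) =
      (k : ℝ) ^ (-c0) * ((k : ℝ) ^ ((7 / 16 - c0) / 2))⁻¹ := by
    rw [← Real.rpow_neg hkp.le, ← Real.rpow_add hkp]
    congr 1
    ring
  have hp : 0 < (k : ℝ) ^ ((7 / 16 - c0) / 2) := Real.rpow_pos_of_pos hkp _
  calc ‖nrR k‖ * (Ca * (k : ℝ) ^ (-(7 / 16) + (7 / 16 - c0) / 2) *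
        Real.exp ((k : ℝ) ^ 2 * PBVR.EMF0))
      = (‖nrR k‖ * Real.exp ((k : ℝ) ^ 2 * PBVR.EMF0)) * Ca *
          (k : ℝ) ^ (-(7 / 16) + (7 / 16 - c0) / 2) := by ring
    _ = (Real.sin l)⁻¹ * Ca * ((k : ℝ) ^ (-c0) * ((k : ℝ) ^ ((7 / 16 - c0) / 2))⁻¹) := by
        rw [hn, e1]
    _ ≤ (k : ℝ) ^ ((7 / 16 - c0) / 2) * ((k : ℝ) ^ (-c0) * ((k : ℝ) ^ ((7 / 16 - c0) / 2))⁻¹) :=
        mul_le_mul_of_nonneg_right q1 (by positivity)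
    _ = (k : ℝ) ^ (-c0) := by
        field_simp

/-- **(H1) with coefficients, from the weighted bounds**; `ep` fixed -/
theorem h1_SWq {c0 : ℝ} (hc : c0 < 7 / 16) {ep Cst : ℝ} {k0 : ℕ} (hep : 0 < ep)
    (hep1 : ep ≤ 1 / 100) (hC : 0 ≤ Cst) (hk0 : 1 ≤ k0) {q : ℕ → ℕ → ℝ}
    (hQ : ∀ k, k0 ≤ k → OthQ (q k) (PBO.KX [I, -I] [] ep k) (PBO.kDX [I, -I] [] ep k) k Cst
      ((7 / 16 - c0) / 2) PBVR.EMF0) {e1 : ℝ} (he1 : 0 < e1) (he11 : e1 ≤ 1 / 100) {J : ℝ}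
    (hJ : 0 ≤ J) :
    ∀ᶠ k : ℕ in atTop, ∀ c : ℕ → ℂ, (∀ n, ‖c n‖ ≤ q k n) →
      ‖nrR k * ∑ n ∈ range (2 * (k - 1) + 1), c n * EED (R0 (k - 1) (beC ep) [I, -I] []) n -
        ∫ τ in winW (3 / 8) k, PBTRF.KK (SWc c ep e1 J) k τ‖ ≤ (k : ℝ) ^ (-c0) := by
  obtain ⟨kc, hkc, Hc⟩ := curOKC he1 he11 hJ hep
  have h3 : Tendsto (fun k : ℕ => (k : ℝ) ^ ((7 / 16 - c0) / 2)) atTop atTop :=
    (tendsto_rpow_atTop (by linarith)).comp tendsto_natCast_atTop_atTop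
  filter_upwards [h3.eventually_ge_atTop ((Real.sin l)⁻¹ *
    (RG.KA * Cst + (2 * Real.pi)⁻¹ ^ 2 * (2 * Cst))), eventually_ge_atTop k0,
    eventually_ge_atTop kc] with k q1 q2 q3 c hc1
  exact h1_lev hC hk0 hep hep1 (hQ k q2) q1 q2 (fun r _ =>
    Filter.Eventually.of_forall fun O => Hc k q3 k (by linarith)) hc1

/-- **(H1) with coefficients of norm at most one** -/
theorem h1_SWc {c0 : ℝ} (hc : c0 < 7 / 16) : ∃ ep0 : ℝ, 0 < ep0 ∧ ep0 ≤ 1 / 100 ∧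
    ∀ ep : ℝ, 0 < ep → ep ≤ ep0 → ∀ e1 : ℝ, 0 < e1 → e1 ≤ 1 / 100 → ∀ J : ℝ, 0 ≤ J →
    ∀ᶠ k : ℕ in atTop, ∀ c : ℕ → ℂ, (∀ n, ‖c n‖ ≤ 1) →
      ‖nrR k * ∑ n ∈ range (2 * (k - 1) + 1), c n * EED (R0 (k - 1) (beC ep) [I, -I] []) n -
        ∫ τ in winW (3 / 8) k, PBTRF.KK (SWc c ep e1 J) k τ‖ ≤ (k : ℝ) ^ (-c0) := by
  obtain ⟨ep0, h0, h1, H⟩ := othQ_one (G := PBR.G0 [I, -I] [])
    (PBO.perBd_of0 (PBR.G0_nn [I, -I] []) PBR.s4R_GI PBR.oneR_GI) (K := PBO.KX [I, -I] [])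
    (kD := PBO.kDX [I, -I] []) (PBO.clOk0 PBO.cutOk_I (fun _ _ => rfl) rfl)
    ((7 / 16 - c0) / 2) (by linarith)
  refine ⟨ep0, h0, h1, fun ep hep hep0 e1 he1 he11 J hJ => ?_⟩
  obtain ⟨Cst, k0, hC, hk0, H⟩ := H ep hep hep0
  exact h1_SWq hc hep (hep0.trans h1) hC hk0 (q := fun _ _ => 1) H he1 he11 hJ

/-- **measurability** -/
theorem hm_SWc {ep : ℝ} (hep : 0 < ep) (hep1 : ep ≤ 1 / 100) {e1 : ℝ} (he1 : 0 < e1)
    (he11 : e1 ≤ 1 / 100) {J : ℝ} (hJ : 0 ≤ J) : ∀ᶠ k : ℕ in atTop, ∀ c : ℕ → ℂ,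
    AEStronglyMeasurable (PBTRF.KK (SWc c ep e1 J) k) volume := by
  obtain ⟨kc, hkc, Hc⟩ := curOKC he1 he11 hJ hep
  filter_upwards [eventually_ge_atTop kc] with k q3 c
  have hP : ParM (NUSea.O.par0 k) := PBO.parM_par0 k
  have hOk := PBO.DX_Ok PBO.cutOk_I hep hep1 k
  have hβ := (PBO.beC_bd hep hep1).1
  have e : PBTRF.KK (SWc c ep e1 J) k = fun y => nrR k * (2 * (Real.pi : ℂ))⁻¹ ^ 2 *
      ∑ n ∈ range (2 * (k - 1) + 1), c n * (preWW (R0 (k - 1) (beC ep) [I, -I] []) y *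
        objWW (R0 (k - 1) (beC ep) [I, -I] []) (NUSea.O.par0 k) n y) := by
    funext y
    rw [KK_SWc, Finset.mul_sum]
    congr 1
    refine Finset.sum_congr rfl fun n _ => ?_
    have e2 : PBF.FF (ZWW (R0 (k - 1) (beC ep) [I, -I] []) y) (NUSea.O.par0 k) n n
        (fun _ _ => etaC e1 J k k) (fun _ _ => etaC' e1 J k k) (fun _ _ _ _ _ => 1) =
        objWW (R0 (k - 1) (beC ep) [I, -I] []) (NUSea.O.par0 k) n y :=
      (RWW_FF hOk (REq_R0 _ _ PBO.cutOk_I.re) hP.1 hep hep1 (PBC.parZ_low k)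
        (w := vl (5 / 4 * l) y.1) (w' := vl (5 / 4 * l) y.2) (by simp [vl])
        (by simp [vl]) n fun r _ => Filter.Eventually.of_forall fun O => Hc k q3 k
          (by have : (0 : ℝ) ≤ k := Nat.cast_nonneg k
              linarith)).symm
    rw [e2]
    ring
  rw [e]
  refine AEStronglyMeasurable.const_mul ?_ _
  exact (MeasureTheory.integrable_finsetSum _ fun n _ =>
    (int_preWW hOk hβ hP n).const_mul (c n)).aestronglyMeasurable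

end WND

end
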