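import Mathlib

/-!
# PLAN W+, the tail of the crossing number: abstract part (helper76)

A positive summable weight `w`, an integer statistic `c`, and the identity (`‖s‖ = 1`)
`a * ∑ w i s ^ (-c i) = ∑ n ≤ N, s ^ (n - m) E n`.

* `coef`: comparison of the coefficients; `supp`: `- c i = n - m` for some `n ≤ N`;
* **`trunc`**: `‖a‖ * ∑ [m - K ≤ c i] w i = ‖∑ n ≤ K, E n‖`;
* **`exp_tail`**: an exponential moment from the bound of the tails.
-/

set_option autoImplicit false

noncomputable section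

open MeasureTheory Filter Topology Complex

namespace WNDT

/-- the integral of a character -/
theorem int_zpow (a : ℤ) : ∫ θ in (0 : ℝ)..(2 * Real.pi), (Complex.exp (θ * I)) ^ a =
    if a = 0 then (2 * Real.pi : ℂ) else 0 := by
  split_ifs with h
  · subst h
    simp
  · have hc : (a : ℂ) * I ≠ 0 := mul_ne_zero (by exact_mod_cast h) I_ne_zero
    have e : ∀ θ : ℝ, (Complex.exp (θ * I)) ^ a = Complex.exp ((a * I) * θ) := by
      intro θ
      rw [← Complex.exp_int_mul]
      congr 1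
      ring
    simp_rw [e]
    rw [integral_exp_mul_complex hc]
    have e2 : Complex.exp ((a : ℂ) * I * ((2 * Real.pi : ℝ) : ℂ)) = 1 := by
      rw [Complex.exp_eq_one_iff]
      exact ⟨a, by push_cast; ring⟩
    rw [e2]
    simp

theorem norm_s (θ : ℝ) : ‖Complex.exp (θ * I)‖ = 1 := Complex.norm_exp_ofReal_mul_I θ

theorem cont_s (a : ℤ) : Continuous fun θ : ℝ => (Complex.exp (θ * I)) ^ a := by
  have h : (fun θ : ℝ => (Complex.exp (θ * I)) ^ a) = fun θ : ℝ => Complex.exp (a * (θ * I)) :=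
    funext fun θ => by rw [Complex.exp_int_mul]
  rw [h]
  fun_prop

variable {ι : Type*} [Countable ι]

/-- the coefficient of a sum over the walks -/
theorem int_tsum {w : ι → ℝ} (hw : ∀ i, 0 ≤ w i) (hs : Summable w) (c : ι → ℤ) (j : ℤ) :
    ∫ θ in (0 : ℝ)..(2 * Real.pi), (Complex.exp (θ * I)) ^ (-j) *
        ∑' i, (w i : ℂ) * (Complex.exp (θ * I)) ^ (-c i) =
      2 * Real.pi * ∑' i, (if -c i = j then (w i : ℂ) else 0) := by
  have hn : ∀ (i : ι) (θ : ℝ), ‖(Complex.exp (θ * I)) ^ (-j) * ((w i : ℂ) * (Complex.exp (θ * I)) ^ (-c i))‖ =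
      w i := by
    intro i θ
    rw [norm_mul, norm_mul, norm_zpow, norm_zpow, norm_s, one_zpow, one_zpow, one_mul, mul_one,
      Complex.norm_real, Real.norm_of_nonneg (hw i)]
  have hsum : ∀ θ : ℝ, Summable fun i => (Complex.exp (θ * I)) ^ (-j) *
      ((w i : ℂ) * (Complex.exp (θ * I)) ^ (-c i)) := fun θ =>
    Summable.of_norm_bounded hs fun i => (hn i θ).le
  have h1 := intervalIntegral.hasSum_integral_of_dominated_convergence (μ := volume) (a := 0)
    (b := 2 * Real.pi) (F := fun (i : ι) (θ : ℝ) => (Complex.exp (θ * I)) ^ (-j) *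
      ((w i : ℂ) * (Complex.exp (θ * I)) ^ (-c i))) (f := fun θ : ℝ => ∑' i,
        (Complex.exp (θ * I)) ^ (-j) * ((w i : ℂ) * (Complex.exp (θ * I)) ^ (-c i)))
    (fun i _ => w i)
    (fun i => ((cont_s _).mul (continuous_const.mul (cont_s _))).aestronglyMeasurable)
    (fun i => Filter.Eventually.of_forall fun θ _ => (hn i θ).le)
    (Filter.Eventually.of_forall fun θ _ => hs) intervalIntegrable_const
    (Filter.Eventually.of_forall fun θ _ => (hsum θ).hasSum)
  have h2 : ∀ i, ∫ θ in (0 : ℝ)..(2 * Real.pi), (Complex.exp (θ * I)) ^ (-j) *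
      ((w i : ℂ) * (Complex.exp (θ * I)) ^ (-c i)) =
        2 * Real.pi * (if -c i = j then (w i : ℂ) else 0) := by
    intro i
    have e : ∀ θ : ℝ, (Complex.exp (θ * I)) ^ (-j) * ((w i : ℂ) * (Complex.exp (θ * I)) ^ (-c i)) =
        (w i : ℂ) * (Complex.exp (θ * I)) ^ (-c i - j) := by
      intro θ
      rw [show -c i - j = -j + -c i by ring, zpow_add₀ (Complex.exp_ne_zero _)]
      ring
    simp_rw [e]
    rw [intervalIntegral.integral_const_mul, int_zpow]
    by_cases h : -c i = j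
    · rw [if_pos (by omega), if_pos h]
      ring
    · rw [if_neg (by omega), if_neg h]
      ring
  have h3 : ∫ θ in (0 : ℝ)..(2 * Real.pi), (Complex.exp (θ * I)) ^ (-j) *
      ∑' i, (w i : ℂ) * (Complex.exp (θ * I)) ^ (-c i) =
      ∫ θ in (0 : ℝ)..(2 * Real.pi), ∑' i,
        (Complex.exp (θ * I)) ^ (-j) * ((w i : ℂ) * (Complex.exp (θ * I)) ^ (-c i)) := by
    congr 1
    funext θ
    rw [tsum_mul_left]
  rw [h3, ← h1.tsum_eq]
  simp_rw [h2]
  rw [tsum_mul_left]

/-- **comparison of the coefficients** -/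
theorem coef {w : ι → ℝ} (hw : ∀ i, 0 ≤ w i) (hs : Summable w) {c : ι → ℤ} {E : ℕ → ℂ} {N : ℕ}
    {m : ℤ} {a : ℂ} (h : ∀ s : ℂ, ‖s‖ = 1 → a * ∑' i, (w i : ℂ) * s ^ (-c i) =
      ∑ n ∈ Finset.range (N + 1), s ^ ((n : ℤ) - m) * E n) (j : ℤ) :
    a * ∑' i, (if -c i = j then (w i : ℂ) else 0) =
      ∑ n ∈ Finset.range (N + 1), (if (n : ℤ) - m = j then E n else 0) := by
  have hpi : (2 * Real.pi : ℂ) ≠ 0 := by
    have := Real.pi_ne_zero
    exact mul_ne_zero two_ne_zero (by exact_mod_cast this)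
  have h1 : ∫ θ in (0 : ℝ)..(2 * Real.pi), (Complex.exp (θ * I)) ^ (-j) *
      (a * ∑' i, (w i : ℂ) * (Complex.exp (θ * I)) ^ (-c i)) =
      a * (2 * Real.pi * ∑' i, (if -c i = j then (w i : ℂ) else 0)) := by
    rw [← int_tsum hw hs c j, ← intervalIntegral.integral_const_mul]
    congr 1
    funext θ
    ring
  have h2 : ∫ θ in (0 : ℝ)..(2 * Real.pi), (Complex.exp (θ * I)) ^ (-j) *
      (∑ n ∈ Finset.range (N + 1), (Complex.exp (θ * I)) ^ ((n : ℤ) - m) * E n) =
      2 * Real.pi * ∑ n ∈ Finset.range (N + 1), (if (n : ℤ) - m = j then E n else 0) := by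
    have e : ∀ θ : ℝ, (Complex.exp (θ * I)) ^ (-j) *
        (∑ n ∈ Finset.range (N + 1), (Complex.exp (θ * I)) ^ ((n : ℤ) - m) * E n) =
        ∑ n ∈ Finset.range (N + 1), (Complex.exp (θ * I)) ^ ((n : ℤ) - m - j) * E n := by
      intro θ
      rw [Finset.mul_sum]
      refine Finset.sum_congr rfl fun n _ => ?_
      rw [show (n : ℤ) - m - j = -j + ((n : ℤ) - m) by ring, zpow_add₀ (Complex.exp_ne_zero _)]
      ring
    simp_rw [e]
    have hin : ∀ n ∈ Finset.range (N + 1), IntervalIntegrable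
        (fun θ : ℝ => (Complex.exp (θ * I)) ^ ((n : ℤ) - m - j) * E n) volume 0 (2 * Real.pi) :=
      fun n _ => ((cont_s _).mul continuous_const).intervalIntegrable _ _
    rw [intervalIntegral.integral_finsetSum hin, Finset.mul_sum]
    refine Finset.sum_congr rfl fun n _ => ?_
    rw [intervalIntegral.integral_mul_const, int_zpow]
    by_cases hj : (n : ℤ) - m = j
    · rw [if_pos (by omega), if_pos hj]
    · rw [if_neg (by omega), if_neg hj]
      ring
  have h3 : (fun θ : ℝ => (Complex.exp (θ * I)) ^ (-j) *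
      (a * ∑' i, (w i : ℂ) * (Complex.exp (θ * I)) ^ (-c i))) = fun θ : ℝ =>
      (Complex.exp (θ * I)) ^ (-j) *
      (∑ n ∈ Finset.range (N + 1), (Complex.exp (θ * I)) ^ ((n : ℤ) - m) * E n) :=
    funext fun θ => by rw [h _ (norm_s θ)]
  rw [h3, h2] at h1
  have h4 : (2 * Real.pi : ℂ) * (a * ∑' i, (if -c i = j then (w i : ℂ) else 0)) =
      2 * Real.pi * ∑ n ∈ Finset.range (N + 1), (if (n : ℤ) - m = j then E n else 0) := by
    rw [h1]
    ring
  exact mul_left_cancel₀ hpi h4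

/-- **the support of the statistic** -/
theorem supp {w : ι → ℝ} (hw : ∀ i, 0 < w i) (hs : Summable w) {c : ι → ℤ} {E : ℕ → ℂ} {N : ℕ}
    {m : ℤ} {a : ℂ} (ha : a ≠ 0) (h : ∀ s : ℂ, ‖s‖ = 1 → a * ∑' i, (w i : ℂ) * s ^ (-c i) =
      ∑ n ∈ Finset.range (N + 1), s ^ ((n : ℤ) - m) * E n) (i : ι) :
    ∃ n : ℕ, n ≤ N ∧ (n : ℤ) - m = -c i := by
  by_contra hne
  push Not at hne
  have h1 := coef (fun i => (hw i).le) hs h (-c i)
  rw [Finset.sum_eq_zero fun n hn => by
    rw [if_neg (hne n (by rw [Finset.mem_range] at hn; omega))]] at h1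
  rcases mul_eq_zero.1 h1 with h2 | h2
  · exact ha h2
  · have e : ∀ i' : ι, (if -c i' = -c i then (w i' : ℂ) else 0) =
        ((if -c i' = -c i then w i' else 0 : ℝ) : ℂ) := by
      intro i'
      split_ifs <;> simp
    simp_rw [e] at h2
    rw [← Complex.ofReal_tsum] at h2
    have h3 : (∑' i' : ι, if -c i' = -c i then w i' else 0) = 0 := by exact_mod_cast h2
    have hsm : Summable fun i' : ι => if -c i' = -c i then w i' else 0 :=
      Summable.of_nonneg_of_le (fun i' => by split_ifs; exacts [(hw i').le, le_rfl])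
        (fun i' => by split_ifs; exacts [le_rfl, (hw i').le]) hs
    have h4 := hsm.le_tsum i fun i' _ => by split_ifs; exacts [(hw i').le, le_rfl]
    rw [if_pos rfl, h3] at h4
    exact absurd h4 (not_le.2 (hw i))

/-- **the truncated sums** -/
theorem trunc' {w : ι → ℝ} (hw : ∀ i, 0 < w i) (hs : Summable w) {c : ι → ℤ} {E : ℕ → ℂ} {N : ℕ}
    {m : ℤ} {a : ℂ} (ha : a ≠ 0) (h : ∀ s : ℂ, ‖s‖ = 1 → a * ∑' i, (w i : ℂ) * s ^ (-c i) =
      ∑ n ∈ Finset.range (N + 1), s ^ ((n : ℤ) - m) * E n) {K : ℕ} (hK : K ≤ N) :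
    a * ∑' i, (if m - K ≤ c i then (w i : ℂ) else 0) = ∑ n ∈ Finset.range (K + 1), E n := by
  have e1 : ∀ i, (if m - K ≤ c i then (w i : ℂ) else 0) =
      ∑ n ∈ Finset.range (K + 1), (if -c i = (n : ℤ) - m then (w i : ℂ) else 0) := by
    intro i
    obtain ⟨n0, hn0, hn1⟩ := supp hw hs ha h i
    by_cases hi : m - K ≤ c i
    · rw [if_pos hi, Finset.sum_eq_single_of_mem n0 (by rw [Finset.mem_range]; omega)
        fun n _ hn => by rw [if_neg (by omega)], if_pos hn1.symm]
    · rw [if_neg hi]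
      symm
      refine Finset.sum_eq_zero fun n hn => ?_
      rw [Finset.mem_range] at hn
      rw [if_neg (by omega)]
  simp_rw [e1]
  have hsm : ∀ n ∈ Finset.range (K + 1), Summable fun i =>
      (if -c i = (n : ℤ) - m then (w i : ℂ) else 0) := fun n _ =>
    Summable.of_norm_bounded hs fun i => by
      split_ifs
      · rw [Complex.norm_real, Real.norm_of_nonneg (hw i).le]
      · rw [norm_zero]
        exact (hw i).le
  rw [Summable.tsum_finsetSum hsm, Finset.mul_sum]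
  refine Finset.sum_congr rfl fun n hn => ?_
  rw [Finset.mem_range] at hn
  rw [coef (fun i => (hw i).le) hs h ((n : ℤ) - m),
    Finset.sum_eq_single_of_mem n (by rw [Finset.mem_range]; omega) fun n' _ hn' => by
      rw [if_neg (by omega)], if_pos rfl]

/-- **the tails are the truncated sums** -/
theorem trunc {w : ι → ℝ} (hw : ∀ i, 0 < w i) (hs : Summable w) {c : ι → ℤ} {E : ℕ → ℂ} {N : ℕ}
    {m : ℤ} {a : ℂ} (ha : a ≠ 0) (h : ∀ s : ℂ, ‖s‖ = 1 → a * ∑' i, (w i : ℂ) * s ^ (-c i) =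
      ∑ n ∈ Finset.range (N + 1), s ^ ((n : ℤ) - m) * E n) {K : ℕ} (hK : K ≤ N) :
    ‖a‖ * ∑' i, (if m - K ≤ c i then w i else 0) = ‖∑ n ∈ Finset.range (K + 1), E n‖ := by
  rw [← trunc' hw hs ha h hK, norm_mul]
  have e : ∀ i, (if m - K ≤ c i then (w i : ℂ) else 0) = ((if m - K ≤ c i then w i else 0 : ℝ) : ℂ) := by
    intro i
    split_ifs <;> simp
  simp_rw [e]
  rw [← Complex.ofReal_tsum, Complex.norm_real, Real.norm_of_nonneg]
  exact tsum_nonneg fun i => by split_ifs; exacts [(hw i).le, le_rfl]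

omit [Countable ι] in
/-- **an exponential moment from the tails** -/
theorem exp_tail {w : ι → ℝ} (hw : ∀ i, 0 ≤ w i) (hs : Summable w) {c : ι → ℤ} {R : ℕ}
    (hR : ∀ i, |c i| < R) {A d τ : ℝ} (hA : 0 ≤ A) (hd : τ < d)
    (ht : ∀ j : ℕ, ∑' i, (if (j : ℤ) ≤ |c i| then w i else 0) ≤ A * Real.exp (-(d * j))) :
    Summable (fun i => w i * Real.exp (τ * |(c i : ℝ)|)) ∧
      ∑' i, w i * Real.exp (τ * |(c i : ℝ)|) ≤ A * (1 - Real.exp (-(d - τ)))⁻¹ := by
  have hj : ∀ j : ℕ, Summable fun i => if (j : ℤ) ≤ |c i| then w i else 0 := fun j =>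
    Summable.of_nonneg_of_le (fun i => by split_ifs; exacts [hw i, le_rfl])
      (fun i => by split_ifs; exacts [le_rfl, hw i]) hs
  have hp : ∀ i, w i * Real.exp (τ * |(c i : ℝ)|) ≤
      ∑ j ∈ Finset.range R, Real.exp (τ * j) * (if (j : ℤ) ≤ |c i| then w i else 0) := by
    intro i
    obtain ⟨n, hn⟩ : ∃ n : ℕ, (n : ℤ) = |c i| := ⟨(c i).natAbs, Int.natCast_natAbs (c i)⟩
    have h1 : |(c i : ℝ)| = n := by
      have : ((n : ℤ) : ℝ) = ((|c i| : ℤ) : ℝ) := by rw [hn]
      push_cast at this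
      exact this.symm
    have h2 : n < R := by
      have := hR i
      omega
    rw [h1]
    refine le_trans (le_of_eq ?_) (Finset.single_le_sum (f := fun j : ℕ => Real.exp (τ * j) *
      (if (j : ℤ) ≤ |c i| then w i else 0)) (fun j _ => ?_) (Finset.mem_range.2 h2))
    · rw [if_pos hn.le]
      ring
    · have : 0 ≤ (if (j : ℤ) ≤ |c i| then w i else 0) := by split_ifs; exacts [hw i, le_rfl]
      positivity
  have hsR : Summable fun i => ∑ j ∈ Finset.range R, Real.exp (τ * j) *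
      (if (j : ℤ) ≤ |c i| then w i else 0) := summable_sum fun j _ => (hj j).mul_left _
  have hnn : ∀ i, 0 ≤ w i * Real.exp (τ * |(c i : ℝ)|) := fun i =>
    mul_nonneg (hw i) (Real.exp_pos _).le
  have hsum : Summable fun i => w i * Real.exp (τ * |(c i : ℝ)|) :=
    Summable.of_nonneg_of_le hnn hp hsR
  refine ⟨hsum, (hsum.tsum_le_tsum hp hsR).trans ?_⟩
  rw [Summable.tsum_finsetSum fun j _ => (hj j).mul_left _]
  simp_rw [tsum_mul_left]
  have hq1 : Real.exp (-(d - τ)) < 1 := by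
    rw [Real.exp_lt_one_iff]
    linarith
  calc ∑ j ∈ Finset.range R, Real.exp (τ * j) * ∑' i, (if (j : ℤ) ≤ |c i| then w i else 0)
      ≤ ∑ j ∈ Finset.range R, A * Real.exp (-(d - τ)) ^ j := by
        refine Finset.sum_le_sum fun j _ => ?_
        refine (mul_le_mul_of_nonneg_left (ht j) (Real.exp_pos _).le).trans (le_of_eq ?_)
        rw [← Real.exp_nat_mul, mul_left_comm, ← Real.exp_add]
        congr 2
        ring
    _ = A * ∑ j ∈ Finset.range R, Real.exp (-(d - τ)) ^ j := by rw [Finset.mul_sum]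
    _ ≤ A * (1 - Real.exp (-(d - τ)))⁻¹ := by
        refine mul_le_mul_of_nonneg_left ?_ hA
        rw [← tsum_geometric_of_lt_one (Real.exp_pos _).le hq1]
        exact (summable_geometric_of_lt_one (Real.exp_pos _).le hq1).sum_le_tsum _
          fun j _ => pow_nonneg (Real.exp_pos _).le j

end WNDT

end
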