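import Pool.Agent.WND.TopW
import Pool.Agent.WND.W1cEnd
import Pool.Agent.WND.MainW

/-!
# Plan W, W7: the transfer with winding weight for the walks of the cylinder, no hypothesis (helper24)

* `linkW`: `W0W χ k = Wz k (-d)`, `χ ^ 2 = ζ_d` (helpers 8, 60, 69);
* **`trz`**: `TRZ nrm Wz (1 / 10)`; `trz0`: the same in the form of `WND/MainW`.
-/

set_option autoImplicit false

noncomputable section

open Complex MeasureTheory Set Filter Topology

namespace WND

theorem linkW : LinkW Pool.Agent.CylSaw.Wz := fun _ hk _ _ h => Pool.Agent.WND.W0W_Wz hk h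

/-- the transfer to the function of `k - 1` rows -/
theorem tr1z : TR1Z PBM.nrm Pool.Agent.CylSaw.Wz (fun N d => f0z (zt d) N 0) (1 / 10) := tr1z_w linkW

/-- **the two-point function of the walks of the cylinder with the weight `exp (i π d)` per turn** -/
theorem trz : TRZ PBM.nrm Pool.Agent.CylSaw.Wz (1 / 10) := trz_w linkW

theorem trz0 : TRZ0 PBM.nrm Pool.Agent.CylSaw.Wz (1 / 10) := by
  obtain ⟨c, C, G, u, hc, hu, h⟩ := trz
  exact ⟨c, C, G, u, lt_trans (by norm_num) hc, hu, h⟩

end WND

end
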