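import Pool.Agent.PB.CutAll
import Pool.Agent.PB.ZRow
import Pool.Agent.PB.I1F
import Pool.Agent.WND.Nrm

/-!
# Plan W: the winding weight as a coefficient, first Ward identity (helper5)

`WND.tw ζ m n = ζ ^ (m - n)`: `m` rows, `n` quanta per group.

* `I1A_c`: the first Ward identity with coefficients `c n`;
* `twS`, `F0D_twS`: a constant per quantum in the class functions is the factor `w ^ (2 n)`;
* `ZR_tw`, `ZdR_tw`, `ZpR_tw`, `Zcut_tw`: the families of `PB/ZFamR`;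
* **`cutZ`**: the cut term with the winding weight;
* **`fxZ_D`**: the exact derivative with coefficients.
-/

set_option autoImplicit false
set_option linter.unusedSectionVars false
set_option linter.unusedVariables false

noncomputable section

open Complex MeasureTheory Finset Filter Topology
open scoped Classical

namespace WNDH

open NUP1 hiding Kd
open NUP1S NUP1.Bd NURow PB PBI
open PBX (XX ph gP Lg ZL DZ Rws)
open WND (norm_tw)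

/-! ### coefficients in the first Ward identity -/

section coef

variable {α : ℝ} {L : PBI.Lns} {κ D B r η0 : ℝ} {Z Zd : ℝ → Stt} {Z' : Stt}
  {Ξ Ξ' : PBI.Kd → ℂ → ℂ} {a : PBI.Kd → PBI.Kd → ℂ → ℂ → ℂ} {ρ : PBI.Kd → ℝ → ℂ}
  {κr r1 lam : PBI.Kd → ℂ → ℂ}

/-- **The first Ward identity with coefficients.** -/
theorem I1A_c {S : Finset ℕ} {Pf : ℝ → ℂ} {Pf' : ℂ} (c : ℕ → ℂ)
    (hZ : ∀ n ∈ S, ZFam α n L κ D r η0 Z Zd Z') (hF : ∀ n ∈ S, FFam α n L B Ξ Ξ' a ρ κr r1 lam)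
    (hP : HasDerivAt Pf Pf' η0) (hN : Pf' + Pf η0 * (PBI.C0 ρ r1 + PBI.C1 ρ Ξ lam) = 0) :
    HasDerivAt (fun η => Pf η * ∑ n ∈ S, c n * F0 α n n L (Z η) fun _ _ _ _ => 1)
      (Pf η0 * ∑ n ∈ S, c n * (F0 α n n L (Z η0) (nuW ρ a Ξ lam) +
        F0D α n n L (Z η0) (Zcut (Z η0) (Zd η0) Z' Ξ κr r1 lam))) η0 := by
  have h1 : ∀ n ∈ S, HasDerivAt (fun η => Pf η * F0 α n n L (Z η) fun _ _ _ _ => 1)
      (Pf η0 * (F0 α n n L (Z η0) (nuW ρ a Ξ lam) +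
        F0D α n n L (Z η0) (Zcut (Z η0) (Zd η0) Z' Ξ κr r1 lam))) η0 := by
    intro n hn
    have h := I1A (S := {n}) (Pf := Pf) (fun k hk => by
      rw [Finset.mem_singleton] at hk
      subst hk
      exact hZ k hn) (fun k hk => by
      rw [Finset.mem_singleton] at hk
      subst hk
      exact hF k hn) hP hN
    simpa only [Finset.sum_singleton] using h
  have h := HasDerivAt.fun_sum fun n hn => (h1 n hn).const_mul (c n)
  have e : (fun η => Pf η * ∑ n ∈ S, c n * F0 α n n L (Z η) fun _ _ _ _ => 1) =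
      fun η => ∑ n ∈ S, c n * (Pf η * F0 α n n L (Z η) fun _ _ _ _ => 1) := by
    funext η
    rw [Finset.mul_sum]
    exact Finset.sum_congr rfl fun n _ => by ring
  rw [e]
  refine h.congr_deriv ?_
  rw [Finset.mul_sum]
  exact Finset.sum_congr rfl fun n _ => by ring

end coef

/-! ### a constant per quantum -/

/-- number of quanta of a kind -/
def qk (k : Option O3) : ℕ := k.elim 1 c3

/-- a constant per quantum -/
def twS (w : ℂ) (Z : Stt) : Stt := fun s k z => w ^ qk k * Z s k z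

theorem sum_qk {n n' : ℕ} {p p' : ℕ} {k : Fin p → O3} {k' : Fin p' → O3}
    (h1 : ∑ i, c3 (k' i) ≤ n') (h2 : ∑ i, c3 (k i) ≤ n) :
    ∑ i, qk (cl n n' k k' i).2 = n + n' := by
  have e : ∀ (a : ℕ) {p : ℕ} (k : Fin p → O3), ∑ i, qk (kA a k i) = a + ∑ i, c3 (k i) := by
    intro a p k
    rw [Fintype.sum_sum_type]
    simp [kA, qk]
  have e2 : ∑ i, qk (cl n n' k k' i).2 =
      ∑ i, qk (kA (nA n k) k i) + ∑ i, qk (kA (nA n' k') k' i) := by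
    rw [Fintype.sum_sum_type]
    rfl
  rw [e2, e, e]
  unfold nA
  omega

section one

variable {ι : Type} [Fintype ι]

theorem Fg_mul (o : ι → CO) (w : ι → ℂ) (h : ι → ℂ → ℂ) (z : ι → ℂ) :
    Fg o (fun i u => w i * h i u) z = (∏ i, w i) * Fg o h z := by
  unfold Fg
  rw [Finset.prod_mul_distrib, mul_assoc]

theorem IzD_twS (w : ℂ) (c : ι → Bool × Option O3) (x : ι → ℝ) (Z Zd : Stt) :
    IzD c x (twS w Z) (twS w Zd) = w ^ (∑ i, qk (c i).2) * IzD c x Z Zd := by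
  unfold IzD
  rw [← integral_const_mul]
  refine integral_congr_ae (Filter.Eventually.of_forall fun t => ?_)
  simp only []
  rw [Finset.mul_sum]
  refine Finset.sum_congr rfl fun k _ => ?_
  have e : updC k (fun i => twS w Z (c i).1 (c i).2) (fun i => twS w Zd (c i).1 (c i).2) =
      fun i u => w ^ qk (c i).2 *
        updC k (fun i => Z (c i).1 (c i).2) (fun i => Zd (c i).1 (c i).2) i u := by
    funext i u
    unfold updC twS
    split_ifs <;> rfl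
  rw [e, Fg_mul, Finset.prod_pow_eq_pow_sum]

end one

/-- **a constant per quantum is a factor `w ^ (n + n')`** -/
theorem F0D_twS {α : ℝ} {n n' : ℕ} {L : PBI.Lns} (w : ℂ) (Z Zd : Stt) :
    F0D α n n' L (twS w Z) (twS w Zd) = w ^ (n + n') * F0D α n n' L Z Zd := by
  unfold F0D
  rw [← Sw_smul]
  refine Sw_congr fun p p' k k' h1 h2 => ?_
  rw [IzD_twS, sum_qk h1 h2]
  ring

theorem Zcut_tw (w : ℂ) (Z Zd Z' : Stt) (Ξ κr r1 lam : PBI.Kd → ℂ → ℂ) :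
    Zcut (twS w Z) (twS w Zd) (twS w Z') Ξ κr r1 lam = twS w (Zcut Z Zd Z' Ξ κr r1 lam) := by
  funext s k z
  unfold Zcut twS
  ring

/-! ### the families of the rows `i η, 0 ^ a` -/

theorem RR_tw (w c : ℂ) {m : ℕ} (x y : Fin m → ℂ) (u : ℂ) : RR (w * c) x y u = w * RR c x y u := by
  unfold RR
  ring

theorem rowO_tw (w c : ℂ) {m : ℕ} (x : Fin m → ℂ) (k : Option O3) (u : ℂ) :
    PBForce.rowO (w * c) x (ob4 k) u = w ^ qk k * PBForce.rowO c x (ob4 k) u := by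
  unfold PBForce.rowO
  rcases k with _ | (_ | _ | _)
  · show RR (w * c) x x u = w ^ 1 * RR c x x u
    rw [RR_tw, pow_one]
  · show RR (w * c) x x u = w ^ 1 * RR c x x u
    rw [RR_tw, pow_one]
  · show RR (w * c) x x u * RR (w * c) x x (u - NUP1.l) =
      w ^ 2 * (RR c x x u * RR c x x (u - NUP1.l))
    rw [RR_tw, RR_tw]
    ring
  · show RR (w * c) x x u * RR (w * c) x x (u - NUP1.l) =
      w ^ 2 * (RR c x x u * RR c x x (u - NUP1.l))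
    rw [RR_tw, RR_tw]
    ring

theorem Rg_tw (w c : ℂ) {m : ℕ} (x y : Fin m → ℂ) (u : ℂ) :
    PBX.Rg (w * c) x y u = w * PBX.Rg c x y u := by
  unfold PBX.Rg
  ring

theorem XX_tw (w c : ℂ) {m : ℕ} (β : ℝ) (x y : Fin m → ℂ) (g g0 s1 s2 : ℂ → ℂ) (k : Option O3)
    (u : ℂ) : XX (w * c) β x y g g0 s1 s2 k u = w ^ qk k * XX c β x y g g0 s1 s2 k u := by
  rcases k with _ | (_ | _ | _)
  · show RR (w * c) x y u * ph β x g u * s1 u = w ^ 1 * (RR c x y u * ph β x g u * s1 u)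
    rw [RR_tw]
    ring
  · show RR (w * c) x y u * ph β x g u * s1 u = w ^ 1 * (RR c x y u * ph β x g u * s1 u)
    rw [RR_tw]
    ring
  · show RR (w * c) x y u * RR (w * c) x y (u - NUP1.l) * ph (4 / 3) x g0 u * s2 u =
      w ^ 2 * (RR c x y u * RR c x y (u - NUP1.l) * ph (4 / 3) x g0 u * s2 u)
    rw [RR_tw, RR_tw]
    ring
  · show PBX.TT (w * c) β (4 / 3) x y g g0 u * s2 u =
      w ^ 2 * (PBX.TT c β (4 / 3) x y g g0 u * s2 u)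
    unfold PBX.TT
    rw [Rg_tw, RR_tw]
    ring

open PBZF (ZR ZdR ZpR ZP ZX)

theorem ZR_tw (w : ℂ) (c : Bool → ℂ) (b : ℝ) (a : ℕ) (z0 : ℂ) (η0 : ℝ) (v : Fin 2 → ℂ) (η : ℝ) :
    ZR (fun s => w * c s) b a z0 η0 v η = twS w (ZR c b a z0 η0 v η) := by
  funext s k u
  exact XX_tw _ _ _ _ _ _ _ _ _ _ _

theorem ZP_tw (w : ℂ) (c : Bool → ℂ) (b : ℝ) (a : ℕ) (z0 : ℂ) (η0 : ℝ) (v : Fin 2 → ℂ) (θ : ℂ)
    (s : Bool) (k : Option O3) (u : ℂ) :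
    ZP (fun s => w * c s) b a z0 η0 v θ s k u = w ^ qk k * ZP c b a z0 η0 v θ s k u := by
  unfold ZP
  rw [rowO_tw]
  ring

theorem ZdR_tw (w : ℂ) (c : Bool → ℂ) (b : ℝ) (a : ℕ) (z0 : ℂ) (η0 : ℝ) (v : Fin 2 → ℂ) (η : ℝ) :
    ZdR (fun s => w * c s) b a z0 η0 v η = twS w (ZdR c b a z0 η0 v η) := by
  funext s k u
  simp only [twS]
  unfold ZdR
  split_ifs with h
  · simp only [ZP_tw]
    rw [deriv_const_mul_field]
  · rw [mul_zero]

theorem ZpR_tw (w : ℂ) (c : Bool → ℂ) (b : ℝ) (a : ℕ) (z0 : ℂ) (η0 : ℝ) (v : Fin 2 → ℂ) :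
    ZpR (fun s => w * c s) b a z0 η0 v = twS w (ZpR c b a z0 η0 v) := by
  funext s k u
  simp only [twS]
  unfold ZpR
  split_ifs with h
  · simp only [ZP_tw]
    rw [deriv_const_mul_field]
  · rw [mul_zero]

/-! ### the cut term with the winding weight -/

theorem exists_root {ζ : ℂ} (h : ‖ζ‖ = 1) : ∃ w : ℂ, ‖w‖ = 1 ∧ ∀ n : ℕ, w ^ (n + n) = ζ⁻¹ ^ n := by
  obtain ⟨w, hw⟩ := IsAlgClosed.exists_pow_nat_eq ζ⁻¹ (n := 2) (by norm_num)
  refine ⟨w, ?_, fun n => ?_⟩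
  · have h1 : ‖w‖ ^ 2 = 1 := by rw [← norm_pow, hw, norm_inv, h, inv_one]
    exact (pow_eq_one_iff_of_nonneg (norm_nonneg _) (by norm_num)).1 h1
  · rw [← two_mul, pow_mul, hw]

theorem tw_root {ζ w : ℂ} (h : ‖ζ‖ = 1) (hw : ∀ n : ℕ, w ^ (n + n) = ζ⁻¹ ^ n) (m n : ℕ) :
    WND.tw ζ m n = ζ ^ m * w ^ (n + n) := by
  have h0 : ζ ≠ 0 := by
    intro e
    rw [e, norm_zero] at h
    exact zero_ne_one h
  unfold WND.tw
  rw [hw, zpow_sub₀ h0, zpow_natCast, zpow_natCast, inv_pow, div_eq_mul_inv]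

open PBZF (Lz)

/-- **the cut term with the winding weight** -/
theorem cutZ (hS : NUStabP.StabProd) {d : ℝ} (hd : 0 < d) : ∃ a0 : ℝ, 0 < a0 ∧
    ∀ ep : ℝ, 0 < ep → ep ≤ 1 / 100 → ∀ e1 : ℝ, 0 < e1 → e1 ≤ 1 / 100 → ∀ J : ℝ, 0 ≤ J →
    Real.exp (-(2 * Real.pi * J)) + 3 * e1 + 3 * ep ≤ a0 →
    ∃ m0 : ℕ, ∀ k : ℕ, m0 ≤ k → ∀ η0 : ℝ, |η0| ≤ 1 → ∀ z : ℂ, Lz z →
      |z.im| ≤ 3 / 20 * Real.log (k + 1 : ℕ) + 2 → ∀ ζ : ℂ, ‖ζ‖ = 1 → ∀ v : Fin 2 → ℂ,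
      v = PBFar.vI (4 / 3 * (1 - ep)) k ((η0 : ℂ) * I) I (PBFar.xe k η0) →
      ‖Pool.Agent.PB.Pf z (PBZF.rwx k (η0 : ℂ)) (PBZF.rwx k (η0 : ℂ)) *
        ∑ n ∈ range (2 * (k + 1) + 1), WND.tw ζ (k + 1) n *
          F0D (3 / 5 * NUP1.l) n n (fl (PBT.pL (k + 1)))
          (ZR (fun _ => Leg.cc (k + 1)) (4 / 3 * (1 - ep)) k z η0 v η0)
          (Zcut (ZR (fun _ => Leg.cc (k + 1)) (4 / 3 * (1 - ep)) k z η0 v η0)
            (ZdR (fun _ => Leg.cc (k + 1)) (4 / 3 * (1 - ep)) k z η0 v η0)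
            (ZpR (fun _ => Leg.cc (k + 1)) (4 / 3 * (1 - ep)) k z η0 v)
            (PBQ1.xiK (PBZF.rwx k (η0 : ℂ)) 0) (PBQ1.krK (PBZF.rwx k (η0 : ℂ)))
            (PBQ1.r1K (PBZF.rwx k (η0 : ℂ)) 0) (PBQ1.lamK z))‖ ≤
        ((k + 1 : ℕ) : ℝ) ^ (-2 + d) * Real.exp (2 * |z.im|) := by
  obtain ⟨a0, ha0, HT⟩ := PBT.cutAll hS hd
  refine ⟨a0, ha0, fun ep hep hep1 e1 he he1 J hJ hsm => ?_⟩
  obtain ⟨m0, HT⟩ := HT ep hep hep1 e1 he he1 J hJ hsm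
  refine ⟨m0, fun k hk η0 hη0 z hz z3 ζ hζ v hv => ?_⟩
  obtain ⟨w, hw1, hw⟩ := exists_root hζ
  have h := HT k hk η0 hη0 z hz z3 (fun _ => w * Leg.cc (k + 1)) (fun _ => by
    rw [norm_mul, hw1, one_mul, PBI.norm_ccL]) v hv
  have e : ∀ n : ℕ, F0D (3 / 5 * NUP1.l) n n (fl (PBT.pL (k + 1)))
          (ZR (fun _ => w * Leg.cc (k + 1)) (4 / 3 * (1 - ep)) k z η0 v η0)
          (Zcut (ZR (fun _ => w * Leg.cc (k + 1)) (4 / 3 * (1 - ep)) k z η0 v η0)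
            (ZdR (fun _ => w * Leg.cc (k + 1)) (4 / 3 * (1 - ep)) k z η0 v η0)
            (ZpR (fun _ => w * Leg.cc (k + 1)) (4 / 3 * (1 - ep)) k z η0 v)
            (PBQ1.xiK (PBZF.rwx k (η0 : ℂ)) 0) (PBQ1.krK (PBZF.rwx k (η0 : ℂ)))
            (PBQ1.r1K (PBZF.rwx k (η0 : ℂ)) 0) (PBQ1.lamK z)) =
      w ^ (n + n) * F0D (3 / 5 * NUP1.l) n n (fl (PBT.pL (k + 1)))
          (ZR (fun _ => Leg.cc (k + 1)) (4 / 3 * (1 - ep)) k z η0 v η0)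
          (Zcut (ZR (fun _ => Leg.cc (k + 1)) (4 / 3 * (1 - ep)) k z η0 v η0)
            (ZdR (fun _ => Leg.cc (k + 1)) (4 / 3 * (1 - ep)) k z η0 v η0)
            (ZpR (fun _ => Leg.cc (k + 1)) (4 / 3 * (1 - ep)) k z η0 v)
            (PBQ1.xiK (PBZF.rwx k (η0 : ℂ)) 0) (PBQ1.krK (PBZF.rwx k (η0 : ℂ)))
            (PBQ1.r1K (PBZF.rwx k (η0 : ℂ)) 0) (PBQ1.lamK z)) := by
    intro n
    have e1 := ZR_tw w (fun _ => Leg.cc (k + 1)) (4 / 3 * (1 - ep)) k z η0 v η0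
    have e2 := ZdR_tw w (fun _ => Leg.cc (k + 1)) (4 / 3 * (1 - ep)) k z η0 v η0
    have e3 := ZpR_tw w (fun _ => Leg.cc (k + 1)) (4 / 3 * (1 - ep)) k z η0 v
    rw [e1, e2, e3, Zcut_tw, F0D_twS]
  simp only [e] at h
  refine le_trans (le_of_eq ?_) h
  simp only [tw_root hζ hw, mul_assoc]
  rw [← Finset.mul_sum, norm_mul, norm_mul, norm_mul, norm_pow, hζ, one_pow, one_mul]

/-! ### the exact derivative -/

open PBZF PBRep PBQ1 PBForce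
open Pool.Agent.PB (Pf)

variable {P : NUO.Par} {b : ℝ} {k : ℕ} {z0 : ℂ} {s : ℝ} {v : Fin 2 → ℂ}

/-- **the exact derivative, coefficients `c n`** -/
theorem fxZ_D (c : ℕ → ℂ) (hP : NUGC.ParC P) (hb : 0 < b) (hb' : b ≤ 4 / 3) (hz : Lz z0)
    (hF : ∀ n ∈ range (2 * (k + 1) + 1), ∃ B, FFam (3 / 5 * l) n (fl P) B
      (xiK (PBZF.rwx k s) 0) (fun b w => deriv (xiR (PBZF.rwx k s) 0) (fp b w))
      (PBOb.aK (xiR (PBZF.rwx k s) 0)) (rhK (PBZF.rwx k s)) (krK (PBZF.rwx k s))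
      (r1K (PBZF.rwx k s) 0) (lamK z0)) :
    HasDerivAt (fun η : ℝ => Pf z0 (PBZF.rwx k (η : ℂ)) (PBZF.rwx k (η : ℂ)) *
        ∑ n ∈ range (2 * (k + 1) + 1), c n * DZ (Leg.cc (k + 1)) (Leg.cc (k + 1)) (Lg z0 z0)
          (Lg z0 z0) (PBZF.rwx k (η : ℂ)) (PBZF.rwx k (η : ℂ)) n)
      (F0N (ZR (fun _ => Leg.cc (k + 1)) b k z0 s v s) P (3 / 5 * l) (2 * (k + 1))
          (fun n => c n * Pf z0 (PBZF.rwx k s) (PBZF.rwx k s))
          (fun ι _ c z => nuQI (rhK (PBZF.rwx k s)) (PBOb.aK (xiR (PBZF.rwx k s) 0)) ι c z +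
            nuI (rhK (PBZF.rwx k s)) (glK z0 (PBZF.rwx k s) 0) ι c z) +
        Pf z0 (PBZF.rwx k s) (PBZF.rwx k s) * ∑ n ∈ range (2 * (k + 1) + 1), c n *
          F0D (3 / 5 * l) n n (fl P) (ZR (fun _ => Leg.cc (k + 1)) b k z0 s v s)
            (Zcut (ZR (fun _ => Leg.cc (k + 1)) b k z0 s v s)
              (ZdR (fun _ => Leg.cc (k + 1)) b k z0 s v s)
              (ZpR (fun _ => Leg.cc (k + 1)) b k z0 s v)
              (xiK (PBZF.rwx k s) 0) (krK (PBZF.rwx k s)) (r1K (PBZF.rwx k s) 0) (lamK z0))) s := by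
  have hl := Bd.l_pos
  have hnum := Num (m := k + 1) (y := fun η : ℝ => PBZF.rwx k (η : ℂ)) (t := s) (z := z0) 0
    (rwx_deriv k s) (rwx_re k s)
    (by
      have h1 := hz.1
      have e : NUMF.l = NUP1.l := rfl
      rw [e]
      linarith)
    (by
      have h1 := hz.2
      have e : NUMF.l = NUP1.l := rfl
      rw [e]
      linarith)
  have hN : -(Pf z0 (PBZF.rwx k s) (PBZF.rwx k s) * (PBQ1.C0 (PBZF.rwx k s) 0 + C1v z0 (PBZF.rwx k s) 0)) +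
      Pf z0 (PBZF.rwx k s) (PBZF.rwx k s) *
        (PBI.C0 (rhK (PBZF.rwx k s)) (r1K (PBZF.rwx k s) 0) +
          PBI.C1 (rhK (PBZF.rwx k s)) (xiK (PBZF.rwx k s) 0) (lamK z0)) = 0 := by
    have e1 : PBI.C0 (rhK (PBZF.rwx k s)) (r1K (PBZF.rwx k s) 0) = PBQ1.C0 (PBZF.rwx k s) 0 :=
      PBQ1.C0_eq
    have e2 : PBI.C1 (rhK (PBZF.rwx k s)) (xiK (PBZF.rwx k s) 0) (lamK z0) =
      C1v z0 (PBZF.rwx k s) 0 := rfl
    rw [e1, e2]
    ring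
  obtain ⟨D, hD, hZ⟩ := exists_zfam_P (fun _ => Leg.cc (k + 1)) k s v hb hb' hz
  obtain ⟨B, hF⟩ := FFam.unif hF
  have key := I1A_c (S := range (2 * (k + 1) + 1)) c
    (Pf := fun η : ℝ => Pf z0 (PBZF.rwx k (η : ℂ)) (PBZF.rwx k (η : ℂ)))
    (fun n _ => hZ P hP n) hF hnum hN
  have key2 := key.congr_of_eventuallyEq (f₁ := fun η : ℝ =>
      Pf z0 (PBZF.rwx k (η : ℂ)) (PBZF.rwx k (η : ℂ)) *
        ∑ n ∈ range (2 * (k + 1) + 1), c n * DZ (Leg.cc (k + 1)) (Leg.cc (k + 1)) (Lg z0 z0)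
          (Lg z0 z0) (PBZF.rwx k (η : ℂ)) (PBZF.rwx k (η : ℂ)) n) (by
    filter_upwards [vx_ev s v] with η hη
    congr 1
    refine Finset.sum_congr rfl fun n _ => ?_
    exact congrArg (fun q => c n * q) (F0_DZ hP hb hb' hz hη n).symm)
  refine key2.congr_deriv ?_
  simp only [mul_add, Finset.sum_add_distrib]
  congr 1
  unfold F0N
  rw [Finset.mul_sum]
  refine Finset.sum_congr rfl fun n _ => ?_
  rw [← mul_assoc, mul_comm (Pf z0 (PBZF.rwx k (s : ℂ)) (PBZF.rwx k (s : ℂ))) (c n)]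
  rfl

end WNDH

end

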