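import Pool.Agent.WND.Tw
import Pool.Agent.PV.HDV

/-!
# Plan X: the winding weight as a coefficient, function with anti-legs (helper5)

* `ZRV_tw`, `ZdRV_tw`, `ZpRV_tw`: the families of `PV/ZFamW` with a constant per quantum;
* **`cutZV`**: the cut term with the winding weight;
* **`fVxZ_D`**: the exact derivative with coefficients.
-/

set_option autoImplicit false
set_option linter.unusedSectionVars false
set_option linter.unusedVariables false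

noncomputable section

open Complex MeasureTheory Finset Filter Topology
open scoped Classical

namespace WNDH

open NUP1 hiding Kd
open NUP1S NUP1.Bd NURow PB PBI
open PBX (Lg DZ)
open PBZF (ZR ZdR ZpR Lz)
open PVZ (ZRV ZdRV ZpRV aZ aZ')
open PV (lamV PfV LV)
open WND (norm_tw)

theorem ZRV_tw (w : ℂ) (c : Bool → ℂ) (b : ℝ) (a : ℕ) (z z' : ℂ) (η0 : ℝ) (v : Fin 2 → ℂ)
    (η : ℝ) : ZRV (fun s => w * c s) b a z z' η0 v η = twS w (ZRV c b a z z' η0 v η) := by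
  funext s k u
  show ZR (fun s => w * c s) b a z η0 v η s k u * aZ z' k u =
    w ^ qk k * (ZR c b a z η0 v η s k u * aZ z' k u)
  rw [ZR_tw]
  show w ^ qk k * ZR c b a z η0 v η s k u * aZ z' k u = _
  ring

theorem ZdRV_tw (w : ℂ) (c : Bool → ℂ) (b : ℝ) (a : ℕ) (z z' : ℂ) (η0 : ℝ) (v : Fin 2 → ℂ)
    (η : ℝ) : ZdRV (fun s => w * c s) b a z z' η0 v η = twS w (ZdRV c b a z z' η0 v η) := by
  funext s k u
  show ZdR (fun s => w * c s) b a z η0 v η s k u * aZ z' k u =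
    w ^ qk k * (ZdR c b a z η0 v η s k u * aZ z' k u)
  rw [ZdR_tw]
  show w ^ qk k * ZdR c b a z η0 v η s k u * aZ z' k u = _
  ring

theorem ZpRV_tw (w : ℂ) (c : Bool → ℂ) (b : ℝ) (a : ℕ) (z z' : ℂ) (η0 : ℝ) (v : Fin 2 → ℂ) :
    ZpRV (fun s => w * c s) b a z z' η0 v = twS w (ZpRV c b a z z' η0 v) := by
  funext s k u
  show ZpR (fun s => w * c s) b a z η0 v s k u * aZ z' k u +
      ZR (fun s => w * c s) b a z η0 v η0 s k u * aZ' z' k u =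
    w ^ qk k * (ZpR c b a z η0 v s k u * aZ z' k u + ZR c b a z η0 v η0 s k u * aZ' z' k u)
  rw [ZpR_tw, ZR_tw]
  show w ^ qk k * ZpR c b a z η0 v s k u * aZ z' k u +
      w ^ qk k * ZR c b a z η0 v η0 s k u * aZ' z' k u = _
  ring

/-- **the cut term with the winding weight**, anti-legs at `0` -/
theorem cutZV (hS : NUStabP.StabProd) {d : ℝ} (hd : 0 < d) : ∃ a0 : ℝ, 0 < a0 ∧
    ∀ ep : ℝ, 0 < ep → ep ≤ 1 / 100 → ∀ e1 : ℝ, 0 < e1 → e1 ≤ 1 / 100 → ∀ J : ℝ, 0 ≤ J →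
    Real.exp (-(2 * Real.pi * J)) + 3 * e1 + 3 * ep ≤ a0 →
    ∃ m0 : ℕ, ∀ k : ℕ, m0 ≤ k → ∀ η0 : ℝ, |η0| ≤ 1 → ∀ z : ℂ, Lz z →
      |z.im| ≤ 3 / 20 * Real.log (k + 1 : ℕ) + 2 → ∀ ζ : ℂ, ‖ζ‖ = 1 → ∀ v : Fin 2 → ℂ,
      v = PBFar.vI (4 / 3 * (1 - ep)) k ((η0 : ℂ) * I) I (PBFar.xe k η0) →
      ‖PfV z 0 (PBZF.rwx k (η0 : ℂ)) (PBZF.rwx k (η0 : ℂ)) *
        ∑ n ∈ range (2 * (k + 1) + 1), WND.tw ζ (k + 1) n *
          F0D (3 / 5 * NUP1.l) n n (fl (PBT.pL (k + 1)))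
          (ZRV (fun _ => Leg.cc (k + 1)) (4 / 3 * (1 - ep)) k z 0 η0 v η0)
          (Zcut (ZRV (fun _ => Leg.cc (k + 1)) (4 / 3 * (1 - ep)) k z 0 η0 v η0)
            (ZdRV (fun _ => Leg.cc (k + 1)) (4 / 3 * (1 - ep)) k z 0 η0 v η0)
            (ZpRV (fun _ => Leg.cc (k + 1)) (4 / 3 * (1 - ep)) k z 0 η0 v)
            (PBQ1.xiK (PBZF.rwx k (η0 : ℂ)) 0) (PBQ1.krK (PBZF.rwx k (η0 : ℂ)))
            (PBQ1.r1K (PBZF.rwx k (η0 : ℂ)) 0) (lamV z 0))‖ ≤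
        ((k + 1 : ℕ) : ℝ) ^ (-2 + d) *
          (((k + 1 : ℕ) : ℝ) ^ (3 / 4 : ℝ) * Real.exp (4 * |z.im|)) := by
  obtain ⟨a0, ha0, HT⟩ := PVZ.cutAllV hS hd
  refine ⟨a0, ha0, fun ep hep hep1 e1 he he1 J hJ hsm => ?_⟩
  obtain ⟨m0, HT⟩ := HT ep hep hep1 e1 he he1 J hJ hsm
  refine ⟨m0, fun k hk η0 hη0 z hz z3 ζ hζ v hv => ?_⟩
  obtain ⟨w, hw1, hw⟩ := exists_root hζ
  have h := HT k hk η0 hη0 z hz z3 (fun _ => w * Leg.cc (k + 1)) (fun _ => by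
    rw [norm_mul, hw1, one_mul, PBI.norm_ccL]) v hv
  have e : ∀ n : ℕ, F0D (3 / 5 * NUP1.l) n n (fl (PBT.pL (k + 1)))
          (ZRV (fun _ => w * Leg.cc (k + 1)) (4 / 3 * (1 - ep)) k z 0 η0 v η0)
          (Zcut (ZRV (fun _ => w * Leg.cc (k + 1)) (4 / 3 * (1 - ep)) k z 0 η0 v η0)
            (ZdRV (fun _ => w * Leg.cc (k + 1)) (4 / 3 * (1 - ep)) k z 0 η0 v η0)
            (ZpRV (fun _ => w * Leg.cc (k + 1)) (4 / 3 * (1 - ep)) k z 0 η0 v)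
            (PBQ1.xiK (PBZF.rwx k (η0 : ℂ)) 0) (PBQ1.krK (PBZF.rwx k (η0 : ℂ)))
            (PBQ1.r1K (PBZF.rwx k (η0 : ℂ)) 0) (lamV z 0)) =
      w ^ (n + n) * F0D (3 / 5 * NUP1.l) n n (fl (PBT.pL (k + 1)))
          (ZRV (fun _ => Leg.cc (k + 1)) (4 / 3 * (1 - ep)) k z 0 η0 v η0)
          (Zcut (ZRV (fun _ => Leg.cc (k + 1)) (4 / 3 * (1 - ep)) k z 0 η0 v η0)
            (ZdRV (fun _ => Leg.cc (k + 1)) (4 / 3 * (1 - ep)) k z 0 η0 v η0)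
            (ZpRV (fun _ => Leg.cc (k + 1)) (4 / 3 * (1 - ep)) k z 0 η0 v)
            (PBQ1.xiK (PBZF.rwx k (η0 : ℂ)) 0) (PBQ1.krK (PBZF.rwx k (η0 : ℂ)))
            (PBQ1.r1K (PBZF.rwx k (η0 : ℂ)) 0) (lamV z 0)) := by
    intro n
    have e1 := ZRV_tw w (fun _ => Leg.cc (k + 1)) (4 / 3 * (1 - ep)) k z 0 η0 v η0
    have e2 := ZdRV_tw w (fun _ => Leg.cc (k + 1)) (4 / 3 * (1 - ep)) k z 0 η0 v η0
    have e3 := ZpRV_tw w (fun _ => Leg.cc (k + 1)) (4 / 3 * (1 - ep)) k z 0 η0 v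
    rw [e1, e2, e3, Zcut_tw, F0D_twS]
  simp only [e] at h
  refine le_trans (le_of_eq ?_) h
  simp only [tw_root hζ hw, mul_assoc]
  rw [← Finset.mul_sum, norm_mul, norm_mul, norm_mul, norm_pow, hζ, one_pow, one_mul]

/-! ### the exact derivative -/

open PBZF PBRep PBQ1 PBForce PVI

/-- the function on the rows `i η, 0^a` with the winding weight -/
def SV (ζ : ℂ) (a : ℕ) (z x : ℂ) : ℂ :=
  PfV z 0 (Fin.cons x (fun _ => 0) : Fin (a + 1) → ℂ) (Fin.cons x (fun _ => 0) : Fin (a + 1) → ℂ) *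
    ∑ n ∈ range (2 * (a + 1) + 1), WND.tw ζ (a + 1) n * DZ (Leg.cc (a + 1)) (Leg.cc (a + 1)) (LV z 0)
      (LV z 0) (Fin.cons x (fun _ => 0) : Fin (a + 1) → ℂ)
      (Fin.cons x (fun _ => 0) : Fin (a + 1) → ℂ) n

/-- **the exact derivative, coefficients `c n`** -/
theorem fVxZ_D {a : ℕ} {s κ D r : ℝ} {z : ℂ} {P : NUO.Par} (c : ℕ → ℂ)
    {Z Zd : ℝ → Stt} {Zp : Stt}
    (hZ : ∀ n ∈ range (2 * (a + 1) + 1), ZFam (3 / 5 * l) n (fl P) κ D r s Z Zd Zp)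
    (hF : ∀ n ∈ range (2 * (a + 1) + 1), ∃ B, FFam (3 / 5 * l) n (fl P) B
      (xiK (PBZF.rwx a s) 0) (fun b w => deriv (xiR (PBZF.rwx a s) 0) (fp b w))
      (PBOb.aK (xiR (PBZF.rwx a s) 0)) (rhK (PBZF.rwx a s)) (krK (PBZF.rwx a s))
      (r1K (PBZF.rwx a s) 0) (lamV z 0))
    (hv : ∀ᶠ η : ℝ in 𝓝 s, ∀ n ∈ range (2 * (a + 1) + 1),
      F0 (3 / 5 * l) n n (fl P) (Z η) (fun _ _ _ _ => 1) =
        DZ (Leg.cc (a + 1)) (Leg.cc (a + 1)) (LV z 0) (LV z 0) (PBZF.rwx a (η : ℂ))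
          (PBZF.rwx a (η : ℂ)) n)
    {Pf' : ℂ}
    (hPf : HasDerivAt (fun η : ℝ => PfV z 0 (PBZF.rwx a (η : ℂ)) (PBZF.rwx a (η : ℂ))) Pf' s)
    (hN : Pf' + PfV z 0 (PBZF.rwx a (s : ℂ)) (PBZF.rwx a (s : ℂ)) *
      (PBI.C0 (rhK (PBZF.rwx a s)) (r1K (PBZF.rwx a s) 0) +
        PBI.C1 (rhK (PBZF.rwx a s)) (xiK (PBZF.rwx a s) 0) (lamV z 0)) = 0) :
    HasDerivAt (fun η : ℝ => PfV z 0 (PBZF.rwx a (η : ℂ)) (PBZF.rwx a (η : ℂ)) *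
        ∑ n ∈ range (2 * (a + 1) + 1), c n * DZ (Leg.cc (a + 1)) (Leg.cc (a + 1)) (LV z 0)
          (LV z 0) (PBZF.rwx a (η : ℂ)) (PBZF.rwx a (η : ℂ)) n)
      (F0N (Z s) P (3 / 5 * l) (2 * (a + 1))
          (fun n => c n * PfV z 0 (PBZF.rwx a s) (PBZF.rwx a s))
          (fun ι _ c w => nuQI (rhK (PBZF.rwx a s)) (PBOb.aK (xiR (PBZF.rwx a s) 0)) ι c w +
            nuI (rhK (PBZF.rwx a s)) (glKV z 0 (PBZF.rwx a s) 0) ι c w) +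
        PfV z 0 (PBZF.rwx a s) (PBZF.rwx a s) * ∑ n ∈ range (2 * (a + 1) + 1), c n *
          F0D (3 / 5 * l) n n (fl P) (Z s)
            (Zcut (Z s) (Zd s) Zp (xiK (PBZF.rwx a s) 0) (krK (PBZF.rwx a s))
              (r1K (PBZF.rwx a s) 0) (lamV z 0))) s := by
  obtain ⟨B, hF⟩ := FFam.unif hF
  have key := I1A_c (S := range (2 * (a + 1) + 1)) c
    (Pf := fun η : ℝ => PfV z 0 (PBZF.rwx a (η : ℂ)) (PBZF.rwx a (η : ℂ))) hZ hF hPf hN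
  have key2 := key.congr_of_eventuallyEq (f₁ := fun η : ℝ =>
      PfV z 0 (PBZF.rwx a (η : ℂ)) (PBZF.rwx a (η : ℂ)) *
        ∑ n ∈ range (2 * (a + 1) + 1), c n * DZ (Leg.cc (a + 1)) (Leg.cc (a + 1)) (LV z 0)
          (LV z 0) (PBZF.rwx a (η : ℂ)) (PBZF.rwx a (η : ℂ)) n) (by
    filter_upwards [hv] with η hη
    congr 1
    exact Finset.sum_congr rfl fun n hn => congrArg (fun q => c n * q) (hη n hn).symm)
  refine key2.congr_deriv ?_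
  simp only [mul_add, Finset.sum_add_distrib]
  congr 1
  unfold F0N
  rw [Finset.mul_sum]
  refine Finset.sum_congr rfl fun n _ => ?_
  rw [← mul_assoc, mul_comm (PfV z 0 (PBZF.rwx a (s : ℂ)) (PBZF.rwx a (s : ℂ))) (c n)]
  rfl

end WNDH

end
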