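import Mathlib.Analysis.Complex.Hadamard
import Mathlib.Analysis.SpecialFunctions.Arsinh
import Mathlib.Analysis.SpecialFunctions.Trigonometric.Complex
import Mathlib.Analysis.Complex.LocallyUniformLimit
import Mathlib.Analysis.Complex.Liouville

/-!
# A two constants theorem (helper85, PLAN W+)

* `two_const`: an entire function bounded by `A` on the disc of radius `R ≥ ρ cosh σ` and by `η` on the real
  segment `[-ρ, ρ]` is bounded by `η ^ (1 - τ) A ^ τ` on the disc of radius `ρ sinh (τ σ)` (three lines theorem for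
  `g (ρ cosh ζ)`);
* `two_const_im`: the same with the imaginary segment;
* `dyadic_lim`: a sequence with `‖f k' - f k‖ ≤ K k ^ (-c)` for `k ≤ k' ≤ 2 k` converges with the same rate.
-/

set_option autoImplicit false

noncomputable section

open Complex Filter Topology Set

namespace WND

theorem norm_cosh_le (ζ : ℂ) : ‖Complex.cosh ζ‖ ≤ Real.cosh ζ.re := by
  rw [Complex.cosh, Real.cosh_eq, norm_div]
  have h2 : ‖(2 : ℂ)‖ = 2 := by norm_num
  rw [h2]
  refine div_le_div_of_nonneg_right ?_ (by norm_num)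
  refine (norm_add_le _ _).trans (le_of_eq ?_)
  rw [Complex.norm_exp, Complex.norm_exp, neg_re]

theorem sinh_le_norm_cosh (ζ : ℂ) : Real.sinh |ζ.re| ≤ ‖Complex.cosh ζ‖ := by
  rw [Complex.cosh, Real.sinh_eq, norm_div]
  have h2 : ‖(2 : ℂ)‖ = 2 := by norm_num
  rw [h2]
  refine div_le_div_of_nonneg_right ?_ (by norm_num)
  rcases le_total 0 ζ.re with h | h
  · rw [abs_of_nonneg h]
    have h3 := norm_sub_norm_le (Complex.exp ζ) (-Complex.exp (-ζ))
    rw [sub_neg_eq_add, norm_neg, Complex.norm_exp, Complex.norm_exp, neg_re] at h3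
    exact h3
  · rw [abs_of_nonpos h, neg_neg]
    have h3 := norm_sub_norm_le (Complex.exp (-ζ)) (-Complex.exp ζ)
    rw [sub_neg_eq_add, norm_neg, Complex.norm_exp, Complex.norm_exp, neg_re, add_comm] at h3
    exact h3

/-- every complex number is a `cosh`, with a nonnegative real part -/
theorem exists_cosh (z : ℂ) : ∃ ζ : ℂ, 0 ≤ ζ.re ∧ Complex.cosh ζ = z := by
  obtain ⟨w, hw⟩ := Complex.cos_surjective z
  rcases le_total 0 (w * I).re with h | h
  · exact ⟨w * I, h, by rw [Complex.cosh_mul_I, hw]⟩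
  · refine ⟨-(w * I), by rw [neg_re]; linarith, ?_⟩
    rw [Complex.cosh_neg, Complex.cosh_mul_I, hw]

/-- **two constants** -/
theorem two_const {g : ℂ → ℂ} (hg : Differentiable ℂ g) {ρ σ τ A η : ℝ} (hρ : 0 < ρ) (hσ : 0 < σ)
    (hτ : 0 ≤ τ) (hτ1 : τ ≤ 1) (hη : 0 < η) (hηA : η ≤ A)
    (hA : ∀ z : ℂ, ‖z‖ ≤ ρ * Real.cosh σ → ‖g z‖ ≤ A)
    (hr : ∀ x : ℝ, |x| ≤ ρ → ‖g x‖ ≤ η) {z : ℂ} (hz : ‖z‖ ≤ ρ * Real.sinh (τ * σ)) :
    ‖g z‖ ≤ η ^ (1 - τ) * A ^ τ := by
  have hA0 : 0 < A := hη.trans_le hηA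
  obtain ⟨ζ, h0, hζ⟩ := exists_cosh (z / ρ)
  have hρc : (ρ : ℂ) ≠ 0 := by exact_mod_cast hρ.ne'
  have hzζ : (ρ : ℂ) * Complex.cosh ζ = z := by rw [hζ]; field_simp
  -- the real part
  have h1 : ζ.re ≤ τ * σ := by
    have h2 := sinh_le_norm_cosh ζ
    rw [hζ, norm_div, Complex.norm_real, Real.norm_of_nonneg hρ.le, abs_of_nonneg h0] at h2
    have h3 : ‖z‖ / ρ ≤ Real.sinh (τ * σ) := by
      rw [div_le_iff₀ hρ, mul_comm]; exact hz
    exact Real.sinh_le_sinh.1 (h2.trans h3)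
  have hτσ : τ * σ ≤ σ := by nlinarith
  set f : ℂ → ℂ := fun w => g (ρ * Complex.cosh w) with hf
  have hfd : Differentiable ℂ f := by
    rw [hf]
    exact hg.comp ((Complex.differentiable_cosh).const_mul _)
  have hbd : ∀ w : ℂ, 0 ≤ w.re → w.re ≤ σ → ‖f w‖ ≤ A := by
    intro w hw0 hw
    refine hA _ ?_
    rw [norm_mul, Complex.norm_real, Real.norm_of_nonneg hρ.le]
    refine mul_le_mul_of_nonneg_left ((norm_cosh_le w).trans ?_) hρ.le
    rw [Real.cosh_le_cosh, abs_of_nonneg hw0, abs_of_pos hσ]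
    exact hw
  have key := HadamardThreeLines.norm_le_interp_of_mem_verticalClosedStrip' (f := f) (z := ζ) (a := η) (b := A)
    (l := 0) (u := σ) hσ ⟨h0, h1.trans hτσ⟩ hfd.diffContOnCl
    ⟨A, by
      rintro _ ⟨w, ⟨hw0, hw1⟩, rfl⟩
      exact hbd w hw0 hw1⟩
    (fun w hw => by
      have hw0 : w.re = 0 := hw
      have e : w = ((w.im : ℝ) : ℂ) * I := by
        apply Complex.ext
        · simp [hw0]
        · simp
      show ‖g (ρ * Complex.cosh w)‖ ≤ η
      rw [e, Complex.cosh_mul_I, ← Complex.ofReal_cos, ← Complex.ofReal_mul]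
      refine hr _ ?_
      rw [abs_mul, abs_of_pos hρ]
      have := Real.abs_cos_le_one w.im
      nlinarith)
    (fun w hw => by
      have hw0 : w.re = σ := hw
      exact hbd w (by rw [hw0]; exact hσ.le) hw0.le)
  rw [sub_zero, sub_zero] at key
  have e1 : f ζ = g z := by rw [hf]; simp only; rw [hzζ]
  rw [e1] at key
  refine key.trans ?_
  -- monotone in the exponent
  set s : ℝ := ζ.re / σ with hs
  have hs1 : s ≤ τ := by rw [hs, div_le_iff₀ hσ]; exact h1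
  have e2 : ∀ x : ℝ, η ^ (1 - x) * A ^ x = η * (A / η) ^ x := by
    intro x
    rw [Real.div_rpow hA0.le hη.le, Real.rpow_sub hη, Real.rpow_one]
    ring
  rw [e2, e2]
  refine mul_le_mul_of_nonneg_left ?_ hη.le
  exact Real.rpow_le_rpow_of_exponent_le ((one_le_div hη).2 hηA) hs1

/-- **two constants, imaginary segment** -/
theorem two_const_im {g : ℂ → ℂ} (hg : Differentiable ℂ g) {ρ σ τ A η : ℝ} (hρ : 0 < ρ) (hσ : 0 < σ)
    (hτ : 0 ≤ τ) (hτ1 : τ ≤ 1) (hη : 0 < η) (hηA : η ≤ A)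
    (hA : ∀ z : ℂ, ‖z‖ ≤ ρ * Real.cosh σ → ‖g z‖ ≤ A)
    (hr : ∀ x : ℝ, |x| ≤ ρ → ‖g (x * I)‖ ≤ η) {z : ℂ} (hz : ‖z‖ ≤ ρ * Real.sinh (τ * σ)) :
    ‖g z‖ ≤ η ^ (1 - τ) * A ^ τ := by
  have h1 : Differentiable ℂ fun w => g (w * I) := hg.comp (differentiable_id.mul_const I)
  have h2 := two_const (g := fun w => g (w * I)) h1 hρ hσ hτ hτ1 hη hηA
    (fun w hw => hA _ (by rw [norm_mul, Complex.norm_I, mul_one]; exact hw)) hr (z := -(z * I))
    (by rw [norm_neg, norm_mul, Complex.norm_I, mul_one]; exact hz)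
  have e : -(z * I) * I = z := by
    rw [neg_mul, mul_assoc, Complex.I_mul_I]
    ring
  simp only [e] at h2
  exact h2

/-! ### dyadic convergence -/

theorem dyadic_le {E : Type*} [NormedAddCommGroup E] {f : ℕ → E} {K c : ℝ} (hc : 0 < c) (hK : 0 ≤ K)
    (h : ∀ k k' : ℕ, 1 ≤ k → k ≤ k' → k' ≤ 2 * k → ‖f k' - f k‖ ≤ K * (k : ℝ) ^ (-c)) :
    ∀ m k k' : ℕ, k' - k ≤ m → 1 ≤ k → k ≤ k' →
      ‖f k' - f k‖ ≤ K / (1 - 2 ^ (-c)) * (k : ℝ) ^ (-c) := by
  have h2 : (2 : ℝ) ^ (-c) < 1 := Real.rpow_lt_one_of_one_lt_of_neg (by norm_num) (by linarith)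
  have h3 : 0 < 1 - (2 : ℝ) ^ (-c) := by linarith
  have h20 : 0 < (2 : ℝ) ^ (-c) := Real.rpow_pos_of_pos (by norm_num) _
  intro m
  induction m with
  | zero =>
    intro k k' h1 h4 h5
    have : k' = k := by omega
    rw [this, sub_self, norm_zero]
    positivity
  | succ m ih =>
    intro k k' h1 h4 h5
    have hk0 : (0 : ℝ) < k := by exact_mod_cast h4
    have hkc : 0 < (k : ℝ) ^ (-c) := Real.rpow_pos_of_pos hk0 _
    have hKK : K ≤ K / (1 - 2 ^ (-c)) := by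
      rw [le_div_iff₀ h3]
      nlinarith
    rcases le_or_gt k' (2 * k) with h6 | h6
    · exact (h k k' h4 h5 h6).trans (mul_le_mul_of_nonneg_right hKK hkc.le)
    · have e1 := ih (2 * k) k' (by omega) (by omega) h6.le
      have e2 := h k (2 * k) h4 (by omega) le_rfl
      have e3 : (((2 * k : ℕ) : ℝ)) ^ (-c) = 2 ^ (-c) * (k : ℝ) ^ (-c) := by
        push_cast
        rw [Real.mul_rpow (by norm_num) hk0.le]
      rw [e3] at e1
      have e4 : f k' - f k = (f k' - f (2 * k)) + (f (2 * k) - f k) := by abel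
      rw [e4]
      refine (norm_add_le _ _).trans ((add_le_add e1 e2).trans (le_of_eq ?_))
      field_simp
      ring

/-- **a sequence close at comparable indices converges with a rate** -/
theorem dyadic_lim {E : Type*} [NormedAddCommGroup E] [CompleteSpace E] {f : ℕ → E} {K c : ℝ} (hc : 0 < c)
    (hK : 0 ≤ K)
    (h : ∀ k k' : ℕ, 1 ≤ k → k ≤ k' → k' ≤ 2 * k → ‖f k' - f k‖ ≤ K * (k : ℝ) ^ (-c)) :
    ∃ L : E, ∀ k : ℕ, 1 ≤ k → ‖f k - L‖ ≤ K / (1 - 2 ^ (-c)) * (k : ℝ) ^ (-c) := by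
  have h0 := dyadic_le hc hK h
  have h2 : (2 : ℝ) ^ (-c) < 1 := Real.rpow_lt_one_of_one_lt_of_neg (by norm_num) (by linarith)
  have h3 : 0 < 1 - (2 : ℝ) ^ (-c) := by linarith
  have ht : Tendsto (fun k : ℕ => K / (1 - 2 ^ (-c)) * (k : ℝ) ^ (-c)) atTop (𝓝 0) := by
    have h3 := (tendsto_rpow_neg_atTop hc).comp tendsto_natCast_atTop_atTop
    simpa using h3.const_mul (K / (1 - 2 ^ (-c)))
  have hcs : CauchySeq f := by
    rw [Metric.cauchySeq_iff']
    intro e he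
    obtain ⟨N, hN1, hN2⟩ := ((ht.eventually (gt_mem_nhds he)).and (eventually_ge_atTop 1)).exists
    refine ⟨N, fun n hn => ?_⟩
    rw [dist_eq_norm]
    exact (h0 (n - N) N n le_rfl hN2 hn).trans_lt hN1
  obtain ⟨L, hL⟩ := cauchySeq_tendsto_of_complete hcs
  refine ⟨L, fun k hk => ?_⟩
  rw [norm_sub_rev]
  refine le_of_tendsto ((hL.sub_const (f k)).norm) ?_
  filter_upwards [eventually_ge_atTop k] with n hn
  exact h0 (n - k) k n le_rfl hk hn

end WND

end
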