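import Pool.Agent.NUNC.Main
import Pool.Agent.GLD.TwoCut

/-!
# The labelled network of the cylinder between the legs of two cut edges (plan W, W1c; helper60)

`two_cutL`: the network of the domain `A` without the two cut edges of the half edges `a`, `b` (`a.1`, `b.1` in
`A`), the two legs joined with the label `g`, evaluated at the empty state, is the sum over the words from
`C.rv a` to `C.rv b` in `A`; the outer ends of the two edges may be visited.
-/

set_option autoImplicit false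

namespace Pool.Agent.WND

open Pool.Agent.EXL Pool.Agent.EXL.Net Pool.Agent.NUN Pool.Agent.NUF Pool.Agent.NUF.LPat
  Pool.Agent.NUF.Cyl HexObs HexObs.LP

/-! ### local -/

section loc

variable {Γ α K : Type*} [AddCommGroup Γ] [DecidableEq α] [CommRing K]

/-- The legs `a` and `b` are joined (label `g` from `a` to `b`), `a` is occupied. -/
def J2 (ν : Γ → K) (g : Γ) (a b : α) : Module.End K (LPat Γ α → K) := (1 - lE Γ K a) * lCo ν g a b

theorem oE_apply (a : α) (F : LPat Γ α → K) (p : LPat Γ α) :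
    (1 - lE Γ K a) F p = if p a = a then 0 else F p := by
  rw [LinearMap.sub_apply, Pi.sub_apply, Module.End.one_apply, lE_apply]
  split_ifs <;> simp

theorem J2_apply (ν : Γ → K) (g : Γ) (a b : α) (F : LPat Γ α → K) (p : LPat Γ α) :
    J2 ν g a b F p = if p a = a then 0 else lCo ν g a b F p := by
  unfold J2
  rw [Module.End.mul_apply, oE_apply]

theorem arc_symm' {a b : α} (hab : a ≠ b) (g : Γ) : arc a b g = arc b a (-g) := by
  ext x
  · rw [arc_f hab, arc_f hab.symm]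
    grind
  · rw [arc_s hab, arc_s hab.symm]
    by_cases h1 : x = a
    · subst h1
      rw [if_pos rfl, if_neg hab, if_pos rfl, neg_neg]
    · rw [if_neg h1, if_neg h1]

theorem J2_free (ν : Γ → K) (g : Γ) {a b : α} (F : LPat Γ α → K) {p : LPat Γ α} (h : p a = a) :
    J2 ν g a b F p = 0 := by
  rw [J2_apply, if_pos h]

/-- **Two vertices with the joined legs `a`, `b`.** -/
theorem loc2 (x : K) (ν : Γ → K) (g : Γ) {a p1 p2 b q1 q2 : α} (h1 : a ≠ p1) (h2 : a ≠ p2) (h3 : p1 ≠ p2)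
    (k1 : b ≠ q1) (k2 : b ≠ q2) (m1 : a ≠ b) (m2 : a ≠ q1) (m3 : a ≠ q2) (n1 : p1 ≠ b)
    (n2 : p1 ≠ q1) (n3 : p1 ≠ q2) (o1 : p2 ≠ b) (o2 : p2 ≠ q1) (o3 : p2 ≠ q2) (H : LPat Γ α → K) :
    lCr Γ x a p1 p2 (lCr Γ x b q1 q2 (J2 ν g a b H)) LPat.empty =
      x * (x * (H (arc p1 q1 g) + H (arc p1 q2 g))) + x * (x * (H (arc p2 q1 g) + H (arc p2 q2 g))) := by
  have free : ∀ s : LPat Γ α, s a = a → lCr Γ x b q1 q2 (J2 ν g a b H) s = 0 := by
    intro s hs
    have c : ∀ i j : α, a ≠ i → a ≠ j → (if CuOK i j s then J2 ν g a b H (cup i j s) else 0) = 0 := by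
      intro i j hi hj
      split_ifs with h
      · refine J2_free ν g H ?_
        rw [cup_f h, if_neg hi, if_neg hj, hs]
      · rfl
    rw [lCr_apply, J2_free ν g H hs, c _ _ m1 m2, c _ _ m1 m3, c _ _ m2 m3]
    ring
  have one : ∀ r : α, a ≠ r → r ≠ b → r ≠ q1 → r ≠ q2 → lCr Γ x b q1 q2 (J2 ν g a b H) (arc a r 0) =
      x * (H (arc r q1 g) + H (arc r q2 g)) := by
    intro r e1 e2 e3 e4
    have occ : ∀ s : LPat Γ α, s a = r → J2 ν g a b H s = lCo ν g a b H s := by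
      intro s hs
      rw [J2_apply, if_neg (by rw [hs]; exact e1.symm)]
    have ha : arc a r (0 : Γ) a = r := by rw [arc_f e1, if_pos rfl]
    have cb : CuOK b q1 (arc a r (0 : Γ)) := ⟨arc_out _ e1 m1.symm e2.symm, arc_out _ e1 m2.symm e3.symm⟩
    have cc' : CuOK b q2 (arc a r (0 : Γ)) := ⟨arc_out _ e1 m1.symm e2.symm, arc_out _ e1 m3.symm e4.symm⟩
    have cd : CuOK q1 q2 (arc a r (0 : Γ)) := ⟨arc_out _ e1 m2.symm e3.symm, arc_out _ e1 m3.symm e4.symm⟩
    rw [lCr_apply, if_pos cb, if_pos cc', if_pos cd, occ _ ha,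
      occ _ (by rw [cup_f cb, if_neg m1, if_neg m2, ha]), occ _ (by rw [cup_f cc', if_neg m1, if_neg m3, ha]),
      occ _ (by rw [cup_f cd, if_neg m2, if_neg m3, ha]),
      lCo_arc g 0 ν e1 m1.symm e2.symm,
      lCo_cup g 0 ν e1 m1.symm e2.symm m2.symm e3.symm k1,
      lCo_cup g 0 ν e1 m1.symm e2.symm m3.symm e4.symm k2,
      lCo_cup' g 0 ν e1 m1.symm e2.symm m2.symm e3.symm m3.symm e4.symm k1 k2,
      arc_symm' e3.symm, arc_symm' e4.symm, zero_sub, neg_neg]
    ring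
  rw [lCr_empty x h1 h2 h3, free _ rfl, one p1 h1 n1 n2 n3, one p2 h2 o1 o2 o3,
    free (arc p1 p2 0) (arc_out _ h3 h1 h2)]
  ring

theorem comm_E_Cr' (x : K) {k a b c : α} (h1 : k ≠ a) (h2 : k ≠ b) (h3 : k ≠ c) :
    Commute (lE Γ K k) (lCr Γ x a b c) := by
  unfold lCr
  exact (Commute.one_right _).add_right ((((comm_E_Cu h1 h2).add_right (comm_E_Cu h1 h3)).add_right
    (comm_E_Cu h2 h3)).smul_right x)

theorem comm_E_Co' (ν : Γ → K) (g : Γ) {k a b : α} (h1 : k ≠ a) (h2 : k ≠ b) :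
    Commute (lE Γ K k) (lCo ν g a b) := by
  unfold lCo
  exact ((comm_E_E _ _).mul_right (comm_E_E _ _)).add_right ((comm_E_Tw _ _ _).mul_right (comm_E_Ct h1 h2))

end loc

/-! ### commutation with the network -/

section net

variable {C : Nm} {Γ K : Type*} [AddCommGroup Γ] [CommRing K]

theorem comm_E_CRl (x : K) {A : Finset Pt} {p : Pt × Pt} (hp : p.1 ∉ A) :
    Commute (lE Γ K (hf p) : LOp Γ K) (lCR Γ x A) := by
  refine Finset.noncommProd_commute A _ _ _ (fun u hu => ?_)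
  have e : ∀ d : Pt, (hf p : Lab) ≠ hf (u, d) := by
    intro d he
    rw [Sum.inl.injEq] at he
    exact hp (by rw [he]; exact hu)
  exact comm_E_Cr' x (e _) (e _) (e _)

theorem comm_Co_CRl (x : K) (ν : Γ → K) (g : Γ) {A : Finset Pt} {p q : Pt × Pt} (hp : p.1 ∉ A) (hq : q.1 ∉ A) :
    Commute (lCo ν g (hf p) (hf q) : LOp Γ K) (lCR Γ x A) := by
  refine Finset.noncommProd_commute A _ _ _ (fun u hu => ?_)
  exact (lCrv_lCo_comm x ν g (fun e => hp (by rw [e]; exact hu)) (fun e => hq (by rw [e]; exact hu))).symm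

variable {D : C.Lb Γ K}

theorem comm_E_cOl {E : Finset (Sym2 Lab)} (hE : C.Edg E) {p : Pt × Pt} (hp : C.ed p ∉ E) :
    Commute (lE Γ K (hf p) : LOp Γ K) (D.cO E hE) := by
  refine Finset.noncommProd_commute E _ _ _ (fun e he => ?_)
  obtain ⟨h, hh, rfl⟩ := hE e he
  rw [D.cS_ed hh.2]
  obtain ⟨k1, k2⟩ := MXR.ne_of_ed hh.2 hp he
  exact comm_E_Co' _ _ k1 k2

theorem comm_Co_cOl {E : Finset (Sym2 Lab)} (hE : C.Edg E) (g : Γ) {p q : Pt × Pt} (hp : C.ed p ∉ E)
    (hq : C.ed q ∉ E) : Commute (lCo D.nu g (hf p) (hf q) : LOp Γ K) (D.cO E hE) := by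
  refine Finset.noncommProd_commute E _ _ _ (fun e he => ?_)
  obtain ⟨h, hh, rfl⟩ := hE e he
  rw [D.cS_ed hh.2]
  obtain ⟨k1, k2⟩ := MXR.ne_of_ed hh.2 hp he
  obtain ⟨k3, k4⟩ := MXR.ne_of_ed hh.2 hq he
  exact lCo_comm D.even _ _ k1 k2 k3 k4

theorem comm_J2 (x : K) {A : Finset Pt} {E : Finset (Sym2 Lab)} (hE : C.Edg E) (g : Γ) {a b : Pt × Pt}
    (h1 : a.1 ∉ A) (h2 : b.1 ∉ A) (ea : C.ed a ∉ E) (eb : C.ed b ∉ E) :
    Commute (J2 D.nu g (hf a) (hf b) : LOp Γ K) (D.Nt x A E hE) := by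
  unfold J2 Nm.Lb.Nt
  refine Commute.mul_left ?_ ?_
  · exact (Commute.one_left _).sub_left ((comm_E_CRl x h1).mul_right (comm_E_cOl hE ea))
  · exact (comm_Co_CRl x D.nu g h1 h2).mul_right (comm_Co_cOl hE g ea eb)

/-- **The free leg.** -/
theorem cut_free (x : K) {A : Finset Pt} {E E1 : Finset (Sym2 Lab)} (hE : C.Edg E) (hE1 : C.Edg E1)
    {a : Pt × Pt} (ha : C.De a) (aA : a.1 ∉ A) (ea : C.ed a ∉ E) (eE : E1 = insert (C.ed a) E)
    {F : LPat Γ Lab → K} (Fa : lE Γ K (hf (C.rv a)) F = F) {s : LPat Γ Lab} (hs : s (hf a) = hf a) :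
    D.Nt x A E1 hE1 F s = D.Nt x A E hE F s := by
  classical
  subst eE
  set X : LOp Γ K := D.Nt x A E hE with hX
  have cm : Commute (lE Γ K (hf a) : LOp Γ K) X := (comm_E_CRl x aA).mul_right (comm_E_cOl hE ea)
  have key : ∀ H : LPat Γ Lab → K, X H s = X (lE Γ K (hf a) H) s := by
    intro H
    have h1 : (lE Γ K (hf a) * X) H s = (X * lE Γ K (hf a)) H s := by rw [cm.eq]
    rw [Module.End.mul_apply, Module.End.mul_apply, lE_apply, if_pos hs] at h1
    exact h1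
  have cc' : Commute (D.cS (C.ed a)) (D.cO E hE) := by
    refine Finset.noncommProd_commute E _ _ _ (fun e he => ?_)
    obtain ⟨h, hh, rfl⟩ := hE e he
    exact D.cS_comm ha.2 hh.2 (fun e => ea (by rw [e]; exact he))
  have e2 : D.Nt x A (insert (C.ed a) E) hE1 = X * D.cS (C.ed a) := by
    rw [hX]
    unfold Nm.Lb.Nt
    have e3 : D.cO (insert (C.ed a) E) hE1 = D.cS (C.ed a) * D.cO E hE :=
      Finset.noncommProd_insert_of_notMem E (C.ed a) D.cS _ ea
    rw [e3, cc'.eq, mul_assoc]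
  rw [e2, Module.End.mul_apply, key, key F]
  refine congrFun (congrArg X ?_) s
  funext t
  rw [lE_apply, lE_apply, D.cS_ed ha.2, lCo_apply]
  by_cases h : t (hf a) = hf a
  · rw [if_pos h, if_pos h, if_pos h, if_neg (fun h' : OcOK (hf a) (hf (C.rv a)) t => h'.2.1 h), add_zero]
    have h3 := congrFun Fa t
    rw [lE_apply] at h3
    exact h3
  · rw [if_neg h, if_neg h]

/-! ### the last vertex of the words -/

theorem ls_snoc (D : C.Lb Γ K) (p : Pt × Pt) (t : List Bool) (s : Bool) :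
    D.ls p (t ++ [s]) = D.ls p t + D.lab (C.le p (t ++ [s])) := by
  unfold Nm.Lb.ls Nm.le
  have hl : (t ++ [s]).length = t.length + 1 := by simp
  rw [hl, Finset.sum_range_succ]
  congr 1
  refine Finset.sum_congr rfl fun i hi => ?_
  rw [Finset.mem_range] at hi
  rw [vx_append (by omega), dx_append (by omega)]

/-- **The last vertex of the words.** -/
theorem Pw_last (D : C.Lb Γ K) (x : K) {A : Finset Pt} {h b : Pt × Pt} (g : Γ) (hb : C.nm b.1 = b.1)
    (hh : C.nm h.1 = h.1) (hA : b.1 ∈ A) (hne : h ≠ b) (lb : D.lab b = 0) :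
    D.Pw x (fun _ => 1) A (C.rv b) g h =
      x * (D.Pw x (fun _ => 1) (A.erase b.1) (b.1, rotL (-b.2)) g h +
        D.Pw x (fun _ => 1) (A.erase b.1) (b.1, rotR (-b.2)) g h) := by
  classical
  have hle : ∀ t, C.rv (C.le h t) = C.rv b ↔ C.le h t = b := by
    intro t
    constructor
    · intro e
      have h1 := congrArg C.rv e
      rwa [Nm.rv_rv hb, Nm.rv_rv (C.idem _)] at h1
    · rintro e
      rw [e]
  have key : ∀ (t : List Bool) (s : Bool), (C.Arr A h (t ++ [s]) ∧ C.le h (t ++ [s]) = b) ↔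
      (C.Arr (A.erase b.1) h t ∧ C.rv (C.le h t) = (b.1, turn (!s) (-b.2))) := by
    intro t s
    have hl : (t ++ [s]).length = t.length + 1 := by simp
    have e1 : vx h.1 h.2 (t ++ [s]) (t.length + 1) = vx h.1 h.2 t (t.length + 1) := vx_append le_rfl
    have e2 : dx h.2 (t ++ [s]) (t.length + 1) = turn s (dx h.2 t t.length) := by
      show turn (tf (t ++ [s]) t.length) (dx h.2 (t ++ [s]) t.length) = _
      rw [dx_append le_rfl]
      have : tf (t ++ [s]) t.length = s := tf_append_right 0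
      rw [this]
    have e3 : C.nb (C.le h t) = C.nm (vx h.1 h.2 t (t.length + 1)) := by
      show C.nm (C.nm (vx h.1 h.2 t t.length) + dx h.2 t t.length) = _
      rw [C.add]
      rfl
    have e4 : C.le h (t ++ [s]) = b ↔ C.nm (vx h.1 h.2 t (t.length + 1)) = b.1 ∧
        turn s (dx h.2 t t.length) = b.2 := by
      unfold Nm.le
      rw [hl, e1, e2, Prod.ext_iff]
    have e5 : C.rv (C.le h t) = (b.1, turn (!s) (-b.2)) ↔
        C.nm (vx h.1 h.2 t (t.length + 1)) = b.1 ∧ turn s (dx h.2 t t.length) = b.2 := by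
      rw [GLD.turn_inv]
      unfold Nm.rv
      rw [e3, Prod.ext_iff]
      rfl
    rw [e4, e5]
    constructor
    · rintro ⟨h1, h2, h3⟩
      exact ⟨((GLD.arr_snoc h2).1 h1).2, h2, h3⟩
    · rintro ⟨h1, h2, h3⟩
      exact ⟨(GLD.arr_snoc h2).2 ⟨hA, h1⟩, h2, h3⟩
  have hinj : ∀ s : Bool, Function.Injective (fun t : List Bool => t ++ [s]) := fun s => List.append_left_injective [s]
  unfold Nm.Lb.Pw
  have e : (C.arr A h).filter (fun t => C.rv (C.le h t) = C.rv b) =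
      ((C.arr (A.erase b.1) h).filter
        (fun t => C.rv (C.le h t) = (b.1, rotL (-b.2)))).image (fun t => t ++ [false]) ∪
      ((C.arr (A.erase b.1) h).filter
        (fun t => C.rv (C.le h t) = (b.1, rotR (-b.2)))).image (fun t => t ++ [true]) := by
    ext t
    simp only [Finset.mem_union, Finset.mem_image, Finset.mem_filter, Nm.mem_arr, hle]
    constructor
    · rintro ⟨h1, h2⟩
      rcases List.eq_nil_or_concat t with rfl | ⟨t', s, rfl⟩
      · rw [Nm.le_nil hh] at h2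
        exact absurd h2 hne
      · rw [List.concat_eq_append] at h1 h2 ⊢
        have h3 := (key t' s).1 ⟨h1, h2⟩
        cases s
        · exact Or.inl ⟨t', ⟨h3.1, h3.2⟩, rfl⟩
        · exact Or.inr ⟨t', ⟨h3.1, h3.2⟩, rfl⟩
    · rintro (⟨t', ⟨h1, h2⟩, rfl⟩ | ⟨t', ⟨h1, h2⟩, rfl⟩)
      · exact (key t' false).2 ⟨h1, h2⟩
      · exact (key t' true).2 ⟨h1, h2⟩
  have hd : Disjoint (((C.arr (A.erase b.1) h).filter
        (fun t => C.rv (C.le h t) = (b.1, rotL (-b.2)))).image (fun t => t ++ [false]))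
      (((C.arr (A.erase b.1) h).filter
        (fun t => C.rv (C.le h t) = (b.1, rotR (-b.2)))).image (fun t => t ++ [true])) := by
    rw [Finset.disjoint_left]
    intro t h1 h2
    obtain ⟨s, -, rfl⟩ := Finset.mem_image.1 h1
    obtain ⟨r, -, hr⟩ := Finset.mem_image.1 h2
    have := congrArg List.getLast? hr
    simp at this
  have hlab : ∀ (t : List Bool) (s : Bool), C.rv (C.le h t) = (b.1, turn (!s) (-b.2)) →
      C.Arr (A.erase b.1) h t → D.ls h (t ++ [s]) = D.ls h t := by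
    intro t s h1 h2
    rw [ls_snoc, ((key t s).2 ⟨h2, h1⟩).2, lb, add_zero]
  rw [e, Finset.sum_union hd, Finset.sum_image (fun a _ b _ hab => hinj false hab),
    Finset.sum_image (fun a _ b _ hab => hinj true hab), mul_add, Finset.mul_sum, Finset.mul_sum]
  refine congrArg₂ (· + ·) (Finset.sum_congr rfl fun t ht => ?_) (Finset.sum_congr rfl fun t ht => ?_)
  · rw [Finset.mem_filter, Nm.mem_arr] at ht
    rw [hlab t false ht.2 ht.1, List.length_append, List.length_singleton, pow_succ']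
    ring
  · rw [Finset.mem_filter, Nm.mem_arr] at ht
    rw [hlab t true ht.2 ht.1, List.length_append, List.length_singleton, pow_succ']
    ring

/-- the gas without loops. -/
theorem gas_one {x : K} (h : ∀ (A : Finset Pt), ∀ E ∈ C.polys A, D.nu (D.lE E) = 0) :
    D.Gas x fun _ => 1 := by
  refine ⟨rfl, fun A v _ _ => ?_⟩
  rw [Finset.sum_eq_zero, add_zero]
  intro E hE
  rw [h A E (Finset.mem_filter.1 hE).1, zero_mul, mul_zero]

/-- **The labelled network between the legs of two cut edges.** -/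
theorem two_cutL {x : K} (hz : D.Gas x fun _ => 1) (h2 : ∀ a b : K, 2 * a = 2 * b → a = b) {A : Finset Pt}
    (hV : ∀ w ∈ A, Vt w ∧ C.nm w = w) {E E' : Finset (Sym2 Lab)} (hE : C.Edg E) (hE' : C.Edg E')
    {a b : Pt × Pt} (ha : C.De a) (hb : C.De b) (ea : C.ed a ∉ E) (eb : C.ed b ∉ E) (hab : C.ed a ≠ C.ed b)
    (eE : E' = insert (C.ed a) (insert (C.ed b) E)) (aA : a.1 ∈ A) (bA : b.1 ∈ A) (uv : a.1 ≠ b.1)
    (incl : C.Incl A E') (la : D.lab a = 0) (lb : D.lab b = 0) (g : Γ) {F : LPat Γ Lab → K}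
    (Fa : lE Γ K (hf (C.rv a)) F = F) (Fb : lE Γ K (hf (C.rv b)) F = F) :
    (lCR Γ x A * D.cO E hE) (J2 D.nu g (hf a) (hf b) F) LPat.empty =
      D.Pw x (fun _ => 1) A (C.rv b) g (C.rv a) * F LPat.empty := by
  classical
  set A' := (A.erase a.1).erase b.1 with hA'
  have bA1 : b.1 ∈ A.erase a.1 := Finset.mem_erase.2 ⟨uv.symm, bA⟩
  have aA' : a.1 ∉ A' := fun h => Finset.notMem_erase a.1 A (Finset.mem_of_mem_erase h)
  have bA' : b.1 ∉ A' := Finset.notMem_erase b.1 _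
  have sub : ∀ w ∈ A', w ∈ A := fun w hw => Finset.mem_of_mem_erase (Finset.mem_of_mem_erase hw)
  set X : LOp Γ K := D.Nt x A' E hE with hX
  have hfi : ∀ {c d : Pt × Pt}, c ≠ d → (hf c : Lab) ≠ hf d := by
    intro c d hcd e
    exact hcd (Sum.inl_injective e)
  have e1 : (lCR Γ x A * D.cO E hE : LOp Γ K) = lCrv Γ x a.1 * (lCrv Γ x b.1 * X) := by
    rw [lCR_erase x aA, lCR_erase x bA1, hX]
    unfold Nm.Lb.Nt
    simp only [mul_assoc]
    rfl
  have cJ : Commute (J2 D.nu g (hf a) (hf b) : LOp Γ K) X := comm_J2 x hE g aA' bA' ea eb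
  have e2 : (lCR Γ x A * D.cO E hE : LOp Γ K) (J2 D.nu g (hf a) (hf b) F) LPat.empty =
      lCrv Γ x a.1 (lCrv Γ x b.1 (J2 D.nu g (hf a) (hf b) (X F))) LPat.empty := by
    rw [e1, Module.End.mul_apply, Module.End.mul_apply]
    have e3 : X (J2 D.nu g (hf a) (hf b) F) = J2 D.nu g (hf a) (hf b) (X F) := by
      have := congrArg (fun Y : LOp Γ K => Y F) cJ.eq
      simp only [Module.End.mul_apply] at this
      exact this.symm
    rw [e3]
  -- the legs
  obtain ⟨a1, a2⟩ := a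
  obtain ⟨b1, b2⟩ := b
  simp only at *
  have dn : ∀ d ∈ dirs, rotL (rotL d) ≠ d ∧ rotR (rotR d) ≠ d ∧ rotL (rotL d) ≠ rotR (rotR d) := by decide
  obtain ⟨da1, da2, da3⟩ := dn a2 ha.1.1
  obtain ⟨db1, db2, db3⟩ := dn b2 hb.1.1
  have ne1 : ∀ {v d e : Pt}, d ≠ e → (hf (v, d) : Lab) ≠ hf (v, e) := fun h =>
    hfi fun e => h (congrArg Prod.snd e)
  have ne2 : ∀ {d e : Pt}, (hf (a1, d) : Lab) ≠ hf (b1, e) := hfi fun e => uv (congrArg Prod.fst e)
  rw [e2, lCrv_eq x ha.1, lCrv_eq x hb.1,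
    loc2 x D.nu g (ne1 da1.symm) (ne1 da2.symm) (ne1 da3) (ne1 db1.symm) (ne1 db2.symm)
      ne2 ne2 ne2 ne2 ne2 ne2 ne2 ne2 ne2]
  -- the values
  have hVA' : ∀ w ∈ A', Vt w ∧ C.nm w = w := fun w hw => hV w (sub w hw)
  have inc' : C.Incl A' E' := fun w hw d hd => incl w (sub w hw) d hd
  have hE1 : C.Edg (insert (C.ed (b1, b2)) E) := fun e he => by
    refine hE' e ?_
    rw [eE]
    exact Finset.mem_insert_of_mem he
  have e4 : C.ed (a1, a2) ∉ insert (C.ed (b1, b2)) E := by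
    rw [Finset.mem_insert, not_or]
    exact ⟨hab, ea⟩
  have val : ∀ d e : Pt, C.De (a1, d) → d ≠ a2 → e ≠ b2 → C.De (b1, e) →
      X F (arc (hf (a1, d)) (hf (b1, e)) g) =
        D.Pw x (fun _ => 1) A' (b1, e) g (a1, d) * F LPat.empty := by
    intro d e hd hda heb he
    have s1 : arc (hf (a1, d) : Lab) (hf (b1, e)) g (hf (a1, a2)) = hf (a1, a2) :=
      arc_out _ ne2 (ne1 hda.symm) ne2
    have s2 : arc (hf (a1, d) : Lab) (hf (b1, e)) g (hf (b1, b2)) = hf (b1, b2) :=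
      arc_out _ ne2 ne2.symm (ne1 heb.symm)
    have k1 := cut_free (D := D) x hE hE1 hb bA' eb rfl Fb s2
    have k2 := cut_free (D := D) x hE1 hE' ha aA' e4 eE Fa s1
    rw [hX, ← k1, ← k2]
    refine (Nm.Lb.main hz h2 _ A' rfl hVA').2 E' hE' inc' (a1, d) (b1, e) g hd aA' bA' ?_ ?_ F
    · intro h
      exact uv (congrArg Prod.fst h)
    · exact incl a1 aA d hd
  have hLe : ∀ {v d : Pt}, C.De (v, d) → C.De (v, rotL (rotL d)) ∧ C.De (v, rotR (rotR d)) := by
    intro v d h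
    have h2' : C.nb (C.rv (v, d)) = v := congrArg Prod.fst (Nm.rv_rv h.2)
    have k1 := h.rv'.turn true
    have k2 := h.rv'.turn false
    have h3 : C.nb (C.nb (v, d), -d) = v := h2'
    rw [h3] at k1 k2
    have r1 : turn true (-d) = rotR (rotR d) := (GLD.turn_neg d).1
    have r2 : turn false (-d) = rotL (rotL d) := (GLD.turn_neg d).2
    rw [r1] at k1
    rw [r2] at k2
    exact ⟨k2, k1⟩
  obtain ⟨ga1, ga2⟩ := hLe ha
  obtain ⟨gb1, gb2⟩ := hLe hb
  rw [val _ _ ga1 da1 db1 gb1, val _ _ ga1 da1 db2 gb2, val _ _ ga2 da2 db1 gb1, val _ _ ga2 da2 db2 gb2]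
  -- the words
  have hnb : C.nb (C.rv (a1, a2)) = a1 := congrArg Prod.fst (Nm.rv_rv ha.2)
  have hr2 : (C.rv (a1, a2)).2 = -a2 := rfl
  have f1 : D.Pw x (fun _ => 1) A (C.rv (b1, b2)) g (C.rv (a1, a2)) =
      x * (D.Pw x (fun _ => 1) (A.erase a1) (C.rv (b1, b2)) g (a1, rotR (rotR a2)) +
        D.Pw x (fun _ => 1) (A.erase a1) (C.rv (b1, b2)) g (a1, rotL (rotL a2))) := by
    have h := D.Pw_in x (fun _ => 1) (A := A) (q := C.rv (b1, b2)) g (p := C.rv (a1, a2)) (Nm.nm_rv _)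
      (by rw [hnb]; exact aA) (by
        rw [Nm.rv_rv ha.2]
        intro e
        apply hab
        rw [e, Nm.ed_rv hb.2])
    rw [h, hnb, hr2, D.anti _ ha.2, la, neg_zero, sub_zero, (GLD.turn_neg a2).1, (GLD.turn_neg a2).2]
  have f2 : ∀ d : Pt, C.De (a1, d) → D.Pw x (fun _ => 1) (A.erase a1) (C.rv (b1, b2)) g (a1, d) =
      x * (D.Pw x (fun _ => 1) A' (b1, rotR (rotR b2)) g (a1, d) +
        D.Pw x (fun _ => 1) A' (b1, rotL (rotL b2)) g (a1, d)) := by
    intro d hd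
    have h := Pw_last D x (A := A.erase a1) (h := (a1, d)) (b := (b1, b2)) g hb.2 hd.2 bA1
      (fun e => uv (congrArg Prod.fst e)) lb
    rw [h]
    simp only
    rw [(GLD.turn_neg b2).1, (GLD.turn_neg b2).2]
  rw [f1, f2 _ ga1, f2 _ ga2]
  ring

end net

end Pool.Agent.WND
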