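import Pool.Agent.WND.CylDef
import Pool.Agent.WND.Ang

/-!
# The crossing number `wind`: symmetry of its law, and the winding angle (helper67)

* `wind_eq_cw`: `wind w = cw k n w` for the walks of `saws k n`;
* `wind_rf`, `ncard_wind`, `rS`, `cn_rS`: the reflection, the law is symmetric;
* `ang_wind`: `ang k n w = -2 π wind w`; `prob_ang`: the distribution function of the angle.
-/

set_option autoImplicit false

namespace Pool.Agent.CylSaw

open Finset

section
variable {k : ℕ}

theorem not_up {u v : V (2 * k)} (h : Up u v) : ¬ Up v u := by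
  rintro ⟨s, -, -, h1, -⟩
  obtain ⟨r, -, -, -, h2⟩ := h
  rw [h1] at h2
  have := congrArg Prod.fst h2
  simp at this

open Classical in
theorem crs_eq_up (hk : 1 ≤ k) {a b : V (2 * k)} (h : St k a b) :
    crs k a b = (if Up a b then 1 else 0) - (if Up b a then 1 else 0) := by
  rcases step_cases' hk h with ⟨h1, h2, h3⟩ | ⟨r, h1, h2, h3 | h3⟩
  · have e1 : ¬ Up a b := by
      rintro ⟨r, -, -, e, e'⟩
      rw [e, e'] at h1
      have := h1.2 le_rfl
      simp at this
    have e2 : ¬ Up b a := by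
      rintro ⟨r, -, -, e, e'⟩
      rw [e, e'] at h1
      have := h1.1 le_rfl
      simp at this
    rw [h2, if_neg e1, if_neg e2, sub_zero]
  · have e1 : ¬ Up a b := by
      rintro ⟨s, -, -, e, -⟩
      rw [h3.1] at e
      have := congrArg Prod.fst e
      simp at this
    rw [if_neg e1]
    by_cases h4 : r.val < k
    · have e2 : Up b a := ⟨r, by omega, h4, h3.2, h3.1⟩
      rw [if_pos e2, h3.1, h3.2, crs_RL, if_pos ⟨by omega, h4⟩]
      norm_num
    · have e2 : ¬ Up b a := by
        rintro ⟨s, -, hs, e, -⟩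
        rw [h3.2] at e
        have e3 : r = s := congrArg (fun p : V (2 * k) => p.2.1) e
        rw [e3] at h4
        exact h4 hs
      rw [if_neg e2, h3.1, h3.2, crs_RL, if_neg (by omega)]
      norm_num
  · have e1 : ¬ Up b a := by
      rintro ⟨s, -, -, e, -⟩
      rw [h3.2] at e
      have := congrArg Prod.fst e
      simp at this
    rw [if_neg e1]
    by_cases h4 : r.val < k
    · have e2 : Up a b := ⟨r, by omega, h4, h3.1, h3.2⟩
      rw [if_pos e2, h3.1, h3.2, crs_LR, if_pos ⟨by omega, h4⟩]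
      norm_num
    · have e2 : ¬ Up a b := by
        rintro ⟨s, -, hs, e, -⟩
        rw [h3.1] at e
        have e3 : r = s := congrArg (fun p : V (2 * k) => p.2.1) e
        rw [e3] at h4
        exact h4 hs
      rw [if_neg e2, h3.1, h3.2, crs_LR, if_neg (by omega)]
      norm_num

open Classical in
theorem ncard_sum {n : ℕ} (P : Fin n → Prop) :
    (({i : Fin n | P i}.ncard : ℕ) : ℤ) = ∑ i : Fin n, if P i then (1 : ℤ) else 0 := by
  rw [Finset.sum_boole, Set.ncard_eq_toFinset_card']
  congr 2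
  ext i
  simp

/-- **the two definitions of the crossing number agree.** -/
theorem wind_eq_cw_of (hk : 1 ≤ k) {n : ℕ} {w : Fin (n + 1) → V (2 * k)}
    (h : ∀ i : Fin n, St k (w i.castSucc) (w i.succ)) : wind w = cw k n w := by
  classical
  unfold wind cw
  rw [Finset.sum_congr rfl fun i _ => crs_eq_up hk (h i), Finset.sum_sub_distrib, ncard_sum, ncard_sum]

theorem wind_eq_cw (hk : 1 ≤ k) {n : ℕ} {w : Fin (n + 1) → V (2 * k)} (hw : w ∈ saws k n) : wind w = cw k n w :=
  wind_eq_cw_of hk hw.2.2.2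

/-- **the reflection.** -/
theorem wind_rf (hk : 1 ≤ k) {n : ℕ} {w : Fin (n + 1) → V (2 * k)} (hw : w ∈ saws k n) :
    wind (rf ∘ w) = -wind w := by
  rw [wind_eq_cw hk hw, wind_eq_cw hk (rf_saws hw), cw_rf hk hw]

/-- **the law of the crossing number is symmetric.** -/
theorem ncard_wind (hk : 1 ≤ k) (n : ℕ) (m : ℤ) :
    {w | w ∈ saws k n ∧ wind w = -m}.ncard = {w | w ∈ saws k n ∧ wind w = m}.ncard := by
  have e : ∀ m : ℤ, {w | w ∈ saws k n ∧ wind w = m} = {w | w ∈ saws k n ∧ cw k n w = m} := by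
    intro m
    ext w
    constructor
    · rintro ⟨h1, h2⟩
      exact ⟨h1, by rw [← wind_eq_cw hk h1]; exact h2⟩
    · rintro ⟨h1, h2⟩
      exact ⟨h1, by rw [wind_eq_cw hk h1]; exact h2⟩
  rw [e, e]
  exact ncard_neg hk n m

/-- **the crossing number is the winding angle.** -/
theorem ang_wind (hk : 1 ≤ k) {n : ℕ} {w : Fin (n + 1) → V (2 * k)} (hw : w ∈ saws k n) :
    ang k n w = -2 * Real.pi * wind w := by
  rw [ang_eq hk hw, wind_eq_cw hk hw]
  ring

/-! ### all walks -/

/-- the reflection of the walks. -/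
def rS : Saw k ≃ Saw k where
  toFun w := ⟨w.1, ⟨rf ∘ w.2.1, rf_saws w.2.2⟩⟩
  invFun w := ⟨w.1, ⟨rf ∘ w.2.1, rf_saws w.2.2⟩⟩
  left_inv w := by
    obtain ⟨n, w, hw⟩ := w
    simp only [Sigma.mk.injEq, heq_eq_eq, true_and, Subtype.mk.injEq]
    funext i
    exact rf_rf (w i)
  right_inv w := by
    obtain ⟨n, w, hw⟩ := w
    simp only [Sigma.mk.injEq, heq_eq_eq, true_and, Subtype.mk.injEq]
    funext i
    exact rf_rf (w i)

theorem wt_rS (w : Saw k) : wt (rS w) = wt w := rfl

theorem cn_rS (hk : 1 ≤ k) (w : Saw k) : cn (rS w) = -cn w := wind_rf hk w.2.2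

/-- sums over the walks are invariant under the reflection. -/
theorem tsum_rS (hk : 1 ≤ k) {E : Type*} [AddCommMonoid E] [TopologicalSpace E] (f : ℝ → ℤ → E) :
    ∑' w : Saw k, f (wt w) (-cn w) = ∑' w : Saw k, f (wt w) (cn w) := by
  rw [← (rS (k := k)).tsum_eq fun w => f (wt w) (cn w)]
  refine tsum_congr fun w => ?_
  rw [wt_rS, cn_rS hk]

/-- the characteristic function is even. -/
theorem chf_neg (hk : 1 ≤ k) (b : ℝ) : chf k (-b) = chf k b := by
  unfold chf
  congr 1
  rw [← tsum_rS hk fun x j => (x : ℂ) * Complex.exp (((b * j : ℝ) : ℂ) * Complex.I)]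
  refine tsum_congr fun w => ?_
  push_cast
  ring_nf

/-- **The winding angle of a walk around its two ends.** -/
noncomputable def angS {k : ℕ} (w : Saw k) : ℝ := ang k w.1 w.2.1

theorem angS_eq (hk : 1 ≤ k) (w : Saw k) : angS w = -2 * Real.pi * cn w := ang_wind hk w.2.2

/-- The probability that the winding angle of the critical walk lies in `s`. -/
noncomputable def probA (k : ℕ) (s : Set ℝ) : ℝ := (∑' w : Saw k, s.indicator (fun _ => wt w) (angS w)) / Z k

/-- **the distribution function of the winding angle.** -/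
theorem probA_eq (hk : 1 ≤ k) (s : Set ℝ) : probA k s = prob k {j : ℤ | 2 * Real.pi * j ∈ s} := by
  unfold probA prob
  congr 1
  rw [← tsum_rS hk fun x j => ({j : ℤ | 2 * Real.pi * j ∈ s}).indicator (fun _ => x) j]
  refine tsum_congr fun w => ?_
  rw [angS_eq hk]
  have e : 2 * Real.pi * ((-cn w : ℤ) : ℝ) = -2 * Real.pi * (cn w : ℝ) := by
    push_cast
    ring
  by_cases h : -2 * Real.pi * (cn w : ℝ) ∈ s
  · rw [Set.indicator_of_mem h, Set.indicator_of_mem]
    show 2 * Real.pi * ((-cn w : ℤ) : ℝ) ∈ s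
    rw [e]
    exact h
  · rw [Set.indicator_of_notMem h, Set.indicator_of_notMem]
    show ¬ 2 * Real.pi * ((-cn w : ℤ) : ℝ) ∈ s
    rw [e]
    exact h

theorem probA_le (hk : 1 ≤ k) (y : ℝ) : probA k {t | t ≤ y} = prob k {j : ℤ | 2 * Real.pi * j ≤ y} :=
  probA_eq hk _

end

end Pool.Agent.CylSaw
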