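import Pool.Agent.PB.ZLegL
import Pool.Agent.WND.NzZ
import Pool.Agent.WND.Nrm

/-!
# Plan W, (Z) at the twisted dislocated function (helper17)

The weight of `PBLg` with the coefficient `u n * c τ`, `‖u n‖ = 1` (`n` = number of quanta of a group).

* `fz_FFm`: the twisted function is the sum over `n` of `ζ ^ (m - n) Pf FF`;
* `zpathU`, `T0u_eq`, `d1u`, `d2u`, `leg_b1u`, `leg_b2u`: helper61's `ZLeg` with coefficients;
* **`zlegZ`**: `PBLg.zleg` (the hypothesis `hτ` of `PBEM.E2_of`) for the weight with the coefficient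
  `tw (zz j) (j + 1) n * Pf` and the function `fz (zz j) (x, 0, …, 0)`, any `zz`, `‖zz j‖ = 1`.
-/

set_option autoImplicit false
set_option linter.unusedSectionVars false
set_option linter.unusedVariables false

noncomputable section

open Complex MeasureTheory Finset Filter Topology
open scoped ENNReal

namespace WND

open NUO NUP1S NUP1S.AbC NUGC NUCR PBF PBFunc PBLg
open PBI (Stt)
open NUMF (l P)
open PBU (famL UB DN BC nu1)
open Pool.Agent.PB (Pf Nu LS)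
open PBL (mu1)

attribute [local instance] NUSea.seaP

/-! ### the class formula -/

/-- **the twisted function is the functional**, `-9/10 l ≤ Re z < 37/10 l` -/
theorem fz_FFm {m : ℕ} (ζ : ℂ) {Pm : NUO.Par} {ep β : ℝ} (hP : ParC Pm)
    (hρ : ∀ r, ∃ ρ0, 0 < ρ0 ∧ ∀ t, ρ0 ≤ Pm.rad r t)
    (hep0 : 0 < ep) (hep : ep ≤ 1 / 100) (hβ : 0 < β) (hβ' : β ≤ 4 / 3)
    {x : Fin m → ℂ} (hx : PBX.Rws x) {ex ex0 : List ℂ} (hex : ∀ w ∈ ex, |w.re| ≤ NUP1.l / 2)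
    (hex0 : ∀ w ∈ ex0, |w.re| ≤ NUP1.l / 2) {z : ℂ} (h1 : -(9 / 10 * NUP1.l) ≤ z.re)
    (h2 : z.re < 37 / 10 * NUP1.l) {η η' : ℕ → Crs}
    (hη : ∀ n ∈ range (2 * m + 1), ∀ r ≤ n + n, ∀ᵐ O ∂(Measure.pi fun _ : Fin r => nu),
      CurB ep (η n r O) (η' n r O)) :
    fz ζ x z = Pf z x x * ∑ n ∈ range (2 * m + 1), tw ζ m n *
      FF (PBX.ZL β x ex ex0 z) Pm n n (η n) (η' n) (fun _ _ _ _ _ => 1) := by
  have hl := NUP1.lpos
  rw [fz_right ζ hx ⟨by linarith, by linarith⟩]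
  unfold nzz nzn tw
  rw [Finset.mul_sum]
  refine Finset.sum_congr rfl fun n hn => ?_
  rw [← PBX.DZ_ZL hP hρ hep0 hep hβ hβ' hx hex hex0 h1 h2 (hη n hn)]
  rw [mul_left_comm]
  rfl

/-! ### the weight with coefficients -/

section weight

variable {Z0 : Stt} {Pm : NUO.Par} {N : ℕ} {η η' : ℕ → Crs} {u : ℕ → ℂ} {ρ : ℝ → ℂ} {c : ℝ → ℂ}

/-- the weight without legs -/
def w0u (Z0 : Stt) (Pm : NUO.Par) (N : ℕ) (η η' : ℕ → Crs) (u : ℕ → ℂ) : CfN N → ℂ :=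
  wN (fun _ => Z0) (fun _ => Pm) N η η' u

/-- the weight with legs at `i τ`, coefficient `u n * c τ` -/
def WTu (Z0 : Stt) (Pm : NUO.Par) (N : ℕ) (η η' : ℕ → Crs) (u : ℕ → ℂ) (c : ℝ → ℂ) (τ : ℝ) :
    CfN N → ℂ :=
  wN (fun _ => Zm Z0 (lgK (I * τ))) (fun _ => Pm) N η η' fun n => u n * c τ

theorem WTu_eq (Z0 : Stt) (Pm : NUO.Par) (N : ℕ) (η η' : ℕ → Crs) (u : ℕ → ℂ) (c : ℝ → ℂ)
    (τ : ℝ) : WTu Z0 Pm N η η' u c τ = wt c (w0u Z0 Pm N η η' u) (EN Pm N η) τ := by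
  funext x
  unfold WTu wt w0u EN wN evN
  simp only [wC_Zm]
  ring

theorem enorm_WTu (hu : ∀ n, ‖u n‖ = 1) (τ : ℝ) (x : CfN N) :
    ‖WTu Z0 Pm N η η' u c τ x‖ₑ = ‖WT Z0 Pm N η η' c τ x‖ₑ :=
  enorm_wN (fun n => by rw [norm_mul, hu, one_mul]) x

theorem FAN_u (Z : Stt) (Pm : NUO.Par) (N : ℕ) (η η' : ℕ → Crs) (hu : ∀ n, ‖u n‖ = 1) (c : ℂ)
    (Ψ : ℕ → Ins) : FAN (fun _ => Z) (fun _ => Pm) N η η' (fun n => u n * c) Ψ =
      FAN (fun _ => Z) (fun _ => Pm) N η η' (fun _ => c) Ψ :=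
  FAN_nw (fun n => by rw [norm_mul, hu, one_mul]) Ψ

/-- **the path of the weights** -/
theorem zpathU (H : LegH Z0 Pm N η η') (hu : ∀ n, ‖u n‖ = 1) :
    ∃ B : ℝ, ZPath (mN N) (w0u Z0 Pm N η η' u) (EN Pm N η)
      (fun τ => AN Pm N η fun z => dl (z - τ)) (fun τ => AN Pm N η fun z => dl2 (z - τ)) B := by
  obtain ⟨B, hB⟩ := H.zpath
  refine ⟨B, ⟨?_, hB.mE, hB.mA, hB.mA2, hB.bE, hB.bA, hB.bA2, hB.dE, hB.dA⟩⟩
  have h0 : WI (mN N) (wN (fun _ => Z0) (fun _ => Pm) N η η' fun _ => 1)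
      (fun _ => (1 : ℂ)) := by
    unfold PBFunc.WI
    refine hB.w.congr (Eventually.of_forall fun x => ?_)
    show w0N Z0 Pm N η η' x = w0N Z0 Pm N η η' x * 1
    rw [mul_one]
  have h1 := WI_nw (c' := u) h0 fun n => by rw [hu, norm_one]
  unfold PBFunc.WI at h1
  refine h1.congr (Eventually.of_forall fun x => ?_)
  show w0u Z0 Pm N η η' u x * 1 = w0u Z0 Pm N η η' u x
  rw [mul_one]

/-- **the functional at height `τ`** -/
def T0u (Z0 : Stt) (Pm : NUO.Par) (N : ℕ) (η η' : ℕ → Crs) (u : ℕ → ℂ) (c : ℝ → ℂ) (τ : ℝ) : ℂ :=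
  F (mN N) (WTu Z0 Pm N η η' u c τ) fun _ => 1

/-- the first derivative -/
def T1u (Z0 : Stt) (Pm : NUO.Par) (N : ℕ) (η η' : ℕ → Crs) (ρ : ℝ → ℂ) (u : ℕ → ℂ) (c : ℝ → ℂ)
    (τ : ℝ) : ℂ :=
  -F (mN N) (WTu Z0 Pm N η η' u c τ) fun x => AN Pm N η (fun z => dl (z - τ)) x - Mn ρ τ

/-- the second derivative -/
def T2u (Z0 : Stt) (Pm : NUO.Par) (N : ℕ) (η η' : ℕ → Crs) (ρ : ℝ → ℂ) (u : ℕ → ℂ) (c : ℝ → ℂ)
    (τ : ℝ) : ℂ :=
  F (mN N) (WTu Z0 Pm N η η' u c τ) fun x => (AN Pm N η (fun z => dl (z - τ)) x - Mn ρ τ) ^ 2 +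
    (AN Pm N η (fun z => dl2 (z - τ)) x - Mn2 ρ τ)

/-- **the functional as a sum over the number of quanta** -/
theorem T0u_eq (H : LegH Z0 Pm N η η') (hu : ∀ n, ‖u n‖ = 1) (τ : ℝ) :
    T0u Z0 Pm N η η' u c τ = c τ * ∑ n ∈ range (N + 1), u n *
      FF (Zm Z0 (lgK (I * τ))) Pm n n (η n) (η' n) (fun _ _ _ _ _ => 1) := by
  obtain ⟨B, hB⟩ := zpathU H hu
  have h0 := hB.WI (c := c) (O := fun _ => (1 : ℂ)) (K := 1) aestronglyMeasurable_const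
    (fun _ => by rw [norm_one]) τ
  rw [← WTu_eq] at h0
  have hm : ∀ n ≤ N, MC (Zm Z0 (lgK (I * τ))) Pm (η n) (η' n) := fun n _ =>
    H.mc _ (measurable_lgK _) n
  have hf : FAN (fun _ => Zm Z0 (lgK (I * τ))) (fun _ => Pm) N η η' (fun n => u n * c τ)
      (fun _ _ _ _ _ _ => 1) < ∞ := by
    rw [FAN_eq hm fun n _ => MIn.one]
    have h1 := h0.2
    unfold HasFiniteIntegral at h1
    simp only [enorm_mul] at h1
    exact h1
  have h2 := FFN_eq (c := fun n => u n * c τ) hm (fun n _ => MIn.one) hf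
  refine h2.symm.trans ?_
  unfold FFN
  rw [Finset.mul_sum]
  refine Finset.sum_congr rfl fun n _ => ?_
  ring

/-- **the first derivative** -/
theorem d1u (H : LegH Z0 Pm N η η') (hu : ∀ n, ‖u n‖ = 1) {τ : ℝ}
    (hc : HasDerivAt c (Mn ρ τ * c τ) τ) :
    HasDerivAt (T0u Z0 Pm N η η' u c) (T1u Z0 Pm N η η' ρ u c τ) τ := by
  obtain ⟨B, hB⟩ := zpathU H hu
  have h := hB.f_deriv hc
  unfold T1u
  have e : T0u Z0 Pm N η η' u c = fun τ => F (mN N) (wt c (w0u Z0 Pm N η η' u) (EN Pm N η) τ)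
      (fun _ => 1) := by
    funext τ
    unfold T0u
    rw [WTu_eq]
  rw [e, WTu_eq]
  exact h

/-- **the second derivative** -/
theorem d2u (H : LegH Z0 Pm N η η') (hu : ∀ n, ‖u n‖ = 1) {τ : ℝ}
    (hc : HasDerivAt c (Mn ρ τ * c τ) τ) (hM : HasDerivAt (Mn ρ) (-(Mn2 ρ τ)) τ) :
    HasDerivAt (T1u Z0 Pm N η η' ρ u c) (T2u Z0 Pm N η η' ρ u c τ) τ := by
  obtain ⟨B, hB⟩ := zpathU H hu
  have h := hB.f_deriv2 hc hM
  unfold T2u
  have e : T1u Z0 Pm N η η' ρ u c = fun τ => -F (mN N) (wt c (w0u Z0 Pm N η η' u) (EN Pm N η) τ)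
      (fun x => AN Pm N η (fun z => dl (z - τ)) x - Mn ρ τ) := by
    funext τ
    unfold T1u
    rw [WTu_eq]
  rw [e, WTu_eq]
  exact h

/-- **(Z)**: first derivative of the functional against the statistic of the quanta on the curve -/
theorem leg_b1u : ∃ C : ℝ, 1 ≤ C ∧ ∀ {Z0 : Stt} {Pm : NUO.Par} {N : ℕ} {η η' : ℕ → Crs}
    (_ : LegH Z0 Pm N η η') {u : ℕ → ℂ} (_ : ∀ n, ‖u n‖ = 1) (ρ : ℝ → ℂ) (c : ℝ → ℂ) {τ : ℝ}, |τ| ≤ 1 → ∀ {d : ℝ}, 0 ≤ d →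
    FAN (fun _ => Zm Z0 (lgK (I * τ))) (fun _ => Pm) N η η' (fun _ => c τ) (fun _ => pI) ≤
      ENNReal.ofReal d →
    ‖F (mN N) (WTu Z0 Pm N η η' u c τ) (evN fun n => vP ρ (fun z => dl (z - τ)) (η n)) +
      T1u Z0 Pm N η η' ρ u c τ‖ ≤ C * d := by
  obtain ⟨C, hC, hb⟩ := PBLg.exists_const
  refine ⟨C, hC, fun {Z0 Pm N η η'} H {u} hu ρ c {τ} hτ {d} hd hI => ?_⟩
  have hC0 : 0 ≤ C := by linarith
  obtain ⟨hg, ho⟩ := hb τ hτ Pm H.P
  obtain ⟨B, hB⟩ := zpathU H hu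
  set K : ℝ := max (2 * N * C + ‖2 * ∫ t : ℝ, ρ t * dl (t - τ)‖)
    (6 * C * Real.exp (2 * |τ| + l / 8) * (2 * N)) with hK
  have key := hB.bound1 (c := c) (M := Mn ρ) (τ := τ)
    (V := evN fun n => vP ρ (fun z => dl (z - τ)) (η n))
    (O := evN fun _ => obP (fun z => dl (z - τ)) Pm) (K := K) (d := C * d)
    (fun x => AN_split ρ (fun z => dl (z - τ)) x)
    (evN_meas fun n _ => MIn_vP H.r (H.c n) ρ (measurable_dls τ)).aestronglyMeasurable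
    (evN_meas fun n _ => MIn_obP H.r (measurable_dls τ)).aestronglyMeasurable
    (fun x => (H.vP_bdd hC0 (fun u hu => (hg u hu).1.trans
      (mul_le_of_le_one_right hC0 (exp_le_one _))) x).trans (le_max_left _ _))
    (fun x => (H.obP_bdd hC0 (fun u hu => (hg u hu).1) x).trans (le_max_right _ _))
    (by positivity) ?_
  · unfold T1u
    rw [WTu_eq]
    exact key
  · rw [← WTu_eq]
    rw [FAN_eq (fun n _ => H.mc _ (measurable_lgK _) n) fun n _ => MIn_pI] at hI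
    change (∫⁻ x, ‖WT Z0 Pm N η η' c τ x‖ₑ * ‖evN (fun _ => pI) x‖ₑ ∂mN N) ≤ _ at hI
    simp only [← enorm_WTu hu] at hI
    calc ∫⁻ x, ‖WTu Z0 Pm N η η' u c τ x‖ₑ * ‖evN (fun _ => obP (fun z => dl (z - τ)) Pm) x‖ₑ ∂mN N
        ≤ ∫⁻ x, ENNReal.ofReal C * (‖WTu Z0 Pm N η η' u c τ x‖ₑ * ‖evN (fun _ => pI) x‖ₑ) ∂mN N := by
          refine lintegral_mono fun x => ?_
          have h1 : ‖evN (fun _ => obP (fun z => dl (z - τ)) Pm) x‖ₑ ≤
              ENNReal.ofReal C * ‖evN (fun _ => pI) x‖ₑ := by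
            rw [← ofReal_norm, ← ofReal_norm, ← ENNReal.ofReal_mul hC0]
            exact ENNReal.ofReal_le_ofReal (ho x.2.2.1 x.2.2.2).1
          refine (mul_le_mul' le_rfl h1).trans (le_of_eq ?_)
          ring
      _ = ENNReal.ofReal C * ∫⁻ x, ‖WTu Z0 Pm N η η' u c τ x‖ₑ * ‖evN (fun _ => pI) x‖ₑ ∂mN N :=
          lintegral_const_mul' _ _ ENNReal.ofReal_ne_top
      _ ≤ ENNReal.ofReal C * ENNReal.ofReal d := mul_le_mul' le_rfl hI
      _ = ENNReal.ofReal (C * d) := (ENNReal.ofReal_mul hC0).symm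

/-- **(Z)**: second derivative of the functional -/
theorem leg_b2u : ∃ C : ℝ, 1 ≤ C ∧ ∀ {Z0 : Stt} {Pm : NUO.Par} {N : ℕ} {η η' : ℕ → Crs}
    (_ : LegH Z0 Pm N η η') {u : ℕ → ℂ} (_ : ∀ n, ‖u n‖ = 1) (ρ : ℝ → ℂ) (c : ℝ → ℂ) {τ : ℝ}, |τ| ≤ 1 → ∀ {d : ℝ}, 0 ≤ d →
    FAN (fun _ => Zm Z0 (lgK (I * τ))) (fun _ => Pm) N η η' (fun _ => c τ)
      (fun n => pI2 ρ (fun z => dl (z - τ)) (η n)) ≤ ENNReal.ofReal d →
    ‖F (mN N) (WTu Z0 Pm N η η' u c τ) (fun x =>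
        evN (fun n => vP ρ (fun z => dl (z - τ)) (η n)) x *
          evN (fun n => vP ρ (fun z => dl (z - τ)) (η n)) x) +
      F (mN N) (WTu Z0 Pm N η η' u c τ) (evN fun n => vP ρ (fun z => dl2 (z - τ)) (η n)) -
      T2u Z0 Pm N η η' ρ u c τ‖ ≤ C * d := by
  obtain ⟨C, hC, hb⟩ := PBLg.exists_const
  refine ⟨2 * C ^ 2, by nlinarith, fun {Z0 Pm N η η'} H {u} hu ρ c {τ} hτ {d} hd hI => ?_⟩
  have hC0 : 0 ≤ C := by linarith
  obtain ⟨hg, ho⟩ := hb τ hτ Pm H.P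
  obtain ⟨B, hB⟩ := zpathU H hu
  set K : ℝ := max (max (2 * N * C + ‖2 * ∫ t : ℝ, ρ t * dl (t - τ)‖)
    (2 * N * C + ‖2 * ∫ t : ℝ, ρ t * dl2 (t - τ)‖))
    (6 * C * Real.exp (2 * |τ| + l / 8) * (2 * N)) with hK
  have key := hB.bound2 (c := c) (M := Mn ρ) (M2 := Mn2 ρ) (τ := τ)
    (V := evN fun n => vP ρ (fun z => dl (z - τ)) (η n))
    (O := evN fun _ => obP (fun z => dl (z - τ)) Pm)
    (V' := evN fun n => vP ρ (fun z => dl2 (z - τ)) (η n))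
    (O' := evN fun _ => obP (fun z => dl2 (z - τ)) Pm) (K := K) (d := 2 * C ^ 2 * d)
    (fun x => AN_split ρ (fun z => dl (z - τ)) x)
    (fun x => AN_split ρ (fun z => dl2 (z - τ)) x)
    (evN_meas fun n _ => MIn_vP H.r (H.c n) ρ (measurable_dls τ)).aestronglyMeasurable
    (evN_meas fun n _ => MIn_obP H.r (measurable_dls τ)).aestronglyMeasurable
    (evN_meas fun n _ => MIn_vP H.r (H.c n) ρ (measurable_dls2 τ)).aestronglyMeasurable
    (evN_meas fun n _ => MIn_obP H.r (measurable_dls2 τ)).aestronglyMeasurable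
    (fun x => (H.vP_bdd hC0 (fun u hu => (hg u hu).1.trans
      (mul_le_of_le_one_right hC0 (exp_le_one _))) x).trans
        ((le_max_left _ _).trans (le_max_left _ _)))
    (fun x => (H.obP_bdd hC0 (fun u hu => (hg u hu).1) x).trans (le_max_right _ _))
    (fun x => (H.vP_bdd hC0 (fun u hu => (hg u hu).2.trans
      (mul_le_of_le_one_right hC0 (exp_le_one _))) x).trans
        ((le_max_right _ _).trans (le_max_left _ _)))
    (fun x => (H.obP_bdd hC0 (fun u hu => (hg u hu).2) x).trans (le_max_right _ _))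
    (by positivity) ?_
  · unfold T2u
    rw [WTu_eq]
    exact key
  · rw [← WTu_eq]
    rw [FAN_eq (fun n _ => H.mc _ (measurable_lgK _) n)
      fun n _ => MIn_pI2 H.r (H.c n) ρ (measurable_dls τ)] at hI
    change (∫⁻ x, ‖WT Z0 Pm N η η' c τ x‖ₑ *
      ‖evN (fun n => pI2 ρ (fun z => dl (z - τ)) (η n)) x‖ₑ ∂mN N) ≤ _ at hI
    simp only [← enorm_WTu hu] at hI
    have h1 : ∀ x : CfN N, ‖WTu Z0 Pm N η η' u c τ x‖ₑ *
        (2 * ‖evN (fun n => vP ρ (fun z => dl (z - τ)) (η n)) x‖ₑ *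
          ‖evN (fun _ => obP (fun z => dl (z - τ)) Pm) x‖ₑ +
          ‖evN (fun _ => obP (fun z => dl (z - τ)) Pm) x‖ₑ ^ 2 +
          ‖evN (fun _ => obP (fun z => dl2 (z - τ)) Pm) x‖ₑ) ≤
        ENNReal.ofReal (2 * C ^ 2) * (‖WTu Z0 Pm N η η' u c τ x‖ₑ *
          ‖evN (fun n => pI2 ρ (fun z => dl (z - τ)) (η n)) x‖ₑ) := by
      intro x
      have h2 := enorm_combo (a := evN (fun n => vP ρ (fun z => dl (z - τ)) (η n)) x)
        (norm_nonneg (evN (fun _ => pI) x)) hC (ho x.2.2.1 x.2.2.2).1 (ho x.2.2.1 x.2.2.2).2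
        (pI_le x.2.2.1 x.2.2.2)
      have h3 : ‖evN (fun n => pI2 ρ (fun z => dl (z - τ)) (η n)) x‖ₑ =
          ENNReal.ofReal (‖evN (fun _ => pI) x‖ *
            (1 + x.2.1.1 + ‖evN (fun n => vP ρ (fun z => dl (z - τ)) (η n)) x‖)) := by
        have h4 : evN (fun n => pI2 ρ (fun z => dl (z - τ)) (η n)) x =
            evN (fun _ => pI) x * ((1 + x.2.1.1 + ‖evN (fun n => vP ρ (fun z => dl (z - τ)) (η n)) x‖ :
              ℝ) : ℂ) := rfl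
        rw [← ofReal_norm, h4, norm_mul, norm_real, Real.norm_of_nonneg (by positivity)]
      rw [h3]
      refine (mul_le_mul' le_rfl h2).trans (le_of_eq ?_)
      ring
    refine (lintegral_mono h1).trans ?_
    rw [lintegral_const_mul' _ _ ENNReal.ofReal_ne_top,
      ENNReal.ofReal_mul (p := 2 * C ^ 2) (by positivity)]
    exact mul_le_mul' le_rfl hI

end weight

section main

variable {p : ℕ} {K ε ep e1 J : ℝ}

/-- the weight of the twisted function, rows `i s, 0, …, 0`, legs at `i t` -/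
def wLz (zz : ℕ → ℂ) (ep e1 J : ℝ) (j : ℕ) (s t : ℝ) : CfN (2 * (j + 1)) → ℂ :=
  wN (fun _ => PBX.ZL (4 / 3 * (1 - ep)) (mu1 j (I * s)) [I, -I] [] (I * t))
    (fun _ => NUSea.O.par0 (j + 1)) (2 * (j + 1)) (fun _ => PBU.cr e1 J (j + 1))
    (fun _ => PBU.cr' e1 J (j + 1)) fun n =>
      tw (zz j) (j + 1) n * Pf (I * t) (mu1 j (I * s)) (mu1 j (I * s))

/-- **(Z)**: the derivatives in the height of the legs, `hτ` of `PBEM.E2_of` -/
theorem zlegZ {zz : ℕ → ℂ} (hz : ∀ j, ‖zz j‖ = 1) (hU : UB famL ep e1 J p K ε) (hp : 0 < p) (hK : 6 ≤ K) (hep : 0 < ep)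
    (hep1 : ep ≤ 1 / 100) (he : 0 < e1) (he1 : e1 ≤ 1 / 100) (hJ : 0 ≤ J) {c : ℝ} (hc0 : 0 ≤ c)
    (hc : c + ε ≤ 3 / 4 * (1 - 4 * e1)) :
    ∃ C : ℝ, 0 < C ∧ ∀ᶠ j : ℕ in atTop, ∀ s t : ℝ, |s| ≤ 1 → |t| ≤ 1 →
      ‖F (mN (2 * (j + 1))) (wLz zz ep e1 J j s t)
          (Vp (rhS (hS j s)) (fun _ => PBU.cr e1 J (j + 1)) (PBEI.h0T t)) +
        I * deriv (fun z => fz (zz j) (mu1 j (I * s)) z) (I * t)‖ ≤ C * (j : ℝ) ^ (-c) ∧
      ‖F (mN (2 * (j + 1))) (wLz zz ep e1 J j s t) (fun ω =>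
          Vp (rhS (hS j s)) (fun _ => PBU.cr e1 J (j + 1)) (PBEI.h0T t) ω *
            Vp (rhS (hS j s)) (fun _ => PBU.cr e1 J (j + 1)) (PBEI.h0T t) ω) +
        F (mN (2 * (j + 1))) (wLz zz ep e1 J j s t)
          (Vp (rhS (hS j s)) (fun _ => PBU.cr e1 J (j + 1)) (PBEI.g2T t)) -
        -deriv (deriv fun z => fz (zz j) (mu1 j (I * s)) z) (I * t)‖ ≤ C * (j : ℝ) ^ (-c) := by
  have hl := NUMF.l_pos
  have hl1 : NUP1.l = l := rfl
  obtain ⟨C1, hC1, B1⟩ := leg_b1u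
  obtain ⟨C2, hC2, B2⟩ := leg_b2u
  obtain ⟨M, hM, hBC⟩ := BC_dls
  obtain ⟨m0, H0⟩ := hU.pin hK (q := 2) (by norm_num) (by norm_num) 1 2 (-(l / 2)) l
    (by linarith) hl
  obtain ⟨m1, H1⟩ := hU.pin hK (q := 2) (by norm_num) (by norm_num) 0 2 (-(l / 2)) l
    (by linarith) hl
  obtain ⟨mc, -, Hcur⟩ := curZ_crs he he1 hJ hep
  have hE := Real.exp_pos (2 : ℝ)
  refine ⟨(C1 + C2) * (3 * (1 + M) * Real.exp 2), by positivity, ?_⟩
  filter_upwards [legH_L hU (by linarith) he he1 hJ, eventually_ge_atTop m0, eventually_ge_atTop m1,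
    eventually_ge_atTop mc, eventually_ge_atTop 1] with j hH j0 j1 j2 j3 s t hs ht
  have H := hH s hs
  have hb : ∀ (n : ℕ) (r : ℕ) (O : Fin r → Xo) (u : ℝ),
      |(fun _ : ℕ => PBU.cr e1 J (j + 1)) n r O u| ≤ l / 2 := H.b
  -- the function
  obtain ⟨u, hud⟩ : ∃ u : ℕ → ℂ, u = fun n => tw (zz j) (j + 1) n := ⟨_, rfl⟩
  have hu : ∀ n, ‖u n‖ = 1 := fun n => by rw [hud]; exact norm_tw (hz j) _ _
  set X : Fin (j + 1) → ℂ := mu1 j (I * s) with hX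
  set cT : ℝ → ℂ := fun τ => Pf (I * τ) X X with hcT
  have hXs : ∀ i, X i = I * hS j s i := mu1_hS j s
  have hRws : PBX.Rws X := fun i => by
    rw [hXs, hl1]
    simp
    positivity
  have hc1 : ∀ τ : ℝ, HasDerivAt cT (Mn (rhS (hS j s)) τ * cT τ) τ := fun τ => Pf_Mn hXs τ
  have hf : ∀ τ : ℝ, fz (zz j) (mu1 j (I * s)) (I * τ) = T0u (ZS ep j s) (NUSea.O.par0 (j + 1)) (2 * (j + 1))
      (fun _ => PBU.cr e1 J (j + 1)) (fun _ => PBU.cr' e1 J (j + 1)) u cT τ := by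
    intro τ
    rw [T0u_eq H hu, ZS_eq, hud]
    refine fz_FFm (zz j) (Pm := NUSea.O.par0 (j + 1)) (PBX.ParC_par0 (j + 1)) (PBX.rad_low (j + 1)) hep
      hep1 (by linarith) (by linarith) hRws (ex := [I, -I]) (ex0 := []) ?_ (by simp) ?_ ?_
      (η := fun _ => PBU.cr e1 J (j + 1)) (η' := fun _ => PBU.cr' e1 J (j + 1))
      (fun n _ r _ => Eventually.of_forall fun O => Hcur (j + 1) (by omega) r O)
    · intro w hw
      rw [List.mem_cons, List.mem_singleton] at hw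
      rcases hw with rfl | rfl
      · rw [Complex.I_re, abs_zero, hl1]
        positivity
      · rw [Complex.neg_re, Complex.I_re, neg_zero, abs_zero, hl1]
        positivity
    · rw [hl1]
      simp
      positivity
    · rw [hl1]
      simp
      positivity
  -- the derivatives
  have hS' : IsOpen {z : ℂ | |z.re| < 43 / 10 * NUP1.l} :=
    isOpen_lt (continuous_abs.comp Complex.continuous_re) continuous_const
  have hd := fz_diff (zz j) hRws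
  have hd' : DifferentiableOn ℂ (deriv (fz (zz j) (mu1 j (I * s)))) {z : ℂ | |z.re| < 43 / 10 * NUP1.l} :=
    hd.deriv hS'
  have hmem : ∀ τ : ℝ, I * (τ : ℂ) ∈ {z : ℂ | |z.re| < 43 / 10 * NUP1.l} := fun τ => by
    show |(I * (τ : ℂ)).re| < 43 / 10 * NUP1.l
    rw [show (I * (τ : ℂ)).re = 0 by simp, abs_zero, hl1]
    positivity
  have d0 : ∀ τ : ℝ, HasDerivAt (fun τ : ℝ => I * (τ : ℂ)) I τ := fun τ => by
    simpa using (Complex.ofRealCLM.hasDerivAt (x := τ)).const_mul I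
  have f1 : ∀ τ : ℝ, I * deriv (fz (zz j) (mu1 j (I * s))) (I * τ) = T1u (ZS ep j s) (NUSea.O.par0 (j + 1))
      (2 * (j + 1)) (fun _ => PBU.cr e1 J (j + 1)) (fun _ => PBU.cr' e1 J (j + 1))
      (rhS (hS j s)) u cT τ := by
    intro τ
    have a1 := ((hd.differentiableAt (hS'.mem_nhds (hmem τ))).hasDerivAt.comp_of_eq τ (d0 τ) rfl)
    have a2 := d1u H hu (hc1 τ)
    have e : (fz (zz j) (mu1 j (I * s)) ∘ fun τ : ℝ => I * (τ : ℂ)) = T0u (ZS ep j s) (NUSea.O.par0 (j + 1))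
        (2 * (j + 1)) (fun _ => PBU.cr e1 J (j + 1)) (fun _ => PBU.cr' e1 J (j + 1)) u cT :=
      funext hf
    rw [e] at a1
    rw [← a1.unique a2, mul_comm]
  have f2 : -deriv (deriv (fz (zz j) (mu1 j (I * s)))) (I * t) = T2u (ZS ep j s) (NUSea.O.par0 (j + 1))
      (2 * (j + 1)) (fun _ => PBU.cr e1 J (j + 1)) (fun _ => PBU.cr' e1 J (j + 1))
      (rhS (hS j s)) u cT t := by
    have a1 := ((hd'.differentiableAt (hS'.mem_nhds (hmem t))).hasDerivAt.comp_of_eq t (d0 t)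
      rfl).const_mul I
    have a2 := d2u H hu (hc1 t) (hasDerivAt_Mn (hS j s) t)
    have e : (fun τ : ℝ => I * (deriv (fz (zz j) (mu1 j (I * s))) ∘ fun τ : ℝ => I * (τ : ℂ)) τ) =
        T1u (ZS ep j s) (NUSea.O.par0 (j + 1)) (2 * (j + 1)) (fun _ => PBU.cr e1 J (j + 1))
          (fun _ => PBU.cr' e1 J (j + 1)) (rhS (hS j s)) u cT := funext f1
    rw [e] at a1
    rw [← a1.unique a2]
    linear_combination (-(deriv (deriv (fz (zz j) (mu1 j (I * s)))) (I * t))) * I_mul_I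
  -- the weight
  have hw : WTu (ZS ep j s) (NUSea.O.par0 (j + 1)) (2 * (j + 1)) (fun _ => PBU.cr e1 J (j + 1))
      (fun _ => PBU.cr' e1 J (j + 1)) u cT t = wLz zz ep e1 J j s t := by
    unfold WTu wLz
    rw [ZS_eq, hud]
  have v0 : (Vp (rhS (hS j s)) (fun _ => PBU.cr e1 J (j + 1)) (PBEI.h0T t) :
      CfN (2 * (j + 1)) → ℂ) = evN fun n => vP (rhS (hS j s)) (fun z => dl (z - t))
        ((fun _ => PBU.cr e1 J (j + 1)) n) := by
    rw [← Vp_vP]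
    exact Vp_congr hb fun z h1 h2 => h0T_dl h1 h2
  have v1 : (Vp (rhS (hS j s)) (fun _ => PBU.cr e1 J (j + 1)) (PBEI.g2T t) :
      CfN (2 * (j + 1)) → ℂ) = evN fun n => vP (rhS (hS j s)) (fun z => dl2 (z - t))
        ((fun _ => PBU.cr e1 J (j + 1)) n) := by
    rw [← Vp_vP]
    exact Vp_congr hb fun z h1 h2 => g2T_dl h1 h2
  -- the sizes
  have hok := ok_L (m := j + 1) (by omega) hs ht
  have hm0 : (0 : ℝ) < ((j + 1 : ℕ) : ℝ) := by positivity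
  set A : ℝ := ((j + 1 : ℕ) : ℝ) ^ (-(3 / 8 * 2 * (1 - 4 * e1))) * ((j + 1 : ℕ) : ℝ) ^ ε *
    Real.exp (2 * |t|) with hA
  have hA0 : 0 ≤ A := by positivity
  have hbd : famL.bd (j + 1) ((I * s, I * t) : ℂ × ℂ) = Real.exp (2 * |t|) := by
    show Real.exp (2 * |(I * (t : ℂ)).im|) = _
    rw [show (I * (t : ℂ)).im = t by simp]
  have G0 := H0 (j + 1) (by omega) (I * s, I * t) hok (rhS (hS j s)) (DN_rhS j s)
    (fun _ => M) (fun _ => hM) (fun _ _ _ z => dl (z - t)) (fun _ _ _ z => dl (z - t))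
    (fun _ _ _ => ⟨hBC t, hBC t⟩) ∅
  have G1 := H1 (j + 1) (by omega) (I * s, I * t) hok (rhS (hS j s)) (DN_rhS j s)
    (fun _ => M) (fun _ => hM) (fun _ _ _ z => dl (z - t)) (fun _ _ _ z => dl (z - t))
    (fun _ _ _ => ⟨hBC t, hBC t⟩) {⟨0, hp⟩}
  rw [hbd] at G0 G1
  simp only [Finset.prod_empty, Finset.prod_singleton] at G0 G1
  have z0 : 3 * ((1 : ℕ).factorial : ℝ) * ((j + 1 : ℕ) : ℝ) ^ (-(3 / 8 * 2 * (1 - 4 * e1))) * 1 *
      ((j + 1 : ℕ) : ℝ) ^ ε * Real.exp (2 * |t|) = 3 * A := by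
    rw [hA, Nat.factorial_one]
    push_cast
    ring
  have z1 : 3 * ((0 : ℕ).factorial : ℝ) * ((j + 1 : ℕ) : ℝ) ^ (-(3 / 8 * 2 * (1 - 4 * e1))) * M *
      ((j + 1 : ℕ) : ℝ) ^ ε * Real.exp (2 * |t|) = 3 * M * A := by
    rw [hA, Nat.factorial_zero]
    push_cast
    ring
  rw [z0] at G0
  rw [z1] at G1
  have hZm : ∀ a k, Measurable (famL.Z ep (j + 1) ((I * s, I * t) : ℂ × ℂ) a k) := fun a k =>
    PBX.measurable_ZL _ _ _ _ _ a k
  have Q1 := FS_pI G0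
  have Q2 := FS_pI2 (D := 3 * A) (D' := 3 * M * A) (by positivity) (by positivity) hZm
    (rhS (hS j s)) (measurable_dls t) G0 G1
  -- powers
  have hpow : A ≤ Real.exp 2 * (j : ℝ) ^ (-c) := by
    have hj : (1 : ℝ) ≤ j := by exact_mod_cast j3
    have hj1 : (1 : ℝ) ≤ ((j + 1 : ℕ) : ℝ) := by
      push_cast
      linarith
    have e1' : Real.exp (2 * |t|) ≤ Real.exp 2 := Real.exp_le_exp.2 (by linarith)
    have e2 : ((j + 1 : ℕ) : ℝ) ^ (-(3 / 8 * 2 * (1 - 4 * e1))) * ((j + 1 : ℕ) : ℝ) ^ ε ≤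
        (j : ℝ) ^ (-c) := by
      rw [← Real.rpow_add hm0]
      calc ((j + 1 : ℕ) : ℝ) ^ (-(3 / 8 * 2 * (1 - 4 * e1)) + ε) ≤ ((j + 1 : ℕ) : ℝ) ^ (-c) :=
            Real.rpow_le_rpow_of_exponent_le hj1 (by linarith)
        _ ≤ (j : ℝ) ^ (-c) := Real.rpow_le_rpow_of_nonpos (by linarith) (by
            push_cast
            linarith) (by linarith)
    rw [hA, mul_comm (Real.exp 2)]
    exact mul_le_mul e2 e1' (Real.exp_pos _).le (by positivity)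
  have hjc : 0 ≤ (j : ℝ) ^ (-c) := by positivity
  constructor
  · have k := B1 H hu (rhS (hS j s)) cT ht (d := 3 * A) (by positivity) (by
      rw [ZS_eq]
      exact Q1)
    rw [hw, ← f1 t] at k
    rw [v0]
    refine k.trans ?_
    calc C1 * (3 * A) ≤ C1 * (3 * (Real.exp 2 * (j : ℝ) ^ (-c))) := by gcongr
      _ ≤ (C1 + C2) * (3 * (1 + M) * Real.exp 2) * (j : ℝ) ^ (-c) := by
          have a1 : 0 ≤ Real.exp 2 * (j : ℝ) ^ (-c) := by positivity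
          have a2 : C1 ≤ (C1 + C2) * (1 + M) := by nlinarith
          calc C1 * (3 * (Real.exp 2 * (j : ℝ) ^ (-c))) =
              C1 * (3 * (Real.exp 2 * (j : ℝ) ^ (-c))) := rfl
            _ ≤ ((C1 + C2) * (1 + M)) * (3 * (Real.exp 2 * (j : ℝ) ^ (-c))) := by gcongr
            _ = _ := by ring
  · have k := B2 H hu (rhS (hS j s)) cT ht (d := 3 * A + 3 * M * A) (by positivity) (by
      rw [ZS_eq]
      exact Q2)
    rw [hw, ← f2] at k
    rw [v0, v1]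
    refine k.trans ?_
    calc C2 * (3 * A + 3 * M * A) = C2 * (3 * (1 + M) * A) := by ring
      _ ≤ C2 * (3 * (1 + M) * (Real.exp 2 * (j : ℝ) ^ (-c))) := by gcongr
      _ ≤ (C1 + C2) * (3 * (1 + M) * (Real.exp 2 * (j : ℝ) ^ (-c))) := by
          gcongr
          linarith
      _ = _ := by ring

end main

end WND

end
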