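import Pool.Agent.PV.ZLegVf
import Pool.Agent.WND.ZLegZ

/-!
# Plan X, (Z) for a family with split legs, coefficient with winding weight (helper61)

`PV/ZLegF`, `ZLegV`, `ZLegVf` with the coefficient `u j n`, `‖u j n‖ = 1` (`n` = number of quanta of
a group).

* **`LegFam.zlegU`**: the two derivative lines of `LegFam.zleg`, coefficient `u j n * Pf`.
-/

set_option autoImplicit false
set_option linter.unusedSectionVars false
set_option linter.unusedVariables false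

noncomputable section

open Complex MeasureTheory Finset Filter Topology
open scoped ENNReal

namespace PVLg

open NUO NUP1S NUP1S.AbC NUGC NUCR PBF PBFunc
open PBI (Stt)
open NUMF (l P)
open PBU (Fam UB DN BC nu1)
open PBLg
open WND (T0u T1u T2u WTu T0u_eq d1u d2u leg_b1u leg_b2u tw norm_tw)

attribute [local instance] NUSea.seaP

variable {ι : Type}

/-- the weight at rows `i s, 0, …, 0`, legs at `i t`, coefficient `u j n` -/
def wFu (F : Fam ι) (ep e1 J : ℝ) (ix : ℝ → ℝ → ι) (u : ℕ → ℕ → ℂ) (j : ℕ) (s t : ℝ) :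
    CfN (2 * (j + 1)) → ℂ :=
  wN (fun _ => F.Z ep (j + 1) (ix s t)) (fun _ => NUSea.O.par0 (j + 1)) (2 * (j + 1))
    (fun _ => PBU.cr e1 J (j + 1)) (fun _ => PBU.cr' e1 J (j + 1))
    fun n => u j n * F.Pf (j + 1) (ix s t)

namespace LegFam

variable {F : Fam ι} {p : ℕ} {K ε ep e1 J : ℝ} {ix : ℝ → ℝ → ι} {Z0 : ℕ → ℝ → Stt} {R : ℝ → ℂ}
  {cc : ℕ → ℝ → ℝ → ℂ}

/-- **(Z)**: the derivatives in the height of the legs -/
theorem zlegU (h : LegFam F ep ix Z0 R cc) {u : ℕ → ℕ → ℂ} (hu : ∀ j n, ‖u j n‖ = 1) (hU : UB F ep e1 J p K ε) (hp : 0 < p) (hK : 6 ≤ K)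
    (hep : 0 < ep) (he : 0 < e1) (he1 : e1 ≤ 1 / 100) (hJ : 0 ≤ J) {rV rV' : ℝ → ℂ}
    (hR : ∀ τ, HasDerivAt R (rV τ * R τ) τ) (hr : ∀ τ, HasDerivAt rV (rV' τ) τ)
    {f : ℕ → ℝ → ℂ → ℂ} {S : Set ℂ} (hS' : IsOpen S) (hmem : ∀ τ : ℝ, I * (τ : ℂ) ∈ S)
    (hfd : ∀ j s, |s| ≤ 1 → DifferentiableOn ℂ (f j s) S)
    (hf : ∀ᶠ j : ℕ in atTop, ∀ s τ : ℝ, |s| ≤ 1 → f j s (I * τ) = R τ * (cc j s τ *
      ∑ n ∈ range (2 * (j + 1) + 1), u j n * FF (Zm (Z0 j s) (lgK (I * τ))) (NUSea.O.par0 (j + 1)) n n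
        (PBU.cr e1 J (j + 1)) (PBU.cr' e1 J (j + 1)) (fun _ _ _ _ _ => 1)))
    {b B c : ℝ} (hB : 0 ≤ B) (hbd : ∀ (j : ℕ) (s t : ℝ), |s| ≤ 1 → |t| ≤ 1 →
      F.bd (j + 1) (ix s t) ≤ B * ((j + 1 : ℕ) : ℝ) ^ b)
    (hc : b + ε ≤ 3 / 4 * (1 - 4 * e1) + c) :
    ∃ C : ℝ, 0 < C ∧ ∀ᶠ j : ℕ in atTop, ∀ s t : ℝ, |s| ≤ 1 → |t| ≤ 1 →
      ‖PBFunc.F (mN (2 * (j + 1))) (wFu F ep e1 J ix u j s t)
          (Vp (rhS (hS j s)) (fun _ => PBU.cr e1 J (j + 1)) (PBEI.h0T t)) +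
        (I * deriv (f j s) (I * t) - rV t * f j s (I * t))‖ ≤ C * (j : ℝ) ^ c ∧
      ‖PBFunc.F (mN (2 * (j + 1))) (wFu F ep e1 J ix u j s t) (fun ω =>
          Vp (rhS (hS j s)) (fun _ => PBU.cr e1 J (j + 1)) (PBEI.h0T t) ω *
            Vp (rhS (hS j s)) (fun _ => PBU.cr e1 J (j + 1)) (PBEI.h0T t) ω) +
        PBFunc.F (mN (2 * (j + 1))) (wFu F ep e1 J ix u j s t)
          (Vp (rhS (hS j s)) (fun _ => PBU.cr e1 J (j + 1)) (PBEI.g2T t)) -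
        (-deriv (deriv (f j s)) (I * t) - 2 * rV t * (I * deriv (f j s) (I * t)) +
          (rV t ^ 2 - rV' t) * f j s (I * t))‖ ≤ C * (j : ℝ) ^ c := by
  have hl := NUMF.l_pos
  obtain ⟨C1, hC1, B1⟩ := leg_b1u
  obtain ⟨C2, hC2, B2⟩ := leg_b2u
  obtain ⟨M, hM, hBC⟩ := BC_dls
  obtain ⟨m0, H0⟩ := hU.pin hK (q := 2) (by norm_num) (by norm_num) 1 2 (-(l / 2)) l
    (by linarith) hl
  obtain ⟨m1, H1⟩ := hU.pin hK (q := 2) (by norm_num) (by norm_num) 0 2 (-(l / 2)) l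
    (by linarith) hl
  refine ⟨(C1 + C2) * (3 * (1 + M) * ((B + 1) * 2 ^ |c|)), by positivity, ?_⟩
  filter_upwards [h.legH hU (by linarith) he he1 hJ, eventually_ge_atTop m0,
    eventually_ge_atTop m1, hf, eventually_ge_atTop 1] with j hH j0 j1 hfj j3 s t hs ht
  have H := hH s hs
  have hb : ∀ (n : ℕ) (r : ℕ) (O : Fin r → Xo) (u : ℝ),
      |(fun _ : ℕ => PBU.cr e1 J (j + 1)) n r O u| ≤ l / 2 := H.b
  have hc1 := h.cd j s
  have hf0 : ∀ τ : ℝ, f j s (I * τ) = R τ * T0u (Z0 j s) (NUSea.O.par0 (j + 1)) (2 * (j + 1))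
      (fun _ => PBU.cr e1 J (j + 1)) (fun _ => PBU.cr' e1 J (j + 1)) (u j) (cc j s) τ := by
    intro τ
    rw [T0u_eq H (hu j), hfj s τ hs]
  -- the derivatives
  have hd := hfd j s hs
  have hd' : DifferentiableOn ℂ (deriv (f j s)) S := hd.deriv hS'
  have d0 : ∀ τ : ℝ, HasDerivAt (fun τ : ℝ => I * (τ : ℂ)) I τ := fun τ => by
    simpa using (Complex.ofRealCLM.hasDerivAt (x := τ)).const_mul I
  have f1 : ∀ τ : ℝ, I * deriv (f j s) (I * τ) = rV τ * f j s (I * τ) +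
      R τ * T1u (Z0 j s) (NUSea.O.par0 (j + 1))
      (2 * (j + 1)) (fun _ => PBU.cr e1 J (j + 1)) (fun _ => PBU.cr' e1 J (j + 1))
      (rhS (hS j s)) (u j) (cc j s) τ := by
    intro τ
    have a1 := ((hd.differentiableAt (hS'.mem_nhds (hmem τ))).hasDerivAt.comp_of_eq τ (d0 τ) rfl)
    have a2 := (hR τ).mul (d1u H (hu j) (hc1 τ))
    have e : (f j s ∘ fun τ : ℝ => I * (τ : ℂ)) = R * T0u (Z0 j s) (NUSea.O.par0 (j + 1))
        (2 * (j + 1)) (fun _ => PBU.cr e1 J (j + 1)) (fun _ => PBU.cr' e1 J (j + 1))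
        (u j) (cc j s) := funext hf0
    rw [e] at a1
    have a3 := a1.unique a2
    rw [mul_comm I, a3, hf0 τ]
    ring
  have f2 : R t * T2u (Z0 j s) (NUSea.O.par0 (j + 1))
      (2 * (j + 1)) (fun _ => PBU.cr e1 J (j + 1)) (fun _ => PBU.cr' e1 J (j + 1))
      (rhS (hS j s)) (u j) (cc j s) t = -deriv (deriv (f j s)) (I * t) -
        2 * rV t * (I * deriv (f j s) (I * t)) + (rV t ^ 2 - rV' t) * f j s (I * t) := by
    have a1 := ((hd'.differentiableAt (hS'.mem_nhds (hmem t))).hasDerivAt.comp_of_eq t (d0 t)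
      rfl).const_mul I
    have a0 := ((hd.differentiableAt (hS'.mem_nhds (hmem t))).hasDerivAt.comp_of_eq t (d0 t) rfl)
    have a2 := ((hr t).mul a0).add ((hR t).mul (d2u H (hu j) (hc1 t) (hasDerivAt_Mn (hS j s) t)))
    have e : (fun τ : ℝ => I * (deriv (f j s) ∘ fun τ : ℝ => I * (τ : ℂ)) τ) =
        (rV * (f j s ∘ fun τ : ℝ => I * (τ : ℂ))) + (R * T1u (Z0 j s) (NUSea.O.par0 (j + 1))
          (2 * (j + 1)) (fun _ => PBU.cr e1 J (j + 1)) (fun _ => PBU.cr' e1 J (j + 1))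
          (rhS (hS j s)) (u j) (cc j s)) := funext fun τ => f1 τ
    rw [e] at a1
    have a3 := a1.unique a2
    have a4 := f1 t
    simp only [Function.comp] at a3
    linear_combination -a3 + rV t * a4 + (deriv (deriv (f j s)) (I * t)) * I_mul_I
  -- the weight
  have hw : wFu F ep e1 J ix u j s t = fun x => R t * WTu (Z0 j s) (NUSea.O.par0 (j + 1))
      (2 * (j + 1)) (fun _ => PBU.cr e1 J (j + 1)) (fun _ => PBU.cr' e1 J (j + 1))
      (u j) (cc j s) t x := by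
    unfold WTu wFu
    rw [h.Z, h.Pf, ← wN_smul]
    congr 1
    funext n
    ring
  have v0 : (Vp (rhS (hS j s)) (fun _ => PBU.cr e1 J (j + 1)) (PBEI.h0T t) :
      CfN (2 * (j + 1)) → ℂ) = evN fun n => vP (rhS (hS j s)) (fun z => dl (z - t))
        ((fun _ => PBU.cr e1 J (j + 1)) n) := by
    rw [← Vp_vP]
    exact Vp_congr hb fun z h1 h2 => h0T_dl h1 h2
  have v1 : (Vp (rhS (hS j s)) (fun _ => PBU.cr e1 J (j + 1)) (PBEI.g2T t) :
      CfN (2 * (j + 1)) → ℂ) = evN fun n => vP (rhS (hS j s)) (fun z => dl2 (z - t))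
        ((fun _ => PBU.cr e1 J (j + 1)) n) := by
    rw [← Vp_vP]
    exact Vp_congr hb fun z h1 h2 => g2T_dl h1 h2
  -- the sizes
  have hok := h.ok j s t hs ht
  have hm0 : (0 : ℝ) < ((j + 1 : ℕ) : ℝ) := by positivity
  set A : ℝ := ((j + 1 : ℕ) : ℝ) ^ (-(3 / 8 * 2 * (1 - 4 * e1))) * ((j + 1 : ℕ) : ℝ) ^ ε *
    ((B + 1) * ((j + 1 : ℕ) : ℝ) ^ b) with hA
  have hA0 : 0 ≤ A := by positivity
  have hbd' : F.bd (j + 1) (ix s t) ≤ (B + 1) * ((j + 1 : ℕ) : ℝ) ^ b := by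
    have h1 := hbd j s t hs ht
    have h2 : 0 ≤ ((j + 1 : ℕ) : ℝ) ^ b := by positivity
    linarith
  have G0 := H0 (j + 1) (by omega) (ix s t) hok (rhS (hS j s)) (DN_rhS j s)
    (fun _ => M) (fun _ => hM) (fun _ _ _ z => dl (z - t)) (fun _ _ _ z => dl (z - t))
    (fun _ _ _ => ⟨hBC t, hBC t⟩) ∅
  have G1 := H1 (j + 1) (by omega) (ix s t) hok (rhS (hS j s)) (DN_rhS j s)
    (fun _ => M) (fun _ => hM) (fun _ _ _ z => dl (z - t)) (fun _ _ _ z => dl (z - t))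
    (fun _ _ _ => ⟨hBC t, hBC t⟩) {⟨0, hp⟩}
  simp only [Finset.prod_empty, Finset.prod_singleton] at G0 G1
  have z0 : 3 * ((1 : ℕ).factorial : ℝ) * ((j + 1 : ℕ) : ℝ) ^ (-(3 / 8 * 2 * (1 - 4 * e1))) * 1 *
      ((j + 1 : ℕ) : ℝ) ^ ε * F.bd (j + 1) (ix s t) ≤ 3 * A := by
    rw [hA, Nat.factorial_one]
    have h1 : 0 ≤ ((j + 1 : ℕ) : ℝ) ^ (-(3 / 8 * 2 * (1 - 4 * e1))) * ((j + 1 : ℕ) : ℝ) ^ ε := by
      positivity
    have h2 := mul_le_mul_of_nonneg_left hbd' h1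
    rw [Nat.cast_one]
    linarith
  have z1 : 3 * ((0 : ℕ).factorial : ℝ) * ((j + 1 : ℕ) : ℝ) ^ (-(3 / 8 * 2 * (1 - 4 * e1))) * M *
      ((j + 1 : ℕ) : ℝ) ^ ε * F.bd (j + 1) (ix s t) ≤ 3 * M * A := by
    rw [hA, Nat.factorial_zero]
    have h1 : 0 ≤ M * (((j + 1 : ℕ) : ℝ) ^ (-(3 / 8 * 2 * (1 - 4 * e1))) *
        ((j + 1 : ℕ) : ℝ) ^ ε) := by
      positivity
    have h2 := mul_le_mul_of_nonneg_left hbd' h1
    rw [Nat.cast_one]
    linarith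
  have G0' := G0.trans (ENNReal.ofReal_le_ofReal z0)
  have G1' := G1.trans (ENNReal.ofReal_le_ofReal z1)
  have hZm : ∀ a k, Measurable (F.Z ep (j + 1) (ix s t) a k) := fun a k => by
    rw [h.Z]
    exact (h.mZ j s a k).mul (measurable_lgK _ a k)
  have Q1 := FS_pIF G0'
  have Q2 := FS_pI2F (D := 3 * A) (D' := 3 * M * A) (by positivity) (by positivity) hZm
    (rhS (hS j s)) (measurable_dls t) G0' G1'
  rw [h.top, h.Z, h.Pf, FAN_smul] at Q1 Q2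
  -- the factor of the prefactor
  have hR0 : 0 < ‖R t‖ := norm_pos_iff.2 (h.R0 t)
  have div : ∀ {X : ℝ≥0∞} {D : ℝ}, ‖R t‖ₑ * X ≤ ENNReal.ofReal D →
      X ≤ ENNReal.ofReal (‖R t‖⁻¹ * D) := by
    intro X D hX
    have h1 : ‖R t‖ₑ = ENNReal.ofReal ‖R t‖ := (ofReal_norm _).symm
    have h2 : X = ENNReal.ofReal (‖R t‖⁻¹) * (‖R t‖ₑ * X) := by
      rw [← mul_assoc, h1, ← ENNReal.ofReal_mul (by positivity), inv_mul_cancel₀ hR0.ne',
        ENNReal.ofReal_one, one_mul]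
    rw [h2, ENNReal.ofReal_mul (by positivity)]
    exact mul_le_mul' le_rfl hX
  have Q1' := div Q1
  have Q2' := div Q2
  -- powers
  have hpow : A ≤ (B + 1) * 2 ^ |c| * (j : ℝ) ^ c := by
    have hj : (1 : ℝ) ≤ j := by exact_mod_cast j3
    have hj0 : (0 : ℝ) < j := by linarith
    have hj1 : (1 : ℝ) ≤ ((j + 1 : ℕ) : ℝ) := by
      push_cast
      linarith
    have e2 : ((j + 1 : ℕ) : ℝ) ^ (-(3 / 8 * 2 * (1 - 4 * e1))) * ((j + 1 : ℕ) : ℝ) ^ ε *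
        ((j + 1 : ℕ) : ℝ) ^ b ≤ ((j + 1 : ℕ) : ℝ) ^ c := by
      rw [← Real.rpow_add hm0, ← Real.rpow_add hm0]
      exact Real.rpow_le_rpow_of_exponent_le hj1 (by linarith)
    have e3 : ((j + 1 : ℕ) : ℝ) ^ c ≤ 2 ^ |c| * (j : ℝ) ^ c := by
      have e4 : ((j + 1 : ℕ) : ℝ) = (((j + 1 : ℕ) : ℝ) / j) * j := by
        field_simp
      have q1 : 1 ≤ ((j + 1 : ℕ) : ℝ) / j := by
        rw [le_div_iff₀ hj0]
        push_cast
        linarith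
      have q2 : ((j + 1 : ℕ) : ℝ) / j ≤ 2 := by
        rw [div_le_iff₀ hj0]
        push_cast
        linarith
      rw [e4, Real.mul_rpow (by positivity) hj0.le]
      refine mul_le_mul_of_nonneg_right ?_ (by positivity)
      calc (((j + 1 : ℕ) : ℝ) / j) ^ c ≤ (((j + 1 : ℕ) : ℝ) / j) ^ |c| :=
            Real.rpow_le_rpow_of_exponent_le q1 (le_abs_self c)
        _ ≤ 2 ^ |c| := Real.rpow_le_rpow (by positivity) q2 (abs_nonneg c)
    calc A = (B + 1) * (((j + 1 : ℕ) : ℝ) ^ (-(3 / 8 * 2 * (1 - 4 * e1))) *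
          ((j + 1 : ℕ) : ℝ) ^ ε * ((j + 1 : ℕ) : ℝ) ^ b) := by
            rw [hA]
            ring
      _ ≤ (B + 1) * (2 ^ |c| * (j : ℝ) ^ c) :=
            mul_le_mul_of_nonneg_left (e2.trans e3) (by linarith)
      _ = _ := by ring
  have hjc : 0 ≤ (j : ℝ) ^ c := by positivity
  have hX : 0 ≤ (B + 1) * 2 ^ |c| * (j : ℝ) ^ c := by positivity
  constructor
  · have k := B1 H (hu j) (rhS (hS j s)) (cc j s) ht (d := ‖R t‖⁻¹ * (3 * A)) (by positivity) Q1'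
    have k2 := mul_le_mul_of_nonneg_left k hR0.le
    rw [← norm_mul, mul_add, ← F_smul, ← hw, ← v0] at k2
    have e1' : R t * T1u (Z0 j s) (NUSea.O.par0 (j + 1)) (2 * (j + 1))
        (fun _ => PBU.cr e1 J (j + 1)) (fun _ => PBU.cr' e1 J (j + 1))
        (rhS (hS j s)) (u j) (cc j s) t = I * deriv (f j s) (I * t) - rV t * f j s (I * t) := by
      rw [f1 t]
      ring
    rw [e1'] at k2
    refine k2.trans ?_
    have e5 : ‖R t‖ * (C1 * (‖R t‖⁻¹ * (3 * A))) = C1 * (3 * A) := by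
      field_simp
    rw [e5]
    calc C1 * (3 * A) ≤ C1 * (3 * ((B + 1) * 2 ^ |c| * (j : ℝ) ^ c)) := by gcongr
      _ ≤ ((C1 + C2) * (1 + M)) * (3 * ((B + 1) * 2 ^ |c| * (j : ℝ) ^ c)) := by
          have a2 : C1 ≤ (C1 + C2) * (1 + M) := by nlinarith
          gcongr
      _ = _ := by ring
  · have k := B2 H (hu j) (rhS (hS j s)) (cc j s) ht (d := ‖R t‖⁻¹ * (3 * A + 3 * M * A))
      (by positivity) Q2'
    have k2 := mul_le_mul_of_nonneg_left k hR0.le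
    rw [← norm_mul, mul_sub, mul_add, ← F_smul, ← F_smul, ← hw, ← v0, ← v1, f2] at k2
    refine k2.trans ?_
    have e5 : ‖R t‖ * (C2 * (‖R t‖⁻¹ * (3 * A + 3 * M * A))) = C2 * (3 * (1 + M) * A) := by
      field_simp
    rw [e5]
    calc C2 * (3 * (1 + M) * A) ≤ C2 * (3 * (1 + M) * ((B + 1) * 2 ^ |c| * (j : ℝ) ^ c)) := by
          gcongr
      _ ≤ (C1 + C2) * (3 * (1 + M) * ((B + 1) * 2 ^ |c| * (j : ℝ) ^ c)) := by
          gcongr
          linarith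
      _ = _ := by ring

end LegFam

end PVLg

end
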