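import Pool.Agent.WND.ZLegFX

/-!
# Plan X, (Z) at the function with one anti-leg, winding weight (helper61)

Rows `i s, 0, …, 0` (`j + 1` rows), legs at `i t`, anti-legs at `0`, coefficient `u j n`,
`‖u j n‖ = 1`.

* `NvU u m z x`: the function `PfV z 0 x x * ∑ n ≤ 2 m, u n * DZ .. n`, literally;
* `NvU_FF`: its values on the imaginary axis;
* **`zlegVu`**: the two derivative lines of `zlegV_of`, for any `f` with
  `f j (i s) (i τ) = NvU (u j) (j + 1) (i τ) (i s, 0, …, 0)`;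
* **`F_oneVu`**: `F[1] = f j (i s) (i t)`;
* **`zlegVX`**, `F_oneVX`: `u j n = ζ ^ (j + 1 - n)`, `ζ = zz j`, `‖zz j‖ = 1`.
-/

set_option autoImplicit false
set_option linter.unusedSectionVars false
set_option linter.unusedVariables false

noncomputable section

open Complex MeasureTheory Finset Filter Topology
open scoped ENNReal

namespace PVLg

open NUO NUP1S NUP1S.AbC NUGC NUCR PBF PBFunc
open PBI (Stt)
open NUMF (l P)
open PBU (Fam UB DN BC nu1)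
open PBLg
open PBX (Lg XX gP DZ Rws)
open Pool.Agent.PB (Pf cn)
open PBR (rh)
open PBL (mu1)
open PV (LV ZV AV PfV famV)
open WND (T0u T1u T2u WTu T0u_eq tw norm_tw)

attribute [local instance] NUSea.seaP

/-- the function with the coefficient `u n` -/
def NvU {m : ℕ} (u : ℕ → ℂ) (z : ℂ) (x : Fin m → ℂ) : ℂ :=
  PfV z 0 x x * ∑ n ∈ range (2 * m + 1), u n * DZ (cn m) (cn m) (LV z 0) (LV z 0) x x n

/-- **the function on the imaginary axis** -/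
theorem NvU_FF {ep e1 J : ℝ} (hep : 0 < ep) (hep1 : ep ≤ 1 / 100) (he : 0 < e1)
    (he1 : e1 ≤ 1 / 100) (hJ : 0 ≤ J) : ∀ᶠ j : ℕ in atTop, ∀ (u : ℕ → ℂ) (s τ : ℝ),
    NvU u (I * τ) (mu1 j (I * s)) = RV τ * (ccV j s τ * ∑ n ∈ range (2 * (j + 1) + 1), u n *
      FF (Zm (Z0V (4 / 3 * (1 - ep)) (mu1 j (I * s)) [I, -I] [] 0) (lgK (I * τ)))
        (NUSea.O.par0 (j + 1)) n n (PBU.cr e1 J (j + 1)) (PBU.cr' e1 J (j + 1))
        (fun _ _ _ _ _ => 1)) := by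
  have hl := NUMF.l_pos
  have hl1 : NUP1.l = l := rfl
  obtain ⟨mc, -, Hcur⟩ := curZ_crs he he1 hJ hep
  filter_upwards [eventually_ge_atTop mc] with j h1 u s τ
  have hRws : Rws (mu1 j (I * s)) := fun i => by
    rw [mu1_re, hl1, abs_zero]
    positivity
  unfold NvU
  rw [PfV_eq, mul_assoc]
  congr 2
  refine Finset.sum_congr rfl fun n _ => ?_
  congr 1
  rw [← ZV_Zm, ← ZV_ZV, LV_LgV]
  refine PVS.DZ_ZV (P := NUSea.O.par0 (j + 1)) (PBX.ParC_par0 (j + 1)) (PBX.rad_low (j + 1)) hep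
    hep1 (by linarith) (by linarith) hRws (ex := [I, -I]) (ex0 := []) ?_ (by simp) ?_ ?_ ?_
    (fun r _ => Eventually.of_forall fun O => Hcur (j + 1) (by omega) r O)
  · intro w hw
    rw [List.mem_cons, List.mem_singleton] at hw
    rcases hw with rfl | rfl
    · rw [Complex.I_re, abs_zero, hl1]
      positivity
    · rw [Complex.neg_re, Complex.I_re, neg_zero, abs_zero, hl1]
      positivity
  · rw [re_It, hl1]
    linarith
  · rw [re_It, hl1]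
    positivity
  · rw [Complex.zero_re, abs_zero, hl1]
    positivity

/-- the weight of the family with an anti-leg, coefficient `u j n` -/
abbrev wVu (ep e1 J : ℝ) (u : ℕ → ℕ → ℂ) (j : ℕ) (s t : ℝ) : CfN (2 * (j + 1)) → ℂ :=
  wFu famV ep e1 J (fun s t => ((I * s, I * t) : ℂ × ℂ)) u j s t

/-- **(Z)**: the derivatives in the height of the legs, one anti-leg; `3 e1 + ε ≤ c` -/
theorem zlegVu {u : ℕ → ℕ → ℂ} (hu : ∀ j n, ‖u j n‖ = 1) {ep e1 J K ε c : ℝ} {p : ℕ}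
    (hU : UB famV ep e1 J p K ε) (hp : 0 < p)
    (hK : 6 ≤ K) (hep : 0 < ep) (hep1 : ep ≤ 1 / 100) (he : 0 < e1) (he1 : e1 ≤ 1 / 100)
    (hJ : 0 ≤ J) (hc : 3 * e1 + ε ≤ c) {f : ℕ → ℂ → ℂ → ℂ}
    (hf : ∀ (j : ℕ) (s τ : ℝ), |s| ≤ 1 → f j (I * s) (I * τ) =
      NvU (u j) (I * τ) (mu1 j (I * s))) {S : Set ℂ} (hS' : IsOpen S)
    (hmem : ∀ τ : ℝ, I * (τ : ℂ) ∈ S)
    (hfd : ∀ (j : ℕ) (s : ℝ), |s| ≤ 1 → DifferentiableOn ℂ (f j (I * s)) S) :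
    ∃ C : ℝ, 0 < C ∧ ∀ᶠ j : ℕ in atTop, ∀ s t : ℝ, |s| ≤ 1 → |t| ≤ 1 →
      ‖PBFunc.F (mN (2 * (j + 1))) (wVu ep e1 J u j s t)
          (Vp (rhS (hS j s)) (fun _ => PBU.cr e1 J (j + 1)) (PBEI.h0T t)) +
        (I * deriv (fun z => f j (I * s) z) (I * t) - p0V t * f j (I * s) (I * t))‖ ≤
          C * (j : ℝ) ^ c ∧
      ‖PBFunc.F (mN (2 * (j + 1))) (wVu ep e1 J u j s t)
          (fun ω => Vp (rhS (hS j s)) (fun _ => PBU.cr e1 J (j + 1)) (PBEI.h0T t) ω *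
            Vp (rhS (hS j s)) (fun _ => PBU.cr e1 J (j + 1)) (PBEI.h0T t) ω) +
        PBFunc.F (mN (2 * (j + 1))) (wVu ep e1 J u j s t)
          (Vp (rhS (hS j s)) (fun _ => PBU.cr e1 J (j + 1)) (PBEI.g2T t)) -
        (-deriv (deriv fun z => f j (I * s) z) (I * t) -
          2 * p0V t * (I * deriv (fun z => f j (I * s) z) (I * t)) +
          (p0V t ^ 2 - p1V t) * f j (I * s) (I * t))‖ ≤ C * (j : ℝ) ^ c := by
  have hE := Real.exp_pos 4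
  refine (legV ep).zlegU hu hU hp hK hep he he1 hJ hasDerivAt_RV hasDerivAt_p0V
    (f := fun j s z => f j (I * s) z) hS' hmem hfd ?_ (b := 3 / 4) (B := Real.exp 4) hE.le ?_
    (by linarith)
  · filter_upwards [NvU_FF hep hep1 he he1 hJ] with j h s τ hs
    rw [hf j s τ hs]
    exact h (u j) s τ
  · intro j s t hs ht
    show ((j + 1 : ℕ) : ℝ) ^ (3 / 4 : ℝ) * Real.exp (4 * |(I * (t : ℂ)).im|) ≤ _
    rw [show (I * (t : ℂ)).im = t by simp, mul_comm]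
    refine mul_le_mul_of_nonneg_right (Real.exp_le_exp.2 (by linarith)) (by positivity)

/-- **the value of the functional at `1`** -/
theorem F_oneVu {u : ℕ → ℕ → ℂ} (hu : ∀ j n, ‖u j n‖ = 1) {ep e1 J K ε : ℝ} {p : ℕ}
    (hU : UB famV ep e1 J p K ε) (hK : 1 ≤ K) (hep : 0 < ep)
    (hep1 : ep ≤ 1 / 100) (he : 0 < e1) (he1 : e1 ≤ 1 / 100) (hJ : 0 ≤ J) :
    ∀ᶠ j : ℕ in atTop, ∀ s t : ℝ, |s| ≤ 1 →
      PBFunc.F (mN (2 * (j + 1))) (wVu ep e1 J u j s t) (fun _ => 1) =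
        NvU (u j) (I * t) (mu1 j (I * s)) := by
  filter_upwards [(legV ep).legH hU hK he he1 hJ, NvU_FF hep hep1 he he1 hJ] with j hH hf s t hs
  have H := hH s hs
  have hw : wVu ep e1 J u j s t = fun x => RV t *
      WTu (Z0V (4 / 3 * (1 - ep)) (mu1 j (I * s)) [I, -I] [] 0) (NUSea.O.par0 (j + 1))
        (2 * (j + 1)) (fun _ => PBU.cr e1 J (j + 1)) (fun _ => PBU.cr' e1 J (j + 1))
        (u j) (ccV j s) t x := by
    unfold WTu wVu wFu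
    rw [(legV ep).Z, (legV ep).Pf, ← wN_smul]
    congr 1
    funext n
    ring
  rw [hw, F_smul, hf (u j) s t]
  congr 1
  exact T0u_eq H (hu j) t

/-! ### the winding weight -/

/-- **(Z)** with the winding weight `zz j` at the level `j` -/
theorem zlegVX {zz : ℕ → ℂ} (hz : ∀ j, ‖zz j‖ = 1) {ep e1 J K ε c : ℝ} {p : ℕ}
    (hU : UB famV ep e1 J p K ε) (hp : 0 < p)
    (hK : 6 ≤ K) (hep : 0 < ep) (hep1 : ep ≤ 1 / 100) (he : 0 < e1) (he1 : e1 ≤ 1 / 100)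
    (hJ : 0 ≤ J) (hc : 3 * e1 + ε ≤ c) {f : ℕ → ℂ → ℂ → ℂ}
    (hf : ∀ (j : ℕ) (s τ : ℝ), |s| ≤ 1 → f j (I * s) (I * τ) =
      NvU (tw (zz j) (j + 1)) (I * τ) (mu1 j (I * s))) {S : Set ℂ} (hS' : IsOpen S)
    (hmem : ∀ τ : ℝ, I * (τ : ℂ) ∈ S)
    (hfd : ∀ (j : ℕ) (s : ℝ), |s| ≤ 1 → DifferentiableOn ℂ (f j (I * s)) S) :
    ∃ C : ℝ, 0 < C ∧ ∀ᶠ j : ℕ in atTop, ∀ s t : ℝ, |s| ≤ 1 → |t| ≤ 1 →
      ‖PBFunc.F (mN (2 * (j + 1))) (wVu ep e1 J (fun j => tw (zz j) (j + 1)) j s t)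
          (Vp (rhS (hS j s)) (fun _ => PBU.cr e1 J (j + 1)) (PBEI.h0T t)) +
        (I * deriv (fun z => f j (I * s) z) (I * t) - p0V t * f j (I * s) (I * t))‖ ≤
          C * (j : ℝ) ^ c ∧
      ‖PBFunc.F (mN (2 * (j + 1))) (wVu ep e1 J (fun j => tw (zz j) (j + 1)) j s t)
          (fun ω => Vp (rhS (hS j s)) (fun _ => PBU.cr e1 J (j + 1)) (PBEI.h0T t) ω *
            Vp (rhS (hS j s)) (fun _ => PBU.cr e1 J (j + 1)) (PBEI.h0T t) ω) +
        PBFunc.F (mN (2 * (j + 1))) (wVu ep e1 J (fun j => tw (zz j) (j + 1)) j s t)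
          (Vp (rhS (hS j s)) (fun _ => PBU.cr e1 J (j + 1)) (PBEI.g2T t)) -
        (-deriv (deriv fun z => f j (I * s) z) (I * t) -
          2 * p0V t * (I * deriv (fun z => f j (I * s) z) (I * t)) +
          (p0V t ^ 2 - p1V t) * f j (I * s) (I * t))‖ ≤ C * (j : ℝ) ^ c :=
  zlegVu (fun j n => norm_tw (hz j) _ _) hU hp hK hep hep1 he he1 hJ hc hf hS' hmem hfd

theorem F_oneVX {zz : ℕ → ℂ} (hz : ∀ j, ‖zz j‖ = 1) {ep e1 J K ε : ℝ} {p : ℕ}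
    (hU : UB famV ep e1 J p K ε) (hK : 1 ≤ K) (hep : 0 < ep)
    (hep1 : ep ≤ 1 / 100) (he : 0 < e1) (he1 : e1 ≤ 1 / 100) (hJ : 0 ≤ J) :
    ∀ᶠ j : ℕ in atTop, ∀ s t : ℝ, |s| ≤ 1 →
      PBFunc.F (mN (2 * (j + 1))) (wVu ep e1 J (fun j => tw (zz j) (j + 1)) j s t) (fun _ => 1) =
        NvU (tw (zz j) (j + 1)) (I * t) (mu1 j (I * s)) :=
  F_oneVu (fun j n => norm_tw (hz j) _ _) hU hK hep hep1 he he1 hJ

end PVLg

end
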